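import Pool.Agent.IDK.Sym
import Pool.Agent.FKR.TwoLow

/-! # IDK/ArmZ (MP_b3e76a_pr): lower bounds for the point `(0, 0)` of the flat boundary, in `ℤ × ℤ`

`armZ`: `arm_core` (FKR/ArmCore) with `m = 2` and `P_hc` with `F = ∅`: if `Hit (ch 0) tip x x r (img hc ω)` at `p`, `p ∈ bxx x x r` (`r ≤ x`, so `p` has nonnegative coordinates),
then `ch 0 p = hc (p.2, p.1)` (`hc_swap`), `Cn_hc` gives `Cn ω (0, 0) (p.2, p.1)`, and `(p.2, p.1) ∈ bxx x x r`.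
`twoZ`: for `k ≥ k0`: `two_low` with `m = 2`, `hc (0, k) = ch 0 (k, 0)`. For `k < k0`: `P q (HE N) ∅ A ≥ P q (HE (2k)) ∅ A > 0` (`P_HE_mono`, `P_pos_full`: the column `x = 0` is
connected in `HE (2k)`), a minimum over finitely many `k`, and `wA ≤ 1`. -/

namespace Pool.Agent.IDK

open Finset
open Pool.Agent.FKR
open Pool.Agent.H95.Perc (Inc conn link rect hor ver eh ev mem_rect)
open Pool.Agent.H95.SumRule (edgesIn Z2)
open Pool.Agent.H95.Wedge (Vtx pt)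

variable {q : ℝ}

theorem az_zero (hq : 0 < q) (N : ℕ) (A : Finset (Sym2 Vtx) → Prop) :
    P q (WE 2 N) ∅ A = P q (HE N) ∅ (fun ω => A (img hc ω)) := by
  have h := P_hc hq N (F := ∅) (empty_subset _) A
  have e : img hc (∅ : Finset (Sym2 (ℤ × ℤ))) = ∅ := by
    unfold img
    exact image_empty _
  rwa [e] at h

theorem armZ (hq : 1 ≤ q) (hu : UU q) : ∃ c : ℝ, 0 < c ∧ ∃ n0 : ℕ, 1 ≤ n0 ∧ ∀ N : ℕ, n0 ≤ N →
    c * wA q 2 N ≤ P q (HE N) ∅ (fun ω =>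
      ∃ p ∈ bxx ((N / 4 : ℕ) : ℤ) ((N / 4 : ℕ) : ℤ) ((N / 400 : ℕ) : ℤ), Cn ω (0, 0) p) := by
  have hq0 : 0 < q := by linarith
  obtain ⟨c, hc0, n0, hn0, h⟩ := arm_core hq hu (m := 2) (by norm_num)
  refine ⟨c, hc0, n0, hn0, fun N hN => (h N hN).trans ?_⟩
  rw [az_zero hq0]
  apply P_mono hq0
  rintro ζ hζ ⟨p, hp, hcn⟩
  rw [union_empty] at hcn ⊢
  unfold bxx at hp
  rw [mem_rect] at hp
  have h1 : 0 ≤ p.1 := by omega
  have h2 : 0 ≤ p.2 := by omega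
  refine ⟨(p.2, p.1), ?_, ?_⟩
  · unfold bxx
    rw [mem_rect]
    simp only
    omega
  · have e : ch 0 p = hc (p.2, p.1) := (hc_swap h1 h2).symm
    rw [e, ← hc_zero] at hcn
    exact (Cn_hc hζ (by simp) h2).mp hcn

theorem az_col (k : ℕ) : ∀ i : ℕ, i ≤ k → Cn (HE ((2 * k : ℕ) : ℤ)) (0, 0) (0, (i : ℤ)) := by
  intro i
  induction i with
  | zero =>
    intro _
    exact Cn_refl _ _
  | succ i ih =>
    intro hi
    refine (ih (by omega)).trans (Cn_edge ?_)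
    rw [mem_HE, mem_HB, mem_HB, Z2_adj_iff]
    refine ⟨⟨?_, ?_, ?_, ?_⟩, ⟨?_, ?_, ?_, ?_⟩, Or.inl ⟨rfl, Or.inr ?_⟩⟩ <;> push_cast <;> omega

theorem az_min (f : ℕ → ℝ) (hf : ∀ k, 0 < f k) (n : ℕ) : ∃ c : ℝ, 0 < c ∧ ∀ k < n, c ≤ f k := by
  induction n with
  | zero => exact ⟨1, one_pos, fun k hk => absurd hk (by omega)⟩
  | succ n ih =>
    obtain ⟨c, hc0, h⟩ := ih
    refine ⟨min c (f n), lt_min hc0 (hf n), fun k hk => ?_⟩
    rcases Nat.lt_succ_iff_lt_or_eq.mp hk with h1 | h1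
    · exact (min_le_left _ _).trans (h k h1)
    · rw [h1]; exact min_le_right _ _

theorem twoZ (hq : 1 ≤ q) (hu : UU q) : ∃ c : ℝ, 0 < c ∧ ∀ k N : ℕ, 1 ≤ k → 2 * k ≤ N →
    c * wA q 2 k ^ 2 ≤ P q (HE N) ∅ (fun ω => Cn ω (0, 0) (0, (k : ℤ))) := by
  have hq0 : 0 < q := by linarith
  obtain ⟨c, hc0, k0, hk0, h⟩ := two_low hq hu (m := 2) (by norm_num)
  obtain ⟨c', hc0', h'⟩ := az_min
    (fun k => P q (HE ((2 * k : ℕ) : ℤ)) ∅ (fun ω => Cn ω (0, 0) (0, (k : ℤ))))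
    (fun k => P_pos_full hq (HE_NL _) NL_empty (inc_Cn _ _) (az_col k k le_rfl)) k0
  refine ⟨min c c', lt_min hc0 hc0', ?_⟩
  intro k N hk hkN
  have hw0 : 0 ≤ wA q 2 k := P_nonneg hq0 _ _ _
  have hw1 : wA q 2 k ≤ 1 := P_le_one hq0 _ _ _
  have hw2 : wA q 2 k ^ 2 ≤ 1 := by nlinarith
  rcases lt_or_ge k k0 with hlt | hge
  · calc min c c' * wA q 2 k ^ 2 ≤ c' * 1 :=
          mul_le_mul (min_le_right _ _) hw2 (sq_nonneg _) hc0'.le
      _ = c' := mul_one _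
      _ ≤ _ := h' k hlt
      _ ≤ _ := P_HE_mono hq (by exact_mod_cast hkN) (inc_Cn _ _)
  · have h1 := h k N hge hkN
    rw [az_zero hq0] at h1
    calc min c c' * wA q 2 k ^ 2 ≤ c * (wA q 2 k * wA q 2 k) := by
          rw [← pow_two]
          exact mul_le_mul_of_nonneg_right (min_le_left _ _) (sq_nonneg _)
      _ ≤ _ := h1
      _ ≤ _ := by
          apply P_mono hq0
          intro ζ hζ hcn
          rw [union_empty] at hcn ⊢
          have e : ch 0 ((k : ℤ), 0) = hc (0, (k : ℤ)) := (hc_swap (by omega) le_rfl).symm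
          rw [e, ← hc_zero] at hcn
          exact (Cn_hc hζ (by simp) (by simp)).mp hcn

end Pool.Agent.IDK
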