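import Pool.Agent.IDK.Sym
import Pool.Agent.FKR.Hub

/-! # IDK/HCHub (MP_b3e76a_pr): paths crossing a half circuit are connected to it (deterministic)

Let `a1 - b1` be the crossing of `R1 = rect 0 (2n) n (2n)` (left-right), `a2 - b2` of `R2 = rect 0 (2n) (-2n) (-n)`, `c - d` of `R3 = rect n (2n) (-2n) (2n)` (bottom-top). `hv_cross` (FKR/Hub) in the squares `rect n (2n) n (2n)` and
`rect n (2n) (-2n) (-n)` shows `Cn κ a1 c`, `Cn κ a2 c` (pieces of `c - d`: `ver_piece`, or `hv_cross` directly, which allows longer rectangles). Take `u = c` (`c.2 = -2n`, so `c ∉ HB (n-1)`, `c ∈ HB (2n)`).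
Let `p ∈ HB n`, `w ∉ HB (2n-1)`, `Cn κ p w`. By `Cn.exit` with `S v = (v ∈ HB (2n-1))` (`p ∈ HB (2n - 1)` if `n ≥ 2`; for `n = 1` use `HB (2n-1) = HB n`): a vertex `w'` reached inside, with an edge to a vertex outside of `HB (2n-1)`, so that
`z` = this outer vertex has `z.1 = 2n`, or `z.2 = 2n`, or `z.2 = -2n` and the path before is in `HB (2n - 1)`. In the case `z.2 = 2n`: `hub_middle` (FKR/Hub) with `f v = v.2`, `s = n`, `t = 2n` gives a connection of `R1` from `y = n` to `y = 2n`; `hv_cross`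
with `a1 - b1`. Case `z.1 = 2n`: `f v = v.1`, and the crossing of `R3` from left to right meets `c - d`. Case `z.2 = -2n`: symmetric. See the proof of `Hub_cross` in FKR/Hub. -/

namespace Pool.Agent.IDK

open Finset
open Pool.Agent.FKR
open Pool.Agent.H95.Perc (Inc conn link rect hor ver eh ev mem_rect)
open Pool.Agent.H95.SumRule (edgesIn Z2)
open Pool.Agent.H95.Wedge (Vtx pt)

variable {q : ℝ}

private theorem conn_mem_of {V W : Finset (ℤ × ℤ)} {κ : Finset (Sym2 (ℤ × ℤ))}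
    (_hκ : κ ⊆ edgesIn V) {c d : ℤ × ℤ} (hne : c ≠ d) (h : conn W κ c d) : c ∈ W := by
  obtain ⟨e, he, hce⟩ := mem_vts.1 (Cn.mem_vts (ω := κ ∩ edgesIn W) h hne).1
  induction e with
  | _ a b =>
    have he' := Pool.Agent.H95.Perc.mem_edgesIn'.1 (mem_inter.1 he).2
    rw [Sym2.mem_iff] at hce
    rcases hce with rfl | rfl
    · exact he'.1
    · exact he'.2.1

theorem HC_hub {n N : ℤ} (hn : 1 ≤ n) {κ : Finset (Sym2 (ℤ × ℤ))} (hκ : κ ⊆ HE N) (h : HC n κ) :
    ∃ u, u ∈ HB (2 * n) ∧ u ∉ HB (n - 1) ∧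
      ∀ p ∈ HB n, ∀ w, w ∉ HB (2 * n - 1) → Cn κ p w → Cn κ p u := by
  have hκ' : κ ⊆ edgesIn (HB N) := hκ
  obtain ⟨⟨a1, b1, ha1, hb1, ha1', hb1', hab1⟩, ⟨a2, b2, ha2, hb2, ha2', hb2', hab2⟩,
    ⟨c, d, hc, hd, hc', hd', hcd⟩⟩ := h
  have k1 : Cn κ a1 c := hv_cross (by omega) (by omega) (by omega) (by omega) (by omega)
    (by omega) ha1 ha1' hb1' hab1 hc hc' hd' hcd
  have k2 : Cn κ a2 c := hv_cross (by omega) (by omega) (by omega) (by omega) (by omega)
    (by omega) ha2 ha2' hb2' hab2 hc hc' hd' hcd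
  refine ⟨c, ?_, ?_, ?_⟩
  · rw [mem_rect] at hc
    rw [mem_HB]
    omega
  · rw [mem_HB]
    omega
  intro p hp w hw hpw
  have hp' : p ∈ HB (2 * n - 1) := by
    rw [mem_HB] at hp ⊢
    omega
  obtain ⟨z, z', hz, hz', hzz, hpz⟩ := hpw.exit (S := fun v => v ∈ HB (2 * n - 1)) hp' hw
  have hstep := hub_step_fst hκ' z z' hzz
  have hz'0 : 0 ≤ z'.1 := (mem_HB.1 (mem_HE.1 (hκ hzz)).2.1).1
  have hpz' : Cn (ins (fun v => v ∈ HB (2 * n)) κ) p z' := by
    refine Cn.trans (hpz.mono ?_) (Cn_edge ?_)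
    · intro e he
      rw [mem_ins'] at he ⊢
      refine ⟨he.1, fun v hv => ?_⟩
      have := he.2 v hv
      rw [mem_HB] at this ⊢
      omega
    · rw [mem_ins']
      refine ⟨hzz, fun v hv => ?_⟩
      rw [Sym2.mem_iff] at hv
      rw [mem_HB] at hz ⊢
      rcases hv with rfl | rfl
      · omega
      · omega
  have hcase : z'.2 = 2 * n ∨ z'.2 = -(2 * n) ∨ z'.1 = 2 * n := by
    rw [mem_HB] at hz hz'
    omega
  have hpb := mem_HB.1 hp
  rcases hcase with h1 | h1 | h1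
  · obtain ⟨c1, d1, hc1, hd1, hpc, hcd1⟩ := hub_middle hκ' hpz' (f := Prod.snd)
      (W := rect 0 (2 * n) n (2 * n)) (s := n) (t := 2 * n)
      (fun a b hab => (hub_step_fst hκ' a b hab).2.2.1) (by omega) (by omega) (by omega)
      (by
        intro a ha h2 h3
        rw [mem_HB] at ha
        rw [mem_rect]
        omega)
    have hcW := conn_mem_of hκ' (by rintro rfl; omega) hcd1
    have k := cross_conn (by omega) ha1 hb1 hcW (hcd1.mem hcW) ha1' hb1' hc1 hd1 hab1 hcd1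
    exact (hpc.trans (hub_conn_Cn k).symm).trans k1
  · obtain ⟨c1, d1, hc1, hd1, hpc, hcd1⟩ := hub_middle hκ' hpz' (f := fun v => -v.2)
      (W := rect 0 (2 * n) (-(2 * n)) (-n)) (s := n) (t := 2 * n)
      (fun a b hab => by have := (hub_step_fst hκ' a b hab).2.2.2.1; omega)
      (by omega) (by omega) (by omega)
      (by
        intro a ha h2 h3
        rw [mem_HB] at ha
        rw [mem_rect]
        omega)
    have hcW := conn_mem_of hκ' (by rintro rfl; omega) hcd1
    have k := cross_conn (by omega) ha2 hb2 (hcd1.mem hcW) hcW ha2' hb2' (by omega) (by omega) hab2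
      hcd1.symm
    exact ((hpc.trans (hub_conn_Cn hcd1)).trans (hub_conn_Cn k).symm).trans k2
  · obtain ⟨c1, d1, hc1, hd1, hpc, hcd1⟩ := hub_middle hκ' hpz' (f := Prod.fst)
      (W := rect n (2 * n) (-(2 * n)) (2 * n)) (s := n) (t := 2 * n)
      (fun a b hab => (hub_step_fst hκ' a b hab).1) (by omega) (by omega) (by omega)
      (by
        intro a ha h2 h3
        rw [mem_HB] at ha
        rw [mem_rect]
        omega)
    have hcW := conn_mem_of hκ' (by rintro rfl; omega) hcd1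
    have k := cross_conn (by omega) hcW (hcd1.mem hcW) hc hd hc1 hd1 hc' hd' hcd1 hcd
    exact hpc.trans (hub_conn_Cn k)

end Pool.Agent.IDK
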