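import Pool.Agent.IDK.HCge
import Pool.Agent.IDK.HCHub

/-! # IDK/ExtB (MP_b3e76a_pr): extension of arms

FKG (`P_fkg` twice) for the increasing events `Out A (2n)`, `HC n` (`hc_ge`, `P_HE_mono`, `4 n ≤ N`) and the radial event of `radial` (`(S + 1) n ≤ N`): on their intersection, for `ω ⊆ HE N`: `HC_hub` gives `u`; some `a ∈ A ⊆ HB n` is connected to a vertex outside `HB (2n-1)`, so `Cn ω a u`; some `u' ∈ HB n`, `w ∉ HB (S n - 1)` have `Cn ω u' w`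
(`w ∉ HB (2n - 1)` since `2 ≤ S`), so `Cn ω u' u`; hence `Cn ω a w`: `Out A (S n) ω`. -/

namespace Pool.Agent.IDK

open Finset
open Pool.Agent.FKR
open Pool.Agent.H95.Perc (Inc conn link rect hor ver eh ev sumE sepE Inci mem_rect)
open Pool.Agent.H95.SumRule (edgesIn Z2)

variable {q : ℝ}

theorem extB (hq : 1 ≤ q) (hq4 : q < 4) (hu : UU q) (S : ℕ) (hS : 2 ≤ S) : ∃ c : ℝ, 0 < c ∧
    ∀ (n : ℕ) (N : ℤ) (A : Finset (ℤ × ℤ)), 1 ≤ n → (S + 4) * n ≤ N → A ⊆ HB n →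
    c * P q (HE N) ∅ (Out A (2 * n)) ≤ P q (HE N) ∅ (Out A (S * n)) := by
  have hq0 : 0 < q := by linarith
  obtain ⟨c1, hc1, h1⟩ := hc_ge hq hq4 hu
  obtain ⟨c2, hc2, h2⟩ := radial hq hu S (by omega)
  refine ⟨c1 * c2, by positivity, fun n N A hn hN hA => ?_⟩
  have hn1 : (1 : ℤ) ≤ n := by exact_mod_cast hn
  have hS0 : (0 : ℤ) ≤ S * n := by positivity
  have hSn : ((S : ℤ) + 4) * n = S * n + 4 * n := by ring
  have hSn1 : ((S : ℤ) + 1) * n = S * n + n := by ring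
  have hS2 : 2 * (n : ℤ) ≤ S * n :=
    mul_le_mul_of_nonneg_right (by exact_mod_cast hS) (by omega)
  have hIR : Inc (fun ω => ∃ u ∈ HB n, ∃ w, w ∉ HB (S * n - 1) ∧ Cn ω u w) := by
    rintro ω ω' hs ⟨u, hu, w, hw, h⟩
    exact ⟨u, hu, w, hw, h.mono hs⟩
  have b1 : c1 ≤ P q (HE N) ∅ (HC n) :=
    (h1 n hn).trans (P_HE_mono hq (by omega) (inc_HC _))
  have b2 : c2 ≤ P q (HE N) ∅ (fun ω => ∃ u ∈ HB n, ∃ w, w ∉ HB (S * n - 1) ∧ Cn ω u w) :=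
    (h2 n hn).trans (P_HE_mono hq (by omega) hIR)
  have f1 := P_fkg hq (HE_NL N) NL_empty (inc_HC (n : ℤ)) hIR
  have f2 := P_fkg hq (HE_NL N) NL_empty (A := Out A (2 * n))
    (B := fun ω => HC n ω ∧ ∃ u ∈ HB n, ∃ w, w ∉ HB (S * n - 1) ∧ Cn ω u w)
    (inc_Out _ _) (fun _ _ h h' => ⟨inc_HC _ _ _ h h'.1, hIR _ _ h h'.2⟩)
  have g1 : c1 * c2 ≤ P q (HE N) ∅ (HC n) *
      P q (HE N) ∅ (fun ω => ∃ u ∈ HB n, ∃ w, w ∉ HB (S * n - 1) ∧ Cn ω u w) :=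
    mul_le_mul b1 b2 hc2.le (hc1.le.trans b1)
  have g2 := mul_le_mul_of_nonneg_left (g1.trans f1) (P_nonneg hq0 (HE N) ∅ (Out A (2 * n)))
  rw [mul_comm (c1 * c2)]
  refine (g2.trans f2).trans (P_mono hq0 fun ζ hζ h => ?_)
  rw [union_empty] at h ⊢
  obtain ⟨⟨a, ha, v, hv, hav⟩, hHC, u', hu', w, hw, huw⟩ := h
  obtain ⟨u, _, _, hub⟩ := HC_hub hn1 hζ hHC
  have e1 : Cn ζ a u := hub a (hA ha) v hv hav
  have hw' : w ∉ HB (2 * n - 1) := by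
    intro hcon
    apply hw
    rw [mem_HB] at hcon ⊢
    omega
  have e2 : Cn ζ u' u := hub u' hu' w hw' huw
  exact ⟨a, ha, w, hw, (e1.trans e2.symm).trans huw⟩

end Pool.Agent.IDK
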