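import Pool.Agent.IDK.Sym
import Pool.Agent.FKR.ArmUp

/-! # IDK/FarmZ (MP_b3e76a_pr): upper bound of the arm of a point of a free flat boundary, graph in `ℤ × ℤ`

`farm_up` (FKR/ArmUp) is stated for graphs with vertices in `Vtx`. Let `ι (x, y) = (x, Encodable.encode y, 0)`, an injection `ℤ × ℤ → Vtx`. By `P_map`
`P q (img ι E) (img ι F) A = P q E F (fun ω => A (img ι ω))`; apply `farm_up` with `f = ι ∘ g` (`FlatLoc` from `hg`, `hloc`; `img ι (img g X) = img (ι ∘ g) X`), and if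
`v ∉ (HB (n - 1)).image g` and `Cn ω (g (0, 0)) v` then `FArm (ι ∘ g) n (img ι ω)` (`Cn_img`, injectivity of `ι`). Note
`HB (n - 1) = rect 0 (n - 1) (-(n - 1)) (n - 1)`.
`armF`: `P_indep_le` with `D = E ∩ img g (HE ρ)`, `A` = the exit event, `B`; for `η ⊆ E \\ D` apply `farmZ` with `E = D`, frozen `F ∪ η` (an edge of `η` at a vertex of
`g (HB (ρ - 1))` would be in `D` by `loc`). Note that `E` need not contain the whole image of the half box. -/

namespace Pool.Agent.IDK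

open Finset
open Pool.Agent.FKR
open Pool.Agent.H95.Perc (Inc conn link rect hor ver eh ev mem_rect)
open Pool.Agent.H95.SumRule (edgesIn Z2)
open Pool.Agent.H95.Wedge (Vtx pt)

variable {q : ℝ}

/-- an injection -/
private def fzi (p : ℤ × ℤ) : Vtx := (p.1, Encodable.encode p.2, 0)

private theorem fzi_inj : Function.Injective fzi := by
  rintro ⟨a, b⟩ ⟨c, d⟩ h
  unfold fzi at h
  simp only [Prod.mk.injEq, and_true] at h
  rw [h.1, Encodable.encode_injective h.2]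

private theorem fz_img (g : ℤ × ℤ → ℤ × ℤ) (X : Finset (Sym2 (ℤ × ℤ))) :
    img fzi (img g X) = img (fun p => fzi (g p)) X := by
  unfold img
  rw [image_image]
  congr 1
  funext e
  induction e with
  | _ u v => simp

theorem farmZ (hq : 1 ≤ q) {n : ℕ} (hn : 1 ≤ n) {g : ℤ × ℤ → ℤ × ℤ} {E F : Finset (Sym2 (ℤ × ℤ))}
    (hE : NL E) (hF : NL F) (hg : Set.InjOn g (HB n : Set (ℤ × ℤ)))
    (hloc : ∀ e ∈ E, ∀ p ∈ HB ((n : ℤ) - 1), g p ∈ e → e ∈ img g (HE n))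
    (hF' : ∀ e ∈ F, ∀ p ∈ HB ((n : ℤ) - 1), g p ∉ e) :
    P q E F (fun ω => ∃ v, v ∉ (HB ((n : ℤ) - 1)).image g ∧ Cn ω (g (0, 0)) v) ≤ wA q 2 n := by
  have hq0 : 0 < q := by linarith
  have hb : HB ((n : ℤ) - 1) = rect 0 ((n : ℤ) - 1) (-(n : ℤ) + 1) ((n : ℤ) - 1) := by
    unfold HB
    congr 1
    ring
  have h1 : P q E F (fun ω => ∃ v, v ∉ (HB ((n : ℤ) - 1)).image g ∧ Cn ω (g (0, 0)) v) ≤
      P q E F (fun ω => FArm (fun p => fzi (g p)) n (img fzi ω)) := by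
    refine P_mono hq0 fun ζ _ hA => ?_
    obtain ⟨v, hv, hcn⟩ := hA
    refine ⟨fzi v, ?_, Cn_img hcn⟩
    intro hmem
    apply hv
    rw [mem_image] at hmem ⊢
    obtain ⟨p, hp, hpv⟩ := hmem
    exact ⟨p, by rw [hb]; exact hp, fzi_inj hpv⟩
  refine h1.trans ?_
  rw [← P_map hq0 hE hF (f := fzi) fzi_inj.injOn (FArm (fun p => fzi (g p)) n)]
  refine farm_up hq hn (NL_img fzi_inj.injOn hE) (NL_img fzi_inj.injOn hF) ⟨?_, ?_⟩ ?_
  · intro a ha b hb' hab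
    exact hg ha hb' (fzi_inj hab)
  · intro e he p hp hpe
    unfold img at he
    rw [mem_image] at he
    obtain ⟨e', he', rfl⟩ := he
    rw [Sym2.mem_map] at hpe
    obtain ⟨a, ha, hag⟩ := hpe
    have hag' : a = g p := fzi_inj hag
    rw [hag'] at ha
    have h2 := hloc e' he' p (by rw [hb]; exact hp) ha
    have h3 : Sym2.map fzi e' ∈ img fzi (img g (HE n)) := mem_image_of_mem _ h2
    rw [fz_img] at h3
    exact h3
  · intro e he p hp hpe
    unfold img at he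
    rw [mem_image] at he
    obtain ⟨e', he', rfl⟩ := he
    rw [Sym2.mem_map] at hpe
    obtain ⟨a, ha, hag⟩ := hpe
    have hag' : a = g p := fzi_inj hag
    rw [hag'] at ha
    exact hF' e' he' p (by rw [hb]; exact hp) ha

theorem armF (hq : 1 ≤ q) {ρ : ℕ} (hρ : 1 ≤ ρ) {g : (ℤ × ℤ) ≃ (ℤ × ℤ)} {E F : Finset (Sym2 (ℤ × ℤ))}
    (hE : NL E) (hF : NL F)
    (loc : ∀ e ∈ E, ∀ p ∈ HB ((ρ : ℤ) - 1), g p ∈ e → e ∈ img g (HE ρ))
    (fr : ∀ e ∈ F, ∀ p ∈ HB ((ρ : ℤ) - 1), g p ∉ e) {B : Finset (Sym2 (ℤ × ℤ)) → Prop}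
    (hB : ∀ ω ω', ω ⊆ E ∪ F → ω' ⊆ E ∪ F →
      ω \ (E ∩ img g (HE ρ)) = ω' \ (E ∩ img g (HE ρ)) → B ω → B ω') :
    P q E F (fun ω => (∃ v, v ∉ (HB ((ρ : ℤ) - 1)).image g ∧ Cn ω (g (0, 0)) v) ∧ B ω) ≤
      wA q 2 ρ * P q E F B := by
  have hq0 : 0 < q := by linarith
  refine P_indep_le hq0 hE hF (D := E ∩ img g (HE ρ)) inter_subset_left hB ?_
  intro η hη
  have hηE : η ⊆ E := hη.trans sdiff_subset
  refine farmZ hq hρ (hE.mono inter_subset_left) (hF.union (hE.mono hηE)) g.injective.injOn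
    (fun e he _ _ _ => (mem_inter.1 he).2) ?_
  intro e he p hp hpe
  rcases mem_union.1 he with he | he
  · exact fr e he p hp hpe
  · have h2 := mem_sdiff.1 (hη he)
    exact h2.2 (mem_inter.2 ⟨h2.1, loc e h2.1 p hp hpe⟩)

end Pool.Agent.IDK
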