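import Pool.Agent.IDK.Second
import Pool.Agent.IDK.FarmZ

/-! # IDK/FlatSeg (MP_b3e76a_pr): a boundary segment is connected to a macroscopic distance

(1) `second` with `64 n`: `c * wA q 2 (64 n) ≤ P q (HE (256 n)) ∅ (∃ y ∈ [64n, 128n], Cn (0,0) (0,y))`. This event implies `X ∧ B`, `X`: `(0,0)` is connected to a vertex outside
`HB (8n - 1)`; `B`: `∃ u ∈ HB (8 n)`, `∃ y ∈ [64n, 128n]`, `Cn ω u (0, y)`. `armF` with `g = Equiv.refl`, `ρ = 8 n` (`B` only depends on the edges with an end outside `HB (8n)`: `Cn_tc_iff`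
from `(0, y)`): `≤ wA q 2 (8 n) * P B`. Hence `P B ≥ c wA q 2 (64 n) / wA q 2 (8 n) ≥ c'` (`wA_dbl` twice; small `n` by `wA_pos`).
(2) `[64n, 128n]` is covered by the segments of radius `n` around `y_i = 64 n + (2 i + 1) n`, `i < 33`. By `P_union` one of them has `P (∃ y, |y - y_i| ≤ n, ∃ u ∈ HB (8n), Cn ω u (0,y)) ≥ c' / 33`.
(3) Such a `u` is outside `HB (8 n - 1)` translated by `y_i`. Translate by `-y_i` (`P_tr_le` with `N = 256 n`, `N' = 512 n`, `|y_i| ≤ 129 n`). -/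

namespace Pool.Agent.IDK

open Finset
open Pool.Agent.FKR
open Pool.Agent.H95.Perc (Inc conn link rect hor ver eh ev mem_rect)
open Pool.Agent.H95.SumRule (edgesIn Z2)
open Pool.Agent.H95.Wedge (Vtx pt)

variable {q : ℝ}

attribute [local irreducible] wA P

private theorem fs_ratio (hq : 1 ≤ q) (hu : UU q) : ∃ K : ℝ, 0 < K ∧ ∀ n : ℕ, 1 ≤ n →
    wA q 2 (8 * n) ≤ K * wA q 2 (64 * n) := by
  obtain ⟨C, hC, n0, hn0, h⟩ := wA_dbl hq hu (show 1 ≤ 2 by norm_num)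
  have hp : 0 < wA q 2 (8 * n0) := wA_pos hq (by norm_num) _
  refine ⟨C ^ 2 + 1 / wA q 2 (8 * n0), by positivity, ?_⟩
  intro n hn
  have hw := wA_pos hq (show 1 ≤ 2 by norm_num) (64 * n)
  by_cases hc : n0 ≤ 8 * n
  · have h1 := h (8 * n) hc
    have h2 := h (4 * (8 * n)) (by omega)
    have h3 : wA q 2 (4 * (4 * (8 * n))) ≤ wA q 2 (64 * n) := wA_anti hq (by omega) (by omega)
    have h4 : C * wA q 2 (4 * (8 * n)) ≤ C * (C * wA q 2 (64 * n)) := by
      apply mul_le_mul_of_nonneg_left _ hC.le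
      exact h2.trans (mul_le_mul_of_nonneg_left h3 hC.le)
    have h5 : 0 ≤ 1 / wA q 2 (8 * n0) * wA q 2 (64 * n) := by positivity
    nlinarith
  · have h1 := wA_le_one hq 2 (8 * n)
    have h2 : wA q 2 (8 * n0) ≤ wA q 2 (64 * n) := wA_anti hq (by omega) (by omega)
    have h3 : 1 ≤ 1 / wA q 2 (8 * n0) * wA q 2 (64 * n) := by
      rw [one_div, inv_mul_eq_div, one_le_div hp]
      exact h2
    have h4 : 0 ≤ C ^ 2 * wA q 2 (64 * n) := by positivity
    nlinarith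

/-- the half box of radius `8 n` is connected to the boundary segment `[64 n, 128 n]` -/
private def fsB (n : ℕ) (ω : Finset (Sym2 (ℤ × ℤ))) : Prop :=
  ∃ u ∈ HB (8 * n), ∃ y ∈ Icc (64 * n : ℤ) (128 * n), Cn ω (0, y) u

private theorem fs_half (hq : 1 ≤ q) (hq4 : q < 4) (hu : UU q) : ∃ c : ℝ, 0 < c ∧ ∀ n : ℕ, 1 ≤ n →
    c ≤ P q (HE (256 * n)) ∅ (fsB n) := by
  have hq0 : 0 < q := by linarith
  obtain ⟨c, hc, h⟩ := second hq hq4 hu
  obtain ⟨K, hK, hr⟩ := fs_ratio hq hu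
  refine ⟨c / K, by positivity, ?_⟩
  intro n hn
  have h1 := h (64 * n) (256 * n) (by omega) (by omega)
  push_cast at h1
  have hdis : ∀ ω : Finset (Sym2 (ℤ × ℤ)), tc (fun p => p ∉ HB (8 * (n : ℤ))) ω ⊆
      ω \ (HE (256 * n) ∩ img (Equiv.refl (ℤ × ℤ)) (HE ((8 * n : ℕ) : ℤ))) := by
    intro ω e he
    rw [mem_tc'] at he
    obtain ⟨he, v, hve, hv⟩ := he
    rw [mem_sdiff]
    refine ⟨he, fun hh => hv ?_⟩
    rw [mem_inter] at hh
    obtain ⟨-, hh⟩ := hh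
    unfold img at hh
    rw [mem_image] at hh
    obtain ⟨e', he', rfl⟩ := hh
    induction e' with
    | _ a b =>
      rw [mem_HE] at he'
      rw [Sym2.map_mk, Equiv.refl_apply, Equiv.refl_apply, Sym2.mem_iff] at hve
      push_cast at he'
      rcases hve with rfl | rfl
      · exact he'.1
      · exact he'.2.1
  have h2 : P q (HE (256 * n)) ∅ (fun ω => ∃ y ∈ Icc (64 * n : ℤ) (2 * (64 * n)), Cn ω (0, 0) (0, y)) ≤
      P q (HE (256 * n)) ∅ (fun ω => (∃ v, v ∉ (HB (((8 * n : ℕ) : ℤ) - 1)).image (Equiv.refl (ℤ × ℤ)) ∧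
        Cn ω (Equiv.refl (ℤ × ℤ) (0, 0)) v) ∧
        fsB n (ω \ (HE (256 * n) ∩ img (Equiv.refl (ℤ × ℤ)) (HE ((8 * n : ℕ) : ℤ))))) := by
    apply P_mono hq0
    rintro ζ - ⟨y, hy, hcn⟩
    rw [mem_Icc] at hy
    constructor
    · refine ⟨(0, y), ?_, hcn⟩
      intro hh
      rw [mem_image] at hh
      obtain ⟨a, ha, hh⟩ := hh
      rw [Equiv.refl_apply] at hh
      subst hh
      rw [mem_HB] at ha
      push_cast at ha
      omega
    · obtain ⟨u, hu', hcu⟩ := hcn.symm.exit_tc (S := fun p => p ∉ HB (8 * (n : ℤ)))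
        (by rw [mem_HB]; simp only; omega) (by rw [not_not, mem_HB]; simp only; omega)
      refine ⟨u, not_not.1 hu', y, ?_, hcu.mono (hdis _)⟩
      rw [mem_Icc]
      omega
  have h3 := armF (q := q) hq (ρ := 8 * n) (by omega) (g := Equiv.refl (ℤ × ℤ)) (E := HE (256 * n)) (F := ∅)
    (HE_NL _) NL_empty (by
      intro e he p hp hpe
      induction e with
      | _ a b =>
        rw [mem_HE] at he
        obtain ⟨ha, hb, hab⟩ := he
        rw [Equiv.refl_apply, Sym2.mem_iff] at hpe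
        unfold img
        rw [mem_image]
        refine ⟨s(a, b), ?_, by simp⟩
        rw [mem_HE]
        rw [mem_HB] at ha hb hp
        rw [mem_HB, mem_HB]
        refine ⟨?_, ?_, hab⟩
        all_goals
          obtain ⟨a1, a2⟩ := a
          obtain ⟨b1, b2⟩ := b
          rw [Z2_adj_iff] at hab
          simp only at hab ha hb
          push_cast at hp ⊢
          rcases hpe with rfl | rfl
          · simp only at hp ⊢
            omega
          · simp only at hp ⊢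
            omega)
    (by intro e he; exact absurd he (notMem_empty e))
    (B := fun ω => fsB n (ω \ (HE (256 * n) ∩ img (Equiv.refl (ℤ × ℤ)) (HE ((8 * n : ℕ) : ℤ)))))
    (by intro ω ω' _ _ hh hB; rw [← hh]; exact hB)
  have h4 : P q (HE (256 * n)) ∅
      (fun ω => fsB n (ω \ (HE (256 * n) ∩ img (Equiv.refl (ℤ × ℤ)) (HE ((8 * n : ℕ) : ℤ))))) ≤
      P q (HE (256 * n)) ∅ (fsB n) := by
    apply P_mono hq0
    rintro ζ - ⟨u, hu', y, hy, hcn⟩
    exact ⟨u, hu', y, hy, hcn.mono sdiff_subset⟩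
  have hw8 := wA_pos hq (show 1 ≤ 2 by norm_num) (8 * n)
  have hw64 := wA_pos hq (show 1 ≤ 2 by norm_num) (64 * n)
  have h5 : c * wA q 2 (64 * n) ≤ wA q 2 (8 * n) * P q (HE (256 * n)) ∅ (fsB n) := by
    refine (h1.trans h2).trans (h3.trans ?_)
    exact mul_le_mul_of_nonneg_left h4 hw8.le
  have h6 : c * wA q 2 (64 * n) ≤ K * wA q 2 (64 * n) * P q (HE (256 * n)) ∅ (fsB n) :=
    h5.trans (mul_le_mul_of_nonneg_right (hr n hn) (P_nonneg hq0 _ _ _))
  have h7 : c ≤ K * P q (HE (256 * n)) ∅ (fsB n) := by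
    by_contra hcon
    rw [not_le] at hcon
    have := mul_lt_mul_of_pos_right hcon hw64
    nlinarith
  rw [div_le_iff₀ hK]
  linarith

theorem flatSeg (hq : 1 ≤ q) (hq4 : q < 4) (hu : UU q) : ∃ c : ℝ, 0 < c ∧ ∀ n : ℕ, 1 ≤ n →
    c ≤ P q (HE (512 * n)) ∅ (fun ω => ∃ y : ℤ, |y| ≤ n ∧ ∃ v, v ∉ HB (8 * n - 1) ∧ Cn ω (0, y) v) := by
  have hq0 : 0 < q := by linarith
  obtain ⟨c, hc, h⟩ := fs_half hq hq4 hu
  refine ⟨c / 33, by positivity, ?_⟩
  intro n hn
  have h1 := h n hn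
  have hn' : (0 : ℤ) < 2 * n := by omega
  -- covering
  have h2 : P q (HE (256 * n)) ∅ (fsB n) ≤ P q (HE (256 * n)) ∅ (fun ω => ∃ i ∈ range 33,
      ∃ y : ℤ, |y - (64 * n + (2 * i + 1) * n)| ≤ n ∧ ∃ u ∈ HB (8 * n), Cn ω (0, y) u) := by
    apply P_mono hq0
    rintro ζ - ⟨u, hu', y, hy, hcn⟩
    rw [mem_Icc] at hy
    have e1 := Int.emod_add_mul_ediv (y - 64 * n) (2 * n)
    have e2 := Int.emod_nonneg (y - 64 * n) hn'.ne'
    have e3 := Int.emod_lt_of_pos (y - 64 * n) hn'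
    have e4 : 0 ≤ (y - 64 * n) / (2 * n) := Int.ediv_nonneg (by omega) hn'.le
    have e5 : (y - 64 * n) / (2 * n) < 33 := by
      rw [Int.ediv_lt_iff_lt_mul hn']
      omega
    set j := (y - 64 * n) / (2 * n) with hj
    refine ⟨j.toNat, by rw [mem_range]; omega, y, ?_, u, hu', hcn⟩
    have e6 : ((j.toNat : ℕ) : ℤ) = j := Int.toNat_of_nonneg e4
    rw [e6, abs_le]
    constructor <;> nlinarith
  have h3 := P_union hq0 (E := HE (256 * n)) (F := ∅) (range 33)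
    (fun (i : ℕ) (ω : Finset (Sym2 (ℤ × ℤ))) =>
      ∃ y : ℤ, |y - (64 * n + (2 * i + 1) * n)| ≤ n ∧ ∃ u ∈ HB (8 * n), Cn ω (0, y) u)
  have h4 : ∀ i ∈ range 33, P q (HE (256 * n)) ∅ (fun ω =>
      ∃ y : ℤ, |y - (64 * n + (2 * i + 1) * n)| ≤ n ∧ ∃ u ∈ HB (8 * n), Cn ω (0, y) u) ≤
      P q (HE (512 * n)) ∅
        (fun ω => ∃ y : ℤ, |y| ≤ n ∧ ∃ v, v ∉ HB (8 * n - 1) ∧ Cn ω (0, y) v) := by
    intro i hi
    rw [mem_range] at hi
    have hi2 : (i : ℤ) * n ≤ 32 * n := by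
      apply mul_le_mul_of_nonneg_right _ (by omega)
      omega
    have hi3 : 0 ≤ (i : ℤ) * n := by positivity
    have k1 := P_tr_le hq (N := 256 * n) (N' := 512 * n) (a := -(64 * n + (2 * i + 1) * n))
      (A := fun ω => ∃ y : ℤ, |y| ≤ n ∧ ∃ v, v ∉ HB (8 * n - 1) ∧ Cn ω (0, y) v)
      (by
        rw [abs_neg, abs_of_nonneg (by nlinarith)]
        nlinarith)
      (by
        rintro ω ω' hω ⟨y, hy, v, hv, hcn⟩
        exact ⟨y, hy, v, hv, hcn.mono hω⟩)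
    refine le_trans ?_ k1
    apply P_mono hq0
    rintro ζ - ⟨y, hy, u, hu', hcn⟩
    refine ⟨y - (64 * n + (2 * i + 1) * n), hy, tr (-(64 * n + (2 * i + 1) * n)) u, ?_, ?_⟩
    · rw [tr_apply, mem_HB]
      rw [mem_HB] at hu'
      simp only
      rintro ⟨-, -, k3, -⟩
      nlinarith
    · have k2 := Cn_img (f := tr (-(64 * n + (2 * i + 1) * n))) hcn
      rw [tr_apply] at k2
      simpa only [sub_eq_add_neg] using k2
  have h5 := sum_le_sum h4
  rw [sum_const, card_range, nsmul_eq_mul] at h5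
  have h6 := h1.trans (h2.trans (h3.trans h5))
  push_cast at h6
  linarith

end Pool.Agent.IDK
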