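import Pool.Agent.IDK.GlueF
import Pool.Agent.IDK.ExtB
import Pool.Agent.IDK.FarmZ
import Pool.Agent.IDK.ArmZ
import Pool.Agent.IDK.FlatSeg

/-! # IDK/ArcF (MP_b3e76a_pr): arcs and points of the flat boundary, two-sided estimates

`sgm k` = the `k` points `(0, 0), …, (0, k - 1)`.
`seg_out`: `k ≥ 3`: `n = (k - 1) / 2 ≥ 1`, `y0 = n`: the segment of radius `n` around `y0` is in `sgm k`. `flatSeg` with `n`: in `HE (512 n)` the segment `A0` of radius `n` around `0` has `P (Out A0 (8n)) ≥ c`, so `P (Out A0 (2n)) ≥ c`; `extB` with `S' = 16 S + 16` (`S' n ≥ 4 m + n` since `k ≤ 4 n`,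
`m ≤ S k`): `P q (HE ((S' + 512) n)) ∅ (Out A0 (S' n)) ≥ c'`. Translate by `y0` (`P_tr_le`). `L = 16 S + 1100` is large enough (`n ≤ k ≤ m`). `k ≤ 2`: `m ≤ 2 S`: finitely many `m`, `P_pos_full` (the row `y = 0` in `HE (L m)` joins `(0,0)` to `(2m, 0)`).
`pt_out`: `armZ` with `16 m`: `c wA q 2 (16 m) ≤ P q (HE (16 m)) ∅ (Out {0} (2 m))` (a point of `bxx (4m) (4m) (16m/400)` has first coordinate `≥ 2m`), `wA_dbl` twice; small `m` by `P_pos_full` and `wA ≤ 1`.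
`arc_sub`: `seg_out` and `glueF` with `A = sgm k ⊆ HB m`, `N = L m`. `pt_low`: `pt_out` and `glueF`. `pt_up`: `armF` with `ρ = m`, `B ω = ∃ u ∈ HB m, Cn (ω \\ (E ∩ img g (HE m))) (g u) t` (last exit: `Cn.exit_tc` from `t` with `S z = (z ∉ g '' HB m)`; an edge with an end outside `g '' HB m` is not in `img g (HE m)`);
`t ∉ g '' HB (m - 1)` gives the first event; `B` implies `∃ u ∈ HB m, Cn ω (g u) t`. -/

namespace Pool.Agent.IDK

open Finset
open Pool.Agent.FKR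
open Pool.Agent.H95.Perc (Inc conn link rect hor ver eh ev mem_rect)
open Pool.Agent.H95.SumRule (edgesIn Z2)

variable {q : ℝ}

/-- the segment of `k` boundary points starting at `0` -/
noncomputable def sgm (k : ℕ) : Finset (ℤ × ℤ) := (range k).image fun j : ℕ => ((0 : ℤ), (j : ℤ))

theorem mem_sgm {k : ℕ} {p : ℤ × ℤ} : p ∈ sgm k ↔ p.1 = 0 ∧ 0 ≤ p.2 ∧ p.2 < k := by
  unfold sgm
  rw [mem_image]
  constructor
  · rintro ⟨j, hj, rfl⟩
    rw [mem_range] at hj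
    exact ⟨rfl, by simp only; omega, by simp only; omega⟩
  · rintro ⟨h1, h2, h3⟩
    refine ⟨p.2.toNat, mem_range.2 (by omega), ?_⟩
    apply Prod.ext
    · exact h1.symm
    · simp only; omega

private theorem af_row (N : ℤ) : ∀ j : ℕ, (j : ℤ) ≤ N → Cn (HE N) (0, 0) ((j : ℤ), 0) := by
  intro j
  induction j with
  | zero =>
    intro _
    exact Cn_refl _ _
  | succ j ih =>
    intro hj
    push_cast at hj
    refine (ih (by omega)).trans (Cn_edge ?_)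
    rw [mem_HE, mem_HB, mem_HB, Z2_adj_iff]
    refine ⟨⟨?_, ?_, ?_, ?_⟩, ⟨?_, ?_, ?_, ?_⟩, Or.inr ⟨rfl, Or.inr ?_⟩⟩ <;> push_cast <;> omega

private theorem af_pos (hq : 1 ≤ q) {N : ℤ} {m : ℕ} (h : 2 * m ≤ N) :
    0 < P q (HE N) ∅ (Out {((0 : ℤ), (0 : ℤ))} (2 * m)) := by
  refine P_pos_full hq (HE_NL _) NL_empty (inc_Out _ _) ?_
  refine ⟨(0, 0), by simp, (((2 * m : ℕ) : ℤ), 0), ?_, af_row N (2 * m) (by push_cast; omega)⟩
  rw [mem_HB]
  push_cast
  omega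

private theorem af_small (hq : 1 ≤ q) (L : ℕ) (hL : 2 ≤ L) (n : ℕ) : ∃ c : ℝ, 0 < c ∧ ∀ m < n,
    c ≤ P q (HE (L * m)) ∅ (Out {((0 : ℤ), (0 : ℤ))} (2 * m)) := by
  refine az_min (fun m => P q (HE (L * m)) ∅ (Out {((0 : ℤ), (0 : ℤ))} (2 * m))) ?_ n
  intro m
  refine af_pos hq ?_
  have h1 : (2 : ℤ) ≤ L := by exact_mod_cast hL
  nlinarith

/-- the segment of radius `n` around `0` -/
private noncomputable def af_seg (n : ℕ) : Finset (ℤ × ℤ) :=
  (Icc (-(n : ℤ)) n).image fun y : ℤ => ((0 : ℤ), y)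

private theorem af_seg_sub (n : ℕ) : af_seg n ⊆ HB n := by
  intro p hp
  unfold af_seg at hp
  rw [mem_image] at hp
  obtain ⟨y, hy, rfl⟩ := hp
  rw [mem_Icc] at hy
  rw [mem_HB]
  simp only
  omega

/-- `k ≥ 3` -/
private theorem af_big (hq : 1 ≤ q) (hq4 : q < 4) (hu : UU q) (S : ℕ) : ∃ c : ℝ, 0 < c ∧
    ∀ k m : ℕ, 3 ≤ k → k ≤ m → m ≤ S * k →
      c ≤ P q (HE ((16 * S + 1100 : ℕ) * m)) ∅ (Out (sgm k) (2 * m)) := by
  have hq0 : 0 < q := by linarith
  obtain ⟨c, hc, h⟩ := flatSeg hq hq4 hu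
  obtain ⟨c', hc', h'⟩ := extB hq hq4 hu (16 * S + 16) (by omega)
  refine ⟨c' * c, by positivity, ?_⟩
  intro k m hk hkm hmS
  obtain ⟨n, hn⟩ : ∃ n, n = (k - 1) / 2 := ⟨_, rfl⟩
  have hn1 : 1 ≤ n := by omega
  have hnk : 2 * n + 1 ≤ k := by omega
  have hkn : k ≤ 4 * n := by omega
  have hn1' : (1 : ℤ) ≤ n := by exact_mod_cast hn1
  have hnk' : 2 * (n : ℤ) + 1 ≤ k := by exact_mod_cast hnk
  have hkm' : (k : ℤ) ≤ m := by exact_mod_cast hkm
  have hS0 : (0 : ℤ) ≤ S := by positivity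
  have hSn : 0 ≤ (S : ℤ) * n := by positivity
  have hmn : (m : ℤ) ≤ 4 * (S * n) := by
    have h1 : m ≤ S * (4 * n) := hmS.trans (Nat.mul_le_mul_left S hkn)
    have h2 : (m : ℤ) ≤ S * (4 * n) := by exact_mod_cast h1
    nlinarith
  have h1 := h n hn1
  -- the event for the segment
  have h2 : P q (HE (512 * n)) ∅
      (fun ω => ∃ y : ℤ, |y| ≤ n ∧ ∃ v, v ∉ HB (8 * n - 1) ∧ Cn ω (0, y) v) ≤
      P q (HE (512 * n)) ∅ (Out (af_seg n) (2 * n)) := by
    apply P_mono hq0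
    rintro ζ - ⟨y, hy, v, hv, hcn⟩
    refine ⟨(0, y), ?_, v, ?_, hcn⟩
    · unfold af_seg
      rw [mem_image]
      exact ⟨y, by rw [mem_Icc]; exact abs_le.1 hy, rfl⟩
    · intro hv'
      apply hv
      rw [mem_HB] at hv' ⊢
      omega
  have h3 : P q (HE (512 * n)) ∅ (Out (af_seg n) (2 * n)) ≤
      P q (HE ((16 * S + 528) * n)) ∅ (Out (af_seg n) (2 * n)) :=
    P_HE_mono hq (by nlinarith) (inc_Out _ _)
  have h4 := h' n ((16 * S + 528) * n) (af_seg n) hn1 (by push_cast; nlinarith) (af_seg_sub n)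
  have h5 := P_tr_le hq (N := (16 * S + 528) * n) (N' := (16 * S + 1100 : ℕ) * m) (a := n)
    (A := Out (sgm k) (2 * m)) (by
      rw [abs_of_nonneg (by positivity)]
      push_cast
      have h6 : (S : ℤ) * n ≤ S * m := mul_le_mul_of_nonneg_left (by omega) hS0
      nlinarith) (inc_Out _ _)
  have h6 : P q (HE ((16 * S + 528) * n)) ∅ (Out (af_seg n) ((16 * S + 16 : ℕ) * n)) ≤
      P q (HE ((16 * S + 528) * n)) ∅ (fun ω => Out (sgm k) (2 * m) (img (tr n) ω)) := by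
    apply P_mono hq0
    rintro ζ - ⟨a, ha, v, hv, hcn⟩
    unfold af_seg at ha
    rw [mem_image] at ha
    obtain ⟨y, hy, rfl⟩ := ha
    rw [mem_Icc] at hy
    refine ⟨(0, y + n), ?_, tr n v, ?_, Cn_img (f := tr n) hcn⟩
    · rw [mem_sgm]
      simp only
      refine ⟨trivial, ?_, ?_⟩ <;> omega
    · intro hv'
      apply hv
      rw [tr_apply, mem_HB] at hv'
      simp only at hv'
      rw [mem_HB]
      push_cast
      obtain ⟨e1, e2, e3, e4⟩ := hv'
      have e5 : (16 * (S : ℤ) + 16) * n = 16 * (S * n) + 16 * n := by ring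
      rw [e5]
      generalize (S : ℤ) * n = z at *
      refine ⟨e1, ?_, ?_, ?_⟩ <;> omega
  calc c' * c ≤ c' * P q (HE ((16 * S + 528) * n)) ∅ (Out (af_seg n) (2 * n)) :=
        mul_le_mul_of_nonneg_left (h1.trans (h2.trans h3)) hc'.le
    _ ≤ _ := h4
    _ ≤ _ := h6
    _ ≤ _ := h5

theorem seg_out (hq : 1 ≤ q) (hq4 : q < 4) (hu : UU q) (S : ℕ) : ∃ c : ℝ, 0 < c ∧ ∃ L : ℕ, 4 ≤ L ∧
    ∀ k m : ℕ, 1 ≤ k → k ≤ m → m ≤ S * k → c ≤ P q (HE (L * m)) ∅ (Out (sgm k) (2 * m)) := by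
  have hq0 : 0 < q := by linarith
  obtain ⟨c, hc, h⟩ := af_big hq hq4 hu S
  obtain ⟨c', hc', h'⟩ := af_small hq (16 * S + 1100) (by omega) (2 * S + 1)
  refine ⟨min c c', lt_min hc hc', 16 * S + 1100, by omega, ?_⟩
  intro k m hk hkm hmS
  by_cases hk3 : 3 ≤ k
  · exact (min_le_left _ _).trans (h k m hk3 hkm hmS)
  · have h1 : S * k ≤ S * 2 := Nat.mul_le_mul_left S (by omega)
    refine (min_le_right _ _).trans ((h' m (by omega)).trans ?_)
    apply P_mono hq0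
    rintro ζ - ⟨a, ha, v, hv, hcn⟩
    rw [mem_singleton] at ha
    subst ha
    refine ⟨(0, 0), ?_, v, hv, hcn⟩
    rw [mem_sgm]
    simp only
    refine ⟨trivial, le_rfl, by omega⟩

theorem pt_out (hq : 1 ≤ q) (hu : UU q) : ∃ c : ℝ, 0 < c ∧ ∀ m : ℕ, 1 ≤ m →
    c * wA q 2 m ≤ P q (HE (16 * m)) ∅ (Out {((0 : ℤ), (0 : ℤ))} (2 * m)) := by
  have hq0 : 0 < q := by linarith
  obtain ⟨c, hc, n0, hn0, h⟩ := armZ hq hu
  obtain ⟨C, hC, n1, hn1, hd⟩ := wA_dbl hq hu (show 1 ≤ 2 by norm_num)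
  obtain ⟨c', hc', h'⟩ := af_small hq 16 (by omega) (max n0 n1)
  refine ⟨min (c / C ^ 2) c', lt_min (by positivity) hc', ?_⟩
  intro m hm
  have hw0 := wA_pos hq (show 1 ≤ 2 by norm_num) m
  have hw1 := wA_le_one hq 2 m
  rcases lt_or_ge m (max n0 n1) with hlt | hge
  · calc min (c / C ^ 2) c' * wA q 2 m ≤ c' * 1 :=
          mul_le_mul (min_le_right _ _) hw1 hw0.le hc'.le
      _ = c' := mul_one _
      _ ≤ _ := by
        have := h' m hlt
        exact_mod_cast this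
  · have hm0 : n0 ≤ m := (le_max_left _ _).trans hge
    have hm1 : n1 ≤ m := (le_max_right _ _).trans hge
    have d1 := hd m hm1
    have d2 := hd (4 * m) (by omega)
    have d3 : wA q 2 m ≤ C ^ 2 * wA q 2 (16 * m) := by
      have e : 4 * (4 * m) = 16 * m := by ring
      rw [e] at d2
      calc wA q 2 m ≤ C * wA q 2 (4 * m) := d1
        _ ≤ C * (C * wA q 2 (16 * m)) := mul_le_mul_of_nonneg_left d2 hC.le
        _ = _ := by ring
    have h1 := h (16 * m) (by omega)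
    calc min (c / C ^ 2) c' * wA q 2 m ≤ c / C ^ 2 * (C ^ 2 * wA q 2 (16 * m)) :=
          mul_le_mul (min_le_left _ _) d3 hw0.le (by positivity)
      _ = c * wA q 2 (16 * m) := by field_simp
      _ ≤ _ := h1
      _ ≤ _ := by
        push_cast
        apply P_mono hq0
        rintro ζ - ⟨p, hp, hcn⟩
        refine ⟨(0, 0), by simp, p, ?_, hcn⟩
        unfold bxx at hp
        rw [mem_rect] at hp
        rw [mem_HB]
        intro hp'
        omega

theorem af_sgm_sub {k m : ℕ} (h : k ≤ m) : sgm k ⊆ HB m := by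
  intro p hp
  rw [mem_sgm] at hp
  rw [mem_HB]
  have h' : (k : ℤ) ≤ m := by exact_mod_cast h
  omega

theorem arc_sub (hq : 1 ≤ q) (hq4 : q < 4) (hu : UU q) (S : ℕ) : ∃ c : ℝ, 0 < c ∧ ∃ L : ℕ, 4 ≤ L ∧
    ∀ (k m : ℕ) (R : ℤ) (g : (ℤ × ℤ) ≃ (ℤ × ℤ)) (E F : Finset (Sym2 (ℤ × ℤ))) (t : ℤ × ℤ), 1 ≤ k →
    k ≤ m → m ≤ S * k → L * m ≤ R → Flat g R E F t →
    c * P q E F (fun ω => ∃ u ∈ HB m, Cn ω (g u) t) ≤ P q E F (fun ω => ∃ a ∈ sgm k, Cn ω (g a) t) := by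
  have hq0 : 0 < q := by linarith
  obtain ⟨c, hc, h⟩ := glueF hq hq4 hu
  obtain ⟨c', hc', L, hL, h'⟩ := seg_out hq hq4 hu S
  refine ⟨c * c', by positivity, L, hL, ?_⟩
  intro k m R g E F t hk hkm hmS hR hF
  have hL' : (4 : ℤ) ≤ L := by exact_mod_cast hL
  have h1 := h m (L * m) R g E F t (sgm k) (by omega) (by nlinarith) hR hF (af_sgm_sub hkm)
  have h2 := h' k m hk hkm hmS
  refine le_trans ?_ h1
  rw [mul_assoc]
  exact mul_le_mul_of_nonneg_left (mul_le_mul_of_nonneg_right h2 (P_nonneg hq0 _ _ _)) hc.le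

theorem pt_low (hq : 1 ≤ q) (hq4 : q < 4) (hu : UU q) : ∃ c : ℝ, 0 < c ∧
    ∀ (m : ℕ) (R : ℤ) (g : (ℤ × ℤ) ≃ (ℤ × ℤ)) (E F : Finset (Sym2 (ℤ × ℤ))) (t : ℤ × ℤ), 1 ≤ m →
    16 * m ≤ R → Flat g R E F t → c * (wA q 2 m * P q E F (fun ω => ∃ u ∈ HB m, Cn ω (g u) t)) ≤
      P q E F (fun ω => Cn ω (g (0, 0)) t) := by
  have hq0 : 0 < q := by linarith
  obtain ⟨c, hc, h⟩ := glueF hq hq4 hu
  obtain ⟨c', hc', h'⟩ := pt_out hq hu
  refine ⟨c * c', by positivity, ?_⟩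
  intro m R g E F t hm hR hF
  have h1 := h m (16 * m) R g E F t {((0 : ℤ), (0 : ℤ))} hm (by omega) hR hF (by
    intro p hp
    rw [mem_singleton] at hp
    subst hp
    rw [mem_HB]
    simp only
    omega)
  have h2 := h' m hm
  have h3 : P q E F (fun ω => ∃ a ∈ ({((0 : ℤ), (0 : ℤ))} : Finset (ℤ × ℤ)), Cn ω (g a) t) ≤
      P q E F (fun ω => Cn ω (g (0, 0)) t) := by
    apply P_mono hq0
    rintro ζ - ⟨a, ha, hcn⟩
    rw [mem_singleton] at ha
    subst ha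
    exact hcn
  refine le_trans ?_ (h1.trans h3)
  have h4 : c' * wA q 2 m * P q E F (fun ω => ∃ u ∈ HB m, Cn ω (g u) t) ≤
      P q (HE (16 * m)) ∅ (Out {((0 : ℤ), (0 : ℤ))} (2 * m)) *
        P q E F (fun ω => ∃ u ∈ HB m, Cn ω (g u) t) :=
    mul_le_mul_of_nonneg_right h2 (P_nonneg hq0 _ _ _)
  calc c * c' * (wA q 2 m * P q E F (fun ω => ∃ u ∈ HB m, Cn ω (g u) t))
      = c * (c' * wA q 2 m * P q E F (fun ω => ∃ u ∈ HB m, Cn ω (g u) t)) := by ring
    _ ≤ _ := mul_le_mul_of_nonneg_left h4 hc.le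

theorem pt_up (hq : 1 ≤ q) {m : ℕ} (hm : 1 ≤ m) {R : ℤ} (hR : m < R) {g : (ℤ × ℤ) ≃ (ℤ × ℤ)}
    {E F : Finset (Sym2 (ℤ × ℤ))} {t : ℤ × ℤ} (h : Flat g R E F t) :
    P q E F (fun ω => Cn ω (g (0, 0)) t) ≤ wA q 2 m * P q E F (fun ω => ∃ u ∈ HB m, Cn ω (g u) t) := by
  have hq0 : 0 < q := by linarith
  have hsub : ∀ p, p ∈ HB ((m : ℤ) - 1) → p ∈ HB (R - 1) := by
    intro p hp
    rw [mem_HB] at hp ⊢
    omega
  have h3 := armF (q := q) hq (ρ := m) hm (g := g) (E := E) (F := F) h.nlE h.nlF (by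
      intro e he p hp hpe
      have h1 := h.loc e he p (hsub p hp) hpe
      unfold img at h1 ⊢
      rw [mem_image] at h1 ⊢
      obtain ⟨e', he', rfl⟩ := h1
      refine ⟨e', ?_, rfl⟩
      rw [Sym2.mem_map] at hpe
      obtain ⟨a, ha, hag⟩ := hpe
      have hap : a = p := g.injective hag
      subst hap
      induction e' with
      | _ u v =>
        rw [mem_HE] at he' ⊢
        obtain ⟨hu, hv, huv⟩ := he'
        rw [Sym2.mem_iff] at ha
        rw [mem_HB] at hu hv hp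
        rw [mem_HB, mem_HB]
        refine ⟨?_, ?_, huv⟩
        all_goals
          obtain ⟨u1, u2⟩ := u
          obtain ⟨v1, v2⟩ := v
          rw [Z2_adj_iff] at huv
          simp only at huv hu hv
          rcases ha with rfl | rfl
          · simp only at hp ⊢
            omega
          · simp only at hp ⊢
            omega)
    (fun e he p hp => h.fr e he p (hsub p hp))
    (B := fun ω => ∃ u ∈ HB m, Cn (ω \ (E ∩ img g (HE m))) (g u) t)
    (by
      intro ω ω' _ _ hh hB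
      rw [← hh]
      exact hB)
  have h4 : P q E F (fun ω => Cn ω (g (0, 0)) t) ≤
      P q E F (fun ω => (∃ v, v ∉ (HB ((m : ℤ) - 1)).image g ∧ Cn ω (g (0, 0)) v) ∧
        ∃ u ∈ HB m, Cn (ω \ (E ∩ img g (HE m))) (g u) t) := by
    apply P_mono hq0
    intro ζ _ hcn
    constructor
    · refine ⟨t, ?_, hcn⟩
      intro ht
      rw [mem_image] at ht
      obtain ⟨p, hp, hpt⟩ := ht
      exact h.tout p (hsub p hp) hpt
    · obtain ⟨y, hy, hcy⟩ := hcn.symm.exit_tc (S := fun z => z ∉ (HB (m : ℤ)).image g)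
        (by
          intro ht
          rw [mem_image] at ht
          obtain ⟨p, hp, hpt⟩ := ht
          refine h.tout p ?_ hpt
          rw [mem_HB] at hp ⊢
          omega)
        (by
          rw [not_not]
          refine mem_image_of_mem _ ?_
          rw [mem_HB]
          simp only
          omega)
      rw [not_not, mem_image] at hy
      obtain ⟨u, hu, rfl⟩ := hy
      refine ⟨u, hu, (hcy.mono ?_).symm⟩
      intro e he
      rw [mem_tc'] at he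
      obtain ⟨he, z, hze, hz⟩ := he
      rw [mem_sdiff]
      refine ⟨he, fun hh => hz ?_⟩
      rw [mem_inter] at hh
      obtain ⟨-, hh⟩ := hh
      unfold img at hh
      rw [mem_image] at hh
      obtain ⟨e', he', rfl⟩ := hh
      rw [Sym2.mem_map] at hze
      obtain ⟨a, ha, rfl⟩ := hze
      refine mem_image_of_mem _ ?_
      induction e' with
      | _ a' b' =>
        rw [mem_HE] at he'
        rw [Sym2.mem_iff] at ha
        rcases ha with rfl | rfl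
        · exact he'.1
        · exact he'.2.1
  have h5 : P q E F (fun ω => ∃ u ∈ HB m, Cn (ω \ (E ∩ img g (HE m))) (g u) t) ≤
      P q E F (fun ω => ∃ u ∈ HB m, Cn ω (g u) t) := by
    apply P_mono hq0
    rintro ζ - ⟨u, hu, hcn⟩
    exact ⟨u, hu, hcn.mono sdiff_subset⟩
  exact h4.trans (h3.trans (mul_le_mul_of_nonneg_left h5 (wA_pos hq (by norm_num) m).le))

end Pool.Agent.IDK
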