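import Pool.Agent.IDK.CDefs
import Pool.Agent.FKR.Dom

/-! # IDK/CBot (MP_b3e76a_pr): from a free domain reaching below the bottom side to the wired bottom side

`V = rect 0 n (-X) M`. `P_le` twice. (1) `E = edgesIn V`, `F = ∅`; `E' = EL n M`, `F' = BL n ∪ edgesIn (rect 0 n (-X) 0)`: `E ⊆ E' ∪ F'`. Event: if `s`, `0 ≤ s.2`, is
connected to some `p` with `p.2 < 0` in `ζ ⊆ E`, the path visits the row `0` (`Cn.level` with `f v = -v.2`, or `Cn.exit`), the visited vertex is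
in `rect 0 n 0 0`, connected to `(0, 0)` by `BL n` (`rect_Cn`). (2) remove the edges below: `E = E' = EL n M`, `F = BL n ∪ lower`, `F' = BL n`:
distinct vertices of `vts (EL n M)` connected by `F` are in the row `0` (`Cn.mem_vts`: they are in `vts F`, whose vertices have `v.2 ≤ 0`), so they are connected
by `BL n`; the event: in `ζ ∪ BL ∪ lower` (`ζ ⊆ EL`) `s` is connected to `(0, 0)` implies the same in `ζ ∪ BL` (`Cn.closed` with
`S z = (0 ≤ z.2 → Cn (ζ ∪ BL) s z) ∧ (z.2 < 0 → Cn (ζ ∪ BL) s (0, 0))`, or similar). -/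

namespace Pool.Agent.IDK

open Finset
open Pool.Agent.FKR
open Pool.Agent.H95.Perc (Inc conn link rect hor ver eh ev mem_rect)
open Pool.Agent.H95.SumRule (edgesIn Z2)

variable {q : ℝ}

private theorem mem_EL {n M : ℕ} {x y : ℤ × ℤ} (h : s(x, y) ∈ EL n M) :
    x ∈ rect 0 n 0 M ∧ y ∈ rect 0 n 0 M := by
  have h1 := (mem_sdiff.1 h).1
  rw [Pool.Agent.H95.Perc.mem_edgesIn'] at h1
  exact ⟨h1.1, h1.2.1⟩

private theorem to_bottom_one (hq : 1 ≤ q) {n M X : ℕ} {S : Set (ℤ × ℤ)}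
    (hS : ∀ s ∈ S, s ∈ rect 0 n 0 M) :
    P q (edgesIn (rect 0 n (-X) M)) ∅ (fun ω => ∃ s ∈ S, ∃ p : ℤ × ℤ, p.2 < 0 ∧ Cn ω s p) ≤
      P q (EL n M) (edgesIn (rect 0 n (-X) 0)) (fun ω => ∃ s ∈ S, Cn ω s (0, 0)) := by
  refine P_le hq (NL_edgesIn _) (fun e he => absurd he (Finset.notMem_empty e))
    ((NL_edgesIn _).mono sdiff_subset) (NL_edgesIn _) ?_ ?_ ?_ ?_ ?_
  · intro e he
    induction e with
    | _ x y =>
      rw [Pool.Agent.H95.Perc.mem_edgesIn'] at he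
      obtain ⟨hx, hy, ha⟩ := he
      have ha' := ha
      rw [Z2_adj_iff] at ha'
      rw [mem_rect] at hx hy
      rw [mem_union]
      by_cases hc : x.2 ≤ 0 ∧ y.2 ≤ 0
      · right
        rw [Pool.Agent.H95.Perc.mem_edgesIn', mem_rect, mem_rect]
        exact ⟨⟨hx.1, hx.2.1, hx.2.2.1, hc.1⟩, ⟨hy.1, hy.2.1, hy.2.2.1, hc.2⟩, ha⟩
      · left
        rw [mem_sdiff, Pool.Agent.H95.Perc.mem_edgesIn', Pool.Agent.H95.Perc.mem_edgesIn',
          mem_rect, mem_rect, mem_rect, mem_rect]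
        refine ⟨⟨⟨hx.1, hx.2.1, by omega, hx.2.2.2⟩, ⟨hy.1, hy.2.1, by omega, hy.2.2.2⟩, ha⟩, ?_⟩
        rintro ⟨h1, h2, _⟩
        exact hc ⟨h1.2.2.2, h2.2.2.2⟩
  · intro u _ v _ h
    exact h.mono (empty_subset _)
  · rintro ω ω' hs ⟨s, hs', p, hp, h⟩
    exact ⟨s, hs', p, hp, h.mono hs⟩
  · rintro ω ω' hs ⟨s, hs', h⟩
    exact ⟨s, hs', h.mono hs⟩
  · rintro ζ hζ ⟨s, hs, p, hp, h⟩
    refine ⟨s, hs, ?_⟩
    rw [union_empty] at h
    have hs2 := hS s hs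
    rw [mem_rect] at hs2
    obtain ⟨x, y, hx, hy, hxy, hc⟩ := h.exit (S := fun z : ℤ × ℤ => 0 ≤ z.2) hs2.2.2.1
      (by simpa using hp)
    have hE := hζ hxy
    rw [Pool.Agent.H95.Perc.mem_edgesIn'] at hE
    obtain ⟨h1, h2, ha⟩ := hE
    rw [Z2_adj_iff] at ha
    rw [mem_rect] at h1 h2
    simp only [not_le] at hy
    have hx0 : x ∈ rect 0 n (-X) 0 := by
      rw [mem_rect]; exact ⟨h1.1, h1.2.1, h1.2.2.1, by omega⟩
    have h00 : ((0, 0) : ℤ × ℤ) ∈ rect 0 n (-X) 0 := by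
      rw [mem_rect]; simp only; omega
    exact ((hc.mono (ins_subset _ _)).mono subset_union_left).trans
      ((rect_Cn hx0 h00).mono subset_union_right)

private theorem to_bottom_two (hq : 1 ≤ q) {n M X : ℕ} {S : Set (ℤ × ℤ)}
    (hS : ∀ s ∈ S, s ∈ rect 0 n 0 M) :
    P q (EL n M) (edgesIn (rect 0 n (-X) 0)) (fun ω => ∃ s ∈ S, Cn ω s (0, 0)) ≤
      P q (EL n M) (BL n) (fun ω => ∃ s ∈ S, Cn ω s (0, 0)) := by
  have h00 : ((0, 0) : ℤ × ℤ) ∈ rect 0 n 0 0 := by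
    rw [mem_rect]; simp only; omega
  refine P_le hq ((NL_edgesIn _).mono sdiff_subset) (NL_edgesIn _)
    ((NL_edgesIn _).mono sdiff_subset) (NL_edgesIn _) subset_union_left ?_ ?_ ?_ ?_
  · intro u hu v hv h
    by_cases huv : u = v
    · rw [huv]; exact Cn_refl _ _
    · obtain ⟨h1, h2⟩ := Cn.mem_vts h huv
      have h1' := vts_edgesIn _ h1
      have h2' := vts_edgesIn _ h2
      have hu' := vts_edgesIn _ (vts_mono (E := EL n M) sdiff_subset hu)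
      have hv' := vts_edgesIn _ (vts_mono (E := EL n M) sdiff_subset hv)
      rw [mem_rect] at h1' h2' hu' hv'
      refine rect_Cn ?_ ?_
      · rw [mem_rect]; exact ⟨hu'.1, hu'.2.1, hu'.2.2.1, h1'.2.2.2⟩
      · rw [mem_rect]; exact ⟨hv'.1, hv'.2.1, hv'.2.2.1, h2'.2.2.2⟩
  · rintro ω ω' hs ⟨s, hs', h⟩
    exact ⟨s, hs', h.mono hs⟩
  · rintro ω ω' hs ⟨s, hs', h⟩
    exact ⟨s, hs', h.mono hs⟩
  · rintro ζ hζ ⟨s, hs, h⟩
    refine ⟨s, hs, ?_⟩
    have hs2 := hS s hs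
    rw [mem_rect] at hs2
    have key := h.closed (S := fun z : ℤ × ℤ => (0 ≤ z.2 → Cn (ζ ∪ BL n) s z) ∧
      (z.2 < 0 → Cn (ζ ∪ BL n) s (0, 0)))
      ⟨fun _ => Cn_refl _ _, fun hh => absurd hh (by omega)⟩ ?_
    · exact key.1 le_rfl
    · intro x y hx hxy
      rcases mem_union.1 hxy with hz | hl
      · obtain ⟨h1, h2⟩ := mem_EL (hζ hz)
        rw [mem_rect] at h1 h2
        refine ⟨fun _ => (hx.1 h1.2.2.1).trans (Cn_edge (mem_union_left _ hz)),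
          fun hh => absurd hh (by omega)⟩
      · rw [Pool.Agent.H95.Perc.mem_edgesIn'] at hl
        obtain ⟨h1, h2, _⟩ := hl
        rw [mem_rect] at h1 h2
        have H : Cn (ζ ∪ BL n) s (0, 0) := by
          by_cases hx0 : 0 ≤ x.2
          · refine (hx.1 hx0).trans ((rect_Cn (x0 := 0) (x1 := n) (y0 := 0) (y1 := 0) ?_ h00).mono
              subset_union_right)
            rw [mem_rect]; exact ⟨h1.1, h1.2.1, hx0, h1.2.2.2⟩
          · exact hx.2 (by omega)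
        refine ⟨fun hy0 => H.trans ((rect_Cn (x0 := 0) (x1 := n) (y0 := 0) (y1 := 0) h00 ?_).mono
              subset_union_right), fun _ => H⟩
        rw [mem_rect]; exact ⟨h2.1, h2.2.1, hy0, h2.2.2.2⟩

theorem to_bottom (hq : 1 ≤ q) {n M X : ℕ} {S : Set (ℤ × ℤ)} (hS : ∀ s ∈ S, s ∈ rect 0 n 0 M) :
    P q (edgesIn (rect 0 n (-X) M)) ∅ (fun ω => ∃ s ∈ S, ∃ p : ℤ × ℤ, p.2 < 0 ∧ Cn ω s p) ≤
      P q (EL n M) (BL n) (fun ω => ∃ s ∈ S, Cn ω s (0, 0)) :=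
  (to_bottom_one hq hS).trans (to_bottom_two hq hS)

end Pool.Agent.IDK
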