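import Pool.Agent.IDK.CDefs

/-! # IDK/CFlat (MP_b3e76a_pr): the charts of the left side and of the dual bottom side

`gl y0 (x, y) = (x, y + y0)`, `gd i0 (x, y) = (y + i0, x)`. An edge of `EL n M` is `eh x y` with `0 ≤ x < n`, `1 ≤ y ≤ M` or `ev x y` with
`0 ≤ x ≤ n`, `0 ≤ y < M`; an edge of `ED n M` is `ev x y` with `0 ≤ x < n`, `0 ≤ y < M` (dual of `eh x (y+1)`) or `eh x y` with
`-1 ≤ x < n`, `0 ≤ y < M` (dual of `ev (x+1) y`) (`star_eh`, `star_ev`). Frozen edges: both ends in the row `0`, resp. both ends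
satisfy `Rg` (`mem_ring`): `x = -1` or `x = n` or `y = -1` or `y = M`. `loc`: if `g p ∈ e ∈ E`, `p ∈ HB (R - 1)`, the other end is `g p'` with `p'` a lattice
neighbour of `p` and `0 ≤ p'.1`, so `p' ∈ HB R`. -/

namespace Pool.Agent.IDK

open Finset
open Pool.Agent.FKR
open Pool.Agent.H95.Perc (Inc conn link rect hor ver eh ev sumE sepE Inci mem_rect)
open Pool.Agent.H95.SumRule (edgesIn Z2)

/-- chart of the left side -/
def gl (y0 : ℤ) : (ℤ × ℤ) ≃ (ℤ × ℤ) := Pool.Agent.H95.Perc.trans 0 y0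

/-- chart of the bottom side of the dual model -/
def gd (i0 : ℤ) : (ℤ × ℤ) ≃ (ℤ × ℤ) := Pool.Agent.H95.Perc.diag.trans (Pool.Agent.H95.Perc.trans i0 0)

theorem gl_apply (y0 x y : ℤ) : gl y0 (x, y) = (x, y + y0) := by
  unfold gl Pool.Agent.H95.Perc.trans
  simp

theorem gd_apply (i0 x y : ℤ) : gd i0 (x, y) = (y + i0, x) := by
  unfold gd Pool.Agent.H95.Perc.trans Pool.Agent.H95.Perc.diag
  simp

private theorem mem_img_iff {g : (ℤ × ℤ) ≃ (ℤ × ℤ)} {E : Finset (Sym2 (ℤ × ℤ))} {p p' : ℤ × ℤ} :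
    s(g p, g p') ∈ img g E ↔ s(p, p') ∈ E := by
  constructor
  · intro h
    unfold img at h
    rw [mem_image] at h
    obtain ⟨e, he, h⟩ := h
    have h2 : Sym2.map g e = Sym2.map g s(p, p') := by rw [h, Sym2.map_mk]
    rw [← Sym2.map.injective g.injective h2]
    exact he
  · exact mem_img_of_mem

private theorem mem_HE {R a b c d : ℤ} : s((a, b), (c, d)) ∈ HE R ↔
    (0 ≤ a ∧ a ≤ R ∧ -R ≤ b ∧ b ≤ R) ∧ (0 ≤ c ∧ c ≤ R ∧ -R ≤ d ∧ d ≤ R) ∧
    ((a = c ∧ (b = d + 1 ∨ d = b + 1)) ∨ (b = d ∧ (a = c + 1 ∨ c = a + 1))) := by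
  unfold HE HB
  rw [Pool.Agent.H95.Perc.mem_edgesIn', mem_rect, mem_rect, Z2_adj_iff]

private theorem mem_EL {n M : ℕ} {a b c d : ℤ} : s((a, b), (c, d)) ∈ EL n M ↔
    (0 ≤ a ∧ a ≤ n ∧ 0 ≤ b ∧ b ≤ M) ∧ (0 ≤ c ∧ c ≤ n ∧ 0 ≤ d ∧ d ≤ M) ∧
    ((a = c ∧ (b = d + 1 ∨ d = b + 1)) ∨ (b = d ∧ (a = c + 1 ∨ c = a + 1))) ∧
    ¬ (b = 0 ∧ d = 0) := by
  unfold EL
  rw [mem_sdiff, Pool.Agent.H95.Perc.mem_edgesIn', Pool.Agent.H95.Perc.mem_edgesIn', mem_rect,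
    mem_rect, mem_rect, mem_rect, Z2_adj_iff]
  simp only
  omega

private theorem eh_mem_EL {n M : ℕ} {x y : ℤ} : eh x y ∈ EL n M ↔
    0 ≤ x ∧ x + 1 ≤ n ∧ 1 ≤ y ∧ y ≤ M := by
  unfold eh
  rw [mem_EL]
  omega

private theorem ev_mem_EL {n M : ℕ} {x y : ℤ} : ev x y ∈ EL n M ↔
    0 ≤ x ∧ x ≤ n ∧ 0 ≤ y ∧ y + 1 ≤ M := by
  unfold ev
  rw [mem_EL]
  omega

private theorem eh_mem_ED {n M : ℕ} {x y : ℤ} : eh x y ∈ ED n M ↔
    -1 ≤ x ∧ x + 1 ≤ n ∧ 0 ≤ y ∧ y + 1 ≤ M := by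
  unfold ED
  rw [mem_image]
  constructor
  · rintro ⟨e, he, h⟩
    obtain ⟨x', y', rfl | rfl⟩ := edgesIn_cases (mem_sdiff.1 he).1
    · rw [star_eh] at h
      exact absurd h.symm eh_ne_ev
    · rw [star_ev, eh_inj] at h
      rw [ev_mem_EL] at he
      omega
  · intro h
    refine ⟨ev (x + 1) y, ?_, by rw [star_ev, add_sub_cancel_right]⟩
    rw [ev_mem_EL]
    omega

private theorem ev_mem_ED {n M : ℕ} {x y : ℤ} : ev x y ∈ ED n M ↔
    0 ≤ x ∧ x + 1 ≤ n ∧ 0 ≤ y ∧ y + 1 ≤ M := by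
  unfold ED
  rw [mem_image]
  constructor
  · rintro ⟨e, he, h⟩
    obtain ⟨x', y', rfl | rfl⟩ := edgesIn_cases (mem_sdiff.1 he).1
    · rw [star_eh, ev_inj] at h
      rw [eh_mem_EL] at he
      omega
    · rw [star_ev] at h
      exact absurd h eh_ne_ev
  · intro h
    refine ⟨eh x (y + 1), ?_, by rw [star_eh, add_sub_cancel_right]⟩
    rw [eh_mem_EL]
    omega

private theorem ED_cases {n M : ℕ} {e : Sym2 (ℤ × ℤ)} (he : e ∈ ED n M) :
    ∃ x y, e = eh x y ∨ e = ev x y := by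
  unfold ED at he
  rw [mem_image] at he
  obtain ⟨e', he', rfl⟩ := he
  obtain ⟨x', y', rfl | rfl⟩ := edgesIn_cases (mem_sdiff.1 he').1
  · exact ⟨_, _, Or.inr (star_eh _ _)⟩
  · exact ⟨_, _, Or.inl (star_ev _ _)⟩

private theorem mem_ED {n M : ℕ} {a b c d : ℤ} : s((a, b), (c, d)) ∈ ED n M ↔
    (-1 ≤ a ∧ a ≤ n ∧ 0 ≤ b ∧ b ≤ M) ∧ (-1 ≤ c ∧ c ≤ n ∧ 0 ≤ d ∧ d ≤ M) ∧
    ((a = c ∧ (b = d + 1 ∨ d = b + 1) ∧ 0 ≤ a ∧ a < n) ∨
      (b = d ∧ (a = c + 1 ∨ c = a + 1) ∧ b < M)) := by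
  have h1 : s((a, b), (c, d)) ∈ ED n M →
      (a = c ∧ (b = d + 1 ∨ d = b + 1)) ∨ (b = d ∧ (a = c + 1 ∨ c = a + 1)) := by
    intro h
    obtain ⟨x, y, hx | hx⟩ := ED_cases h
    · rw [hx, eh_mem_ED] at h
      unfold eh at hx
      rw [Sym2.eq_iff] at hx
      simp only [Prod.mk.injEq] at hx
      omega
    · rw [hx, ev_mem_ED] at h
      unfold ev at hx
      rw [Sym2.eq_iff] at hx
      simp only [Prod.mk.injEq] at hx
      omega
  by_cases h2 : (a = c ∧ (b = d + 1 ∨ d = b + 1)) ∨ (b = d ∧ (a = c + 1 ∨ c = a + 1))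
  · rcases h2 with ⟨rfl, rfl | rfl⟩ | ⟨rfl, rfl | rfl⟩
    · have : s((a, d + 1), (a, d)) = ev a d := by rw [ev, Sym2.eq_swap]
      rw [this, ev_mem_ED]
      omega
    · have : s((a, b), (a, b + 1)) = ev a b := by rw [ev]
      rw [this, ev_mem_ED]
      omega
    · have : s((c + 1, b), (c, b)) = eh c b := by rw [eh, Sym2.eq_swap]
      rw [this, eh_mem_ED]
      omega
    · have : s((a, b), (a + 1, b)) = eh a b := by rw [eh]
      rw [this, eh_mem_ED]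
      omega
  · constructor
    · intro h
      exact absurd (h1 h) h2
    · intro h
      omega

theorem flat_left {n M : ℕ} {y0 R : ℤ} (hR : 1 ≤ R) (h1 : R < y0) (h2 : y0 + R ≤ M) (h3 : R ≤ n) :
    Flat (gl y0) R (EL n M) (BL n) (0, 0) where
  nlE := (NL_edgesIn _).mono sdiff_subset
  nlF := NL_edgesIn _
  sub := by
    intro e he
    unfold img at he
    rw [mem_image] at he
    obtain ⟨e', he', rfl⟩ := he
    induction e' with
    | _ p p' =>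
      obtain ⟨a, b⟩ := p
      obtain ⟨c, d⟩ := p'
      rw [mem_HE] at he'
      rw [Sym2.map_mk, gl_apply, gl_apply, mem_EL]
      omega
  loc := by
    rintro e he ⟨a, b⟩ hp hpe
    obtain ⟨v, rfl⟩ := Sym2.mem_iff_exists.1 hpe
    unfold HB at hp
    rw [mem_rect] at hp
    obtain ⟨⟨c, d⟩, rfl⟩ := (gl y0).surjective v
    rw [mem_img_iff, mem_HE]
    rw [gl_apply, gl_apply, mem_EL] at he
    simp only at hp
    omega
  fr := by
    rintro e he ⟨a, b⟩ hp hpe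
    obtain ⟨⟨c, d⟩, rfl⟩ := Sym2.mem_iff_exists.1 hpe
    unfold HB at hp
    rw [mem_rect] at hp
    unfold BL at he
    rw [gl_apply, Pool.Agent.H95.Perc.mem_edgesIn', mem_rect] at he
    simp only at hp he
    omega
  tout := by
    rintro ⟨a, b⟩ hp h
    unfold HB at hp
    rw [mem_rect] at hp
    rw [gl_apply, Prod.mk.injEq] at h
    simp only at hp
    omega

theorem flat_dual {n M : ℕ} {i0 R : ℤ} (hR : 1 ≤ R) (h1 : R ≤ i0) (h2 : i0 + R < n) (h3 : R < M) :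
    Flat (gd i0) R (ED n M) (ring 0 n 0 M) (-1, -1) where
  nlE := by
    intro e he
    obtain ⟨x, y, rfl | rfl⟩ := ED_cases he
    · unfold eh
      rw [Sym2.mk_isDiag_iff, Prod.mk.injEq]
      omega
    · unfold ev
      rw [Sym2.mk_isDiag_iff, Prod.mk.injEq]
      omega
  nlF := (NL_edgesIn _).mono sdiff_subset
  sub := by
    intro e he
    unfold img at he
    rw [mem_image] at he
    obtain ⟨e', he', rfl⟩ := he
    induction e' with
    | _ p p' =>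
      obtain ⟨a, b⟩ := p
      obtain ⟨c, d⟩ := p'
      rw [mem_HE] at he'
      rw [Sym2.map_mk, gd_apply, gd_apply, mem_ED]
      omega
  loc := by
    rintro e he ⟨a, b⟩ hp hpe
    obtain ⟨v, rfl⟩ := Sym2.mem_iff_exists.1 hpe
    unfold HB at hp
    rw [mem_rect] at hp
    obtain ⟨⟨c, d⟩, rfl⟩ := (gd i0).surjective v
    rw [mem_img_iff, mem_HE]
    rw [gd_apply, gd_apply, mem_ED] at he
    simp only at hp
    omega
  fr := by
    rintro e he ⟨a, b⟩ hp hpe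
    obtain ⟨⟨c, d⟩, rfl⟩ := Sym2.mem_iff_exists.1 hpe
    unfold HB at hp
    rw [mem_rect] at hp
    rw [gd_apply, mem_ring (by omega) (by omega)] at he
    have h4 := he.1
    unfold Rg at h4
    rw [mem_rect] at h4
    simp only at hp h4
    omega
  tout := by
    rintro ⟨a, b⟩ hp h
    unfold HB at hp
    rw [mem_rect] at hp
    rw [gd_apply, Prod.mk.injEq] at h
    simp only at hp
    omega

end Pool.Agent.IDK
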