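import Pool.Agent.IDK.CChain
import Pool.Agent.IDK.CBot
import Pool.Agent.IDK.CFlat
import Pool.Agent.IDK.ArmZ
import Pool.Agent.FKR.ArmUp

/-! # IDK/CLow (MP_b3e76a_pr): lower bound for the points of the left side at height of order `n`

`N = n / 8`, `ρ = N / 400`. `armZ` (part A): `c wA q 2 N ≤ P q (HE N) ∅ ((0, 0)` connected to `bxx (N/4) (N/4) (N/400))`, `N ≥ n0`; `wA_anti`. Transport by `gl y` (`P_map`) and
`P_mono_EF` into `V = rect 0 n (-X) M`, `X = 2012 ρ`. `chain_down` with `K = 2000`, `S = {(0, y)}`, from `(N/4, y + N/4)`: `y + N/4 ≤ 4.25 N + 4`, `K ρ ≥ 5 N - 2000`, so the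
final box `bxx (N/4) (y + N/4 - K ρ) (2 ρ)` is below the row `0` for `N ≥ 3000`. Then `to_bottom`. -/

namespace Pool.Agent.IDK

open Finset
open Pool.Agent.FKR
open Pool.Agent.H95.Perc (Inc conn link rect hor ver eh ev mem_rect)
open Pool.Agent.H95.SumRule (edgesIn Z2)

variable {q : ℝ}

/-- from a box in the bulk, at height at most `K ρ`, down to the bottom side -/
theorem down_bottom (hq : 1 ≤ q) (hu : UU q) (K : ℕ) : ∃ c : ℝ, 0 < c ∧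
    ∀ (n M X : ℕ) (E : Finset (Sym2 (ℤ × ℤ))) (S : Set (ℤ × ℤ)) (x y ρ : ℤ), 1 ≤ ρ →
    12 * ρ ≤ x → x + 12 * ρ ≤ n → 0 ≤ y → y + 12 * ρ ≤ M → y + 2 * ρ < K * ρ → (K + 12) * ρ ≤ X →
    E ⊆ edgesIn (rect 0 n (-X) M) → (∀ s ∈ S, s ∈ rect 0 n 0 M) →
    (∀ s ∈ S, s ∉ bxx x y (2 * ρ - 1)) →
    c * P q E ∅ (fun ω => ∃ s ∈ S, ∃ p ∈ bxx x y ρ, Cn ω s p) ≤
      P q (EL n M) (BL n) (fun ω => ∃ s ∈ S, Cn ω s (0, 0)) := by
  have hq0 : 0 < q := by linarith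
  obtain ⟨c, hc, h⟩ := chain_down hq hu K
  refine ⟨c, hc, ?_⟩
  intro n M X E S x y ρ hρ h1 h2 h3 h4 h5 h6 hE hS hS'
  have hV : rect (x - 12 * ρ) (x + 12 * ρ) (y - (K + 12) * ρ) (y + 12 * ρ) ⊆ rect 0 n (-X) M :=
    Pool.Agent.H95.Perc.rect_mono (by omega) (by omega) (by linarith) (by omega)
  have k1 := h (rect 0 n (-X) M) S x y ρ hρ hV hS'
  have k2 : P q E ∅ (fun ω => ∃ s ∈ S, ∃ p ∈ bxx x y ρ, Cn ω s p) ≤
      P q (edgesIn (rect 0 n (-X) M)) ∅ (fun ω => ∃ s ∈ S, ∃ p ∈ bxx x y ρ, Cn ω s p) :=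
    P_mono_EF hq (NL_edgesIn _) (fun e he => absurd he (notMem_empty e))
      (hE.trans subset_union_left) (Subset.refl _) (inc_SBox S x y ρ)
  have k3 : P q (edgesIn (rect 0 n (-X) M)) ∅
        (fun ω => ∃ s ∈ S, ∃ p ∈ bxx x (y - K * ρ) (2 * ρ), Cn ω s p) ≤
      P q (edgesIn (rect 0 n (-X) M)) ∅ (fun ω => ∃ s ∈ S, ∃ p : ℤ × ℤ, p.2 < 0 ∧ Cn ω s p) := by
    apply P_mono hq0
    rintro ζ _ ⟨s, hs, p, hp, hcn⟩
    refine ⟨s, hs, p, ?_, hcn⟩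
    unfold bxx at hp
    rw [mem_rect] at hp
    linarith [hp.2.2.2]
  calc c * P q E ∅ (fun ω => ∃ s ∈ S, ∃ p ∈ bxx x y ρ, Cn ω s p)
      ≤ c * P q (edgesIn (rect 0 n (-X) M)) ∅ (fun ω => ∃ s ∈ S, ∃ p ∈ bxx x y ρ, Cn ω s p) :=
        mul_le_mul_of_nonneg_left k2 hc.le
    _ ≤ _ := k1
    _ ≤ _ := k3
    _ ≤ _ := to_bottom hq hS

/-- the half box `HB N` moved to height `y0` -/
theorem img_gl_HE {N y0 : ℤ} {n M X : ℕ} (h1 : N ≤ n) (h2 : N ≤ y0 + X) (h3 : y0 + N ≤ M) :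
    img (gl y0) (HE N) ⊆ edgesIn (rect 0 n (-X) M) := by
  intro e he
  unfold img at he
  rw [mem_image] at he
  obtain ⟨e', he', rfl⟩ := he
  induction e' with
  | _ p p' =>
    obtain ⟨a, b⟩ := p
    obtain ⟨c, d⟩ := p'
    unfold HE HB at he'
    rw [Pool.Agent.H95.Perc.mem_edgesIn', mem_rect, mem_rect, Z2_adj_iff] at he'
    rw [Sym2.map_mk, gl_apply, gl_apply, Pool.Agent.H95.Perc.mem_edgesIn', mem_rect, mem_rect,
      Z2_adj_iff]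
    simp only at he' ⊢
    omega

/-- transport of an event from the half box to the half box at height `y0` -/
theorem P_gl (hq : 0 < q) (N y0 : ℤ) (A : Finset (Sym2 (ℤ × ℤ)) → Prop) :
    P q (img (gl y0) (HE N)) ∅ A = P q (HE N) ∅ (fun ω => A (img (gl y0) ω)) := by
  have h := P_map hq (NL_edgesIn (HB N)) (fun e he => absurd he (notMem_empty e))
    (f := gl y0) (F := ∅) (gl y0).injective.injOn A
  have h2 : img (gl y0) (∅ : Finset (Sym2 (ℤ × ℤ))) = ∅ := by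
    unfold img
    exact image_empty _
  rw [h2] at h
  exact h

theorem pl_low (hq : 1 ≤ q) (hu : UU q) : ∃ c > 0, ∃ n1 : ℕ, ∀ n ≥ n1, ∀ M ≥ n, ∀ y : ℕ, n ≤ 4 * y →
    2 * y ≤ n → c * wA q 2 n ≤ pl q n M y := by
  have hq0 : 0 < q := by linarith
  obtain ⟨c1, hc1, n0, _, harm⟩ := armZ hq hu
  obtain ⟨c2, hc2, hdown⟩ := down_bottom hq hu 2000
  refine ⟨c2 * c1, by positivity, 8 * (n0 + 3000), ?_⟩
  intro n hn M hM y hy1 hy2
  obtain ⟨N, hN⟩ : ∃ N, N = n / 8 := ⟨_, rfl⟩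
  obtain ⟨ρ, hρ⟩ : ∃ ρ, ρ = N / 400 := ⟨_, rfl⟩
  have k1 := harm N (by omega)
  rw [← hρ] at k1
  have k2 : P q (HE N) ∅ (fun ω =>
      ∃ p ∈ bxx ((N / 4 : ℕ) : ℤ) ((N / 4 : ℕ) : ℤ) (ρ : ℤ), Cn ω (0, 0) p) ≤
      P q (img (gl (y : ℤ)) (HE N)) ∅ (fun ω => ∃ s ∈ ({(0, (y : ℤ))} : Set (ℤ × ℤ)),
        ∃ p ∈ bxx ((N / 4 : ℕ) : ℤ) ((y : ℤ) + ((N / 4 : ℕ) : ℤ)) (ρ : ℤ), Cn ω s p) := by
    rw [P_gl hq0]
    apply P_mono hq0
    rintro ζ _ ⟨⟨a, b⟩, hp, hcn⟩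
    refine ⟨(0, (y : ℤ)), rfl, (a, b + y), ?_, ?_⟩
    · unfold bxx at hp ⊢
      rw [mem_rect] at hp ⊢
      simp only at hp ⊢
      omega
    · have := Cn_img (f := gl (y : ℤ)) hcn
      rw [gl_apply, gl_apply, zero_add] at this
      exact this
  have k3 := hdown n M (2012 * ρ) (img (gl (y : ℤ)) (HE N)) {(0, (y : ℤ))} ((N / 4 : ℕ) : ℤ)
    ((y : ℤ) + ((N / 4 : ℕ) : ℤ)) ρ (by omega) (by omega) (by omega) (by omega) (by omega)
    (by push_cast; omega) (by push_cast; omega) (img_gl_HE (by omega) (by omega) (by omega)) ?_ ?_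
  · have k4 : P q (EL n M) (BL n) (fun ω => ∃ s ∈ ({(0, (y : ℤ))} : Set (ℤ × ℤ)), Cn ω s (0, 0)) ≤
        pl q n M y := by
      unfold pl
      apply P_mono hq0
      rintro ζ _ ⟨s, hs, hcn⟩
      rw [Set.mem_singleton_iff] at hs
      rw [← hs]
      exact hcn
    have k5 : wA q 2 n ≤ wA q 2 N := wA_anti hq (by omega) (by omega)
    calc c2 * c1 * wA q 2 n ≤ c2 * c1 * wA q 2 N := by gcongr
      _ = c2 * (c1 * wA q 2 N) := by ring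
      _ ≤ c2 * _ := mul_le_mul_of_nonneg_left (k1.trans k2) hc2.le
      _ ≤ _ := k3
      _ ≤ _ := k4
  · intro s hs
    rw [Set.mem_singleton_iff] at hs
    subst hs
    rw [mem_rect]
    simp only
    omega
  · intro s hs
    rw [Set.mem_singleton_iff] at hs
    subst hs
    unfold bxx
    rw [mem_rect]
    simp only
    omega

end Pool.Agent.IDK
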