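import Pool.Agent.IDK.CDec
import Pool.Agent.IDK.CFlat
import Pool.Agent.IDK.FarmZ
import Pool.Agent.FKR.SDefs

/-! # IDK/CUp (MP_b3e76a_pr): upper bounds by the half-plane arm

All bounds are applications of `farmZ` (part A of helper96: `E`, `F` in the plane, chart `g` injective on `rect 0 n (-n) n`, every `e ∈ E` touching
`g (rect 0 (n-1) (-n+1) (n-1))` is the image of an edge of `rect 0 n (-n) n`, no frozen edge touches it: the probability that `g (0, 0)` is connected to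
a vertex outside `(rect 0 (n-1) (-n+1) (n-1)).image g` is at most `wA q 2 n`).
* `pl_le`: chart `gl y`, radius `y`. * `pb_le`: chart `gd i`, radius `k`, frozen edges `ring` (`mem_ring`, `Rg`).
* `pl_far`: `I v = (v ∈ (rect 0 (k-1) (-k+1) (k-1)).image (gl y))`, `B ω = ∃ v, ¬ I v ∧ Cn (tc I ω) (0, y) v` (`Cn.exit_tc`): the edges touching `I` have both ends
in the rows `≥ y - k ≥ K (n + 1)`, so `B` satisfies the hypothesis of `dec_blocks`; `cn_blocks` gives `Blocks n K`. Then `P B ≤ wA q 2 k` by `farmZ` (`tc I ω ⊆ ω`).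
* `pT_far`: the same with the chart `(x, y) ↦ (i + y, M - x)` of the top side (the part of the box outside of the columns `0..n` is not in the graph). -/

namespace Pool.Agent.IDK

open Finset
open Pool.Agent.FKR
open Pool.Agent.H95.Perc (Inc conn link rect hor ver eh ev mem_rect)
open Pool.Agent.H95.SumRule (edgesIn Z2)

variable {q : ℝ}

private theorem cup_mem_img {g : ℤ × ℤ → ℤ × ℤ} {E : Finset (Sym2 (ℤ × ℤ))} {p p' : ℤ × ℤ}
    (h : s(p, p') ∈ E) : s(g p, g p') ∈ img g E := mem_img_of_mem h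

private theorem cup_mem_HE {R a b c d : ℤ} : s((a, b), (c, d)) ∈ HE R ↔
    (0 ≤ a ∧ a ≤ R ∧ -R ≤ b ∧ b ≤ R) ∧ (0 ≤ c ∧ c ≤ R ∧ -R ≤ d ∧ d ≤ R) ∧
    ((a = c ∧ (b = d + 1 ∨ d = b + 1)) ∨ (b = d ∧ (a = c + 1 ∨ c = a + 1))) := by
  unfold HE HB
  rw [Pool.Agent.H95.Perc.mem_edgesIn', mem_rect, mem_rect, Z2_adj_iff]

private theorem cup_mem_EL {n M : ℕ} {a b c d : ℤ} : s((a, b), (c, d)) ∈ EL n M ↔
    (0 ≤ a ∧ a ≤ n ∧ 0 ≤ b ∧ b ≤ M) ∧ (0 ≤ c ∧ c ≤ n ∧ 0 ≤ d ∧ d ≤ M) ∧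
    ((a = c ∧ (b = d + 1 ∨ d = b + 1)) ∨ (b = d ∧ (a = c + 1 ∨ c = a + 1))) ∧
    ¬ (b = 0 ∧ d = 0) := by
  unfold EL
  rw [mem_sdiff, Pool.Agent.H95.Perc.mem_edgesIn', Pool.Agent.H95.Perc.mem_edgesIn', mem_rect,
    mem_rect, mem_rect, mem_rect, Z2_adj_iff]
  simp only
  omega

private theorem cup_mem_BL {n : ℕ} {a b c d : ℤ} (h : s((a, b), (c, d)) ∈ BL n) : b = 0 ∧ d = 0 := by
  unfold BL at h
  rw [Pool.Agent.H95.Perc.mem_edgesIn', mem_rect, mem_rect] at h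
  simp only at h
  omega

private theorem cup_eh_mem_EL {n M : ℕ} {x y : ℤ} : eh x y ∈ EL n M ↔
    0 ≤ x ∧ x + 1 ≤ n ∧ 1 ≤ y ∧ y ≤ M := by
  unfold eh
  rw [cup_mem_EL]
  omega

private theorem cup_ev_mem_EL {n M : ℕ} {x y : ℤ} : ev x y ∈ EL n M ↔
    0 ≤ x ∧ x ≤ n ∧ 0 ≤ y ∧ y + 1 ≤ M := by
  unfold ev
  rw [cup_mem_EL]
  omega

/-- the edges of the dual strip -/
private theorem cup_mem_ED {n M : ℕ} {a b c d : ℤ} (h : s((a, b), (c, d)) ∈ ED n M) :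
    (-1 ≤ a ∧ a ≤ n ∧ 0 ≤ b ∧ b < M) ∧ (-1 ≤ c ∧ c ≤ n ∧ 0 ≤ d ∧ d ≤ M) ∧
    ((a = c ∧ (b = d + 1 ∨ d = b + 1)) ∨ (b = d ∧ (a = c + 1 ∨ c = a + 1))) ∨
    (b = M ∧ 0 ≤ a ∧ a < n) := by
  unfold ED at h
  rw [mem_image] at h
  obtain ⟨e, he, h⟩ := h
  obtain ⟨x', y', rfl | rfl⟩ := edgesIn_cases (mem_sdiff.1 he).1
  · rw [cup_eh_mem_EL] at he
    rw [star_eh] at h
    unfold ev at h
    rw [Sym2.eq_iff] at h
    simp only [Prod.mk.injEq] at h
    omega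
  · rw [cup_ev_mem_EL] at he
    rw [star_ev] at h
    unfold eh at h
    rw [Sym2.eq_iff] at h
    simp only [Prod.mk.injEq] at h
    omega

private theorem cup_NL_ED {n M : ℕ} : NL (ED n M) := by
  intro e he
  unfold ED at he
  rw [mem_image] at he
  obtain ⟨e', he', rfl⟩ := he
  obtain ⟨x', y', rfl | rfl⟩ := edgesIn_cases (mem_sdiff.1 he').1
  · rw [star_eh]
    unfold ev
    rw [Sym2.mk_isDiag_iff, Prod.mk.injEq]
    omega
  · rw [star_ev]
    unfold eh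
    rw [Sym2.mk_isDiag_iff, Prod.mk.injEq]
    omega

private theorem cup_NL_EL {n M : ℕ} : NL (EL n M) := (NL_edgesIn _).mono sdiff_subset

/-- patch at the left side -/
private theorem cup_loc_left {n M : ℕ} {y0 k : ℤ} (h1 : k ≤ y0) : ∀ e ∈ EL n M, ∀ p ∈ HB (k - 1),
    gl y0 p ∈ e → e ∈ img (gl y0) (HE k) := by
  rintro e he ⟨a, b⟩ hp hpe
  obtain ⟨v, rfl⟩ := Sym2.mem_iff_exists.1 hpe
  unfold HB at hp
  rw [mem_rect] at hp
  obtain ⟨⟨c, d⟩, rfl⟩ := (gl y0).surjective v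
  apply cup_mem_img
  rw [cup_mem_HE]
  rw [gl_apply, gl_apply, cup_mem_EL] at he
  simp only at hp
  omega

private theorem cup_fr_left {n : ℕ} {y0 k : ℤ} (h1 : k ≤ y0) : ∀ e ∈ BL n, ∀ p ∈ HB (k - 1),
    gl y0 p ∉ e := by
  rintro e he ⟨a, b⟩ hp hpe
  obtain ⟨⟨c, d⟩, rfl⟩ := Sym2.mem_iff_exists.1 hpe
  unfold HB at hp
  rw [mem_rect] at hp
  rw [gl_apply] at he
  have := cup_mem_BL he
  simp only at hp
  omega

private theorem cup_out_left {y0 k : ℤ} (h1 : k ≤ y0) : ((0, 0) : ℤ × ℤ) ∉ (HB (k - 1)).image (gl y0) := by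
  rw [mem_image]
  rintro ⟨⟨a, b⟩, hp, h⟩
  unfold HB at hp
  rw [mem_rect] at hp
  rw [gl_apply, Prod.mk.injEq] at h
  simp only at hp
  omega

theorem pl_le (hq : 1 ≤ q) {n M y : ℕ} (hy : 1 ≤ y) (hM : y ≤ M) : pl q n M y ≤ wA q 2 y := by
  have hq0 : 0 < q := by linarith
  refine le_trans ?_ (farmZ hq hy (g := gl (y : ℤ)) (E := EL n M) (F := BL n) cup_NL_EL (NL_edgesIn _)
    (gl (y : ℤ)).injective.injOn (cup_loc_left le_rfl) (cup_fr_left le_rfl))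
  unfold pl
  apply P_mono hq0
  intro ζ _ h
  refine ⟨(0, 0), cup_out_left le_rfl, ?_⟩
  rw [gl_apply, zero_add]
  exact h

/-- decay along the strip and the arm of a boundary point, for a general chart -/
private theorem far_aux (hq : 1 ≤ q) {n M K k : ℕ} (hn : 1 ≤ n) (hk : 1 ≤ k) (hKM : K * (n + 1) ≤ M)
    {g : ℤ × ℤ → ℤ × ℤ} (hg : Function.Injective g)
    (loc : ∀ e ∈ EL n M, ∀ p ∈ HB ((k : ℤ) - 1), g p ∈ e → e ∈ img g (HE k))
    (fr : ∀ e ∈ BL n, ∀ p ∈ HB ((k : ℤ) - 1), g p ∉ e)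
    (low : ∀ p ∈ HB (k : ℤ), (K : ℤ) * (n + 1) ≤ (g p).2)
    (h0 : ((0, 0) : ℤ × ℤ) ∉ (HB ((k : ℤ) - 1)).image g) :
    P q (EL n M) (BL n) (fun ω => Cn ω (g (0, 0)) (0, 0)) ≤
      (√q / (1 + √q)) ^ K * wA q 2 k := by
  classical
  have hq0 : 0 < q := by linarith
  set I : ℤ × ℤ → Prop := fun v => v ∈ (HB ((k : ℤ) - 1)).image g with hI
  set B : Finset (Sym2 (ℤ × ℤ)) → Prop := fun ω => ∃ v, ¬ I v ∧ Cn (tc I ω) (g (0, 0)) v with hBdef
  have hI0 : I (g (0, 0)) := by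
    rw [hI]
    apply mem_image_of_mem
    unfold HB
    rw [mem_rect]
    simp only
    omega
  have hdep : ∀ ω ω', ω ⊆ EL n M ∪ BL n → ω' ⊆ EL n M ∪ BL n →
      (∀ e ∈ EL n M, (∀ v ∈ e, (K : ℤ) * (n + 1) ≤ v.2) → (e ∈ ω ↔ e ∈ ω')) → B ω → B ω' := by
    rintro ω ω' hω _ hee ⟨v, hv, hc⟩
    refine ⟨v, hv, hc.mono ?_⟩
    intro e he
    rw [mem_tc'] at he ⊢
    obtain ⟨he1, w, hw, hIw⟩ := he
    refine ⟨?_, w, hw, hIw⟩
    rw [hI, mem_image] at hIw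
    obtain ⟨p, hp, rfl⟩ := hIw
    have heE : e ∈ EL n M := by
      rcases mem_union.1 (hω he1) with h | h
      · exact h
      · exact absurd hw (fr e h p hp)
    refine (hee e heE ?_).1 he1
    intro u hu
    have h1 := loc e heE p hp hw
    unfold img at h1
    rw [mem_image] at h1
    obtain ⟨e', he', rfl⟩ := h1
    rw [Sym2.mem_map] at hu
    obtain ⟨z, hz, rfl⟩ := hu
    apply low
    obtain ⟨z', rfl⟩ := Sym2.mem_iff_exists.1 hz
    unfold HE at he'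
    exact (Pool.Agent.H95.Perc.mem_edgesIn'.1 he').1
  have h1 : P q (EL n M) (BL n) (fun ω => Cn ω (g (0, 0)) (0, 0)) ≤
      P q (EL n M) (BL n) (fun ω => Blocks n K ω ∧ B ω) := by
    apply P_mono hq0
    intro ζ hζ h
    refine ⟨cn_blocks (union_subset_union_left hζ) (low (0, 0) ?_) h, h.exit_tc hI0 h0⟩
    unfold HB
    rw [mem_rect]
    simp only
    omega
  have h2 := dec_blocks hq hn hKM hdep
  have h3 : P q (EL n M) (BL n) B ≤ wA q 2 k := by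
    refine le_trans ?_ (farmZ hq hk (g := g) (E := EL n M) (F := BL n) cup_NL_EL (NL_edgesIn _)
      hg.injOn loc fr)
    apply P_mono hq0
    rintro ζ _ ⟨v, hv, hc⟩
    exact ⟨v, hv, hc.mono (tc_subset _ _)⟩
  refine h1.trans (h2.trans ?_)
  apply mul_le_mul_of_nonneg_left h3
  positivity

theorem pl_far (hq : 1 ≤ q) {n M y K k : ℕ} (hn : 1 ≤ n) (hk : 1 ≤ k) (h : K * (n + 1) + k ≤ y)
    (hM : y ≤ M) : pl q n M y ≤ (√q / (1 + √q)) ^ K * wA q 2 k := by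
  have h' : (K : ℤ) * (n + 1) + k ≤ y := by exact_mod_cast h
  have hK0 : (0 : ℤ) ≤ (K : ℤ) * (n + 1) := by positivity
  have key := far_aux hq (M := M) (K := K) (g := gl (y : ℤ)) hn hk (by omega) (gl (y : ℤ)).injective
    (cup_loc_left (by omega)) (cup_fr_left (by omega)) ?_ (cup_out_left (by omega))
  · rw [gl_apply, zero_add] at key
    exact key
  · rintro ⟨a, b⟩ hp
    unfold HB at hp
    rw [mem_rect] at hp
    rw [gl_apply]
    simp only at hp ⊢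
    omega

/-- chart of the top side -/
private def gt (i M : ℤ) (p : ℤ × ℤ) : ℤ × ℤ := (p.2 + i, M - p.1)

private theorem gt_inj (i M : ℤ) : Function.Injective (gt i M) := by
  rintro ⟨a, b⟩ ⟨c, d⟩ h
  unfold gt at h
  rw [Prod.mk.injEq] at h
  simp only at h
  rw [Prod.mk.injEq]
  omega

private theorem gt_surj (i M : ℤ) : Function.Surjective (gt i M) := by
  rintro ⟨a, b⟩
  refine ⟨(M - b, a - i), ?_⟩
  unfold gt
  rw [Prod.mk.injEq]
  simp only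
  omega

theorem pT_far (hq : 1 ≤ q) {n M i K k : ℕ} (hn : 1 ≤ n) (hk : 1 ≤ k) (hi : i ≤ n)
    (h : K * (n + 1) + k ≤ M) : pT q n M i ≤ (√q / (1 + √q)) ^ K * wA q 2 k := by
  have h' : (K : ℤ) * (n + 1) + k ≤ M := by exact_mod_cast h
  have hK0 : (0 : ℤ) ≤ (K : ℤ) * (n + 1) := by positivity
  have key := far_aux hq (M := M) (K := K) (g := gt (i : ℤ) M) hn hk (by omega) (gt_inj _ _)
    ?_ ?_ ?_ ?_
  · have e : gt (i : ℤ) M (0, 0) = ((i : ℤ), (M : ℤ)) := by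
      unfold gt
      rw [Prod.mk.injEq]
      simp only
      omega
    rw [e] at key
    exact key
  · rintro e he ⟨a, b⟩ hp hpe
    obtain ⟨v, rfl⟩ := Sym2.mem_iff_exists.1 hpe
    unfold HB at hp
    rw [mem_rect] at hp
    obtain ⟨⟨c, d⟩, rfl⟩ := gt_surj (i : ℤ) M v
    apply cup_mem_img
    rw [cup_mem_HE]
    unfold gt at he
    rw [cup_mem_EL] at he
    simp only at hp he
    omega
  · rintro e he ⟨a, b⟩ hp hpe
    obtain ⟨⟨c, d⟩, rfl⟩ := Sym2.mem_iff_exists.1 hpe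
    unfold HB at hp
    rw [mem_rect] at hp
    unfold gt at he
    have := cup_mem_BL he
    simp only at hp this
    omega
  · rintro ⟨a, b⟩ hp
    unfold HB at hp
    rw [mem_rect] at hp
    unfold gt
    simp only at hp ⊢
    omega
  · rw [mem_image]
    rintro ⟨⟨a, b⟩, hp, h2⟩
    unfold HB at hp
    rw [mem_rect] at hp
    unfold gt at h2
    rw [Prod.mk.injEq] at h2
    simp only at hp h2
    omega

theorem pb_le (hq : 1 ≤ q) {n M i k : ℕ} (hk : 1 ≤ k) (h1 : k ≤ i + 1) (h2 : k + i ≤ n) (h3 : k ≤ M) :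
    pb q n M i ≤ wA q 2 k := by
  have hq0 : 0 < q := by linarith
  refine le_trans ?_ (farmZ hq hk (g := gd (i : ℤ)) (E := ED n M) (F := ring 0 n 0 M) cup_NL_ED
    ((NL_edgesIn _).mono sdiff_subset) (gd (i : ℤ)).injective.injOn ?_ ?_)
  · unfold pb
    apply P_mono hq0
    intro ζ _ h
    refine ⟨(-1, -1), ?_, ?_⟩
    · rw [mem_image]
      rintro ⟨⟨a, b⟩, hp, h⟩
      unfold HB at hp
      rw [mem_rect] at hp
      rw [gd_apply, Prod.mk.injEq] at h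
      simp only at hp
      omega
    · rw [gd_apply, zero_add]
      exact h
  · rintro e he ⟨a, b⟩ hp hpe
    obtain ⟨v, rfl⟩ := Sym2.mem_iff_exists.1 hpe
    unfold HB at hp
    rw [mem_rect] at hp
    obtain ⟨⟨c, d⟩, rfl⟩ := (gd (i : ℤ)).surjective v
    apply cup_mem_img
    rw [cup_mem_HE]
    rw [gd_apply, gd_apply] at he
    have := cup_mem_ED he
    simp only at hp
    omega
  · rintro e he ⟨a, b⟩ hp hpe
    obtain ⟨⟨c, d⟩, rfl⟩ := Sym2.mem_iff_exists.1 hpe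
    unfold HB at hp
    rw [mem_rect] at hp
    rw [gd_apply, mem_ring (by omega) (by omega)] at he
    have h4 := he.1
    unfold Rg at h4
    rw [mem_rect] at h4
    simp only at hp h4
    omega

end Pool.Agent.IDK
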