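import Pool.Agent.IDK.GRat
import Pool.Agent.IDK.ArcF
import Pool.Agent.IDK.CUp
import Pool.Agent.IDK.CLow

/-! # IDK/ARect (MP_b3e76a_pr, part G): two-sided estimates for the touching probabilities of arcs of a rectangle -/

namespace Pool.Agent.IDK

open Finset _root_.IDK
open Pool.Agent.FKR
open Pool.Agent.H95.Perc (Inc conn link rect hor ver eh ev mem_rect)

variable {q : ℝ}

attribute [local irreducible] wA P

theorem sgm_eq_blk (k : ℕ) : sgm k = blk k := rfl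

/-- **Shorter arcs are comparable to longer arcs.** -/
theorem arc_D (hq : 1 ≤ q) (hq4 : q < 4) (hu : UU q) (S : ℕ) : ∃ c : ℝ, 0 < c ∧ ∃ Λ : ℕ, 1 ≤ Λ ∧
    ∀ (n M : ℕ) (s : Bool) (y k m : ℕ), 1 ≤ k → k ≤ m → m ≤ S * k → arcFar Λ n M s y m →
      c * arcP q n M s y m ≤ arcP q n M s y k := by
  have hq0 : 0 < q := by linarith
  obtain ⟨c, hc, L, hL, h⟩ := arc_sub hq hq4 hu S
  refine ⟨c, hc, ((L : ℤ) + 1).toNat, by omega, ?_⟩
  intro n M s y k m hk hkm hm hf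
  obtain ⟨hn1, hM1, hy1⟩ := arcFar_pos (by omega) (by omega) hf
  have hfl := arc_flat (L := (L : ℤ)) (by omega) (by omega : 1 ≤ m) hf
  have key := h k m ((L : ℤ) * m) (arcG s y) _ _ _ hk hkm hm le_rfl hfl
  rw [sgm_eq_blk, arcP_eq hq0 hn1 hM1 (fun hs => by have := hy1 hs; omega)] at key
  rw [← arcP_eq (k := m) hq0 hn1 hM1 (fun hs => by have := hy1 hs; omega)]
  refine le_trans (mul_le_mul_of_nonneg_left (P_mono hq0 ?_) hc.le) key
  rintro ζ - ⟨a, ha, hca⟩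
  exact ⟨a, blk_sub m ha, hca⟩

/-- **Two-sided estimate for the arcs of the left side.** -/
theorem arc_two (hq : 1 ≤ q) (hq4 : q < 4) (hu : UU q) : ∃ c C : ℝ, 0 < c ∧ 0 < C ∧ ∃ L n0 : ℕ, 1 ≤ L ∧ 1 ≤ n0 ∧
    ∀ n M y k : ℕ, n0 ≤ n → 2 * n ≤ M → n ≤ 4 * y → 2 * y ≤ n → 1 ≤ k → L * k ≤ n →
      c * wA q 2 n ≤ wA q 2 k * arcP q n M true y k ∧ wA q 2 k * arcP q n M true y k ≤ C * wA q 2 n := by
  have hq0 : 0 < q := by linarith
  obtain ⟨c1, hc1, L1, hL1, h1⟩ := arc_sub hq hq4 hu 1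
  obtain ⟨c2, hc2, h2⟩ := pt_low hq hq4 hu
  obtain ⟨c3, hc3, n3, h3⟩ := pl_low hq hu
  obtain ⟨C4, hC4, n4, hn4, h4⟩ := wA_dbl hq hu (show 1 ≤ 2 by norm_num)
  refine ⟨c1 * c3, C4 / c2, by positivity, by positivity, 4 * (L1 + 17), n3 + 4 * n4 + 4, by omega, by omega, ?_⟩
  intro n M y k hn hM hy1 hy2 hk hkn
  have hk' : (1 : ℤ) ≤ k := by exact_mod_cast hk
  obtain ⟨R, hR⟩ : ∃ R : ℤ, R = ((L1 : ℤ) + 16) * k := ⟨_, rfl⟩
  have hkn' : 4 * (((L1 : ℤ) + 17) * k) ≤ n := by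
    have : ((4 * (L1 + 17) * k : ℕ) : ℤ) ≤ n := by exact_mod_cast hkn
    push_cast at this
    linarith
  have e1 : ((L1 : ℤ) + 17) * k = R + k := by rw [hR]; ring
  rw [e1] at hkn'
  have hRk : (k : ℤ) < R := by
    rw [hR]
    have : (0 : ℤ) ≤ L1 := by positivity
    nlinarith
  have hfl : Flat (gl (y : ℤ)) R (EL n M) (BL n) (0, 0) :=
    flat_left (by omega) (by omega) (by omega) (by omega)
  have a1 : (L1 : ℤ) * k ≤ R := by rw [hR]; nlinarith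
  have a2 : (16 : ℤ) * k ≤ R := by
    rw [hR]
    have : (0 : ℤ) ≤ (L1 : ℤ) * k := by positivity
    nlinarith
  have k1 := h1 k k R (gl y) _ _ _ hk le_rfl (by omega) a1 hfl
  have k2 := h2 k R (gl y) _ _ _ hk a2 hfl
  have k3 := pt_up hq hk hRk hfl
  obtain ⟨X, hX⟩ : ∃ X, X = P q (EL n M) (BL n) (fun ω => ∃ u ∈ HB (k : ℤ), Cn ω (gl (y : ℤ) u) (0, 0)) := ⟨_, rfl⟩
  have hX0 : 0 ≤ X := by rw [hX]; exact P_nonneg hq0 _ _ _
  have hpl : P q (EL n M) (BL n) (fun ω => Cn ω (gl (y : ℤ) (0, 0)) (0, 0)) = pl q n M y := by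
    unfold pl
    apply P_congr
    intro ζ _
    rw [gl_apply, zero_add]
  have harc : P q (EL n M) (BL n) (fun ω => ∃ a ∈ sgm k, Cn ω (gl (y : ℤ) a) (0, 0)) =
      arcP q n M true y k := by
    rw [sgm_eq_blk, arc_left_eq hq0]
    rfl
  rw [← hX, harc] at k1
  rw [← hX, hpl] at k2 k3
  have hwk := wA_pos hq (show 1 ≤ 2 by norm_num) k
  have hup : arcP q n M true y k ≤ X := by
    rw [← harc, hX]
    apply P_mono hq0
    rintro ζ - ⟨a, ha, hca⟩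
    exact ⟨a, blk_sub k ha, hca⟩
  have b1 := h3 n (by omega) M (by omega) y (by omega) (by omega)
  have b2 := pl_le (q := q) hq (n := n) (M := M) (y := y) (by omega) (by omega)
  have b3 : wA q 2 y ≤ C4 * wA q 2 n := by
    refine (h4 y (by omega)).trans ?_
    exact mul_le_mul_of_nonneg_left (wA_anti hq (by omega) (by omega)) hC4.le
  constructor
  · calc c1 * c3 * wA q 2 n = c1 * (c3 * wA q 2 n) := by ring
      _ ≤ c1 * pl q n M y := by gcongr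
      _ ≤ c1 * (wA q 2 k * X) := by gcongr
      _ = wA q 2 k * (c1 * X) := by ring
      _ ≤ _ := by gcongr
  · have : c2 * (wA q 2 k * arcP q n M true y k) ≤ C4 * wA q 2 n := by
      calc c2 * (wA q 2 k * arcP q n M true y k) ≤ c2 * (wA q 2 k * X) := by gcongr
        _ ≤ pl q n M y := k2
        _ ≤ _ := b2.trans b3
    rw [div_mul_eq_mul_div, le_div_iff₀ hc2]
    linarith

end Pool.Agent.IDK
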