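import Pool.Agent.IDK.Sym
import Pool.Agent.FKR.Expl

/-! # IDK/BDefs (MP_b3e76a_pr): the innermost open half circuit (definitions for part B, the ratio limit theorem)

Overview of part B. A, B are sets of vertices near the point 0 of the flat free boundary, `t` is a far target, the environment `F` outside of `HB (R-1)` is arbitrary. Explore the dual cluster of the
faces of `HB l` (`Fc l`). If it does not reach the outside of `HB (2l)` (`Circ l`, implied by `HC l`), it is surrounded by an open half circuit `cN l N`, `N = NN l ω` the enclosed faces, which is a connected set of edges (`CutConn`).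
Given `N`, inside (`XN l N`) and outside are independent (`PBc.fact`, `CutSep`), so `P (A ↔ t, Circ) = ∑_N γ(N, A) W(N)` where `γ(N, A)` does not depend on the environment, and `W(N) ≥ P (HB l ↔ t) * a(N)` by FKG, `a(N)` not depending on
the environment (`DecB`). So all hitting probabilities contain the common part `P (HB l ↔ t) * Γ(A)`, `Γ(A) = ∑_N a(N) γ(N, A)`, which by RSW up to the free boundary is a positive fraction of `P (A ↔ t)` (`UpB`). If
`m P (B ↔ t) ≤ P (A ↔ t) ≤ M P (B ↔ t)` for all environments at a smaller radius, then also for the remaining parts, and `M - m` decreases by a constant factor (`StepB`). Iteration: `RL`. -/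

namespace Pool.Agent.IDK

open Finset
open Pool.Agent.FKR
open Pool.Agent.H95.Perc (Inc conn link rect hor ver eh ev sumE sepE Inci mem_rect)
open Pool.Agent.H95.SumRule (edgesIn Z2)

variable {q : ℝ}

/-- the faces in the half box of radius `L` -/
noncomputable def Fc (L : ℤ) : Finset (ℤ × ℤ) := rect 0 (L - 1) (-L) (L - 1)

/-- the faces enclosed by the dual cluster of `Fc l` -/
noncomputable def NN (l : ℤ) (ω : Finset (Sym2 (ℤ × ℤ))) : Finset (ℤ × ℤ) :=
  Nx (Fc (2 * l + 1)) ω (fun f => f ∈ Fc l) (fun f => f ∉ Fc (2 * l))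

/-- the dual cluster of `Fc l` stays in `Fc (2 l)` -/
def Circ (l : ℤ) (ω : Finset (Sym2 (ℤ × ℤ))) : Prop :=
  ∀ f ∈ Ucl (Fc (2 * l + 1)) ω (fun f => f ∈ Fc l), f ∈ Fc (2 * l)

/-- `N` is a possible value of `NN l` -/
def Val (l : ℤ) (N : Finset (ℤ × ℤ)) : Prop := ∃ ω, Circ l ω ∧ NN l ω = N

/-- the half circuit around `N` -/
noncomputable def cN (l : ℤ) (N : Finset (ℤ × ℤ)) : Finset (Sym2 (ℤ × ℤ)) := bdN (Fc (2 * l + 1)) N

open Classical in
/-- the edges with a side in `N` -/
noncomputable def XN (l : ℤ) (N : Finset (ℤ × ℤ)) : Finset (Sym2 (ℤ × ℤ)) :=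
  (HE (2 * l)).filter fun e => touch N e

/-- a vertex of `A` is connected to the half circuit inside -/
def InN (l : ℤ) (N A : Finset (ℤ × ℤ)) (ω : Finset (Sym2 (ℤ × ℤ))) : Prop :=
  ∃ a ∈ A, ∃ v ∈ vts (cN l N), Cn (ω ∩ XN l N) a v

/-- the half circuit is connected to `t` outside -/
def OutN (l : ℤ) (N : Finset (ℤ × ℤ)) (t : ℤ × ℤ) (ω : Finset (Sym2 (ℤ × ℤ))) : Prop :=
  ∃ v ∈ vts (cN l N), Cn (ω \ XN l N ∪ cN l N) v t

open Classical in
/-- the possible values of `NN l` -/
noncomputable def VN (l : ℤ) : Finset (Finset (ℤ × ℤ)) := (Fc (2 * l)).powerset.filter fun N => Val l N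

/-- inner factor -/
noncomputable def gam (q : ℝ) (l : ℤ) (N A : Finset (ℤ × ℤ)) : ℝ :=
  P q (XN l N \ cN l N) (cN l N) (fun ω => NN l ω = N ∧ InN l N A ω)

/-- free probability of the half circuit -/
noncomputable def aN (q : ℝ) (l : ℤ) (N : Finset (ℤ × ℤ)) : ℝ :=
  P q (HE (4 * l)) ∅ (fun ω => cN l N ⊆ ω)

/-- the common part -/
noncomputable def Gam (q : ℝ) (l : ℤ) (A : Finset (ℤ × ℤ)) : ℝ := ∑ N ∈ VN l, aN q l N * gam q l N A

/-- outer factor -/
noncomputable def WN (q : ℝ) (R l : ℤ) (F : Finset (Sym2 (ℤ × ℤ))) (t : ℤ × ℤ) (N : Finset (ℤ × ℤ)) : ℝ :=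
  P q (HE R) F (fun ω => cN l N ⊆ ω ∧ OutN l N t ω)

/-- the hitting probabilities of `A` are between `m` and `M` times those of `B`, in all environments of radius `≥ ρ` -/
def RB (q : ℝ) (ρ : ℤ) (m M : ℝ) (A B : Finset (ℤ × ℤ)) : Prop :=
  ∀ (R : ℤ) (F : Finset (Sym2 (ℤ × ℤ))) (t : ℤ × ℤ), ρ ≤ R → Env R F t →
    m * hit q R F B t ≤ hit q R F A t ∧ hit q R F A t ≤ M * hit q R F B t

end Pool.Agent.IDK
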