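import Pool.Agent.IDK.Half
import Pool.Agent.FKR.Move

/-! # IDK/MoveS (MP_b3e76a_pr): move a hit box and shrink its radius by a constant factor

The box `bxx x y (L r)` is covered by the boxes `bxx (x + i r) (y + j r) r`, `|i|, |j| ≤ L` (choose `i` by rounding `(p.1 - x) / r` towards zero).
`P_union` over `(i, j)` and `move` (FKR/Move) with the constant `K + L` from `(x + i r, y + j r)` to `(x', y')`: `C = (2L+1)² / c`. -/

namespace Pool.Agent.IDK

open Finset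
open Pool.Agent.FKR
open Pool.Agent.H95.Perc (Inc conn link rect hor ver eh ev mem_rect)
open Pool.Agent.H95.SumRule (edgesIn Z2)
open Pool.Agent.H95.Wedge (Vtx pt)

variable {q : ℝ}

theorem moveS (hq : 1 ≤ q) (hu : UU q) (K L : ℕ) : ∃ C : ℝ, 0 < C ∧ ∀ (E : Finset (Sym2 Vtx))
    (f : ℤ × ℤ → Vtx) (X0 X1 Y0 Y1 : ℤ) (s : Vtx) (x y x' y' r : ℤ), NL E → Patch f X0 X1 Y0 Y1 E →
    s ∉ (rect X0 X1 Y0 Y1).image f → 4 ≤ r → X0 + (L + 14) * r ≤ x → x + (L + 14) * r ≤ X1 →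
    Y0 + (L + 14) * r ≤ y → y + (L + 14) * r ≤ Y1 → X0 + 14 * r ≤ x' → x' + 14 * r ≤ X1 →
    Y0 + 14 * r ≤ y' → y' + 14 * r ≤ Y1 → |x - x'| ≤ K * r → |y - y'| ≤ K * r →
    P q E ∅ (Hit f s x y (L * r)) ≤ C * P q E ∅ (Hit f s x' y' r) := by
  obtain ⟨c, hc, hmove⟩ := move hq hu (K + L)
  have hq0 : 0 < q := by linarith
  refine ⟨((2 * L + 1) * (2 * L + 1) : ℝ) / c, by positivity, ?_⟩
  intro E f X0 X1 Y0 Y1 s x y x' y' r hE hP hs hr hx0 hx1 hy0 hy1 hx0' hx1' hy0' hy1' hxx hyy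
  have hL0 : (0 : ℤ) ≤ L := Int.natCast_nonneg L
  have hr0 : 0 < r := by omega
  have hLr : (0 : ℤ) ≤ L * r := by positivity
  have eL : ((L : ℤ) + 14) * r = L * r + 14 * r := by ring
  rw [eL] at hx0 hx1 hy0 hy1
  rw [abs_le] at hxx hyy
  have h1 : P q E ∅ (Hit f s x y (L * r)) ≤
      P q E ∅ (fun ω => ∃ z ∈ (Icc (-(L : ℤ)) L) ×ˢ (Icc (-(L : ℤ)) L),
        Hit f s (x + z.1 * r) (y + z.2 * r) r ω) := by
    apply P_mono hq0
    rintro ζ - ⟨p, hp, hcn⟩
    unfold bxx at hp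
    rw [mem_rect] at hp
    have a1 := Int.emod_add_mul_ediv (p.1 - x) r
    have a2 := Int.emod_nonneg (p.1 - x) hr0.ne'
    have a3 := Int.emod_lt_of_pos (p.1 - x) hr0
    have b1 := Int.emod_add_mul_ediv (p.2 - y) r
    have b2 := Int.emod_nonneg (p.2 - y) hr0.ne'
    have b3 := Int.emod_lt_of_pos (p.2 - y) hr0
    have bound : ∀ t : ℤ, -(L * r) ≤ t → t ≤ L * r → -(L : ℤ) ≤ t / r ∧ t / r ≤ L := by
      intro t h1 h2
      constructor
      · apply Int.le_ediv_of_mul_le hr0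
        linarith
      · apply Int.ediv_le_of_le_mul hr0
        linarith
    have c1 := bound (p.1 - x) (by linarith) (by linarith)
    have c2 := bound (p.2 - y) (by linarith) (by linarith)
    refine ⟨((p.1 - x) / r, (p.2 - y) / r), ?_, p, ?_, hcn⟩
    · rw [mem_product, mem_Icc, mem_Icc]
      exact ⟨c1, c2⟩
    · unfold bxx
      rw [mem_rect]
      simp only
      have e1 : (p.1 - x) / r * r = r * ((p.1 - x) / r) := mul_comm _ _
      have e2 : (p.2 - y) / r * r = r * ((p.2 - y) / r) := mul_comm _ _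
      rw [e1, e2]
      refine ⟨by linarith, by linarith, by linarith, by linarith⟩
  have h2 := h1.trans (P_union hq0 _ _)
  have h3 : ∑ z ∈ (Icc (-(L : ℤ)) L) ×ˢ (Icc (-(L : ℤ)) L),
      P q E ∅ (Hit f s (x + z.1 * r) (y + z.2 * r) r) ≤
      ∑ z ∈ (Icc (-(L : ℤ)) L) ×ˢ (Icc (-(L : ℤ)) L), P q E ∅ (Hit f s x' y' r) / c := by
    apply sum_le_sum
    rintro ⟨i, j⟩ hz
    rw [mem_product, mem_Icc, mem_Icc] at hz
    obtain ⟨⟨i1, i2⟩, ⟨j1, j2⟩⟩ := hz
    simp only at i1 i2 j1 j2 ⊢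
    have i3 : -(L * r) ≤ i * r := by nlinarith
    have i4 : i * r ≤ L * r := by nlinarith
    have j3 : -(L * r) ≤ j * r := by nlinarith
    have j4 : j * r ≤ L * r := by nlinarith
    rw [le_div_iff₀ hc, mul_comm]
    apply hmove E f X0 X1 Y0 Y1 s (x + i * r) (y + j * r) x' y' r hE hP hs hr
    · linarith
    · linarith
    · linarith
    · linarith
    · exact hx0'
    · exact hx1'
    · exact hy0'
    · exact hy1'
    · rw [abs_le]; push_cast
      constructor <;> nlinarith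
    · rw [abs_le]; push_cast
      constructor <;> nlinarith
  refine (h2.trans h3).trans (le_of_eq ?_)
  rw [sum_const, card_product, Int.card_Icc, nsmul_eq_mul]
  have e : ((L : ℤ) + 1 - -(L : ℤ)).toNat = 2 * L + 1 := by omega
  rw [e]
  push_cast
  ring

end Pool.Agent.IDK
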