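import Pool.Agent.IDK.EscU
import Pool.Agent.IDK.ThinU
import Pool.Agent.IDK.MoveS
import Pool.Agent.IDK.BulkU
import Pool.Agent.FKR.ArmCore

/-! # IDK/RecU (MP_b3e76a_pr): recursion towards the tip

Let `b` be from `thinU`, `D n = P q (WE m N) ∅ (DT n t)`, `g n = GT q m N n t`.
(a) `g (4n) ≤ C4 * g n` for `400 ≤ n`, `5 n ≤ N`, `5 n < nm t`: `moveS` with `L = 5`, `K = 700`, `r = n / 100`, patch `ch 0` on `rect 1 (5n) 0 (5n)`
(`patch_ch`; `4n / 100 ≤ 5 (n / 100)`, `Hit_mono` = `ACore.Hit_mono`; `t` is not in the image by `nm_ch`).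
(b) For `n ≥ 3960 K`, `2 n ≤ nm t`, `4 n ≤ N`, `4 n < nm t`: `D n ≤ 2 b^K D (2n) + CR g n`: `ρ = n / (990 K)`, `r = 15 ρ` (arithmetic as in `ACore.stepB`); if `DT n t ω`
(`u` with `nm u ≤ n`, `Cn ω u t`) then `escU` gives `Th m n r ω` or a bulk vertex connected to `u`, hence to `t`: `BulkT m n r t ω`. `thinU` with
`B = DT (2n) t`, which only depends on `tc (2n < nm) ω` (`Cn_tc_iff` with `S v = (2n < nm v)`, from `t`). `bulkU` with `R = 2 * (990 K)`, `Hit_mono` (`ρ ≤ n / 100`).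
(c) `K ≥ 1` with `2 b^K * C4 ≤ 1/2`, `M0 = max 1 (2 CR)`, `K1 = 3960 K + 400`. Downward induction: for `K1 ≤ n < n2` we have `4 n < 4 n2`, so `D (4n) ≤ M g (4n)`
(hypothesis if `4 n ≥ n2`, else induction), `D (2n) ≤ D (4n)` (monotone), and `D n ≤ 2 b^K M C4 g n + CR g n ≤ M g n`. -/

namespace Pool.Agent.IDK

open Finset
open Pool.Agent.FKR
open Pool.Agent.H95.Perc (Inc conn link rect hor ver eh ev mem_rect)
open Pool.Agent.H95.SumRule (edgesIn Z2)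
open Pool.Agent.H95.Wedge (Vtx pt)

variable {q : ℝ}

attribute [local irreducible] wA P

/-- the ball of radius `n` is connected to `t` -/
def DT (n : ℕ) (t : Vtx) (ω : Finset (Sym2 Vtx)) : Prop := ∃ u, nm u ≤ n ∧ Cn ω u t

/-- probability that `t` is connected to the bulk box at scale `n` -/
noncomputable def GT (q : ℝ) (m N n : ℕ) (t : Vtx) : ℝ :=
  P q (WE m N) ∅ (Hit (ch 0) t ((n : ℕ) : ℤ) ((n : ℕ) : ℤ) ((n / 100 : ℕ) : ℤ))

namespace RUx

theorem notMem_ch {X0 X1 Y0 Y1 : ℤ} {t : Vtx} (h0 : 0 ≤ X0) (h1 : X1 < nm t) (h2 : Y1 < nm t)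
    (h3 : -(nm t : ℤ) < Y0) : t ∉ (rect X0 X1 Y0 Y1).image (ch 0) := by
  intro hc
  rw [mem_image] at hc
  obtain ⟨p, hp, hpt⟩ := hc
  rw [mem_rect] at hp
  have h4 := nm_ch 0 (p := p) (by omega)
  rw [hpt] at h4
  have h5 : |p.2| < nm t := by
    rw [abs_lt]
    constructor <;> omega
  have h6 : max p.1 |p.2| < nm t := max_lt (by omega) h5
  omega

/-- moving between two scales for a source further out -/
theorem moveGT (hq : 1 ≤ q) (hu : UU q) {m : ℕ} (hm : 1 ≤ m) : ∃ C : ℝ, 0 < C ∧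
    ∀ (N n : ℕ) (t : Vtx), 400 ≤ n → 5 * n ≤ N → 5 * n < nm t → GT q m N (4 * n) t ≤ C * GT q m N n t := by
  have hq0 : 0 < q := by linarith
  obtain ⟨C, hC, h⟩ := moveS hq hu 700 5
  refine ⟨C, hC, ?_⟩
  intro N n t hn hN ht
  obtain ⟨r, hr⟩ : ∃ r : ℕ, r = n / 100 := ⟨_, rfl⟩
  have hP : Patch (ch 0) 1 (5 * (n : ℤ)) 0 (5 * (n : ℤ)) (WE m N) :=
    patch_ch hm (le_refl 0) (by omega) (le_refl 1) (by omega) (by omega) (by omega)
      (fun _ => le_refl _) (fun h => by omega)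
  have h1 := h (WE m N) (ch 0) 1 (5 * (n : ℤ)) 0 (5 * (n : ℤ)) t (4 * (n : ℤ)) (4 * (n : ℤ)) (n : ℤ) (n : ℤ) (r : ℤ)
    (WE_NL m N) hP (notMem_ch (by omega) (by omega) (by omega) (by omega)) (by omega)
    (by push_cast; omega) (by push_cast; omega) (by push_cast; omega) (by push_cast; omega)
    (by omega) (by omega) (by omega) (by omega)
    (by
      rw [abs_le]
      push_cast
      constructor <;> omega)
    (by
      rw [abs_le]
      push_cast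
      constructor <;> omega)
  have h2 : GT q m N (4 * n) t ≤
      P q (WE m N) ∅ (Hit (ch 0) t (4 * (n : ℤ)) (4 * (n : ℤ)) (((5 : ℕ) : ℤ) * (r : ℤ))) := by
    unfold GT
    apply P_mono hq0
    intro ζ _ hA
    have hA' : Hit (ch 0) t (4 * (n : ℤ)) (4 * (n : ℤ)) ((4 * n / 100 : ℕ) : ℤ) (ζ ∪ ∅) := by
      have e : ((4 * n : ℕ) : ℤ) = 4 * (n : ℤ) := by push_cast; rfl
      rw [e] at hA
      exact hA
    refine ACore.Hit_mono ?_ hA'
    push_cast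
    omega
  have h3 : P q (WE m N) ∅ (Hit (ch 0) t (n : ℤ) (n : ℤ) (r : ℤ)) = GT q m N n t := by
    unfold GT
    rw [hr]
  rw [h3] at h1
  exact h2.trans h1

theorem DT_mono {n n' : ℕ} (h : n ≤ n') {t : Vtx} {ω : Finset (Sym2 Vtx)} (hd : DT n t ω) : DT n' t ω := by
  obtain ⟨u, hu, hc⟩ := hd
  exact ⟨u, by omega, hc⟩

theorem DT_loc {n : ℕ} {t : Vtx} (ht : n < nm t) {ω ω' : Finset (Sym2 Vtx)}
    (h : tc (fun v => n < nm v) ω = tc (fun v => n < nm v) ω') (hd : DT n t ω) : DT n t ω' := by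
  obtain ⟨u, hu, hc⟩ := hd
  have h1 : ∃ v, ¬ (n < nm v) ∧ Cn ω t v := ⟨u, by omega, hc.symm⟩
  rw [Cn_tc_iff (S := fun v => n < nm v) ht, h, ← Cn_tc_iff (S := fun v => n < nm v) ht] at h1
  obtain ⟨v, hv, hcv⟩ := h1
  exact ⟨v, by omega, hcv.symm⟩

theorem stepD (hq : 1 ≤ q) (hu : UU q) {m : ℕ} (hm : 1 ≤ m) {b : ℝ}
    (hb : ∀ (m K n N : ℕ) (r : ℤ) (B : Finset (Sym2 Vtx) → Prop), 1 ≤ m → 1 ≤ n → 1 ≤ r → 66 * K * r ≤ n →
      (∀ ω ω', ω ⊆ WE m N → ω' ⊆ WE m N →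
        tc (fun v => 2 * n < nm v) ω = tc (fun v => 2 * n < nm v) ω' → B ω → B ω') →
      P q (WE m N) ∅ (fun ω => B ω ∧ Th m n r ω) ≤ 2 * b ^ K * P q (WE m N) ∅ B) {K : ℕ} (hK : 1 ≤ K) :
    ∃ CR : ℝ, 0 < CR ∧ ∀ (N n : ℕ) (t : Vtx), 3960 * K ≤ n → 4 * n ≤ N → 4 * n < nm t →
      P q (WE m N) ∅ (DT n t) ≤ 2 * b ^ K * P q (WE m N) ∅ (DT (2 * n) t) + CR * GT q m N n t := by
  have hq0 : 0 < q := by linarith
  obtain ⟨CR, hCR, hbulk⟩ := bulkU hq hu hm (2 * (990 * K))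
  refine ⟨CR, hCR, ?_⟩
  intro N n t hn hN ht
  obtain ⟨ρ, hρ⟩ : ∃ ρ, ρ = n / (990 * K) := ⟨_, rfl⟩
  have hK0 : 0 < 990 * K := by omega
  have h1 : 4 ≤ ρ := by
    rw [hρ, Nat.le_div_iff_mul_le hK0]
    omega
  have h2 : 990 * K * ρ ≤ n := by
    rw [hρ]
    exact Nat.mul_div_le n (990 * K)
  have h3 : n < 990 * K * (ρ + 1) := by
    rw [hρ]
    exact Nat.lt_mul_div_succ n hK0
  have h4 : 990 * ρ ≤ n := by
    calc 990 * ρ = 990 * 1 * ρ := by ring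
      _ ≤ 990 * K * ρ := Nat.mul_le_mul_right _ (Nat.mul_le_mul_left _ hK)
      _ ≤ n := h2
  have h5 : n ≤ 2 * (990 * K) * ρ := by
    have : 990 * K * (ρ + 1) ≤ 990 * K * (2 * ρ) := Nat.mul_le_mul_left _ (by omega)
    calc n ≤ 990 * K * (ρ + 1) := h3.le
      _ ≤ 990 * K * (2 * ρ) := this
      _ = 2 * (990 * K) * ρ := by ring
  have h6 := hbulk n ρ N t h1 (by omega) h5 hN ht
  have h7 := hb m K n N (15 * (ρ : ℤ)) (DT (2 * n) t) hm (by omega) (by omega) (by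
    have : ((990 * K * ρ : ℕ) : ℤ) ≤ n := by exact_mod_cast h2
    push_cast at this
    linarith) (by
    intro ω ω' _ _ htc hd
    exact DT_loc (by omega) htc hd)
  have h8 : P q (WE m N) ∅ (DT n t) ≤
      P q (WE m N) ∅ (fun ω => (DT (2 * n) t ω ∧ Th m n (15 * (ρ : ℤ)) ω) ∨ BulkT m n (15 * ρ) t ω) := by
    apply P_mono hq0
    intro ζ hζ hA
    have hA' : DT (2 * n) t (ζ ∪ ∅) := DT_mono (by omega) hA
    obtain ⟨u, hun, hc⟩ := hA
    rcases escU (N := N) hm (by omega) (r := 15 * (ρ : ℤ)) (by omega) (by omega)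
      (by rw [union_empty]; exact hζ) hun (by omega) hc with h | h
    · exact Or.inl ⟨hA', h⟩
    · obtain ⟨j, x, y, hj, hj', hx, hx', hy, hy0, hym, hcn⟩ := h
      refine Or.inr ⟨j, x, y, hj, hj', hx, hx', hy, ?_, ?_, ?_⟩
      · intro hj0
        have := hy0 hj0
        omega
      · intro hjm
        have := hym hjm
        omega
      · exact hc.symm.trans (hcn.mono (ins_subset _ _))
  have h9 := P_or_le hq0 (WE m N) ∅ (fun ω => DT (2 * n) t ω ∧ Th m n (15 * (ρ : ℤ)) ω)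
    (BulkT m n (15 * ρ) t)
  have h10 : P q (WE m N) ∅ (Hit (ch 0) t n n ρ) ≤ GT q m N n t := by
    apply P_mono hq0
    intro ζ _ hA
    refine ACore.Hit_mono ?_ hA
    have : ρ ≤ n / 100 := by omega
    exact_mod_cast this
  calc P q (WE m N) ∅ (DT n t) ≤ _ := h8
    _ ≤ _ := h9
    _ ≤ 2 * b ^ K * P q (WE m N) ∅ (DT (2 * n) t) + CR * P q (WE m N) ∅ (Hit (ch 0) t n n ρ) :=
        add_le_add h7 h6
    _ ≤ _ := by gcongr

end RUx

theorem recU (hq : 1 ≤ q) (hu : UU q) {m : ℕ} (hm : 1 ≤ m) : ∃ K1 : ℕ, 400 ≤ K1 ∧ ∃ M0 : ℝ, 1 ≤ M0 ∧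
    ∀ (M : ℝ) (N n2 : ℕ) (t : Vtx), M0 ≤ M → 16 * n2 ≤ N → 16 * n2 < nm t →
    (∀ n, n2 ≤ n → n < 4 * n2 → K1 ≤ n → P q (WE m N) ∅ (DT n t) ≤ M * GT q m N n t) →
    ∀ n, K1 ≤ n → n < 4 * n2 → P q (WE m N) ∅ (DT n t) ≤ M * GT q m N n t := by
  have hq0 : 0 < q := by linarith
  obtain ⟨b, hb0, hb1, hb⟩ := thinU hq hu
  obtain ⟨C4, hC4, hmv⟩ := RUx.moveGT hq hu hm
  obtain ⟨K0, hK0⟩ := exists_pow_lt_of_lt_one (show 0 < 1 / (4 * C4) by positivity) hb1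
  obtain ⟨K, hK, hK1⟩ : ∃ K : ℕ, 1 ≤ K ∧ 2 * b ^ K * C4 ≤ 1 / 2 := by
    refine ⟨K0 + 1, by omega, ?_⟩
    have h1 : b ^ (K0 + 1) ≤ b ^ K0 := pow_le_pow_of_le_one hb0 hb1.le (by omega)
    have h2 : b ^ (K0 + 1) ≤ 1 / (4 * C4) := h1.trans hK0.le
    calc 2 * b ^ (K0 + 1) * C4 ≤ 2 * (1 / (4 * C4)) * C4 := by gcongr
      _ = 1 / 2 := by field_simp; ring
  obtain ⟨CR, hCR, hstep⟩ := RUx.stepD hq hu hm hb hK
  refine ⟨3960 * K + 400, by omega, max 1 (2 * CR), le_max_left _ _, ?_⟩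
  intro M N n2 t hM hN ht hbase
  have hM1 : 1 ≤ M := (le_max_left _ _).trans hM
  have hM2 : 2 * CR ≤ M := (le_max_right _ _).trans hM
  have key : ∀ d n : ℕ, 4 * n2 ≤ n + d → 3960 * K + 400 ≤ n → n < 4 * n2 →
      P q (WE m N) ∅ (DT n t) ≤ M * GT q m N n t := by
    intro d
    induction d using Nat.strong_induction_on with
    | _ d ih =>
      intro n hd hn hn4
      by_cases h2 : n2 ≤ n
      · exact hbase n h2 hn4 hn
      · have h3 : P q (WE m N) ∅ (DT (4 * n) t) ≤ M * GT q m N (4 * n) t := by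
          by_cases h4 : 4 * n2 ≤ 4 * n
          · omega
          · exact ih (d - 3 * n) (by omega) (4 * n) (by omega) (by omega) (by omega)
        have h5 := hstep N n t (by omega) (by omega) (by omega)
        have h6 := hmv N n t (by omega) (by omega) (by omega)
        have h7 : P q (WE m N) ∅ (DT (2 * n) t) ≤ P q (WE m N) ∅ (DT (4 * n) t) :=
          P_mono hq0 (fun ζ _ hA => RUx.DT_mono (by omega) hA)
        have hbK : 0 ≤ b ^ K := pow_nonneg hb0 K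
        have hg0 : 0 ≤ GT q m N n t := P_nonneg hq0 _ _ _
        have hM0 : 0 ≤ M := by linarith
        calc P q (WE m N) ∅ (DT n t)
            ≤ 2 * b ^ K * P q (WE m N) ∅ (DT (2 * n) t) + CR * GT q m N n t := h5
          _ ≤ 2 * b ^ K * (M * (C4 * GT q m N n t)) + CR * GT q m N n t := by
              have h8 : P q (WE m N) ∅ (DT (2 * n) t) ≤ M * (C4 * GT q m N n t) :=
                h7.trans (h3.trans (mul_le_mul_of_nonneg_left h6 hM0))
              have h9 : 2 * b ^ K * P q (WE m N) ∅ (DT (2 * n) t) ≤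
                  2 * b ^ K * (M * (C4 * GT q m N n t)) :=
                mul_le_mul_of_nonneg_left h8 (by positivity)
              linarith
          _ = (2 * b ^ K * C4 * M + CR) * GT q m N n t := by ring
          _ ≤ (1 / 2 * M + M / 2) * GT q m N n t := by
              apply mul_le_mul_of_nonneg_right _ hg0
              have := mul_le_mul_of_nonneg_right hK1 hM0
              linarith
          _ = M * GT q m N n t := by ring
  intro n hn hn4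
  exact key (4 * n2) n (by omega) hn hn4

end Pool.Agent.IDK
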