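import Pool.Agent.IDK.MoveS
import Pool.Agent.IDK.RecU
import Pool.Agent.FKR.FlatP

/-! # IDK/BaseU (MP_b3e76a_pr): start of the recursion: scales comparable to the distance of `t`

`t = ch 0 (T, 0)`, `ν = T / 2` (so `ν < T`, `T + ν ≤ N`), `f p = ch 0 (T + p.2, p.1)`.
Upper bound: `DT n t ω` with `n < T / 2` implies `FArm f (T / 2) ω` (all vertices of `(rect 0 (ν-1) (-ν+1) (ν-1)).image f` have norm `≥ T - ν + 1 > n` by
`nm_ch`), so `P (DT n t) ≤ wA q 2 ν` by `farm_up` and `flatLoc_ray` (`F = ∅`).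
Lower bound: `arm_core` with `m = 2`: `c * wA q 2 ν ≤ P q (WE 2 ν) ∅ (Hit (ch 0) tip (ν/4) (ν/4) (ν/400))`; `flat_low` with `flatSub_ray` transports it to
`Hit f (f (0,0)) (ν/4) (-(ν/4)) (ν/400)` in `WE m N`, which is `Hit (ch 0) t (T - ν/4) (ν/4) (ν/400)` (the box is symmetric under exchange of the coordinates). Then
`moveS` in `ch 0` on `rect 1 (2 T) 1 (2 T)` (`t` is not in its image: `ch_inj`, second coordinate `0`), `r = n / 100`, `L = 20`, `K = 13000`, to `(n, n)`: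
`ν / 400 ≤ 20 (n / 100)` because `T ≤ 128 n` and `n` is large (`n ≥ 10000`); margins: `34 r ≤ 34 n / 100 ≤ T / 40`, `ν / 4 ≥ T / 9`, `14 r + 1 ≤ n`;
`|x - x'| ≤ T ≤ 128 n ≤ 13000 (n / 100)`. -/

namespace Pool.Agent.IDK

open Finset
open Pool.Agent.FKR
open Pool.Agent.H95.Perc (Inc conn link rect hor ver eh ev mem_rect)
open Pool.Agent.H95.SumRule (edgesIn Z2)
open Pool.Agent.H95.Wedge (Vtx pt)

variable {q : ℝ}

/-- upper bound: if the ball of radius `n` is connected to `t`, then `t` has a half-plane arm -/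
private theorem bu_up (hq : 1 ≤ q) {m : ℕ} {T N n ν : ℕ} (hν : 1 ≤ ν) (hνT : ν < T)
    (hn : n < T - ν + 1) :
    P q (WE m N) ∅ (DT n (ch 0 (T, 0))) ≤ wA q 2 ν := by
  have hq0 : 0 < q := by linarith
  have h1 : P q (WE m N) ∅ (DT n (ch 0 (T, 0))) ≤
      P q (WE m N) ∅ (FArm (fun p => ch 0 (T + p.2, p.1)) ν) := by
    refine P_mono hq0 fun ζ _ hA => ?_
    obtain ⟨u, hu, hcn⟩ := hA
    refine ⟨u, ?_, ?_⟩
    · intro hmem
      rw [mem_image] at hmem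
      obtain ⟨p, hp, hpu⟩ := hmem
      rw [mem_rect] at hp
      have h2 := nm_ch 0 (p := ((T : ℤ) + p.2, p.1)) (by simp only; omega)
      have h3 : nm (ch 0 ((T : ℤ) + p.2, p.1)) = nm u := by rw [hpu]
      have h4 : (T : ℤ) + p.2 ≤ nm u := by
        rw [← h3, h2]
        exact le_max_left _ _
      omega
    · have h5 : (fun p : ℤ × ℤ => ch 0 ((T : ℤ) + p.2, p.1)) (0, 0) = ch 0 (T, 0) := by simp
      rw [h5]
      exact hcn.symm
  refine h1.trans ?_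
  exact farm_up hq hν (WE_NL m N) (by intro e he; simp at he) (flatLoc_ray hν hνT)
    (by intro e he; simp at he)

theorem baseU (hq : 1 ≤ q) (hu : UU q) {m : ℕ} (hm : 1 ≤ m) : ∃ M : ℝ, 0 < M ∧ ∃ T0 : ℕ, 1 ≤ T0 ∧
    ∀ T N n : ℕ, T0 ≤ T → 2 * T ≤ N → T ≤ 128 * n → 16 * n ≤ T →
    P q (WE m N) ∅ (DT n (ch 0 (T, 0))) ≤ M * GT q m N n (ch 0 (T, 0)) := by
  have hq0 : 0 < q := by linarith
  obtain ⟨c, hc, n0, hn0, hcore⟩ := arm_core hq hu (m := 2) (by norm_num)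
  obtain ⟨C, hC, hmove⟩ := moveS hq hu 13000 20
  refine ⟨C / c, div_pos hC hc, 2 * n0 + 1280000, by omega, ?_⟩
  intro T N n hT0 hTN hT1 hT2
  have hn : 10000 ≤ n := by omega
  obtain ⟨ν, hν⟩ : ∃ ν : ℕ, ν = T / 2 := ⟨_, rfl⟩
  have hνn0 : n0 ≤ ν := by omega
  have hν1 : 1 ≤ ν := by omega
  have hνT : ν < T := by omega
  have h1 := bu_up hq (m := m) (N := N) hν1 hνT (n := n) (by omega)
  have h2 := hcore ν hνn0
  have hFS : FlatSub (fun p => ch 0 (T + p.2, p.1)) ν (WE m N) := flatSub_ray hm hνT (by omega)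
  have h3 := flat_low hq (WE_NL m N) hFS (x := ((ν / 4 : ℕ) : ℤ)) (y := ((ν / 4 : ℕ) : ℤ))
    (r := ((ν / 400 : ℕ) : ℤ)) (by omega) (by omega) (by omega) (by omega) (by omega)
  have hr : 100 ≤ n / 100 := by omega
  have h4 : P q (WE m N) ∅ (Hit (fun p => ch 0 (T + p.2, p.1))
      ((fun p : ℤ × ℤ => ch 0 ((T : ℤ) + p.2, p.1)) (0, 0)) ((ν / 4 : ℕ) : ℤ)
      (-((ν / 4 : ℕ) : ℤ)) ((ν / 400 : ℕ) : ℤ)) ≤
      P q (WE m N) ∅ (Hit (ch 0) (ch 0 (T, 0)) ((T : ℤ) - ((ν / 4 : ℕ) : ℤ)) ((ν / 4 : ℕ) : ℤ)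
        (((20 : ℕ) : ℤ) * ((n / 100 : ℕ) : ℤ))) := by
    refine P_mono hq0 fun ζ _ hA => ?_
    obtain ⟨p, hp, hcn⟩ := hA
    have h5 : (fun p : ℤ × ℤ => ch 0 ((T : ℤ) + p.2, p.1)) (0, 0) = ch 0 (T, 0) := by simp
    rw [h5] at hcn
    refine ⟨((T : ℤ) + p.2, p.1), ?_, hcn⟩
    unfold bxx at hp ⊢
    rw [mem_rect] at hp ⊢
    simp only
    push_cast at hp ⊢
    omega
  have hns : ch 0 ((T : ℤ), 0) ∉ (rect 1 (2 * (T : ℤ)) 1 (2 * (T : ℤ))).image (ch 0) := by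
    intro hmem
    rw [mem_image] at hmem
    obtain ⟨p, hp, hpt⟩ := hmem
    rw [mem_rect] at hp
    have h6 := ch_inj 0 (show (0 : ℤ) ≤ p.1 by omega) (show (0 : ℤ) ≤ ((T : ℤ), (0 : ℤ)).1 by simp) hpt
    rw [h6] at hp
    simp only at hp
    omega
  have h5 := hmove (WE m N) (ch 0) 1 (2 * (T : ℤ)) 1 (2 * (T : ℤ)) (ch 0 (T, 0))
    ((T : ℤ) - ((ν / 4 : ℕ) : ℤ)) ((ν / 4 : ℕ) : ℤ) (n : ℤ) (n : ℤ) ((n / 100 : ℕ) : ℤ) (WE_NL m N)
    (patch_ch hm le_rfl (by omega) le_rfl (by omega) (by omega) (by omega) (by intro _; omega)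
      (by intro h; omega)) hns (by omega) (by push_cast; omega) (by push_cast; omega)
    (by push_cast; omega) (by push_cast; omega) (by omega) (by omega) (by omega) (by omega)
    (by rw [abs_le]; push_cast; omega) (by rw [abs_le]; push_cast; omega)
  have h6 : c * P q (WE m N) ∅ (DT n (ch 0 (T, 0))) ≤ C * GT q m N n (ch 0 (T, 0)) := by
    calc c * P q (WE m N) ∅ (DT n (ch 0 (T, 0))) ≤ c * wA q 2 ν :=
          mul_le_mul_of_nonneg_left h1 hc.le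
      _ ≤ _ := h2
      _ ≤ _ := h3
      _ ≤ _ := h4
      _ ≤ C * GT q m N n (ch 0 (T, 0)) := h5
  rw [div_mul_eq_mul_div, le_div_iff₀ hc]
  linarith

end Pool.Agent.IDK
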