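import Pool.Agent.IDK.HubL
import Pool.Agent.FKR.C2a

/-! # IDK/BulkRect (MP_b3e76a_pr): crossings of rectangles in the bulk, radial crossings

`bulkVer`: `E = edgesIn (rect n (2n) (-3n) (3n))`, large `n`: `r = n / 100`, `x = 3 n / 2`, circuits `An x (-2n - 3r + i r) r`, `i ≤ k`, `k ≤ 1000` (up to `2n + 2r ≤ y ≤ 2n + 4r`; all boxes `bxx x _ (12 r)` are in `rect n (2n) (-3n) (3n)`),
`P_lineV`, `An_E`. Deterministic for `ω ⊆ E`: `lineV`, `An_hub`, `Hub_mem` at both ends give `a`, `b` with `a.2 ≤ -2n`, `2n ≤ b.2`, `Cn ω a b`; `conn_of_Cn`, `ver_of_conn_lt` (FKR/C2a). Small `n`: `P_pos_full`.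
`radial`: the same with a horizontal line at `y = 0` from `x = n / 2` to `x ≥ S n + 2 r`, `r = n / 100` (`x + 12 r ≤ (S + 1) n`), number of circuits `≤ 200 S + 10` up to rounding; the first hub is connected to a vertex of
`bxx (n/2) 0 (2r) ⊆ HB n`, the last one to a vertex with first coordinate `≥ S n`. -/

namespace Pool.Agent.IDK

open Finset
open Pool.Agent.FKR
open Pool.Agent.H95.Perc (Inc conn link rect hor ver eh ev mem_rect)
open Pool.Agent.H95.SumRule (edgesIn Z2)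
open Pool.Agent.H95.Wedge (Vtx pt)

variable {q : ℝ}

/-- a positive lower bound for all `n ≥ 1` from large `n` and positivity -/
private theorem all_bd (f : ℕ → ℝ) (N : ℕ) {c0 : ℝ} (hc0 : 0 < c0) (h0 : ∀ n, N ≤ n → c0 ≤ f n)
    (h : ∀ n, 1 ≤ n → 0 < f n) : ∃ c : ℝ, 0 < c ∧ ∀ n, 1 ≤ n → c ≤ f n := by
  have key : ∀ M : ℕ, ∃ c : ℝ, 0 < c ∧ ∀ n, 1 ≤ n → n < M → c ≤ f n := by
    intro M
    induction M with
    | zero => exact ⟨1, one_pos, fun n _ h => absurd h (by omega)⟩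
    | succ M ih =>
      obtain ⟨c, hc, h1⟩ := ih
      rcases Nat.eq_zero_or_pos M with h2 | h2
      · exact ⟨1, one_pos, fun n h3 h4 => absurd h4 (by omega)⟩
      · refine ⟨min c (f M), lt_min hc (h M h2), fun n h3 h4 => ?_⟩
        rcases Nat.lt_succ_iff_lt_or_eq.1 h4 with h5 | rfl
        · exact (min_le_left _ _).trans (h1 n h3 h5)
        · exact min_le_right _ _
  obtain ⟨c, hc, h1⟩ := key N
  refine ⟨min c c0, lt_min hc hc0, fun n hn => ?_⟩
  rcases lt_or_ge n N with h2 | h2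
  · exact (min_le_left _ _).trans (h1 n hn h2)
  · exact (min_le_right _ _).trans (h0 n h2)

/-- number of steps of length `r` -/
private theorem steps {L r B : ℤ} (hr : 1 ≤ r) (hL : 0 ≤ L) (hB : L ≤ B * r) :
    ∃ k : ℕ, L < k * r ∧ (k : ℤ) * r ≤ L + r ∧ (k : ℤ) ≤ B + 1 := by
  have h1 := Int.ediv_mul_le L (show r ≠ 0 by omega)
  have h2 := Int.lt_ediv_add_one_mul_self L (show 0 < r by omega)
  have h3 : 0 ≤ L / r := Int.ediv_nonneg hL (by omega)
  have h4 : L / r ≤ B := by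
    have h5 : (L / r) * r ≤ B * r := h1.trans hB
    exact le_of_mul_le_mul_right h5 (by omega)
  refine ⟨(L / r).toNat + 1, ?_, ?_, ?_⟩
  · push_cast
    rw [Int.toNat_of_nonneg h3]
    exact h2
  · push_cast
    rw [Int.toNat_of_nonneg h3]
    nlinarith
  · push_cast
    rw [Int.toNat_of_nonneg h3]
    omega

private theorem col_conn {n a b Y0 Y1 X1 : ℤ} (hab : a ≤ b) (ha : Y0 ≤ a) (hb : b ≤ Y1) (hX : n ≤ X1) :
    conn (rect n X1 a b) (edgesIn (rect n X1 Y0 Y1)) (n, a) (n, b) := by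
  have key : ∀ d : ℤ, a ≤ d → d ≤ b →
      conn (rect n X1 a b) (edgesIn (rect n X1 Y0 Y1)) (n, a) (n, d) := by
    intro d hd
    induction d, hd using Int.leInduction with
    | base => exact fun _ => Pool.Agent.H95.Perc.conn_refl _ _ _
    | succ d hd ih =>
      intro h1
      refine (ih (by omega)).trans ?_
      have hadj : Z2.Adj (n, d) (n, d + 1) := by
        rw [Z2_adj]
        simp
      refine Pool.Agent.H95.Perc.conn_step (by rw [mem_rect]; simp only; omega)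
        (by rw [mem_rect]; simp only; omega) hadj ?_
      rw [Pool.Agent.H95.Perc.mem_edgesIn', mem_rect, mem_rect]
      exact ⟨by simp only; omega, by simp only; omega, hadj⟩
  exact key b hab le_rfl

theorem bulkVer (hq : 1 ≤ q) (hu : UU q) : ∃ c : ℝ, 0 < c ∧ ∀ n : ℕ, 1 ≤ n →
    c ≤ P q (edgesIn (rect n (2 * n) (-(3 * n)) (3 * n))) ∅ (ver n (2 * n) (-(2 * n)) (2 * n)) := by
  have hq0 : 0 < q := by linarith
  obtain ⟨c, hc0, hc1, hc⟩ := An_E hq hu
  refine all_bd _ 100 (c0 := c ^ 1001) (by positivity) ?_ ?_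
  · intro n hn
    obtain ⟨r, hr⟩ : ∃ r : ℤ, r = (n : ℤ) / 100 := ⟨_, rfl⟩
    obtain ⟨x, hx⟩ : ∃ x : ℤ, x = 3 * (n : ℤ) / 2 := ⟨_, rfl⟩
    have hr1 : 1 ≤ r := by omega
    have hnr : (n : ℤ) ≤ 199 * r := by omega
    have hrn : 100 * r ≤ n := by omega
    obtain ⟨k, hk1, hk2, hk3⟩ := steps (L := 4 * (n : ℤ) + 5 * r) (r := r) (B := 801) hr1 (by omega)
      (by omega)
    set E := edgesIn (rect (n : ℤ) (2 * n) (-(3 * n)) (3 * n)) with hE
    have hNL : NL E := NL_edgesIn _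
    have h1 : ∀ i : ℕ, i ≤ k → c ≤ P q E ∅ (An x (-(2 * (n : ℤ)) - 3 * r + i * r) r) := by
      intro i hi
      have e1 : (0 : ℤ) ≤ i * r := by positivity
      have e2 : (i : ℤ) * r ≤ k * r := mul_le_mul_of_nonneg_right (by exact_mod_cast hi) (by omega)
      refine hc E _ _ _ hNL hr1 (Pool.Agent.H95.Perc.edgesIn_mono ?_)
      intro v hv
      unfold bxx at hv
      rw [mem_rect] at hv ⊢
      omega
    have h2 := P_lineV hq hc0.le hNL h1
    have h3 : c ^ 1001 ≤ c ^ (k + 1) := pow_le_pow_of_le_one hc0.le hc1 (by omega)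
    refine (h3.trans h2).trans (P_mono hq0 fun ζ hζ h => ?_)
    rw [union_empty] at h ⊢
    obtain ⟨u, hu1⟩ := An_hub hr1 (h 0 (Nat.zero_le _))
    obtain ⟨u', hu2⟩ := An_hub hr1 (h k le_rfl)
    simp only [Nat.cast_zero, zero_mul, add_zero] at hu1
    have hcn := lineV hr1 h hu1 hu2
    obtain ⟨a, ha, hau⟩ := Hub_mem hu1 (by omega)
    obtain ⟨b, hb, hbu⟩ := Hub_mem hu2 (by omega)
    have hab : Cn ζ a b := (hau.trans hcn).trans hbu.symm
    have hcon := conn_of_Cn hζ hab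
    unfold bxx at ha hb
    rw [mem_rect] at ha hb
    exact ver_of_conn_lt hcon (by rw [mem_rect]; omega) (by omega) (by omega) (by omega)
  · intro n hn
    refine P_pos_full hq (NL_edgesIn _) NL_empty (Pool.Agent.H95.Perc.inc_link _ _ _) ?_
    have hc := col_conn (n := (n : ℤ)) (a := -(2 * n)) (b := 2 * n) (Y0 := -(3 * n)) (Y1 := 3 * n)
      (X1 := 2 * n) (by omega) (by omega) (by omega) (by omega)
    exact ⟨_, _, by rw [mem_rect]; simp only; omega, by rw [mem_rect]; simp only; omega, rfl, rfl, hc⟩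

theorem radial (hq : 1 ≤ q) (hu : UU q) (S : ℕ) (hS : 1 ≤ S) : ∃ c : ℝ, 0 < c ∧ ∀ n : ℕ, 1 ≤ n →
    c ≤ P q (HE ((S + 1) * n)) ∅ (fun ω => ∃ u ∈ HB n, ∃ w, w ∉ HB (S * n - 1) ∧ Cn ω u w) := by
  have hq0 : 0 < q := by linarith
  obtain ⟨c, hc0, hc1, hc⟩ := An_HE hq hu
  refine all_bd _ 100 (c0 := c ^ (200 * S + 10)) (by positivity) ?_ ?_
  · intro n hn
    obtain ⟨r, hr⟩ : ∃ r : ℤ, r = (n : ℤ) / 100 := ⟨_, rfl⟩
    obtain ⟨x, hx⟩ : ∃ x : ℤ, x = (n : ℤ) / 2 := ⟨_, rfl⟩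
    obtain ⟨m, hm⟩ : ∃ m : ℤ, m = (S : ℤ) * n := ⟨_, rfl⟩
    have hr1 : 1 ≤ r := by omega
    have hnr : (n : ℤ) ≤ 199 * r := by omega
    have hrn : 100 * r ≤ n := by omega
    have hmn : (n : ℤ) ≤ m := by
      have : (1 : ℤ) ≤ S := by exact_mod_cast hS
      rw [hm]
      nlinarith
    have hSn : ((S : ℤ) + 1) * n = m + n := by rw [hm]; ring
    obtain ⟨k, hk1, hk2, hk3⟩ := steps (L := m + 2 * r - x) (r := r) (B := 199 * S + 2) hr1 (by omega)
      (by
        have : m ≤ 199 * S * r := by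
          rw [hm]
          nlinarith
        have h0 : 0 ≤ x := by omega
        nlinarith)
    rw [hSn, ← hm]
    have h1 : ∀ i : ℕ, i ≤ k → c ≤ P q (HE (m + n)) ∅ (An (x + i * r) 0 r) := by
      intro i hi
      have e1 : (0 : ℤ) ≤ i * r := by positivity
      have e2 : (i : ℤ) * r ≤ k * r := mul_le_mul_of_nonneg_right (by exact_mod_cast hi) (by omega)
      refine hc _ _ _ _ hr1 (by omega) (by omega) ?_
      rw [abs_zero]
      omega
    have h2 := P_lineH hq hc0.le (HE_NL _) h1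
    have h3 : c ^ (200 * S + 10) ≤ c ^ (k + 1) := pow_le_pow_of_le_one hc0.le hc1 (by omega)
    refine (h3.trans h2).trans (P_mono hq0 fun ζ hζ h => ?_)
    rw [union_empty] at h ⊢
    obtain ⟨u, hu1⟩ := An_hub hr1 (h 0 (Nat.zero_le _))
    obtain ⟨u', hu2⟩ := An_hub hr1 (h k le_rfl)
    simp only [Nat.cast_zero, zero_mul, add_zero] at hu1
    have hcn := lineH hr1 h hu1 hu2
    obtain ⟨a, ha, hau⟩ := Hub_mem hu1 (by omega)
    obtain ⟨b, hb, hbu⟩ := Hub_mem hu2 (by omega)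
    have hab : Cn ζ a b := (hau.trans hcn).trans hbu.symm
    unfold bxx at ha hb
    rw [mem_rect] at ha hb
    refine ⟨a, by rw [mem_HB]; omega, b, by rw [mem_HB]; omega, hab⟩
  · intro n hn
    refine P_pos_full hq (HE_NL _) NL_empty ?_ ?_
    · rintro ω ω' hs ⟨u, hu, w, hw, h⟩
      exact ⟨u, hu, w, hw, h.mono hs⟩
    · refine ⟨(0, 0), by rw [mem_HB]; simp only; omega, ((S : ℤ) * n, 0), by rw [mem_HB]; simp only; omega, ?_⟩
      have hSn : ((S : ℤ) + 1) * n = S * n + n := by ring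
      have h0 : (0 : ℤ) ≤ S * n := by positivity
      refine row_Cn' h0 fun i h1 h2 => ?_
      rw [mem_HE, mem_HB, mem_HB, hSn]
      refine ⟨by simp only; omega, by simp only; omega, ?_⟩
      rw [Z2_adj]
      simp

end Pool.Agent.IDK
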