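import Pool.Agent.FKR.Move
import Pool.Agent.FKR.SFactsDef

/-! # IDK/CChain (MP_b3e76a_pr): a vertical chain of circuits (planar, for sets of starting points)

`HubS V S n x y ω`: some vertex of `S` is connected to a hub at `(x, y)`. As in `FKR/Move` (`hubC_step`, `hubC_ver`), but in the plane: no
charts. (1) `P (∃ s ∈ S, ∃ p ∈ bxx x y ρ, Cn ω s p) * c ≤ P (HubS at (x, y))`: FKG with `An x y ρ`, `An_hub`, `Hub_cross` (the vertices of `S` are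
outside `bxx x y (2ρ - 1)`). (2) one step down: `Hub_up` (`Hub x y n κ u → Hub x (y + n) n κ u' → Cn κ u u'`, used with `y - n`, `y`). (3) `K` steps, then
`Hub_mem`: the hub is connected to a vertex of `bxx x (y - K ρ) (2 ρ)`. Lower bound of `P (An x y' ρ)`: `uu_trans`, `UU q` and `P_mono_EF`
(`bxx x y' (12 ρ) ⊆ V`); the constant is `c ^ (K + 1)`. -/

namespace Pool.Agent.IDK

open Finset
open Pool.Agent.FKR
open Pool.Agent.H95.Perc (Inc conn link rect hor ver eh ev mem_rect)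
open Pool.Agent.H95.SumRule (edgesIn Z2)

variable {q : ℝ}

/-- some vertex of `S` is connected to a hub at `(x, y)` -/
def HubS (S : Set (ℤ × ℤ)) (n x y : ℤ) (ω : Finset (Sym2 (ℤ × ℤ))) : Prop :=
  ∃ s ∈ S, ∃ u, Hub x y n ω u ∧ Cn ω s u

theorem inc_HubS (S : Set (ℤ × ℤ)) (n x y : ℤ) : Inc (HubS S n x y) := by
  rintro ω ω' hs ⟨s, hs', u, h1, h2⟩
  exact ⟨s, hs', u, mv_inc_Hub x y n u _ _ hs h1, h2.mono hs⟩

theorem inc_SBox (S : Set (ℤ × ℤ)) (x y ρ : ℤ) :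
    Inc (fun ω : Finset (Sym2 (ℤ × ℤ)) => ∃ s ∈ S, ∃ p ∈ bxx x y ρ, Cn ω s p) := by
  rintro ω ω' hs ⟨s, hs', p, hp, h⟩
  exact ⟨s, hs', p, hp, h.mono hs⟩

theorem cc_An_le (hq : 1 ≤ q) {V : Finset (ℤ × ℤ)} {x y n : ℤ} (hV : bxx x y (12 * n) ⊆ V) :
    uu q n ≤ P q (edgesIn V) ∅ (An x y n) := by
  have hq0 : 0 < q := by linarith
  rw [← uu_trans hq0 x y n]
  exact P_mono_EF hq (NL_edgesIn V) (fun e he => absurd he (notMem_empty e))
    ((Pool.Agent.H95.Perc.edgesIn_mono hV).trans subset_union_left) (Subset.refl _) (inc_An x y n)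

theorem chain_down (hq : 1 ≤ q) (hu : UU q) (K : ℕ) : ∃ c : ℝ, 0 < c ∧
    ∀ (V : Finset (ℤ × ℤ)) (S : Set (ℤ × ℤ)) (x y ρ : ℤ), 1 ≤ ρ →
    rect (x - 12 * ρ) (x + 12 * ρ) (y - (K + 12) * ρ) (y + 12 * ρ) ⊆ V →
    (∀ s ∈ S, s ∉ bxx x y (2 * ρ - 1)) →
    c * P q (edgesIn V) ∅ (fun ω => ∃ s ∈ S, ∃ p ∈ bxx x y ρ, Cn ω s p) ≤
      P q (edgesIn V) ∅ (fun ω => ∃ s ∈ S, ∃ p ∈ bxx x (y - K * ρ) (2 * ρ), Cn ω s p) := by
  classical
  obtain ⟨c, hc, hcu⟩ := hu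
  have hq0 : 0 < q := by linarith
  refine ⟨c ^ K * c, by positivity, ?_⟩
  intro V S x y ρ hρ hV hS
  have hE := NL_edgesIn V
  have hF : NL (∅ : Finset (Sym2 (ℤ × ℤ))) := fun e he => absurd he (notMem_empty e)
  have hK0 : (0 : ℤ) ≤ K := Int.natCast_nonneg K
  have hAn : ∀ k : ℕ, k ≤ K → c ≤ P q (edgesIn V) ∅ (An x (y - k * ρ) ρ) := by
    intro k hk
    refine (hcu ρ hρ).trans (cc_An_le hq ?_)
    refine Subset.trans ?_ hV
    unfold bxx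
    have h1 : (k : ℤ) * ρ ≤ K * ρ := by
      apply mul_le_mul_of_nonneg_right _ (by omega)
      exact_mod_cast hk
    have h2 : (0 : ℤ) ≤ k * ρ := by positivity
    have h3 : ((K : ℤ) + 12) * ρ = K * ρ + 12 * ρ := by ring
    rw [h3]
    exact Pool.Agent.H95.Perc.rect_mono (by omega) (by omega) (by omega) (by omega)
  -- start
  have hstart : c * P q (edgesIn V) ∅ (fun ω => ∃ s ∈ S, ∃ p ∈ bxx x y ρ, Cn ω s p) ≤
      P q (edgesIn V) ∅ (HubS S ρ x y) := by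
    have h1 := P_fkg hq hE hF (inc_SBox S x y ρ) (inc_An x y ρ)
    have h0 := hAn 0 (Nat.zero_le _)
    simp only [Nat.cast_zero, zero_mul, sub_zero] at h0
    calc c * P q (edgesIn V) ∅ (fun ω => ∃ s ∈ S, ∃ p ∈ bxx x y ρ, Cn ω s p)
        ≤ P q (edgesIn V) ∅ (An x y ρ) *
            P q (edgesIn V) ∅ (fun ω => ∃ s ∈ S, ∃ p ∈ bxx x y ρ, Cn ω s p) :=
          mul_le_mul_of_nonneg_right h0 (P_nonneg hq0 _ _ _)
      _ = P q (edgesIn V) ∅ (fun ω => ∃ s ∈ S, ∃ p ∈ bxx x y ρ, Cn ω s p) *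
            P q (edgesIn V) ∅ (An x y ρ) := mul_comm _ _
      _ ≤ _ := h1
      _ ≤ _ := by
          apply P_mono hq0
          rintro ζ hζ ⟨⟨s, hs, p, hp, hsp⟩, hA⟩
          obtain ⟨u, hu⟩ := An_hub hρ hA
          have hω : ζ ∪ ∅ ⊆ edgesIn V := by rwa [union_empty]
          have h2 := Hub_cross hρ hω hu hp (hS s hs) hsp.symm
          exact ⟨s, hs, u, hu, hsp.trans h2⟩
  -- steps
  have hsteps : ∀ k : ℕ, k ≤ K → c ^ k * P q (edgesIn V) ∅ (HubS S ρ x y) ≤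
      P q (edgesIn V) ∅ (HubS S ρ x (y - k * ρ)) := by
    intro k
    induction k with
    | zero => intro _; simp
    | succ k ih =>
      intro hk
      have h1 := ih (by omega)
      have h2 := hAn (k + 1) hk
      have h3 := P_fkg hq hE hF (inc_HubS S ρ x (y - k * ρ)) (inc_An x (y - ((k + 1 : ℕ) : ℤ) * ρ) ρ)
      calc c ^ (k + 1) * P q (edgesIn V) ∅ (HubS S ρ x y)
          = c * (c ^ k * P q (edgesIn V) ∅ (HubS S ρ x y)) := by ring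
        _ ≤ c * P q (edgesIn V) ∅ (HubS S ρ x (y - k * ρ)) := mul_le_mul_of_nonneg_left h1 hc.le
        _ ≤ P q (edgesIn V) ∅ (An x (y - ((k + 1 : ℕ) : ℤ) * ρ) ρ) *
              P q (edgesIn V) ∅ (HubS S ρ x (y - k * ρ)) :=
            mul_le_mul_of_nonneg_right h2 (P_nonneg hq0 _ _ _)
        _ = P q (edgesIn V) ∅ (HubS S ρ x (y - k * ρ)) *
              P q (edgesIn V) ∅ (An x (y - ((k + 1 : ℕ) : ℤ) * ρ) ρ) := mul_comm _ _
        _ ≤ _ := h3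
        _ ≤ _ := by
            apply P_mono hq0
            rintro ζ - ⟨⟨s, hs, u, hu1, hu2⟩, hA⟩
            obtain ⟨u', hu'⟩ := An_hub hρ hA
            have e : y - ((k + 1 : ℕ) : ℤ) * ρ + ρ = y - k * ρ := by push_cast; ring
            have hu3 : Hub x (y - ((k + 1 : ℕ) : ℤ) * ρ + ρ) ρ (ζ ∪ ∅) u := by rw [e]; exact hu1
            exact ⟨s, hs, u', hu', hu2.trans (Hub_up hρ hu' hu3).symm⟩
  -- end
  have hend : P q (edgesIn V) ∅ (HubS S ρ x (y - K * ρ)) ≤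
      P q (edgesIn V) ∅ (fun ω => ∃ s ∈ S, ∃ p ∈ bxx x (y - K * ρ) (2 * ρ), Cn ω s p) := by
    apply P_mono hq0
    rintro ζ - ⟨s, hs, u, hu1, hu2⟩
    obtain ⟨a, ha, hau⟩ := Hub_mem hu1 (by omega)
    exact ⟨s, hs, a, ha, hu2.trans hau.symm⟩
  calc c ^ K * c * P q (edgesIn V) ∅ (fun ω => ∃ s ∈ S, ∃ p ∈ bxx x y ρ, Cn ω s p)
      = c ^ K * (c * P q (edgesIn V) ∅ (fun ω => ∃ s ∈ S, ∃ p ∈ bxx x y ρ, Cn ω s p)) := by ring
    _ ≤ c ^ K * P q (edgesIn V) ∅ (HubS S ρ x y) :=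
        mul_le_mul_of_nonneg_left hstart (pow_nonneg hc.le _)
    _ ≤ _ := hsteps K le_rfl
    _ ≤ _ := hend

end Pool.Agent.IDK
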