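import Pool.Agent.FKR.SqBd

/-! # IDK/CSq (MP_b3e76a_pr): non-crossing of a square, vertical version

`sq_bound` (`FKR/SqBd`) transported by `Perc.diag` (`P_map`, `hor`/`ver` exchanged by `link_act`, `rect_diag`, `edgesIn_image`). -/

namespace Pool.Agent.IDK

open Finset
open Pool.Agent.FKR
open Pool.Agent.H95.Perc (Inc conn link rect hor ver eh ev mem_rect)
open Pool.Agent.H95.SumRule (edgesIn Z2)

variable {q : ℝ} {E F : Finset (Sym2 (ℤ × ℤ))} {x y w a b : ℤ}

private theorem csq_img {x0 x1 y0 y1 : ℤ} {E : Finset (Sym2 (ℤ × ℤ))}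
    (hE : E ⊆ edgesIn (rect x0 x1 y0 y1)) :
    img Pool.Agent.H95.Perc.diag E ⊆ edgesIn (rect y0 y1 x0 x1) := by
  have h1 := Pool.Agent.H95.Perc.edgesIn_image Pool.Agent.H95.Perc.isAut_diag (rect x0 x1 y0 y1)
  rw [Pool.Agent.H95.Perc.rect_diag] at h1
  rw [h1]
  exact Finset.image_subset_image hE

theorem sq_bound_ver (hq : 1 ≤ q) (hw : 2 ≤ w) (hE : E ⊆ edgesIn (rect x (x + w - 1) a b))
    (hF : F ⊆ edgesIn (rect x (x + w - 1) a b))
    (hF' : ∀ e ∈ F, ∀ v ∈ e, ¬ (y < v.2 ∧ v.2 < y + w)) :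
    1 / (1 + √q) ≤ P q E F (fun ω => ¬ ver x (x + w - 1) y (y + w) ω) := by
  have hq0 : 0 < q := by linarith
  have hEN : NL E := (NL_edgesIn _).mono hE
  have hFN : NL F := (NL_edgesIn _).mono hF
  have hmap := P_map (q := q) hq0 hEN hFN (f := Pool.Agent.H95.Perc.diag)
    (Pool.Agent.H95.Perc.diag.injective.injOn)
    (fun ω => ¬ hor y (y + w) x (x + w - 1) ω)
  have hb := sq_bound (q := q) (E := img Pool.Agent.H95.Perc.diag E)
    (F := img Pool.Agent.H95.Perc.diag F) (x := y) (y := x) (w := w) (a := a) (b := b) hq hw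
    (csq_img hE) (csq_img hF) (by
      intro e he v hv
      obtain ⟨e', he', rfl⟩ := Finset.mem_image.1 he
      obtain ⟨v', hv', rfl⟩ := Sym2.mem_map.1 hv
      exact hF' e' he' v' hv')
  rw [hmap] at hb
  refine hb.trans (P_mono hq0 ?_)
  intro ζ _ hn hv
  apply hn
  have h1 := Pool.Agent.H95.Perc.link_act Pool.Agent.H95.Perc.isAut_diag
    (V := rect x (x + w - 1) y (y + w)) (ω := ζ ∪ F) (A := fun v => v.1 = y)
    (B := fun v => v.1 = y + w)
  rw [Pool.Agent.H95.Perc.rect_diag] at h1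
  exact h1.2 hv

end Pool.Agent.IDK
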