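import Pool.Agent.IDK.CDefs
import Pool.Agent.IDK.CSq
import Pool.Agent.FKR.Localize

/-! # IDK/CDec (MP_b3e76a_pr): exponential decay along the strip

`dec_blocks`: induction on `K`. Last block `j = K - 1`, rows `j (n+1) ≤ y ≤ (j+1) (n+1)`. `P_indep_le` (`FKR/Localize`) with `D` = edges of
`EL n M` with an end `v`, `j (n+1) < v.2 < (j+1) (n+1)`; the other events depend on edges outside `D` (the crossings of the
lower blocks only use edges in `rect 0 n (i (n+1)) ((i+1) (n+1))`, `i < j`, `dep_link`; `B` only depends on edges with both ends in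
`K (n+1) ≤ v.2`, and on frozen edges, which are always the same). For `η ⊆ EL n M \ D`: `sq_bound_ver` with `x = 0`, `w = n + 1`, `y = j (n+1)`,
`a = 0`, `b = M`, active edges `D`, frozen edges `BL n ∪ η`: `P (ver) = 1 - P (¬ ver) ≤ 1 - 1 / (1 + √q) = √q / (1 + √q)`.
`cn_blocks`: a path from the row `0` to a vertex with `z.2 ≥ K (n+1)` crosses all the blocks: `Cn.middle` with `f = Prod.snd`,
`a = j (n+1)`, `b = (j+1) (n+1)`; all vertices are in `rect 0 n 0 M`. -/

namespace Pool.Agent.IDK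

open Finset
open Pool.Agent.FKR
open Pool.Agent.H95.Perc (Inc conn link rect hor ver eh ev mem_rect)
open Pool.Agent.H95.SumRule (edgesIn Z2)

variable {q : ℝ}

/-- all blocks below the row `K (n + 1)` are crossed -/
def Blocks (n K : ℕ) (ω : Finset (Sym2 (ℤ × ℤ))) : Prop :=
  ∀ j : ℕ, j < K → ver 0 n ((j : ℤ) * (n + 1)) (((j : ℤ) + 1) * (n + 1)) ω

private theorem cdec_EL_sub {n M : ℕ} : EL n M ⊆ edgesIn (rect 0 n 0 M) := sdiff_subset

private theorem cdec_BL_sub {n M : ℕ} : BL n ⊆ edgesIn (rect 0 n 0 M) :=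
  Pool.Agent.H95.Perc.edgesIn_mono
    (Pool.Agent.H95.Perc.rect_mono le_rfl le_rfl le_rfl (by omega))

private theorem cdec_nl_EL {n M : ℕ} : NL (EL n M) := (NL_edgesIn _).mono cdec_EL_sub

private theorem cdec_nl_BL {n : ℕ} : NL (BL n) := NL_edgesIn _

private theorem cdec_BL_row {n : ℕ} {e : Sym2 (ℤ × ℤ)} (he : e ∈ BL n) {v : ℤ × ℤ} (hv : v ∈ e) :
    v.2 = 0 := by
  induction e with
  | _ x y =>
    have h := Pool.Agent.H95.Perc.mem_edgesIn'.1 he
    rw [mem_rect, mem_rect] at h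
    rw [Sym2.mem_iff] at hv
    rcases hv with rfl | rfl
    · omega
    · omega

private theorem cdec_mem_row {x0 x1 y0 y1 : ℤ} {e : Sym2 (ℤ × ℤ)} (he : e ∈ edgesIn (rect x0 x1 y0 y1))
    {v : ℤ × ℤ} (hv : v ∈ e) : y0 ≤ v.2 ∧ v.2 ≤ y1 := by
  induction e with
  | _ x y =>
    have h := Pool.Agent.H95.Perc.mem_edgesIn'.1 he
    rw [mem_rect, mem_rect] at h
    rw [Sym2.mem_iff] at hv
    rcases hv with rfl | rfl
    · omega
    · omega

theorem dec_blocks (hq : 1 ≤ q) {n M K : ℕ} (hn : 1 ≤ n) (hK : K * (n + 1) ≤ M)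
    {B : Finset (Sym2 (ℤ × ℤ)) → Prop}
    (hB : ∀ ω ω', ω ⊆ EL n M ∪ BL n → ω' ⊆ EL n M ∪ BL n →
      (∀ e ∈ EL n M, (∀ v ∈ e, (K : ℤ) * (n + 1) ≤ v.2) → (e ∈ ω ↔ e ∈ ω')) → B ω → B ω') :
    P q (EL n M) (BL n) (fun ω => Blocks n K ω ∧ B ω) ≤
      (√q / (1 + √q)) ^ K * P q (EL n M) (BL n) B := by
  have hq0 : 0 < q := by linarith
  induction K with
  | zero =>
    rw [pow_zero, one_mul]
    exact P_mono hq0 (fun _ _ h => h.2)
  | succ K ih =>
    have hK' : K * (n + 1) ≤ M := by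
      have : K * (n + 1) ≤ (K + 1) * (n + 1) := Nat.mul_le_mul_right _ (Nat.le_succ K)
      omega
    have ih' := ih hK' (fun ω ω' h h' hh hb => hB ω ω' h h' (fun e he hv => hh e he (fun v hv' => by
      have h1 := hv v hv'
      push_cast at h1
      nlinarith)) hb)
    have hs : 0 < 1 + √q := by positivity
    have ha : 0 ≤ √q / (1 + √q) := by positivity
    let y : ℤ := (K : ℤ) * (n + 1)
    have hy0 : 0 ≤ y := by positivity
    let D : Finset (Sym2 (ℤ × ℤ)) := tc (fun v : ℤ × ℤ => y < v.2 ∧ v.2 < y + (n + 1)) (EL n M)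
    have hD : D ⊆ EL n M := tc_subset _ _
    have e1 : P q (EL n M) (BL n) (fun ω => Blocks n (K + 1) ω ∧ B ω) ≤
        P q (EL n M) (BL n) (fun ω => ver 0 n y (y + (n + 1)) ω ∧ (Blocks n K ω ∧ B ω)) := by
      apply P_mono hq0
      rintro ζ _ ⟨h1, h2⟩
      refine ⟨?_, fun j hj => h1 j (by omega), h2⟩
      have := h1 K (Nat.lt_succ_self K)
      rw [show ((K : ℤ) + 1) * (n + 1) = y + (n + 1) by simp only [y]; ring] at this
      exact this
    have e2 : P q (EL n M) (BL n) (fun ω => ver 0 n y (y + (n + 1)) ω ∧ (Blocks n K ω ∧ B ω)) ≤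
        √q / (1 + √q) * P q (EL n M) (BL n) (fun ω => Blocks n K ω ∧ B ω) := by
      apply P_indep_le hq0 cdec_nl_EL cdec_nl_BL hD
        (A := fun ω => ver 0 n y (y + (n + 1)) ω) (B := fun ω => Blocks n K ω ∧ B ω)
      · rintro ω ω' hω hω' hdd ⟨h1, h2⟩
        have hmem : ∀ e, e ∉ D → (e ∈ ω ↔ e ∈ ω') := by
          intro e he
          have := Finset.ext_iff.1 hdd e
          rw [mem_sdiff, mem_sdiff] at this
          exact ⟨fun h => (this.1 ⟨h, he⟩).1, fun h => (this.2 ⟨h, he⟩).1⟩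
        refine ⟨?_, ?_⟩
        · intro j hj
          have h3 := h1 j hj
          have hdep := Pool.Agent.H95.Perc.dep_link
            (rect 0 n ((j : ℤ) * (n + 1)) (((j : ℤ) + 1) * (n + 1)))
            (fun v => v.2 = (j : ℤ) * (n + 1)) (fun v => v.2 = ((j : ℤ) + 1) * (n + 1))
          refine (hdep ω').2 ?_
          have h4 := (hdep ω).1 h3
          convert h4 using 1
          ext e
          rw [mem_inter, mem_inter]
          refine and_congr_left (fun he => (hmem e ?_).symm)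
          intro heD
          obtain ⟨_, v, hv, hv1, hv2⟩ := mem_tc'.1 heD
          have h5 := (cdec_mem_row he hv).2
          have h6 : ((j : ℤ) + 1) * (n + 1) ≤ y := by
            have : (j : ℤ) + 1 ≤ K := by exact_mod_cast hj
            simp only [y]
            nlinarith
          omega
        · refine hB ω ω' hω hω' ?_ h2
          intro e he hv
          apply hmem
          intro heD
          obtain ⟨_, v, hv', hv1, hv2⟩ := mem_tc'.1 heD
          have h5 := hv v hv'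
          push_cast at h5
          have : ((K : ℤ) + 1) * (n + 1) = y + (n + 1) := by simp only [y]; ring
          rw [this] at h5
          omega
      · intro η hη
        have hsub : rect 0 ((0 : ℤ) + (n + 1) - 1) 0 M = rect 0 n 0 M := by
          rw [show (0 : ℤ) + (n + 1) - 1 = n by ring]
        have hE' : D ⊆ edgesIn (rect 0 ((0 : ℤ) + (n + 1) - 1) 0 M) := by
          rw [hsub]; exact hD.trans cdec_EL_sub
        have hF' : BL n ∪ η ⊆ edgesIn (rect 0 ((0 : ℤ) + (n + 1) - 1) 0 M) := by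
          rw [hsub]
          exact union_subset cdec_BL_sub ((hη.trans sdiff_subset).trans cdec_EL_sub)
        have hb := sq_bound_ver (q := q) (x := 0) (w := n + 1) (y := y) hq (by omega) hE' hF' (by
          intro e he v hv
          rcases mem_union.1 he with he | he
          · have := cdec_BL_row he hv
            omega
          · have h1 := mem_sdiff.1 (hη he)
            intro h2
            exact h1.2 (mem_tc'.2 ⟨h1.1, v, hv, h2⟩))
        rw [P_not hq0, show (0 : ℤ) + (n + 1) - 1 = n by ring] at hb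
        have h2 : √q / (1 + √q) = 1 - 1 / (1 + √q) := by field_simp; ring
        rw [h2]
        linarith
    calc P q (EL n M) (BL n) (fun ω => Blocks n (K + 1) ω ∧ B ω)
        ≤ √q / (1 + √q) * P q (EL n M) (BL n) (fun ω => Blocks n K ω ∧ B ω) := e1.trans e2
      _ ≤ √q / (1 + √q) * ((√q / (1 + √q)) ^ K * P q (EL n M) (BL n) B) :=
          mul_le_mul_of_nonneg_left ih' ha
      _ = (√q / (1 + √q)) ^ (K + 1) * P q (EL n M) (BL n) B := by ring

theorem cn_blocks {n M K : ℕ} {ω : Finset (Sym2 (ℤ × ℤ))} (hω : ω ⊆ EL n M ∪ BL n) {z : ℤ × ℤ}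
    (hz : (K : ℤ) * (n + 1) ≤ z.2) (h : Cn ω z (0, 0)) : Blocks n K ω := by
  intro j hj
  have hω' : ω ⊆ edgesIn (rect 0 n 0 M) := hω.trans (union_subset cdec_EL_sub cdec_BL_sub)
  have hf : ∀ x y, s(x, y) ∈ ω → (Prod.snd y : ℤ) ≤ Prod.snd x + 1 := by
    intro x y hxy
    have h1 := (Pool.Agent.H95.Perc.mem_edgesIn'.1 (hω' hxy)).2.2
    have h1' : Pool.Agent.H95.SumRule.IsUnit2 (y - x) := h1
    simp only [Pool.Agent.H95.SumRule.IsUnit2, Prod.fst_sub, Prod.snd_sub] at h1'
    omega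
  have hlt : (j : ℤ) * (n + 1) < ((j : ℤ) + 1) * (n + 1) := by nlinarith
  have hle : ((j : ℤ) + 1) * (n + 1) ≤ (K : ℤ) * (n + 1) := by
    have : (j : ℤ) + 1 ≤ K := by exact_mod_cast hj
    nlinarith
  have h0 : (0 : ℤ) ≤ (j : ℤ) * (n + 1) := by positivity
  obtain ⟨x, y, hx, hy, -, hc⟩ := h.symm.middle (f := Prod.snd) hf hlt h0 (hle.trans hz)
  have hxy : x ≠ y := by
    rintro rfl
    omega
  obtain ⟨hx1, hy1⟩ := hc.mem_vts hxy
  have hin : ∀ v, v ∈ vts (ins (fun z : ℤ × ℤ => (j : ℤ) * (n + 1) ≤ z.2 ∧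
      z.2 ≤ ((j : ℤ) + 1) * (n + 1)) ω) →
      v ∈ rect 0 n ((j : ℤ) * (n + 1)) (((j : ℤ) + 1) * (n + 1)) := by
    intro v hv
    obtain ⟨e, he, hve⟩ := mem_vts.1 hv
    obtain ⟨he1, he2⟩ := mem_ins'.1 he
    have h1 := he2 v hve
    induction e with
    | _ a b =>
      have h2 := Pool.Agent.H95.Perc.mem_edgesIn'.1 (hω' he1)
      rw [mem_rect, mem_rect] at h2
      rw [mem_rect]
      rw [Sym2.mem_iff] at hve
      rcases hve with rfl | rfl
      · omega
      · omega
  refine ⟨x, y, hin x hx1, hin y hy1, hx, hy, ?_⟩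
  refine Cn.mono hc ?_
  intro e he
  obtain ⟨he1, he2⟩ := mem_ins'.1 he
  rw [mem_inter]
  refine ⟨he1, ?_⟩
  induction e with
  | _ a b =>
    have h2 := Pool.Agent.H95.Perc.mem_edgesIn'.1 (hω' he1)
    rw [Pool.Agent.H95.Perc.mem_edgesIn', mem_rect, mem_rect]
    have h3 := he2 a (Sym2.mem_mk_left _ _)
    have h4 := he2 b (Sym2.mem_mk_right _ _)
    rw [mem_rect, mem_rect] at h2
    refine ⟨?_, ?_, h2.2.2⟩
    · omega
    · omega

end Pool.Agent.IDK
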