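/-
helper98 (statement), helper88 (proof), 3 Dec 2026.  MP_b3e76a_pr, project IDK, part D (real analysis).
The two macroscopic integrals and their ratio.

Route: u = sin² (π x / 2), u = tanh² (π y / 2) give
`∫_0^1 (2π / sin (π x))^h dx = π^(h-1) B((1-h)/2, (1-h)/2)` and
`∫_0^∞ (2π / sinh (π y))^h dy = π^(h-1) B((1-h)/2, h)`;
ratio `Γ((1-h)/2) Γ((1+h)/2) / (Γ(1-h) Γ(h)) = sin (π h) / cos (π h / 2)`.
-/
import Mathlib

namespace IDK

open MeasureTheory Real Set

/-- the (real) beta integral -/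
theorem beta_int {a b : ℝ} (ha : 0 < a) (hb : 0 < b) :
    IntegrableOn (fun u : ℝ => u ^ (a - 1) * (1 - u) ^ (b - 1)) (Ioo 0 1) ∧
    ∫ u in Ioo (0 : ℝ) 1, u ^ (a - 1) * (1 - u) ^ (b - 1) = ProbabilityTheory.beta a b := by
  have hB := ProbabilityTheory.beta_pos ha hb
  have h1 := ProbabilityTheory.lintegral_betaPDF_eq_one ha hb
  rw [ProbabilityTheory.lintegral_betaPDF] at h1
  have hnn : 0 ≤ᵐ[volume.restrict (Ioo (0 : ℝ) 1)]
      fun x : ℝ => 1 / ProbabilityTheory.beta a b * x ^ (a - 1) * (1 - x) ^ (b - 1) := by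
    refine ae_restrict_of_forall_mem measurableSet_Ioo (fun x hx => ?_)
    have h2 : 0 < x := hx.1
    have h3 : 0 < 1 - x := by linarith [hx.2]
    have := rpow_pos_of_pos h2 (a - 1)
    have := rpow_pos_of_pos h3 (b - 1)
    positivity
  have hm : AEStronglyMeasurable
      (fun x : ℝ => 1 / ProbabilityTheory.beta a b * x ^ (a - 1) * (1 - x) ^ (b - 1))
      (volume.restrict (Ioo (0 : ℝ) 1)) := Measurable.aestronglyMeasurable (by fun_prop)
  have hi : IntegrableOn
      (fun x : ℝ => 1 / ProbabilityTheory.beta a b * x ^ (a - 1) * (1 - x) ^ (b - 1)) (Ioo 0 1) := by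
    refine ⟨hm, ?_⟩
    rw [hasFiniteIntegral_iff_ofReal hnn, h1]
    exact ENNReal.one_lt_top
  have hv : ∫ x in Ioo (0 : ℝ) 1,
      1 / ProbabilityTheory.beta a b * x ^ (a - 1) * (1 - x) ^ (b - 1) = 1 := by
    rw [integral_eq_lintegral_of_nonneg_ae hnn hm, h1, ENNReal.toReal_one]
  have he : (fun u : ℝ => u ^ (a - 1) * (1 - u) ^ (b - 1)) = fun u =>
      ProbabilityTheory.beta a b * (1 / ProbabilityTheory.beta a b * u ^ (a - 1) * (1 - u) ^ (b - 1)) := by
    funext u
    field_simp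
  constructor
  · rw [he]
    exact hi.const_mul _
  · rw [he, integral_const_mul, hv, mul_one]

/-- transport of an integral by a change of variables -/
theorem transport {s : Set ℝ} (hs : MeasurableSet s) {f f' : ℝ → ℝ} {g F : ℝ → ℝ}
    (hf' : ∀ x ∈ s, HasDerivAt f (f' x) x) (hf : InjOn f s) (him : f '' s = Ioo 0 1)
    (hg : IntegrableOn g (Ioo 0 1)) (hF : ∀ x ∈ s, F x = |f' x| * g (f x)) :
    IntegrableOn F s ∧ ∫ x in s, F x = ∫ u in Ioo (0 : ℝ) 1, g u := by
  constructor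
  · have h1 : IntegrableOn (fun x => |f' x| • g (f x)) s := by
      rw [← integrableOn_image_iff_integrableOn_abs_deriv_smul hs
        (fun x hx => (hf' x hx).hasDerivWithinAt) hf, him]
      exact hg
    exact (integrableOn_congr_fun (fun x hx => by rw [hF x hx, smul_eq_mul]) hs).2 h1
  · rw [← him, integral_image_eq_integral_abs_deriv_smul hs
        (fun x hx => (hf' x hx).hasDerivWithinAt) hf]
    exact setIntegral_congr_fun hs (fun x hx => by rw [hF x hx, smul_eq_mul])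

theorem sin_side {h : ℝ} (h1 : h < 1) :
    IntegrableOn (fun x : ℝ => (2 * π / sin (π * x)) ^ h) (Ioo 0 1) ∧
    ∫ x in Ioo (0 : ℝ) 1, (2 * π / sin (π * x)) ^ h =
      π ^ (h - 1) * ProbabilityTheory.beta ((1 - h) / 2) ((1 - h) / 2) := by
  have hp : 0 < (1 - h) / 2 := by linarith
  obtain ⟨k1, k2⟩ := beta_int hp hp
  have key : ∀ x : ℝ, x ∈ Ioo (0 : ℝ) 1 → 0 < sin (π * x / 2) ∧ 0 < cos (π * x / 2) := by
    intro x hx
    have hpi := pi_pos
    constructor
    · apply sin_pos_of_pos_of_lt_pi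
      · have := mul_pos hpi hx.1; linarith
      · nlinarith [hx.2, hx.1]
    · apply cos_pos_of_mem_Ioo
      constructor
      · have := mul_pos hpi hx.1; linarith
      · nlinarith [hx.2, hx.1]
  have hder : ∀ x ∈ Ioo (0 : ℝ) 1, HasDerivAt (fun x : ℝ => sin (π * x / 2) ^ 2)
      (2 * sin (π * x / 2) * (cos (π * x / 2) * (π / 2))) x := by
    intro x _
    have e1 : HasDerivAt (fun x : ℝ => π * x / 2) (π / 2) x := by
      have := ((hasDerivAt_id x).const_mul π).div_const 2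
      simpa using this
    have e2 := e1.sin.pow 2
    convert! e2 using 1
    push_cast
    ring
  have hinj : InjOn (fun x : ℝ => sin (π * x / 2) ^ 2) (Ioo 0 1) := by
    intro x hx y hy hxy
    have e1 : sin (π * x / 2) = sin (π * y / 2) := by
      have a1 := (key x hx).1
      have a2 := (key y hy).1
      have a3 : sin (π * x / 2) ^ 2 = sin (π * y / 2) ^ 2 := hxy
      nlinarith [sq_nonneg (sin (π * x / 2) - sin (π * y / 2))]
    have hpi := pi_pos
    have e2 := injOn_sin (x₁ := π * x / 2) (x₂ := π * y / 2)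
      ⟨by nlinarith [hx.1], by nlinarith [hx.2]⟩ ⟨by nlinarith [hy.1], by nlinarith [hy.2]⟩ e1
    have e3 : π * (x - y) = 0 := by linarith
    rcases mul_eq_zero.1 e3 with e | e
    · exact absurd e hpi.ne'
    · linarith
  have him : (fun x : ℝ => sin (π * x / 2) ^ 2) '' Ioo 0 1 = Ioo 0 1 := by
    apply Subset.antisymm
    · rintro _ ⟨x, hx, rfl⟩
      obtain ⟨a1, a2⟩ := key x hx
      have a3 := sin_sq_add_cos_sq (π * x / 2)
      constructor
      · positivity
      · show sin (π * x / 2) ^ 2 < 1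
        nlinarith [mul_pos a2 a2]
    · have hc : ContinuousOn (fun x : ℝ => sin (π * x / 2) ^ 2) (Icc 0 1) := by fun_prop
      have := intermediate_value_Ioo (zero_le_one' ℝ) hc
      simpa using this
  have hfin := transport measurableSet_Ioo (F := fun x : ℝ => (2 * π / sin (π * x)) ^ h)
    (g := fun u => π ^ (h - 1) * (u ^ ((1 - h) / 2 - 1) * (1 - u) ^ ((1 - h) / 2 - 1)))
    hder hinj him (k1.const_mul _) ?_
  · refine ⟨hfin.1, ?_⟩
    rw [hfin.2, integral_const_mul, k2]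
  · intro x hx
    obtain ⟨a1, a2⟩ := key x hx
    have hpi := pi_pos
    have e1 : sin (π * x) = 2 * sin (π * x / 2) * cos (π * x / 2) := by
      rw [← sin_two_mul]; congr 1; ring
    have e2 : 1 - sin (π * x / 2) ^ 2 = cos (π * x / 2) ^ 2 := by
      have := sin_sq_add_cos_sq (π * x / 2); linarith
    show (2 * π / sin (π * x)) ^ h = |2 * sin (π * x / 2) * (cos (π * x / 2) * (π / 2))| *
      (π ^ (h - 1) * ((sin (π * x / 2) ^ 2) ^ ((1 - h) / 2 - 1) *
        (1 - sin (π * x / 2) ^ 2) ^ ((1 - h) / 2 - 1)))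
    rw [e1, e2, abs_of_pos (by positivity)]
    set s := sin (π * x / 2)
    set c := cos (π * x / 2)
    have e3 : 2 * π / (2 * s * c) = π * (s * c)⁻¹ := by field_simp
    rw [e3, mul_rpow hpi.le (by positivity), inv_rpow (by positivity), ← rpow_neg (by positivity),
      mul_rpow a1.le a2.le, ← rpow_natCast s 2, ← rpow_natCast c 2, ← rpow_mul a1.le, ← rpow_mul a2.le]
    have e4 : s ^ (-h) = s * s ^ (((2 : ℕ) : ℝ) * ((1 - h) / 2 - 1)) := by
      nth_rewrite 2 [← rpow_one s]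
      rw [← rpow_add a1]; congr 1; push_cast; ring
    have e5 : c ^ (-h) = c * c ^ (((2 : ℕ) : ℝ) * ((1 - h) / 2 - 1)) := by
      nth_rewrite 2 [← rpow_one c]
      rw [← rpow_add a2]; congr 1; push_cast; ring
    have e6 : π ^ h = π * π ^ (h - 1) := by
      nth_rewrite 2 [← rpow_one π]
      rw [← rpow_add hpi]; congr 1; ring
    rw [e4, e5, e6]
    ring

theorem sinh_side {h : ℝ} (h0 : 0 < h) (h1 : h < 1) :
    IntegrableOn (fun y : ℝ => (2 * π / sinh (π * y)) ^ h) (Ioi 0) ∧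
    ∫ y in Ioi (0 : ℝ), (2 * π / sinh (π * y)) ^ h =
      π ^ (h - 1) * ProbabilityTheory.beta ((1 - h) / 2) h := by
  have hp : 0 < (1 - h) / 2 := by linarith
  obtain ⟨k1, k2⟩ := beta_int hp h0
  have hpi := pi_pos
  have key : ∀ y : ℝ, y ∈ Ioi (0 : ℝ) → 0 < sinh (π * y / 2) ∧ 0 < cosh (π * y / 2) := by
    intro y hy
    have hy' : 0 < y := hy
    exact ⟨sinh_pos_iff.2 (by positivity), cosh_pos _⟩
  have hder : ∀ y ∈ Ioi (0 : ℝ), HasDerivAt (fun y : ℝ => 1 - (cosh (π * y / 2) ^ 2)⁻¹)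
      (π * sinh (π * y / 2) / cosh (π * y / 2) ^ 3) y := by
    intro y hy
    obtain ⟨-, a2⟩ := key y hy
    have e1 : HasDerivAt (fun x : ℝ => π * x / 2) (π / 2) y := by
      have := ((hasDerivAt_id y).const_mul π).div_const 2
      simpa using this
    have e2 : HasDerivAt (fun x : ℝ => cosh (π * x / 2) ^ 2)
        (2 * cosh (π * y / 2) * (sinh (π * y / 2) * (π / 2))) y := by
      have e3 := e1.cosh.pow 2
      convert! e3 using 1
      push_cast
      ring
    have e4 : HasDerivAt (fun x : ℝ => 1 - (cosh (π * x / 2) ^ 2)⁻¹)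
        (-(-(2 * cosh (π * y / 2) * (sinh (π * y / 2) * (π / 2))) / (cosh (π * y / 2) ^ 2) ^ 2)) y :=
      (e2.inv (by positivity)).const_sub 1
    convert! e4 using 1
    field_simp
  have hmono : StrictMonoOn (fun y : ℝ => cosh (π * y / 2)) (Ici 0) := by
    intro x hx y hy hxy
    have hx' : 0 ≤ x := hx
    have hy' : 0 ≤ y := hy
    apply cosh_strictMonoOn
    · show 0 ≤ π * x / 2
      positivity
    · show 0 ≤ π * y / 2
      positivity
    · have := mul_lt_mul_of_pos_left hxy hpi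
      linarith
  have hinj : InjOn (fun y : ℝ => 1 - (cosh (π * y / 2) ^ 2)⁻¹) (Ioi 0) := by
    intro x hx y hy hxy
    have a1 := (key x hx).2
    have a2 := (key y hy).2
    have e1 : (cosh (π * x / 2) ^ 2)⁻¹ = (cosh (π * y / 2) ^ 2)⁻¹ := by
      have : 1 - (cosh (π * x / 2) ^ 2)⁻¹ = 1 - (cosh (π * y / 2) ^ 2)⁻¹ := hxy
      linarith
    have e2 : cosh (π * x / 2) ^ 2 = cosh (π * y / 2) ^ 2 := inv_injective e1
    have e3 : cosh (π * x / 2) = cosh (π * y / 2) :=
      (pow_left_inj₀ a1.le a2.le two_ne_zero).1 e2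
    exact hmono.injOn (Ioi_subset_Ici_self hx) (Ioi_subset_Ici_self hy) e3
  have him : (fun y : ℝ => 1 - (cosh (π * y / 2) ^ 2)⁻¹) '' Ioi 0 = Ioo 0 1 := by
    apply Subset.antisymm
    · rintro _ ⟨y, hy, rfl⟩
      have hy' : 0 < y := hy
      have a2 : 1 < cosh (π * y / 2) := one_lt_cosh.2 (by positivity)
      have a3 : 1 < cosh (π * y / 2) ^ 2 := by nlinarith
      constructor
      · show 0 < 1 - (cosh (π * y / 2) ^ 2)⁻¹
        have := inv_lt_one_of_one_lt₀ a3
        linarith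
      · show 1 - (cosh (π * y / 2) ^ 2)⁻¹ < 1
        have : 0 < (cosh (π * y / 2) ^ 2)⁻¹ := by positivity
        linarith
    · intro u hu
      have hu1 : 0 < 1 - u := by linarith [hu.2]
      set t := √(1 / (1 - u)) with ht
      have ht1 : 1 < t := by
        rw [ht]
        apply lt_sqrt_of_sq_lt
        rw [one_pow, lt_div_iff₀ hu1]
        linarith [hu.1]
      have hc0 : 0 < arcosh t := arcosh_pos ht1
      refine ⟨2 * arcosh t / π, ?_, ?_⟩
      · show 0 < 2 * arcosh t / π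
        positivity
      · show 1 - (cosh (π * (2 * arcosh t / π) / 2) ^ 2)⁻¹ = u
        have e1 : π * (2 * arcosh t / π) / 2 = arcosh t := by field_simp
        rw [e1, cosh_arcosh ht1.le, ht, sq_sqrt (by positivity)]
        field_simp
        ring
  have hfin := transport measurableSet_Ioi (F := fun y : ℝ => (2 * π / sinh (π * y)) ^ h)
    (g := fun u => π ^ (h - 1) * (u ^ ((1 - h) / 2 - 1) * (1 - u) ^ (h - 1)))
    hder hinj him (k1.const_mul _) ?_
  · refine ⟨hfin.1, ?_⟩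
    rw [hfin.2, integral_const_mul, k2]
  · intro y hy
    obtain ⟨a1, a2⟩ := key y hy
    have e1 : sinh (π * y) = 2 * sinh (π * y / 2) * cosh (π * y / 2) := by
      rw [← sinh_two_mul]; congr 1; ring
    have e0 : cosh (π * y / 2) ^ 2 - sinh (π * y / 2) ^ 2 = 1 := cosh_sq_sub_sinh_sq _
    have e2 : 1 - (cosh (π * y / 2) ^ 2)⁻¹ = sinh (π * y / 2) ^ 2 * (cosh (π * y / 2) ^ 2)⁻¹ := by
      field_simp
      linarith
    have e2' : 1 - (1 - (cosh (π * y / 2) ^ 2)⁻¹) = (cosh (π * y / 2) ^ 2)⁻¹ := by ring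
    show (2 * π / sinh (π * y)) ^ h = |π * sinh (π * y / 2) / cosh (π * y / 2) ^ 3| *
      (π ^ (h - 1) * ((1 - (cosh (π * y / 2) ^ 2)⁻¹) ^ ((1 - h) / 2 - 1) *
        (1 - (1 - (cosh (π * y / 2) ^ 2)⁻¹)) ^ (h - 1)))
    rw [e2', e2, e1, abs_of_pos (by positivity)]
    set s := sinh (π * y / 2)
    set c := cosh (π * y / 2)
    have e3 : 2 * π / (2 * s * c) = π * (s * c)⁻¹ := by field_simp
    have e4 : (s ^ 2 * (c ^ 2)⁻¹) ^ ((1 - h) / 2 - 1) = s ^ (-1 - h) * c ^ (1 + h) := by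
      rw [mul_rpow (by positivity) (by positivity), inv_rpow (by positivity),
        ← rpow_neg (by positivity), ← rpow_natCast s 2, ← rpow_natCast c 2,
        ← rpow_mul a1.le, ← rpow_mul a2.le]
      congr 2 <;> push_cast <;> ring
    have e5 : ((c ^ 2)⁻¹) ^ (h - 1) = c ^ (2 - 2 * h) := by
      rw [inv_rpow (by positivity), ← rpow_neg (by positivity), ← rpow_natCast c 2,
        ← rpow_mul a2.le]
      congr 1; push_cast; ring
    rw [e3, mul_rpow hpi.le (by positivity), inv_rpow (by positivity), ← rpow_neg (by positivity),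
      mul_rpow a1.le a2.le, e4, e5]
    have e6 : s ^ (-h) = s * s ^ (-1 - h) := by
      nth_rewrite 2 [← rpow_one s]
      rw [← rpow_add a1]; congr 1; ring
    have e7 : c ^ (-h) = (c ^ 3)⁻¹ * (c ^ (1 + h) * c ^ (2 - 2 * h)) := by
      rw [← rpow_add a2, ← rpow_natCast c 3, ← rpow_neg a2.le, ← rpow_add a2]
      congr 1; push_cast; ring
    have e8 : π ^ h = π * π ^ (h - 1) := by
      nth_rewrite 2 [← rpow_one π]
      rw [← rpow_add hpi]; congr 1; ring
    rw [e6, e7, e8, div_eq_mul_inv]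
    ring

theorem macro_integrals {h : ℝ} (h0 : 0 < h) (h1 : h < 1) :
    IntegrableOn (fun x : ℝ => (2 * π / sin (π * x)) ^ h) (Ioo 0 1) ∧
    IntegrableOn (fun y : ℝ => (2 * π / sinh (π * y)) ^ h) (Ioi 0) ∧
    0 < ∫ y in Ioi (0 : ℝ), (2 * π / sinh (π * y)) ^ h ∧
    ∫ x in Ioo (0 : ℝ) 1, (2 * π / sin (π * x)) ^ h
      = 2 * sin (π * h / 2) * ∫ y in Ioi (0 : ℝ), (2 * π / sinh (π * y)) ^ h := by
  obtain ⟨a1, a2⟩ := sin_side h1
  obtain ⟨b1, b2⟩ := sinh_side h0 h1
  have hpi := pi_pos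
  have hp : 0 < (1 - h) / 2 := by linarith
  refine ⟨a1, b1, ?_, ?_⟩
  · rw [b2]
    have := ProbabilityTheory.beta_pos hp h0
    positivity
  · rw [a2, b2]
    unfold ProbabilityTheory.beta
    have e1 : (1 - h) / 2 + (1 - h) / 2 = 1 - h := by ring
    have e2 : (1 - h) / 2 + h = 1 - (1 - h) / 2 := by ring
    rw [e1, e2]
    have r1 := Real.Gamma_mul_Gamma_one_sub ((1 - h) / 2)
    have r2 := Real.Gamma_mul_Gamma_one_sub h
    have g1 : 0 < Gamma ((1 - h) / 2) := Gamma_pos_of_pos hp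
    have g2 : 0 < Gamma (1 - (1 - h) / 2) := Gamma_pos_of_pos (by linarith)
    have g3 : 0 < Gamma h := Gamma_pos_of_pos h0
    have g4 : 0 < Gamma (1 - h) := Gamma_pos_of_pos (by linarith)
    have s1 : sin (π * ((1 - h) / 2)) = cos (π * h / 2) := by
      rw [← cos_pi_div_two_sub]; congr 1; ring
    have s2 : sin (π * h) = 2 * sin (π * h / 2) * cos (π * h / 2) := by
      rw [← sin_two_mul]; congr 1; ring
    have c1 : 0 < cos (π * h / 2) := by
      apply cos_pos_of_mem_Ioo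
      constructor <;> nlinarith
    have c2 : 0 < sin (π * h / 2) := by
      apply sin_pos_of_pos_of_lt_pi <;> nlinarith
    rw [s1] at r1
    rw [s2] at r2
    have r3 : Gamma (1 - (1 - h) / 2) = π / cos (π * h / 2) / Gamma ((1 - h) / 2) := by
      rw [eq_div_iff g1.ne', mul_comm, r1]
    have r4 : Gamma (1 - h) = π / (2 * sin (π * h / 2) * cos (π * h / 2)) / Gamma h := by
      rw [eq_div_iff g3.ne', mul_comm, r2]
    rw [r3, r4]
    field_simp

end IDK
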