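/-
helper98, 3 Dec 2026.  MP_b3e76a_pr, project IDK, part D (real analysis).
The touching probabilities of chordal SLE_k in the half-strip of width 1, from corner to corner
(4 < k < 8: normalised incomplete Beta function of the cross-ratio), and their asymptotics for
short arcs.
-/
import Mathlib

namespace IDK

open MeasureTheory Real Set intervalIntegral

/-- The density of the touching probability in the cross-ratio. -/
noncomputable def sleDens (k s : ℝ) : ℝ := s ^ (-4 / k) * (1 - s) ^ (8 / k - 2)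

/-- Probability that chordal SLE_k in the upper half-plane from 0 to infinity touches an arc
`[u, v]` of the positive real axis, as a function of `t = u / v`. -/
noncomputable def sleTouch (k t : ℝ) : ℝ :=
  if k ≤ 4 then 0 else if 8 ≤ k then 1 else
    (∫ s in t..1, sleDens k s) / (∫ s in (0 : ℝ)..1, sleDens k s)

/-- Cross-ratio of the arc `[a, b]` of a vertical side of the half-strip of width 1. -/
noncomputable def sideRatio (a b : ℝ) : ℝ := (tanh (π * a / 2) / tanh (π * b / 2)) ^ 2

/-- Cross-ratio of the arc `[a, b]` of the bottom of the half-strip of width 1. -/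
noncomputable def bottomRatio (a b : ℝ) : ℝ := (tan (π * a / 2) / tan (π * b / 2)) ^ 2

/-- The half-plane exponent. -/
noncomputable def hExp (k : ℝ) : ℝ := 8 / k - 1

theorem hExp_pos {k : ℝ} (h0 : 4 < k) (h8 : k < 8) : 0 < hExp k := by
  unfold hExp
  have : 1 < 8 / k := by rw [lt_div_iff₀ (by linarith)]; linarith
  linarith

theorem hExp_lt_one {k : ℝ} (h4 : 4 < k) : hExp k < 1 := by
  unfold hExp
  have : 8 / k < 2 := by rw [div_lt_iff₀ (by linarith)]; linarith
  linarith

theorem neg_four_div_gt {k : ℝ} (h4 : 4 < k) : -1 < -4 / k := by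
  rw [lt_div_iff₀ (by linarith)]; linarith

theorem sleDens_nonneg (k : ℝ) {s : ℝ} (h0 : 0 ≤ s) (h1 : s ≤ 1) : 0 ≤ sleDens k s :=
  mul_nonneg (rpow_nonneg h0 _) (rpow_nonneg (by linarith) _)

theorem intervalIntegrable_one_sub_rpow {r : ℝ} (hr : -1 < r) (a b : ℝ) :
    IntervalIntegrable (fun s : ℝ => (1 - s) ^ r) volume a b := by
  have := (intervalIntegral.intervalIntegrable_rpow' (a := 1 - a) (b := 1 - b) hr).comp_sub_left 1
  simpa using this

theorem integral_one_sub_rpow {r t : ℝ} (hr : -1 < r) (ht : t ≤ 1) :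
    ∫ s in t..1, (1 - s) ^ r = (1 - t) ^ (r + 1) / (r + 1) := by
  rw [intervalIntegral.integral_comp_sub_left (fun x : ℝ => x ^ r) 1, sub_self,
    integral_rpow (Or.inl hr), zero_rpow (by linarith), sub_zero]

/-- The density is integrable on `[0, 1/2]` and on `[1/2, 1]`. -/
theorem intervalIntegrable_sleDens {k : ℝ} (h4 : 4 < k) (h8 : k < 8) {a b : ℝ} (ha : 0 ≤ a)
    (hab : a ≤ b) (hb : b ≤ 1) : IntervalIntegrable (sleDens k) volume a b := by
  have hh := hExp_pos h4 h8
  have hr : -1 < 8 / k - 2 := by unfold hExp at hh; linarith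
  have h1 : IntervalIntegrable (sleDens k) volume 0 (1 / 2) := by
    have hI : IntervalIntegrable (fun s : ℝ => s ^ (-4 / k)) volume 0 (1 / 2) :=
      intervalIntegral.intervalIntegrable_rpow' (neg_four_div_gt h4)
    refine hI.mul_continuousOn ?_
    rw [uIcc_of_le (by norm_num)]
    refine ContinuousOn.rpow_const (by fun_prop) ?_
    intro x hx
    left
    have := hx.2
    linarith
  have h2 : IntervalIntegrable (sleDens k) volume (1 / 2) 1 := by
    have hI := intervalIntegrable_one_sub_rpow hr (1 / 2) 1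
    refine hI.continuousOn_mul ?_
    rw [uIcc_of_le (by norm_num)]
    refine ContinuousOn.rpow_const (by fun_prop) ?_
    intro x hx
    left
    have := hx.1
    linarith
  have h3 := h1.trans h2
  refine h3.mono_set ?_
  rw [uIcc_of_le hab, uIcc_of_le (by norm_num)]
  exact Icc_subset_Icc ha hb

theorem sleNorm_pos {k : ℝ} (h4 : 4 < k) (h8 : k < 8) :
    0 < ∫ s in (0 : ℝ)..1, sleDens k s := by
  refine intervalIntegral_pos_of_pos_on (intervalIntegrable_sleDens h4 h8 le_rfl zero_le_one le_rfl)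
    ?_ zero_lt_one
  intro x hx
  exact mul_pos (rpow_pos_of_pos hx.1 _) (rpow_pos_of_pos (by linarith [hx.2]) _)

/-- Two-sided bound of the numerator. -/
theorem num_bounds {k t : ℝ} (h4 : 4 < k) (h8 : k < 8) (h0 : 0 < t) (h1 : t ≤ 1) :
    (1 - t) ^ hExp k / hExp k ≤ ∫ s in t..1, sleDens k s ∧
    ∫ s in t..1, sleDens k s ≤ t ^ (-4 / k) * ((1 - t) ^ hExp k / hExp k) := by
  have hh := hExp_pos h4 h8
  have hr : -1 < 8 / k - 2 := by unfold hExp at hh; linarith
  have he : hExp k = 8 / k - 2 + 1 := by unfold hExp; ring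
  have hneg : -4 / k ≤ 0 := by
    apply div_nonpos_of_nonpos_of_nonneg (by norm_num) (by linarith)
  have hval := integral_one_sub_rpow hr h1
  rw [← he] at hval
  rw [← hval]
  constructor
  · apply intervalIntegral.integral_mono_on h1 (intervalIntegrable_one_sub_rpow hr _ _)
      (intervalIntegrable_sleDens h4 h8 h0.le h1 le_rfl)
    intro x hx
    have hx0 : 0 < x := h0.trans_le hx.1
    have h1' : (1 : ℝ) ≤ x ^ (-4 / k) := one_le_rpow_of_pos_of_le_one_of_nonpos hx0 hx.2 hneg
    have h2' : (0 : ℝ) ≤ (1 - x) ^ (8 / k - 2) := rpow_nonneg (by linarith [hx.2]) _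
    unfold sleDens
    nlinarith
  · rw [← intervalIntegral.integral_const_mul]
    apply intervalIntegral.integral_mono_on h1 (intervalIntegrable_sleDens h4 h8 h0.le h1 le_rfl)
      ((intervalIntegrable_one_sub_rpow hr _ _).const_mul _)
    intro x hx
    have hx0 : 0 < x := h0.trans_le hx.1
    have h1' : x ^ (-4 / k) ≤ t ^ (-4 / k) := rpow_le_rpow_of_nonpos h0 hx.1 hneg
    have h2' : (0 : ℝ) ≤ (1 - x) ^ (8 / k - 2) := rpow_nonneg (by linarith [hx.2]) _
    unfold sleDens
    exact mul_le_mul_of_nonneg_right h1' h2'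

/-- The constant in front of the short arc asymptotics. -/
noncomputable def sleConst (k : ℝ) : ℝ := 1 / (hExp k * ∫ s in (0 : ℝ)..1, sleDens k s)

theorem sleConst_pos {k : ℝ} (h4 : 4 < k) (h8 : k < 8) : 0 < sleConst k :=
  one_div_pos.2 (mul_pos (hExp_pos h4 h8) (sleNorm_pos h4 h8))

theorem sleTouch_bounds {k t : ℝ} (h4 : 4 < k) (h8 : k < 8) (h0 : 0 < t) (h1 : t ≤ 1) :
    sleConst k * (1 - t) ^ hExp k ≤ sleTouch k t ∧
    sleTouch k t ≤ t ^ (-4 / k) * (sleConst k * (1 - t) ^ hExp k) := by
  have hB := sleNorm_pos h4 h8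
  have hh := hExp_pos h4 h8
  obtain ⟨ha, hb⟩ := num_bounds h4 h8 h0 h1
  unfold sleTouch sleConst
  rw [if_neg (by linarith), if_neg (by linarith)]
  constructor
  · rw [le_div_iff₀ hB]
    refine le_trans (le_of_eq ?_) ha
    field_simp
  · rw [div_le_iff₀ hB]
    refine le_trans hb (le_of_eq ?_)
    field_simp

theorem sleTouch_pos {k t : ℝ} (h4 : 4 < k) (h8 : k < 8) (h0 : 0 < t) (h1 : t < 1) :
    0 < sleTouch k t :=
  (mul_pos (sleConst_pos h4 h8) (rpow_pos_of_pos (by linarith) _)).trans_le
    (sleTouch_bounds h4 h8 h0 h1.le).1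

end IDK
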