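/-
helper98, 3 Dec 2026.  MP_b3e76a_pr, project IDK, part D (real analysis): Riemann sums of
touching probabilities of short arcs.
-/
import Pool.Agent.IDK.RA1

namespace IDK

open MeasureTheory Real Set Filter Topology intervalIntegral

/-- Indices `j` of the arcs `[j/N, (j+1)/N]` contained in `[p, q]`. -/
noncomputable def cells (p q : ℝ) (N : ℕ) : Finset ℕ := Finset.Ico ⌈p * N⌉₊ ⌊q * N⌋₊

theorem mem_cells {p q : ℝ} {N j : ℕ} (hq : 0 ≤ q) :
    j ∈ cells p q N ↔ p * N ≤ j ∧ (j : ℝ) + 1 ≤ q * N := by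
  unfold cells
  rw [Finset.mem_Ico, Nat.ceil_le, ← Nat.succ_le_iff,
    Nat.le_floor_iff (mul_nonneg hq (Nat.cast_nonneg N))]
  simp

theorem cells_div {p q : ℝ} {N j : ℕ} (hq : 0 ≤ q) (hN : 0 < N) (hj : j ∈ cells p q N) :
    p ≤ (j : ℝ) / N ∧ (j : ℝ) / N ≤ ((j : ℝ) + 1) / N ∧ ((j : ℝ) + 1) / N ≤ q := by
  rw [mem_cells hq] at hj
  have hN' : (0 : ℝ) < N := by exact_mod_cast hN
  refine ⟨?_, ?_, ?_⟩
  · rw [le_div_iff₀ hN']; exact hj.1
  · gcongr; linarith
  · rw [div_le_iff₀ hN']; exact hj.2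

theorem card_cells_le {p q : ℝ} (hp : 0 ≤ p) (hpq : p ≤ q) (N : ℕ) :
    ((cells p q N).card : ℝ) ≤ (q - p) * N := by
  unfold cells
  rw [Nat.card_Ico]
  have h1 : (⌊q * N⌋₊ : ℝ) ≤ q * N := Nat.floor_le (mul_nonneg (hp.trans hpq) (Nat.cast_nonneg N))
  have h2 : p * N ≤ (⌈p * N⌉₊ : ℝ) := Nat.le_ceil _
  rcases le_total ⌈p * N⌉₊ ⌊q * N⌋₊ with h | h
  · rw [Nat.cast_sub h]; linarith [sub_mul q p (N : ℝ)]
  · rw [Nat.sub_eq_zero_of_le h]
    simp only [Nat.cast_zero]
    exact mul_nonneg (by linarith) (Nat.cast_nonneg N)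

/-- Riemann sums with arbitrary intermediate points converge. -/
theorem riemann {p q : ℝ} (hp : 0 ≤ p) (hpq : p < q) {g : ℝ → ℝ} (hg : ContinuousOn g (Icc p q))
    (ξ : ℕ → ℕ → ℝ)
    (hξ : ∀ N j, 0 < N → j ∈ cells p q N →
      (j : ℝ) / N ≤ ξ N j ∧ ξ N j ≤ ((j : ℝ) + 1) / N) :
    Tendsto (fun N : ℕ => (∑ j ∈ cells p q N, g (ξ N j)) / N) atTop (𝓝 (∫ x in p..q, g x)) := by
  have hq : 0 ≤ q := hp.trans hpq.le
  obtain ⟨M, hM⟩ := isCompact_Icc.exists_bound_of_continuousOn hg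
  have hM0 : 0 ≤ M := (norm_nonneg _).trans (hM p (left_mem_Icc.2 hpq.le))
  have hint : ∀ a b, p ≤ a → a ≤ b → b ≤ q → IntervalIntegrable g volume a b := by
    intro a b h1 h2 h3
    apply ContinuousOn.intervalIntegrable
    rw [uIcc_of_le h2]
    exact hg.mono (Icc_subset_Icc h1 h3)
  have huc : UniformContinuousOn g (Icc p q) := isCompact_Icc.uniformContinuousOn_of_continuous hg
  rw [Metric.tendsto_atTop]
  intro ε hε
  -- choose the modulus
  have hε' : 0 < ε / (2 * (q - p + 1)) := by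
    apply div_pos hε
    nlinarith
  obtain ⟨δ, hδ, hδ'⟩ := Metric.uniformContinuousOn_iff.1 huc _ hε'
  obtain ⟨N1, hN1⟩ := exists_nat_gt (1 / δ)
  obtain ⟨N2, hN2⟩ := exists_nat_gt (4 * M / ε)
  obtain ⟨N3, hN3⟩ := exists_nat_gt (2 / (q - p))
  refine ⟨max (max N1 N2) (max N3 1), fun N hN => ?_⟩
  have hNN1 : N1 ≤ N := le_trans (le_trans (le_max_left _ _) (le_max_left _ _)) hN
  have hNN2 : N2 ≤ N := le_trans (le_trans (le_max_right _ _) (le_max_left _ _)) hN
  have hNN3 : N3 ≤ N := le_trans (le_trans (le_max_left _ _) (le_max_right _ _)) hN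
  have hNpos : 0 < N := le_trans (le_trans (le_max_right _ _) (le_max_right _ _)) hN
  have hN' : (0 : ℝ) < N := by exact_mod_cast hNpos
  have hcell : (1 : ℝ) / N < δ := by
    rw [div_lt_iff₀ hN']
    have h1 : 1 / δ < N := hN1.trans_le (by exact_mod_cast hNN1)
    rw [div_lt_iff₀ hδ] at h1
    linarith
  have hMN : 2 * M / N < ε / 2 := by
    rw [div_lt_iff₀ hN']
    have h1 : 4 * M / ε < N := hN2.trans_le (by exact_mod_cast hNN2)
    rw [div_lt_iff₀ hε] at h1
    linarith
  have hqpN : 2 < (q - p) * N := by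
    have h1 : 2 / (q - p) < N := hN3.trans_le (by exact_mod_cast hNN3)
    rw [div_lt_iff₀ (by linarith)] at h1
    linarith
  -- endpoints
  set a := ⌈p * N⌉₊ with ha
  set b := ⌊q * N⌋₊ with hb
  have ha1 : p * N ≤ (a : ℝ) := Nat.le_ceil _
  have ha2 : (a : ℝ) < p * N + 1 := Nat.ceil_lt_add_one (mul_nonneg hp hN'.le)
  have hb1 : (b : ℝ) ≤ q * N := Nat.floor_le (mul_nonneg hq hN'.le)
  have hb2 : q * N < (b : ℝ) + 1 := Nat.lt_floor_add_one _
  have hab : a ≤ b := by
    have : (a : ℝ) ≤ b := by linarith [sub_mul q p (N : ℝ)]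
    exact_mod_cast this
  have hsplit : ∑ j ∈ cells p q N, ∫ x in ((j : ℕ) : ℝ) / N..(((j + 1 : ℕ) : ℝ)) / N, g x
      = ∫ x in (a : ℝ) / N..(b : ℝ) / N, g x := by
    apply intervalIntegral.sum_integral_adjacent_intervals_Ico hab
    intro j hj
    have hj' : j ∈ cells p q N := by
      unfold cells; rw [Finset.mem_Ico]; exact ⟨hj.1, hj.2⟩
    obtain ⟨h1, h2, h3⟩ := cells_div hq hNpos hj'
    push_cast
    exact hint _ _ h1 h2 h3
  have hcellbound : ∀ j ∈ cells p q N,
      |g (ξ N j) / N - ∫ x in ((j : ℕ) : ℝ) / N..(((j + 1 : ℕ) : ℝ)) / N, g x|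
        ≤ ε / (2 * (q - p + 1)) / N := by
    intro j hj
    obtain ⟨h1, h2, h3⟩ := cells_div hq hNpos hj
    obtain ⟨h4, h5⟩ := hξ N j hNpos hj
    have hlen : ((j : ℝ) + 1) / N - (j : ℝ) / N = 1 / N := by field_simp; ring
    have hc : g (ξ N j) / N = ∫ _x in ((j : ℕ) : ℝ) / N..(((j + 1 : ℕ) : ℝ)) / N, g (ξ N j) := by
      rw [intervalIntegral.integral_const, smul_eq_mul]
      push_cast
      rw [hlen]; ring
    rw [hc, ← intervalIntegral.integral_sub (by simp) (by push_cast; exact hint _ _ h1 h2 h3)]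
    have := intervalIntegral.norm_integral_le_of_norm_le_const
      (a := ((j : ℕ) : ℝ) / N) (b := (((j + 1 : ℕ) : ℝ)) / N)
      (f := fun x => g (ξ N j) - g x) (C := ε / (2 * (q - p + 1))) ?_
    · rw [Real.norm_eq_abs] at this
      refine this.trans ?_
      push_cast
      rw [hlen, abs_of_pos (by positivity)]
      exact le_of_eq (by ring)
    · intro x hx
      push_cast at hx
      rw [uIoc_of_le h2] at hx
      rw [Real.norm_eq_abs, ← Real.dist_eq]
      apply le_of_lt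
      apply hδ' _ ⟨by linarith, by linarith⟩ _ ⟨by linarith [hx.1], by linarith [hx.2]⟩
      rw [Real.dist_eq, abs_lt]
      constructor <;> linarith [hx.1, hx.2]
  have hsum : |(∑ j ∈ cells p q N, g (ξ N j)) / N - ∫ x in (a : ℝ) / N..(b : ℝ) / N, g x|
      ≤ (q - p) * (ε / (2 * (q - p + 1))) := by
    rw [← hsplit, Finset.sum_div, ← Finset.sum_sub_distrib]
    refine (Finset.abs_sum_le_sum_abs _ _).trans ?_
    refine (Finset.sum_le_sum hcellbound).trans ?_
    rw [Finset.sum_const, nsmul_eq_mul]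
    have hc := card_cells_le hp hpq.le N
    calc ((cells p q N).card : ℝ) * (ε / (2 * (q - p + 1)) / N)
        ≤ ((q - p) * N) * (ε / (2 * (q - p + 1)) / N) := by
          apply mul_le_mul_of_nonneg_right hc (by positivity)
      _ = (q - p) * (ε / (2 * (q - p + 1))) := by field_simp
  have haN : p ≤ (a : ℝ) / N := by rw [le_div_iff₀ hN']; exact ha1
  have hbN : (b : ℝ) / N ≤ q := by rw [div_le_iff₀ hN']; exact hb1
  have habN : (a : ℝ) / N ≤ (b : ℝ) / N := by gcongr
  have hends : |(∫ x in (a : ℝ) / N..(b : ℝ) / N, g x) - ∫ x in p..q, g x| ≤ 2 * M / N := by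
    have e1 : (∫ x in p..q, g x) = (∫ x in p..(a : ℝ) / N, g x)
        + (∫ x in (a : ℝ) / N..(b : ℝ) / N, g x) + ∫ x in (b : ℝ) / N..q, g x := by
      rw [intervalIntegral.integral_add_adjacent_intervals
          (hint _ _ le_rfl haN (habN.trans hbN)) (hint _ _ haN habN hbN),
        intervalIntegral.integral_add_adjacent_intervals
          (hint _ _ le_rfl (haN.trans habN) hbN) (hint _ _ (haN.trans habN) hbN le_rfl)]
    have e2 : |∫ x in p..(a : ℝ) / N, g x| ≤ M / N := by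
      have := intervalIntegral.norm_integral_le_of_norm_le_const
        (a := p) (b := (a : ℝ) / N) (f := g) (C := M) ?_
      · rw [Real.norm_eq_abs] at this
        refine this.trans ?_
        rw [abs_of_nonneg (by linarith), div_eq_mul_one_div M]
        apply mul_le_mul_of_nonneg_left _ hM0
        rw [sub_le_iff_le_add, ← sub_le_iff_le_add', ← sub_nonneg]
        have : (a : ℝ) / N ≤ p + 1 / N := by
          rw [div_le_iff₀ hN', add_mul, one_div, inv_mul_cancel₀ hN'.ne']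
          linarith
        linarith
      · intro x hx
        rw [uIoc_of_le haN] at hx
        exact hM x ⟨by linarith [hx.1], by linarith [hx.2]⟩
    have e3 : |∫ x in (b : ℝ) / N..q, g x| ≤ M / N := by
      have := intervalIntegral.norm_integral_le_of_norm_le_const
        (a := (b : ℝ) / N) (b := q) (f := g) (C := M) ?_
      · rw [Real.norm_eq_abs] at this
        refine this.trans ?_
        rw [abs_of_nonneg (by linarith), div_eq_mul_one_div M]
        apply mul_le_mul_of_nonneg_left _ hM0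
        have : q ≤ (b : ℝ) / N + 1 / N := by
          rw [← add_div, le_div_iff₀ hN']
          linarith
        linarith
      · intro x hx
        rw [uIoc_of_le hbN] at hx
        exact hM x ⟨by linarith [hx.1], by linarith [hx.2]⟩
    rw [e1]
    have : (∫ x in (a : ℝ) / N..(b : ℝ) / N, g x) - ((∫ x in p..(a : ℝ) / N, g x)
        + (∫ x in (a : ℝ) / N..(b : ℝ) / N, g x) + ∫ x in (b : ℝ) / N..q, g x)
        = -((∫ x in p..(a : ℝ) / N, g x) + ∫ x in (b : ℝ) / N..q, g x) := by ring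
    rw [this, abs_neg]
    refine (abs_add_le _ _).trans ?_
    have : 2 * M / N = M / N + M / N := by ring
    linarith
  rw [Real.dist_eq]
  have hfin : (q - p) * (ε / (2 * (q - p + 1))) ≤ ε / 2 := by
    have h1 : (q - p) * (ε / (2 * (q - p + 1))) = ε / 2 * ((q - p) / (q - p + 1)) := by
      have : q - p + 1 ≠ 0 := by linarith
      field_simp
    rw [h1]
    have h2 : (q - p) / (q - p + 1) ≤ 1 := by
      rw [div_le_one (by linarith)]; linarith
    nlinarith
  calc |(∑ j ∈ cells p q N, g (ξ N j)) / N - ∫ x in p..q, g x|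
      = |((∑ j ∈ cells p q N, g (ξ N j)) / N - ∫ x in (a : ℝ) / N..(b : ℝ) / N, g x)
        + ((∫ x in (a : ℝ) / N..(b : ℝ) / N, g x) - ∫ x in p..q, g x)| := by ring_nf
    _ ≤ _ := abs_add_le _ _
    _ < ε := by linarith

end IDK
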