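/-
helper98, 3 Dec 2026.  MP_b3e76a_pr, project IDK, part D (real analysis): sums of the touching
probabilities of short arcs are Riemann sums of a power of the density.
-/
import Pool.Agent.IDK.RA2

namespace IDK

open MeasureTheory Real Set Filter Topology intervalIntegral

/-- Short arc asymptotics, uniform form. -/
theorem sleTouch_exp {k : ℝ} (h4 : 4 < k) (h8 : k < 8) {ε : ℝ} (hε : 0 < ε) :
    ∃ u0 > 0, ∀ u, 0 < u → u ≤ u0 →
      |sleTouch k (exp (-u)) - sleConst k * u ^ hExp k| ≤ ε * (sleConst k * u ^ hExp k) := by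
  have hc := sleConst_pos h4 h8
  have hh := hExp_pos h4 h8
  -- two factors tending to one
  have t1 : Tendsto (fun u : ℝ => exp (-(hExp k) * u)) (𝓝 0) (𝓝 1) := by
    have : Continuous (fun u : ℝ => exp (-(hExp k) * u)) := by fun_prop
    have h := this.tendsto 0
    simpa using h
  have t2 : Tendsto (fun u : ℝ => exp (4 / k * u)) (𝓝 0) (𝓝 1) := by
    have : Continuous (fun u : ℝ => exp (4 / k * u)) := by fun_prop
    have h := this.tendsto 0
    simpa using h
  obtain ⟨d1, hd1, hd1'⟩ := Metric.tendsto_nhds_nhds.1 t1 ε hε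
  obtain ⟨d2, hd2, hd2'⟩ := Metric.tendsto_nhds_nhds.1 t2 ε hε
  refine ⟨min d1 d2 / 2, by positivity, fun u hu hu0 => ?_⟩
  have hu1 : dist u 0 < d1 := by
    rw [dist_zero_right, Real.norm_eq_abs, abs_of_pos hu]
    have := min_le_left d1 d2
    linarith
  have hu2 : dist u 0 < d2 := by
    rw [dist_zero_right, Real.norm_eq_abs, abs_of_pos hu]
    have := min_le_right d1 d2
    linarith
  have a1 := hd1' hu1
  have a2 := hd2' hu2
  rw [Real.dist_eq, abs_lt] at a1 a2
  have hexp0 : 0 < exp (-u) := exp_pos _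
  have hexp1 : exp (-u) < 1 := by rw [exp_lt_one_iff]; linarith
  obtain ⟨b1, b2⟩ := sleTouch_bounds h4 h8 hexp0 hexp1.le
  -- bounds of 1 - exp (-u)
  have c1 : 1 - exp (-u) ≤ u := by
    have := Real.add_one_le_exp (-u)
    linarith
  have c2 : u * exp (-u) ≤ 1 - exp (-u) := by
    have := Real.add_one_le_exp u
    have h3 : exp (-u) * exp u = 1 := by rw [← exp_add]; simp
    nlinarith
  have c0 : 0 ≤ 1 - exp (-u) := by linarith
  have d1 : (1 - exp (-u)) ^ hExp k ≤ u ^ hExp k := rpow_le_rpow c0 c1 hh.le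
  have d2 : exp (-(hExp k) * u) * u ^ hExp k ≤ (1 - exp (-u)) ^ hExp k := by
    have h5 : (u * exp (-u)) ^ hExp k ≤ (1 - exp (-u)) ^ hExp k :=
      rpow_le_rpow (by positivity) c2 hh.le
    rw [mul_rpow hu.le hexp0.le, ← Real.exp_mul] at h5
    have : -u * hExp k = -(hExp k) * u := by ring
    rw [this] at h5
    linarith
  have e1 : exp (-u) ^ (-4 / k) = exp (4 / k * u) := by
    rw [← Real.exp_mul]
    congr 1
    ring
  rw [e1] at b2
  have hup : 0 < u ^ hExp k := rpow_pos_of_pos hu _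
  have hP : 0 < sleConst k * u ^ hExp k := mul_pos hc hup
  rw [abs_le]
  constructor
  · have h6 : sleConst k * (exp (-(hExp k) * u) * u ^ hExp k) ≤ sleTouch k (exp (-u)) :=
      (mul_le_mul_of_nonneg_left d2 hc.le).trans b1
    nlinarith [mul_lt_mul_of_pos_right a1.1 hP]
  · have h7 : sleTouch k (exp (-u)) ≤ exp (4 / k * u) * (sleConst k * u ^ hExp k) :=
      b2.trans (mul_le_mul_of_nonneg_left (mul_le_mul_of_nonneg_left d1 hc.le) (exp_pos _).le)
    nlinarith [mul_lt_mul_of_pos_right a2.2 hP]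

/-- Main theorem of this file. -/
theorem touch_sum {k : ℝ} (h4 : 4 < k) (h8 : k < 8) {p q : ℝ} (hp : 0 ≤ p) (hpq : p < q)
    {f : ℝ → ℝ} (hf : ContinuousOn f (Icc p q)) (hpos : ∀ x ∈ Icc p q, 0 < f x)
    (R : ℝ → ℝ → ℝ)
    (hR : ∀ a b, p ≤ a → a < b → b ≤ q → R a b = exp (-∫ x in a..b, f x)) :
    Tendsto (fun N : ℕ => (N : ℝ) ^ (hExp k - 1) *
        ∑ j ∈ cells p q N, sleTouch k (R ((j : ℝ) / N) (((j : ℝ) + 1) / N)))
      atTop (𝓝 (sleConst k * ∫ x in p..q, f x ^ hExp k)) := by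
  have hq : 0 ≤ q := hp.trans hpq.le
  have hc := sleConst_pos h4 h8
  have hh := hExp_pos h4 h8
  -- intermediate points
  have hex : ∀ N j : ℕ, ∃ x : ℝ, 0 < N → j ∈ cells p q N →
      ((j : ℝ) / N ≤ x ∧ x ≤ ((j : ℝ) + 1) / N) ∧
      ∫ x in ((j : ℝ) / N)..(((j : ℝ) + 1) / N), f x = f x / N := by
    intro N j
    by_cases h : 0 < N ∧ j ∈ cells p q N
    · obtain ⟨hN, hj⟩ := h
      have hN' : (0 : ℝ) < N := by exact_mod_cast hN
      obtain ⟨h1, h2, h3⟩ := cells_div hq hN hj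
      have h2' : (j : ℝ) / N < ((j : ℝ) + 1) / N := by
        apply div_lt_div_of_pos_right _ hN'; linarith
      have hcont : ContinuousOn f (Icc ((j : ℝ) / N) (((j : ℝ) + 1) / N)) :=
        hf.mono (Icc_subset_Icc h1 h3)
      obtain ⟨x, hx, hx'⟩ := exists_eq_interval_average h2'.ne
        (by rwa [uIcc_of_le h2'.le] : ContinuousOn f (uIcc _ _))
      rw [uIoo_of_le h2'.le] at hx
      refine ⟨x, fun _ _ => ⟨⟨hx.1.le, hx.2.le⟩, ?_⟩⟩
      rw [interval_average_eq_div] at hx'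
      have hlen : ((j : ℝ) + 1) / N - (j : ℝ) / N = 1 / N := by field_simp; ring
      rw [hx', hlen]
      field_simp
    · exact ⟨0, fun h1 h2 => absurd ⟨h1, h2⟩ h⟩
  choose ξ hξ using hex
  have hmem : ∀ N j, 0 < N → j ∈ cells p q N → ξ N j ∈ Icc p q := by
    intro N j hN hj
    obtain ⟨h1, h2, h3⟩ := cells_div hq hN hj
    obtain ⟨⟨h4, h5⟩, _⟩ := hξ N j hN hj
    exact ⟨h1.trans h4, h5.trans h3⟩
  have hgc : ContinuousOn (fun x => f x ^ hExp k) (Icc p q) :=
    hf.rpow_const (fun x hx => Or.inl (hpos x hx).ne')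
  have hR1 := (riemann hp hpq hgc ξ (fun N j hN hj => (hξ N j hN hj).1)).const_mul (sleConst k)
  -- f is bounded
  obtain ⟨M, hM⟩ := isCompact_Icc.exists_bound_of_continuousOn hf
  have hM0 : 0 < M := by
    have h := hM p (left_mem_Icc.2 hpq.le)
    have h' := hpos p (left_mem_Icc.2 hpq.le)
    rw [Real.norm_eq_abs, abs_of_pos h'] at h
    linarith
  -- integral is nonnegative
  have hInn : 0 ≤ ∫ x in p..q, f x ^ hExp k :=
    intervalIntegral.integral_nonneg hpq.le (fun x hx => rpow_nonneg (hpos x hx).le _)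
  -- reduce to the difference
  rw [Metric.tendsto_atTop] at hR1 ⊢
  intro ε hε
  set I := sleConst k * ∫ x in p..q, f x ^ hExp k with hI
  have hI0 : 0 ≤ I := mul_nonneg hc.le hInn
  obtain ⟨N1, hN1⟩ := hR1 (min (ε / 2) 1) (by positivity)
  obtain ⟨u0, hu0, hu⟩ := sleTouch_exp h4 h8 (ε := ε / (2 * (I + 1) + 1)) (by positivity)
  obtain ⟨N2, hN2⟩ := exists_nat_gt (M / u0)
  refine ⟨max N1 (max N2 1), fun N hN => ?_⟩
  have hNN1 : N1 ≤ N := le_trans (le_max_left _ _) hN
  have hNN2 : N2 ≤ N := le_trans (le_trans (le_max_left _ _) (le_max_right _ _)) hN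
  have hNpos : 0 < N := le_trans (le_trans (le_max_right _ _) (le_max_right _ _)) hN
  have hN' : (0 : ℝ) < N := by exact_mod_cast hNpos
  have hMN : M / N ≤ u0 := by
    rw [div_le_iff₀ hN']
    have h1 : M / u0 < N := hN2.trans_le (by exact_mod_cast hNN2)
    rw [div_lt_iff₀ hu0] at h1
    linarith
  have hA := hN1 N hNN1
  rw [Real.dist_eq] at hA
  have hA1 := hA.trans_le (min_le_left _ _)
  have hA2 := hA.trans_le (min_le_right _ _)
  set S := sleConst k * ((∑ j ∈ cells p q N, f (ξ N j) ^ hExp k) / N) with hS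
  have hS1 : S < I + 1 := by
    have := (abs_lt.1 hA2).2
    linarith
  have hS0 : 0 ≤ S := by
    apply mul_nonneg hc.le
    apply div_nonneg _ hN'.le
    exact Finset.sum_nonneg fun j hj => rpow_nonneg (hpos _ (hmem N j hNpos hj)).le _
  -- termwise estimate
  have hterm : ∀ j ∈ cells p q N,
      |(N : ℝ) ^ (hExp k - 1) * sleTouch k (R ((j : ℝ) / N) (((j : ℝ) + 1) / N))
        - sleConst k * (f (ξ N j) ^ hExp k / N)|
        ≤ ε / (2 * (I + 1) + 1) * (sleConst k * (f (ξ N j) ^ hExp k / N)) := by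
    intro j hj
    obtain ⟨h1, h2, h3⟩ := cells_div hq hNpos hj
    obtain ⟨_, h6⟩ := hξ N j hNpos hj
    have hfp := hpos _ (hmem N j hNpos hj)
    have hfM : f (ξ N j) ≤ M := by
      have h := hM _ (hmem N j hNpos hj)
      rwa [Real.norm_eq_abs, abs_of_pos hfp] at h
    have h2' : (j : ℝ) / N < ((j : ℝ) + 1) / N := by
      apply div_lt_div_of_pos_right _ hN'; linarith
    rw [hR _ _ h1 h2' h3, h6]
    have hu1 : 0 < f (ξ N j) / N := div_pos hfp hN'
    have hu2 : f (ξ N j) / N ≤ u0 := le_trans (by gcongr) hMN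
    have h7 := hu _ hu1 hu2
    have hNh : (0 : ℝ) < (N : ℝ) ^ (hExp k - 1) := rpow_pos_of_pos hN' _
    have key : (N : ℝ) ^ (hExp k - 1) * (sleConst k * (f (ξ N j) / N) ^ hExp k)
        = sleConst k * (f (ξ N j) ^ hExp k / N) := by
      rw [div_rpow hfp.le hN'.le, rpow_sub hN', rpow_one]
      have : (N : ℝ) ^ hExp k ≠ 0 := (rpow_pos_of_pos hN' _).ne'
      field_simp
    rw [← key, ← mul_sub, abs_mul, abs_of_pos hNh]
    calc (N : ℝ) ^ (hExp k - 1) *
          |sleTouch k (exp (-(f (ξ N j) / N))) - sleConst k * (f (ξ N j) / N) ^ hExp k|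
        ≤ (N : ℝ) ^ (hExp k - 1) *
          (ε / (2 * (I + 1) + 1) * (sleConst k * (f (ξ N j) / N) ^ hExp k)) :=
          mul_le_mul_of_nonneg_left h7 hNh.le
      _ = _ := by ring
  have hSsum : S = ∑ j ∈ cells p q N, sleConst k * (f (ξ N j) ^ hExp k / N) := by
    rw [hS, Finset.sum_div, Finset.mul_sum]
  have hB : |(N : ℝ) ^ (hExp k - 1) *
        ∑ j ∈ cells p q N, sleTouch k (R ((j : ℝ) / N) (((j : ℝ) + 1) / N)) - S|
      ≤ ε / (2 * (I + 1) + 1) * S := by
    rw [hSsum, Finset.mul_sum, ← Finset.sum_sub_distrib, Finset.mul_sum]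
    exact (Finset.abs_sum_le_sum_abs _ _).trans (Finset.sum_le_sum hterm)
  have hB2 : ε / (2 * (I + 1) + 1) * S < ε / 2 := by
    rw [div_mul_eq_mul_div, div_lt_iff₀ (by positivity)]
    nlinarith
  rw [Real.dist_eq]
  calc |(N : ℝ) ^ (hExp k - 1) *
        ∑ j ∈ cells p q N, sleTouch k (R ((j : ℝ) / N) (((j : ℝ) + 1) / N)) - I|
      = |((N : ℝ) ^ (hExp k - 1) *
        ∑ j ∈ cells p q N, sleTouch k (R ((j : ℝ) / N) (((j : ℝ) + 1) / N)) - S) + (S - I)| := by
        rw [sub_add_sub_cancel]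
    _ ≤ _ := abs_add_le _ _
    _ < ε := by linarith

end IDK
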