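/-
helper98, 3 Dec 2026.  MP_b3e76a_pr, project IDK, part D (real analysis): the cross-ratios of
arcs as exponentials of integrals, and the two Riemann sum limits.
-/
import Pool.Agent.IDK.RA3

namespace IDK

open MeasureTheory Real Set Filter Topology intervalIntegral

theorem hasDerivAt_side {x : ℝ} (hx : 0 < x) :
    HasDerivAt (fun y : ℝ => 2 * (log (sinh (π * y / 2)) - log (cosh (π * y / 2))))
      (2 * π / sinh (π * x)) x := by
  have hpx : 0 < π * x / 2 := by positivity
  have hs : 0 < sinh (π * x / 2) := sinh_pos_iff.2 hpx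
  have hc : 0 < cosh (π * x / 2) := cosh_pos _
  have hlin : HasDerivAt (fun y : ℝ => π * y / 2) (π / 2) x := by
    have := ((hasDerivAt_id x).const_mul π).div_const 2
    simpa using this
  have h1 := (hlin.sinh).log hs.ne'
  have h2 := (hlin.cosh).log hc.ne'
  have h3 := (h1.sub h2).const_mul 2
  refine HasDerivAt.congr_deriv h3 ?_
  have hd : sinh (π * x) = 2 * sinh (π * x / 2) * cosh (π * x / 2) := by
    rw [← Real.sinh_two_mul]; congr 1; ring
  rw [hd]
  have hcs := Real.cosh_sq (π * x / 2)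
  field_simp
  nlinarith

theorem hasDerivAt_bottom {x : ℝ} (hx : 0 < x) (hx1 : x < 1) :
    HasDerivAt (fun y : ℝ => 2 * (log (sin (π * y / 2)) - log (cos (π * y / 2))))
      (2 * π / sin (π * x)) x := by
  have hpi := pi_pos
  have hs : 0 < sin (π * x / 2) := sin_pos_of_pos_of_lt_pi (by positivity) (by nlinarith)
  have hc : 0 < cos (π * x / 2) := cos_pos_of_mem_Ioo ⟨by nlinarith, by nlinarith⟩
  have hlin : HasDerivAt (fun y : ℝ => π * y / 2) (π / 2) x := by
    have := ((hasDerivAt_id x).const_mul π).div_const 2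
    simpa using this
  have h1 := (hlin.sin).log hs.ne'
  have h2 := (hlin.cos).log hc.ne'
  have h3 := (h1.sub h2).const_mul 2
  refine HasDerivAt.congr_deriv h3 ?_
  have hd : sin (π * x) = 2 * sin (π * x / 2) * cos (π * x / 2) := by
    rw [← Real.sin_two_mul]; congr 1; ring
  rw [hd]
  have hcs := Real.sin_sq_add_cos_sq (π * x / 2)
  field_simp
  nlinarith

theorem continuousOn_side {p q : ℝ} (hp : 0 < p) :
    ContinuousOn (fun x : ℝ => 2 * π / sinh (π * x)) (Icc p q) := by
  apply ContinuousOn.div (by fun_prop) (by fun_prop)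
  intro x hx
  have : 0 < π * x := mul_pos pi_pos (hp.trans_le hx.1)
  exact (sinh_pos_iff.2 this).ne'

theorem sin_pi_mul_pos {x : ℝ} (h0 : 0 < x) (h1 : x < 1) : 0 < sin (π * x) :=
  sin_pos_of_pos_of_lt_pi (mul_pos pi_pos h0) (by nlinarith [pi_pos])

theorem continuousOn_bottom {p q : ℝ} (hp : 0 < p) (hq : q < 1) :
    ContinuousOn (fun x : ℝ => 2 * π / sin (π * x)) (Icc p q) := by
  apply ContinuousOn.div (by fun_prop) (by fun_prop)
  intro x hx
  exact (sin_pi_mul_pos (hp.trans_le hx.1) (hx.2.trans_lt hq)).ne'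

theorem sideRatio_eq {a b : ℝ} (ha : 0 < a) (hab : a ≤ b) :
    sideRatio a b = exp (-∫ x in a..b, 2 * π / sinh (π * x)) := by
  have hb : 0 < b := ha.trans_le hab
  have hint : (∫ x in a..b, 2 * π / sinh (π * x))
      = 2 * (log (sinh (π * b / 2)) - log (cosh (π * b / 2)))
        - 2 * (log (sinh (π * a / 2)) - log (cosh (π * a / 2))) := by
    apply integral_eq_sub_of_hasDerivAt
    · intro x hx
      rw [uIcc_of_le hab] at hx
      exact hasDerivAt_side (ha.trans_le hx.1)
    · apply ContinuousOn.intervalIntegrable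
      rw [uIcc_of_le hab]
      exact continuousOn_side ha
  have e1 : ∀ y : ℝ, 0 < y → exp (2 * (log (sinh (π * y / 2)) - log (cosh (π * y / 2))))
      = tanh (π * y / 2) ^ 2 := by
    intro y hy
    have hs : 0 < sinh (π * y / 2) := sinh_pos_iff.2 (by positivity)
    have hc : 0 < cosh (π * y / 2) := cosh_pos _
    rw [mul_comm, Real.exp_mul, exp_sub, exp_log hs, exp_log hc, ← tanh_eq_sinh_div_cosh]
    norm_cast
  rw [hint, neg_sub, exp_sub, e1 a ha, e1 b hb, sideRatio, div_pow]

theorem bottomRatio_eq {a b : ℝ} (ha : 0 < a) (hab : a ≤ b) (hb1 : b < 1) :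
    bottomRatio a b = exp (-∫ x in a..b, 2 * π / sin (π * x)) := by
  have hb : 0 < b := ha.trans_le hab
  have hint : (∫ x in a..b, 2 * π / sin (π * x))
      = 2 * (log (sin (π * b / 2)) - log (cos (π * b / 2)))
        - 2 * (log (sin (π * a / 2)) - log (cos (π * a / 2))) := by
    apply integral_eq_sub_of_hasDerivAt
    · intro x hx
      rw [uIcc_of_le hab] at hx
      exact hasDerivAt_bottom (ha.trans_le hx.1) (hx.2.trans_lt hb1)
    · apply ContinuousOn.intervalIntegrable
      rw [uIcc_of_le hab]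
      exact continuousOn_bottom ha hb1
  have e1 : ∀ y : ℝ, 0 < y → y < 1 → exp (2 * (log (sin (π * y / 2)) - log (cos (π * y / 2))))
      = tan (π * y / 2) ^ 2 := by
    intro y hy hy1
    have hpi := pi_pos
    have hs : 0 < sin (π * y / 2) := sin_pos_of_pos_of_lt_pi (by positivity) (by nlinarith)
    have hc : 0 < cos (π * y / 2) := cos_pos_of_mem_Ioo ⟨by nlinarith, by nlinarith⟩
    rw [mul_comm, Real.exp_mul, exp_sub, exp_log hs, exp_log hc, ← tan_eq_sin_div_cos]
    norm_cast
  rw [hint, neg_sub, exp_sub, e1 a ha (hab.trans_lt hb1), e1 b hb hb1, bottomRatio, div_pow]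

/-- Sum of the touching probabilities of the arcs `[j/N, (j+1)/N]` of the bottom in
`[d, 1 - d]`. -/
noncomputable def bottomSum (k : ℝ) (N : ℕ) (d : ℝ) : ℝ :=
  ∑ j ∈ cells d (1 - d) N, sleTouch k (bottomRatio ((j : ℝ) / N) (((j : ℝ) + 1) / N))

/-- Sum of the touching probabilities of the arcs `[j/N, (j+1)/N]` of a side in `[d, L]`. -/
noncomputable def sideSum (k : ℝ) (N : ℕ) (d L : ℝ) : ℝ :=
  ∑ j ∈ cells d L N, sleTouch k (sideRatio ((j : ℝ) / N) (((j : ℝ) + 1) / N))

theorem bottomSum_limit {k : ℝ} (h4 : 4 < k) (h8 : k < 8) {d : ℝ} (hd : 0 < d)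
    (hd1 : d < 1 / 2) :
    Tendsto (fun N : ℕ => (N : ℝ) ^ (hExp k - 1) * bottomSum k N d) atTop
      (𝓝 (sleConst k * ∫ x in d..(1 - d), (2 * π / sin (π * x)) ^ hExp k)) := by
  apply touch_sum h4 h8 hd.le (by linarith) (continuousOn_bottom hd (by linarith))
  · intro x hx
    exact div_pos (by positivity) (sin_pi_mul_pos (by linarith [hx.1]) (by linarith [hx.2]))
  · intro a b ha hab hb
    exact bottomRatio_eq (by linarith) hab.le (by linarith)

theorem sideSum_limit {k : ℝ} (h4 : 4 < k) (h8 : k < 8) {d L : ℝ} (hd : 0 < d)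
    (hdL : d < L) :
    Tendsto (fun N : ℕ => (N : ℝ) ^ (hExp k - 1) * sideSum k N d L) atTop
      (𝓝 (sleConst k * ∫ x in d..L, (2 * π / sinh (π * x)) ^ hExp k)) := by
  apply touch_sum h4 h8 hd.le hdL (continuousOn_side hd)
  · intro x hx
    exact div_pos (by positivity) (sinh_pos_iff.2 (mul_pos pi_pos (by linarith [hx.1])))
  · intro a b ha hab hb
    exact sideRatio_eq (by linarith) hab.le

end IDK
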