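/-
helper98, 3 Dec 2026.  MP_b3e76a_pr, project IDK, part D (real analysis): the ratio of the sums
of the touching probabilities over the bottom and over a side.
-/
import Pool.Agent.IDK.RA4
import Pool.Agent.IDK.RA5

namespace IDK

open MeasureTheory Real Set Filter Topology intervalIntegral

/-- Truncation of a nonnegative integral. -/
theorem exhaust {f : ℝ → ℝ} {S : Set ℝ} (hf : IntegrableOn f S) (hpos : ∀ x ∈ S, 0 ≤ f x)
    (hS : MeasurableSet S) (a b : ℕ → ℝ) (ha : Antitone a) (hb : Monotone b)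
    (hU : ⋃ n, Ioc (a n) (b n) = S) {η : ℝ} (hη : 0 < η) :
    ∃ n, ∀ a' b', a' ≤ a n → b n ≤ b' → Ioc a' b' ⊆ S →
      (∫ x in Ioc a' b', f x) ≤ ∫ x in S, f x ∧
        (∫ x in S, f x) - η ≤ ∫ x in Ioc a' b', f x := by
  have hmono : Monotone (fun n => Ioc (a n) (b n)) := by
    intro m n hmn
    exact Ioc_subset_Ioc (ha hmn) (hb hmn)
  have hlim := tendsto_setIntegral_of_monotone (μ := volume) (f := f)
    (s := fun n => Ioc (a n) (b n)) (fun n => measurableSet_Ioc) hmono (by rwa [hU])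
  rw [hU, Metric.tendsto_atTop] at hlim
  obtain ⟨n, hn⟩ := hlim η hη
  refine ⟨n, fun a' b' h1 h2 h3 => ⟨?_, ?_⟩⟩
  · apply setIntegral_mono_set hf
    · exact (ae_restrict_iff' hS).2 (Eventually.of_forall hpos)
    · exact h3.eventuallyLE
  · have h4 := hn n le_rfl
    rw [Real.dist_eq, abs_lt] at h4
    have h5 : ∫ x in Ioc (a n) (b n), f x ≤ ∫ x in Ioc a' b', f x := by
      apply setIntegral_mono_set (hf.mono_set h3)
      · exact (ae_restrict_iff' measurableSet_Ioc).2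
          (Eventually.of_forall fun x hx => hpos x (h3 hx))
      · exact (Ioc_subset_Ioc h1 h2).eventuallyLE
    linarith [h4.1]

theorem iUnion_bottom : ⋃ n : ℕ, Ioc (1 / ((n : ℝ) + 3)) (1 - 1 / ((n : ℝ) + 3)) = Ioo 0 1 := by
  ext x
  rw [mem_iUnion, mem_Ioo]
  constructor
  · rintro ⟨n, h1, h2⟩
    have : (0 : ℝ) < 1 / ((n : ℝ) + 3) := by positivity
    exact ⟨this.trans h1, by linarith⟩
  · rintro ⟨h0, h1⟩
    have hm : 0 < min x (1 - x) := lt_min h0 (by linarith)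
    obtain ⟨n, hn⟩ := exists_nat_gt (1 / min x (1 - x))
    have h2 : 1 / ((n : ℝ) + 3) < min x (1 - x) := by
      rw [div_lt_iff₀ hm] at hn
      rw [div_lt_iff₀ (by positivity)]
      nlinarith
    refine ⟨n, h2.trans_le (min_le_left _ _), ?_⟩
    have := h2.trans_le (min_le_right _ _)
    linarith

theorem iUnion_side : ⋃ n : ℕ, Ioc (1 / ((n : ℝ) + 3)) ((n : ℝ) + 1) = Ioi 0 := by
  ext x
  rw [mem_iUnion, mem_Ioi]
  constructor
  · rintro ⟨n, h1, _⟩
    have : (0 : ℝ) < 1 / ((n : ℝ) + 3) := by positivity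
    exact this.trans h1
  · intro h0
    obtain ⟨n, hn⟩ := exists_nat_gt (max (1 / x) x)
    have h1 : 1 / x < n := (le_max_left _ _).trans_lt hn
    have h2 : x < n := (le_max_right _ _).trans_lt hn
    refine ⟨n, ?_, by linarith⟩
    rw [div_lt_iff₀ h0] at h1
    rw [div_lt_iff₀ (by positivity)]
    nlinarith

theorem antitone_inv : Antitone (fun n : ℕ => 1 / ((n : ℝ) + 3)) := by
  intro m n hmn
  have : (m : ℝ) ≤ n := by exact_mod_cast hmn
  exact one_div_le_one_div_of_le (by positivity) (by linarith)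

theorem ratio_limit {k : ℝ} (h4 : 4 < k) (h8 : k < 8) {e : ℝ} (he : 0 < e) :
    ∃ d0 > 0, ∃ L0 : ℝ, ∀ d, 0 < d → d < d0 → ∀ L, L0 < L → ∃ N0 : ℕ, ∀ N ≥ N0,
      |bottomSum k N d - 2 * sin (π * hExp k / 2) * sideSum k N d L| ≤ e * sideSum k N d L ∧
      0 < bottomSum k N d ∧ 0 < sideSum k N d L := by
  obtain ⟨hA, hB, hBpos, hAB⟩ := macro_integrals (hExp_pos h4 h8) (hExp_lt_one h4)
  have hh := hExp_pos h4 h8
  have hc := sleConst_pos h4 h8
  set fb : ℝ → ℝ := fun x => (2 * π / sin (π * x)) ^ hExp k with hfb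
  set fs : ℝ → ℝ := fun x => (2 * π / sinh (π * x)) ^ hExp k with hfs
  set B := ∫ y in Ioi (0 : ℝ), fs y with hBdef
  set A := ∫ x in Ioo (0 : ℝ) 1, fb x with hAdef
  set ρ := 2 * sin (π * hExp k / 2) with hρ
  have hρ0 : 0 < ρ := by
    have : 0 < sin (π * hExp k / 2) := by
      apply sin_pos_of_pos_of_lt_pi (by positivity)
      have := hExp_lt_one h4
      nlinarith [pi_pos]
    positivity
  have hρ2 : ρ ≤ 2 := by
    have := sin_le_one (π * hExp k / 2)
    rw [hρ]; linarith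
  have hfb0 : ∀ x ∈ Ioo (0 : ℝ) 1, 0 ≤ fb x := fun x hx =>
    rpow_nonneg (div_nonneg (by positivity) (sin_pi_mul_pos hx.1 hx.2).le) _
  have hfs0 : ∀ x ∈ Ioi (0 : ℝ), 0 ≤ fs x := fun x hx =>
    rpow_nonneg (div_nonneg (by positivity)
      (sinh_pos_iff.2 (mul_pos pi_pos hx)).le) _
  have hA0 : 0 < A := by rw [hAB]; exact mul_pos hρ0 hBpos
  -- truncation
  set η := min (min (B / 2) (A / 2)) (e * B / 16) with hη
  have hη0 : 0 < η := by
    rw [hη]; apply lt_min (lt_min (by linarith) (by linarith)); positivity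
  have hηB : η ≤ B / 2 := (min_le_left _ _).trans (min_le_left _ _)
  have hηA : η ≤ A / 2 := (min_le_left _ _).trans (min_le_right _ _)
  have hηe : η ≤ e * B / 16 := min_le_right _ _
  obtain ⟨n1, hn1⟩ := exhaust hA hfb0 measurableSet_Ioo (fun n : ℕ => 1 / ((n : ℝ) + 3))
    (fun n : ℕ => 1 - 1 / ((n : ℝ) + 3)) antitone_inv
    (fun m n hmn => by have := antitone_inv hmn; simp only at this ⊢; linarith)
    iUnion_bottom hη0
  obtain ⟨n2, hn2⟩ := exhaust hB hfs0 measurableSet_Ioi (fun n : ℕ => 1 / ((n : ℝ) + 3))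
    (fun n : ℕ => (n : ℝ) + 1) antitone_inv
    (fun m n hmn => by have : (m : ℝ) ≤ n := by exact_mod_cast hmn
                       simp only; linarith)
    iUnion_side hη0
  refine ⟨min (1 / ((n1 : ℝ) + 3)) (1 / ((n2 : ℝ) + 3)), lt_min (by positivity) (by positivity),
    (n2 : ℝ) + 1, fun d hd hd0 L hL => ?_⟩
  have hd1 : d < 1 / ((n1 : ℝ) + 3) := hd0.trans_le (min_le_left _ _)
  have hd2 : d < 1 / ((n2 : ℝ) + 3) := hd0.trans_le (min_le_right _ _)
  have hd3 : d < 1 / 3 := hd1.trans_le (by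
    apply one_div_le_one_div_of_le (by norm_num)
    have : (0 : ℝ) ≤ n1 := Nat.cast_nonneg _
    linarith)
  have hdL : d < L := by
    have : (0 : ℝ) ≤ n2 := Nat.cast_nonneg _
    linarith
  obtain ⟨b1, b2⟩ := hn1 d (1 - d) hd1.le (by linarith)
    (fun x hx => ⟨hd.trans hx.1, by linarith [hx.2]⟩)
  obtain ⟨s1, s2⟩ := hn2 d L hd2.le hL.le (fun x hx => hd.trans hx.1)
  -- the limits in N
  have lb := bottomSum_limit h4 h8 hd (by linarith)
  have ls := sideSum_limit h4 h8 hd hdL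
  rw [intervalIntegral.integral_of_le (by linarith)] at lb
  rw [intervalIntegral.integral_of_le hdL.le] at ls
  set Ib := ∫ x in Ioc d (1 - d), fb x with hIb
  set Is := ∫ x in Ioc d L, fs x with hIs
  have hIs0 : B / 2 ≤ Is := by linarith
  have hIb0 : A / 2 ≤ Ib := by linarith
  have hdiff : |Ib - ρ * Is| ≤ e * Is / 2 := by
    have e1 : |Ib - ρ * Is| ≤ 3 * η := by
      rw [abs_le]
      constructor <;> nlinarith
    have e2 : e * B / 16 * 3 ≤ e * Is / 2 := by nlinarith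
    linarith
  have hIspos : 0 < Is := by linarith
  have hIbpos : 0 < Ib := by linarith
  -- eventual inequality
  have hlim1 : Tendsto (fun N : ℕ => |(N : ℝ) ^ (hExp k - 1) * bottomSum k N d
      - ρ * ((N : ℝ) ^ (hExp k - 1) * sideSum k N d L)|
      - e * ((N : ℝ) ^ (hExp k - 1) * sideSum k N d L)) atTop
      (𝓝 (|sleConst k * Ib - ρ * (sleConst k * Is)| - e * (sleConst k * Is))) :=
    ((lb.sub (ls.const_mul ρ)).abs).sub (ls.const_mul e)
  have hneg : |sleConst k * Ib - ρ * (sleConst k * Is)| - e * (sleConst k * Is) < 0 := by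
    have : sleConst k * Ib - ρ * (sleConst k * Is) = sleConst k * (Ib - ρ * Is) := by ring
    rw [this, abs_mul, abs_of_pos hc]
    have h5 : sleConst k * |Ib - ρ * Is| ≤ sleConst k * (e * Is / 2) :=
      mul_le_mul_of_nonneg_left hdiff hc.le
    have h6 : 0 < sleConst k * (e * Is / 2) := by positivity
    nlinarith
  have ev1 := hlim1.eventually (gt_mem_nhds hneg)
  have ev2 := lb.eventually (lt_mem_nhds (mul_pos hc hIbpos))
  have ev3 := ls.eventually (lt_mem_nhds (mul_pos hc hIspos))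
  obtain ⟨N0, hN0⟩ := eventually_atTop.1 (ev1.and (ev2.and (ev3.and (eventually_gt_atTop 0))))
  refine ⟨N0, fun N hN => ?_⟩
  obtain ⟨g1, g2, g3, g4⟩ := hN0 N hN
  have hN' : (0 : ℝ) < N := by exact_mod_cast g4
  have hpw : (0 : ℝ) < (N : ℝ) ^ (hExp k - 1) := rpow_pos_of_pos hN' _
  refine ⟨?_, ?_, ?_⟩
  · have h7 : |(N : ℝ) ^ (hExp k - 1) * bottomSum k N d
      - ρ * ((N : ℝ) ^ (hExp k - 1) * sideSum k N d L)|
      = (N : ℝ) ^ (hExp k - 1) * |bottomSum k N d - ρ * sideSum k N d L| := by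
      rw [← abs_of_pos hpw, ← abs_mul, abs_of_pos hpw]
      congr 1
      ring
    rw [h7] at g1
    have h8' : (N : ℝ) ^ (hExp k - 1) * (|bottomSum k N d - ρ * sideSum k N d L|
        - e * sideSum k N d L) < 0 := by linarith
    have h9 := (pos_iff_neg_of_mul_neg h8').1 hpw
    linarith
  · exact (pos_iff_pos_of_mul_pos g2).1 hpw
  · exact (pos_iff_pos_of_mul_pos g3).1 hpw

/-- The conjectured value of kappa. -/
noncomputable def kappaOf (q : ℝ) : ℝ := 4 * π / arccos (-(√q) / 2)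

theorem sqrt_bounds {q : ℝ} (h1 : 1 ≤ q) (h4 : q < 4) : 1 ≤ √q ∧ √q < 2 := by
  constructor
  · rw [one_le_sqrt]; exact h1
  · rw [sqrt_lt' (by norm_num)]; linarith

theorem arccos_bounds {q : ℝ} (h1 : 1 ≤ q) (h4 : q < 4) :
    π / 2 < arccos (-(√q) / 2) ∧ arccos (-(√q) / 2) < π := by
  obtain ⟨ha, hb⟩ := sqrt_bounds h1 h4
  constructor
  · by_contra hcon
    rw [not_lt, arccos_le_pi_div_two] at hcon
    linarith
  · rcases (arccos_le_pi (-(√q) / 2)).lt_or_eq with h | h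
    · exact h
    · rw [arccos_eq_pi] at h
      linarith

theorem kappaOf_bounds {q : ℝ} (h1 : 1 ≤ q) (h4 : q < 4) : 4 < kappaOf q ∧ kappaOf q < 8 := by
  obtain ⟨ha, hb⟩ := arccos_bounds h1 h4
  have h0 : 0 < arccos (-(√q) / 2) := by linarith [pi_pos]
  unfold kappaOf
  constructor
  · rw [lt_div_iff₀ h0]; linarith
  · rw [div_lt_iff₀ h0]; linarith

theorem kappa_unique {q k : ℝ} (h1 : 1 ≤ q) (hq4 : q < 4) (h4 : 4 < k) (h8 : k < 8)
    (hk : 2 * sin (π * hExp k / 2) = √q) : k = kappaOf q := by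
  obtain ⟨ha, hb⟩ := sqrt_bounds h1 hq4
  obtain ⟨hc, hd⟩ := arccos_bounds h1 hq4
  have hk0 : 0 < k := by linarith
  have e1 : sin (π * hExp k / 2) = -cos (4 * π / k) := by
    have : π * hExp k / 2 = 4 * π / k - π / 2 := by
      unfold hExp
      field_simp
      ring
    rw [this, sin_sub_pi_div_two]
  have e2 : cos (4 * π / k) = -(√q) / 2 := by linarith
  have e3 : arccos (-(√q) / 2) = 4 * π / k := by
    rw [← e2, arccos_cos (by positivity)]
    rw [div_le_iff₀ hk0]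
    nlinarith [pi_pos]
  unfold kappaOf
  rw [e3]
  field_simp

theorem ratio_ne {q k : ℝ} (h1 : 1 ≤ q) (hq4 : q < 4) (h4 : 4 < k) (h8 : k < 8)
    (hk : k ≠ kappaOf q) : 2 * sin (π * hExp k / 2) ≠ √q :=
  fun h => hk (kappa_unique h1 hq4 h4 h8 h)

end IDK
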