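/-
helper98, 3 Dec 2026.  MP_b3e76a_pr, project IDK, part D (real analysis): from arcs with real end
points to blocks of r = floor (n/N) points.
-/
import Pool.Agent.IDK.RA6

namespace IDK

open MeasureTheory Real Set Filter Topology intervalIntegral

/-- The integers `y` with `α n ≤ y ≤ β n`. -/
def realArc (n : ℕ) (α β : ℝ) : Set ℕ := {y | α * n ≤ y ∧ (y : ℝ) ≤ β * n}

/-- The `j`-th block of `floor (n/N)` integers. -/
def intArc (n N j : ℕ) : Set ℕ := Set.Ico (j * (n / N)) ((j + 1) * (n / N))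

theorem div_bounds {n N : ℕ} (hN : 0 < N) :
    ((n / N : ℕ) : ℝ) ≤ (n : ℝ) / N ∧ (n : ℝ) / N < ((n / N : ℕ) : ℝ) + 1 := by
  have hN' : (0 : ℝ) < N := by exact_mod_cast hN
  refine ⟨Nat.cast_div_le, ?_⟩
  rw [div_lt_iff₀ hN']
  have h := Nat.lt_div_mul_add hN (a := n)
  have h' : (n : ℝ) < ((n / N : ℕ) : ℝ) * N + N := by exact_mod_cast h
  linarith

theorem inner_subset {n N j : ℕ} (hN : 0 < N) {δ : ℝ} (hδ : 0 ≤ δ)
    (hn : (j : ℝ) + 1 ≤ δ * n) :
    realArc n ((j : ℝ) / N + δ) (((j : ℝ) + 1) / N - δ) ⊆ intArc n N j := by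
  intro y hy
  obtain ⟨h1, h2⟩ := hy
  obtain ⟨r1, r2⟩ := div_bounds (n := n) hN
  have hN' : (0 : ℝ) < N := by exact_mod_cast hN
  have hj : (0 : ℝ) ≤ j := Nat.cast_nonneg _
  have hn0 : (0 : ℝ) ≤ n := Nat.cast_nonneg _
  rw [intArc, Set.mem_Ico]
  constructor
  · have : ((j * (n / N) : ℕ) : ℝ) ≤ y := by
      push_cast
      calc (j : ℝ) * ((n / N : ℕ) : ℝ) ≤ j * ((n : ℝ) / N) := mul_le_mul_of_nonneg_left r1 hj
        _ = (j : ℝ) / N * n := by ring
        _ ≤ ((j : ℝ) / N + δ) * n := by nlinarith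
        _ ≤ y := h1
    exact_mod_cast this
  · have : (y : ℝ) < (((j + 1) * (n / N) : ℕ) : ℝ) := by
      push_cast
      calc (y : ℝ) ≤ (((j : ℝ) + 1) / N - δ) * n := h2
        _ = ((j : ℝ) + 1) * ((n : ℝ) / N) - δ * n := by ring
        _ ≤ ((j : ℝ) + 1) * ((n : ℝ) / N) - ((j : ℝ) + 1) := by linarith
        _ = ((j : ℝ) + 1) * ((n : ℝ) / N - 1) := by ring
        _ < ((j : ℝ) + 1) * ((n / N : ℕ) : ℝ) := by
          apply mul_lt_mul_of_pos_left _ (by linarith)
          linarith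
    exact_mod_cast this

theorem outer_subset {n N j : ℕ} (hN : 0 < N) {δ : ℝ} (hδ : 0 ≤ δ)
    (hn : (j : ℝ) + 1 ≤ δ * n) :
    intArc n N j ⊆ realArc n ((j : ℝ) / N - δ) (((j : ℝ) + 1) / N + δ) := by
  intro y hy
  rw [intArc, Set.mem_Ico] at hy
  obtain ⟨h1, h2⟩ := hy
  obtain ⟨r1, r2⟩ := div_bounds (n := n) hN
  have hN' : (0 : ℝ) < N := by exact_mod_cast hN
  have hj : (0 : ℝ) ≤ j := Nat.cast_nonneg _
  have hn0 : (0 : ℝ) ≤ n := Nat.cast_nonneg _
  have h1' : (j : ℝ) * ((n / N : ℕ) : ℝ) ≤ y := by exact_mod_cast h1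
  have h2' : (y : ℝ) < ((j : ℝ) + 1) * ((n / N : ℕ) : ℝ) := by exact_mod_cast h2
  refine ⟨?_, ?_⟩
  · calc ((j : ℝ) / N - δ) * n = j * ((n : ℝ) / N) - δ * n := by ring
      _ ≤ j * ((n : ℝ) / N) - j := by linarith
      _ = j * ((n : ℝ) / N - 1) := by ring
      _ ≤ j * ((n / N : ℕ) : ℝ) := mul_le_mul_of_nonneg_left (by linarith) hj
      _ ≤ y := h1'
  · calc (y : ℝ) ≤ ((j : ℝ) + 1) * ((n / N : ℕ) : ℝ) := h2'.le
      _ ≤ ((j : ℝ) + 1) * ((n : ℝ) / N) := mul_le_mul_of_nonneg_left r1 (by linarith)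
      _ = ((j : ℝ) + 1) / N * n := by ring
      _ ≤ (((j : ℝ) + 1) / N + δ) * n := by nlinarith

theorem approx_one {G : ℝ → ℝ → ℝ} {N : ℕ} (hN : 0 < N) {lo hi : ℝ} {j : ℕ}
    (h1 : lo < (j : ℝ) / N) (h2 : ((j : ℝ) + 1) / N < hi)
    (hG : ContinuousAt (fun p : ℝ × ℝ => G p.1 p.2) ((j : ℝ) / N, ((j : ℝ) + 1) / N))
    {ε : ℝ} (hε : 0 < ε) :
    ∃ A : Finset (ℝ × ℝ), (∀ p ∈ A, lo < p.1 ∧ p.1 < p.2 ∧ p.2 < hi) ∧
      ∃ n0 : ℕ, ∀ F : Set ℕ → ℝ, Monotone F → ∀ n ≥ n0,
        (∀ p ∈ A, |F (realArc n p.1 p.2) - G p.1 p.2| < ε) →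
        |F (intArc n N j) - G ((j : ℝ) / N) (((j : ℝ) + 1) / N)| ≤ 2 * ε := by
  have hN' : (0 : ℝ) < N := by exact_mod_cast hN
  obtain ⟨δ0, hδ0, hδ0'⟩ := Metric.continuousAt_iff.1 hG ε hε
  set δ := min (min (δ0 / 2) (1 / (4 * (N : ℝ)))) (min (((j : ℝ) / N - lo) / 2)
    ((hi - ((j : ℝ) + 1) / N) / 2)) with hδdef
  have hδ : 0 < δ := by
    apply lt_min (lt_min (by linarith) (by positivity)) (lt_min (by linarith) (by linarith))
  have d1 : δ ≤ δ0 / 2 := (min_le_left _ _).trans (min_le_left _ _)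
  have d2 : δ ≤ 1 / (4 * (N : ℝ)) := (min_le_left _ _).trans (min_le_right _ _)
  have d3 : δ ≤ ((j : ℝ) / N - lo) / 2 := (min_le_right _ _).trans (min_le_left _ _)
  have d4 : δ ≤ (hi - ((j : ℝ) + 1) / N) / 2 := (min_le_right _ _).trans (min_le_right _ _)
  have hlen : ((j : ℝ) + 1) / N = (j : ℝ) / N + 1 / N := by ring
  have h4N : 1 / (4 * (N : ℝ)) = (1 / N) / 4 := by field_simp
  have hNi : (0 : ℝ) < 1 / N := by positivity
  have hclose : ∀ a' b', |a' - (j : ℝ) / N| ≤ δ → |b' - ((j : ℝ) + 1) / N| ≤ δ →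
      |G a' b' - G ((j : ℝ) / N) (((j : ℝ) + 1) / N)| < ε := by
    intro a' b' ha hb
    have := hδ0' (x := (a', b')) (by
      rw [Prod.dist_eq]
      apply max_lt
      · rw [Real.dist_eq]; simp only; linarith
      · rw [Real.dist_eq]; simp only; linarith)
    rwa [Real.dist_eq] at this
  refine ⟨{((j : ℝ) / N + δ, ((j : ℝ) + 1) / N - δ), ((j : ℝ) / N - δ, ((j : ℝ) + 1) / N + δ)},
    ?_, ?_⟩
  · intro p hp
    rw [Finset.mem_insert, Finset.mem_singleton] at hp
    rcases hp with rfl | rfl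
    · refine ⟨?_, ?_, ?_⟩ <;> simp only <;> linarith
    · refine ⟨?_, ?_, ?_⟩ <;> simp only <;> linarith
  · obtain ⟨n0, hn0⟩ := exists_nat_gt (((j : ℝ) + 1) / δ)
    refine ⟨n0, fun F hF n hn hA => ?_⟩
    have hn' : (j : ℝ) + 1 ≤ δ * n := by
      have h3 : ((j : ℝ) + 1) / δ < n := hn0.trans_le (by exact_mod_cast hn)
      rw [div_lt_iff₀ hδ] at h3
      linarith
    have i1 := hF (inner_subset hN hδ.le hn')
    have i2 := hF (outer_subset hN hδ.le hn')
    have a1 := hA ((j : ℝ) / N + δ, ((j : ℝ) + 1) / N - δ) (by simp)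
    have a2 := hA ((j : ℝ) / N - δ, ((j : ℝ) + 1) / N + δ) (by simp)
    have c1 := hclose ((j : ℝ) / N + δ) (((j : ℝ) + 1) / N - δ)
      (by rw [add_sub_cancel_left, abs_of_pos hδ])
      (by rw [sub_sub_cancel_left, abs_neg, abs_of_pos hδ])
    have c2 := hclose ((j : ℝ) / N - δ) (((j : ℝ) + 1) / N + δ)
      (by rw [sub_sub_cancel_left, abs_neg, abs_of_pos hδ])
      (by rw [add_sub_cancel_left, abs_of_pos hδ])
    simp only at a1 a2
    rw [abs_lt] at a1 a2 c1 c2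
    rw [abs_le]
    constructor <;> linarith [a1.1, a1.2, a2.1, a2.2, c1.1, c1.2, c2.1, c2.2]

theorem approx {G : ℝ → ℝ → ℝ} {N : ℕ} (hN : 0 < N) {lo hi : ℝ} (J : Finset ℕ)
    (hJ : ∀ j ∈ J, lo < (j : ℝ) / N ∧ ((j : ℝ) + 1) / N < hi)
    (hG : ∀ j ∈ J, ContinuousAt (fun p : ℝ × ℝ => G p.1 p.2) ((j : ℝ) / N, ((j : ℝ) + 1) / N))
    {ε : ℝ} (hε : 0 < ε) :
    ∃ A : Finset (ℝ × ℝ), (∀ p ∈ A, lo < p.1 ∧ p.1 < p.2 ∧ p.2 < hi) ∧
      ∃ n0 : ℕ, ∀ F : Set ℕ → ℝ, Monotone F → ∀ n ≥ n0,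
        (∀ p ∈ A, |F (realArc n p.1 p.2) - G p.1 p.2| < ε) →
        ∀ j ∈ J, |F (intArc n N j) - G ((j : ℝ) / N) (((j : ℝ) + 1) / N)| ≤ 2 * ε := by
  classical
  induction J using Finset.induction_on with
  | empty => exact ⟨∅, by simp, 0, fun F hF n hn hA j hj => by simp at hj⟩
  | insert a s ha ih =>
    obtain ⟨A1, hA1, n1, hn1⟩ := ih (fun j hj => hJ j (Finset.mem_insert_of_mem hj))
      (fun j hj => hG j (Finset.mem_insert_of_mem hj))
    obtain ⟨A2, hA2, n2, hn2⟩ := approx_one hN (hJ a (Finset.mem_insert_self _ _)).1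
      (hJ a (Finset.mem_insert_self _ _)).2 (hG a (Finset.mem_insert_self _ _)) hε
    refine ⟨A1 ∪ A2, ?_, max n1 n2, fun F hF n hn hA j hj => ?_⟩
    · intro p hp
      rcases Finset.mem_union.1 hp with h | h
      · exact hA1 p h
      · exact hA2 p h
    · rcases Finset.mem_insert.1 hj with rfl | h
      · exact hn2 F hF n ((le_max_right _ _).trans hn)
          (fun p hp => hA p (Finset.mem_union_right _ hp))
      · exact hn1 F hF n ((le_max_left _ _).trans hn)
          (fun p hp => hA p (Finset.mem_union_left _ hp)) j h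

/-- Continuity of the touching probability in the cross-ratio. -/
theorem continuousAt_sleTouch (k : ℝ) {t : ℝ} (h0 : 0 < t) (h1 : t < 1) :
    ContinuousAt (sleTouch k) t := by
  rcases le_or_gt k 4 with h4 | h4
  · have : sleTouch k = fun _ => 0 := by
      funext s; unfold sleTouch; rw [if_pos h4]
    rw [this]; exact continuousAt_const
  rcases le_or_gt 8 k with h8 | h8
  · have : sleTouch k = fun _ => 1 := by
      funext s; unfold sleTouch; rw [if_neg (by linarith), if_pos h8]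
    rw [this]; exact continuousAt_const
  have : sleTouch k = fun t => (∫ s in t..1, sleDens k s) / ∫ s in (0 : ℝ)..1, sleDens k s := by
    funext s; unfold sleTouch; rw [if_neg (by linarith), if_neg (by linarith)]
  rw [this]
  apply ContinuousAt.div_const
  have hint : IntegrableOn (sleDens k) (uIcc 0 1) := by
    rw [uIcc_of_le zero_le_one, integrableOn_Icc_iff_integrableOn_Ioc,
      ← intervalIntegrable_iff_integrableOn_Ioc_of_le zero_le_one]
    exact intervalIntegrable_sleDens h4 h8 le_rfl zero_le_one le_rfl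
  have := intervalIntegral.continuousOn_primitive_interval_left hint
  rw [uIcc_of_le zero_le_one] at this
  exact this.continuousAt (Icc_mem_nhds h0 h1)

theorem continuousAt_side (k : ℝ) {a b : ℝ} (ha : 0 < a) (hab : a < b) :
    ContinuousAt (fun p : ℝ × ℝ => sleTouch k (sideRatio p.1 p.2)) (a, b) := by
  have hb : 0 < b := ha.trans hab
  have hta : 0 < tanh (π * a / 2) := by
    rw [tanh_eq_sinh_div_cosh]
    exact div_pos (sinh_pos_iff.2 (by positivity)) (cosh_pos _)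
  have htb : 0 < tanh (π * b / 2) := by
    rw [tanh_eq_sinh_div_cosh]
    exact div_pos (sinh_pos_iff.2 (by positivity)) (cosh_pos _)
  have hR : ContinuousAt (fun p : ℝ × ℝ => sideRatio p.1 p.2) (a, b) := by
    unfold sideRatio
    apply ContinuousAt.pow
    have c1 : Continuous (fun p : ℝ × ℝ => tanh (π * p.1 / 2)) := by
      simp_rw [tanh_eq_sinh_div_cosh]
      exact Continuous.div (by fun_prop) (by fun_prop) (fun p => (cosh_pos _).ne')
    have c2 : Continuous (fun p : ℝ × ℝ => tanh (π * p.2 / 2)) := by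
      simp_rw [tanh_eq_sinh_div_cosh]
      exact Continuous.div (by fun_prop) (by fun_prop) (fun p => (cosh_pos _).ne')
    have c1' : ContinuousAt (fun p : ℝ × ℝ => tanh (π * p.1 / 2)) (a, b) := c1.continuousAt
    have c2' : ContinuousAt (fun p : ℝ × ℝ => tanh (π * p.2 / 2)) (a, b) := c2.continuousAt
    exact ContinuousAt.div c1' c2' htb.ne'
  have h0 : 0 < sideRatio a b := by unfold sideRatio; positivity
  have h1 : sideRatio a b < 1 := by
    rw [sideRatio_eq ha hab.le, exp_lt_one_iff, neg_neg_iff_pos]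
    apply intervalIntegral_pos_of_pos_on _ _ hab
    · apply ContinuousOn.intervalIntegrable
      rw [uIcc_of_le hab.le]
      exact continuousOn_side ha
    · intro x hx
      exact div_pos (by positivity) (sinh_pos_iff.2 (mul_pos pi_pos (ha.trans hx.1)))
  exact ContinuousAt.comp (g := sleTouch k) (continuousAt_sleTouch k h0 h1) hR

theorem continuousAt_bottom (k : ℝ) {a b : ℝ} (ha : 0 < a) (hab : a < b) (hb1 : b < 1) :
    ContinuousAt (fun p : ℝ × ℝ => sleTouch k (bottomRatio p.1 p.2)) (a, b) := by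
  have hb : 0 < b := ha.trans hab
  have hpi := pi_pos
  have hca : 0 < cos (π * a / 2) := cos_pos_of_mem_Ioo ⟨by nlinarith, by nlinarith⟩
  have hcb : 0 < cos (π * b / 2) := cos_pos_of_mem_Ioo ⟨by nlinarith, by nlinarith⟩
  have hsa : 0 < sin (π * a / 2) := sin_pos_of_pos_of_lt_pi (by positivity) (by nlinarith)
  have hsb : 0 < sin (π * b / 2) := sin_pos_of_pos_of_lt_pi (by positivity) (by nlinarith)
  have hta : 0 < tan (π * a / 2) := by rw [tan_eq_sin_div_cos]; exact div_pos hsa hca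
  have htb : 0 < tan (π * b / 2) := by rw [tan_eq_sin_div_cos]; exact div_pos hsb hcb
  have hR : ContinuousAt (fun p : ℝ × ℝ => bottomRatio p.1 p.2) (a, b) := by
    unfold bottomRatio
    apply ContinuousAt.pow
    have c1' : ContinuousAt (fun p : ℝ × ℝ => tan (π * p.1 / 2)) (a, b) :=
      ContinuousAt.comp (g := tan) (f := fun p : ℝ × ℝ => π * p.1 / 2)
        (continuousAt_tan.2 hca.ne') (by fun_prop)
    have c2' : ContinuousAt (fun p : ℝ × ℝ => tan (π * p.2 / 2)) (a, b) :=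
      ContinuousAt.comp (g := tan) (f := fun p : ℝ × ℝ => π * p.2 / 2)
        (continuousAt_tan.2 hcb.ne') (by fun_prop)
    exact ContinuousAt.div c1' c2' htb.ne'
  have h0 : 0 < bottomRatio a b := by unfold bottomRatio; positivity
  have h1 : bottomRatio a b < 1 := by
    rw [bottomRatio_eq ha hab.le hb1, exp_lt_one_iff, neg_neg_iff_pos]
    apply intervalIntegral_pos_of_pos_on _ _ hab
    · apply ContinuousOn.intervalIntegrable
      rw [uIcc_of_le hab.le]
      exact continuousOn_bottom ha hb1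
    · intro x hx
      exact div_pos (by positivity) (sin_pi_mul_pos (ha.trans hx.1) (hx.2.trans hb1))
  exact ContinuousAt.comp (g := sleTouch k) (continuousAt_sleTouch k h0 h1) hR

end IDK
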