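/-
helper98, 3 Dec 2026.  MP_b3e76a_pr, project IDK, part D (real analysis): the final deduction.
If the touching probabilities of all arcs were those of chordal SLE_k, the macroscopic identity
would force k = kappaOf q.
-/
import Pool.Agent.IDK.RA7

namespace IDK

open MeasureTheory Real Set Filter Topology intervalIntegral

theorem card_cells_ge {p q : ℝ} (hp : 0 ≤ p) (hpq : p ≤ q) (N : ℕ) :
    (q - p) * N - 2 ≤ ((cells p q N).card : ℝ) := by
  unfold cells
  rw [Nat.card_Ico]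
  have h1 : q * N < (⌊q * N⌋₊ : ℝ) + 1 := Nat.lt_floor_add_one _
  have h2 : (⌈p * N⌉₊ : ℝ) < p * N + 1 :=
    Nat.ceil_lt_add_one (mul_nonneg hp (Nat.cast_nonneg N))
  have h3 : (⌊q * N⌋₊ : ℝ) ≤ ((⌊q * N⌋₊ - ⌈p * N⌉₊ : ℕ) : ℝ) + (⌈p * N⌉₊ : ℝ) := by
    have : ⌊q * N⌋₊ ≤ (⌊q * N⌋₊ - ⌈p * N⌉₊) + ⌈p * N⌉₊ := by omega
    exact_mod_cast this
  linarith [sub_mul q p (N : ℝ)]

/-- The closeness of all blocks to the SLE values follows from that of finitely many arcs. -/
theorem core (k : ℝ) {N : ℕ} (hN : 0 < N) {d L : ℝ} (hd : 0 < d) (hd1 : d < 1 / 2) (hL : 0 < L)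
    {ε : ℝ} (hε : 0 < ε) :
    ∃ A B : Finset (ℝ × ℝ), (∀ p ∈ A, 0 < p.1 ∧ p.1 < p.2) ∧
      (∀ p ∈ B, 0 < p.1 ∧ p.1 < p.2 ∧ p.2 < 1) ∧
      ∃ n1 : ℕ, ∀ F G : Set ℕ → ℝ, Monotone F → Monotone G → ∀ n ≥ n1,
        (∀ p ∈ A, |F (realArc n p.1 p.2) - sleTouch k (sideRatio p.1 p.2)| < ε) →
        (∀ p ∈ B, |G (realArc n p.1 p.2) - sleTouch k (bottomRatio p.1 p.2)| < ε) →
        (∀ j ∈ cells d L N, |F (intArc n N j)
          - sleTouch k (sideRatio ((j : ℝ) / N) (((j : ℝ) + 1) / N))| ≤ 2 * ε) ∧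
        (∀ j ∈ cells d (1 - d) N, |G (intArc n N j)
          - sleTouch k (bottomRatio ((j : ℝ) / N) (((j : ℝ) + 1) / N))| ≤ 2 * ε) := by
  have hN' : (0 : ℝ) < N := by exact_mod_cast hN
  have hlt : ∀ j : ℕ, (j : ℝ) / N < ((j : ℝ) + 1) / N := fun j => by
    apply div_lt_div_of_pos_right _ hN'; linarith
  obtain ⟨A, hA, n1, hn1⟩ := approx (G := fun a b => sleTouch k (sideRatio a b)) hN
    (lo := 0) (hi := L + 1) (cells d L N)
    (fun j hj => by
      obtain ⟨h1, h2, h3⟩ := cells_div hL.le hN hj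
      exact ⟨by linarith, by linarith⟩)
    (fun j hj => by
      obtain ⟨h1, h2, h3⟩ := cells_div hL.le hN hj
      exact continuousAt_side k (by linarith) (hlt j)) hε
  obtain ⟨B, hB, n2, hn2⟩ := approx (G := fun a b => sleTouch k (bottomRatio a b)) hN
    (lo := 0) (hi := 1) (cells d (1 - d) N)
    (fun j hj => by
      obtain ⟨h1, h2, h3⟩ := cells_div (by linarith) hN hj
      exact ⟨by linarith, by linarith⟩)
    (fun j hj => by
      obtain ⟨h1, h2, h3⟩ := cells_div (by linarith) hN hj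
      exact continuousAt_bottom k (by linarith) (hlt j) (by linarith)) hε
  refine ⟨A, B, fun p hp => ⟨(hA p hp).1, (hA p hp).2.1⟩, hB, max n1 n2,
    fun F G hF hG n hn h1 h2 => ⟨?_, ?_⟩⟩
  · exact hn1 F hF n ((le_max_left _ _).trans hn) h1
  · exact hn2 G hG n ((le_max_right _ _).trans hn) h2

/-- Difference of sums. -/
theorem sum_close {ι : Type*} (s : Finset ι) (f g : ι → ℝ) {δ : ℝ}
    (h : ∀ j ∈ s, |f j - g j| ≤ δ) : |∑ j ∈ s, f j - ∑ j ∈ s, g j| ≤ s.card * δ := by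
  rw [← Finset.sum_sub_distrib]
  refine (Finset.abs_sum_le_sum_abs _ _).trans ?_
  refine (Finset.sum_le_sum h).trans ?_
  rw [Finset.sum_const, nsmul_eq_mul]

/-- The macroscopic identity (parts A, B, C of the project). -/
def Macro (q : ℝ) (FL FB : ℕ → ℕ → Set ℕ → ℝ) : Prop :=
  ∀ e > 0, ∃ d0 > 0, ∃ L0 : ℝ, ∀ d, 0 < d → d < d0 → ∀ L, L0 < L → ∃ N0 : ℕ, ∀ N ≥ N0,
    ∃ n0 K : ℕ, ∃ c > 0, ∀ n ≥ n0, ∀ M ≥ K * n,
      |∑ j ∈ cells d (1 - d) N, FB n M (intArc n N j)
        - √q * ∑ j ∈ cells d L N, FL n M (intArc n N j)|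
          ≤ e * ∑ j ∈ cells d L N, FL n M (intArc n N j) ∧
      ∀ j ∈ cells d L N, c ≤ FL n M (intArc n N j)

/-- `k` is not the parameter of an SLE limit. -/
def NotSle (k : ℝ) (FL FB : ℕ → ℕ → Set ℕ → ℝ) : Prop :=
  ∃ ε > 0, ∃ A B : Finset (ℝ × ℝ), (∀ p ∈ A, 0 < p.1 ∧ p.1 < p.2) ∧
    (∀ p ∈ B, 0 < p.1 ∧ p.1 < p.2 ∧ p.2 < 1) ∧ ∃ n0 K : ℕ, ∀ n ≥ n0, ∀ M ≥ K * n,
      (∃ p ∈ A, ε ≤ |FL n M (realArc n p.1 p.2) - sleTouch k (sideRatio p.1 p.2)|) ∨
      (∃ p ∈ B, ε ≤ |FB n M (realArc n p.1 p.2) - sleTouch k (bottomRatio p.1 p.2)|)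

theorem finish {k : ℝ} {FL FB : ℕ → ℕ → Set ℕ → ℝ} (hFL : ∀ n M, Monotone (FL n M))
    (hFB : ∀ n M, Monotone (FB n M)) {N : ℕ} (hN : 0 < N) {d L : ℝ} (hd : 0 < d)
    (hd1 : d < 1 / 2) (hL : 0 < L) {ε : ℝ} (hε : 0 < ε) (n0 K : ℕ)
    (h : ∀ n ≥ n0, ∀ M ≥ K * n,
      (∀ j ∈ cells d L N, |FL n M (intArc n N j)
          - sleTouch k (sideRatio ((j : ℝ) / N) (((j : ℝ) + 1) / N))| ≤ 2 * ε) →
      (∀ j ∈ cells d (1 - d) N, |FB n M (intArc n N j)
          - sleTouch k (bottomRatio ((j : ℝ) / N) (((j : ℝ) + 1) / N))| ≤ 2 * ε) → False) :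
    NotSle k FL FB := by
  obtain ⟨A, B, hA, hB, n1, hn1⟩ := core k hN hd hd1 hL hε
  refine ⟨ε, hε, A, B, hA, hB, max n0 n1, K, fun n hn M hM => ?_⟩
  by_contra hcon
  push Not at hcon
  obtain ⟨c1, c2⟩ := hn1 (FL n M) (FB n M) (hFL n M) (hFB n M) n ((le_max_right _ _).trans hn)
    (fun p hp => hcon.1 p hp) (fun p hp => hcon.2 p hp)
  exact h n ((le_max_left _ _).trans hn) M hM c1 c2

theorem no_sle {q k : ℝ} (h1 : 1 ≤ q) (hq4 : q < 4) (hk0 : 0 < k) (hk : k ≠ kappaOf q)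
    {FL FB : ℕ → ℕ → Set ℕ → ℝ} (hFL : ∀ n M, Monotone (FL n M))
    (hFB : ∀ n M, Monotone (FB n M)) (hM : Macro q FL FB) : NotSle k FL FB := by
  obtain ⟨hs1, hs2⟩ := sqrt_bounds h1 hq4
  rcases le_or_gt k 4 with h4 | h4
  · -- no touching at all
    obtain ⟨d0, hd0, L0, hL0⟩ := hM 1 one_pos
    have hdpos : 0 < min d0 1 / 4 := by have := lt_min hd0 one_pos; linarith
    have hdlt : min d0 1 / 4 < d0 := by
      have := min_le_left d0 1
      linarith
    have hdlt' : min d0 1 / 4 < 1 / 2 := by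
      have := min_le_right d0 1
      linarith
    obtain ⟨N0, hN0⟩ := hL0 (min d0 1 / 4) hdpos hdlt (max L0 2 + 1)
      (by have := le_max_left L0 2; linarith)
    have hL2 : (2 : ℝ) ≤ max L0 2 := le_max_right _ _
    have hNpos : 0 < max N0 1 := lt_of_lt_of_le one_pos (le_max_right _ _)
    obtain ⟨n0, K, c, hc, hn0⟩ := hN0 (max N0 1) (le_max_left _ _)
    have hN1 : (1 : ℝ) ≤ ((max N0 1 : ℕ) : ℝ) := by exact_mod_cast le_max_right N0 1
    refine finish hFL hFB hNpos hdpos hdlt' (L := max L0 2 + 1) (by linarith)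
      (ε := c / 4) (by linarith) n0 K (fun n hn M hM' a1 a2 => ?_)
    obtain ⟨_, g2⟩ := hn0 n hn M hM'
    have hmem : max N0 1 ∈ cells (min d0 1 / 4) (max L0 2 + 1) (max N0 1) := by
      rw [mem_cells (by linarith)]
      constructor
      · nlinarith
      · nlinarith
    have b1 := g2 _ hmem
    have b2 := a1 _ hmem
    have b3 : ∀ t, sleTouch k t = 0 := fun t => by unfold sleTouch; rw [if_pos h4]
    rw [b3, sub_zero, abs_le] at b2
    linarith [b2.2]
  rcases le_or_gt 8 k with h8 | h8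
  · -- everything is touched
    obtain ⟨d0, hd0, L0, hL0⟩ := hM (1 / 2) (by norm_num)
    have hdpos : 0 < min d0 1 / 4 := by have := lt_min hd0 one_pos; linarith
    have hdlt : min d0 1 / 4 < d0 := by
      have := min_le_left d0 1
      linarith
    have hdlt' : min d0 1 / 4 < 1 / 2 := by
      have := min_le_right d0 1
      linarith
    obtain ⟨N0, hN0⟩ := hL0 (min d0 1 / 4) hdpos hdlt (max L0 12 + 1)
      (by have := le_max_left L0 12; linarith)
    have hL2 : (12 : ℝ) ≤ max L0 12 := le_max_right _ _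
    have hNpos : 0 < max N0 1 := lt_of_lt_of_le one_pos (le_max_right _ _)
    obtain ⟨n0, K, c, hc, hn0⟩ := hN0 (max N0 1) (le_max_left _ _)
    have hN1 : (1 : ℝ) ≤ ((max N0 1 : ℕ) : ℝ) := by exact_mod_cast le_max_right N0 1
    refine finish hFL hFB hNpos hdpos hdlt' (L := max L0 12 + 1) (by linarith)
      (ε := 1 / 8) (by norm_num) n0 K (fun n hn M hM' a1 a2 => ?_)
    obtain ⟨g1, _⟩ := hn0 n hn M hM'
    set N := max N0 1 with hNdef
    set d := min d0 1 / 4 with hddef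
    set L := max L0 12 + 1 with hLdef
    have b3 : ∀ t, sleTouch k t = 1 := fun t => by
      unfold sleTouch; rw [if_neg (by linarith), if_pos h8]
    simp only [b3] at a1 a2
    have s1 := sum_close (cells d L N) (fun j => FL n M (intArc n N j)) (fun _ => 1)
      (δ := 1 / 4) (fun j hj => (a1 j hj).trans (by norm_num))
    have s2 := sum_close (cells d (1 - d) N) (fun j => FB n M (intArc n N j)) (fun _ => 1)
      (δ := 1 / 4) (fun j hj => (a2 j hj).trans (by norm_num))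
    simp only [Finset.sum_const, nsmul_eq_mul, mul_one] at s1 s2
    have k1 := card_cells_ge hdpos.le (by linarith : d ≤ L) N
    have k2 := card_cells_le hdpos.le (by linarith : d ≤ 1 - d) N
    rw [abs_le] at s1 s2 g1
    set SL := ∑ j ∈ cells d L N, FL n M (intArc n N j) with hSL
    set SB := ∑ j ∈ cells d (1 - d) N, FB n M (intArc n N j) with hSB
    set mL := ((cells d L N).card : ℝ) with hmL
    set mB := ((cells d (1 - d) N).card : ℝ) with hmB
    have hL3 : 13 ≤ L := by rw [hLdef]; linarith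
    have e1 : 9 * (N : ℝ) ≤ mL := by
      have : (12 : ℝ) * N ≤ (L - d) * N := by
        apply mul_le_mul_of_nonneg_right _ (by linarith)
        linarith
      linarith
    have e2 : mB ≤ N := by
      have : (1 - d - d) * N ≤ 1 * (N : ℝ) := by
        apply mul_le_mul_of_nonneg_right _ (by linarith)
        linarith
      linarith
    have e3 : 3 / 4 * mL ≤ SL := by linarith [s1.1]
    have e4 : SB ≤ 5 / 4 * mB := by linarith [s2.2]
    have e5 : SL ≤ √q * SL := by nlinarith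
    linarith [g1.1]
  · -- the interesting case
    set ρ := 2 * sin (π * hExp k / 2) with hρ
    have hne : ρ ≠ √q := ratio_ne h1 hq4 h4 h8 hk
    have hg : 0 < |ρ - √q| := abs_pos.2 (sub_ne_zero.2 hne)
    set g := |ρ - √q| with hgdef
    obtain ⟨d0, hd0, L0, hL0⟩ := hM (g / 8) (by linarith)
    obtain ⟨d1, hd1, L1, hL1⟩ := ratio_limit h4 h8 (e := g / 8) (by linarith)
    have hm : 0 < min (min d0 d1) 1 := lt_min (lt_min hd0 hd1) one_pos
    have hm0 : min (min d0 d1) 1 ≤ d0 := (min_le_left _ _).trans (min_le_left _ _)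
    have hm1 : min (min d0 d1) 1 ≤ d1 := (min_le_left _ _).trans (min_le_right _ _)
    have hm2 : min (min d0 d1) 1 ≤ 1 := min_le_right _ _
    set d := min (min d0 d1) 1 / 4 with hd
    set L := max (max L0 L1) 1 + 1 with hL
    have hLa : L0 < L := by
      have := (le_max_left L0 L1).trans (le_max_left (max L0 L1) 1); linarith
    have hLb : L1 < L := by
      have := (le_max_right L0 L1).trans (le_max_left (max L0 L1) 1); linarith
    have hLc : 1 < L := by
      have := le_max_right (max L0 L1) 1; linarith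
    have hdpos : 0 < d := by linarith
    obtain ⟨N0, hN0⟩ := hL0 d hdpos (by linarith) L hLa
    obtain ⟨N1, hN1⟩ := hL1 d hdpos (by linarith) L hLb
    set N := max (max N0 N1) 1 with hN
    have hNa : N0 ≤ N := (le_max_left _ _).trans (le_max_left _ _)
    have hNb : N1 ≤ N := (le_max_right _ _).trans (le_max_left _ _)
    have hNpos : 0 < N := lt_of_lt_of_le one_pos (le_max_right _ _)
    obtain ⟨n0, K, c, hc, hn0⟩ := hN0 N hNa
    obtain ⟨r1, r2, r3⟩ := hN1 N hNb
    set mL := ((cells d L N).card : ℝ) with hmL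
    set mB := ((cells d (1 - d) N).card : ℝ) with hmB
    have hmL0 : 0 ≤ mL := Nat.cast_nonneg _
    have hmB0 : 0 ≤ mB := Nat.cast_nonneg _
    -- the precision
    set D := mB + (2 + g) * mL + 1 with hD
    have hDpos : 0 < D := by rw [hD]; positivity
    set ε := g * sideSum k N d L / (8 * D) with hεdef
    have hε : 0 < ε := by rw [hεdef]; positivity
    refine finish hFL hFB hNpos hdpos (by linarith) (L := L) (by linarith) hε n0 K
      (fun n hn M hM' a1 a2 => ?_)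
    obtain ⟨g1, _⟩ := hn0 n hn M hM'
    have s1 := sum_close (cells d L N) (fun j => FL n M (intArc n N j))
      (fun j => sleTouch k (sideRatio ((j : ℝ) / N) (((j : ℝ) + 1) / N))) a1
    have s2 := sum_close (cells d (1 - d) N) (fun j => FB n M (intArc n N j))
      (fun j => sleTouch k (bottomRatio ((j : ℝ) / N) (((j : ℝ) + 1) / N))) a2
    change |_ - sideSum k N d L| ≤ _ at s1
    change |_ - bottomSum k N d| ≤ _ at s2
    rw [← hmL] at s1
    rw [← hmB] at s2
    set SL := ∑ j ∈ cells d L N, FL n M (intArc n N j) with hSL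
    set SB := ∑ j ∈ cells d (1 - d) N, FB n M (intArc n N j) with hSB
    set Ss := sideSum k N d L with hSs
    set Sb := bottomSum k N d with hSb
    -- triangle inequality
    have t1 : g * Ss ≤ |ρ * Ss - Sb| + |Sb - SB| + |SB - √q * SL| + √q * |SL - Ss| := by
      have e1 : g * Ss = |(ρ - √q) * Ss| := by rw [abs_mul, abs_of_pos r3]
      have e2 : (ρ - √q) * Ss = (ρ * Ss - Sb) + (Sb - SB) + (SB - √q * SL) + √q * (SL - Ss) := by
        ring
      have e3 : |√q * (SL - Ss)| = √q * |SL - Ss| := by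
        rw [abs_mul, abs_of_nonneg (sqrt_nonneg _)]
      rw [e1, e2, ← e3]
      refine (abs_add_le _ _).trans ?_
      refine add_le_add_left ((abs_add_le _ _).trans ?_) _
      exact add_le_add_left (abs_add_le _ _) _
    have t2 : |ρ * Ss - Sb| ≤ g / 8 * Ss := by rw [abs_sub_comm]; exact r1
    have t3 : |Sb - SB| ≤ mB * (2 * ε) := by rw [abs_sub_comm]; exact s2
    have t4 : |SB - √q * SL| ≤ g / 8 * SL := g1
    have t5 : √q * |SL - Ss| ≤ 2 * (mL * (2 * ε)) := by
      apply mul_le_mul hs2.le s1 (abs_nonneg _) (by norm_num)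
    have t6 : SL ≤ Ss + mL * (2 * ε) := by linarith [(abs_le.1 s1).2]
    have t7 : g / 8 * SL ≤ g / 8 * Ss + g * mL * ε := by
      have : g / 8 * SL ≤ g / 8 * (Ss + mL * (2 * ε)) := mul_le_mul_of_nonneg_left t6 (by linarith)
      have h' : 0 ≤ g * mL * ε := by positivity
      nlinarith
    have t8 : ε * D = g * Ss / 8 := by
      rw [hεdef]; field_simp
    have t9 : mB * (2 * ε) + 2 * (mL * (2 * ε)) + g * mL * ε ≤ 2 * (ε * D) := by
      rw [hD]
      have h' : 0 ≤ g * mL * ε := by positivity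
      nlinarith
    have t10 : 0 < g * Ss := mul_pos hg r3
    linarith

end IDK
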