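import Pool.Agent.IDK.Half
import Pool.Agent.IDK.RA8
import Pool.Agent.FKR.RectDual
import Pool.Agent.FKR.Hub
import Pool.Agent.H95.SumRule.Defs
import Pool.Agent.H95.Perc.Arms

/-! # IDK/CDefs (MP_b3e76a_pr): the strip (part C), definitions

Rectangle `{0, …, n} × {0, …, M}`, bottom side wired, other sides free.
* primal model: active edges `EL n M`, frozen edges `BL n` (the bottom side), target `(0, 0)`;
* dual model: active edges `ED n M = (EL n M).image star`, frozen edges `ring 0 n 0 M` (all outer faces), target the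
  face `(-1, -1)`; the face above the `i`-th bottom edge is `(i, 0)`.
`FL`, `FB` are the touching probabilities in terms of `fkProb`; `pl`, `pb`, `pT` are connection probabilities of
single points of the left side, the dual bottom side and the top side. -/

namespace Pool.Agent.IDK

open Finset
open Pool.Agent.FKR
open Pool.Agent.H95.Perc (Inc conn link rect hor ver eh ev sumE sepE Inci mem_rect)
open Pool.Agent.H95.SumRule (edgesIn Z2 domain bottomArc fkProb selfDual)

/-- active edges of the strip -/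
noncomputable def EL (n M : ℕ) : Finset (Sym2 (ℤ × ℤ)) := edgesIn (rect 0 n 0 M) \ edgesIn (rect 0 n 0 0)

/-- the bottom side -/
noncomputable def BL (n : ℕ) : Finset (Sym2 (ℤ × ℤ)) := edgesIn (rect 0 n 0 0)

/-- active edges of the dual strip -/
noncomputable def ED (n M : ℕ) : Finset (Sym2 (ℤ × ℤ)) := (EL n M).image star

/-- probability that some vertex `(0, y)`, `y ∈ S`, is connected to the wired bottom side -/
noncomputable def FL (q : ℝ) (n M : ℕ) (S : Set ℕ) : ℝ :=
  fkProb (selfDual q) q (domain n fun _ => M) (bottomArc 0 n)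
    fun ω => ∃ y ∈ S, (Pool.Agent.H95.SumRule.openGraph ω).Reachable (0, 0) (0, (y : ℤ))

/-- probability that some wired edge from `(i, 0)` to `(i + 1, 0)`, `i ∈ S`, is a bridge -/
noncomputable def FB (q : ℝ) (n M : ℕ) (S : Set ℕ) : ℝ :=
  fkProb (selfDual q) q (domain n fun _ => M) (bottomArc 0 n)
    fun ω => ∃ i ∈ S, i < n ∧ ¬ (Pool.Agent.H95.SumRule.openGraph
      (ω.erase s(((i : ℤ), 0), ((i : ℤ) + 1, 0)))).Reachable ((i : ℤ), 0) ((i : ℤ) + 1, 0)

/-- left side, one point -/
noncomputable def pl (q : ℝ) (n M : ℕ) (y : ℕ) : ℝ :=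
  P q (EL n M) (BL n) fun ω => Cn ω (0, (y : ℤ)) (0, 0)

/-- dual bottom side, one face -/
noncomputable def pb (q : ℝ) (n M : ℕ) (i : ℕ) : ℝ :=
  P q (ED n M) (ring 0 n 0 M) fun ω => Cn ω ((i : ℤ), 0) (-1, -1)

/-- top side, one point -/
noncomputable def pT (q : ℝ) (n M : ℕ) (i : ℕ) : ℝ :=
  P q (EL n M) (BL n) fun ω => Cn ω ((i : ℤ), (M : ℤ)) (0, 0)

end Pool.Agent.IDK
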