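import Pool.Agent.IDK.CFk

/-! # IDK/CDual (MP_b3e76a_pr): bridges of the wired side are connections in the dual model

`bridge_iff`: `rect_dualPair` (`FKR/RectDual`), fields `h1` and theorem `DualPair.h2` (`FKR/ADual`) for `ω.erase e`, `e = eh i 0 ∈ ω`,
`star e = ev i (-1) = s((i, -1), (i, 0))`: `(A \ ω.erase e).erase e = A \ ω`. So the bridge event is `Cn κ (i, -1) (i, 0)` for
`κ = (A \ ω).image star ∪ ring`; the faces `(i, -1)` and `(-1, -1)` are connected by `ring` (`ring_connected`, `Rg`).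
`FB_eq`: `fkProb_P` and `rect_dual` with `E = EL n M`, `F = BL n` (`A \ (E ∪ F) = ∅`), `B κ = ∃ i ∈ S, i < n ∧ Cn κ (i, 0) (-1, -1)`. -/

namespace Pool.Agent.IDK

open Finset
open Pool.Agent.FKR
open Pool.Agent.H95.Perc (Inc conn link rect hor ver eh ev sumE sepE Inci mem_rect)
open Pool.Agent.H95.SumRule (edgesIn Z2 domain bottomArc fkProb selfDual touchProb bridgeProb)

variable {q : ℝ}

theorem bridge_iff {n M : ℕ} (hM : 1 ≤ M) {ω : Finset (Sym2 (ℤ × ℤ))}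
    (hω : ω ⊆ edgesIn (rect 0 n 0 M)) (hb : BL n ⊆ ω) {i : ℕ} (hi : i < n) :
    ¬ Cn (ω.erase s(((i : ℤ), 0), ((i : ℤ) + 1, 0))) ((i : ℤ), 0) ((i : ℤ) + 1, 0) ↔
      Cn ((edgesIn (rect 0 n 0 M) \ ω).image star ∪ ring 0 n 0 M) ((i : ℤ), 0) (-1, -1) := by
  have hx : (0 : ℤ) < n := by omega
  have hy : (0 : ℤ) < M := by omega
  have hdp := rect_dualPair hx hy
  have heA : s(((i : ℤ), (0 : ℤ)), ((i : ℤ) + 1, (0 : ℤ))) ∈ edgesIn (rect 0 n 0 M) :=
    eh_mem_edgesIn_rect.2 ⟨by omega, by omega, by omega, by omega⟩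
  have heB : s(((i : ℤ), (0 : ℤ)), ((i : ℤ) + 1, (0 : ℤ))) ∈ ω := by
    apply hb
    unfold BL
    exact eh_mem_edgesIn_rect.2 ⟨by omega, by omega, by omega, by omega⟩
  have hst : star s(((i : ℤ), (0 : ℤ)), ((i : ℤ) + 1, (0 : ℤ))) =
      s(((i : ℤ), (0 : ℤ) - 1), ((i : ℤ), (0 : ℤ) - 1 + 1)) := star_eh (i : ℤ) 0
  have hset : (edgesIn (rect 0 n 0 M) \ ω.erase s(((i : ℤ), (0 : ℤ)), ((i : ℤ) + 1, (0 : ℤ)))).erase
      s(((i : ℤ), (0 : ℤ)), ((i : ℤ) + 1, (0 : ℤ))) = edgesIn (rect 0 n 0 M) \ ω := by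
    ext z
    simp only [mem_erase, mem_sdiff]
    constructor
    · rintro ⟨h1, h2, h3⟩
      exact ⟨h2, fun h4 => h3 ⟨h1, h4⟩⟩
    · rintro ⟨h1, h2⟩
      exact ⟨fun h3 => h2 (h3 ▸ heB), h1, fun h3 => h2 h3.2⟩
  have hring : Cn ((edgesIn (rect 0 n 0 M) \ ω).image star ∪ ring 0 n 0 M) ((i : ℤ), (0 : ℤ) - 1)
      (-1, -1) := by
    refine (ring_connected hx hy ?_ ?_).mono subset_union_right
    · refine ⟨?_, Or.inr (Or.inr (Or.inl rfl))⟩
      rw [mem_rect]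
      dsimp only
      omega
    · refine ⟨?_, Or.inl rfl⟩
      rw [mem_rect]
      dsimp only
      omega
  have hg : (((i : ℤ), (0 : ℤ) - 1 + 1) : ℤ × ℤ) = ((i : ℤ), 0) := by norm_num
  have hsub : ω.erase s(((i : ℤ), (0 : ℤ)), ((i : ℤ) + 1, (0 : ℤ))) ⊆ edgesIn (rect 0 n 0 M) :=
    (erase_subset _ _).trans hω
  constructor
  · intro h
    have h1 : Cn ((edgesIn (rect 0 n 0 M) \ ω).image star ∪ ring 0 n 0 M) ((i : ℤ), (0 : ℤ) - 1)
        ((i : ℤ), (0 : ℤ) - 1 + 1) := by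
      by_contra hcon
      rw [← hset] at hcon
      have h2 := hdp.h1 _ hsub _ _ heA (notMem_erase _ _) _ _ hst hcon
      rw [union_empty] at h2
      exact h h2
    rw [hg] at h1
    exact h1.symm.trans hring
  · intro h h'
    have h1 : Cn (ω.erase s(((i : ℤ), (0 : ℤ)), ((i : ℤ) + 1, (0 : ℤ))) ∪ ∅) ((i : ℤ), 0)
        ((i : ℤ) + 1, 0) := by
      rw [union_empty]
      exact h'
    have h2 := hdp.h2 hsub heA (notMem_erase _ _) hst h1
    rw [hset, hg] at h2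
    exact h2 (hring.trans h.symm)

theorem cdual_dual (hq : 0 < q) {n M : ℕ} (hn : 1 ≤ n) (hM : 1 ≤ M)
    (B : Finset (Sym2 (ℤ × ℤ)) → Prop) :
    P q (EL n M) (BL n) (fun ω => B ((edgesIn (rect 0 n 0 M) \ ω).image star ∪ ring 0 n 0 M)) =
      P q (ED n M) (ring 0 n 0 M) B := by
  have hx : (0 : ℤ) < n := by omega
  have hy : (0 : ℤ) < M := by omega
  have hd : Disjoint (EL n M) (BL n) := by
    unfold EL BL
    exact sdiff_disjoint
  have h := rect_dual hq hx hy (cfk_EL_sub n M) (cfk_BL_sub n M) hd B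
  have hu : edgesIn (rect 0 n 0 M) \ (EL n M ∪ BL n) = ∅ := by
    rw [sdiff_eq_empty_iff_subset]
    intro z hz
    rw [mem_union]
    by_cases hzB : z ∈ BL n
    · exact Or.inr hzB
    · left
      unfold EL
      rw [mem_sdiff]
      exact ⟨hz, hzB⟩
  rw [hu, image_empty, empty_union] at h
  exact h

theorem FB_eq (hq : 0 < q) {n M : ℕ} (hn : 1 ≤ n) (hM : 1 ≤ M) (S : Set ℕ) :
    FB q n M S = P q (ED n M) (ring 0 n 0 M) (fun κ => ∃ i ∈ S, i < n ∧ Cn κ ((i : ℤ), 0) (-1, -1)) := by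
  unfold FB
  rw [fkProb_P hq, ← cdual_dual hq hn hM]
  apply P_congr
  intro ζ hζ
  have hsub : ζ ∪ BL n ⊆ edgesIn (rect 0 n 0 M) :=
    (union_subset_union_left hζ).trans (cfk_union_sub n M)
  constructor
  · rintro ⟨i, hi, hin, h⟩
    exact ⟨i, hi, hin, (bridge_iff hM hsub subset_union_right hin).1 h⟩
  · rintro ⟨i, hi, hin, h⟩
    exact ⟨i, hi, hin, (bridge_iff hM hsub subset_union_right hin).2 h⟩

theorem bridge_pb (hq : 0 < q) {n M : ℕ} (hM : 1 ≤ M) {i : ℕ} (hi : i < n) :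
    bridgeProb q n (fun _ => M) 0 n i = pb q n M i := by
  unfold bridgeProb pb
  rw [fkProb_P hq, ← cdual_dual hq (by omega) hM]
  apply P_congr
  intro ζ hζ
  have hsub : ζ ∪ BL n ⊆ edgesIn (rect 0 n 0 M) :=
    (union_subset_union_left hζ).trans (cfk_union_sub n M)
  exact bridge_iff hM hsub subset_union_right hi

end Pool.Agent.IDK
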