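import Pool.Agent.IDK.CDefs

/-! # IDK/CFk (MP_b3e76a_pr): from `fkProb` of `H95/SumRule` to `P`

`fkProb_P`: `domain_rect` (`H95/Perc/Arms`): `domain n (fun _ => M) = rect 0 n 0 M`; `bottomArc 0 n = BL n` (`ext`, `mem_edgesIn'`,
edges of a row are `eh x 0`, see `FKR/Faces.edgesIn_cases`, `eh_mem_edgesIn_rect`). `configs V O` = subsets of `edgesIn V`
containing `O`; they are the sets `ζ ∪ O`, `ζ ⊆ edgesIn V \ O = EL n M`. `P_eq_V` (`FKR/Basic`, `V = rect 0 n 0 M`, `vts_edgesIn`) gives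
`P` as a quotient of `ws (fun ζ => W q V (ζ ∪ F)) E _`; `W q V ω = √q ^ #ω * q ^ clusters V ω` up to unfolding is
`fkWeight (selfDual q) q V ω` (`p / (1 - p) = √q`, cf. `H95/Wedge/FK.PP_eq` and `H95/Susc/Fkg`, where the same is done). The two
`openGraph`, `clusters` (SumRule, Wedge) agree by `rfl`. -/

namespace Pool.Agent.IDK

open Finset
open Pool.Agent.FKR
open Pool.Agent.H95.Perc (Inc conn link rect hor ver eh ev sumE sepE Inci mem_rect)
open Pool.Agent.H95.SumRule (edgesIn Z2 domain bottomArc fkProb selfDual touchProb bridgeProb)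

variable {q : ℝ}

theorem bottomArc_BL (n : ℕ) : bottomArc 0 n = BL n := by
  unfold bottomArc BL
  ext e
  rw [mem_image]
  constructor
  · rintro ⟨i, hi, rfl⟩
    rw [mem_Ico] at hi
    have h : eh i 0 ∈ edgesIn (rect 0 n 0 0) := eh_mem_edgesIn_rect.mpr (by omega)
    exact h
  · intro he
    obtain ⟨x, y, rfl | rfl⟩ := edgesIn_cases he
    · rw [eh_mem_edgesIn_rect] at he
      obtain ⟨h1, h2, h3, h4⟩ := he
      have hy : y = 0 := le_antisymm h4 h3
      subst hy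
      exact ⟨x, by rw [mem_Ico]; omega, rfl⟩
    · rw [ev_mem_edgesIn_rect] at he
      omega

theorem cfk_BL_sub (n M : ℕ) : BL n ⊆ edgesIn (rect 0 n 0 M) := by
  unfold BL
  exact Pool.Agent.H95.Perc.edgesIn_mono
    (Pool.Agent.H95.Perc.rect_mono le_rfl le_rfl le_rfl (by omega))

theorem cfk_EL_sub (n M : ℕ) : EL n M ⊆ edgesIn (rect 0 n 0 M) := by
  unfold EL
  exact sdiff_subset

theorem cfk_union_sub (n M : ℕ) : EL n M ∪ BL n ⊆ edgesIn (rect 0 n 0 M) :=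
  union_subset (cfk_EL_sub n M) (cfk_BL_sub n M)

theorem cfk_NL_EL (n M : ℕ) : NL (EL n M) := (NL_edgesIn _).mono (cfk_EL_sub n M)

theorem cfk_NL_BL (n : ℕ) : NL (BL n) := by
  unfold BL
  exact NL_edgesIn _

theorem cfk_sum (n M : ℕ) (A : Finset (Sym2 (ℤ × ℤ)) → Prop)
    (D : DecidablePred A) :
    ∑ ω ∈ (Pool.Agent.H95.SumRule.configs (rect 0 n 0 M) (BL n)).filter A,
        Pool.Agent.H95.SumRule.fkWeight (selfDual q) q (rect 0 n 0 M) ω =
      Pool.Agent.H95.Susc.ws (fun ζ => Pool.Agent.H95.Wedge.W q (rect 0 n 0 M) (ζ ∪ BL n)) (EL n M)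
        (fun ζ => A (ζ ∪ BL n)) := by
  unfold Pool.Agent.H95.Susc.ws
  refine sum_bij' (fun ω _ => ω \ BL n) (fun ζ _ => ζ ∪ BL n) ?_ ?_ ?_ ?_ ?_
  · intro ω hω
    rw [mem_filter, Pool.Agent.H95.SumRule.configs, mem_filter, mem_powerset] at hω
    obtain ⟨⟨h1, h2⟩, h3⟩ := hω
    rw [Pool.Agent.H95.Susc.mem_fil, sdiff_union_of_subset h2]
    refine ⟨?_, h3⟩
    unfold EL BL
    exact sdiff_subset_sdiff h1 (Subset.refl _)
  · intro ζ hζ
    rw [Pool.Agent.H95.Susc.mem_fil] at hζ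
    rw [mem_filter, Pool.Agent.H95.SumRule.configs, mem_filter, mem_powerset]
    exact ⟨⟨union_subset (hζ.1.trans (cfk_EL_sub n M)) (cfk_BL_sub n M), subset_union_right⟩, hζ.2⟩
  · intro ω hω
    rw [mem_filter, Pool.Agent.H95.SumRule.configs, mem_filter, mem_powerset] at hω
    exact sdiff_union_of_subset hω.1.2
  · intro ζ hζ
    rw [Pool.Agent.H95.Susc.mem_fil] at hζ
    have hd : Disjoint ζ (BL n) := by
      refine disjoint_of_subset_left hζ.1 ?_
      unfold EL BL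
      exact sdiff_disjoint
    exact union_sdiff_cancel_right hd
  · intro ω hω
    rw [mem_filter, Pool.Agent.H95.SumRule.configs, mem_filter, mem_powerset] at hω
    rw [sdiff_union_of_subset hω.1.2]
    rfl

theorem fkProb_P (hq : 0 < q) (n M : ℕ) (A : Finset (Sym2 (ℤ × ℤ)) → Prop) :
    fkProb (selfDual q) q (domain n fun _ => M) (bottomArc 0 n) A = P q (EL n M) (BL n) A := by
  classical
  have hV : vts (EL n M ∪ BL n) ⊆ rect 0 n 0 M :=
    (vts_mono (cfk_union_sub n M)).trans (vts_edgesIn _)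
  rw [P_eq_V hq (cfk_NL_EL n M) (cfk_NL_BL n) hV, Pool.Agent.H95.Perc.domain_rect, bottomArc_BL]
  unfold fkProb
  rw [cfk_sum]
  congr 1
  rw [← cfk_sum (q := q) n M (fun _ => True) (fun _ => instDecidableTrue), filter_true]

theorem cfk_bottom (n i : ℕ) (hi : i ≤ n) : Cn (BL n) (0, 0) ((i : ℤ), 0) := by
  induction i with
  | zero => exact Cn_refl _ _
  | succ i ih =>
    refine (ih (by omega)).trans (Cn_edge ?_)
    have h : eh i 0 ∈ BL n := by
      unfold BL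
      exact eh_mem_edgesIn_rect.mpr (by omega)
    have e : (((i + 1 : ℕ) : ℤ), (0 : ℤ)) = ((i : ℤ) + 1, 0) := by push_cast; rfl
    rw [e]
    exact h

theorem cfk_right {ω : Finset (Sym2 (ℤ × ℤ))} {n : ℕ} (h : BL n ⊆ ω) (x : ℤ × ℤ) :
    (Pool.Agent.H95.SumRule.openGraph ω).Reachable ((n : ℤ), 0) x ↔ Cn ω x (0, 0) := by
  have h1 : Cn ω (0, 0) ((n : ℤ), 0) := (cfk_bottom n n le_rfl).mono h
  constructor
  · intro k
    have k' : Cn ω ((n : ℤ), 0) x := k
    exact k'.symm.trans h1.symm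
  · intro k
    have k' : Cn ω ((n : ℤ), 0) x := h1.symm.trans k.symm
    exact k'

theorem cfk_touch (hq : 0 < q) (n M : ℕ) (x : ℤ × ℤ) :
    touchProb q n (fun _ => M) 0 n x = P q (EL n M) (BL n) (fun ω => Cn ω x (0, 0)) := by
  unfold touchProb
  rw [fkProb_P hq]
  apply P_congr
  intro ζ _
  exact cfk_right subset_union_right x

theorem FL_eq (hq : 0 < q) (n M : ℕ) (S : Set ℕ) :
    FL q n M S = P q (EL n M) (BL n) (fun ω => ∃ y ∈ S, Cn ω (0, (y : ℤ)) (0, 0)) := by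
  unfold FL
  rw [fkProb_P hq]
  apply P_congr
  intro ζ _
  constructor
  · rintro ⟨y, hy, h⟩
    have h' : Cn (ζ ∪ BL n) (0, 0) (0, (y : ℤ)) := h
    exact ⟨y, hy, h'.symm⟩
  · rintro ⟨y, hy, h⟩
    have h' : Cn (ζ ∪ BL n) (0, 0) (0, (y : ℤ)) := h.symm
    exact ⟨y, hy, h'⟩

theorem FL_mono (hq : 0 < q) (n M : ℕ) : Monotone (FL q n M) := by
  intro S T hST
  rw [FL_eq hq, FL_eq hq]
  apply P_mono hq
  rintro ζ _ ⟨y, hy, h⟩
  exact ⟨y, hST hy, h⟩

theorem FB_mono (hq : 0 < q) (n M : ℕ) : Monotone (FB q n M) := by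
  intro S T hST
  unfold FB
  rw [fkProb_P hq, fkProb_P hq]
  apply P_mono hq
  rintro ζ _ ⟨i, hi, h⟩
  exact ⟨i, hST hi, h⟩

/-- `touchProb` with the whole bottom side wired: `(n, 0)` and `(0, 0)` are connected by `BL n`. -/
theorem touch_left (hq : 0 < q) (n M y : ℕ) : touchProb q n (fun _ => M) 0 n (0, (y : ℤ)) = pl q n M y :=
  cfk_touch hq n M _

theorem cfk_img_edges {σ : (ℤ × ℤ) ≃ (ℤ × ℤ)} (hσ : Pool.Agent.H95.Perc.IsAut σ) (V : Finset (ℤ × ℤ)) :
    img σ (edgesIn V) = edgesIn (V.image σ) :=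
  (Pool.Agent.H95.Perc.edgesIn_image hσ V).symm

theorem cfk_img_row (n M : ℕ) :
    img (Pool.Agent.H95.Perc.reflX n) (edgesIn (rect 0 n 0 M)) = edgesIn (rect 0 n 0 M) := by
  rw [cfk_img_edges (Pool.Agent.H95.Perc.isAut_reflX n), Pool.Agent.H95.Perc.rect_reflX]
  congr 2 <;> ring

theorem cfk_img_BL (n : ℕ) : img (Pool.Agent.H95.Perc.reflX n) (BL n) = BL n := by
  have h := cfk_img_row n 0
  rw [Nat.cast_zero] at h
  unfold BL
  exact h

theorem cfk_img_EL (n M : ℕ) : img (Pool.Agent.H95.Perc.reflX n) (EL n M) = EL n M := by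
  have h : img (Pool.Agent.H95.Perc.reflX n) (EL n M) =
      img (Pool.Agent.H95.Perc.reflX n) (edgesIn (rect 0 n 0 M)) \
        img (Pool.Agent.H95.Perc.reflX n) (BL n) := by
    unfold EL BL img
    exact image_sdiff _ _ (Sym2.map.injective (Pool.Agent.H95.Perc.reflX n).injective)
  rw [h, cfk_img_row, cfk_img_BL]
  rfl

/-- reflection `Perc.reflX n`, `P_map` -/
theorem touch_right (hq : 0 < q) (n M y : ℕ) :
    touchProb q n (fun _ => M) 0 n ((n : ℤ), (y : ℤ)) = pl q n M y := by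
  rw [cfk_touch hq]
  unfold pl
  have h := P_map hq (cfk_NL_EL n M) (cfk_NL_BL n) (f := Pool.Agent.H95.Perc.reflX n)
    (Pool.Agent.H95.Perc.reflX n).injective.injOn (fun ω => Cn ω (0, (y : ℤ)) (0, 0))
  rw [cfk_img_EL, cfk_img_BL] at h
  rw [h]
  apply P_congr
  intro ζ _
  have e1 : Pool.Agent.H95.Perc.reflX n ((n : ℤ), (y : ℤ)) = (0, (y : ℤ)) := by
    simp [Pool.Agent.H95.Perc.reflX]
  have e2 : Pool.Agent.H95.Perc.reflX n ((n : ℤ), (0 : ℤ)) = (0, 0) := by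
    simp [Pool.Agent.H95.Perc.reflX]
  have e3 : Cn (img (Pool.Agent.H95.Perc.reflX n) (ζ ∪ BL n)) (0, (y : ℤ)) (0, 0) ↔
      Cn (ζ ∪ BL n) ((n : ℤ), (y : ℤ)) ((n : ℤ), 0) := by
    rw [← e1, ← e2]
    exact Cn_img_iff (S := Set.univ) (Pool.Agent.H95.Perc.reflX n).injective.injOn
      (Set.subset_univ _) (Set.mem_univ _) (Set.mem_univ _)
  rw [e3]
  have h1 : Cn (ζ ∪ BL n) (0, 0) ((n : ℤ), 0) := (cfk_bottom n n le_rfl).mono subset_union_right
  exact ⟨fun k => k.trans h1, fun k => k.trans h1.symm⟩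

theorem touch_top (hq : 0 < q) (n M i : ℕ) :
    touchProb q n (fun _ => M) 0 n ((i : ℤ), (M : ℤ)) = pT q n M i :=
  cfk_touch hq n M _

end Pool.Agent.IDK
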