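import Pool.Agent.IDK.RL

/-! # IDK/RLg (MP_b3e76a_pr): ratio limit theorem for arbitrary flat situations

`flat_sum`: for `Flat g R E F t`: by `P_equiv` with `g.symm` (`img g.symm` of `E`, `F`): `P q E F (fun ω => ∃ a ∈ A, Cn ω (g a) t) = P q (img g.symm E) (img g.symm F) (HitA A (g.symm t))` (`Cn_img` for `g` and `g.symm`, `img g (img g.symm ω) = ω`; apply `P_equiv` to `g.symm`, `E`, `F` and the event `HitA A (g.symm t)`). The image graph
satisfies the hypotheses of `env_sum` with `ρ = R`, `C = True`: so the probability is `∑ η ∈ s, w η * hit q R (F1 ∪ η) A t1` with `w ≥ 0` and environments, the same `s`, `w` for all `A`.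
`RLg`: multiply out both sums and apply `RL` to each pair `(η, η')`. -/

namespace Pool.Agent.IDK

open Finset
open Pool.Agent.FKR
open Pool.Agent.H95.Perc (Inc conn link rect hor ver eh ev sumE sepE Inci mem_rect)
open Pool.Agent.H95.SumRule (edgesIn Z2)

variable {q : ℝ}

private theorem img_img_symm (g : (ℤ × ℤ) ≃ (ℤ × ℤ)) (ω : Finset (Sym2 (ℤ × ℤ))) :
    img g (img g.symm ω) = ω := by
  unfold img
  rw [image_image]
  have : (Sym2.map (g : ℤ × ℤ → ℤ × ℤ)) ∘ (Sym2.map g.symm) = id := by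
    funext e
    induction e with
    | _ u v => simp
  rw [this, image_id]

private theorem img_symm_img (g : (ℤ × ℤ) ≃ (ℤ × ℤ)) (ω : Finset (Sym2 (ℤ × ℤ))) :
    img g.symm (img g ω) = ω := by
  have h := img_img_symm g.symm ω
  rwa [Equiv.symm_symm] at h

private theorem mem_symm {g : (ℤ × ℤ) ≃ (ℤ × ℤ)} {e : Sym2 (ℤ × ℤ)} {v : ℤ × ℤ}
    (hv : v ∈ Sym2.map g.symm e) : g v ∈ e := by
  rw [Sym2.mem_map] at hv
  obtain ⟨a, ha, rfl⟩ := hv
  rw [Equiv.apply_symm_apply]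
  exact ha

theorem flat_sum (hq : 1 ≤ q) {g : (ℤ × ℤ) ≃ (ℤ × ℤ)} {R : ℤ} {E F : Finset (Sym2 (ℤ × ℤ))} {t : ℤ × ℤ}
    (h : Flat g R E F t) : ∃ (s : Finset (Finset (Sym2 (ℤ × ℤ)))) (w : Finset (Sym2 (ℤ × ℤ)) → ℝ)
      (F1 : Finset (Sym2 (ℤ × ℤ))) (t1 : ℤ × ℤ), (∀ η ∈ s, 0 ≤ w η ∧ Env R (F1 ∪ η) t1) ∧
      ∀ A, P q E F (fun ω => ∃ a ∈ A, Cn ω (g a) t) = ∑ η ∈ s, w η * hit q R (F1 ∪ η) A t1 := by
  have hq0 : 0 < q := by linarith
  have hE1 : NL (img g.symm E) := NL_img g.symm.injective.injOn h.nlE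
  have hF1 : NL (img g.symm F) := NL_img g.symm.injective.injOn h.nlF
  have h1 : HE R ⊆ img g.symm E := by
    have h2 := image_subset_image (f := Sym2.map g.symm) h.sub
    have h3 : (img g (HE R)).image (Sym2.map g.symm) = HE R := img_symm_img g (HE R)
    rw [h3] at h2
    exact h2
  have h2 : ∀ e ∈ img g.symm E, e ∉ HE R → ∀ v ∈ e, v ∉ HB (R - 1) := by
    intro e he hne v hv hvB
    unfold img at he
    rw [mem_image] at he
    obtain ⟨e0, he0, rfl⟩ := he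
    have h3 := h.loc e0 he0 v hvB (mem_symm hv)
    apply hne
    rw [← img_symm_img g (HE R)]
    exact mem_image_of_mem _ h3
  have h3 : ∀ e ∈ img g.symm F, ∀ v ∈ e, v ∉ HB (R - 1) := by
    intro e he v hv hvB
    unfold img at he
    rw [mem_image] at he
    obtain ⟨e0, he0, rfl⟩ := he
    exact h.fr e0 he0 v hvB (mem_symm hv)
  have ht : g.symm t ∉ HB (R - 1) := by
    intro hcon
    exact h.tout _ hcon (g.apply_symm_apply t)
  obtain ⟨s, w, hw, hs⟩ := env_sum hq0 hE1 hF1 h1 h2 h3 ht (C := fun _ => True) (fun _ _ _ _ => trivial)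
  refine ⟨s, w, img g.symm F, g.symm t, hw, ?_⟩
  intro A
  rw [← hs A, P_equiv hq0 h.nlE h.nlF g.symm]
  apply P_congr
  intro ζ _
  constructor
  · rintro ⟨a, ha, hc⟩
    refine ⟨⟨a, ha, ?_⟩, trivial⟩
    have := Cn_img (f := g.symm) hc
    rwa [Equiv.symm_apply_apply] at this
  · rintro ⟨⟨a, ha, hc⟩, -⟩
    refine ⟨a, ha, ?_⟩
    have := Cn_img (f := g) hc
    rwa [Equiv.apply_symm_apply, img_img_symm] at this

theorem RLg (hq : 1 ≤ q) (hq4 : q < 4) (hu : UU q) (ε : ℝ) (hε : 0 < ε) : ∃ Λ : ℤ, 1 ≤ Λ ∧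
    ∀ (r R R' : ℤ) (g g' : (ℤ × ℤ) ≃ (ℤ × ℤ)) (E E' F F' : Finset (Sym2 (ℤ × ℤ))) (t t' : ℤ × ℤ)
      (A B : Finset (ℤ × ℤ)), 1 ≤ r → Λ * r ≤ R → Λ * r ≤ R' → Flat g R E F t → Flat g' R' E' F' t' →
    A ⊆ HB r → B ⊆ HB r →
    P q E F (fun ω => ∃ a ∈ A, Cn ω (g a) t) * P q E' F' (fun ω => ∃ b ∈ B, Cn ω (g' b) t') ≤
      (1 + ε) * (P q E F (fun ω => ∃ b ∈ B, Cn ω (g b) t) *
        P q E' F' (fun ω => ∃ a ∈ A, Cn ω (g' a) t')) := by
  obtain ⟨Λ, hΛ, hRL⟩ := RL hq hq4 hu ε hε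
  refine ⟨Λ, hΛ, ?_⟩
  intro r R R' g g' E E' F F' t t' A B hr hR hR' hf hf' hA hB
  obtain ⟨s, w, F1, t1, hw, hs⟩ := flat_sum hq hf
  obtain ⟨s', w', F1', t1', hw', hs'⟩ := flat_sum hq hf'
  rw [hs A, hs B, hs' A, hs' B, sum_mul_sum, sum_mul_sum, mul_sum]
  apply sum_le_sum
  intro η hη
  rw [mul_sum]
  apply sum_le_sum
  intro η' hη'
  have h1 := hRL r R R' (F1 ∪ η) (F1' ∪ η') t1 t1' A B hr hR hR' (hw η hη).2 (hw' η' hη').2 hA hB
  have h2 : 0 ≤ w η * w' η' := mul_nonneg (hw η hη).1 (hw' η' hη').1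
  calc w η * hit q R (F1 ∪ η) A t1 * (w' η' * hit q R' (F1' ∪ η') B t1') =
        (w η * w' η') * (hit q R (F1 ∪ η) A t1 * hit q R' (F1' ∪ η') B t1') := by ring
    _ ≤ (w η * w' η') * ((1 + ε) * (hit q R (F1 ∪ η) B t1 * hit q R' (F1' ∪ η') A t1')) :=
        mul_le_mul_of_nonneg_left h1 h2
    _ = _ := by ring

end Pool.Agent.IDK
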