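import Pool.Agent.IDK.CFlat
import Pool.Agent.IDK.CDual
import Pool.Agent.IDK.RLg

/-! # IDK/CRat (MP_b3e76a_pr): the ratio inequality for arcs of the left side and of the dual bottom side

`RLg` (part B) for `e`: `L ≥ 1`; `Λ = L + 2`, `R = R' = L r`, `r = n / N`. Situations: `flat_left` with `y0 = j r`, `flat_dual` with `i0 = j' r` (conditions: `L r < j r`,
`(j + L) r ≤ M`, `L r ≤ n` as `N ≥ L`; `L r ≤ j' r`, `(j' + L) r < n`, `L r < M`). Sets: `A = {(0, k)}`, `B = {(0, k) : 0 ≤ k < r}` in `HB r`; `gl y0 (0, k) = (0, k + y0)`,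
`gd i0 (0, k) = (k + i0, 0)`. Sum over `k < r`. `FL_eq`, `FB_eq` identify the arc probabilities (`i < n` is automatic in the arc). -/

namespace Pool.Agent.IDK

open Finset _root_.IDK
open Pool.Agent.FKR

variable {q : ℝ}

/-- the block of `r` boundary points -/
noncomputable def blk (r : ℕ) : Finset (ℤ × ℤ) := (range r).image fun k : ℕ => ((0 : ℤ), (k : ℤ))

theorem mem_blk {r : ℕ} {p : ℤ × ℤ} : p ∈ blk r ↔ ∃ k : ℕ, k < r ∧ p = ((0 : ℤ), (k : ℤ)) := by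
  unfold blk
  rw [mem_image]
  constructor
  · rintro ⟨k, hk, rfl⟩
    exact ⟨k, mem_range.1 hk, rfl⟩
  · rintro ⟨k, hk, rfl⟩
    exact ⟨k, mem_range.2 hk, rfl⟩

theorem blk_sub (r : ℕ) : blk r ⊆ HB (r : ℤ) := by
  intro p hp
  obtain ⟨k, hk, rfl⟩ := mem_blk.1 hp
  unfold HB
  rw [Pool.Agent.H95.Perc.mem_rect]
  simp only
  omega

theorem pt_sub {r k : ℕ} (hk : k < r) : ({((0 : ℤ), (k : ℤ))} : Finset (ℤ × ℤ)) ⊆ HB (r : ℤ) := by
  intro p hp
  rw [mem_singleton] at hp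
  exact blk_sub r (mem_blk.2 ⟨k, hk, hp⟩)

theorem left_pt (n M j r k : ℕ) : P q (EL n M) (BL n)
    (fun ω => ∃ a ∈ ({((0 : ℤ), (k : ℤ))} : Finset (ℤ × ℤ)), Cn ω (gl ((j : ℤ) * r) a) (0, 0)) =
    pl q n M (j * r + k) := by
  unfold pl
  apply P_congr
  intro ζ _
  simp only [mem_singleton, exists_eq_left, gl_apply]
  have e : (k : ℤ) + (j : ℤ) * r = ((j * r + k : ℕ) : ℤ) := by push_cast; ring
  rw [e]

theorem dual_pt (n M j r k : ℕ) : P q (ED n M) (ring 0 n 0 M)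
    (fun ω => ∃ a ∈ ({((0 : ℤ), (k : ℤ))} : Finset (ℤ × ℤ)), Cn ω (gd ((j : ℤ) * r) a) (-1, -1)) =
    pb q n M (j * r + k) := by
  unfold pb
  apply P_congr
  intro ζ _
  simp only [mem_singleton, exists_eq_left, gd_apply]
  have e : (k : ℤ) + (j : ℤ) * r = ((j * r + k : ℕ) : ℤ) := by push_cast; ring
  rw [e]

theorem left_arc (hq : 0 < q) (n M N j : ℕ) : P q (EL n M) (BL n)
    (fun ω => ∃ a ∈ blk (n / N), Cn ω (gl ((j : ℤ) * ((n / N : ℕ) : ℤ)) a) (0, 0)) =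
    FL q n M (intArc n N j) := by
  rw [FL_eq hq]
  apply P_congr
  intro ζ _
  constructor
  · rintro ⟨a, ha, hc⟩
    obtain ⟨k, hk, rfl⟩ := mem_blk.1 ha
    refine ⟨j * (n / N) + k, ?_, ?_⟩
    · unfold intArc
      rw [Set.mem_Ico]
      constructor
      · omega
      · rw [add_mul, one_mul]; omega
    · rw [gl_apply] at hc
      have e : (k : ℤ) + (j : ℤ) * ((n / N : ℕ) : ℤ) = ((j * (n / N) + k : ℕ) : ℤ) := by
        push_cast; ring
      rwa [e] at hc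
  · rintro ⟨y, hy, hc⟩
    unfold intArc at hy
    rw [Set.mem_Ico, add_mul, one_mul] at hy
    refine ⟨(0, ((y - j * (n / N) : ℕ) : ℤ)), mem_blk.2 ⟨y - j * (n / N), by omega, rfl⟩, ?_⟩
    rw [gl_apply]
    have e : ((y - j * (n / N) : ℕ) : ℤ) + (j : ℤ) * ((n / N : ℕ) : ℤ) = (y : ℤ) := by
      rw [Nat.cast_sub hy.1]; push_cast; ring
    rwa [e]

theorem dual_arc (hq : 0 < q) {n M N j : ℕ} (hn : 1 ≤ n) (hM : 1 ≤ M)
    (h : (j + 1) * (n / N) ≤ n) : P q (ED n M) (ring 0 n 0 M)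
    (fun ω => ∃ a ∈ blk (n / N), Cn ω (gd ((j : ℤ) * ((n / N : ℕ) : ℤ)) a) (-1, -1)) =
    FB q n M (intArc n N j) := by
  rw [FB_eq hq hn hM]
  rw [add_mul, one_mul] at h
  apply P_congr
  intro ζ _
  constructor
  · rintro ⟨a, ha, hc⟩
    obtain ⟨k, hk, rfl⟩ := mem_blk.1 ha
    refine ⟨j * (n / N) + k, ?_, by omega, ?_⟩
    · unfold intArc
      rw [Set.mem_Ico]
      constructor
      · omega
      · rw [add_mul, one_mul]; omega
    · rw [gd_apply] at hc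
      have e : (k : ℤ) + (j : ℤ) * ((n / N : ℕ) : ℤ) = ((j * (n / N) + k : ℕ) : ℤ) := by
        push_cast; ring
      rwa [e] at hc
  · rintro ⟨y, hy, _, hc⟩
    unfold intArc at hy
    rw [Set.mem_Ico, add_mul, one_mul] at hy
    refine ⟨(0, ((y - j * (n / N) : ℕ) : ℤ)), mem_blk.2 ⟨y - j * (n / N), by omega, rfl⟩, ?_⟩
    rw [gd_apply]
    have e : ((y - j * (n / N) : ℕ) : ℤ) + (j : ℤ) * ((n / N : ℕ) : ℤ) = (y : ℤ) := by
      rw [Nat.cast_sub hy.1]; push_cast; ring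
    rwa [e]

/-- the ratio theorem as a hypothesis -/
def RLst (q e : ℝ) (L : ℤ) : Prop :=
  ∀ (r R R' : ℤ) (g g' : (ℤ × ℤ) ≃ (ℤ × ℤ)) (E F E' F' : Finset (Sym2 (ℤ × ℤ))) (t t' : ℤ × ℤ),
    1 ≤ r → L * r ≤ R → L * r ≤ R' → Flat g R E F t → Flat g' R' E' F' t' →
    ∀ A B : Finset (ℤ × ℤ), A ⊆ HB r → B ⊆ HB r →
      P q E F (fun ω => ∃ a ∈ A, Cn ω (g a) t) * P q E' F' (fun ω => ∃ b ∈ B, Cn ω (g' b) t') ≤
        (1 + e) * (P q E F (fun ω => ∃ b ∈ B, Cn ω (g b) t) *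
          P q E' F' (fun ω => ∃ a ∈ A, Cn ω (g' a) t'))

theorem rat_of (hq : 1 ≤ q) {e : ℝ} {L : ℤ} (hL : 1 ≤ L) (hRL : RLst q e L) :
    ∃ Λ : ℕ, ∀ n M N j j' : ℕ, 1 ≤ n / N →
      Λ ≤ N → n ≤ M → Λ ≤ j → (j + Λ) * (n / N) ≤ M → Λ ≤ j' → (j' + Λ) * (n / N) ≤ n →
      (∑ k ∈ range (n / N), pl q n M (j * (n / N) + k)) * FB q n M (intArc n N j') ≤
        (1 + e) * (FL q n M (intArc n N j) * ∑ k ∈ range (n / N), pb q n M (j' * (n / N) + k)) ∧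
      (∑ k ∈ range (n / N), pb q n M (j' * (n / N) + k)) * FL q n M (intArc n N j) ≤
        (1 + e) * (FB q n M (intArc n N j') * ∑ k ∈ range (n / N), pl q n M (j * (n / N) + k)) := by
  have hq0 : 0 < q := by linarith
  refine ⟨(L + 2).toNat, ?_⟩
  intro n M N j j' hr hN hnM hj hjM hj' hjn
  have hΛ : (((L + 2).toNat : ℕ) : ℤ) = L + 2 := Int.toNat_of_nonneg (by omega)
  obtain ⟨r, hrdef⟩ : ∃ r, r = n / N := ⟨_, rfl⟩
  rw [← hrdef] at hr hjM hjn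
  have hrn : N * r ≤ n := by rw [hrdef]; exact Nat.mul_div_le n N
  have hn1 : 1 ≤ n := by
    have : 1 * 1 ≤ N * r := Nat.mul_le_mul (by omega) hr
    omega
  have hr' : (1 : ℤ) ≤ r := by exact_mod_cast hr
  have hjM' : ((j : ℤ) + (L + 2)) * r ≤ M := by rw [← hΛ]; exact_mod_cast hjM
  have hjn' : ((j' : ℤ) + (L + 2)) * r ≤ n := by rw [← hΛ]; exact_mod_cast hjn
  have hrn' : (N : ℤ) * r ≤ n := by exact_mod_cast hrn
  have hNL : L + 2 ≤ (N : ℤ) := by omega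
  have hjL : L + 2 ≤ (j : ℤ) := by omega
  have hjL' : L + 2 ≤ (j' : ℤ) := by omega
  have k1 : (L + 2) * (r : ℤ) ≤ N * r := mul_le_mul_of_nonneg_right hNL (by omega)
  have k2 : (L + 2) * (r : ℤ) ≤ j * r := mul_le_mul_of_nonneg_right hjL (by omega)
  have k3 : (L + 2) * (r : ℤ) ≤ j' * r := mul_le_mul_of_nonneg_right hjL' (by omega)
  have k4 : (1 : ℤ) ≤ L * r := by nlinarith
  have e1 : ((j : ℤ) + (L + 2)) * r = j * r + L * r + 2 * r := by ring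
  have e2 : ((j' : ℤ) + (L + 2)) * r = j' * r + L * r + 2 * r := by ring
  have e3 : (L + 2) * (r : ℤ) = L * r + 2 * r := by ring
  have hnM' : (n : ℤ) ≤ M := by exact_mod_cast hnM
  have hfl : Flat (gl ((j : ℤ) * r)) (L * r) (EL n M) (BL n) (0, 0) :=
    flat_left k4 (by omega) (by omega) (by omega)
  have hfd : Flat (gd ((j' : ℤ) * r)) (L * r) (ED n M) (ring 0 n 0 M) (-1, -1) :=
    flat_dual k4 (by omega) (by omega) (by omega)
  have hdarc : (j' + 1) * (n / N) ≤ n := by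
    rw [← hrdef]
    refine le_trans (Nat.mul_le_mul_right _ ?_) hjn
    omega
  have a1 : P q (EL n M) (BL n) (fun ω => ∃ a ∈ blk r, Cn ω (gl ((j : ℤ) * r) a) (0, 0)) =
      FL q n M (intArc n N j) := by rw [hrdef]; exact left_arc hq0 n M N j
  have a2 : P q (ED n M) (ring 0 n 0 M)
      (fun ω => ∃ a ∈ blk r, Cn ω (gd ((j' : ℤ) * r) a) (-1, -1)) = FB q n M (intArc n N j') := by
    rw [hrdef]; exact dual_arc hq0 hn1 (by omega) hdarc
  rw [← hrdef]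
  constructor
  · rw [sum_mul, mul_sum, mul_sum]
    apply sum_le_sum
    intro k hk
    have hk' := mem_range.1 hk
    have h := hRL r (L * r) (L * r) _ _ _ _ _ _ _ _ hr' le_rfl le_rfl hfl hfd
      {((0 : ℤ), (k : ℤ))} (blk r) (pt_sub hk') (blk_sub r)
    rw [left_pt, a2, a1, dual_pt] at h
    exact h
  · rw [sum_mul, mul_sum, mul_sum]
    apply sum_le_sum
    intro k hk
    have hk' := mem_range.1 hk
    have h := hRL r (L * r) (L * r) _ _ _ _ _ _ _ _ hr' le_rfl le_rfl hfd hfl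
      {((0 : ℤ), (k : ℤ))} (blk r) (pt_sub hk') (blk_sub r)
    rw [left_pt, a2, a1, dual_pt] at h
    exact h

theorem rat (hq : 1 ≤ q) (hq4 : q < 4) (hu : UU q) : ∀ e > 0, ∃ Λ : ℕ, ∀ n M N j j' : ℕ, 1 ≤ n / N →
      Λ ≤ N → n ≤ M → Λ ≤ j → (j + Λ) * (n / N) ≤ M → Λ ≤ j' → (j' + Λ) * (n / N) ≤ n →
      (∑ k ∈ range (n / N), pl q n M (j * (n / N) + k)) * FB q n M (intArc n N j') ≤
        (1 + e) * (FL q n M (intArc n N j) * ∑ k ∈ range (n / N), pb q n M (j' * (n / N) + k)) ∧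
      (∑ k ∈ range (n / N), pb q n M (j' * (n / N) + k)) * FL q n M (intArc n N j) ≤
        (1 + e) * (FB q n M (intArc n N j') * ∑ k ∈ range (n / N), pl q n M (j * (n / N) + k)) := by
  intro e he
  obtain ⟨L, hL, h⟩ := RLg hq hq4 hu e he
  exact rat_of hq hL (fun r R R' g g' E F E' F' t t' h1 h2 h3 h4 h5 A B hA hB =>
    h r R R' g g' E E' F F' t t' A B h1 h2 h3 h4 h5 hA hB)

end Pool.Agent.IDK
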