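import Pool.Agent.IDK.CDual
import Pool.Agent.H95.SumRule.Final

/-! # IDK/CSum (MP_b3e76a_pr): the sum rule in the strip

`sum_rule_main` with `m = n`, `h = fun _ => M`, `a = 0`, `b = n`: `Ioc b m = ∅`, `Ico 0 a = ∅`; the vertices `v` of the domain with
`v + (1, 0)` outside are `(n, y)`, `0 ≤ y ≤ M`. Rewrite with `touch_top`, `touch_right`, `bridge_pb`, and pass from sums over
integers to sums over `range`. -/

namespace Pool.Agent.IDK

open Finset

variable {q : ℝ}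

private theorem sum_Icc_cast (f : ℤ → ℝ) (n : ℕ) :
    ∑ i ∈ Icc (0 : ℤ) n, f i = ∑ i ∈ range (n + 1), f i := by
  symm
  refine Finset.sum_bij (fun (i : ℕ) _ => (i : ℤ)) ?_ ?_ ?_ ?_
  · intro i hi
    simp only [mem_range] at hi
    simp only [mem_Icc]
    omega
  · intro i _ j _ h
    exact_mod_cast h
  · intro z hz
    simp only [mem_Icc] at hz
    refine ⟨z.toNat, ?_, ?_⟩
    · simp only [mem_range]; omega
    · omega
  · intro i _
    rfl

private theorem sum_Ico_cast (f : ℤ → ℝ) (n : ℕ) :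
    ∑ i ∈ Ico (0 : ℤ) n, f i = ∑ i ∈ range n, f i := by
  symm
  refine Finset.sum_bij (fun (i : ℕ) _ => (i : ℤ)) ?_ ?_ ?_ ?_
  · intro i hi
    simp only [mem_range] at hi
    simp only [mem_Ico]
    omega
  · intro i _ j _ h
    exact_mod_cast h
  · intro z hz
    simp only [mem_Ico] at hz
    refine ⟨z.toNat, ?_, ?_⟩
    · simp only [mem_range]; omega
    · omega
  · intro i _
    rfl

private theorem mem_dom {n M : ℕ} {v : ℤ × ℤ} :
    v ∈ Pool.Agent.H95.SumRule.domain n (fun _ => M) ↔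
      0 ≤ v.1 ∧ v.1 ≤ n ∧ 0 ≤ v.2 ∧ v.2 ≤ M := by
  rcases v with ⟨x, y⟩
  simp only [Pool.Agent.H95.SumRule.domain, mem_biUnion, mem_image, mem_Icc, Prod.mk.injEq]
  constructor
  · rintro ⟨i, ⟨h1, h2⟩, j, ⟨h3, h4⟩, h5, h6⟩
    subst h5 h6
    exact ⟨h1, h2, h3, h4⟩
  · rintro ⟨h1, h2, h3, h4⟩
    exact ⟨x, ⟨h1, h2⟩, y, ⟨h3, h4⟩, rfl, rfl⟩

private theorem sum_right (f : ℤ × ℤ → ℝ) (n M : ℕ) :
    ∑ v ∈ Pool.Agent.H95.SumRule.domain n (fun _ => M) with
        v + (1, 0) ∉ Pool.Agent.H95.SumRule.domain n (fun _ => M), f v =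
      ∑ y ∈ range (M + 1), f ((n : ℤ), (y : ℤ)) := by
  symm
  refine Finset.sum_bij (fun (y : ℕ) _ => (((n : ℤ), (y : ℤ)) : ℤ × ℤ)) ?_ ?_ ?_ ?_
  · intro y hy
    simp only [mem_range] at hy
    simp only [mem_filter, mem_dom, Prod.mk_add_mk]
    refine ⟨⟨by omega, by omega, by omega, by omega⟩, ?_⟩
    rintro ⟨_, h2, _, _⟩
    omega
  · intro i _ j _ h
    simp only [Prod.mk.injEq, true_and] at h
    exact_mod_cast h
  · rintro ⟨x, y⟩ hz
    simp only [mem_filter, mem_dom, Prod.mk_add_mk] at hz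
    obtain ⟨⟨h1, h2, h3, h4⟩, h5⟩ := hz
    have hx : x = n := by
      by_contra hne
      apply h5
      refine ⟨by omega, by omega, by omega, by omega⟩
    refine ⟨y.toNat, ?_, ?_⟩
    · simp only [mem_range]; omega
    · simp only [Prod.mk.injEq]
      refine ⟨hx.symm, by omega⟩
  · intro i _
    rfl

theorem sum_id (hq : 0 < q) {n M : ℕ} (hn : 1 ≤ n) (hM : 1 ≤ M) :
    ∑ i ∈ range (n + 1), pT q n M i + √q * ∑ y ∈ range (M + 1), pl q n M y =
      1 + √q + ∑ i ∈ range n, pb q n M i := by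
  have h := Pool.Agent.H95.SumRule.sum_rule_main q hq n (fun _ => M) 0 (n : ℤ) le_rfl
    (by positivity) le_rfl
  rw [Finset.Ioc_self, Finset.Ico_self, Finset.sum_empty, mul_zero, add_zero,
    add_zero, sum_right, sum_Icc_cast
      (fun i => Pool.Agent.H95.SumRule.touchProb q n (fun _ => M) 0 n (i, (M : ℤ))),
    sum_Ico_cast (fun i => Pool.Agent.H95.SumRule.bridgeProb q n (fun _ => M) 0 n i)] at h
  have e1 : ∑ i ∈ range (n + 1), pT q n M i = ∑ i ∈ range (n + 1),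
      Pool.Agent.H95.SumRule.touchProb q n (fun _ => M) 0 n ((i : ℤ), (M : ℤ)) :=
    Finset.sum_congr rfl fun i _ => (touch_top hq n M i).symm
  have e2 : ∑ y ∈ range (M + 1), pl q n M y = ∑ y ∈ range (M + 1),
      Pool.Agent.H95.SumRule.touchProb q n (fun _ => M) 0 n ((n : ℤ), (y : ℤ)) :=
    Finset.sum_congr rfl fun y _ => (touch_right hq n M y).symm
  have e3 : ∑ i ∈ range n, pb q n M i = ∑ i ∈ range n,
      Pool.Agent.H95.SumRule.bridgeProb q n (fun _ => M) 0 n (i : ℤ) :=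
    Finset.sum_congr rfl fun i hi => (bridge_pb hq hM (mem_range.mp hi)).symm
  rw [e1, e2, e3]
  exact h

end Pool.Agent.IDK
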