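import Pool.Agent.IDK.Half
import Pool.Agent.FKR.WB2

/-! # IDK/HalfW (MP_b3e76a_pr): the half box and the wedge with two quadrants

Everything by unfolding: `ch`, `pt` (`wb_pt`), `WE` (`wb_mem` in FKR/WB1 describes the edges of `WE m n`: `pt k x y` to `pt k (x + 1) y` or
`pt k x (y + 1)`, `k < m`). `hc (x, y)` is `pt 0 y x` for `y > 0` and `pt 1 x (-y)` for `y ≤ 0`. `img_hc`: both inclusions; an edge of `HE N` is
`s(p, p')` with `Z2.Adj p p'` (`mem_edgesIn'`), and `WE_intro` with `j = 1`, `m = 2` gives `s(ch 1 (x, -y), ..) ∈ WE 2 N`; conversely `wb_mem`.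
`P_hc`: `P_map` (FKR/MapP). `Cn_hc`: `Cn_img_iff` with `S = {p | 0 ≤ p.1}`. -/

namespace Pool.Agent.IDK

open Finset
open Pool.Agent.FKR
open Pool.Agent.H95.Perc (Inc conn link rect hor ver eh ev mem_rect)
open Pool.Agent.H95.SumRule (edgesIn Z2)
open Pool.Agent.H95.Wedge (Vtx pt)

variable {q : ℝ}

theorem mem_HB {R : ℤ} {p : ℤ × ℤ} : p ∈ HB R ↔ 0 ≤ p.1 ∧ p.1 ≤ R ∧ -R ≤ p.2 ∧ p.2 ≤ R := by
  unfold HB
  rw [mem_rect]

theorem HE_NL (R : ℤ) : NL (HE R) := NL_edgesIn _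

theorem HE_mono {R R' : ℤ} (h : R ≤ R') : HE R ⊆ HE R' := by
  unfold HE HB
  exact Pool.Agent.H95.Perc.edgesIn_mono
    (Pool.Agent.H95.Perc.rect_mono le_rfl h (by omega) h)

theorem mem_HE {R : ℤ} {p p' : ℤ × ℤ} : s(p, p') ∈ HE R ↔ p ∈ HB R ∧ p' ∈ HB R ∧ Z2.Adj p p' := by
  unfold HE
  rw [Pool.Agent.H95.Perc.mem_edgesIn']

theorem hc_inj : Set.InjOn hc {p : ℤ × ℤ | 0 ≤ p.1} := by
  rintro ⟨x, y⟩ hx ⟨x', y'⟩ hx' h
  simp only [Set.mem_ofPred_eq] at hx hx'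
  have h1 := ch_inj 1 (show ((x, -y) : ℤ × ℤ) ∈ {p : ℤ × ℤ | 0 ≤ p.1} from hx)
    (show ((x', -y') : ℤ × ℤ) ∈ {p : ℤ × ℤ | 0 ≤ p.1} from hx') h
  simp only [Prod.mk.injEq] at h1 ⊢
  omega

theorem nm_hc {p : ℤ × ℤ} (hp : 0 ≤ p.1) : (nm (hc p) : ℤ) = max p.1 |p.2| := by
  have h := nm_ch 1 (p := (p.1, -p.2)) hp
  simp only [abs_neg] at h
  exact h

theorem hc_zero : hc (0, 0) = tip := by
  show ch 1 (0, -0) = tip
  rw [neg_zero]
  exact ch_zero 1

theorem hc_swap {x y : ℤ} (hx : 0 ≤ x) (hy : 0 ≤ y) : hc (y, x) = ch 0 (x, y) := by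
  rw [ch_succ 0 hx hy]
  rfl

private theorem hw_pt0 (x y : ℕ) : pt 0 x y = hc ((y : ℤ), (x : ℤ)) := by
  rw [hc_swap (by omega) (by omega), wb_ptch]

private theorem hw_pt1 (x y : ℕ) : pt 1 x y = hc ((x : ℤ), -(y : ℤ)) := by
  rw [wb_ptch]
  show _ = ch 1 ((x : ℤ), - -(y : ℤ))
  rw [neg_neg]

private theorem hw_mem {N : ℕ} {p p' : ℤ × ℤ} (h : s(p, p') ∈ HE N) :
    s(hc p, hc p') ∈ img hc (HE N) := mem_img_of_mem h

theorem img_hc (N : ℕ) : img hc (HE N) = WE 2 N := by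
  apply Subset.antisymm
  · intro e he
    unfold img at he
    rw [mem_image] at he
    obtain ⟨e', he', rfl⟩ := he
    induction e' with
    | _ a b =>
      rw [mem_HE, mem_HB, mem_HB] at he'
      obtain ⟨ha, hb, hab⟩ := he'
      rw [Sym2.map_mk]
      rw [wb_adj] at hab
      refine WE_intro (m := 2) (j := 1) (by omega) (by omega) (by norm_num) ?_ ?_ ?_
        (by omega) (by omega)
      · rw [wb_adj]
        simp only
        omega
      · rw [mem_rect]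
        simp only
        omega
      · rw [mem_rect]
        simp only
        omega
  · intro e he
    rw [wb_mem] at he
    obtain ⟨k, h1, h2, x, y, h3⟩ := he
    have hk : k = 0 ∨ k = 1 := by
      push_cast at h2
      omega
    rcases hk with rfl | rfl
    · rcases h3 with ⟨hx, hy, rfl⟩ | ⟨hx, hy, rfl⟩
      · rw [hw_pt0, hw_pt0]
        apply hw_mem
        rw [mem_HE, mem_HB, mem_HB, wb_adj]
        simp only [true_and]
        push_cast
        omega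
      · rw [hw_pt0, hw_pt0]
        apply hw_mem
        rw [mem_HE, mem_HB, mem_HB, wb_adj]
        simp only [true_and]
        push_cast
        omega
    · rcases h3 with ⟨hx, hy, rfl⟩ | ⟨hx, hy, rfl⟩
      · rw [hw_pt1, hw_pt1]
        apply hw_mem
        rw [mem_HE, mem_HB, mem_HB, wb_adj]
        simp only [true_and]
        push_cast
        omega
      · rw [hw_pt1, hw_pt1]
        apply hw_mem
        rw [mem_HE, mem_HB, mem_HB, wb_adj]
        simp only [true_and]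
        push_cast
        omega

private theorem hw_vts {N : ℕ} {ω : Finset (Sym2 (ℤ × ℤ))} (hω : ω ⊆ HE N) :
    (vts ω : Set (ℤ × ℤ)) ⊆ {p : ℤ × ℤ | 0 ≤ p.1} := by
  intro p hp
  rw [mem_coe, mem_vts] at hp
  obtain ⟨e, he, hpe⟩ := hp
  have he' := hω he
  induction e with
  | _ a b =>
    rw [mem_HE, mem_HB, mem_HB] at he'
    rw [Sym2.mem_iff] at hpe
    show 0 ≤ p.1
    rcases hpe with rfl | rfl
    · exact he'.1.1
    · exact he'.2.1.1

theorem P_hc (hq : 0 < q) (N : ℕ) {F : Finset (Sym2 (ℤ × ℤ))} (hF : F ⊆ HE N)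
    (A : Finset (Sym2 Vtx) → Prop) :
    P q (WE 2 N) (img hc F) A = P q (HE N) F (fun ω => A (img hc ω)) := by
  rw [← img_hc]
  exact P_map hq (HE_NL N) (fun e he => HE_NL N e (hF he))
    (hc_inj.mono (hw_vts (union_subset Subset.rfl hF))) A

theorem Cn_hc {N : ℕ} {ω : Finset (Sym2 (ℤ × ℤ))} (hω : ω ⊆ HE N) {u v : ℤ × ℤ} (hu : 0 ≤ u.1)
    (hv : 0 ≤ v.1) : Cn (img hc ω) (hc u) (hc v) ↔ Cn ω u v :=
  Cn_img_iff hc_inj (hw_vts hω) hu hv

end Pool.Agent.IDK
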