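import Pool.Agent.IDK.HubL
import Pool.Agent.IDK.HalfW

/-! # IDK/FlatGrid (MP_b3e76a_pr): a grid of circuits in the half box (steps (3) and (4) of FlatBulk, helper96) -/

namespace Pool.Agent.IDK

open Finset
open Pool.Agent.FKR
open Pool.Agent.H95.Perc (Inc conn link rect hor ver eh ev mem_rect)
open Pool.Agent.H95.SumRule (edgesIn Z2)
open Pool.Agent.H95.Wedge (Vtx pt)

variable {q : ℝ}

/-- all annuli of the grid occur -/
def Grid (ρ I : ℕ) (ω : Finset (Sym2 (ℤ × ℤ))) : Prop :=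
  ∀ i l : ℤ, 13 ≤ i → i ≤ I → -(I : ℤ) ≤ l → l ≤ I → An (i * ρ) (l * ρ) ρ ω

theorem inc_Grid (ρ I : ℕ) : Inc (Grid ρ I) := fun _ _ hs h i l h1 h2 h3 h4 =>
  inc_An _ _ _ _ _ hs (h i l h1 h2 h3 h4)

theorem P_grid (hq : 1 ≤ q) (hu : UU q) : ∃ c : ℝ, 0 < c ∧ c ≤ 1 ∧ ∀ (N : ℤ) (ρ I : ℕ), 1 ≤ ρ →
    ((I : ℤ) + 12) * ρ ≤ N → c ^ (2 * (I + 1) ^ 2) ≤ P q (HE N) ∅ (Grid ρ I) := by
  obtain ⟨c, hc, hc1, h⟩ := An_HE hq hu
  refine ⟨c, hc, hc1, fun N ρ I hρ hN => ?_⟩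
  have hq0 : 0 < q := by linarith
  have hE : NL (HE N) := HE_NL N
  have hF : NL (∅ : Finset (Sym2 (ℤ × ℤ))) := fun e he => absurd he (notMem_empty e)
  have hρ' : (1 : ℤ) ≤ ρ := by exact_mod_cast hρ
  have h1 := P_fkg_fin hq hE hF (Icc (13 : ℤ) I ×ˢ Icc (-(I : ℤ)) I)
    (A := fun s : ℤ × ℤ => An (s.1 * ρ) (s.2 * ρ) ρ) (fun s _ => inc_An _ _ _) hc.le (c := c) ?_
  · refine le_trans ?_ (h1.trans (P_mono hq0 ?_))
    · refine pow_le_pow_of_le_one hc.le hc1 ?_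
      rw [card_product, Int.card_Icc, Int.card_Icc]
      have e1 : ((I : ℤ) + 1 - 13).toNat ≤ I + 1 := by omega
      have e2 : ((I : ℤ) + 1 - -(I : ℤ)).toNat ≤ 2 * (I + 1) := by omega
      calc _ ≤ (I + 1) * (2 * (I + 1)) := Nat.mul_le_mul e1 e2
        _ = _ := by ring
    · intro ζ _ hζ i l a1 a2 a3 a4
      exact hζ (i, l) (by
        rw [mem_product, mem_Icc, mem_Icc]
        exact ⟨⟨a1, a2⟩, a3, a4⟩)
  · rintro ⟨i, l⟩ hs
    rw [mem_product, mem_Icc, mem_Icc] at hs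
    obtain ⟨⟨a1, a2⟩, a3, a4⟩ := hs
    simp only at a1 a2 a3 a4 ⊢
    refine h N _ _ _ hρ' ?_ ?_ ?_
    · nlinarith
    · nlinarith
    · rw [abs_mul, abs_of_nonneg (by omega : (0 : ℤ) ≤ ρ)]
      have : |l| ≤ I := abs_le.2 ⟨a3, a4⟩
      nlinarith

/-- the deterministic part -/
theorem grid_det {ω : Finset (Sym2 (ℤ × ℤ))} {ρ I : ℕ} {R : ℤ} (hρ : 1 ≤ ρ) (hG : Grid ρ I ω)
    (hR : ((I : ℤ) + 2) * ρ ≤ R) {p : ℤ × ℤ} {y : ℤ} (hp : 15 * (ρ : ℤ) < p.1)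
    (hp1 : p.1 ≤ I * ρ) (hp2 : -((I : ℤ) * ρ) ≤ p.2) (hp3 : p.2 ≤ I * ρ)
    (hc : Cn (ω ∩ HE R) (0, y) p) {i' : ℤ} (hi1 : 13 ≤ i') (hi2 : i' ≤ I) :
    ∃ a ∈ bxx (i' * ρ) 0 (2 * ρ), Cn (ω ∩ HE R) (0, y) a := by
  have hρ' : (1 : ℤ) ≤ ρ := by exact_mod_cast hρ
  obtain ⟨κ, hκ⟩ : ∃ κ, κ = ω ∩ HE R := ⟨_, rfl⟩
  rw [← hκ] at hc ⊢
  have hκs : κ ⊆ edgesIn (HB R) := by
    rw [hκ]
    exact inter_subset_right
  have hAn : ∀ i l : ℤ, 13 ≤ i → i ≤ I → -(I : ℤ) ≤ l → l ≤ I → An (i * ρ) (l * ρ) ρ κ := by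
    intro i l a1 a2 a3 a4
    rw [hκ]
    refine An_inter hρ' ?_ (hG i l a1 a2 a3 a4)
    intro v hv
    rw [show v ∈ bxx (i * ρ) (l * ρ) (2 * ρ) ↔ i * ρ - 2 * ρ ≤ v.1 ∧ v.1 ≤ i * ρ + 2 * ρ ∧
      l * ρ - 2 * ρ ≤ v.2 ∧ v.2 ≤ l * ρ + 2 * ρ from mem_rect] at hv
    rw [mem_HB]
    have b1 : i * ρ ≤ I * ρ := by nlinarith
    have b2 : 13 * (ρ : ℤ) ≤ i * ρ := by nlinarith
    have b3 : l * ρ ≤ I * ρ := by nlinarith
    have b4 : -((I : ℤ) * ρ) ≤ l * ρ := by nlinarith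
    have b5 : ((I : ℤ) + 2) * ρ = I * ρ + 2 * ρ := by ring
    omega
  -- the box of `p`
  obtain ⟨i, hi⟩ : ∃ i, i = p.1 / (ρ : ℤ) := ⟨_, rfl⟩
  obtain ⟨l, hl⟩ : ∃ l, l = p.2 / (ρ : ℤ) := ⟨_, rfl⟩
  have d1 : i * ρ ≤ p.1 := by
    rw [hi]
    exact Int.ediv_mul_le _ (by omega)
  have d2 : p.1 < i * ρ + ρ := by
    have := Int.lt_ediv_add_one_mul_self p.1 (show (0 : ℤ) < ρ by omega)
    rw [← hi] at this
    linarith
  have d3 : l * ρ ≤ p.2 := by
    rw [hl]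
    exact Int.ediv_mul_le _ (by omega)
  have d4 : p.2 < l * ρ + ρ := by
    have := Int.lt_ediv_add_one_mul_self p.2 (show (0 : ℤ) < ρ by omega)
    rw [← hl] at this
    linarith
  have i1 : 15 ≤ i := by
    by_contra hcon
    push Not at hcon
    have : i * ρ ≤ 14 * ρ := by nlinarith
    omega
  have i2 : i ≤ I := by
    by_contra hcon
    push Not at hcon
    have : ((I : ℤ) + 1) * ρ ≤ i * ρ := by nlinarith
    nlinarith
  have l1 : -(I : ℤ) ≤ l := by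
    by_contra hcon
    push Not at hcon
    have : l * ρ ≤ (-(I : ℤ) - 1) * ρ := by nlinarith
    nlinarith
  have l2 : l ≤ I := by
    by_contra hcon
    push Not at hcon
    have : ((I : ℤ) + 1) * ρ ≤ l * ρ := by nlinarith
    nlinarith
  obtain ⟨u, hu⟩ := An_hub hρ' (hAn i l (by omega) i2 l1 l2)
  have c1 : Cn κ p u := by
    refine Hub_cross hρ' hκs hu ?_ ?_ hc.symm
    · rw [show p ∈ bxx (i * ρ) (l * ρ) ρ ↔ i * ρ - ρ ≤ p.1 ∧ p.1 ≤ i * ρ + ρ ∧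
        l * ρ - ρ ≤ p.2 ∧ p.2 ≤ l * ρ + ρ from mem_rect]
      omega
    · rw [show ((0 : ℤ), y) ∈ bxx (i * ρ) (l * ρ) (2 * ρ - 1) ↔ i * ρ - (2 * ρ - 1) ≤ 0 ∧
        0 ≤ i * ρ + (2 * ρ - 1) ∧ l * ρ - (2 * ρ - 1) ≤ y ∧ y ≤ l * ρ + (2 * ρ - 1) from mem_rect]
      have : 15 * (ρ : ℤ) ≤ i * ρ := by nlinarith
      omega
  -- the hub at height zero
  obtain ⟨v, hv⟩ := An_hub hρ' (hAn i 0 (by omega) i2 (by omega) (by omega))
  have c2 : Cn κ u v := by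
    rcases le_total 0 l with h0 | h0
    · obtain ⟨k, hk⟩ := Int.eq_ofNat_of_zero_le h0
      have hv' : Hub (i * ρ) (0 * ρ) ρ κ v := hv
      refine (lineV hρ' (y := 0 * ρ) (k := k) ?_ hv' ?_).symm
      · intro t ht
        have := hAn i t (by omega) i2 (by omega) (by omega)
        convert this using 1
        ring
      · rw [hk] at hu
        convert hu using 1
        ring
    · obtain ⟨k, hk⟩ := Int.eq_ofNat_of_zero_le (show 0 ≤ -l by omega)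
      refine lineV hρ' (y := l * ρ) (k := k) ?_ hu ?_
      · intro t ht
        have := hAn i (l + t) (by omega) i2 (by omega) (by omega)
        convert this using 1
        ring
      · convert hv using 1
        have : l = -(k : ℤ) := by
          have : -l = (k : ℤ) := hk
          omega
        rw [this]
        ring
  -- the hub `i'`
  obtain ⟨w, hw⟩ := An_hub hρ' (hAn i' 0 hi1 hi2 (by omega) (by omega))
  have c3 : Cn κ v w := by
    rcases le_total i i' with h0 | h0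
    · obtain ⟨k, hk⟩ := Int.eq_ofNat_of_zero_le (show 0 ≤ i' - i by omega)
      refine lineH hρ' (x := i * ρ) (k := k) ?_ hv ?_
      · intro t ht
        have := hAn (i + t) 0 (by omega) (by
          have : i' - i = (k : ℤ) := hk
          omega) (by omega) (by omega)
        convert this using 1
        ring
      · convert hw using 1
        have : i' = i + (k : ℤ) := by
          have : i' - i = (k : ℤ) := hk
          omega
        rw [this]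
        ring
    · obtain ⟨k, hk⟩ := Int.eq_ofNat_of_zero_le (show 0 ≤ i - i' by omega)
      refine (lineH hρ' (x := i' * ρ) (k := k) ?_ hw ?_).symm
      · intro t ht
        have := hAn (i' + t) 0 (by omega) (by
          have : i - i' = (k : ℤ) := hk
          omega) (by omega) (by omega)
        convert this using 1
        ring
      · convert hv using 1
        have : i = i' + (k : ℤ) := by
          have : i - i' = (k : ℤ) := hk
          omega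
        rw [this]
        ring
  obtain ⟨a, ha, hac⟩ := Hub_mem hw (by omega)
  refine ⟨a, ?_, (((hc.trans c1).trans c2).trans c3).trans hac.symm⟩
  rw [zero_mul] at ha
  exact ha

end Pool.Agent.IDK
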