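import Pool.Agent.IDK.FlatEsc
import Pool.Agent.IDK.FlatGrid

/-! # IDK/FlatBulk (MP_b3e76a_pr): a boundary segment is connected to a fixed box in the bulk, locally

`N = 512 n`, `c` from `flatSeg`, `b` from `thinU`, `K ≥ 1` with `2 b^K ≤ c / 2`, `ρ = n / (990 K)`, `r = 15 ρ` (`4 ≤ ρ` for `n ≥ 3960 K`, `2 r + 2 ≤ n`, `66 K r ≤ n`).
(1) If the event of `flatSeg` occurs (`y`, `v`), then in `img hc ω ⊆ WE 2 N`: `nm (hc (0,y)) = |y| ≤ n`, `2 n ≤ nm (hc v)` (`nm_hc`; `v.1 ≥ 0` because `v` is an end of an edge of `HE N`), so `escU`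
(`m = 2`) gives `Th 2 n r (img hc ω)` or a vertex `ch j (x, y')`. In the second case `ch j (x,y') = hc p` with `r < p.1`, `n ≤ max p.1 |p.2| ≤ 2 n` (`j = 0`: `hc_swap`; `j = 1`: by definition;
`j = 2`: `ch 2 (x, y') = hc (-y', -x)` for `y' < 0`) and `Cn (ω ∩ HE (2n)) (0, y) p` (edges of `ins (nm ≤ 2n) (img hc ω)` are images of edges of `ω ∩ HE (2n)`, `Cn_hc`).
(2) `P (Th 2 n r (img hc ω)) ≤ 2 b^K ≤ c/2` by `P_hc` and `thinU` with `B = True`. So `P (U) ≥ c/2`, `U`: some `|y| ≤ n` and some `p` with `r < p.1 ≤ 2n`, `|p.2| ≤ 2n` have `Cn (ω ∩ HE (2n)) (0,y) p`.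
(3) Grid event: `An (i ρ) (l ρ) ρ ω` for all `13 ≤ i ≤ I`, `|l| ≤ I`, `I = 2 n / ρ + 2 ≤ 4000 K`: probability `≥ c2` (`An_HE`, `P_fkg_fin`, number of boxes bounded by a constant). FKG (`P_fkg`): `P (U ∧ Grid) ≥ c2 c / 2`.
(4) Deterministic: let `κ = ω ∩ HE (4n)`; all grid annuli are in `HB (4n)` and occur in `κ` (`An_inter`; `HE = edgesIn HB`). `p` is in a grid box `bxx (iρ) (lρ) ρ` (rounding), `i ≥ 14`, and
`Cn κ p (0,y)` with `(0,y)` outside `bxx (iρ) (lρ) (2ρ-1)`: `Hub_cross`: `p` is connected to the hub `u` of this annulus. By `lineH`, `lineV` (or `Hub_right`, `Hub_up`) all grid hubs are connected, in particular with the hub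
`u'` at `(i' ρ, 0)`, `i' = 2 n / ρ`; `Hub_mem`: some `a ∈ bxx (i' ρ) 0 (2ρ)` has `Cn κ a u'`; `|i' ρ - 2n| ≤ ρ` and `3 ρ ≤ n / 100` (`ρ ≤ n / 990`), so `a ∈ bxx (2n) 0 (n/100)`. -/

namespace Pool.Agent.IDK

open Finset
open Pool.Agent.FKR
open Pool.Agent.H95.Perc (Inc conn link rect hor ver eh ev mem_rect)
open Pool.Agent.H95.SumRule (edgesIn Z2)
open Pool.Agent.H95.Wedge (Vtx pt)

variable {q : ℝ}

private theorem inc_esc {n : ℕ} {r : ℤ} : Inc (fun ω : Finset (Sym2 (ℤ × ℤ)) => ∃ y : ℤ, |y| ≤ n ∧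
    ∃ p : ℤ × ℤ, r < p.1 ∧ p.1 ≤ 2 * n ∧ |p.2| ≤ 2 * n ∧ Cn (ω ∩ HE (2 * n)) (0, y) p) := by
  rintro s t hst ⟨y, hy, p, h1, h2, h3, h4⟩
  exact ⟨y, hy, p, h1, h2, h3, h4.mono (inter_subset_inter_right hst)⟩

theorem flatBulk (hq : 1 ≤ q) (hq4 : q < 4) (hu : UU q) : ∃ c : ℝ, 0 < c ∧ ∃ K : ℕ, 100 ≤ K ∧
    ∀ n : ℕ, K ≤ n → c ≤ P q (HE (512 * n)) ∅ (fun ω => ∃ y : ℤ, |y| ≤ n ∧
      ∃ p ∈ bxx (2 * n) 0 ((n / 100 : ℕ) : ℤ), Cn (ω ∩ HE (4 * n)) (0, y) p) := by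
  have hq0 : 0 < q := by linarith
  obtain ⟨c, hc, K, hK, hesc⟩ := flat_esc hq hq4 hu
  obtain ⟨d, hd, hd1, hgrid⟩ := P_grid hq hu
  refine ⟨c * d ^ (2 * (4000 * K + 1) ^ 2), by positivity, 3960 * K, by omega, fun n hn => ?_⟩
  obtain ⟨ρ, hρ⟩ : ∃ ρ, ρ = n / (990 * K) := ⟨_, rfl⟩
  have h1 := hesc n hn
  rw [← hρ] at h1
  have hρK : ρ * (990 * K) ≤ n := by rw [hρ]; exact Nat.div_mul_le_self _ _
  have hρ4 : 4 ≤ ρ := by
    rw [hρ, Nat.le_div_iff_mul_le (by omega)]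
    omega
  have hρn : 990 * ρ ≤ n := by nlinarith
  have hρu : n < (ρ + 1) * (990 * K) := by
    have := Nat.lt_succ_self (n / (990 * K))
    rw [hρ]
    exact (Nat.div_lt_iff_lt_mul (by omega)).1 this
  obtain ⟨J, hJ⟩ : ∃ J, J = 2 * n / ρ := ⟨_, rfl⟩
  have hJ1 : J * ρ ≤ 2 * n := by rw [hJ]; exact Nat.div_mul_le_self _ _
  have hJ2 : 2 * n < (J + 1) * ρ := by
    have := Nat.lt_succ_self (2 * n / ρ)
    rw [hJ]
    exact (Nat.div_lt_iff_lt_mul (by omega)).1 this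
  have hJK : J + 2 ≤ 4000 * K := by
    -- `J ρ ≤ 2 n < 2 (ρ + 1) 990 K ≤ 2475 K ρ`
    have e1 : J * ρ < 2475 * K * ρ := by
      calc J * ρ ≤ 2 * n := hJ1
        _ < 2 * ((ρ + 1) * (990 * K)) := by omega
        _ = 1980 * K * ρ + 1980 * K := by ring
        _ ≤ 1980 * K * ρ + 495 * K * ρ := by
            have : 1980 * K = 495 * K * 4 := by ring
            rw [this]
            exact Nat.add_le_add_left (Nat.mul_le_mul_left _ hρ4) _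
        _ = 2475 * K * ρ := by ring
    have e2 : J < 2475 * K := lt_of_mul_lt_mul_right e1 (Nat.zero_le _)
    omega
  have hJ15 : 1980 ≤ J := by
    by_contra hcon
    push Not at hcon
    have : (J + 1) * ρ ≤ 1980 * ρ := Nat.mul_le_mul_right _ (by omega)
    omega
  have hz1 : (J : ℤ) * ρ ≤ 2 * n := by exact_mod_cast hJ1
  have hz2 : 2 * (n : ℤ) < J * ρ + ρ := by
    have : 2 * (n : ℤ) < ((J : ℤ) + 1) * ρ := by exact_mod_cast hJ2
    linarith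
  have hz3 : 990 * (ρ : ℤ) ≤ n := by exact_mod_cast hρn
  have h2 := hgrid (512 * n) ρ (J + 2) (by omega) (by
    push_cast
    have : ((J : ℤ) + 2 + 12) * ρ = J * ρ + 14 * ρ := by ring
    rw [this]
    omega)
  have h3 : d ^ (2 * (4000 * K + 1) ^ 2) ≤ d ^ (2 * (J + 2 + 1) ^ 2) := by
    refine pow_le_pow_of_le_one hd.le hd1 ?_
    exact Nat.mul_le_mul_left _ (Nat.pow_le_pow_left (by omega) 2)
  have hE : NL (HE (512 * (n : ℤ))) := HE_NL _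
  have hF : NL (∅ : Finset (Sym2 (ℤ × ℤ))) := fun e he => absurd he (notMem_empty e)
  have h4 := P_fkg hq hE hF (inc_esc (n := n) (r := 15 * (ρ : ℤ))) (inc_Grid ρ (J + 2))
  refine le_trans ?_ (h4.trans (P_mono hq0 ?_))
  · exact mul_le_mul h1 (h3.trans h2) (by positivity) (P_nonneg hq0 _ _ _)
  rintro ζ _ ⟨⟨y, hy, p, hp1, hp2, hp3, hcp⟩, hG⟩
  obtain ⟨hp4, hp5⟩ := abs_le.1 hp3
  have hpush : (((J + 2 : ℕ) : ℤ)) * ρ = J * ρ + 2 * ρ := by push_cast; ring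
  obtain ⟨a, ha, hac⟩ := grid_det (R := 4 * n) (ρ := ρ) (I := J + 2) (i' := J) (p := p) (y := y)
    (by omega) hG (by
      have : (((J + 2 : ℕ) : ℤ) + 2) * ρ = J * ρ + 4 * ρ := by push_cast; ring
      rw [this]
      omega) hp1 (by rw [hpush]; omega) (by rw [hpush]; omega) (by rw [hpush]; omega)
    (hcp.mono (inter_subset_inter_left (HE_mono (by omega)))) (by omega) (by omega)
  refine ⟨y, hy, a, ?_, hac⟩
  have h300 : 3 * ρ ≤ n / 100 := by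
    rw [Nat.le_div_iff_mul_le (by norm_num)]
    omega
  have h301 : 3 * (ρ : ℤ) ≤ ((n / 100 : ℕ) : ℤ) := by exact_mod_cast h300
  unfold bxx at ha ⊢
  rw [mem_rect] at ha ⊢
  omega

end Pool.Agent.IDK
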