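import Pool.Agent.IDK.CChain
import Pool.Agent.IDK.CBot
import Pool.Agent.IDK.CFlat
import Pool.Agent.IDK.CFk
import Pool.Agent.IDK.CLow
import Pool.Agent.IDK.FlatBulk

/-! # IDK/CTouch (MP_b3e76a_pr): arcs of the left side are touched with probability bounded below

`J0 = 600`, `r = n / N`, `n' = (r - 1) / 2`, `y0 = j r + n'`, `ρ = n' / 100`. `flatBulk` (part A): `c ≤ P q (HE (512 n')) ∅ (∃ |y| ≤ n', ∃ p ∈ bxx (2 n') 0 (n' / 100), Cn (ω ∩ HE (4 n')) (0, y) p)`,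
`n' ≥ K`. Transport by `gl y0` and `P_mono_EF` into `V = rect 0 n (-X) M` (`512 n' ≤ 256 r ≤ n`, `y0 + 512 n' ≤ (J + 257) r ≤ M`; `X` large: `X ≥ (K1 + 12) ρ`, `X ≥ 512 n'`).
`chain_down` with `K1 = 400 (J + 2)`, `S = {(0, y0 + y) : |y| ≤ n'}` from `(2 n', y0)`: `y0 ≤ (J + 1) r ≤ (J + 1) (2 n' + 2)`, `K1 ρ ≥ 4 (J + 2) n' - 400 (J + 2)`, so the final box is
below the row `0` for `n'` large (depending on `J`). `to_bottom`, `FL_eq`, and `y0 + y ∈ intArc n N j` (`jr ≤ y0 + y ≤ jr + 2 n' ≤ jr + r - 1`). -/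

namespace Pool.Agent.IDK

open Finset _root_.IDK
open Pool.Agent.FKR
open Pool.Agent.H95.Perc (Inc conn link rect hor ver eh ev mem_rect)
open Pool.Agent.H95.SumRule (edgesIn Z2)

variable {q : ℝ}

theorem touch_low (hq : 1 ≤ q) (hq4 : q < 4) (hu : UU q) : ∃ J0 : ℕ, ∀ N J : ℕ, J0 ≤ N → ∃ c > 0,
    ∃ n0 : ℕ, ∀ n ≥ n0, ∀ M, (J + J0) * n ≤ M → ∀ j, J0 ≤ j → j ≤ J →
      c ≤ FL q n M (intArc n N j) := by
  have hq0 : 0 < q := by linarith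
  obtain ⟨c1, hc1, K, hK, hflat⟩ := flatBulk hq hq4 hu
  refine ⟨600, ?_⟩
  intro N J hN
  obtain ⟨c2, hc2, hdown⟩ := down_bottom hq hu (400 * (J + 2))
  refine ⟨c2 * c1, by positivity, N * (2 * K + 1), ?_⟩
  intro n hn M hM j hj1 hj2
  have hN0 : 0 < N := by omega
  obtain ⟨r, hr⟩ : ∃ r, r = n / N := ⟨_, rfl⟩
  have hr1 : 2 * K + 1 ≤ r := by
    rw [hr, Nat.le_div_iff_mul_le hN0, mul_comm]
    exact hn
  have hr2 : r * N ≤ n := by
    rw [hr]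
    exact Nat.div_mul_le_self n N
  have hr3 : 600 * r ≤ n := by
    refine le_trans ?_ hr2
    rw [mul_comm]
    exact Nat.mul_le_mul_left r hN
  obtain ⟨m, hm⟩ : ∃ m, m = (r - 1) / 2 := ⟨_, rfl⟩
  obtain ⟨ρ, hρ⟩ : ∃ ρ, ρ = m / 100 := ⟨_, rfl⟩
  obtain ⟨y0, hy0⟩ : ∃ y0, y0 = j * r + m := ⟨_, rfl⟩
  have hjr : j * r ≤ J * r := Nat.mul_le_mul_right r hj2
  have hjr' : 600 * r ≤ j * r := Nat.mul_le_mul_right r hj1
  have hJn : J * r ≤ J * n := Nat.mul_le_mul_left J (by omega)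
  have hM' : J * n + 600 * n ≤ M := by
    have : (J + 600) * n = J * n + 600 * n := by ring
    omega
  have hρ1 : 1 ≤ ρ := by omega
  have hJρ : J ≤ J * ρ := Nat.le_mul_of_pos_right J hρ1
  have hJr : J * r ≤ J * (200 * ρ + 200) := Nat.mul_le_mul_left J (by omega)
  have hJr' : J * (200 * ρ + 200) = 200 * (J * ρ) + 200 * J := by ring
  have hKρ : 400 * (J + 2) * ρ = 400 * (J * ρ) + 800 * ρ := by ring
  set S : Set (ℤ × ℤ) := {s | ∃ y : ℤ, |y| ≤ m ∧ s = (0, (y0 : ℤ) + y)} with hS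
  have k1 := hflat m (by omega)
  rw [← hρ] at k1
  have k2 : P q (HE (512 * (m : ℤ))) ∅ (fun ω => ∃ y : ℤ, |y| ≤ m ∧
      ∃ p ∈ bxx (2 * (m : ℤ)) 0 (ρ : ℤ), Cn (ω ∩ HE (4 * (m : ℤ))) (0, y) p) ≤
      P q (img (gl (y0 : ℤ)) (HE (512 * (m : ℤ)))) ∅ (fun ω => ∃ s ∈ S,
        ∃ p ∈ bxx (2 * (m : ℤ)) (y0 : ℤ) (ρ : ℤ), Cn ω s p) := by
    rw [P_gl hq0]
    apply P_mono hq0
    rintro ζ _ ⟨y, hy, ⟨a, b⟩, hp, hcn⟩
    refine ⟨(0, (y0 : ℤ) + y), ⟨y, hy, rfl⟩, (a, b + y0), ?_, ?_⟩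
    · unfold bxx at hp ⊢
      rw [mem_rect] at hp ⊢
      simp only at hp ⊢
      omega
    · have := Cn_img (f := gl (y0 : ℤ)) (hcn.mono inter_subset_left)
      rw [gl_apply, gl_apply, add_comm y] at this
      exact this
  have k3 := hdown n M (400 * (J + 2) * ρ + 12 * ρ) (img (gl (y0 : ℤ)) (HE (512 * (m : ℤ)))) S
    (2 * (m : ℤ)) y0 ρ (by omega) (by omega) (by omega) (by omega) (by omega)
    ?_ ?_ (img_gl_HE (by omega) (by omega) (by omega)) ?_ ?_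
  · have k4 : P q (EL n M) (BL n) (fun ω => ∃ s ∈ S, Cn ω s (0, 0)) ≤
        FL q n M (intArc n N j) := by
      rw [FL_eq hq0]
      apply P_mono hq0
      rintro ζ _ ⟨s, ⟨y, hy, rfl⟩, hcn⟩
      rw [abs_le] at hy
      refine ⟨((y0 : ℤ) + y).toNat, ?_, ?_⟩
      · unfold intArc
        rw [Set.mem_Ico, ← hr]
        have e : (j + 1) * r = j * r + r := by ring
        rw [e]
        omega
      · rw [Int.toNat_of_nonneg (by omega)]
        exact hcn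
    calc c2 * c1 ≤ c2 * _ := mul_le_mul_of_nonneg_left (k1.trans k2) hc2.le
      _ ≤ _ := k3
      _ ≤ _ := k4
  · have h1 : (y0 : ℤ) + 2 * ρ < ((400 * (J + 2) * ρ : ℕ) : ℤ) := by
      rw [hKρ]
      push_cast
      omega
    push_cast at h1 ⊢
    linarith
  · push_cast
    linarith
  · rintro s ⟨y, hy, rfl⟩
    rw [abs_le] at hy
    rw [mem_rect]
    simp only
    omega
  · rintro s ⟨y, hy, rfl⟩
    unfold bxx
    rw [mem_rect]
    simp only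
    omega

end Pool.Agent.IDK
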