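import Pool.Agent.IDK.Half
import Pool.Agent.FKR.SMain
import Pool.Agent.FKR.SFacts

/-! # IDK/HSum (MP_b3e76a_pr): the half-plane arm probabilities are not summable too fast (`q < 4`)

(1) There is `m'` with `1 ≤ m'` and `π / (m' + 2) < th q ≤ π / (m' + 1)` (`exists_m` in FKR/STrig, applied to some `m` with
`q < 4 cos² (π / (m + 2))`, which exists since the right side tends to `4`). Take `Facts q m' w c C k0` from `facts` (FKR/SFacts). The first part of the proof
of `case_lt` (FKR/SMain, up to `hup`; copy it) shows `1 + ∑_{k0 ≤ k ≤ N} w k ≤ D * (N * w N)` for `N ≥ 2 k0`.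
(2) `w k` is comparable to `wA q m' k * wA q 2 k`: `c * w k ≤ tipTwoPoint q m' (2k) k = P .. (Cn ω tip (ch 0 (k, 0)))` (`Facts.low`, `tp_eq_P`)
`≤ wA q m' (k/2) * wA q 2 (k/2)` (`ray_up`) `≤ C' * (wA q m' k * wA q 2 k)` (`wA_dbl`, `wA_anti`) for large `k`, and conversely
`c'' * (wA q m' k * wA q 2 k) ≤ tipTwoPoint q m' (2k) k ≤ C * w k` (`two_low`, `Facts.up`).
(3) For `j ≤ N`: `wA q m' N * wA q 2 j ≤ wA q m' j * wA q 2 j`. Hence `wA q m' N * ∑_{k1 ≤ j ≤ N} wA q 2 j ≤ C1 ∑ w j ≤ C2 N w N ≤ C3 N wA q m' N wA q 2 N`; divide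
by `wA q m' N > 0`. The terms `j < k1` are at most `k1 ≤ C4 * N * w N` (by the `1 +` in (1)), small `N` by enlarging the constant (`wA_pos`).
(4) `hsum_eps`: `S n = ∑_{r ≤ n} wA q 2 r`; `S (2 n) - S n ≥ n wA (2n) ≥ S (2n) / (2 C)`, so `S n ≤ (1 - 1/(2C)) S (2n)`, hence
`S (n / 2^k) ≤ (1 - 1/(2C))^k S n ≤ (1 - 1/(2C))^k C n wA n` (`2^k (n / 2^k) ≤ n`, `S` is monotone). -/

namespace Pool.Agent.IDK

open Finset
open Pool.Agent.FKR
open Pool.Agent.H95.Perc (Inc conn link rect hor ver eh ev mem_rect)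
open Pool.Agent.H95.SumRule (edgesIn Z2)
open Pool.Agent.H95.Wedge (Vtx pt)

variable {q : ℝ}

attribute [local irreducible] wA P

private theorem hs_exists_m (hq4 : q < 4) : ∃ m : ℕ, 1 ≤ m ∧ q < 4 * Real.cos (Real.pi / (m + 2)) ^ 2 := by
  have h1 : Filter.Tendsto (fun m : ℕ => 4 * Real.cos (Real.pi / ((m : ℝ) + 2)) ^ 2) Filter.atTop
      (nhds (4 * Real.cos 0 ^ 2)) := by
    have h2 : Filter.Tendsto (fun m : ℕ => Real.pi / ((m : ℝ) + 2)) Filter.atTop (nhds 0) :=
      Filter.Tendsto.div_atTop tendsto_const_nhds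
        (Filter.tendsto_atTop_add_const_right _ _ tendsto_natCast_atTop_atTop)
    exact ((Real.continuous_cos.tendsto 0).comp h2 |>.pow 2).const_mul 4
  rw [Real.cos_zero] at h1
  have h3 : q < 4 * (1 : ℝ) ^ 2 := by linarith
  obtain ⟨m, hm, hm1⟩ := ((h1.eventually (lt_mem_nhds h3)).and (Filter.eventually_ge_atTop 1)).exists
  exact ⟨m, hm1, hm⟩

private theorem hs_growth (hq : 1 ≤ q) (hq4 : q < 4) {m' : ℕ} (hm1 : 1 ≤ m')
    (hth1 : Real.pi / (m' + 2) < SM.th q) (hth2 : SM.th q ≤ Real.pi / (m' + 1))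
    {w : ℕ → ℝ} {c C : ℝ} {k0 : ℕ} (hF : Facts q m' w c C k0) :
    ∃ D : ℝ, 0 < D ∧ ∀ N : ℕ, 2 * k0 ≤ N → 1 + ∑ k ∈ Ico k0 (N + 1), w k ≤ D * (N * w N) := by
  have hmth : m' * SM.th q < Real.pi := by
    refine lt_of_le_of_lt ?_ (SM.mul_angle_lt m')
    exact mul_le_mul_of_nonneg_left hth2 (by positivity)
  have hPhi := SM.Phi_pos hq4 hmth
  set Φ : ℝ := ∑ j ∈ Icc (0 : ℤ) m', SM.phi q m' j with hΦ
  have hph := SM.phi_neg_one_neg hm1 hth1 hth2
  have hc := hF.hc
  have hC := hF.hC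
  have hk01 := hF.hk0
  set a : ℝ := min Φ (2 * (-SM.phi q m' (-1)) * c) with ha
  have ha0 : 0 < a := lt_min hPhi (by
    have : 0 < -SM.phi q m' (-1) := by linarith
    positivity)
  set Y : ℕ → ℝ := fun n => 1 + ∑ k ∈ Ico k0 (n + 1), w k with hY
  have hY1 : ∀ n, 1 ≤ Y n := by
    intro n
    have : 0 ≤ ∑ k ∈ Ico k0 (n + 1), w k := sum_nonneg fun k _ => (hF.pos k).le
    simp only [hY]
    linarith
  have hlow : ∀ N : ℕ, k0 ≤ N → a * Y (N / 2) ≤ Φ * (C * N * w N) := by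
    intro N hN
    have h1 := SM.outer_le hF hq4 hmth hN
    have h2 := SM.key hq hq4 hm1 N
    have h3 : c * ∑ k ∈ Ico k0 (N / 2 + 1), w k ≤ Pool.Agent.H95.Wedge.F q m' (fun _ => N) (-1) := by
      rw [Pool.Agent.H95.Wedge.F_neg_one, mul_sum]
      have h4 : ∑ k ∈ Ico k0 (N / 2 + 1), c * w k ≤
          ∑ k ∈ Ico k0 (N / 2 + 1), Pool.Agent.H95.Wedge.tipTwoPoint q m' N k := by
        apply sum_le_sum
        intro k hk
        rw [mem_Ico] at hk
        exact hF.low k N hk.1 (by omega)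
      refine h4.trans ?_
      have h5 : ∑ k ∈ range N, Pool.Agent.H95.Wedge.tp q m' N k =
          ∑ k ∈ Ico 1 (N + 1), Pool.Agent.H95.Wedge.tipTwoPoint q m' N k := by
        have h7 := sum_Ico_add' (fun k => Pool.Agent.H95.Wedge.tipTwoPoint q m' N k) 0 N 1
        rw [zero_add] at h7
        rw [range_eq_Ico, ← h7]
        rfl
      rw [h5]
      apply sum_le_sum_of_subset_of_nonneg
      · intro k hk
        rw [mem_Ico] at hk ⊢
        omega
      · intro k _ _
        exact Pool.Agent.H95.Wedge.G_nonneg (by linarith) _ _ _ _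
    have h6 : a * Y (N / 2) ≤ Φ + 2 * (-SM.phi q m' (-1)) * (c * ∑ k ∈ Ico k0 (N / 2 + 1), w k) := by
      have h7 : a ≤ Φ := min_le_left _ _
      have h8 : a ≤ 2 * (-SM.phi q m' (-1)) * c := min_le_right _ _
      have h9 : 0 ≤ ∑ k ∈ Ico k0 (N / 2 + 1), w k := sum_nonneg fun k _ => (hF.pos k).le
      simp only [hY]
      nlinarith
    have h10 : 2 * (-SM.phi q m' (-1)) * (c * ∑ k ∈ Ico k0 (N / 2 + 1), w k) ≤
        2 * (-SM.phi q m' (-1)) * Pool.Agent.H95.Wedge.F q m' (fun _ => N) (-1) :=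
      mul_le_mul_of_nonneg_left h3 (by linarith)
    linarith
  refine ⟨Φ * C / a + C, by positivity, ?_⟩
  intro N hN
  have h1 := hlow N (by omega)
  have h2 : Y (N / 2) ≤ Φ * C / a * (N * w N) := by
    rw [show Φ * C / a * (N * w N) = (Φ * (C * N * w N)) / a by ring, le_div_iff₀ ha0]
    linarith
  have h3 : Y N = Y (N / 2) + ∑ k ∈ Ico (N / 2 + 1) (N + 1), w k := by
    simp only [hY]
    rw [add_assoc, sum_Ico_consecutive _ (by omega) (by omega)]
  have h4 : ∑ k ∈ Ico (N / 2 + 1) (N + 1), w k ≤ N * (C * w N) := by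
    calc ∑ k ∈ Ico (N / 2 + 1) (N + 1), w k ≤ ∑ k ∈ Ico (N / 2 + 1) (N + 1), C * w N := by
          apply sum_le_sum
          intro k hk
          rw [mem_Ico] at hk
          exact (hF.dbl k (by omega)).trans
            (mul_le_mul_of_nonneg_left (hF.anti _ _ (by omega)) hC.le)
      _ = ((N + 1 - (N / 2 + 1) : ℕ) : ℝ) * (C * w N) := by
          rw [sum_const, Nat.card_Ico, nsmul_eq_mul]
      _ ≤ N * (C * w N) := by
          apply mul_le_mul_of_nonneg_right
          · exact_mod_cast (by omega : N + 1 - (N / 2 + 1) ≤ N)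
          · have := hF.pos N
            positivity
  have h5 : Y N ≤ (Φ * C / a + C) * (N * w N) := by
    rw [h3]
    nlinarith
  exact h5

/-- `w` is comparable to the product of the arm probabilities -/
private theorem hs_cmp (hq : 1 ≤ q) (hu : UU q) {m : ℕ} (hm : 1 ≤ m)
    {w : ℕ → ℝ} {c C : ℝ} {k0 : ℕ} (hF : Facts q m w c C k0) :
    ∃ d : ℝ, 0 < d ∧ ∃ k1 : ℕ, 1 ≤ k1 ∧ ∀ k : ℕ, k1 ≤ k →
      d * w k ≤ wA q m k * wA q 2 k ∧ d * (wA q m k * wA q 2 k) ≤ w k := by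
  obtain ⟨c1, hc1, k1, hk1, h1⟩ := two_low hq hu hm
  obtain ⟨C1, hC1, n1, hn1, d1⟩ := wA_dbl hq hu hm
  obtain ⟨C2, hC2, n2, hn2, d2⟩ := wA_dbl hq hu (show 1 ≤ 2 by norm_num)
  have pm : ∀ k, 0 < wA q m k := fun k => wA_pos hq hm k
  have p2 : ∀ k, 0 < wA q 2 k := fun k => wA_pos hq (by norm_num) k
  have hc := hF.hc
  have hC := hF.hC
  have hCC : 0 < C1 * C2 := mul_pos hC1 hC2
  refine ⟨min (c / (C1 * C2)) (c1 / C), lt_min (by positivity) (by positivity),
    k0 + k1 + 2 * (n1 + n2) + 2, by omega, ?_⟩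
  intro k hk
  have hv : 0 < wA q m k * wA q 2 k := mul_pos (pm k) (p2 k)
  have hwk := hF.pos k
  constructor
  · have h2 := hF.low k (2 * k) (by omega) le_rfl
    rw [tp_eq_P hq] at h2
    have h3 := ray_up (q := q) (m := m) (N := 2 * k) (k := k) hq (n := k / 2) (by omega) (by omega)
    have h4 : wA q m (k / 2) * wA q 2 (k / 2) ≤ C1 * C2 * (wA q m k * wA q 2 k) := by
      calc wA q m (k / 2) * wA q 2 (k / 2) ≤ (C1 * wA q m (4 * (k / 2))) * (C2 * wA q 2 (4 * (k / 2))) :=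
            mul_le_mul (d1 _ (by omega)) (d2 _ (by omega)) (p2 _).le (mul_nonneg hC1.le (pm _).le)
        _ ≤ (C1 * wA q m k) * (C2 * wA q 2 k) := by
            apply mul_le_mul
            · exact mul_le_mul_of_nonneg_left (wA_anti hq (by omega) (by omega)) hC1.le
            · exact mul_le_mul_of_nonneg_left (wA_anti hq (by omega) (by omega)) hC2.le
            · exact mul_nonneg hC2.le (p2 _).le
            · exact mul_nonneg hC1.le (pm _).le
        _ = _ := by ring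
    have h5 : c * w k ≤ C1 * C2 * (wA q m k * wA q 2 k) := h2.trans (h3.trans h4)
    calc min (c / (C1 * C2)) (c1 / C) * w k ≤ c / (C1 * C2) * w k :=
          mul_le_mul_of_nonneg_right (min_le_left _ _) hwk.le
      _ = (c * w k) / (C1 * C2) := by ring
      _ ≤ _ := by
          rw [div_le_iff₀ hCC]
          linarith
  · have h2 := hF.up k (2 * k) (by omega) (by omega)
    rw [tp_eq_P hq] at h2
    have h3 := h1 k (2 * k) (by omega) le_rfl
    have h5 : c1 * (wA q m k * wA q 2 k) ≤ C * w k := h3.trans h2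
    calc min (c / (C1 * C2)) (c1 / C) * (wA q m k * wA q 2 k) ≤ c1 / C * (wA q m k * wA q 2 k) :=
          mul_le_mul_of_nonneg_right (min_le_right _ _) hv.le
      _ = (c1 * (wA q m k * wA q 2 k)) / C := by ring
      _ ≤ _ := by
          rw [div_le_iff₀ hC]
          linarith

theorem hsum (hq : 1 ≤ q) (hq4 : q < 4) (hu : UU q) : ∃ C : ℝ, 0 < C ∧ ∀ N : ℕ, 1 ≤ N →
    ∑ r ∈ Icc 1 N, wA q 2 r ≤ C * (N * wA q 2 N) := by
  obtain ⟨m, hm, hmq⟩ := hs_exists_m hq4
  obtain ⟨m', hm1, -, hth1, hth2⟩ := SM.exists_m hq hq4 hm hmq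
  obtain ⟨w, c, C, k0, hF⟩ := facts hq hu hm1
  obtain ⟨D, hD, hgr⟩ := hs_growth hq hq4 hm1 hth1 hth2 hF
  obtain ⟨d, hd, k1, hk1, hcmp⟩ := hs_cmp hq hu hm1 hF
  have pm : ∀ k, 0 < wA q m' k := fun k => wA_pos hq hm1 k
  have p2 : ∀ k, 0 < wA q 2 k := fun k => wA_pos hq (by norm_num) k
  have hk0 := hF.hk0
  -- the threshold
  obtain ⟨K, hK⟩ : ∃ K : ℕ, K = 2 * k0 + k1 := ⟨_, rfl⟩
  have hlarge : ∀ N : ℕ, K ≤ N → ∑ r ∈ Icc 1 N, wA q 2 r ≤
      (D / d ^ 2 + K * (D / d)) * (N * wA q 2 N) := by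
    intro N hN
    have hN0 : (0 : ℝ) < N := by
      have : 1 ≤ N := by omega
      exact_mod_cast this
    have g1 := hgr N (by omega)
    have g2 := (hcmp N (by omega)).1
    have hX : 0 < (N : ℝ) * wA q 2 N := mul_pos hN0 (p2 N)
    -- the main sum
    have g3 : wA q m' N * ∑ r ∈ Ico K (N + 1), wA q 2 r ≤ wA q m' N * (D / d ^ 2 * (N * wA q 2 N)) := by
      rw [mul_sum]
      calc ∑ r ∈ Ico K (N + 1), wA q m' N * wA q 2 r ≤ ∑ r ∈ Ico K (N + 1), w r / d := by
            apply sum_le_sum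
            intro r hr
            rw [mem_Ico] at hr
            have h1 := (hcmp r (by omega)).2
            have h2 : wA q m' N * wA q 2 r ≤ wA q m' r * wA q 2 r :=
              mul_le_mul_of_nonneg_right (wA_anti hq (by omega) (by omega)) (p2 r).le
            rw [le_div_iff₀ hd]
            nlinarith
        _ = (∑ r ∈ Ico K (N + 1), w r) / d := by rw [sum_div]
        _ ≤ (D * (N * w N)) / d := by
            apply div_le_div_of_nonneg_right _ hd.le
            have h1 : ∑ r ∈ Ico K (N + 1), w r ≤ ∑ r ∈ Ico k0 (N + 1), w r := by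
              apply sum_le_sum_of_subset_of_nonneg
              · intro k hk
                rw [mem_Ico] at hk ⊢
                omega
              · intro k _ _
                exact (hF.pos k).le
            linarith
        _ ≤ _ := by
            have h1 : w N ≤ (wA q m' N * wA q 2 N) / d := by
              rw [le_div_iff₀ hd]
              linarith
            calc (D * (N * w N)) / d ≤ (D * (N * ((wA q m' N * wA q 2 N) / d))) / d := by
                  apply div_le_div_of_nonneg_right _ hd.le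
                  exact mul_le_mul_of_nonneg_left (mul_le_mul_of_nonneg_left h1 hN0.le) hD.le
              _ = _ := by
                  field_simp
    have g4 := le_of_mul_le_mul_left g3 (pm N)
    -- the first terms
    have g5 : 1 ≤ D / d * (N * wA q 2 N) := by
      have h0 : 0 ≤ ∑ k ∈ Ico k0 (N + 1), w k := sum_nonneg fun k _ => (hF.pos k).le
      have h1 : 1 ≤ D * (N * w N) := by linarith
      have h2 : d * w N ≤ wA q 2 N := by
        have := wA_le_one hq m' N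
        have := p2 N
        nlinarith
      have h3 : w N ≤ wA q 2 N / d := by
        rw [le_div_iff₀ hd]
        linarith
      calc (1 : ℝ) ≤ D * (N * w N) := h1
        _ ≤ D * (N * (wA q 2 N / d)) :=
            mul_le_mul_of_nonneg_left (mul_le_mul_of_nonneg_left h3 hN0.le) hD.le
        _ = _ := by ring
    have g6 : ∑ r ∈ Ico 1 K, wA q 2 r ≤ K := by
      calc ∑ r ∈ Ico 1 K, wA q 2 r ≤ ∑ r ∈ Ico 1 K, (1 : ℝ) := sum_le_sum fun r _ => wA_le_one hq 2 r
        _ = ((K - 1 : ℕ) : ℝ) := by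
            rw [sum_const, Nat.card_Ico, nsmul_eq_mul, mul_one]
        _ ≤ K := by exact_mod_cast Nat.sub_le _ _
    have g7 : ∑ r ∈ Icc 1 N, wA q 2 r = ∑ r ∈ Ico 1 K, wA q 2 r + ∑ r ∈ Ico K (N + 1), wA q 2 r := by
      rw [sum_Ico_consecutive _ (by omega) (by omega)]
      rfl
    rw [g7]
    have hK0 : (0 : ℝ) ≤ K := Nat.cast_nonneg _
    have g8 : (K : ℝ) ≤ K * (D / d * (N * wA q 2 N)) := by nlinarith
    nlinarith
  refine ⟨(D / d ^ 2 + K * (D / d)) + 1 / wA q 2 K, by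
    have := p2 K
    positivity, ?_⟩
  intro N hN
  have hN0 : (0 : ℝ) < N := by exact_mod_cast hN
  have hX : 0 < (N : ℝ) * wA q 2 N := mul_pos hN0 (p2 N)
  have hpK := p2 K
  rcases le_total K N with h | h
  · refine (hlarge N h).trans ?_
    apply mul_le_mul_of_nonneg_right _ hX.le
    have : 0 < 1 / wA q 2 K := by positivity
    linarith
  · have h1 : ∑ r ∈ Icc 1 N, wA q 2 r ≤ N := by
      calc ∑ r ∈ Icc 1 N, wA q 2 r ≤ ∑ r ∈ Icc 1 N, (1 : ℝ) := sum_le_sum fun r _ => wA_le_one hq 2 r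
        _ = N := by
            rw [sum_const, Nat.card_Icc, nsmul_eq_mul, mul_one]
            norm_num
    have h2 : wA q 2 K ≤ wA q 2 N := wA_anti hq hN h
    have h3 : 1 ≤ 1 / wA q 2 K * wA q 2 N := by
      rw [one_div, ← div_eq_inv_mul, le_div_iff₀ hpK]
      linarith
    have h4 : 0 < D / d ^ 2 + K * (D / d) := by positivity
    calc ∑ r ∈ Icc 1 N, wA q 2 r ≤ N := h1
      _ ≤ N * (1 / wA q 2 K * wA q 2 N) := by nlinarith
      _ = 1 / wA q 2 K * (N * wA q 2 N) := by ring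
      _ ≤ _ := by
          apply mul_le_mul_of_nonneg_right _ hX.le
          linarith

theorem hsum_eps (hq : 1 ≤ q) (hq4 : q < 4) (hu : UU q) (ε : ℝ) (hε : 0 < ε) : ∃ L : ℕ, 1 ≤ L ∧
    ∀ n : ℕ, 1 ≤ n → ∑ r ∈ Icc 1 (n / L), wA q 2 r ≤ ε * (n * wA q 2 n) := by
  obtain ⟨C0, hC0, h0⟩ := hsum hq hq4 hu
  have p2 : ∀ k, 0 < wA q 2 k := fun k => wA_pos hq (by norm_num) k
  obtain ⟨C, hC, hC1⟩ : ∃ C : ℝ, C0 ≤ C ∧ 1 ≤ C := ⟨max C0 1, le_max_left _ _, le_max_right _ _⟩
  have hCpos : 0 < C := by linarith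
  set S : ℕ → ℝ := fun n => ∑ r ∈ Icc 1 n, wA q 2 r with hS
  have hS0 : ∀ n, 0 ≤ S n := fun n => sum_nonneg fun r _ => (p2 r).le
  have hSm : ∀ a b : ℕ, a ≤ b → S a ≤ S b := by
    intro a b hab
    apply sum_le_sum_of_subset_of_nonneg
    · intro r hr
      rw [mem_Icc] at hr ⊢
      omega
    · intro r _ _
      exact (p2 r).le
  have hSC : ∀ n, 1 ≤ n → S n ≤ C * (n * wA q 2 n) := by
    intro n hn
    refine (h0 n hn).trans ?_
    apply mul_le_mul_of_nonneg_right hC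
    have := p2 n
    positivity
  set ρ : ℝ := 1 - 1 / (2 * C) with hρ
  have hinv : 1 / (2 * C) ≤ 1 / 2 := by
    apply one_div_le_one_div_of_le (by norm_num)
    linarith
  have hinv0 : 0 < 1 / (2 * C) := by positivity
  have hρ0 : 0 ≤ ρ := by rw [hρ]; linarith
  have hρ1 : ρ < 1 := by rw [hρ]; linarith
  -- one step
  have hstep : ∀ n : ℕ, 1 ≤ n → S n ≤ ρ * S (2 * n) := by
    intro n hn
    have h1 := hSC (2 * n) (by omega)
    have h2 : S (2 * n) = S n + ∑ r ∈ Ico (n + 1) (2 * n + 1), wA q 2 r := by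
      have h3 := sum_Ico_consecutive (fun r => wA q 2 r) (show 1 ≤ n + 1 by omega)
        (show n + 1 ≤ 2 * n + 1 by omega)
      exact h3.symm
    have h3 : (n : ℝ) * wA q 2 (2 * n) ≤ ∑ r ∈ Ico (n + 1) (2 * n + 1), wA q 2 r := by
      calc (n : ℝ) * wA q 2 (2 * n) = ∑ r ∈ Ico (n + 1) (2 * n + 1), wA q 2 (2 * n) := by
            rw [sum_const, Nat.card_Ico, nsmul_eq_mul]
            congr 2
            omega
        _ ≤ _ := by
            apply sum_le_sum
            intro r hr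
            rw [mem_Ico] at hr
            exact wA_anti hq (by omega) (by omega)
    have h4 : 1 / (2 * C) * S (2 * n) ≤ n * wA q 2 (2 * n) := by
      rw [one_div, ← div_eq_inv_mul, div_le_iff₀ (by positivity)]
      push_cast at h1
      linarith
    have h5 : ρ * S (2 * n) = S (2 * n) - 1 / (2 * C) * S (2 * n) := by
      rw [hρ]
      ring
    rw [h5]
    linarith
  have hpow : ∀ (n k : ℕ), S (n / 2 ^ k) ≤ ρ ^ k * S n := by
    intro n k
    induction k with
    | zero => simp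
    | succ k ih =>
      have h1 : n / 2 ^ (k + 1) = (n / 2 ^ k) / 2 := by
        rw [pow_succ, Nat.div_div_eq_div_mul]
      rw [h1]
      rcases Nat.eq_zero_or_pos ((n / 2 ^ k) / 2) with h2 | h2
      · rw [h2]
        have h3 : S 0 = 0 := by simp [hS]
        rw [h3]
        exact mul_nonneg (pow_nonneg hρ0 _) (hS0 n)
      · have h3 := hstep _ h2
        have h4 := hSm (2 * ((n / 2 ^ k) / 2)) (n / 2 ^ k) (by omega)
        calc S ((n / 2 ^ k) / 2) ≤ ρ * S (2 * ((n / 2 ^ k) / 2)) := h3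
          _ ≤ ρ * S (n / 2 ^ k) := mul_le_mul_of_nonneg_left h4 hρ0
          _ ≤ ρ * (ρ ^ k * S n) := mul_le_mul_of_nonneg_left ih hρ0
          _ = _ := by rw [pow_succ]; ring
  obtain ⟨k, hk⟩ := exists_pow_lt_of_lt_one (show 0 < ε / C by positivity) hρ1
  refine ⟨2 ^ k, Nat.one_le_two_pow, ?_⟩
  intro n hn
  have hX : 0 ≤ (n : ℝ) * wA q 2 n := by
    have := p2 n
    positivity
  have h1 := hpow n k
  have h2 := hSC n hn
  have h3 : ρ ^ k * C ≤ ε := by
    rw [lt_div_iff₀ hCpos] at hk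
    exact hk.le
  calc ∑ r ∈ Icc 1 (n / 2 ^ k), wA q 2 r = S (n / 2 ^ k) := rfl
    _ ≤ ρ ^ k * S n := h1
    _ ≤ ρ ^ k * (C * (n * wA q 2 n)) := mul_le_mul_of_nonneg_left h2 (pow_nonneg hρ0 _)
    _ = (ρ ^ k * C) * (n * wA q 2 n) := by ring
    _ ≤ ε * (n * wA q 2 n) := mul_le_mul_of_nonneg_right h3 hX

end Pool.Agent.IDK
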