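import Pool.Agent.IDK.CNum
import Pool.Agent.IDK.CSum
import Pool.Agent.IDK.CUp
import Pool.Agent.IDK.CLow
import Pool.Agent.IDK.CTouch
import Pool.Agent.IDK.CRat
import Pool.Agent.IDK.HSum
import Pool.Agent.FKR.ArmCore

/-! # IDK/CMac (MP_b3e76a_pr): the macroscopic identity -/

namespace Pool.Agent.IDK

open Finset _root_.IDK
open Pool.Agent.FKR

variable {q : ℝ}

theorem macro_main (hq : 1 ≤ q) (hq4 : q < 4) (hu : UU q) : Macro q (FL q) (FB q) := by
  have hq0 : 0 < q := by linarith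
  refine macro_num q hq hq4 (wA q 2) (fun n => wA_pos hq (by norm_num) n)
    (fun e he => hsum_eps hq hq4 hu e he) (pl q) (pb q) (pT q) (FL q) (FB q)
    (fun n M y => ⟨P_nonneg hq0 _ _ _, P_le_one hq0 _ _ _⟩) (fun n M i => P_nonneg hq0 _ _ _)
    (fun n M i => P_nonneg hq0 _ _ _) (fun n M hn hM => sum_id hq0 hn hM)
    (fun n M y _ hy hyM => pl_le hq hy hyM)
    (fun n M y K k hn hk h hyM => pl_far hq hn hk h hyM)
    (fun n M i K k hn hk hi h => pT_far hq hn hk hi h)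
    (fun n M i k hk h1 h2 h3 => pb_le hq hk h1 h2 h3) (pl_low hq hu) ?_ ?_ (rat hq hq4 hu)
    (touch_low hq hq4 hu)
  · intro n M S
    rw [FL_eq hq0]
    exact P_nonneg hq0 _ _ _
  · intro n M S
    unfold FB
    rw [fkProb_P hq0]
    exact P_nonneg hq0 _ _ _

end Pool.Agent.IDK
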