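import Pool.Agent.IDK.RA8

/-! # IDK/CNum (MP_b3e76a_pr): the macroscopic identity, numerical part

`s = √q ∈ [1, 2)`, `θ = s / (1 + s) ≤ 2 / 3`, `r = n / N`, `cells p q N = Ico j0 j1`. Put `EL = ∑ j ∈ cells d L N, ∑ k < r, pl (j r + k)` (the sum of
`pl y` over `j0 r ≤ y < j1 r`), `EB = ∑ j ∈ cells d (1-d) N, ∑ k < r, pb (j r + k)`.
(1) `∑ y ≤ M, pl y - EL ≤ ∑ y < j0 r + ∑ j1 r ≤ y ≤ M`. `j0 ≤ d N + 1`, so `j0 r ≤ n / ℓ` if `d ≤ 1 / (3 ℓ)`, `N ≥ 3 ℓ`: first sum `≤ 1 + e n a n`.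
`j1 r ≥ (L - 2) n ≥ K0 (n + 1) + n` for `n ≥ L N + ..`, `L ≥ 2 K0 + 3`: `pl y ≤ θ ^ K a n` for `K (n+1) + n ≤ y < (K+1) (n+1) + n`, second sum
`≤ (n + 1) a n θ ^ K0 / (1 - θ) ≤ 6 n a n θ ^ K0`. (2) `∑ pT ≤ 2 n a n θ ^ K0` (`M ≥ K0 (n + 1) + n`). (3) `∑ i < n, pb i - EB ≤ 2 e n a n`: `pb i ≤ a (i + 1)` for
`i < j0 r`, `pb i ≤ a (n - i)` for `j1' r ≤ i < n`, `n - j1' r ≤ d n + n / N + N ≤ n / ℓ`. (4) `1 + s ≤ 3 ≤ e n a n` for `n` large: by `heps`,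
`a 1 ≤ e' n a n` for `n ≥ ℓ(e')`, all `e'`. (5) `EL ≥ (n / 8) c a n` (the `y` with `n / 4 ≤ y ≤ n / 2`; `ℓ ≥ 4`).
(6) by the sum rule and (1)-(5): `|EB - s EL| ≤ e4 EL`. (7) `hrat` summed over `j`, `j'`: with `PL = ∑ FL`, `PB = ∑ FB`:
`EL PB ≤ (1 + e3) PL EB`, `EB PL ≤ (1 + e3) PB EL`. Hence `|PB - s PL| ≤ e PL`. Order of choices: `e3, e4` from `e`; `ℓ`, `K0`, `Λ`, `J0`; `d0 = 1 / (3 ℓ)`,
`L0 = 2 K0 + 3`; given `d`, `L`: `N0 ≥ 3 ℓ, J0, (Λ + 2) / d, J0 / d`; given `N`: `K ≥ L + Λ + J0 + L N + 2 K0 + 3`, `n0` large. -/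

namespace Pool.Agent.IDK

open Finset _root_.IDK

private theorem cn_blocks (f : ℕ → ℝ) (r a b : ℕ) (hab : a ≤ b) :
    ∑ j ∈ Ico a b, ∑ k ∈ range r, f (j * r + k) = ∑ y ∈ Ico (a * r) (b * r), f y := by
  induction b, hab using Nat.le_induction with
  | base => simp
  | succ b hab ih =>
    rw [Finset.sum_Ico_succ_top hab, ih]
    have h1 : a * r ≤ b * r := Nat.mul_le_mul_right r hab
    have h2 : b * r ≤ (b + 1) * r := Nat.mul_le_mul_right r (Nat.le_succ b)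
    rw [← Finset.sum_Ico_consecutive f h1 h2, Finset.sum_Ico_eq_sum_range f (b * r) ((b + 1) * r)]
    have h3 : (b + 1) * r - b * r = r := by
      rw [Nat.add_mul, one_mul, Nat.add_sub_cancel_left]
    rw [h3]

private theorem cn_geom (θ : ℝ) (h0 : 0 ≤ θ) (h1 : θ < 1) (n T : ℕ) :
    ∑ t ∈ range T, θ ^ (t / (n + 1)) ≤ (n + 1) / (1 - θ) := by
  have e : ∀ m : ℕ, ∑ t ∈ range (m * (n + 1)), θ ^ (t / (n + 1)) = (n + 1) * ∑ i ∈ range m, θ ^ i := by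
    intro m
    induction m with
    | zero => simp
    | succ m ih =>
      have : ∀ x ∈ range (n + 1), θ ^ ((m * (n + 1) + x) / (n + 1)) = θ ^ m := by
        intro x hx
        rw [Finset.mem_range] at hx
        congr 1
        rw [mul_comm, Nat.mul_add_div (Nat.succ_pos n), Nat.div_eq_of_lt hx, add_zero]
      rw [show (m + 1) * (n + 1) = m * (n + 1) + (n + 1) by ring, Finset.sum_range_add, ih,
        Finset.sum_congr rfl this, Finset.sum_const, Finset.card_range, nsmul_eq_mul,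
        Finset.sum_range_succ (fun i => θ ^ i) m]
      push_cast; ring
  have h2 : range T ⊆ range (T * (n + 1)) :=
    Finset.range_subset_range.2 (Nat.le_mul_of_pos_right T (Nat.succ_pos n))
  refine (Finset.sum_le_sum_of_subset_of_nonneg h2 (fun i _ _ => pow_nonneg h0 _)).trans ?_
  rw [e, div_eq_mul_inv]
  refine mul_le_mul_of_nonneg_left ?_ (by positivity)
  have h3 : 0 < 1 - θ := by linarith
  rw [geom_sum_eq h1.ne, ← neg_div_neg_eq, neg_sub, neg_sub, inv_eq_one_div]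
  apply div_le_div_of_nonneg_right _ h3.le
  have := pow_nonneg h0 T
  linarith

/-- the tail of the left hand side -/
private theorem cn_tail (θ A : ℝ) (h0 : 0 ≤ θ) (h1 : θ < 1) (hA : 0 ≤ A) (pl : ℕ → ℝ) (n M K0 v : ℕ)
    (hv : K0 * (n + 1) + n ≤ v)
    (hp : ∀ y K, K * (n + 1) + n ≤ y → y ≤ M → pl y ≤ θ ^ K * A) :
    ∑ y ∈ Ico v (M + 1), pl y ≤ θ ^ K0 * A * ((n + 1) / (1 - θ)) := by
  have s1 : ∑ y ∈ Ico v (M + 1), pl y ≤
      ∑ y ∈ Ico v (M + 1), θ ^ K0 * A * θ ^ ((y - (K0 * (n + 1) + n)) / (n + 1)) := by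
    refine Finset.sum_le_sum fun y hy => ?_
    rw [Finset.mem_Ico] at hy
    have e := hp y (K0 + (y - (K0 * (n + 1) + n)) / (n + 1)) (by
      have := Nat.div_mul_le_self (y - (K0 * (n + 1) + n)) (n + 1)
      have h2 : K0 * (n + 1) + n ≤ y := hv.trans hy.1
      rw [Nat.add_mul]
      omega) (by omega)
    rw [pow_add] at e
    linarith
  have s2 : ∑ y ∈ Ico v (M + 1), θ ^ K0 * A * θ ^ ((y - (K0 * (n + 1) + n)) / (n + 1)) ≤
      ∑ y ∈ Ico (K0 * (n + 1) + n) (M + 1),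
        θ ^ K0 * A * θ ^ ((y - (K0 * (n + 1) + n)) / (n + 1)) := by
    refine Finset.sum_le_sum_of_subset_of_nonneg (Finset.Ico_subset_Ico_left hv) fun y _ _ => ?_
    exact mul_nonneg (mul_nonneg (pow_nonneg h0 _) hA) (pow_nonneg h0 _)
  refine s1.trans (s2.trans ?_)
  rw [← Finset.mul_sum, Finset.sum_Ico_eq_sum_range]
  refine mul_le_mul_of_nonneg_left ?_ (mul_nonneg (pow_nonneg h0 _) hA)
  have e : ∀ t ∈ range (M + 1 - (K0 * (n + 1) + n)),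
      θ ^ ((K0 * (n + 1) + n + t - (K0 * (n + 1) + n)) / (n + 1)) = θ ^ (t / (n + 1)) := by
    intro t _
    rw [Nat.add_sub_cancel_left]
  rw [Finset.sum_congr rfl e]
  exact cn_geom θ h0 h1 n _

private theorem cn_head (a pl : ℕ → ℝ) (S : ℝ) (m M u : ℕ) (hm : u ≤ m) (hM : m ≤ M)
    (h0 : ∀ y, 0 ≤ pl y) (h1 : pl 0 ≤ 1) (hp : ∀ y, 1 ≤ y → y ≤ M → pl y ≤ a y)
    (hS : ∑ r ∈ Icc 1 m, a r ≤ S) : ∑ y ∈ Ico 0 u, pl y ≤ 1 + S := by
  have s1 : ∑ y ∈ Ico 0 u, pl y ≤ ∑ y ∈ Ico 0 (m + 1), pl y :=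
    Finset.sum_le_sum_of_subset_of_nonneg (Finset.Ico_subset_Ico_right (by omega)) fun y _ _ => h0 y
  refine s1.trans ?_
  rw [Finset.sum_eq_sum_Ico_succ_bot (Nat.succ_pos m)]
  have e : Ico (0 + 1) (m + 1) = Icc 1 m := by ext; simp
  rw [e]
  refine add_le_add h1 (le_trans (Finset.sum_le_sum fun y hy => ?_) hS)
  rw [Finset.mem_Icc] at hy
  exact hp y hy.1 (hy.2.trans hM)

private theorem cn_botL (a pb : ℕ → ℝ) (S : ℝ) (m u : ℕ) (hm : u ≤ m) (ha : ∀ k, 0 ≤ a k)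
    (hp : ∀ i, i < m → pb i ≤ a (i + 1))
    (hS : ∑ r ∈ Icc 1 m, a r ≤ S) : ∑ y ∈ Ico 0 u, pb y ≤ S := by
  have s1 : ∑ y ∈ Ico 0 u, pb y ≤ ∑ y ∈ Ico 0 u, a (y + 1) := by
    refine Finset.sum_le_sum fun y hy => ?_
    rw [Finset.mem_Ico] at hy
    exact hp y (by omega)
  refine s1.trans ?_
  rw [Finset.sum_Ico_add' a 0 u 1]
  refine le_trans ?_ hS
  refine Finset.sum_le_sum_of_subset_of_nonneg ?_ fun y _ _ => ha y
  intro y hy
  rw [Finset.mem_Ico] at hy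
  rw [Finset.mem_Icc]
  omega

private theorem cn_botR (a pb : ℕ → ℝ) (S : ℝ) (m w n : ℕ) (hw : n - w ≤ m) (ha : ∀ k, 0 ≤ a k)
    (hp : ∀ i, w ≤ i → i < n → pb i ≤ a (n - i))
    (hS : ∑ r ∈ Icc 1 m, a r ≤ S) : ∑ y ∈ Ico w n, pb y ≤ S := by
  have s1 : ∑ y ∈ Ico w n, pb y ≤ ∑ y ∈ Ico w n, a (n - y) := by
    refine Finset.sum_le_sum fun y hy => ?_
    rw [Finset.mem_Ico] at hy
    exact hp y hy.1 hy.2
  refine s1.trans (le_trans ?_ hS)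
  have s2 : ∑ y ∈ Ico w n, a (n - y) = ∑ k ∈ Icc 1 (n - w), a k := by
    refine Finset.sum_nbij' (fun y => n - y) (fun k => n - k) ?_ ?_ ?_ ?_ ?_
    · intro y hy
      rw [Finset.mem_Ico] at hy
      rw [Finset.mem_Icc]
      omega
    · intro y hy
      rw [Finset.mem_Icc] at hy
      rw [Finset.mem_Ico]
      omega
    · intro y hy
      rw [Finset.mem_Ico] at hy
      show n - (n - y) = y
      omega
    · intro y hy
      rw [Finset.mem_Icc] at hy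
      show n - (n - y) = y
      omega
    · intro y _
      rfl
  rw [s2]
  exact Finset.sum_le_sum_of_subset_of_nonneg (Finset.Icc_subset_Icc_right hw) fun y _ _ => ha y

private theorem cn_low (pl : ℕ → ℝ) (B : ℝ) (hB : 0 ≤ B) (n u v : ℕ) (hn : 2 ≤ n) (hu : 4 * u ≤ n)
    (hv : n ≤ v) (h0 : ∀ y, 0 ≤ pl y) (hp : ∀ y, n ≤ 4 * y → 2 * y ≤ n → B ≤ pl y) :
    (n : ℝ) / 8 * B ≤ ∑ y ∈ Ico u v, pl y := by
  have h1 : Icc ((n + 3) / 4) (n / 2) ⊆ Ico u v := by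
    intro y hy
    rw [Finset.mem_Icc] at hy
    rw [Finset.mem_Ico]
    omega
  have h2 : ∑ y ∈ Icc ((n + 3) / 4) (n / 2), pl y ≤ ∑ y ∈ Ico u v, pl y :=
    Finset.sum_le_sum_of_subset_of_nonneg h1 fun y _ _ => h0 y
  refine le_trans ?_ h2
  have h3 : ∑ y ∈ Icc ((n + 3) / 4) (n / 2), B ≤ ∑ y ∈ Icc ((n + 3) / 4) (n / 2), pl y := by
    refine Finset.sum_le_sum fun y hy => ?_
    rw [Finset.mem_Icc] at hy
    exact hp y (by omega) (by omega)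
  refine le_trans ?_ h3
  rw [Finset.sum_const, Nat.card_Icc, nsmul_eq_mul]
  refine mul_le_mul_of_nonneg_right ?_ hB
  have h4 : n ≤ 8 * (n / 2 + 1 - (n + 3) / 4) := by omega
  have h5 : (n : ℝ) ≤ 8 * ((n / 2 + 1 - (n + 3) / 4 : ℕ) : ℝ) := by exact_mod_cast h4
  linarith

private theorem cn_main (s θ : ℝ) (hs1 : 1 ≤ s) (hs2 : s ≤ 2) (hθ : θ = s / (1 + s)) (a : ℕ → ℝ)
    (ha : ∀ n, 0 < a n) (pl pb pT : ℕ → ℝ) (n M K0 ℓ u v w : ℕ) (e' : ℝ) (hn : 1 ≤ n)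
    (hℓ : 4 ≤ ℓ) (hS : ∑ r ∈ Icc 1 (n / ℓ), a r ≤ e' * (n * a n)) (h3 : 3 ≤ e' * (n * a n))
    (hpl0 : ∀ y, 0 ≤ pl y) (hpl1 : ∀ y, pl y ≤ 1) (hpb0 : ∀ y, 0 ≤ pb y) (hpT0 : ∀ y, 0 ≤ pT y)
    (hsum : ∑ i ∈ range (n + 1), pT i + s * ∑ y ∈ range (M + 1), pl y
      = 1 + s + ∑ i ∈ range n, pb i)
    (hple : ∀ y, 1 ≤ y → y ≤ M → pl y ≤ a y)
    (hpfar : ∀ y K, K * (n + 1) + n ≤ y → y ≤ M → pl y ≤ θ ^ K * a n)
    (hpT : ∀ i, i ≤ n → pT i ≤ θ ^ K0 * a n)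
    (hpb : ∀ i k, 1 ≤ k → k ≤ i + 1 → k + i ≤ n → pb i ≤ a k)
    (hu : u ≤ n / ℓ) (hv : K0 * (n + 1) + n ≤ v) (hvM : v ≤ M + 1) (huw : u ≤ w) (hwn : w ≤ n)
    (hw : n - w ≤ n / ℓ) (hM : n ≤ M) :
    |∑ y ∈ Ico u w, pb y - s * ∑ y ∈ Ico u v, pl y| ≤ (14 * θ ^ K0 + 4 * e') * (n * a n) := by
  have hθ0 : 0 ≤ θ := by rw [hθ]; positivity
  have hθ1 : θ < 1 := by rw [hθ, div_lt_one (by linarith)]; linarith
  have hθ2 : 1 / (1 - θ) = 1 + s := by rw [hθ]; field_simp; ring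
  have hm : n / ℓ ≤ n / 4 := Nat.div_le_div_left hℓ (by norm_num)
  have hAn : 0 ≤ a n := (ha n).le
  have hn1 : (1 : ℝ) ≤ n := by exact_mod_cast hn
  have hP : 0 ≤ θ ^ K0 * a n := mul_nonneg (pow_nonneg hθ0 _) hAn
  -- the left-hand side
  have hH := cn_head a pl (e' * (n * a n)) (n / ℓ) M u hu (by omega) hpl0 (hpl1 0) hple hS
  have hH0 : 0 ≤ ∑ y ∈ Ico 0 u, pl y := Finset.sum_nonneg fun y _ => hpl0 y
  have hT := cn_tail θ (a n) hθ0 hθ1 hAn pl n M K0 v hv hpfar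
  have hT0 : 0 ≤ ∑ y ∈ Ico v (M + 1), pl y := Finset.sum_nonneg fun y _ => hpl0 y
  have hT' : ∑ y ∈ Ico v (M + 1), pl y ≤ 6 * (θ ^ K0 * a n * n) := by
    refine hT.trans ?_
    rw [div_eq_mul_one_div ((n : ℝ) + 1), hθ2]
    have : ((n : ℝ) + 1) * (1 + s) ≤ 6 * n := by nlinarith
    calc θ ^ K0 * a n * (((n : ℝ) + 1) * (1 + s)) ≤ θ ^ K0 * a n * (6 * n) :=
          mul_le_mul_of_nonneg_left this hP
      _ = _ := by ring
  have hPT : ∑ i ∈ range (n + 1), pT i ≤ 2 * (θ ^ K0 * a n * n) := by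
    have e1 : ∑ i ∈ range (n + 1), pT i ≤ ∑ i ∈ range (n + 1), θ ^ K0 * a n :=
      Finset.sum_le_sum fun i hi => hpT i (by rw [Finset.mem_range] at hi; omega)
    rw [Finset.sum_const, Finset.card_range, nsmul_eq_mul] at e1
    push_cast at e1
    nlinarith
  have hPT0 : 0 ≤ ∑ i ∈ range (n + 1), pT i := Finset.sum_nonneg fun y _ => hpT0 y
  have hB1 := cn_botL a pb (e' * (n * a n)) (n / ℓ) u hu (fun k => (ha k).le)
    (fun i hi => hpb i (i + 1) (by omega) le_rfl (by omega)) hS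
  have hB10 : 0 ≤ ∑ y ∈ Ico 0 u, pb y := Finset.sum_nonneg fun y _ => hpb0 y
  have hB2 := cn_botR a pb (e' * (n * a n)) (n / ℓ) w n hw (fun k => (ha k).le)
    (fun i hi hi' => hpb i (n - i) (by omega) (by omega) (by omega)) hS
  have hB20 : 0 ≤ ∑ y ∈ Ico w n, pb y := Finset.sum_nonneg fun y _ => hpb0 y
  have e1 : ∑ y ∈ range (M + 1), pl y =
      ∑ y ∈ Ico 0 u, pl y + ∑ y ∈ Ico u v, pl y + ∑ y ∈ Ico v (M + 1), pl y := by
    rw [Finset.sum_Ico_consecutive pl (Nat.zero_le u) (by omega : u ≤ v),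
      Finset.sum_Ico_consecutive pl (Nat.zero_le v) hvM, Finset.range_eq_Ico]
  have e2 : ∑ i ∈ range n, pb i = ∑ y ∈ Ico 0 u, pb y + ∑ y ∈ Ico u w, pb y + ∑ y ∈ Ico w n, pb y := by
    rw [Finset.sum_Ico_consecutive pb (Nat.zero_le u) huw,
      Finset.sum_Ico_consecutive pb (Nat.zero_le w) hwn, Finset.range_eq_Ico]
  rw [e1, e2] at hsum
  set H := ∑ y ∈ Ico 0 u, pl y
  set T := ∑ y ∈ Ico v (M + 1), pl y
  set EL := ∑ y ∈ Ico u v, pl y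
  set EB := ∑ y ∈ Ico u w, pb y
  set B1 := ∑ y ∈ Ico 0 u, pb y
  set B2 := ∑ y ∈ Ico w n, pb y
  set PT := ∑ i ∈ range (n + 1), pT i
  set X := θ ^ K0 * a n * n
  have hX0 : 0 ≤ X := by positivity
  have hX : (14 * θ ^ K0 + 4 * e') * (n * a n) = 14 * X + 4 * (e' * (n * a n)) := by
    simp only [X]; ring
  rw [hX]
  have hHT : s * (H + T) ≤ 2 * (1 + e' * (n * a n) + 6 * X) := by
    have : H + T ≤ 1 + e' * (n * a n) + 6 * X := by linarith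
    have h0 : 0 ≤ H + T := by linarith
    nlinarith
  have hHT0 : 0 ≤ s * (H + T) := mul_nonneg (by linarith) (by linarith)
  have hsum' : PT + (s * (H + T) + s * EL) = 1 + s + (B1 + EB + B2) := by
    rw [← hsum]; ring
  rw [abs_le]
  constructor <;> linarith

private theorem cn_ratio (s e e3 EL EB PL PB : ℝ) (hs2 : s ≤ 2) (he3 : 0 < e3)
    (he3' : e3 ≤ e / 8) (he3'' : e3 ≤ 1 / 8) (hEL : 0 < EL) (hPL : 0 ≤ PL)
    (h : |EB - s * EL| ≤ e3 * EL) (h1 : EL * PB ≤ (1 + e3) * (PL * EB))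
    (h2 : EB * PL ≤ (1 + e3) * (PB * EL)) : |PB - s * PL| ≤ e * PL := by
  rw [abs_le] at h
  obtain ⟨ha, hb⟩ := h
  have k1 : PB ≤ (1 + e3) * (s + e3) * PL := by
    have t1 : PL * EB ≤ PL * ((s + e3) * EL) := mul_le_mul_of_nonneg_left (by linarith) hPL
    have t2 : EL * PB ≤ EL * ((1 + e3) * (s + e3) * PL) := by
      refine h1.trans ?_
      calc (1 + e3) * (PL * EB) ≤ (1 + e3) * (PL * ((s + e3) * EL)) :=
            mul_le_mul_of_nonneg_left t1 (by linarith)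
        _ = _ := by ring
    exact le_of_mul_le_mul_left t2 hEL
  have k2 : (s - e3) * PL ≤ (1 + e3) * PB := by
    have t1 : (s - e3) * EL * PL ≤ EB * PL := mul_le_mul_of_nonneg_right (by linarith) hPL
    have t2 : EL * ((s - e3) * PL) ≤ EL * ((1 + e3) * PB) := by
      calc EL * ((s - e3) * PL) = (s - e3) * EL * PL := by ring
        _ ≤ _ := t1.trans h2
        _ = _ := by ring
    exact le_of_mul_le_mul_left t2 hEL
  have c1 : (1 + e3) * (s + e3) ≤ s + e := by nlinarith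
  have c2 : (s - e) * (1 + e3) ≤ s - e3 := by nlinarith
  rw [abs_le]
  constructor
  · have t3 : (1 + e3) * ((s - e) * PL) ≤ (1 + e3) * PB := by
      calc (1 + e3) * ((s - e) * PL) = (s - e) * (1 + e3) * PL := by ring
        _ ≤ (s - e3) * PL := mul_le_mul_of_nonneg_right c2 hPL
        _ ≤ _ := k2
    have := le_of_mul_le_mul_left t3 (by linarith)
    linarith
  · have t3 := k1.trans (mul_le_mul_of_nonneg_right c1 hPL)
    linarith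

private theorem cn_arith (n N M ℓ K0 Λ J0 : ℕ) (d L : ℝ) (hd : 0 < d) (hdℓ : d * ℓ ≤ 1 / 3)
    (hℓ4 : 4 ≤ ℓ) (hL : 2 * K0 + 3 < L) (hN1 : 3 * ℓ ≤ N) (hN4 : (Λ : ℝ) + J0 ≤ d * N)
    (hn4R : 3 * ((ℓ : ℝ) * N) ≤ n) (hn6R : L * N ≤ n) (hn5 : N ≤ n) (hM1R : (L + Λ) * n ≤ M) :
    (⌈d * N⌉₊ ≤ ⌊L * N⌋₊ ∧ ⌈d * N⌉₊ ≤ ⌊(1 - d) * N⌋₊ ∧ ⌈d * N⌉₊ * (n / N) ≤ n / ℓ ∧
      K0 * (n + 1) + n ≤ ⌊L * N⌋₊ * (n / N) ∧ ⌊L * N⌋₊ * (n / N) ≤ M + 1) ∧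
    ⌊(1 - d) * N⌋₊ * (n / N) ≤ n ∧ n - ⌊(1 - d) * N⌋₊ * (n / N) ≤ n / ℓ ∧
    (∀ j, j < ⌊L * N⌋₊ → (j + Λ) * (n / N) ≤ M) ∧
    (∀ j', j' < ⌊(1 - d) * N⌋₊ → (j' + Λ) * (n / N) ≤ n) ∧
    (∀ j, ⌈d * N⌉₊ ≤ j → Λ ≤ j ∧ J0 ≤ j) := by
  have hℓR : (4 : ℝ) ≤ ℓ := by exact_mod_cast hℓ4
  have hd12 : d ≤ 1 / 12 := by nlinarith
  have hK0R : (0 : ℝ) ≤ K0 := Nat.cast_nonneg _
  have hL3 : 3 ≤ L := by linarith
  have hNR : 3 * (ℓ : ℝ) ≤ N := by exact_mod_cast hN1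
  have hN0 : 0 < N := by omega
  have hN0R : (0 : ℝ) < N := by exact_mod_cast hN0
  have hn7R : (2 : ℝ) ≤ n := by nlinarith
  have hr1 : 1 ≤ n / N := (Nat.one_le_div_iff hN0).2 hn5
  have hΛ : (0 : ℝ) ≤ Λ := Nat.cast_nonneg _
  have hJ0 : (0 : ℝ) ≤ J0 := Nat.cast_nonneg _
  set r := n / N with hr
  have hrN : (r : ℝ) * N ≤ n := by exact_mod_cast Nat.div_mul_le_self n N
  have hrN' : (n : ℝ) ≤ (r + 1) * N := by
    have : n < (r + 1) * N := by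
      have := Nat.lt_div_mul_add hN0 (a := n)
      rw [← hr] at this
      nlinarith
    exact_mod_cast this.le
  have hr0 : (0 : ℝ) ≤ r := Nat.cast_nonneg _
  have hrn : (r : ℝ) ≤ n := by
    have : r ≤ n := Nat.div_le_self _ _
    exact_mod_cast this
  have hrℓ : 3 * ((r : ℝ) * ℓ) ≤ n := by nlinarith
  have a1 : (⌈d * N⌉₊ : ℝ) < d * N + 1 := Nat.ceil_lt_add_one (by positivity)
  have a2 : d * N ≤ (⌈d * N⌉₊ : ℝ) := Nat.le_ceil _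
  have a3 : (⌊L * N⌋₊ : ℝ) ≤ L * N := Nat.floor_le (by positivity)
  have a4 : L * N < (⌊L * N⌋₊ : ℝ) + 1 := Nat.lt_floor_add_one _
  have a5 : (⌊(1 - d) * N⌋₊ : ℝ) ≤ (1 - d) * N := Nat.floor_le (mul_nonneg (by linarith) hN0R.le)
  have a6 : (1 - d) * N < (⌊(1 - d) * N⌋₊ : ℝ) + 1 := Nat.lt_floor_add_one _
  set j0 := ⌈d * N⌉₊ with hj0
  set j1 := ⌊L * N⌋₊ with hj1
  set w1 := ⌊(1 - d) * N⌋₊ with hw1
  have hN12 : (12 : ℝ) ≤ N := by linarith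
  have j01 : j0 ≤ j1 := by
    have : (j0 : ℝ) ≤ j1 := by nlinarith
    exact_mod_cast this
  have j0w : j0 ≤ w1 := by
    have : (j0 : ℝ) ≤ w1 := by nlinarith
    exact_mod_cast this
  have hu : j0 * r ≤ n / ℓ := by
    rw [Nat.le_div_iff_mul_le (by omega)]
    have t1 : ((j0 : ℝ) * r) * ℓ ≤ n := by
      have t2 : ((j0 : ℝ) * r) * ℓ ≤ ((d * N + 1) * r) * ℓ := by
        have : (j0 : ℝ) * r ≤ (d * N + 1) * r := mul_le_mul_of_nonneg_right a1.le hr0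
        exact mul_le_mul_of_nonneg_right this (by linarith)
      have t3 : ((d * N + 1) * r) * ℓ = (d * ℓ) * (r * N) + r * ℓ := by ring
      have t4 : (d * ℓ) * ((r : ℝ) * N) ≤ 1 / 3 * n := mul_le_mul hdℓ hrN (by positivity) (by norm_num)
      linarith
    exact_mod_cast t1
  have hv : K0 * (n + 1) + n ≤ j1 * r := by
    have t1 : (K0 : ℝ) * (n + 1) + n ≤ j1 * r := by
      have t2 : (L * N - 1) * r ≤ j1 * r := mul_le_mul_of_nonneg_right (by linarith) hr0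
      have t3 : L * ((n : ℝ) - N) ≤ L * (r * N) := mul_le_mul_of_nonneg_left (by linarith) (by linarith)
      have t4 : (2 * K0 + 1) * (n : ℝ) ≤ (L - 2) * n :=
        mul_le_mul_of_nonneg_right (by linarith) (by linarith)
      have t5 : (K0 : ℝ) * 1 ≤ K0 * n := mul_le_mul_of_nonneg_left (by linarith) hK0R
      nlinarith
    exact_mod_cast t1
  have hvM : j1 * r ≤ M + 1 := by
    have t1 : (j1 : ℝ) * r ≤ M := by
      have t2 : (j1 : ℝ) * r ≤ (L * N) * r := mul_le_mul_of_nonneg_right a3 hr0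
      have t3 : L * (r * N) ≤ L * n := mul_le_mul_of_nonneg_left hrN (by linarith)
      have t4 : 0 ≤ (Λ : ℝ) * n := by positivity
      nlinarith
    have t2 : j1 * r ≤ M := by exact_mod_cast t1
    omega
  have huw : j0 * r ≤ w1 * r := Nat.mul_le_mul_right r j0w
  have hwn : w1 * r ≤ n := by
    have t1 : (w1 : ℝ) * r ≤ n := by
      have t2 : (w1 : ℝ) * r ≤ ((1 - d) * N) * r := mul_le_mul_of_nonneg_right a5 hr0
      have t3 : 0 ≤ d * (r * N) := by positivity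
      nlinarith
    exact_mod_cast t1
  have hw : n - w1 * r ≤ n / ℓ := by
    rw [Nat.le_div_iff_mul_le (by omega)]
    have t1 : ((n : ℝ) - w1 * r) * ℓ ≤ n := by
      have t2 : ((1 - d) * N - 1) * r ≤ w1 * r := mul_le_mul_of_nonneg_right (by linarith) hr0
      have t3 : (1 - d) * ((n : ℝ) - N) ≤ (1 - d) * (r * N) :=
        mul_le_mul_of_nonneg_left (by linarith) (by linarith)
      have t4 : (n : ℝ) - w1 * r ≤ d * n + N + r := by nlinarith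
      have t5 : ((n : ℝ) - w1 * r) * ℓ ≤ (d * n + N + r) * ℓ :=
        mul_le_mul_of_nonneg_right t4 (by linarith)
      have t6 : (d * ℓ) * (n : ℝ) ≤ 1 / 3 * n := mul_le_mul_of_nonneg_right hdℓ (by linarith)
      nlinarith
    have t2 : ((n - w1 * r : ℕ) : ℝ) = (n : ℝ) - w1 * r := by
      rw [Nat.cast_sub hwn]; push_cast; ring
    rw [← t2] at t1
    exact_mod_cast t1
  refine ⟨⟨j01, j0w, hu, hv, hvM⟩, hwn, hw, fun j b2 => ?_, fun j' b4 => ?_, fun j b1 => ?_⟩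
  · have b2R : (j : ℝ) ≤ j1 := by exact_mod_cast b2.le
    have t1 : ((j : ℝ) + Λ) * r ≤ M := by
      have t2 : ((j : ℝ) + Λ) * r ≤ (L * N + Λ) * r := mul_le_mul_of_nonneg_right (by linarith) hr0
      have t3 : L * (r * N) ≤ L * n := mul_le_mul_of_nonneg_left hrN (by linarith)
      have t4 : (Λ : ℝ) * r ≤ Λ * n := mul_le_mul_of_nonneg_left hrn hΛ
      have t5 : (L * N + Λ) * r = L * (r * N) + Λ * r := by ring
      linarith
    exact_mod_cast t1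
  · have b4R : (j' : ℝ) ≤ w1 := by exact_mod_cast b4.le
    have t1 : ((j' : ℝ) + Λ) * r ≤ n := by
      have t2 : ((j' : ℝ) + Λ) * r ≤ N * r := mul_le_mul_of_nonneg_right (by linarith) hr0
      linarith
    exact_mod_cast t1
  · have b1R : (j0 : ℝ) ≤ j := by exact_mod_cast b1
    have t1 : (Λ : ℝ) ≤ j := by linarith
    have t2 : (J0 : ℝ) ≤ j := by linarith
    exact ⟨by exact_mod_cast t1, by exact_mod_cast t2⟩

theorem macro_num (q : ℝ) (hq : 1 ≤ q) (hq4 : q < 4) (a : ℕ → ℝ) (ha : ∀ n, 0 < a n)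
    (heps : ∀ e > 0, ∃ ℓ : ℕ, 1 ≤ ℓ ∧ ∀ n : ℕ, 1 ≤ n → ∑ r ∈ Icc 1 (n / ℓ), a r ≤ e * (n * a n))
    (pl pb pT : ℕ → ℕ → ℕ → ℝ) (FL FB : ℕ → ℕ → Set ℕ → ℝ)
    (hpl : ∀ n M y, 0 ≤ pl n M y ∧ pl n M y ≤ 1) (hpb0 : ∀ n M i, 0 ≤ pb n M i)
    (hpT0 : ∀ n M i, 0 ≤ pT n M i)
    (hsum : ∀ n M, 1 ≤ n → 1 ≤ M → ∑ i ∈ range (n + 1), pT n M i
      + √q * ∑ y ∈ range (M + 1), pl n M y = 1 + √q + ∑ i ∈ range n, pb n M i)
    (hple : ∀ n M y, 1 ≤ n → 1 ≤ y → y ≤ M → pl n M y ≤ a y)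
    (hpfar : ∀ n M y K k, 1 ≤ n → 1 ≤ k → K * (n + 1) + k ≤ y → y ≤ M →
      pl n M y ≤ (√q / (1 + √q)) ^ K * a k)
    (hpT : ∀ n M i K k, 1 ≤ n → 1 ≤ k → i ≤ n → K * (n + 1) + k ≤ M →
      pT n M i ≤ (√q / (1 + √q)) ^ K * a k)
    (hpb : ∀ n M i k, 1 ≤ k → k ≤ i + 1 → k + i ≤ n → k ≤ M → pb n M i ≤ a k)
    (hlow : ∃ c > 0, ∃ n1 : ℕ, ∀ n ≥ n1, ∀ M ≥ n, ∀ y, n ≤ 4 * y → 2 * y ≤ n → c * a n ≤ pl n M y)
    (hFL0 : ∀ n M S, 0 ≤ FL n M S) (hFB0 : ∀ n M S, 0 ≤ FB n M S)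
    (hrat : ∀ e > 0, ∃ Λ : ℕ, ∀ n M N j j' : ℕ, 1 ≤ n / N → Λ ≤ N → n ≤ M → Λ ≤ j →
      (j + Λ) * (n / N) ≤ M → Λ ≤ j' → (j' + Λ) * (n / N) ≤ n →
      (∑ k ∈ range (n / N), pl n M (j * (n / N) + k)) * FB n M (intArc n N j') ≤
        (1 + e) * (FL n M (intArc n N j) * ∑ k ∈ range (n / N), pb n M (j' * (n / N) + k)) ∧
      (∑ k ∈ range (n / N), pb n M (j' * (n / N) + k)) * FL n M (intArc n N j) ≤
        (1 + e) * (FB n M (intArc n N j') * ∑ k ∈ range (n / N), pl n M (j * (n / N) + k)))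
    (htouch : ∃ J0 : ℕ, ∀ N J : ℕ, J0 ≤ N → ∃ c > 0, ∃ n0 : ℕ, ∀ n ≥ n0, ∀ M, (J + J0) * n ≤ M →
      ∀ j, J0 ≤ j → j ≤ J → c ≤ FL n M (intArc n N j)) :
    Macro q FL FB := by
  intro e he
  have hs1 : 1 ≤ √q := by rw [Real.one_le_sqrt]; exact hq
  have hs2 : √q ≤ 2 := by
    rw [Real.sqrt_le_left (by norm_num)]; linarith
  obtain ⟨c, hc, n1, hlow⟩ := hlow
  obtain ⟨J0, htouch⟩ := htouch
  obtain ⟨e3, he3, he3', he3''⟩ : ∃ e3 : ℝ, 0 < e3 ∧ e3 ≤ e / 8 ∧ e3 ≤ 1 / 8 :=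
    ⟨min (e / 8) (1 / 8), lt_min (by linarith) (by norm_num), min_le_left _ _, min_le_right _ _⟩
  obtain ⟨Λ, hrat⟩ := hrat e3 he3
  set s := √q with hs
  set θ := s / (1 + s) with hθ
  have hθ0 : 0 ≤ θ := by rw [hθ]; positivity
  have hθ1 : θ < 1 := by rw [hθ, div_lt_one (by linarith)]; linarith
  have he' : 0 < e3 * c / 64 := by positivity
  obtain ⟨ℓ0, hℓ01, hℓ0⟩ := heps (e3 * c / 64) he'
  obtain ⟨ℓ1, hℓ11, hℓ1⟩ := heps (e3 * c / 64 * a 1 / 3) (by have := ha 1; positivity)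
  obtain ⟨K0, hK0⟩ := exists_pow_lt_of_lt_one (show 0 < e3 * c / 224 by positivity) hθ1
  obtain ⟨ℓ, hℓ4, hℓℓ⟩ : ∃ ℓ : ℕ, 4 ≤ ℓ ∧ ℓ0 ≤ ℓ := ⟨max 4 ℓ0, le_max_left _ _, le_max_right _ _⟩
  have hℓR : (4 : ℝ) ≤ ℓ := by exact_mod_cast hℓ4
  refine ⟨1 / (3 * ℓ), by positivity, 2 * K0 + 3, fun d hd hd0 L hL => ?_⟩
  have hdℓ : d * ℓ ≤ 1 / 3 := by
    rw [lt_div_iff₀ (by positivity)] at hd0
    linarith
  have hd12 : d ≤ 1 / 12 := by nlinarith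
  have hK0R : (0 : ℝ) ≤ K0 := Nat.cast_nonneg _
  have hL3 : 3 ≤ L := by linarith
  refine ⟨3 * ℓ + J0 + Λ + ⌈((Λ : ℝ) + J0) / d⌉₊, fun N hN => ?_⟩
  have hN1 : 3 * ℓ ≤ N := by omega
  have hN2 : J0 ≤ N := by omega
  have hN3 : Λ ≤ N := by omega
  have hN4 : (Λ : ℝ) + J0 ≤ d * N := by
    have t1 : ⌈((Λ : ℝ) + J0) / d⌉₊ ≤ N := by omega
    have t2 : ((Λ : ℝ) + J0) / d ≤ N := (Nat.le_ceil _).trans (by exact_mod_cast t1)
    rw [div_le_iff₀ hd] at t2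
    linarith
  have hNR : 3 * (ℓ : ℝ) ≤ N := by exact_mod_cast hN1
  have hN0 : 0 < N := by omega
  have hN0R : (0 : ℝ) < N := by exact_mod_cast hN0
  obtain ⟨c', hc', n2, htouch⟩ := htouch N ⌊L * N⌋₊ hN2
  refine ⟨n1 + n2 + ℓ1 + 3 * (ℓ * N) + N + ⌈L * N⌉₊ + 2,
    ⌈L⌉₊ + Λ + ⌊L * N⌋₊ + J0 + 2 * K0 + 3, c', hc', fun n hn M hM => ?_⟩
  have hn1 : n1 ≤ n := by omega
  have hn2 : n2 ≤ n := by omega
  have hn3 : ℓ1 ≤ n := by omega
  have hn4 : 3 * (ℓ * N) ≤ n := by omega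
  have hn5 : N ≤ n := by omega
  have hn6 : ⌈L * N⌉₊ ≤ n := by omega
  have hn7 : 2 ≤ n := by omega
  have hn4R : 3 * ((ℓ : ℝ) * N) ≤ n := by exact_mod_cast hn4
  have hn6R : L * N ≤ n := (Nat.le_ceil _).trans (by exact_mod_cast hn6)
  have hn7R : (2 : ℝ) ≤ n := by exact_mod_cast hn7
  have hMn : n ≤ M := by nlinarith
  have hM1 : (⌈L⌉₊ + Λ) * n ≤ M := by
    refine le_trans (Nat.mul_le_mul_right n ?_) hM
    omega
  have hM2 : (⌊L * N⌋₊ + J0) * n ≤ M := by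
    refine le_trans (Nat.mul_le_mul_right n ?_) hM
    omega
  have hM3 : (2 * K0 + 3) * n ≤ M := by
    refine le_trans (Nat.mul_le_mul_right n ?_) hM
    omega
  have hM1R : (L + Λ) * n ≤ M := by
    have t1 : ((⌈L⌉₊ : ℝ) + Λ) * n ≤ M := by exact_mod_cast hM1
    have t2 : (L + Λ) * n ≤ ((⌈L⌉₊ : ℝ) + Λ) * n :=
      mul_le_mul_of_nonneg_right (by have := Nat.le_ceil L; linarith) (by linarith)
    linarith
  have hr1 : 1 ≤ n / N := (Nat.one_le_div_iff hN0).2 hn5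
  set r := n / N with hr
  obtain ⟨⟨j01, j0w, hu, hv, hvM⟩, hwn, hw, cM, cn, cj⟩ := cn_arith n N M ℓ K0 Λ J0 d L hd hdℓ hℓ4 hL hN1
    hN4 hn4R hn6R hn5 hM1R
  rw [← hr] at hu hv hvM hwn hw cM cn
  set j0 := ⌈d * N⌉₊ with hj0
  set j1 := ⌊L * N⌋₊ with hj1
  set w1 := ⌊(1 - d) * N⌋₊ with hw1
  have huw : j0 * r ≤ w1 * r := Nat.mul_le_mul_right r j0w
  have hX0 : 0 < (n : ℝ) * a n := mul_pos (by linarith) (ha n)
  have hS : ∑ r ∈ Icc 1 (n / ℓ), a r ≤ e3 * c / 64 * (n * a n) := by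
    refine le_trans ?_ (hℓ0 n (by omega))
    exact Finset.sum_le_sum_of_subset_of_nonneg
      (Finset.Icc_subset_Icc_right (Nat.div_le_div_left hℓℓ hℓ01)) fun y _ _ => (ha y).le
  have h3 : 3 ≤ e3 * c / 64 * (n * a n) := by
    have t1 := hℓ1 n (by omega)
    have t2 : a 1 ≤ ∑ r ∈ Icc 1 (n / ℓ1), a r := by
      refine Finset.single_le_sum (f := a) (fun i _ => (ha i).le) ?_
      rw [Finset.mem_Icc]
      exact ⟨le_rfl, (Nat.one_le_div_iff (by omega)).2 hn3⟩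
    have t3 : a 1 * 3 ≤ a 1 * (e3 * c / 64 * (n * a n)) := by
      have := t2.trans t1
      nlinarith
    exact le_of_mul_le_mul_left t3 (ha 1)
  have main := cn_main s θ hs1 hs2 hθ a ha (pl n M) (pb n M) (pT n M) n M K0 ℓ (j0 * r) (j1 * r)
    (w1 * r) (e3 * c / 64) (by omega) hℓ4 hS h3 (fun y => (hpl n M y).1) (fun y => (hpl n M y).2)
    (hpb0 n M) (hpT0 n M) (hsum n M (by omega) (by omega)) (fun y h1 h2 => hple n M y (by omega) h1 h2)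
    (fun y K h1 h2 => hpfar n M y K n (by omega) (by omega) h1 h2)
    (fun i hi => hpT n M i K0 n (by omega) (by omega) hi (by nlinarith))
    (fun i k h1 h2 h3 => hpb n M i k h1 h2 h3 (by omega)) hu hv hvM huw hwn hw hMn
  have hlo := cn_low (pl n M) (c * a n) (mul_nonneg hc.le (ha n).le) n (j0 * r) (j1 * r) hn7
    (by have := Nat.div_le_div_left hℓ4 (by norm_num) (a := n); omega) (by omega)
    (fun y => (hpl n M y).1) (hlow n hn1 M hMn)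
  have hEL0 : 0 < ∑ y ∈ Ico (j0 * r) (j1 * r), pl n M y := by
    refine lt_of_lt_of_le ?_ hlo
    have := ha n
    have : (0 : ℝ) < n := by linarith
    positivity
  have main' : |∑ y ∈ Ico (j0 * r) (w1 * r), pb n M y - s * ∑ y ∈ Ico (j0 * r) (j1 * r), pl n M y| ≤
      e3 * ∑ y ∈ Ico (j0 * r) (j1 * r), pl n M y := by
    refine main.trans ?_
    have t1 : (14 * θ ^ K0 + 4 * (e3 * c / 64)) * (n * a n) ≤ (e3 * c / 8) * (n * a n) :=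
      mul_le_mul_of_nonneg_right (by linarith) hX0.le
    have t2 := mul_le_mul_of_nonneg_left hlo he3.le
    nlinarith
  have memL : ∀ j ∈ cells d L N, j0 ≤ j ∧ j < j1 := fun j hj => by
    rw [cells, Finset.mem_Ico] at hj; exact hj
  have memB : ∀ j ∈ cells d (1 - d) N, j0 ≤ j ∧ j < w1 := fun j hj => by
    rw [cells, Finset.mem_Ico] at hj; exact hj
  have hratj : ∀ j ∈ cells d L N, ∀ j' ∈ cells d (1 - d) N,
      (∑ k ∈ range r, pl n M (j * r + k)) * FB n M (intArc n N j') ≤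
        (1 + e3) * (FL n M (intArc n N j) * ∑ k ∈ range r, pb n M (j' * r + k)) ∧
      (∑ k ∈ range r, pb n M (j' * r + k)) * FL n M (intArc n N j) ≤
        (1 + e3) * (FB n M (intArc n N j') * ∑ k ∈ range r, pl n M (j * r + k)) := by
    intro j hj j' hj'
    obtain ⟨b1, b2⟩ := memL j hj
    obtain ⟨b3, b4⟩ := memB j' hj'
    exact hrat n M N j j' hr1 hN3 hMn (cj j b1).1 (cM j b2) (cj j' b3).1 (cn j' b4)
  have eL : ∑ j ∈ cells d L N, ∑ k ∈ range r, pl n M (j * r + k) =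
      ∑ y ∈ Ico (j0 * r) (j1 * r), pl n M y := cn_blocks (pl n M) r j0 j1 j01
  have eB : ∑ j ∈ cells d (1 - d) N, ∑ k ∈ range r, pb n M (j * r + k) =
      ∑ y ∈ Ico (j0 * r) (w1 * r), pb n M y := cn_blocks (pb n M) r j0 w1 j0w
  rw [← eL, ← eB] at main'
  rw [← eL] at hEL0
  refine ⟨?_, ?_⟩
  · refine cn_ratio s e e3 _ _ _ _ hs2 he3 he3' he3'' hEL0
      (Finset.sum_nonneg fun j _ => hFL0 _ _ _) main' ?_ ?_
    · rw [Finset.sum_mul_sum, Finset.sum_mul_sum, Finset.mul_sum]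
      refine Finset.sum_le_sum fun j hj => ?_
      rw [Finset.mul_sum]
      exact Finset.sum_le_sum fun j' hj' => (hratj j hj j' hj').1
    · rw [Finset.sum_mul_sum, Finset.sum_mul_sum, Finset.mul_sum]
      refine Finset.sum_le_sum fun j' hj' => ?_
      rw [Finset.mul_sum]
      exact Finset.sum_le_sum fun j hj => (hratj j hj j' hj').2
  · intro j hj
    obtain ⟨b1, b2⟩ := memL j hj
    exact htouch n hn2 M hM2 j (cj j b1).2 b2.le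

end Pool.Agent.IDK
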