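import Pool.Agent.IDK.BDefs

/-! # IDK/CutBasic (MP_b3e76a_pr): elementary properties of the exploration

Tools: FKR/Expl (`mem_Ucl`, `Ucl_seed`, `Ucl_step`, `Ucl_subset_Nx`, `Nx_seed`, `Nx_bdry`, `bdN_Nx_subset`, `Nx_other`, `Nx_stop`), FKR/Faces (`mem_bdN`, `star_sepE`, `inci_of_side`, `star_eh`, `star_ev`, `edgesIn_cases`).
Let `Φ = Fc (2 l + 1)`.
`Val_sub`: a face of `Φ` outside `Fc (2l)` is not in `Ucl` (`Circ`), so not in `Nx` (`Nx_other`). `Val_sup`: `Nx_seed`. `cN_sub`: `bdN_Nx_subset`.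
`cN_XN`: an edge of `cN l N` is `sepE f g`, `f ∈ N ⊆ Fc (2l)`, adjacent faces; its ends are corners of `f`, so it is in `HE (2l)`, and `f ∈ star (sepE f g) = s(f, g)`.
`NN_stop`: `Nx_stop`: for `f ∈ N`, `g ∈ Φ` adjacent, `sepE f g ∈ XN l N` (as before). This also gives equal `Ucl`, hence `Circ l ω'`.
`NN_val`: if `NN l ω = N` and `Val l N` then `Ucl ⊆ Nx = N ⊆ Fc (2l)`, so `Circ l ω`.
`NN_inner`: the edges of `HE (l - 1)` have all their sides in `Fc l` or outside `Φ` (side `(-1, y)`). So if `ω`, `ω'` agree outside of `HE (l-1)`, then `Ucl Φ ω S = Ucl Φ ω' S`, `S f = (f ∈ Fc l)`: on a path of faces starting in `Fc l`, take the last face in `Fc l`;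
the later steps cross edges with a side outside of `Fc l` (in Lean: show `Ucl Φ ω S ⊆ Ucl Φ ω' S` by induction on reachability with `Ucl_step`, `Ucl_seed`: from `f ∈ Ucl ω'` and an adjacent `g` across an edge not in `ω`: if `g ∈ Fc l` use `Ucl_seed`; if `g ∉ Fc l`
the edge is not in `HE (l-1)`, so not in `ω'`). `Nx` only depends on `Ucl` (unfold).
`cN_vts`: an edge of `cN l N` has a side `g ∉ N`, `g ∈ Φ`; if one of its ends `v` were in `HB (l - 1)`, all faces at `v` with nonnegative first coordinate would be in `Fc l ⊆ N`, in particular `g`. `cN_ne`: walk from the face `(0, 0) ∈ Fc l ⊆ N` to `(2l, 0) ∈ Φ \\ N` along the row: there is an adjacent pair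
`(i, 0) ∈ N`, `(i + 1, 0) ∉ N`. `HE_XN`: an edge of `HE l` has a side in `Fc l ⊆ N`. -/

namespace Pool.Agent.IDK

open Finset
open Pool.Agent.FKR
open Pool.Agent.H95.Perc (Inc conn link rect hor ver eh ev sumE sepE Inci mem_rect)
open Pool.Agent.H95.SumRule (edgesIn Z2)

variable {q : ℝ}

theorem mem_Fc {L : ℤ} {f : ℤ × ℤ} : f ∈ Fc L ↔ 0 ≤ f.1 ∧ f.1 ≤ L - 1 ∧ -L ≤ f.2 ∧ f.2 ≤ L - 1 := by
  unfold Fc
  rw [mem_rect]

theorem Val_sub {l : ℤ} {N : Finset (ℤ × ℤ)} (h : Val l N) : N ⊆ Fc (2 * l) := by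
  obtain ⟨ω, h1, rfl⟩ := h
  intro f hf
  by_contra hc
  have hf' : f ∈ Fc (2 * l + 1) := Nx_subset hf
  exact Nx_other hf' hc (fun hu => hc (h1 f hu)) hf

theorem Val_sup {l : ℤ} (hl : 1 ≤ l) {N : Finset (ℤ × ℤ)} (h : Val l N) : Fc l ⊆ N := by
  obtain ⟨ω, h1, rfl⟩ := h
  intro f hf
  refine Nx_seed ?_ hf
  rw [mem_Fc] at hf ⊢
  omega

theorem cN_sub {l : ℤ} {ω : Finset (Sym2 (ℤ × ℤ))} : cN l (NN l ω) ⊆ ω := bdN_Nx_subset

private theorem adj_split' {f g : ℤ × ℤ} (h : Z2.Adj f g) : ∃ x y,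
    (s(f, g) = ev x (y - 1) ∧ sepE f g = eh x y) ∨ (s(f, g) = eh (x - 1) y ∧ sepE f g = ev x y) := by
  have h1 := star_sepE h
  have h2 : ∃ x y, sepE f g = eh x y ∨ sepE f g = ev x y := by
    unfold sepE
    split_ifs with h3
    · exact ⟨f.1, max f.2 g.2, Or.inl rfl⟩
    · exact ⟨max f.1 g.1, f.2, Or.inr rfl⟩
  obtain ⟨x, y, h3 | h3⟩ := h2
  · exact ⟨x, y, Or.inl ⟨by rw [← h1, h3, star_eh], h3⟩⟩
  · exact ⟨x, y, Or.inr ⟨by rw [← h1, h3, star_ev], h3⟩⟩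

/-- the edges around a face of `Fc L` are in `HE L` -/
private theorem sepE_HE {L : ℤ} {f g : ℤ × ℤ} (h : Z2.Adj f g) (hf : f ∈ Fc L) :
    sepE f g ∈ HE L := by
  have hf0 : f ∈ s(f, g) := Sym2.mem_mk_left f g
  rw [mem_Fc] at hf
  unfold HE HB
  obtain ⟨x, y, ⟨h1, h2⟩ | ⟨h1, h2⟩⟩ := adj_split' h
  · rw [h1, mem_ev] at hf0
    rw [h2, eh_mem_edgesIn_rect]
    rcases hf0 with rfl | rfl <;> simp only at hf <;> omega
  · rw [h1, mem_eh] at hf0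
    rw [h2, ev_mem_edgesIn_rect]
    rcases hf0 with rfl | rfl <;> simp only at hf <;> omega

private theorem sepE_XN {l : ℤ} {N : Finset (ℤ × ℤ)} (h : Val l N) {f g : ℤ × ℤ}
    (ha : Z2.Adj f g) (hf : f ∈ N) : sepE f g ∈ XN l N := by
  classical
  unfold XN
  rw [mem_filter]
  refine ⟨sepE_HE ha (Val_sub h hf), f, hf, ?_⟩
  rw [star_sepE ha]
  exact Sym2.mem_mk_left f g

theorem cN_XN {l : ℤ} {N : Finset (ℤ × ℤ)} (h : Val l N) : cN l N ⊆ XN l N := by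
  intro e he
  obtain ⟨f, g, hf, hg, hg', ha, rfl⟩ := mem_bdN.1 he
  exact sepE_XN h ha hf

theorem XN_HE {l : ℤ} {N : Finset (ℤ × ℤ)} : XN l N ⊆ HE (2 * l) := by
  classical
  unfold XN
  exact filter_subset _ _

theorem HE_XN {l : ℤ} (hl : 1 ≤ l) {N : Finset (ℤ × ℤ)} (h : Val l N) : HE l ⊆ XN l N := by
  classical
  intro e he
  have hs := Val_sup hl h
  unfold HE HB at he
  unfold XN
  rw [mem_filter]
  unfold HE HB
  obtain ⟨x, y, rfl | rfl⟩ := edgesIn_cases he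
  · rw [eh_mem_edgesIn_rect] at he
    refine ⟨eh_mem_edgesIn_rect.2 (by omega), ?_⟩
    unfold touch
    by_cases hy : y ≤ l - 1
    · exact ⟨(x, y), hs (mem_Fc.2 (by simp only; omega)), by rw [star_eh, mem_ev]; right; simp⟩
    · exact ⟨(x, y - 1), hs (mem_Fc.2 (by simp only; omega)), by rw [star_eh, mem_ev]; left; rfl⟩
  · rw [ev_mem_edgesIn_rect] at he
    refine ⟨ev_mem_edgesIn_rect.2 (by omega), ?_⟩
    unfold touch
    by_cases hx : x ≤ l - 1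
    · exact ⟨(x, y), hs (mem_Fc.2 (by simp only; omega)), by rw [star_ev, mem_eh]; right; simp⟩
    · exact ⟨(x - 1, y), hs (mem_Fc.2 (by simp only; omega)), by rw [star_ev, mem_eh]; left; rfl⟩

theorem NN_stop {l : ℤ} {N : Finset (ℤ × ℤ)} {ω ω' : Finset (Sym2 (ℤ × ℤ))} (h : Circ l ω)
    (hN : NN l ω = N) (hs : ω ∩ XN l N = ω' ∩ XN l N) : Circ l ω' ∧ NN l ω' = N := by
  have hv : Val l N := ⟨ω, h, hN⟩
  have key := Nx_stop (Φ := Fc (2 * l + 1)) (κ := ω) (κ' := ω') (S := fun f => f ∈ Fc l)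
    (S' := fun f => f ∉ Fc (2 * l)) (by
      intro f hf g hg ha
      have hf' : f ∈ N := by rw [← hN]; exact hf
      have hX := sepE_XN hv ha hf'
      constructor
      · intro h1
        have h2 : sepE f g ∈ ω ∩ XN l N := mem_inter.2 ⟨h1, hX⟩
        rw [hs] at h2
        exact (mem_inter.1 h2).1
      · intro h1
        have h2 : sepE f g ∈ ω' ∩ XN l N := mem_inter.2 ⟨h1, hX⟩
        rw [← hs] at h2
        exact (mem_inter.1 h2).1)
  refine ⟨?_, ?_⟩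
  · intro f hf
    rw [key.1] at hf
    exact h f hf
  · rw [← hN]
    exact key.2

theorem NN_val {l : ℤ} {N : Finset (ℤ × ℤ)} {ω : Finset (Sym2 (ℤ × ℤ))} (h : Val l N)
    (hN : NN l ω = N) : Circ l ω := by
  intro f hf
  apply Val_sub h
  rw [← hN]
  exact Ucl_subset_Nx hf

private theorem side_in {l : ℤ} {e : Sym2 (ℤ × ℤ)} (he : e ∈ HE (l - 1)) {f : ℤ × ℤ}
    (hf : f ∈ star e) (hΦ : f ∈ Fc (2 * l + 1)) : f ∈ Fc l := by
  rw [mem_Fc] at hΦ ⊢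
  unfold HE HB at he
  obtain ⟨x, y, rfl | rfl⟩ := edgesIn_cases he
  · rw [eh_mem_edgesIn_rect] at he
    rw [star_eh, mem_ev] at hf
    rcases hf with rfl | rfl <;> simp only at hΦ ⊢ <;> omega
  · rw [ev_mem_edgesIn_rect] at he
    rw [star_ev, mem_eh] at hf
    rcases hf with rfl | rfl <;> simp only at hΦ ⊢ <;> omega

private theorem Ucl_inner {l : ℤ} {ω ω' : Finset (Sym2 (ℤ × ℤ))}
    (h : ω \ HE (l - 1) = ω' \ HE (l - 1)) :
    Ucl (Fc (2 * l + 1)) ω (fun f => f ∈ Fc l) ⊆ Ucl (Fc (2 * l + 1)) ω' (fun f => f ∈ Fc l) := by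
  intro f hf
  obtain ⟨hfΦ, s, hs, hS, hr⟩ := mem_Ucl.1 hf
  rw [SimpleGraph.reachable_iff_reflTransGen] at hr
  clear hf hfΦ
  induction hr with
  | refl => exact Ucl_seed hs hS
  | @tail a b _ hab ih =>
    obtain ⟨h1, h2, h3, h4⟩ := dG_adj.1 hab
    by_cases hb : b ∈ Fc l
    · exact Ucl_seed h2 hb
    · refine Ucl_step ih h2 h3 fun h5 => ?_
      have h6 : sepE a b ∉ HE (l - 1) := by
        intro h7
        exact hb (side_in h7 (by rw [star_sepE h3]; exact Sym2.mem_mk_right a b) h2)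
      have h8 : sepE a b ∈ ω' \ HE (l - 1) := mem_sdiff.2 ⟨h5, h6⟩
      rw [← h] at h8
      exact h4 (mem_sdiff.1 h8).1

theorem NN_inner {l : ℤ} {ω ω' : Finset (Sym2 (ℤ × ℤ))} (h : ω \ HE (l - 1) = ω' \ HE (l - 1)) :
    NN l ω = NN l ω' ∧ (Circ l ω ↔ Circ l ω') := by
  have hU := (Ucl_inner h).antisymm (Ucl_inner h.symm)
  refine ⟨?_, ?_⟩
  · unfold NN Nx
    rw [hU]
  · unfold Circ
    rw [hU]

theorem cN_vts {l : ℤ} (hl : 1 ≤ l) {N : Finset (ℤ × ℤ)} (h : Val l N) {v : ℤ × ℤ}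
    (hv : v ∈ vts (cN l N)) : v ∈ HB (2 * l) ∧ v ∉ HB (l - 1) := by
  obtain ⟨e, he, hve⟩ := mem_vts.1 hv
  have heH : e ∈ HE (2 * l) := XN_HE (cN_XN h he)
  refine ⟨?_, fun hc => ?_⟩
  · exact vts_edgesIn _ (mem_vts.2 ⟨e, heH, hve⟩)
  · obtain ⟨f, g, hf, hg, hg', ha, rfl⟩ := mem_bdN.1 he
    have hi := inci_of_side heH (f := g) (by rw [star_sepE ha]; exact Sym2.mem_mk_right f g) hve
    apply hg'
    apply Val_sup hl h
    unfold HB at hc
    rw [mem_rect] at hc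
    rw [mem_Fc] at hg ⊢
    unfold Inci at hi
    omega

theorem cN_ne {l : ℤ} (hl : 1 ≤ l) {N : Finset (ℤ × ℤ)} (h : Val l N) : ∃ v, v ∈ vts (cN l N) := by
  have h0 : ((0 : ℤ), (0 : ℤ)) ∈ N := Val_sup hl h (mem_Fc.2 (by simp only; omega))
  have h1 : ((2 * l : ℤ), (0 : ℤ)) ∉ N := by
    intro hc
    have := mem_Fc.1 (Val_sub h hc)
    simp only at this
    omega
  have h2 : ∃ i : ℤ, 0 ≤ i ∧ i + 1 ≤ 2 * l ∧ (i, (0 : ℤ)) ∈ N ∧ (i + 1, (0 : ℤ)) ∉ N := by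
    by_contra hc
    push Not at hc
    have h3 : ∀ k : ℕ, (k : ℤ) ≤ 2 * l → ((k : ℤ), (0 : ℤ)) ∈ N := by
      intro k
      induction k with
      | zero => intro _; exact h0
      | succ k ih =>
        intro hk
        push_cast at hk ⊢
        exact hc k (by omega) hk (ih (by omega))
    have h4 := h3 (2 * l).toNat (by omega)
    rw [Int.toNat_of_nonneg (by omega)] at h4
    exact h1 h4
  obtain ⟨i, hi0, hi1, hi2, hi3⟩ := h2
  have ha : Z2.Adj (i, (0 : ℤ)) (i + 1, (0 : ℤ)) := by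
    rw [Z2_adj_iff]
    right; exact ⟨rfl, Or.inr rfl⟩
  have he : sepE (i, (0 : ℤ)) (i + 1, (0 : ℤ)) ∈ cN l N :=
    mem_bdN.2 ⟨_, _, hi2, mem_Fc.2 (by simp only; omega), hi3, ha, rfl⟩
  refine ⟨(sepE (i, (0 : ℤ)) (i + 1, (0 : ℤ))).out.1, mem_vts.2 ⟨_, he, Sym2.out_fst_mem _⟩⟩

theorem mem_VN {l : ℤ} {N : Finset (ℤ × ℤ)} : N ∈ VN l ↔ Val l N := by
  classical
  unfold VN
  rw [mem_filter, mem_powerset]
  exact ⟨fun h => h.2, fun h => ⟨Val_sub h, h⟩⟩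

end Pool.Agent.IDK
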