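import Pool.Agent.IDK.CutBasic
import Pool.Agent.FKR.RectDual
import Pool.Agent.FKR.EvenGraph

/-! # IDK/CutConn (MP_b3e76a_pr): the half circuit is connected

Write `c = cN l N`, `Φ = Fc (2l+1)`, `σ (x, y) = (-x, y)` on vertices, `K = 2 l + 2`, `A = edgesIn (rect (-K) K (-K) K)`. Fix `x0 ∈ vts c` and let `B1` be the set of edges of `c` with an end `u`, `Cn c x0 u` (then both ends). Claim: `B1 = c`, which gives the statement.
(1) Let `U = N ∪ {(-x - 1, y) : (x, y) ∈ N}` and `bd U` as in FKR/Faces. `bd U = c ∪ img σ c`: `eh x y` with `x ≥ 0` and `ev x y` with `x ≥ 1` have both sides with nonnegative first coordinate, where `U` is `N`, and a face adjacent to `N ⊆ Fc (2l)` with nonnegative first coordinate is in `Φ`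
(`eh_mem_bd`, `ev_mem_bd`, `mem_bdN`); `ev 0 y` has the sides `(-1, y)`, `(0, y)`, both in `U` or both not, and is not in `c`; `x < 0` by symmetry.
(2) `G = B1 ∪ img σ B1` has even degree at every vertex `v`: if `v.1 > 0` the edges of `bd U` at `v` are the edges of `c` at `v`, and they are all in `B1` (if `Cn c x0 v`) or none is; the same for `v.1 < 0` by symmetry; if `v.1 = 0` the edges of `bd U` at `v` are those of `c` at `v` and their images, again all
in `G` or none. So `(G.filter (v ∈ ·))` is `(bd U).filter (v ∈ ·)` or empty: `even_bd`.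
(3) Let `e = s(x, y) ∈ B1`, `e = sepE f g`, `f ∈ N`, `g ∈ Φ \\ N`. `even_connect`: `Cn (G.erase e) x y`. `DualPair.h2` for `rect_dualPair` (`-K < K`), `ω = G.erase e`: `¬ Cn (((A \\ ω).erase e).image star ∪ ring ..) f g` where `(A \\ ω).erase e = A \\ G`, `star e = s(f, g)` (`star_sepE`).
(4) Suppose `e' = sepE f' g' ∈ c`, `e' ∉ B1`, `f' ∈ N`, `g' ∈ Φ \\ N`. In `D = (A \\ G).image star ∪ ring ..` we connect `f` to `g`, a contradiction. Crossing an edge `e''` with both sides in `Φ` and `e'' ∉ B1` is a step of `D`: `star e'' ∈ (A \\ G).image star` (`e'' ∉ img σ c` because the edges of `img σ c` are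
`eh x y` or `ev x y` with `x ≤ -1`). So `(dG Φ c).Reachable f1 f2` implies `Cn D f1 f2`. Now `f` is reachable in `dG Φ c` from some `f0 ∈ Fc l` (`Nx_conn`, `N = NN l ω`), `f'` from some `f0' ∈ Fc l`, and `f0`, `f0'` are connected inside the rectangle `Fc l ⊆ N` (no edge of `c` has both sides in `N`).
`g`, `g'` are reachable in `dG Φ c` from faces `g0, g0' ∈ Φ \\ Fc (2l)` (`Nx_conn'`), and `Φ \\ Fc (2l)` (the faces with first coordinate `2l` or second coordinate `2l` or `-2l-1`) is connected by adjacent faces (no edge of `c` has both sides outside `N`). Finally `f'` and `g'` are joined across `e'`. -/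

namespace Pool.Agent.IDK

open Finset
open Pool.Agent.FKR
open Pool.Agent.H95.Perc (Inc conn link rect hor ver eh ev sumE sepE Inci mem_rect)
open Pool.Agent.H95.SumRule (edgesIn Z2)

variable {q : ℝ}

/-- two adjacent faces and the edge between them -/
private theorem cc_split {f g : ℤ × ℤ} (h : Z2.Adj f g) : ∃ x y,
    (sepE f g = eh x y ∧ ((f = (x, y - 1) ∧ g = (x, y)) ∨ (f = (x, y) ∧ g = (x, y - 1)))) ∨
    (sepE f g = ev x y ∧ ((f = (x - 1, y) ∧ g = (x, y)) ∨ (f = (x, y) ∧ g = (x - 1, y)))) := by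
  obtain ⟨a, b⟩ := f
  obtain ⟨c, d⟩ := g
  rw [Z2_adj_iff] at h
  rcases h with ⟨rfl, rfl | rfl⟩ | ⟨rfl, rfl | rfl⟩
  · refine ⟨a, d + 1, Or.inl ⟨?_, Or.inr ⟨rfl, by rw [add_sub_cancel_right]⟩⟩⟩
    have := Pool.Agent.H95.Perc.sepE_h' (a := a) (b := d + 1)
    rw [add_sub_cancel_right] at this
    rw [this, eh]
  · refine ⟨a, b + 1, Or.inl ⟨?_, Or.inl ⟨by rw [add_sub_cancel_right], rfl⟩⟩⟩
    have := Pool.Agent.H95.Perc.sepE_h (a := a) (b := b + 1)
    rw [add_sub_cancel_right] at this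
    rw [this, eh]
  · refine ⟨c + 1, b, Or.inr ⟨?_, Or.inr ⟨rfl, by rw [add_sub_cancel_right]⟩⟩⟩
    have := Pool.Agent.H95.Perc.sepE_v (a := c + 1) (b := b)
    rw [add_sub_cancel_right] at this
    rw [this, ev]
  · refine ⟨a + 1, b, Or.inr ⟨?_, Or.inl ⟨by rw [add_sub_cancel_right], rfl⟩⟩⟩
    have := Pool.Agent.H95.Perc.sepE_v' (a := a + 1) (b := b)
    rw [add_sub_cancel_right] at this
    rw [this, ev]

private theorem cc_eh {l : ℤ} {N : Finset (ℤ × ℤ)} (hN : N ⊆ Fc (2 * l)) {x y : ℤ} :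
    eh x y ∈ cN l N ↔ ¬ ((x, y - 1) ∈ N ↔ (x, y) ∈ N) := by
  unfold cN
  rw [mem_bdN]
  constructor
  · rintro ⟨f, g, hf, hg, hg', hadj, he⟩
    obtain ⟨x', y', ⟨h1, h2⟩ | ⟨h1, h2⟩⟩ := cc_split hadj
    · rw [h1, eh_inj] at he
      obtain ⟨rfl, rfl⟩ := he
      rcases h2 with ⟨rfl, rfl⟩ | ⟨rfl, rfl⟩ <;> tauto
    · rw [h1] at he
      exact absurd he eh_ne_ev
  · intro h
    by_cases h1 : (x, y - 1) ∈ N
    · have h2 : (x, y) ∉ N := by tauto
      refine ⟨(x, y - 1), (x, y), h1, ?_, h2, ?_, ?_⟩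
      · have h3 := mem_Fc.1 (hN h1)
        rw [mem_Fc]
        simp only at h3 ⊢
        omega
      · rw [Z2_adj_iff]; omega
      · rw [Pool.Agent.H95.Perc.sepE_h, eh]
    · have h2 : (x, y) ∈ N := by tauto
      refine ⟨(x, y), (x, y - 1), h2, ?_, h1, ?_, ?_⟩
      · have h3 := mem_Fc.1 (hN h2)
        rw [mem_Fc]
        simp only at h3 ⊢
        omega
      · rw [Z2_adj_iff]; omega
      · rw [Pool.Agent.H95.Perc.sepE_h', eh]

private theorem cc_ev {l : ℤ} {N : Finset (ℤ × ℤ)} (hN : N ⊆ Fc (2 * l)) {x y : ℤ} :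
    ev x y ∈ cN l N ↔ 1 ≤ x ∧ ¬ ((x - 1, y) ∈ N ↔ (x, y) ∈ N) := by
  unfold cN
  rw [mem_bdN]
  constructor
  · rintro ⟨f, g, hf, hg, hg', hadj, he⟩
    obtain ⟨x', y', ⟨h1, h2⟩ | ⟨h1, h2⟩⟩ := cc_split hadj
    · rw [h1] at he
      exact absurd he.symm eh_ne_ev
    · rw [h1, ev_inj] at he
      obtain ⟨rfl, rfl⟩ := he
      have h3 := mem_Fc.1 (hN hf)
      rw [mem_Fc] at hg
      rcases h2 with ⟨rfl, rfl⟩ | ⟨rfl, rfl⟩
      · refine ⟨?_, by tauto⟩
        simp only at h3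
        omega
      · refine ⟨?_, by tauto⟩
        simp only at hg
        omega
  · rintro ⟨h0, h⟩
    by_cases h1 : (x - 1, y) ∈ N
    · have h2 : (x, y) ∉ N := by tauto
      refine ⟨(x - 1, y), (x, y), h1, ?_, h2, ?_, ?_⟩
      · have h3 := mem_Fc.1 (hN h1)
        rw [mem_Fc]
        simp only at h3 ⊢
        omega
      · rw [Z2_adj_iff]; omega
      · rw [Pool.Agent.H95.Perc.sepE_v', ev]
    · have h2 : (x, y) ∈ N := by tauto
      refine ⟨(x, y), (x - 1, y), h2, ?_, h1, ?_, ?_⟩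
      · have h3 := mem_Fc.1 (hN h2)
        rw [mem_Fc]
        simp only at h3 ⊢
        omega
      · rw [Z2_adj_iff]; omega
      · rw [Pool.Agent.H95.Perc.sepE_v, ev]

/-- the doubled set of faces -/
private noncomputable def dbl (N : Finset (ℤ × ℤ)) : Finset (ℤ × ℤ) :=
  N ∪ N.image fun f => (-f.1 - 1, f.2)

private theorem mem_dbl {N : Finset (ℤ × ℤ)} {x y : ℤ} :
    (x, y) ∈ dbl N ↔ (x, y) ∈ N ∨ (-x - 1, y) ∈ N := by
  unfold dbl
  rw [mem_union, mem_image]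
  constructor
  · rintro (h | ⟨⟨a, b⟩, h, he⟩)
    · exact Or.inl h
    · right
      rw [Prod.mk.injEq] at he
      obtain ⟨h1, h2⟩ := he
      simp only at h1 h2
      have : a = -x - 1 := by omega
      rw [← this, ← h2]
      exact h
  · rintro (h | h)
    · exact Or.inl h
    · refine Or.inr ⟨_, h, ?_⟩
      rw [Prod.mk.injEq]
      constructor
      · simp only; omega
      · rfl

private theorem mem_dbl_nonneg {l : ℤ} {N : Finset (ℤ × ℤ)} (hN : N ⊆ Fc (2 * l)) {x y : ℤ}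
    (hx : 0 ≤ x) : (x, y) ∈ dbl N ↔ (x, y) ∈ N := by
  rw [mem_dbl]
  constructor
  · rintro (h | h)
    · exact h
    · have h3 := mem_Fc.1 (hN h)
      simp only at h3
      omega
  · exact Or.inl

private theorem mem_dbl_neg {l : ℤ} {N : Finset (ℤ × ℤ)} (hN : N ⊆ Fc (2 * l)) {x y : ℤ}
    (hx : x < 0) : (x, y) ∈ dbl N ↔ (-x - 1, y) ∈ N := by
  rw [mem_dbl]
  constructor
  · rintro (h | h)
    · have h3 := mem_Fc.1 (hN h)
      simp only at h3
      omega
    · exact h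
  · exact Or.inr

/-- folding -/
private def fo (p : ℤ × ℤ) : ℤ × ℤ := (|p.1|, p.2)

private theorem fo_nonneg {p : ℤ × ℤ} (h : 0 ≤ p.1) : fo p = p := by
  unfold fo
  rw [abs_of_nonneg h]

private theorem fo_eh_nonneg {x y : ℤ} (hx : 0 ≤ x) : (eh x y).map fo = eh x y := by
  unfold eh
  rw [Sym2.map_mk, fo_nonneg (by simp only; omega), fo_nonneg (by simp only; omega)]

private theorem fo_eh_neg {x y : ℤ} (hx : x < 0) : (eh x y).map fo = eh (-x - 1) y := by
  unfold eh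
  rw [Sym2.map_mk, Sym2.eq_swap]
  unfold fo
  simp only
  rw [abs_of_neg hx, abs_of_nonpos (by omega)]
  congr 2
  · omega
  · omega

private theorem fo_ev_nonneg {x y : ℤ} (hx : 0 ≤ x) : (ev x y).map fo = ev x y := by
  unfold ev
  rw [Sym2.map_mk, fo_nonneg (by simp only; omega), fo_nonneg (by simp only; omega)]

private theorem fo_ev_neg {x y : ℤ} (hx : x < 0) : (ev x y).map fo = ev (-x) y := by
  unfold ev
  rw [Sym2.map_mk]
  unfold fo
  simp only
  rw [abs_of_neg hx]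

/-- the folded boundary edges are edges of the half circuit -/
private theorem fold_mem {l : ℤ} {N : Finset (ℤ × ℤ)} (hN : N ⊆ Fc (2 * l)) {e : Sym2 (ℤ × ℤ)}
    (he : e ∈ bd (dbl N)) : e.map fo ∈ cN l N := by
  obtain ⟨x, y, rfl | rfl⟩ := bd_cases he
  · rw [eh_mem_bd] at he
    by_cases hx : 0 ≤ x
    · rw [mem_dbl_nonneg hN hx, mem_dbl_nonneg hN hx] at he
      rw [fo_eh_nonneg hx, cc_eh hN]
      exact he
    · rw [mem_dbl_neg hN (by omega), mem_dbl_neg hN (by omega)] at he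
      rw [fo_eh_neg (by omega), cc_eh hN]
      exact he
  · rw [ev_mem_bd] at he
    by_cases hx : 1 ≤ x
    · rw [mem_dbl_nonneg hN (by omega), mem_dbl_nonneg hN (by omega)] at he
      rw [fo_ev_nonneg (by omega), cc_ev hN]
      exact ⟨hx, he⟩
    · by_cases hx0 : x = 0
      · subst hx0
        rw [mem_dbl_neg hN (by omega), mem_dbl_nonneg hN (by omega)] at he
        exact absurd (by norm_num : ((-(0 - 1) - 1, y) ∈ N ↔ ((0 : ℤ), y) ∈ N)) he
      · rw [mem_dbl_neg hN (by omega), mem_dbl_neg hN (by omega)] at he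
        rw [fo_ev_neg (by omega), cc_ev hN]
        refine ⟨by omega, ?_⟩
        have h1 : (-(x - 1) - 1, y) = ((-x, y) : ℤ × ℤ) := by congr 1; omega
        rw [h1] at he
        exact fun h => he h.symm

private theorem cc_cases {l : ℤ} {N : Finset (ℤ × ℤ)} {e : Sym2 (ℤ × ℤ)} (he : e ∈ cN l N) :
    ∃ x y, e = eh x y ∨ e = ev x y := by
  unfold cN at he
  rw [mem_bdN] at he
  obtain ⟨f, g, -, -, -, hadj, rfl⟩ := he
  obtain ⟨x, y, ⟨h1, -⟩ | ⟨h1, -⟩⟩ := cc_split hadj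
  · exact ⟨x, y, Or.inl h1⟩
  · exact ⟨x, y, Or.inr h1⟩

private theorem cc_sub_bd {l : ℤ} {N : Finset (ℤ × ℤ)} (hN : N ⊆ Fc (2 * l)) {e : Sym2 (ℤ × ℤ)}
    (he : e ∈ cN l N) : e ∈ bd (dbl N) := by
  obtain ⟨x, y, rfl | rfl⟩ := cc_cases he
  · rw [cc_eh hN] at he
    have hx : 0 ≤ x := by
      by_cases h1 : (x, y) ∈ N
      · have h3 := mem_Fc.1 (hN h1)
        simp only at h3
        omega
      · have h2 : (x, y - 1) ∈ N := by tauto
        have h3 := mem_Fc.1 (hN h2)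
        simp only at h3
        omega
    rw [eh_mem_bd, mem_dbl_nonneg hN hx, mem_dbl_nonneg hN hx]
    exact he
  · rw [cc_ev hN] at he
    rw [ev_mem_bd, mem_dbl_nonneg hN (by omega), mem_dbl_nonneg hN (by omega)]
    exact he.2

/-- ends of the edges of the half circuit -/
private theorem cc_end {l : ℤ} {N : Finset (ℤ × ℤ)} (hN : N ⊆ Fc (2 * l)) {e : Sym2 (ℤ × ℤ)}
    (he : e ∈ cN l N) {v : ℤ × ℤ} (hv : v ∈ e) :
    0 ≤ v.1 ∧ v.1 ≤ 2 * l ∧ -(2 * l) ≤ v.2 ∧ v.2 ≤ 2 * l := by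
  obtain ⟨x, y, rfl | rfl⟩ := cc_cases he
  · rw [cc_eh hN] at he
    have hx : 0 ≤ x ∧ x + 1 ≤ 2 * l ∧ -(2 * l) ≤ y ∧ y ≤ 2 * l := by
      by_cases h1 : (x, y) ∈ N
      · have h3 := mem_Fc.1 (hN h1)
        simp only at h3
        omega
      · have h2 : (x, y - 1) ∈ N := by tauto
        have h3 := mem_Fc.1 (hN h2)
        simp only at h3
        omega
    rw [mem_eh] at hv
    rcases hv with rfl | rfl <;> simp only <;> omega
  · rw [cc_ev hN] at he
    obtain ⟨h0, he⟩ := he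
    have hx : x ≤ 2 * l ∧ -(2 * l) ≤ y ∧ y + 1 ≤ 2 * l := by
      by_cases h1 : (x, y) ∈ N
      · have h3 := mem_Fc.1 (hN h1)
        simp only at h3
        omega
      · have h2 : (x - 1, y) ∈ N := by tauto
        have h3 := mem_Fc.1 (hN h2)
        simp only at h3
        omega
    rw [mem_ev] at hv
    rcases hv with rfl | rfl <;> simp only <;> omega

/-- the boundary edges are in the rectangle -/
private theorem bd_sub_rect {l : ℤ} {N : Finset (ℤ × ℤ)} (hN : N ⊆ Fc (2 * l)) :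
    bd (dbl N) ⊆ edgesIn (rect (-(2 * l + 2)) (2 * l + 2) (-(2 * l + 2)) (2 * l + 2)) := by
  intro e he
  have h1 := fold_mem hN he
  have h2 : ∀ v ∈ e, -(2 * l) ≤ v.1 ∧ v.1 ≤ 2 * l ∧ -(2 * l) ≤ v.2 ∧ v.2 ≤ 2 * l := by
    intro v hv
    have h3 := cc_end hN h1 (Sym2.mem_map.2 ⟨v, hv, rfl⟩)
    unfold fo at h3
    simp only at h3
    obtain ⟨-, h4, h5, h6⟩ := h3
    rw [abs_le] at h4
    exact ⟨h4.1, h4.2, h5, h6⟩
  obtain ⟨x, y, rfl | rfl⟩ := bd_cases he
  · have h3 := h2 _ (mem_eh.2 (Or.inl rfl))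
    have h4 := h2 _ (mem_eh.2 (Or.inr rfl))
    simp only at h3 h4
    rw [eh_mem_edgesIn_rect]
    omega
  · have h3 := h2 _ (mem_ev.2 (Or.inl rfl))
    have h4 := h2 _ (mem_ev.2 (Or.inr rfl))
    simp only at h3 h4
    rw [ev_mem_edgesIn_rect]
    omega

open Classical in
/-- the boundary edges whose folding is in the cluster of `x0` -/
private noncomputable def Gx (l : ℤ) (N : Finset (ℤ × ℤ)) (x0 : ℤ × ℤ) : Finset (Sym2 (ℤ × ℤ)) :=
  (bd (dbl N)).filter fun e => ∃ v ∈ e, Cn (cN l N) x0 (fo v)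

private theorem mem_Gx {l : ℤ} {N : Finset (ℤ × ℤ)} {x0 : ℤ × ℤ} {e : Sym2 (ℤ × ℤ)} :
    e ∈ Gx l N x0 ↔ e ∈ bd (dbl N) ∧ ∃ v ∈ e, Cn (cN l N) x0 (fo v) := by
  classical
  unfold Gx
  exact mem_filter

private theorem Gx_all {l : ℤ} {N : Finset (ℤ × ℤ)} (hN : N ⊆ Fc (2 * l)) {x0 : ℤ × ℤ}
    {e : Sym2 (ℤ × ℤ)} (he : e ∈ Gx l N x0) {v : ℤ × ℤ} (hv : v ∈ e) : Cn (cN l N) x0 (fo v) := by
  rw [mem_Gx] at he
  obtain ⟨h1, u, hu, hc⟩ := he
  by_cases huv : u = v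
  · rw [← huv]; exact hc
  · have h2 : e = s(u, v) := (Sym2.mem_and_mem_iff huv).1 ⟨hu, hv⟩
    have h3 := fold_mem hN h1
    rw [h2, Sym2.map_mk] at h3
    exact hc.trans (Cn_edge h3)

open Classical in
private theorem Gx_even {l : ℤ} {N : Finset (ℤ × ℤ)} (hN : N ⊆ Fc (2 * l)) (x0 v : ℤ × ℤ) :
    Even (#((Gx l N x0).filter fun e => v ∈ e)) := by
  by_cases hv : Cn (cN l N) x0 (fo v)
  · have h1 : ((Gx l N x0).filter fun e => v ∈ e) = (bd (dbl N)).filter fun e => v ∈ e := by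
      ext e
      rw [mem_filter, mem_filter, mem_Gx]
      constructor
      · rintro ⟨⟨h1, -⟩, h2⟩
        exact ⟨h1, h2⟩
      · rintro ⟨h1, h2⟩
        exact ⟨⟨h1, v, h2, hv⟩, h2⟩
    rw [h1]
    exact even_bd _ v
  · have h1 : ((Gx l N x0).filter fun e => v ∈ e) = ∅ := by
      rw [filter_eq_empty_iff]
      intro e he hve
      exact hv (Gx_all hN he hve)
    rw [h1, card_empty]
    exact Even.zero

theorem cN_conn {l : ℤ} (hl : 1 ≤ l) {N : Finset (ℤ × ℤ)} (h : Val l N) :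
    ∀ u ∈ vts (cN l N), ∀ v ∈ vts (cN l N), Cn (cN l N) u v := by
  intro u hu v hv
  by_contra hcon
  have hN : N ⊆ Fc (2 * l) := Val_sub h
  have hS : Fc l ⊆ N := Val_sup hl h
  obtain ⟨e, he, hue⟩ := mem_vts.1 hu
  obtain ⟨e', he', hve'⟩ := mem_vts.1 hv
  have hK : -(2 * l + 2) < 2 * l + 2 := by omega
  have hGA : Gx l N u ⊆ edgesIn (rect (-(2 * l + 2)) (2 * l + 2) (-(2 * l + 2)) (2 * l + 2)) := by
    intro e he
    exact bd_sub_rect hN (mem_Gx.1 he).1
  have heG : e ∈ Gx l N u := by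
    refine mem_Gx.2 ⟨cc_sub_bd hN he, u, hue, ?_⟩
    rw [fo_nonneg (cc_end hN he hue).1]
    exact Cn_refl _ _
  have heG' : e' ∉ Gx l N u := by
    intro h1
    have h2 := Gx_all hN h1 hve'
    rw [fo_nonneg (cc_end hN he' hve').1] at h2
    exact hcon h2
  obtain ⟨D, hD⟩ : ∃ D, D = (edgesIn (rect (-(2 * l + 2)) (2 * l + 2) (-(2 * l + 2)) (2 * l + 2)) \
    Gx l N u).image star ∪ ring (-(2 * l + 2)) (2 * l + 2) (-(2 * l + 2)) (2 * l + 2) := ⟨_, rfl⟩
  -- a step of `D` across an edge which is not in `G`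
  have hstep : ∀ a b, a ∈ Fc (2 * l + 1) → b ∈ Fc (2 * l + 1) → Z2.Adj a b →
      sepE a b ∉ Gx l N u → s(a, b) ∈ D := by
    intro a b ha hb hab hG
    rw [hD, mem_union]
    left
    rw [mem_image]
    refine ⟨sepE a b, mem_sdiff.2 ⟨?_, hG⟩, star_sepE hab⟩
    rw [mem_Fc] at ha hb
    obtain ⟨x, y, ⟨h1, h2⟩ | ⟨h1, h2⟩⟩ := cc_split hab
    · rw [h1, eh_mem_edgesIn_rect]
      rcases h2 with ⟨rfl, rfl⟩ | ⟨rfl, rfl⟩ <;> simp only at ha hb <;> omega
    · rw [h1, ev_mem_edgesIn_rect]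
      rcases h2 with ⟨rfl, rfl⟩ | ⟨rfl, rfl⟩ <;> simp only at ha hb <;> omega
  -- an edge of `G` between faces of `Φ` is in the half circuit
  have hGc : ∀ a b, a ∈ Fc (2 * l + 1) → b ∈ Fc (2 * l + 1) → Z2.Adj a b →
      sepE a b ∈ Gx l N u → sepE a b ∈ cN l N := by
    intro a b ha hb hab hG
    have h0 := (mem_Gx.1 hG).1
    rw [mem_Fc] at ha hb
    obtain ⟨x, y, ⟨h1, h2⟩ | ⟨h1, h2⟩⟩ := cc_split hab
    · rw [h1] at h0 ⊢
      have hx : 0 ≤ x := by
        rcases h2 with ⟨rfl, rfl⟩ | ⟨rfl, rfl⟩ <;> simp only at ha hb <;> omega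
      rw [eh_mem_bd, mem_dbl_nonneg hN hx, mem_dbl_nonneg hN hx] at h0
      rw [cc_eh hN]
      exact h0
    · rw [h1] at h0 ⊢
      have hx : 1 ≤ x := by
        rcases h2 with ⟨rfl, rfl⟩ | ⟨rfl, rfl⟩ <;> simp only at ha hb <;> omega
      rw [ev_mem_bd, mem_dbl_nonneg hN (by omega), mem_dbl_nonneg hN (by omega)] at h0
      rw [cc_ev hN]
      exact ⟨hx, h0⟩
  have hstep' : ∀ a b, a ∈ Fc (2 * l + 1) → b ∈ Fc (2 * l + 1) → Z2.Adj a b →
      sepE a b ∉ cN l N → s(a, b) ∈ D := fun a b ha hb hab hc =>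
    hstep a b ha hb hab (fun h1 => hc (hGc a b ha hb hab h1))
  have hreach : ∀ a b, (dG (Fc (2 * l + 1)) (cN l N)).Reachable a b → Cn D a b := by
    intro a b hab
    rw [SimpleGraph.reachable_iff_reflTransGen] at hab
    induction hab with
    | refl => exact Cn_refl _ _
    | tail _ hbc ih =>
      obtain ⟨h1, h2, h3, h4⟩ := dG_adj.1 hbc
      exact ih.trans (Cn_edge (hstep' _ _ h1 h2 h3 h4))
  -- rectangles of faces on one side
  have hrect : ∀ x0 x1 y0 y1 : ℤ, rect x0 x1 y0 y1 ⊆ Fc (2 * l + 1) →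
      ((∀ a ∈ rect x0 x1 y0 y1, a ∈ N) ∨ (∀ a ∈ rect x0 x1 y0 y1, a ∉ N)) →
      ∀ a ∈ rect x0 x1 y0 y1, ∀ b ∈ rect x0 x1 y0 y1, Cn D a b := by
    intro x0 x1 y0 y1 hsub hone a ha b hb
    refine (rect_Cn ha hb).mono ?_
    intro ee hee
    induction ee with
    | _ a b =>
      rw [Pool.Agent.H95.Perc.mem_edgesIn'] at hee
      obtain ⟨ha, hb, hab⟩ := hee
      refine hstep' a b (hsub ha) (hsub hb) hab ?_
      intro hc
      unfold cN at hc
      rw [mem_bdN] at hc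
      obtain ⟨p, r, hp, -, hr, hpr, hE⟩ := hc
      have h1 : s(a, b) = s(p, r) := by rw [← star_sepE hab, ← star_sepE hpr, hE]
      rcases hone with h2 | h2
      · rcases Sym2.eq_iff.1 h1 with ⟨rfl, rfl⟩ | ⟨rfl, rfl⟩
        · exact hr (h2 _ hb)
        · exact hr (h2 _ ha)
      · rcases Sym2.eq_iff.1 h1 with ⟨rfl, rfl⟩ | ⟨rfl, rfl⟩
        · exact h2 _ ha hp
        · exact h2 _ hb hp
  have hin : ∀ a ∈ Fc l, ∀ b ∈ Fc l, Cn D a b := by
    refine hrect 0 (l - 1) (-l) (l - 1) ?_ (Or.inl fun a ha => hS ha)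
    intro a ha
    rw [mem_rect] at ha
    rw [mem_Fc]
    omega
  have hcorner : ∀ a ∈ Fc (2 * l + 1), a ∉ Fc (2 * l) → Cn D a (2 * l, 2 * l) := by
    have hright : ∀ a ∈ rect (2 * l) (2 * l) (-(2 * l + 1)) (2 * l),
        ∀ b ∈ rect (2 * l) (2 * l) (-(2 * l + 1)) (2 * l), Cn D a b := by
      refine hrect _ _ _ _ ?_ (Or.inr ?_)
      · intro a ha
        rw [mem_rect] at ha
        rw [mem_Fc]
        omega
      · intro a ha h1
        have h2 := mem_Fc.1 (hN h1)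
        rw [mem_rect] at ha
        omega
    have htop : ∀ a ∈ rect 0 (2 * l) (2 * l) (2 * l),
        ∀ b ∈ rect 0 (2 * l) (2 * l) (2 * l), Cn D a b := by
      refine hrect _ _ _ _ ?_ (Or.inr ?_)
      · intro a ha
        rw [mem_rect] at ha
        rw [mem_Fc]
        omega
      · intro a ha h1
        have h2 := mem_Fc.1 (hN h1)
        rw [mem_rect] at ha
        omega
    have hbot : ∀ a ∈ rect 0 (2 * l) (-(2 * l + 1)) (-(2 * l + 1)),
        ∀ b ∈ rect 0 (2 * l) (-(2 * l + 1)) (-(2 * l + 1)), Cn D a b := by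
      refine hrect _ _ _ _ ?_ (Or.inr ?_)
      · intro a ha
        rw [mem_rect] at ha
        rw [mem_Fc]
        omega
      · intro a ha h1
        have h2 := mem_Fc.1 (hN h1)
        rw [mem_rect] at ha
        omega
    intro a ha ha'
    rw [mem_Fc] at ha ha'
    by_cases h1 : a.1 = 2 * l
    · refine hright a ?_ _ ?_
      · rw [mem_rect]; omega
      · rw [mem_rect]; simp only; omega
    · by_cases h2 : a.2 = 2 * l
      · refine htop a ?_ _ ?_
        · rw [mem_rect]; omega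
        · rw [mem_rect]; simp only; omega
      · have h3 : a.2 = -(2 * l + 1) := by omega
        have h4 : Cn D a (2 * l, -(2 * l + 1)) := by
          refine hbot a ?_ _ ?_
          · rw [mem_rect]; omega
          · rw [mem_rect]; simp only; omega
        refine h4.trans (hright _ ?_ _ ?_)
        · rw [mem_rect]; simp only; omega
        · rw [mem_rect]; simp only; omega
  have hout : ∀ a ∈ Fc (2 * l + 1), a ∉ Fc (2 * l) → ∀ b ∈ Fc (2 * l + 1), b ∉ Fc (2 * l) →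
      Cn D a b := fun a ha ha' b hb hb' => (hcorner a ha ha').trans (hcorner b hb hb').symm
  have hcN : ∀ x ∈ cN l N, ∃ f g, f ∈ N ∧ g ∈ Fc (2 * l + 1) ∧ g ∉ N ∧ Z2.Adj f g ∧ x = sepE f g :=
    fun x hx => by
      unfold cN at hx
      exact mem_bdN.1 hx
  obtain ⟨ω, -, hω⟩ := h
  have hinside : ∀ f g, f ∈ N → g ∈ Fc (2 * l + 1) → g ∉ N → Z2.Adj f g →
      ∃ f0 ∈ Fc l, Cn D f0 f := by
    intro f g hf hg hg' hfg
    have h1 := Nx_conn (Φ := Fc (2 * l + 1)) (κ := ω) (S := fun f => f ∈ Fc l)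
      (S' := fun f => f ∉ Fc (2 * l)) (f := f) (g := g)
    rw [show Nx (Fc (2 * l + 1)) ω (fun f => f ∈ Fc l) (fun f => f ∉ Fc (2 * l)) = N from hω] at h1
    obtain ⟨f0, -, h2, h3⟩ := h1 hf hg hg' hfg
    exact ⟨f0, h2, hreach _ _ h3⟩
  have houtside : ∀ g, g ∈ Fc (2 * l + 1) → g ∉ N →
      ∃ g0, g0 ∈ Fc (2 * l + 1) ∧ g0 ∉ Fc (2 * l) ∧ Cn D g0 g := by
    intro g hg hg'
    have h1 := Nx_conn' (Φ := Fc (2 * l + 1)) (κ := ω) (S := fun f => f ∈ Fc l)
      (S' := fun f => f ∉ Fc (2 * l)) (f := g)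
    rw [show Nx (Fc (2 * l + 1)) ω (fun f => f ∈ Fc l) (fun f => f ∉ Fc (2 * l)) = N from hω] at h1
    obtain ⟨g0, h2, h3, -, h4⟩ := h1 hg hg'
    exact ⟨g0, h2, h3, hreach _ _ h4⟩
  obtain ⟨f, g, hf, hg, hgN, hfg, hefg⟩ := hcN e he
  obtain ⟨f', g', hf', hg', hgN', hfg', hefg'⟩ := hcN e' he'
  have hsubF : ∀ a ∈ N, a ∈ Fc (2 * l + 1) := by
    intro a ha
    have h1 := mem_Fc.1 (hN ha)
    rw [mem_Fc]
    omega
  have hconn : Cn D f g := by
    obtain ⟨f0, hf0, hc1⟩ := hinside f g hf hg hgN hfg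
    obtain ⟨f0', hf0', hc2⟩ := hinside f' g' hf' hg' hgN' hfg'
    obtain ⟨g0, hg0, hg0N, hc3⟩ := houtside g hg hgN
    obtain ⟨g0', hg0', hg0N', hc4⟩ := houtside g' hg' hgN'
    have hc5 : Cn D f' g' := by
      refine Cn_edge (hstep f' g' (hsubF _ hf') hg' hfg' ?_)
      rw [← hefg']
      exact heG'
    exact (((((hc1.symm.trans (hin _ hf0 _ hf0')).trans hc2).trans hc5).trans hc4.symm).trans
      (hout _ hg0' hg0N' _ hg0 hg0N)).trans hc3
  have heA := hGA heG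
  have hstar : star e = s(f, g) := by rw [hefg]; exact star_sepE hfg
  clear hefg hcN
  revert hstar heG heA
  induction e with
  | _ x y =>
    intro heG heA hstar
    have hcn := even_connect (fun e he => NL_bd _ e (mem_Gx.1 he).1) (Gx_even hN u) heG
    have h2 := (rect_dualPair (x0 := -(2 * l + 2)) (x1 := 2 * l + 2) (y0 := -(2 * l + 2))
      (y1 := 2 * l + 2) hK hK).h2 (ω := (Gx l N u).erase s(x, y))
      ((erase_subset _ _).trans hGA) heA (notMem_erase _ _) hstar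
      (by rw [union_empty]; exact hcn)
    apply h2
    refine hconn.mono ?_
    rw [hD]
    refine union_subset_union (image_subset_image ?_) (Subset.refl _)
    intro z hz
    rw [mem_sdiff] at hz
    rw [mem_erase, mem_sdiff, mem_erase]
    refine ⟨?_, hz.1, fun h1 => hz.2 h1.2⟩
    rintro rfl
    exact hz.2 heG

end Pool.Agent.IDK
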