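import Pool.Agent.IDK.CutBasic
import Pool.Agent.FKR.Topo

/-! # IDK/CutHC (MP_b3e76a_pr): a half circuit of crossings stops the exploration (deterministic)

Suppose `HC l ω` but some face `g ∉ Fc (2l)` is in `Ucl (Fc (2l+1)) ω (· ∈ Fc l)` (`mem_Ucl`: a walk in `dG (Fc (2l+1)) ω` from a face of `Fc l` to `g`). Take the first face `g1` of the walk outside of `Fc (2l)`: `g1.1 = 2l`, or `g1.2 = 2l`, or `g1.2 = -2l-1`; the faces before it are in `Fc (2l)`.
Case `g1.1 = 2l`: take the last face before `g1` with first coordinate `≤ l - 1` (it is `= l - 1`; the start is one since it is in `Fc l`): the walk from there to `g1` is in `rect (l-1) (2l) (-2l) (2l-1)`, contradiction to `ver_iff` (FKR/Topo) for `ver l (2l) (-2l) (2l) ω`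
(`dG` with `κ ∩ edgesIn (rect l (2l) (-2l) (2l))` instead of `κ` has more adjacencies: `dG_mono`).
Case `g1.2 = 2l`: last face before `g1` with second coordinate `≤ l - 1`; the walk from there is in `rect 0 (2l-1) (l-1) (2l)`: `hor_iff` for `hor 0 (2l) l (2l) ω`. Case `g1.2 = -2l-1`: last face with second coordinate `≥ -l`; walk in `rect 0 (2l-1) (-2l-1) (-l)`, `hor_iff` for
`hor 0 (2l) (-(2l)) (-l) ω` (with the roles of the two faces exchanged, `Reachable.symm`).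
A convenient way: prove first for any graph `G` on `ℤ × ℤ` whose adjacent vertices are `Z2.Adj`, and `f : ℤ × ℤ → ℤ` with `|f u - f v| ≤ 1` for adjacent `u, v`: a walk from `f ≤ s` to `f ≥ t`, `s < t`, all vertices in `T`, contains `u, v` with `f u = s`, `f v = t` reachable from each other inside `{z ∈ T | s ≤ f z ≤ t}`
(induction on the walk; cf. `Cn.middle` in FKR/CnPath). -/

namespace Pool.Agent.IDK

open Finset
open Pool.Agent.FKR
open Pool.Agent.H95.Perc (Inc conn link rect hor ver eh ev sumE sepE Inci mem_rect)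
open Pool.Agent.H95.SumRule (edgesIn Z2)

variable {q : ℝ}

private lemma cross_band {T : Finset (ℤ × ℤ)} {κ : Finset (Sym2 (ℤ × ℤ))} {f : ℤ × ℤ → ℤ}
    (hf : ∀ a b, Z2.Adj a b → f a ≤ f b + 1 ∧ f b ≤ f a + 1) {s t : ℤ} (hst : s < t)
    {u v : ℤ × ℤ} (h : (dG T κ).Reachable u v) (hu : f u ≤ s) (hv : t ≤ f v) :
    ∃ u' v', u' ∈ T ∧ v' ∈ T ∧ f u' = s ∧ f v' = t ∧
      (dG (T.filter fun z => s ≤ f z ∧ f z ≤ t) κ).Reachable u' v' := by
  obtain ⟨p⟩ := h
  have key : ∀ {a b : ℤ × ℤ} (p : (dG T κ).Walk a b), t ≤ f b →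
      (∃ u' v', u' ∈ T ∧ v' ∈ T ∧ f u' = s ∧ f v' = t ∧
        (dG (T.filter fun z => s ≤ f z ∧ f z ≤ t) κ).Reachable u' v') ∨
      (a ∈ T ∧ s ≤ f a ∧ f a ≤ t ∧ ∃ v' ∈ T, f v' = t ∧
        (dG (T.filter fun z => s ≤ f z ∧ f z ≤ t) κ).Reachable a v') ∨ t ≤ f a := by
    intro a b p
    induction p with
    | nil => intro hb; exact Or.inr (Or.inr hb)
    | cons hadj p ih =>
      rename_i a c d
      intro hd
      obtain ⟨haT, hcT, hac, hκ⟩ := dG_adj.mp hadj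
      have h2 := hf a c hac
      rcases ih hd with h1 | ⟨_, h3, h4, v', hv', h5, h6⟩ | h1
      · exact Or.inl h1
      · by_cases hcs : f c = s
        · exact Or.inl ⟨c, v', hcT, hv', hcs, h5, h6⟩
        · by_cases hat : t ≤ f a
          · exact Or.inr (Or.inr hat)
          · refine Or.inr (Or.inl ⟨haT, by omega, by omega, v', hv', h5, ?_⟩)
            refine SimpleGraph.Reachable.trans (SimpleGraph.Adj.reachable ?_) h6
            rw [dG_adj, mem_filter, mem_filter]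
            exact ⟨⟨haT, by omega, by omega⟩, ⟨hcT, by omega, by omega⟩, hac, hκ⟩
      · by_cases hat : t ≤ f a
        · exact Or.inr (Or.inr hat)
        · refine Or.inr (Or.inl ⟨haT, by omega, by omega, c, hcT, by omega, ?_⟩)
          refine SimpleGraph.Adj.reachable ?_
          rw [dG_adj, mem_filter, mem_filter]
          exact ⟨⟨haT, by omega, by omega⟩, ⟨hcT, by omega, by omega⟩, hac, hκ⟩
  rcases key p hv with h1 | ⟨huT, h3, _, v', hv', h5, h6⟩ | h1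
  · exact h1
  · exact ⟨u, v', huT, hv', by omega, h5, h6⟩
  · omega

private lemma first_exit {T N : Finset (ℤ × ℤ)} {κ : Finset (Sym2 (ℤ × ℤ))} {u v : ℤ × ℤ}
    (h : (dG T κ).Reachable u v) (hu : u ∈ N) (hv : v ∉ N) :
    ∃ g0 g1, g0 ∈ N ∧ g1 ∈ T ∧ g1 ∉ N ∧ Z2.Adj g0 g1 ∧
      (dG (insert g1 N) κ).Reachable u g1 := by
  obtain ⟨p⟩ := h
  induction p with
  | nil => exact absurd hu hv
  | cons hadj p ih =>
    rename_i a c d
    obtain ⟨haT, hcT, hac, hκ⟩ := dG_adj.mp hadj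
    by_cases hc : c ∈ N
    · obtain ⟨g0, g1, h1, h2, h3, h4, h5⟩ := ih hc hv
      refine ⟨g0, g1, h1, h2, h3, h4, SimpleGraph.Reachable.trans (SimpleGraph.Adj.reachable ?_) h5⟩
      rw [dG_adj]
      exact ⟨mem_insert_of_mem hu, mem_insert_of_mem hc, hac, hκ⟩
    · refine ⟨a, c, hu, hcT, hc, hac, SimpleGraph.Adj.reachable ?_⟩
      rw [dG_adj]
      exact ⟨mem_insert_of_mem hu, mem_insert_self _ _, hac, hκ⟩

theorem HC_circ {l : ℤ} (hl : 1 ≤ l) {ω : Finset (Sym2 (ℤ × ℤ))} (h : HC l ω) : Circ l ω := by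
  obtain ⟨hT, hB, hV⟩ := h
  intro g hg
  by_contra hgN
  obtain ⟨hgΦ, a, haΦ, haS, hr⟩ := mem_Ucl.mp hg
  have haN : a ∈ Fc (2 * l) := by
    rw [mem_Fc] at haS ⊢
    omega
  obtain ⟨g0, g1, h0, h1, h2, h3, h4⟩ := first_exit hr haN hgN
  rw [mem_Fc] at haS h0 h1 h2
  have h3' := Z2_adj_iff.mp h3
  have hfst : ∀ a b : ℤ × ℤ, Z2.Adj a b → a.1 ≤ b.1 + 1 ∧ b.1 ≤ a.1 + 1 := by
    intro a b hab
    rw [Z2_adj_iff] at hab
    omega
  have hsnd : ∀ a b : ℤ × ℤ, Z2.Adj a b → a.2 ≤ b.2 + 1 ∧ b.2 ≤ a.2 + 1 := by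
    intro a b hab
    rw [Z2_adj_iff] at hab
    omega
  have hneg : ∀ a b : ℤ × ℤ, Z2.Adj a b → -a.2 ≤ -b.2 + 1 ∧ -b.2 ≤ -a.2 + 1 := by
    intro a b hab
    rw [Z2_adj_iff] at hab
    omega
  have hcases : (g1.1 = 2 * l ∧ -(2 * l) ≤ g1.2 ∧ g1.2 ≤ 2 * l - 1) ∨
      (g1.2 = 2 * l ∧ 0 ≤ g1.1 ∧ g1.1 ≤ 2 * l - 1) ∨
      (g1.2 = -(2 * l) - 1 ∧ 0 ≤ g1.1 ∧ g1.1 ≤ 2 * l - 1) := by
    omega
  rcases hcases with ⟨c1, c2, c3⟩ | ⟨c1, c2, c3⟩ | ⟨c1, c2, c3⟩
  · obtain ⟨u, v, hu, hv, hu1, hv1, huv⟩ := cross_band (f := fun z => z.1) hfst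
      (show l - 1 < 2 * l by omega) h4 (by omega) (by omega)
    rw [ver_iff (by omega) (by omega)] at hV
    have hsub : ((insert g1 (Fc (2 * l))).filter fun z : ℤ × ℤ => l - 1 ≤ z.1 ∧ z.1 ≤ 2 * l) ⊆
        rect (l - 1) (2 * l) (-(2 * l)) (2 * l - 1) := by
      intro z hz
      rw [mem_filter, mem_insert] at hz
      rw [mem_rect]
      rcases hz with ⟨rfl | hz, hz1, hz2⟩
      · omega
      · rw [mem_Fc] at hz
        omega
    have hmem : ∀ z : ℤ × ℤ, z ∈ insert g1 (Fc (2 * l)) → l - 1 ≤ z.1 → z.1 ≤ 2 * l →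
        z ∈ rect (l - 1) (2 * l) (-(2 * l)) (2 * l - 1) := fun z hz h1 h2 =>
      hsub (mem_filter.mpr ⟨hz, h1, h2⟩)
    exact hV u (hmem u hu (by omega) (by omega)) v (hmem v hv (by omega) (by omega)) hu1 hv1
      (huv.mono (dG_mono hsub inter_subset_left))
  · obtain ⟨u, v, hu, hv, hu1, hv1, huv⟩ := cross_band (f := fun z => z.2) hsnd
      (show l - 1 < 2 * l by omega) h4 (by omega) (by omega)
    rw [hor_iff (by omega) (by omega)] at hT
    have hsub : ((insert g1 (Fc (2 * l))).filter fun z : ℤ × ℤ => l - 1 ≤ z.2 ∧ z.2 ≤ 2 * l) ⊆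
        rect 0 (2 * l - 1) (l - 1) (2 * l) := by
      intro z hz
      rw [mem_filter, mem_insert] at hz
      rw [mem_rect]
      rcases hz with ⟨rfl | hz, hz1, hz2⟩
      · omega
      · rw [mem_Fc] at hz
        omega
    have hmem : ∀ z : ℤ × ℤ, z ∈ insert g1 (Fc (2 * l)) → l - 1 ≤ z.2 → z.2 ≤ 2 * l →
        z ∈ rect 0 (2 * l - 1) (l - 1) (2 * l) := fun z hz h1 h2 =>
      hsub (mem_filter.mpr ⟨hz, h1, h2⟩)
    exact hT u (hmem u hu (by omega) (by omega)) v (hmem v hv (by omega) (by omega)) hu1 hv1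
      (huv.mono (dG_mono hsub inter_subset_left))
  · obtain ⟨u, v, hu, hv, hu1, hv1, huv⟩ := cross_band (f := fun z => -z.2) hneg
      (show l < 2 * l + 1 by omega) h4 (by omega) (by omega)
    rw [hor_iff (by omega) (by omega)] at hB
    have hsub : ((insert g1 (Fc (2 * l))).filter fun z : ℤ × ℤ => l ≤ -z.2 ∧ -z.2 ≤ 2 * l + 1) ⊆
        rect 0 (2 * l - 1) (-(2 * l) - 1) (-l) := by
      intro z hz
      rw [mem_filter, mem_insert] at hz
      rw [mem_rect]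
      rcases hz with ⟨rfl | hz, hz1, hz2⟩
      · omega
      · rw [mem_Fc] at hz
        omega
    have hmem : ∀ z : ℤ × ℤ, z ∈ insert g1 (Fc (2 * l)) → l ≤ -z.2 → -z.2 ≤ 2 * l + 1 →
        z ∈ rect 0 (2 * l - 1) (-(2 * l) - 1) (-l) := fun z hz h1 h2 =>
      hsub (mem_filter.mpr ⟨hz, h1, h2⟩)
    exact hB v (hmem v hv (by omega) (by omega)) u (hmem u hu (by omega) (by omega)) (by omega)
      (by omega) (huv.mono (dG_mono hsub inter_subset_left)).symm

end Pool.Agent.IDK
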