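import Pool.Agent.IDK.CutBasic

/-! # IDK/CutSep (MP_b3e76a_pr): the half circuit separates inside and outside

`cut_sep`: `v = (a, b)` is an end of an edge `e ∈ XN l N` with a side `f ∈ N`; by `inci_of_side` `f` is one of the four faces at `v`, `f.1 ≥ 0`. `e' ∋ v` is in `HE R` and has no side in `N`: (`e' ∉ XN`; if `e' ∈ HE R` had a side `f' ∈ N ⊆ Fc (2l)` both ends would be corners of `f'`, so `e' ∈ HE (2l)` and
`e' ∈ XN l N`). `e'` has a side `g` with `g.1 ≥ 0` (`eh x y`, `x ≥ 0`: both; `ev x y`, `x ≥ 0`: `(x, y)`), `g ∉ N`, and `g` is a face at `v`. If `a ≥ 1` the four faces at `v`, `(a-1,b-1), (a,b-1), (a,b), (a-1,b)`, are cyclically adjacent, all with nonnegative first coordinate; some are in `N`, some not, so there is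
an adjacent pair `f1 ∈ N`, `g1 ∉ N`; `g1 ∈ Fc (2l+1)` (adjacent to `f1 ∈ Fc (2l)`), so `sepE f1 g1 ∈ cN l N`, and it contains `v`. If `a = 0` the two faces are `(0, b-1)` and `(0, b)`, adjacent across `eh 0 b ∋ v`. (`sepE` of adjacent faces in coordinates: `star_eh`, `star_ev`, `sepE_of_star`.)
`cut_in`: path from `a ∈ HB l` to `v ∉ HB (2l)`. `a` is an end of an edge of `XN l N` (an edge of a face of `Fc l`; `HE_XN`, `1 ≤ l`). Let `ω1 = ω ∩ XN l N`. By `Cn.closed` (or `Cn.exit`) with `S z = Cn ω1 a z`: if no vertex `z` with `Cn ω1 a z` is in `vts (cN l N)`, then `S` is closed under the edges of `ω`: let `S z`,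
`s(z, z') ∈ ω`; `z ∈ vts (XN l N)` (it is `a` or an end of an edge of `ω1`, `Cn.mem_vts`); if `s(z, z') ∈ XN l N` then `S z'`; if not, then `s(z,z') ∈ HE R \\ XN l N` and `z ∈ vts (cN l N)` by `cut_sep`, or `s(z, z') ∈ F`, impossible because `z ∈ HB (2l)`. So `S v`, but then `v = a` or `v ∈ vts (XN l N) ⊆ HB (2l)`. -/

namespace Pool.Agent.IDK

open Finset
open Pool.Agent.FKR
open Pool.Agent.H95.Perc (Inc conn link rect hor ver eh ev sumE sepE Inci mem_rect)
open Pool.Agent.H95.SumRule (edgesIn Z2)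

variable {q : ℝ}

private theorem cs_K1 {l x y : ℤ} {N : Finset (ℤ × ℤ)} (hN : N ⊆ Fc (2 * l)) (hx : 0 ≤ x)
    (h : eh x y ∉ cN l N) : (x, y - 1) ∈ N ↔ (x, y) ∈ N := by
  have hmem : eh x y ∈ edgesIn (rect x (x + 1) y y) := by
    rw [eh_mem_edgesIn_rect]
    omega
  have hst : star (eh x y) = s((x, y - 1), (x, y)) := by
    rw [star_eh, ev, sub_add_cancel]
  have hst' : star (eh x y) = s((x, y), (x, y - 1)) := by
    rw [hst, Sym2.eq_swap]
  constructor
  · intro h1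
    by_contra h2
    apply h
    unfold cN
    rw [mem_bdN]
    obtain ⟨ha, hs⟩ := sepE_of_star hmem hst
    refine ⟨_, _, h1, ?_, h2, ha, hs.symm⟩
    have h3 := mem_Fc.mp (hN h1)
    rw [mem_Fc]
    simp only at h3 ⊢
    omega
  · intro h1
    by_contra h2
    apply h
    unfold cN
    rw [mem_bdN]
    obtain ⟨ha, hs⟩ := sepE_of_star hmem hst'
    refine ⟨_, _, h1, ?_, h2, ha, hs.symm⟩
    have h3 := mem_Fc.mp (hN h1)
    rw [mem_Fc]
    simp only at h3 ⊢
    omega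

private theorem cs_K2 {l x y : ℤ} {N : Finset (ℤ × ℤ)} (hN : N ⊆ Fc (2 * l)) (hx : 1 ≤ x)
    (h : ev x y ∉ cN l N) : (x - 1, y) ∈ N ↔ (x, y) ∈ N := by
  have hmem : ev x y ∈ edgesIn (rect x x y (y + 1)) := by
    rw [ev_mem_edgesIn_rect]
    omega
  have hst : star (ev x y) = s((x - 1, y), (x, y)) := by
    rw [star_ev, eh, sub_add_cancel]
  have hst' : star (ev x y) = s((x, y), (x - 1, y)) := by
    rw [hst, Sym2.eq_swap]
  constructor
  · intro h1
    by_contra h2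
    apply h
    unfold cN
    rw [mem_bdN]
    obtain ⟨ha, hs⟩ := sepE_of_star hmem hst
    refine ⟨_, _, h1, ?_, h2, ha, hs.symm⟩
    have h3 := mem_Fc.mp (hN h1)
    rw [mem_Fc]
    simp only at h3 ⊢
    omega
  · intro h1
    by_contra h2
    apply h
    unfold cN
    rw [mem_bdN]
    obtain ⟨ha, hs⟩ := sepE_of_star hmem hst'
    refine ⟨_, _, h1, ?_, h2, ha, hs.symm⟩
    have h3 := mem_Fc.mp (hN h1)
    rw [mem_Fc]
    simp only at h3 ⊢
    omega

private theorem cs_mem_XN {l : ℤ} {N : Finset (ℤ × ℤ)} {e : Sym2 (ℤ × ℤ)} :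
    e ∈ XN l N ↔ e ∈ HE (2 * l) ∧ ∃ f ∈ N, f ∈ star e := by
  classical
  unfold XN
  rw [mem_filter]
  rfl

/-- an edge with a side in `N` and nonnegative first coordinates is in `XN` -/
private theorem cs_eh {l x y : ℤ} {N : Finset (ℤ × ℤ)} (hN : N ⊆ Fc (2 * l))
    (h : (x, y - 1) ∈ N ∨ (x, y) ∈ N) : eh x y ∈ XN l N := by
  rw [cs_mem_XN]
  constructor
  · unfold HE HB
    rw [eh_mem_edgesIn_rect]
    rcases h with h | h
    · have h3 := mem_Fc.mp (hN h)
      simp only at h3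
      omega
    · have h3 := mem_Fc.mp (hN h)
      simp only at h3
      omega
  · rcases h with h | h
    · exact ⟨_, h, by rw [star_eh, mem_ev]; left; rfl⟩
    · exact ⟨_, h, by rw [star_eh, mem_ev, sub_add_cancel]; right; rfl⟩

private theorem cs_ev {l x y : ℤ} {N : Finset (ℤ × ℤ)} (hN : N ⊆ Fc (2 * l))
    (h : (x - 1, y) ∈ N ∨ (x, y) ∈ N) : ev x y ∈ XN l N := by
  rw [cs_mem_XN]
  constructor
  · unfold HE HB
    rw [ev_mem_edgesIn_rect]
    rcases h with h | h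
    · have h3 := mem_Fc.mp (hN h)
      simp only at h3
      omega
    · have h3 := mem_Fc.mp (hN h)
      simp only at h3
      omega
  · rcases h with h | h
    · exact ⟨_, h, by rw [star_ev, mem_eh]; left; rfl⟩
    · exact ⟨_, h, by rw [star_ev, mem_eh, sub_add_cancel]; right; rfl⟩

theorem cut_sep {l R : ℤ} {N : Finset (ℤ × ℤ)} (h : Val l N) {v : ℤ × ℤ} (hv : v ∈ vts (XN l N))
    {e' : Sym2 (ℤ × ℤ)} (he' : e' ∈ HE R) (hX : e' ∉ XN l N) (hve : v ∈ e') : v ∈ vts (cN l N) := by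
  by_contra hcon
  have hN := Val_sub h
  have hno : ∀ e ∈ cN l N, v ∉ e := fun e he hve => hcon (mem_vts.mpr ⟨e, he, hve⟩)
  rw [mem_vts] at hv
  obtain ⟨e, he, hve0⟩ := hv
  rw [cs_mem_XN] at he
  obtain ⟨heH, f, hf, hfe⟩ := he
  have hinc : Inci f v := inci_of_side heH hfe hve0
  have hvH : v ∈ HB (2 * l) := vts_edgesIn _ (mem_vts.mpr ⟨e, heH, hve0⟩)
  obtain ⟨a, b⟩ := v
  rw [mem_HB] at hvH
  simp only at hvH
  -- the four edges at `v`
  have k1 : eh a b ∉ cN l N := fun hh => hno _ hh (by rw [mem_eh]; left; rfl)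
  have k2 : eh (a - 1) b ∉ cN l N := fun hh => hno _ hh (by
    rw [mem_eh, sub_add_cancel]
    right
    rfl)
  have k3 : ev a b ∉ cN l N := fun hh => hno _ hh (by rw [mem_ev]; left; rfl)
  have k4 : ev a (b - 1) ∉ cN l N := fun hh => hno _ hh (by
    rw [mem_ev, sub_add_cancel]
    right
    rfl)
  have c1 := cs_K1 hN hvH.1 k1
  have hf' := mem_Fc.mp (hN hf)
  -- the four cases of `f`
  have hfc : f = (a - 1, b - 1) ∨ f = (a, b - 1) ∨ f = (a, b) ∨ f = (a - 1, b) := by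
    obtain ⟨f1, f2⟩ := f
    unfold Inci at hinc
    simp only at hinc
    simp only [Prod.mk.injEq]
    omega
  have h34 : (a, b) ∈ N ∧ (a, b - 1) ∈ N := by
    rcases lt_or_ge a 1 with ha | ha
    · rcases hfc with rfl | rfl | rfl | rfl
      · simp only at hf'
        omega
      · exact ⟨c1.mp hf, hf⟩
      · exact ⟨hf, c1.mpr hf⟩
      · simp only at hf'
        omega
    · have c3 := cs_K2 hN ha k3
      have c4 := cs_K2 hN ha k4
      rcases hfc with rfl | rfl | rfl | rfl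
      · have := c4.mp hf
        exact ⟨c1.mp this, this⟩
      · exact ⟨c1.mp hf, hf⟩
      · exact ⟨hf, c1.mpr hf⟩
      · have := c3.mp hf
        exact ⟨this, c1.mpr this⟩
  -- the edge `e'`
  apply hX
  obtain ⟨x, y, rfl | rfl⟩ := edgesIn_cases he'
  · rw [mem_eh, Prod.mk.injEq, Prod.mk.injEq] at hve
    rcases hve with ⟨rfl, rfl⟩ | ⟨h1, rfl⟩
    · exact cs_eh hN (Or.inr h34.1)
    · have hx : 0 ≤ x := by
        unfold HE HB at he'
        rw [eh_mem_edgesIn_rect] at he'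
        exact he'.1
      have hxa : x = a - 1 := by omega
      subst hxa
      have c3 := cs_K2 hN (by omega) k3
      exact cs_eh hN (Or.inr (c3.mpr h34.1))
  · rw [mem_ev, Prod.mk.injEq, Prod.mk.injEq] at hve
    rcases hve with ⟨rfl, rfl⟩ | ⟨rfl, h1⟩
    · exact cs_ev hN (Or.inr h34.1)
    · have hyb : y = b - 1 := by omega
      subst hyb
      exact cs_ev hN (Or.inr h34.2)

theorem cut_in {l R : ℤ} (hl : 1 ≤ l) {N : Finset (ℤ × ℤ)} (h : Val l N) {F ω : Finset (Sym2 (ℤ × ℤ))}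
    (hF : ∀ e ∈ F, ∀ v ∈ e, v ∉ HB (2 * l)) (hω : ω ⊆ HE R ∪ F) {a v : ℤ × ℤ} (ha : a ∈ HB l)
    (hv : v ∉ HB (2 * l)) (hc : Cn ω a v) : ∃ v' ∈ vts (cN l N), Cn (ω ∩ XN l N) a v' := by
  by_contra hcon
  push Not at hcon
  have hXH : vts (XN l N) ⊆ HB (2 * l) := (vts_mono XN_HE).trans (vts_edgesIn _)
  have haX : a ∈ vts (XN l N) := by
    apply vts_mono (HE_XN hl h)
    rw [mem_vts]
    obtain ⟨a1, a2⟩ := a
    rw [mem_HB] at ha
    simp only at ha
    rcases lt_or_ge a1 l with h1 | h1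
    · refine ⟨eh a1 a2, ?_, by rw [mem_eh]; left; rfl⟩
      unfold HE HB
      rw [eh_mem_edgesIn_rect]
      omega
    · refine ⟨eh (a1 - 1) a2, ?_, by rw [mem_eh, sub_add_cancel]; right; rfl⟩
      unfold HE HB
      rw [eh_mem_edgesIn_rect]
      omega
  have key := hc.closed (S := fun z => Cn (ω ∩ XN l N) a z ∧ z ∈ vts (XN l N)) ⟨Cn_refl _ _, haX⟩ (by
    rintro z z' ⟨hz1, hz2⟩ hzz
    have hzz' := hω hzz
    rw [mem_union] at hzz'
    rcases hzz' with h1 | h1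
    · by_cases h2 : s(z, z') ∈ XN l N
      · exact ⟨hz1.trans (Cn_edge (mem_inter.mpr ⟨hzz, h2⟩)), mem_vts.mpr ⟨_, h2, Sym2.mem_mk_right _ _⟩⟩
      · exact absurd hz1 (hcon z (cut_sep h hz2 h1 h2 (Sym2.mem_mk_left _ _)))
    · exact absurd (hXH hz2) (hF _ h1 z (Sym2.mem_mk_left _ _)))
  exact hv (hXH key.2)

end Pool.Agent.IDK
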