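import Pool.Agent.IDK.Sym
import Pool.Agent.FKR.Dec

/-! # IDK/DecA (MP_b3e76a_pr): arbitrary environment against free environment

(1) Let `Sp = (HE (4n)).filter (all ends outside HB (4n - 1))` (edges on the sphere). `P q (HE (4n)) F (Out A (2n)) ≤ P q (HE (4n) \\ Sp) Sp (Out A (2n))` by `P_le` with `F' = Sp`: two different vertices of `HB (4n)` connected in `F` are both outside `HB (4n-1)` (`Cn.mem_vts`), hence connected in `Sp` (three sides of the
half box; or `sph_conn` via `hc`); for `hAB` replace `Out A (2n)` by the equivalent local event: `Out A (2n) ω ↔ Out A (2n) (tc (· ∈ HB (2n-1)) ω)` (`Cn_tc_iff`), and `ζ ∪ F`, `(ζ ∪ Sp)` have the same edges touching `HB (2n-1)`.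
(2) Transport to the wedge by `P_hc` (`F = Sp`, `P_sdiff` to replace `HE (4n) \\ Sp` by `HE (4n)`): from now on as in the proof of `dec` (FKR/Dec) with `m = 2` and `Arm (2n)` replaced by the increasing event `X ω' = ∃ a ∈ A, ∃ v, 2n ≤ nm v ∧ Cn ω' (hc a) v`, which only depends on `tc (nm < 2n) ω'`: `dsemi`, `P_indep_ge`, `PE_le`
(`S v = (4n ≤ nm v)`, `I v = (nm v ≤ 2n)`, `F0 = ∅`). (If some `a ∈ A` is outside `HB (2n-1)` both sides are 1: `A` may be arbitrary, but assume `A ⊆ HB (2n)`.)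
Alternatively do everything directly in `HE (4n)`, using `dsemi` only through `P_hc`. -/

namespace Pool.Agent.IDK

open Finset
open Pool.Agent.FKR
open Pool.Agent.H95.Perc (Inc conn link rect hor ver eh ev sumE sepE Inci mem_rect)
open Pool.Agent.H95.SumRule (edgesIn Z2)

variable {q : ℝ}

open Pool.Agent.H95.Wedge (Vtx pt)

/-- the general form of `dec` for increasing events which depend on the edges touching `nm < 2 n` -/
private theorem dca_dec (hq : 1 ≤ q) (hu : UU q) (m : ℕ) : ∃ C : ℝ, 1 ≤ C ∧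
    ∀ (n : ℕ) (X : Finset (Sym2 Vtx) → Prop), 34 ≤ n → Inc X →
    (∀ ω, X ω ↔ X (tc (fun v => nm v < 2 * n) ω)) →
    P q (WE m (4 * n)) (WSp m (4 * n)) X ≤ C * P q (WE m (4 * n)) ∅ X := by
  classical
  have hq0 : 0 < q := by linarith
  obtain ⟨c, hc, hsemi⟩ := dsemi hq hu m
  refine ⟨max 1 (1 / c), le_max_left _ _, fun n X hn hX hXtc => ?_⟩
  set E := WE m (4 * n) \ WSp m (4 * n) with hE
  set F := WSp m (4 * n) with hF
  have hEW : E ⊆ WE m (4 * n) := sdiff_subset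
  have hFW : F ⊆ WE m (4 * n) := by
    intro e he
    rw [hF] at he
    unfold WSp at he
    exact (mem_ins'.1 he).1
  have hFn : ∀ e ∈ F, ∀ v ∈ e, nm v = 4 * n := by
    intro e he
    rw [hF] at he
    unfold WSp at he
    exact (mem_ins'.1 he).2
  have hNE : NL E := (WE_NL m (4 * n)).mono hEW
  have hNF : NL F := (WE_NL m (4 * n)).mono hFW
  have h1 : P q (WE m (4 * n)) F X = P q E F X := (P_sdiff hq0 _ _ _).symm
  -- decoupling
  set N : Finset (Sym2 Vtx) → Prop := fun ω =>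
    ∀ u v, nm u ≤ 2 * n → 4 * n ≤ nm v → ¬ Cn ω u v with hN
  set D := E \ tc (fun v => nm v < 2 * n) E with hD
  have h2 : c * P q E F X ≤ P q E F (fun ω => N ω ∧ X ω) := by
    refine P_indep_ge hq0 hNE hNF (D := D) sdiff_subset ?_ ?_
    · intro ω ω' hω hω' hag hB
      rw [hXtc] at hB ⊢
      refine hX _ _ ?_ hB
      intro e he
      rw [dec_mem_tc] at he ⊢
      refine ⟨?_, he.2⟩
      have h3 : e ∈ ω \ D := by
        rw [mem_sdiff]
        refine ⟨he.1, fun h4 => ?_⟩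
        have h5 := mem_sdiff.1 h4
        exact h5.2 (dec_mem_tc.2 ⟨h5.1, he.2⟩)
      rw [hag] at h3
      exact (mem_sdiff.1 h3).1
    · intro η hη
      have hη' : η ⊆ tc (fun v => nm v < 2 * n) E := by
        intro e he
        have h3 := mem_sdiff.1 (hη he)
        by_contra h4
        exact h3.2 (mem_sdiff.2 ⟨h3.1, h4⟩)
      refine hsemi n (4 * n) D (F ∪ η) hn (sdiff_subset.trans hEW) (union_subset hFW ?_) ?_
      · intro e he
        exact hEW (dec_mem_tc.1 (hη' he)).1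
      · intro e he v hv
        rcases mem_union.1 he with he | he
        · right
          rw [hFn e he v hv]
        · left
          obtain ⟨h3, h4⟩ := dec_mem_tc.1 (hη' he)
          exact dec_ends (hEW h3) h4 v hv
  -- exploration
  have h3 := PE_le (F0 := ∅) hq hNE hNF (S := fun v => 4 * n ≤ nm v) (I := fun v => nm v ≤ 2 * n)
    (empty_subset _) (by
      intro e he _
      induction e with
      | _ x y =>
        exact ⟨x, Sym2.mem_mk_left _ _, (hFn _ he x (Sym2.mem_mk_left _ _)).ge⟩)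
    (fun e he => absurd he (notMem_empty e)) (A := X) (R := fun _ => True)
    hX (by
      intro ω hω hNω hA
      rw [hXtc] at hA
      refine hX _ _ ?_ hA
      intro e he
      rw [dec_mem_tc] at he
      unfold off
      rw [mem_filter]
      refine ⟨he.1, fun v hv => hNω v ?_⟩
      have h4 : e ∈ WE m (4 * n) := union_subset hEW hFW (hω he.1)
      exact dec_ends h4 he.2 v hv)
    (fun _ _ _ _ _ _ => trivial)
  have h4 : P q E F (fun ω => N ω ∧ X ω) ≤ P q E F (fun ω => X ω ∧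
      (∀ v, nm v ≤ 2 * n → ¬ Reach (fun v => 4 * n ≤ nm v) ω v) ∧ True) := by
    refine P_mono hq0 ?_
    rintro ζ _ ⟨h5, h6⟩
    refine ⟨h6, fun v hv => ?_, trivial⟩
    rintro ⟨s, hs, hcn⟩
    exact h5 v s hv hs hcn.symm
  have h5 : P q (off (fun v => 4 * n ≤ nm v) E) ∅ X ≤ P q (WE m (4 * n)) ∅ X := by
    refine P_mono_EF hq (WE_NL m (4 * n)) (fun e he => absurd he (notMem_empty e)) ?_
      (Subset.refl _) hX
    intro e he
    unfold off at he
    rw [mem_filter] at he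
    exact mem_union_left _ (hEW he.1)
  have h6 : P q (off (fun v => 4 * n ≤ nm v) E) ∅ X *
      P q E F (fun ω => (∀ v, nm v ≤ 2 * n → ¬ Reach (fun v => 4 * n ≤ nm v) ω v) ∧ True) ≤
      P q (off (fun v => 4 * n ≤ nm v) E) ∅ X :=
    mul_le_of_le_one_right (P_nonneg hq0 _ _ _) (P_le_one hq0 _ _ _)
  have h7 : c * P q E F X ≤ P q (WE m (4 * n)) ∅ X :=
    h2.trans (h4.trans (h3.trans (h6.trans h5)))
  have h8 : P q E F X ≤ 1 / c * P q (WE m (4 * n)) ∅ X := by
    rw [one_div, ← div_eq_inv_mul, le_div_iff₀ hc]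
    linarith
  rw [h1]
  exact h8.trans (mul_le_mul_of_nonneg_right (le_max_right _ _) (P_nonneg hq0 _ _ _))

/-- the event `Out A s` in the wedge -/
private def dcaX (A : Finset (ℤ × ℤ)) (s : ℕ) (ω : Finset (Sym2 Vtx)) : Prop :=
  ∃ a ∈ A, ∃ v, s ≤ nm v ∧ Cn ω (hc a) v

private theorem dca_inc (A : Finset (ℤ × ℤ)) (s : ℕ) : Inc (dcaX A s) := by
  rintro ω ω' h ⟨a, ha, v, hv, hc⟩
  exact ⟨a, ha, v, hv, hc.mono h⟩

private theorem dca_tc (A : Finset (ℤ × ℤ)) (s : ℕ) (ω : Finset (Sym2 Vtx)) :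
    dcaX A s ω ↔ dcaX A s (tc (fun v => nm v < s) ω) := by
  unfold dcaX
  refine exists_congr fun a => and_congr_right fun _ => ?_
  by_cases h : nm (hc a) < s
  · have h1 := Cn_tc_iff (ω := ω) (u := hc a) (S := fun v => nm v < s) h
    simp only [not_lt] at h1
    exact h1
  · rw [not_lt] at h
    exact ⟨fun _ => ⟨hc a, h, Cn_refl _ _⟩, fun _ => ⟨hc a, h, Cn_refl _ _⟩⟩

private theorem dca_vts {N : ℤ} {ω : Finset (Sym2 (ℤ × ℤ))} (hω : ω ⊆ HE N) {p : ℤ × ℤ}
    (hp : p ∈ vts ω) : p ∈ HB N := by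
  rw [mem_vts] at hp
  obtain ⟨e, he, hpe⟩ := hp
  have he' := hω he
  induction e with
  | _ a b =>
    rw [mem_HE] at he'
    rw [Sym2.mem_iff] at hpe
    rcases hpe with rfl | rfl
    · exact he'.1
    · exact he'.2.1

private theorem dca_nm {p : ℤ × ℤ} (hp : 0 ≤ p.1) {s : ℕ} : s ≤ nm (hc p) ↔ p ∉ HB ((s : ℤ) - 1) := by
  have h1 := nm_hc hp
  rw [mem_HB]
  have h2 : (s ≤ nm (hc p)) ↔ (s : ℤ) ≤ max p.1 |p.2| := by
    rw [← h1]
    exact_mod_cast Iff.rfl
  rw [h2, le_max_iff, le_abs]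
  omega

private theorem dca_iff {n : ℕ} {s : ℕ} {A : Finset (ℤ × ℤ)} (hA : ∀ a ∈ A, 0 ≤ a.1)
    {ω : Finset (Sym2 (ℤ × ℤ))} (hω : ω ⊆ HE n) : Out A s ω ↔ dcaX A s (img hc ω) := by
  have hpos : ∀ v, v ∈ vts ω → 0 ≤ v.1 := fun v hv => (mem_HB.1 (dca_vts hω hv)).1
  constructor
  · rintro ⟨a, ha, v, hv, hcn⟩
    have hv0 : 0 ≤ v.1 := by
      by_cases hav : a = v
      · rw [← hav]; exact hA a ha
      · exact hpos v (hcn.mem_vts hav).2
    exact ⟨a, ha, hc v, (dca_nm hv0).2 hv, Cn_img hcn⟩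
  · rintro ⟨a, ha, v', hv', hcn⟩
    by_cases hav : hc a = v'
    · subst hav
      exact ⟨a, ha, a, (dca_nm (hA a ha)).1 hv', Cn_refl _ _⟩
    · have h1 := (hcn.mem_vts hav).2
      rw [mem_vts] at h1
      obtain ⟨e, he, hpe⟩ := h1
      unfold img at he
      rw [mem_image] at he
      obtain ⟨e', he', rfl⟩ := he
      obtain ⟨v, hv, rfl⟩ := Sym2.mem_map.1 hpe
      have hvv : v ∈ vts ω := mem_vts.2 ⟨e', he', hv⟩
      have hv0 := hpos v hvv
      exact ⟨a, ha, v, (dca_nm hv0).1 hv', (Cn_hc hω (hA a ha) hv0).1 hcn⟩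

theorem decA (hq : 1 ≤ q) (hu : UU q) : ∃ C : ℝ, 1 ≤ C ∧ ∀ (n : ℕ) (F : Finset (Sym2 (ℤ × ℤ)))
    (A : Finset (ℤ × ℤ)), 34 ≤ n → NL F → (∀ e ∈ F, ∀ v ∈ e, v ∉ HB (4 * n - 1)) → A ⊆ HB (2 * n) →
    P q (HE (4 * n)) F (Out A (2 * n)) ≤ C * P q (HE (4 * n)) ∅ (Out A (2 * n)) := by
  classical
  have hq0 : 0 < q := by linarith
  obtain ⟨C, hC1, hC⟩ := dca_dec hq hu 2
  refine ⟨C, hC1, fun n F A hn hF hFr hA => ?_⟩
  have hA0 : ∀ a ∈ A, 0 ≤ a.1 := fun a ha => (mem_HB.1 (hA ha)).1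
  have hcast : (4 * (n : ℤ)) = ((4 * n : ℕ) : ℤ) := by push_cast; ring
  have hcast2 : (2 * (n : ℤ)) = ((2 * n : ℕ) : ℤ) := by push_cast; ring
  rw [hcast] at hFr ⊢
  rw [hcast2] at hA ⊢
  set N : ℕ := 4 * n with hN
  set Sp : Finset (Sym2 (ℤ × ℤ)) := (HE (N : ℤ)).filter (fun e => ∀ v ∈ e, v ∉ HB ((N : ℤ) - 1))
    with hSp
  have hSpE : Sp ⊆ HE (N : ℤ) := filter_subset _ _
  have hSpNL : NL Sp := (HE_NL _).mono hSpE
  -- the image of the sphere
  have himg : img hc Sp = WSp 2 N := by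
    apply Subset.antisymm
    · intro e he
      unfold img at he
      rw [mem_image] at he
      obtain ⟨e', he', rfl⟩ := he
      rw [hSp, mem_filter] at he'
      unfold WSp
      rw [mem_ins', ← img_hc]
      refine ⟨mem_image_of_mem _ he'.1, fun v hv => ?_⟩
      obtain ⟨p, hp, rfl⟩ := Sym2.mem_map.1 hv
      have h1 : p ∈ HB (N : ℤ) := dca_vts (Subset.refl _) (mem_vts.2 ⟨e', he'.1, hp⟩)
      have h2 := he'.2 p hp
      have h3 := (dca_nm (mem_HB.1 h1).1 (s := N)).2 h2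
      have h4 : ¬ (N + 1 ≤ nm (hc p)) := by
        rw [dca_nm (mem_HB.1 h1).1]
        push_cast
        rw [add_sub_cancel_right]
        exact not_not.2 h1
      omega
    · intro e he
      unfold WSp at he
      rw [mem_ins', ← img_hc] at he
      obtain ⟨he1, he2⟩ := he
      unfold img at he1 ⊢
      rw [mem_image] at he1 ⊢
      obtain ⟨e', he', rfl⟩ := he1
      refine ⟨e', ?_, rfl⟩
      rw [hSp, mem_filter]
      refine ⟨he', fun p hp => ?_⟩
      have h1 : p ∈ HB (N : ℤ) := dca_vts (Subset.refl _) (mem_vts.2 ⟨e', he', hp⟩)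
      rw [← dca_nm (mem_HB.1 h1).1]
      exact (he2 (hc p) (Sym2.mem_map.2 ⟨p, hp, rfl⟩)).ge
  -- step 1: from `F` to the sphere
  have h1 : P q (HE (N : ℤ)) F (Out A ((2 * n : ℕ) : ℤ)) ≤
      P q (HE (N : ℤ)) Sp (Out A ((2 * n : ℕ) : ℤ)) := by
    refine P_le hq (HE_NL _) hF (HE_NL _) hSpNL subset_union_left ?_ (inc_Out _ _) (inc_Out _ _) ?_
    · intro u hu' v hv' hcn
      by_cases huv : u = v
      · rw [huv]; exact Cn_refl _ _
      · have h2 := hcn.mem_vts huv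
        have hout : ∀ w, w ∈ vts F → w ∉ HB ((N : ℤ) - 1) := by
          intro w hw
          obtain ⟨e, he, hwe⟩ := mem_vts.1 hw
          exact hFr e he w hwe
        have hu1 := dca_vts (Subset.refl _) hu'
        have hv1 := dca_vts (Subset.refl _) hv'
        have hnm : ∀ w, w ∈ HB (N : ℤ) → w ∉ HB ((N : ℤ) - 1) → nm (hc w) = N := by
          intro w hw1 hw2
          have h3 := (dca_nm (mem_HB.1 hw1).1 (s := N)).2 hw2
          have h4 : ¬ (N + 1 ≤ nm (hc w)) := by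
            rw [dca_nm (mem_HB.1 hw1).1]
            push_cast
            rw [add_sub_cancel_right]
            exact not_not.2 hw1
          omega
        have hvt : ∀ w, w ∈ vts (HE (N : ℤ)) → hc w ∈ vts (WE 2 N) := by
          intro w hw
          obtain ⟨e, he, hwe⟩ := mem_vts.1 hw
          rw [← img_hc]
          exact mem_vts.2 ⟨Sym2.map hc e, mem_image_of_mem _ he, Sym2.mem_map.2 ⟨w, hwe, rfl⟩⟩
        have h5 := sph_conn (m := 2) (n := N) (by omega) (hvt u hu') (hvt v hv')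
          (hnm u hu1 (hout u h2.1)) (hnm v hv1 (hout v h2.2))
        rw [← himg] at h5
        exact (Cn_hc hSpE (mem_HB.1 hu1).1 (mem_HB.1 hv1).1).1 h5
    · rintro ζ hζ ⟨a, ha, v, hv, hcn⟩
      by_cases haS : a ∈ HB (((2 * n : ℕ) : ℤ) - 1)
      · obtain ⟨w, hw, hcw⟩ := (Cn_tc_iff (ω := ζ ∪ F) (u := a)
          (S := fun p => p ∈ HB (((2 * n : ℕ) : ℤ) - 1)) haS).1 ⟨v, hv, hcn⟩
        refine ⟨a, ha, w, hw, hcw.mono ?_⟩
        intro e he
        rw [mem_union]
        left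
        unfold tc at he
        rw [mem_filter, mem_union] at he
        obtain ⟨he1 | he1, p, hp, hpS⟩ := he
        · exact he1
        · exfalso
          apply hFr e he1 p hp
          rw [mem_HB] at hpS ⊢
          rw [hN]
          push_cast at hpS ⊢
          omega
      · exact ⟨a, ha, a, haS, Cn_refl _ _⟩
  -- step 2: transport
  have h2 : ∀ G : Finset (Sym2 (ℤ × ℤ)), G ⊆ HE (N : ℤ) →
      P q (HE (N : ℤ)) G (Out A ((2 * n : ℕ) : ℤ)) = P q (WE 2 N) (img hc G) (dcaX A (2 * n)) := by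
    intro G hG
    rw [P_hc hq0 N hG]
    exact P_congr (fun ζ hζ => dca_iff hA0 (union_subset hζ hG))
  have h3 := hC n (dcaX A (2 * n)) hn (dca_inc _ _) (fun ω => dca_tc _ _ _)
  refine h1.trans ?_
  have h4 : img hc (∅ : Finset (Sym2 (ℤ × ℤ))) = ∅ := by
    unfold img
    exact image_empty _
  rw [h2 Sp hSpE, h2 ∅ (empty_subset _), himg, h4]
  exact h3

end Pool.Agent.IDK
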