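import Pool.Agent.IDK.PBc
import Pool.Agent.IDK.CutConn
import Pool.Agent.IDK.CutSep

/-! # IDK/DecB (MP_b3e76a_pr): decomposition at the innermost half circuit

Let `Env R F t`, `1 ≤ l`, `4 l ≤ R`. So `F` and `t` are outside `HB (2l)`, `HE (2l) ⊆ HE R`.
`cut_iff`: for `Val l N`, `cN l N ⊆ ω ⊆ HE R ∪ F`, `A ⊆ HB l`: `HitA A t ω ↔ InN l N A ω ∧ OutN l N t ω`. From right to left: the half circuit is open and connected (`cN_conn`). From left to right: `cut_in` gives `InN`. For `OutN`: let `ω2 = ω \\ XN l N ∪ cN l N` and suppose no vertex `z` with `Cn ω2 t z` is in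
`vts (cN l N)`; then `{z | Cn ω2 t z}` is closed under the edges of `ω`: let `s(z, z') ∈ ω`; if it is not in `XN l N` it is in `ω2`; if it is in `XN l N` then `z ∈ vts (XN l N)`, `z ≠ t`, so `z` is an end of an edge of `ω2` (`Cn.mem_vts`), not of `cN`, hence of an edge of `HE R \\ XN l N` (then `z ∈ vts (cN l N)` by `cut_sep`) or of `F`
(impossible in `HB (2l)`). So `a` is in this set, `a ∈ vts (XN l N)`, and the same argument applied to `z = a ≠ t` gives a contradiction.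
`hit_dec`: `P_split` by `Circ l`; `P (HitA A t ∧ Circ l) = ∑ N ∈ VN l, P (HitA A t ∧ NN l ω = N)` (the events are disjoint and their union is `HitA A t ∧ Circ l` by `NN_val`, `mem_VN`; finite additivity: write the probabilities as sums over `powerset`, or induct; `Circ l ω → Val l (NN l ω)`), and
`HitA A t ω ∧ NN l ω = N ↔ (cN l N ⊆ ω ∧ (NN l ω = N ∧ InN l N A ω)) ∧ OutN l N t ω` (`cN_sub`, `cut_iff`); `fact` with `E = HE R`, `X = XN l N`, `c = cN l N` (`hXF`: `F` does not touch `HB (2l)`; `hsep`: `cut_sep`), `Y ω = (NN l ω = N ∧ InN l N A ω)` (depends on `ω ∩ XN l N` by `NN_stop`, `NN_val`), `Z = OutN l N t`.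
`Gam_eq`: the same with `E = HE (4l)`, `F = ∅`, `Z = True`: `P q (HE (4l)) ∅ (NN l ω = N ∧ InN l N A ω) = gam q l N A * aN q l N`.
`WN_ge`: `cN l N ⊆ ω` and `HitA (HB l) t ω` imply `OutN l N t ω` (`cut_iff`); `P_fkg` for the two increasing events; `aN q l N ≤ P q (HE R) F (cN l N ⊆ ω)` by `P_mono_EF`. -/

namespace Pool.Agent.IDK

open Finset
open Pool.Agent.FKR
open Pool.Agent.H95.Perc (Inc conn link rect hor ver eh ev sumE sepE Inci mem_rect)
open Pool.Agent.H95.SumRule (edgesIn Z2)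

variable {q : ℝ}

/-- finite additivity along the values of a function -/
private theorem P_fib (hq : 0 < q) {α β : Type*} [DecidableEq α] [DecidableEq β] (E F : Finset (Sym2 α))
    (A : Finset (Sym2 α) → Prop) (g : Finset (Sym2 α) → β) (s : Finset β) :
    P q E F (fun ω => A ω ∧ g ω ∈ s) = ∑ b ∈ s, P q E F (fun ω => A ω ∧ g ω = b) := by
  induction s using Finset.induction_on with
  | empty =>
    rw [sum_empty, ← P_false (q := q) E F]
    exact P_congr fun ζ _ => by simp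
  | insert a s ha ih =>
    rw [sum_insert ha, ← ih, P_split hq E F (fun ω => A ω ∧ g ω ∈ insert a s) (fun ω => g ω = a)]
    congr 1
    · refine P_congr fun ζ _ => ⟨fun h => ⟨h.1.1, h.2⟩, fun h => ⟨⟨h.1, ?_⟩, h.2⟩⟩
      rw [h.2]
      exact mem_insert_self _ _
    · refine P_congr fun ζ _ => ⟨fun h => ⟨h.1.1, ?_⟩, fun h => ⟨⟨h.1, mem_insert_of_mem h.2⟩, ?_⟩⟩
      · exact (mem_insert.1 h.1.2).resolve_left h.2
      · rintro h2
        rw [h2] at h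
        exact ha h.2

private theorem HB_sub {l R : ℤ} (h : l ≤ R) {v : ℤ × ℤ} (hv : v ∈ HB l) : v ∈ HB R := by
  rw [mem_HB] at hv ⊢
  omega

private theorem env_F {l R : ℤ} (hl : 1 ≤ l) (hR : 4 * l ≤ R) {F : Finset (Sym2 (ℤ × ℤ))} {t : ℤ × ℤ}
    (he : Env R F t) : (∀ e ∈ F, ∀ v ∈ e, v ∉ HB (2 * l)) ∧ t ∉ HB (2 * l) :=
  ⟨fun e h v hv hv' => he.fr e h v hv (HB_sub (by omega) hv'),
    fun hv' => he.tout (HB_sub (by omega) hv')⟩

private theorem vts_XN {l : ℤ} {N : Finset (ℤ × ℤ)} {v : ℤ × ℤ} (hv : v ∈ vts (XN l N)) :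
    v ∈ HB (2 * l) := by
  obtain ⟨e, he, hve⟩ := mem_vts.1 hv
  have h1 := XN_HE he
  obtain ⟨w, rfl⟩ := hve
  rw [mem_HE] at h1
  exact h1.1

private theorem HB_vts {l : ℤ} (hl : 1 ≤ l) {N : Finset (ℤ × ℤ)} (h : Val l N) {a : ℤ × ℤ}
    (ha : a ∈ HB l) : a ∈ vts (XN l N) := by
  refine vts_mono (HE_XN hl h) ?_
  rw [mem_vts]
  obtain ⟨x, y⟩ := a
  have ha' := ha
  rw [mem_HB] at ha'
  simp only at ha'
  by_cases hx : x + 1 ≤ l
  · refine ⟨s((x, y), (x + 1, y)), ?_, by simp⟩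
    rw [mem_HE, mem_HB, mem_HB]
    refine ⟨by simp only; omega, by simp only; omega, ?_⟩
    rw [Z2_adj_iff]
    simp
  · refine ⟨s((x, y), (x - 1, y)), ?_, by simp⟩
    rw [mem_HE, mem_HB, mem_HB]
    refine ⟨by simp only; omega, by simp only; omega, ?_⟩
    rw [Z2_adj_iff]
    simp

theorem cut_iff {l R : ℤ} (hl : 1 ≤ l) (hR : 4 * l ≤ R) {N : Finset (ℤ × ℤ)} (h : Val l N)
    {F ω : Finset (Sym2 (ℤ × ℤ))} {t : ℤ × ℤ} (he : Env R F t) (hc : cN l N ⊆ ω) (hω : ω ⊆ HE R ∪ F)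
    {A : Finset (ℤ × ℤ)} (hA : A ⊆ HB l) : HitA A t ω ↔ InN l N A ω ∧ OutN l N t ω := by
  obtain ⟨hF, ht⟩ := env_F hl hR he
  constructor
  · rintro ⟨a, ha, hat⟩
    obtain ⟨v', hv', hav⟩ := cut_in hl h hF hω (hA ha) ht hat
    refine ⟨⟨a, ha, v', hv', hav⟩, ?_⟩
    by_contra hno
    have hno' : ∀ z ∈ vts (cN l N), ¬ Cn (ω \ XN l N ∪ cN l N) t z :=
      fun z hz hz' => hno ⟨z, hz, hz'.symm⟩
    have key : ∀ z, z ∈ vts (XN l N) → ¬ Cn (ω \ XN l N ∪ cN l N) t z := by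
      intro z hz hcz
      have hne : t ≠ z := by
        rintro rfl
        exact ht (vts_XN hz)
      obtain ⟨e, he2, hze⟩ := mem_vts.1 (hcz.mem_vts hne).2
      rw [mem_union, mem_sdiff] at he2
      rcases he2 with ⟨h1, h2⟩ | h1
      · rcases mem_union.1 (hω h1) with h3 | h3
        · exact hno' z (cut_sep h hz h3 h2 hze) hcz
        · exact hF e h3 z hze (vts_XN hz)
      · exact hno' z (mem_vts.2 ⟨e, h1, hze⟩) hcz
    have hS : Cn (ω \ XN l N ∪ cN l N) t a := by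
      refine hat.symm.closed (S := fun z => Cn (ω \ XN l N ∪ cN l N) t z) (Cn_refl _ _) ?_
      intro z z' hz hzz
      by_cases hX : s(z, z') ∈ XN l N
      · exact absurd hz (key z (mem_vts.2 ⟨_, hX, by simp⟩))
      · exact hz.trans (Cn_edge (mem_union_left _ (mem_sdiff.2 ⟨hzz, hX⟩)))
    exact key a (HB_vts hl h (hA ha)) hS
  · rintro ⟨⟨a, ha, v, hv, hav⟩, ⟨w, hw, hwt⟩⟩
    refine ⟨a, ha, ?_⟩
    refine ((hav.mono inter_subset_left).trans ((cN_conn hl h v hv w hw).mono hc)).trans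
      (hwt.mono (union_subset sdiff_subset hc))

private theorem fact_N (hq : 0 < q) {l R : ℤ} (hl : 1 ≤ l) (hR : 4 * l ≤ R) {F : Finset (Sym2 (ℤ × ℤ))}
    (hNF : NL F) (hF : ∀ e ∈ F, ∀ v ∈ e, v ∉ HB (2 * l)) (A : Finset (ℤ × ℤ))
    {N : Finset (ℤ × ℤ)} (h : Val l N) {Z : Finset (Sym2 (ℤ × ℤ)) → Prop}
    (hZ : ∀ ω ω', ω \ XN l N = ω' \ XN l N → Z ω → Z ω') :
    P q (HE R) F (fun ω => (cN l N ⊆ ω ∧ (NN l ω = N ∧ InN l N A ω)) ∧ Z ω) =
      gam q l N A * P q (HE R) F (fun ω => cN l N ⊆ ω ∧ Z ω) := by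
  have h1 := fact (q := q) hq (E := HE R) (F := F) (X := XN l N) (c := cN l N)
    (Y := fun ω => NN l ω = N ∧ InN l N A ω) (Z := Z) (HE_NL R) hNF (XN_HE.trans (HE_mono (by omega)))
    (by
      rw [Finset.disjoint_left]
      intro e he1 he2
      have h2 := XN_HE he1
      induction e with
      | _ x y =>
        rw [mem_HE] at h2
        exact hF _ he2 x (by simp) h2.1)
    (cN_XN h) (cN_conn hl h)
    (by
      intro v hv hv'
      obtain ⟨e, he2, hve⟩ := mem_vts.1 hv'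
      rw [mem_union, mem_sdiff] at he2
      rcases he2 with ⟨h3, h4⟩ | h3
      · exact cut_sep h hv h3 h4 hve
      · exact absurd (vts_XN hv) (hF e h3 v hve))
    (by
      rintro ω ω' hs ⟨h3, h4⟩
      refine ⟨(NN_stop (NN_val h h3) h3 hs).2, ?_⟩
      unfold InN at h4 ⊢
      rw [← hs]
      exact h4)
    hZ
  exact h1

theorem hit_dec (hq : 1 ≤ q) {l R : ℤ} (hl : 1 ≤ l) (hR : 4 * l ≤ R) {F : Finset (Sym2 (ℤ × ℤ))}
    {t : ℤ × ℤ} (he : Env R F t) {A : Finset (ℤ × ℤ)} (hA : A ⊆ HB l) :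
    hit q R F A t = (∑ N ∈ VN l, WN q R l F t N * gam q l N A) +
      P q (HE R) F (fun ω => HitA A t ω ∧ ¬ Circ l ω) := by
  have hq0 : 0 < q := by linarith
  obtain ⟨hF, ht⟩ := env_F hl hR he
  unfold hit
  rw [P_split hq0 _ _ (HitA A t) (Circ l)]
  congr 1
  have h1 : P q (HE R) F (fun ω => HitA A t ω ∧ Circ l ω) =
      P q (HE R) F (fun ω => HitA A t ω ∧ NN l ω ∈ VN l) := by
    refine P_congr fun ζ _ => and_congr Iff.rfl ⟨fun h => mem_VN.2 ⟨_, h, rfl⟩, fun h => ?_⟩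
    exact NN_val (mem_VN.1 h) rfl
  rw [h1, P_fib hq0]
  refine sum_congr rfl fun N hN => ?_
  have hV := mem_VN.1 hN
  rw [mul_comm, WN, ← fact_N hq0 hl hR he.nl hF A hV]
  · refine P_congr fun ζ hζ => ?_
    have hω : ζ ∪ F ⊆ HE R ∪ F := union_subset_union hζ (Subset.refl _)
    constructor
    · rintro ⟨h2, h3⟩
      have hc : cN l N ⊆ ζ ∪ F := by
        have := cN_sub (l := l) (ω := ζ ∪ F)
        rw [h3] at this
        exact this
      obtain ⟨h4, h5⟩ := (cut_iff hl hR hV he hc hω hA).1 h2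
      exact ⟨⟨hc, h3, h4⟩, h5⟩
    · rintro ⟨⟨h2, h3, h4⟩, h5⟩
      exact ⟨(cut_iff hl hR hV he h2 hω hA).2 ⟨h4, h5⟩, h3⟩
  · intro ω ω' hs h2
    unfold OutN at h2 ⊢
    rw [← hs]
    exact h2

theorem Gam_eq (hq : 1 ≤ q) {l : ℤ} (hl : 1 ≤ l) {A : Finset (ℤ × ℤ)} (hA : A ⊆ HB l) :
    Gam q l A = P q (HE (4 * l)) ∅ (fun ω => Circ l ω ∧ InN l (NN l ω) A ω) := by
  have hq0 : 0 < q := by linarith
  have h1 : P q (HE (4 * l)) ∅ (fun ω => Circ l ω ∧ InN l (NN l ω) A ω) =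
      P q (HE (4 * l)) ∅ (fun ω => InN l (NN l ω) A ω ∧ NN l ω ∈ VN l) := by
    refine P_congr fun ζ _ => ⟨fun h => ⟨h.2, mem_VN.2 ⟨_, h.1, rfl⟩⟩, fun h => ⟨?_, h.1⟩⟩
    exact NN_val (mem_VN.1 h.2) rfl
  rw [h1, P_fib hq0, Gam]
  refine sum_congr rfl fun N hN => ?_
  have hV := mem_VN.1 hN
  have h2 := fact_N (q := q) hq0 (R := 4 * l) hl le_rfl (F := ∅) NL_empty
    (fun e he => absurd he (notMem_empty e)) A hV (Z := fun _ => True) (fun _ _ _ _ => trivial)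
  have h3 : P q (HE (4 * l)) ∅ (fun ω => cN l N ⊆ ω ∧ True) = aN q l N :=
    P_congr fun ζ _ => by simp
  rw [h3] at h2
  rw [mul_comm, ← h2]
  refine P_congr fun ζ _ => ?_
  constructor
  · rintro ⟨⟨h4, h5, h6⟩, -⟩
    refine ⟨?_, h5⟩
    rw [h5]
    exact h6
  · rintro ⟨h4, h5⟩
    rw [h5] at h4
    refine ⟨⟨?_, h5, h4⟩, trivial⟩
    have := cN_sub (l := l) (ω := ζ ∪ ∅)
    rw [h5] at this
    exact this

theorem WN_ge (hq : 1 ≤ q) {l R : ℤ} (hl : 1 ≤ l) (hR : 4 * l ≤ R) {F : Finset (Sym2 (ℤ × ℤ))}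
    {t : ℤ × ℤ} (he : Env R F t) {N : Finset (ℤ × ℤ)} (h : Val l N) :
    hit q R F (HB l) t * aN q l N ≤ WN q R l F t N := by
  have hq0 : 0 < q := by linarith
  have i1 : Inc (HitA (HB l) t) := fun ω ω' hs ⟨a, ha, hc⟩ => ⟨a, ha, hc.mono hs⟩
  have i2 : Inc (fun ω : Finset (Sym2 (ℤ × ℤ)) => cN l N ⊆ ω) := fun ω ω' hs hc => hc.trans hs
  have h1 : aN q l N ≤ P q (HE R) F (fun ω => cN l N ⊆ ω) :=
    P_mono_EF hq (HE_NL R) he.nl ((HE_mono hR).trans subset_union_left) (empty_subset _) i2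
  have h2 := P_fkg hq (HE_NL R) he.nl i1 i2
  refine (mul_le_mul_of_nonneg_left h1 (P_nonneg hq0 _ _ _)).trans (h2.trans ?_)
  refine P_mono hq0 fun ζ hζ h3 => ⟨h3.2, ?_⟩
  exact ((cut_iff hl hR h he h3.2 (union_subset_union hζ (Subset.refl _)) (Subset.refl _)).1 h3.1).2

end Pool.Agent.IDK
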