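import Pool.Agent.IDK.EOne

/-! # IDK/EMany (MP_b3e76a_pr, part E, helper98): many disjoint half annuli -/

namespace Pool.Agent.IDK

open Finset
open Pool.Agent.FKR
open Pool.Agent.H95.Perc (Inc conn link rect hor ver eh ev sumE sepE Inci mem_rect)
open Pool.Agent.H95.SumRule (edgesIn Z2)

variable {q : ℝ} {n y0 y1 ℓ h : ℤ} {K F0 F1 E1 : Finset (Sym2 (ℤ × ℤ))}

/-- the half annuli `(r, s)`, `(r', s')` with `s ≤ r'` have no common edge -/
theorem HA_disj {r s r' s' : ℤ} (hs : s ≤ r') : Disjoint (HA h r s) (HA h r' s') := by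
  rw [disjoint_left]
  intro e he he'
  unfold HA at he he'
  rw [mem_sdiff] at he he'
  apply he'.2
  refine Pool.Agent.H95.Perc.edgesIn_mono ?_ he.1
  intro v hv
  rw [mem_rect] at hv ⊢
  omega

theorem many_annuli (hq : 1 ≤ q) (hK : KCut n y0 y1 h K) (hV : KV n ℓ h K F0 F1)
    (h0 : ∀ t ∈ vts F0, ∀ t' ∈ vts F0, Cn F1 t t') (hE1 : NL E1) (hF1 : NL F1)
    {c : ℝ} (hc1 : c ≤ 1) (r s : ℕ → ℤ) (m : ℕ)
    (hr : ∀ k < m, 1 ≤ r k ∧ ℓ < r k ∧ s k ≤ n ∧ y0 ≤ h - s k ∧ h + s k ≤ y1)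
    (hmono : ∀ k k', k < k' → k' < m → s k ≤ r k')
    (hc : ∀ k < m, c ≤ P q (HA h (r k) (s k)) ∅ (HCc h (r k) (s k)))
    (hD : ∀ k < m, DK n y0 y1 K h (r k) (s k) ⊆ E1) :
    P q E1 F1 (fun ω => ∀ k < m, ¬ TK n y0 y1 K h (r k) (s k) ω) ≤ (1 - c) ^ m := by
  classical
  have hq0 : 0 < q := by linarith
  induction m with
  | zero =>
    rw [pow_zero]
    exact P_le_one hq0 _ _ _
  | succ m ih =>
    have ih' := ih (fun k hk => hr k (by omega)) (fun k k' hk hk' => hmono k k' hk (by omega))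
      (fun k hk => hc k (by omega)) (fun k hk => hD k (by omega))
    have hrm := hr m (by omega)
    set D := DK n y0 y1 K h (r m) (s m) with hDdef
    have hDE : D ⊆ E1 := hD m (by omega)
    have e1 : P q E1 F1 (fun ω => ∀ k < m + 1, ¬ TK n y0 y1 K h (r k) (s k) ω) =
        P q E1 F1 (fun ω => (fun ω => ¬ TK n y0 y1 K h (r m) (s m) ω) ω ∧
          (fun ω => ∀ k < m, ¬ TK n y0 y1 K h (r k) (s k) ω) ω) := by
      apply P_congr
      intro ζ _
      constructor
      · intro h1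
        exact ⟨h1 m (by omega), fun k hk => h1 k (by omega)⟩
      · rintro ⟨h1, h2⟩ k hk
        rcases Nat.lt_succ_iff_lt_or_eq.1 hk with h3 | h3
        · exact h2 k h3
        · rw [h3]; exact h1
    rw [e1, pow_succ, mul_comm]
    refine (P_indep_le hq0 hE1 hF1 hDE (a := 1 - c) ?_ ?_).trans ?_
    · -- the other half annuli do not use the edges of `D`
      intro ω ω' _ _ hωω' hB k hk
      have hdis : Disjoint (DK n y0 y1 K h (r k) (s k)) D :=
        (HA_disj (h := h) (hmono k m hk (by omega))).mono DK_sub DK_sub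
      have : ω ∩ DK n y0 y1 K h (r k) (s k) = ω' ∩ DK n y0 y1 K h (r k) (s k) := by
        ext e
        rw [mem_inter, mem_inter]
        constructor
        · rintro ⟨h1, h2⟩
          have h3 : e ∈ ω \ D := mem_sdiff.2 ⟨h1, disjoint_left.1 hdis h2⟩
          rw [hωω'] at h3
          exact ⟨(mem_sdiff.1 h3).1, h2⟩
        · rintro ⟨h1, h2⟩
          have h3 : e ∈ ω' \ D := mem_sdiff.2 ⟨h1, disjoint_left.1 hdis h2⟩
          rw [← hωω'] at h3
          exact ⟨(mem_sdiff.1 h3).1, h2⟩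
      rw [← TK_iff this]
      exact hB k hk
    · intro η hη
      rw [P_not hq0]
      have hηNL : NL (F1 ∪ η) := hF1.union (hE1.mono (hη.trans sdiff_subset))
      have hV' : KV n ℓ h K F0 (F1 ∪ η) := by
        intro v hv hv1 hv2
        rcases hV v hv hv1 hv2 with h1 | ⟨t, ht, hct⟩
        · exact Or.inl h1
        · exact Or.inr ⟨t, ht, hct.mono subset_union_left⟩
      have h0' : ∀ t ∈ vts F0, ∀ t' ∈ vts F0, Cn (F1 ∪ η) t t' :=
        fun t ht t' ht' => (h0 t ht t' ht').mono subset_union_left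
      have h5 := one_annulus (r := r m) (s := s m) hq hK hV' h0' hηNL hrm.2.1 hrm.1 hrm.2.2.1
        hrm.2.2.2.1 hrm.2.2.2.2
      have h6 := hc m (by omega)
      linarith
    · exact mul_le_mul_of_nonneg_left ih' (by linarith)

end Pool.Agent.IDK
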