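import Pool.Agent.IDK.ECut
import Pool.Agent.IDK.EMany

/-! # IDK/EAss (MP_b3e76a_pr, part E, helper98): near implies touch, in a rectangle -/

namespace Pool.Agent.IDK

open Finset
open Pool.Agent.FKR
open Pool.Agent.H95.Perc (Inc conn link rect hor ver eh ev sumE sepE Inci mem_rect)
open Pool.Agent.H95.SumRule (edgesIn Z2)

variable {q : ℝ} {n y0 y1 ℓ a b : ℤ} {E F ω : Finset (Sym2 (ℤ × ℤ))}

/-- a connection from the thin box to `F` gives a crossing of the extended rectangle -/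
theorem near_BE (St : Strip n y0 y1 E F) (hℓ : ℓ < n) (ha : y0 ≤ a) (hb : b ≤ y1)
    (hω : ω ⊆ E ∪ F) {p t : ℤ × ℤ} (hp : p ∈ rect 0 ℓ a b) (ht : t ∈ vts F) (hc : Cn ω p t) :
    BE n y0 y1 ℓ a b E F ω := by
  have hn := St.hn
  have hsub := kE_sub (ω := ω) St (show ℓ ≤ n + 1 by omega) ha hb
  have hωκ : ω ⊆ kE n ℓ a b E F ω := by
    intro e he
    rw [mem_kE]
    rcases mem_union.1 (hω he) with h1 | h1
    · exact Or.inl ⟨he, h1⟩
    · exact Or.inr (Or.inl h1)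
  rw [mem_rect] at hp
  -- left part
  have h1 : Cn (kE n ℓ a b E F ω) (-1, p.2) p := by
    have h2 := (seg_Cn (x := p.1) (h := p.2) (by omega))
    refine (show Cn (seg p.1 p.2) (-1, p.2) p by simpa using h2).mono ?_
    intro e he
    obtain ⟨i, h3, h4, rfl⟩ := mem_seg.1 he
    rw [mem_kE]
    right; right; left
    unfold OS
    rw [eh_mem_edgesIn_rect]
    omega
  -- right part
  obtain ⟨y, hy⟩ := St.right
  have hyr := vts_edgesIn _ (vts_mono St.hF hy)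
  rw [mem_rect] at hyr
  simp only at hyr
  have h2 : Cn (kE n ℓ a b E F ω) t (n + 1, y) := by
    have h3 : Cn (kE n ℓ a b E F ω) t (n, y) := (St.conF t ht _ hy).mono
      (fun e he => mem_kE.2 (Or.inr (Or.inl he)))
    refine h3.trans (Cn_edge (mem_kE.2 (Or.inr (Or.inr (Or.inr (mem_OR.2 ⟨y, hy, rfl⟩))))))
  refine ⟨(-1, p.2), (n + 1, y), ?_, ?_, rfl, rfl, ?_⟩
  · rw [mem_rect]; simp only; omega
  · rw [mem_rect]; simp only; omega
  · unfold conn
    rw [inter_eq_left.2 hsub]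
    exact (h1.trans (hc.mono hωκ)).trans h2

theorem near_touch (hq : 1 ≤ q) (St : Strip n y0 y1 E F) (hℓ0 : 0 ≤ ℓ) (hℓ : ℓ < n)
    (ha : y0 ≤ a) (hab : a < b) (hb : b ≤ y1) {c : ℝ} (hc0 : 0 ≤ c) (hc1 : c ≤ 1) (r s : ℕ → ℤ)
    (m : ℕ) (hr : ∀ k < m, 1 ≤ r k ∧ ℓ < r k ∧ s k ≤ n ∧ y0 ≤ a - s k ∧ b + s k ≤ y1)
    (hmono : ∀ k k', k < k' → k' < m → s k ≤ r k')
    (hc : ∀ k < m, ∀ h, a ≤ h → h ≤ b → c ≤ P q (HA h (r k) (s k)) ∅ (HCc h (r k) (s k)))
    (hAE : ∀ k < m, ∀ h, a ≤ h → h ≤ b → HA h (r k) (s k) ⊆ E) (S : ℤ)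
    (hS : ∀ k < m, s k ≤ S) :
    P q E F (fun ω => (∃ p ∈ rect 0 ℓ a b, ∃ t ∈ vts F, Cn ω p t) ∧
      ¬ ∃ y, a - S ≤ y ∧ y ≤ b ∧ ∃ t ∈ vts F, Cn ω (0, y) t) ≤ (1 - c) ^ m := by
  classical
  have hq0 : 0 < q := by linarith
  have hNLE : NL E := (NL_edgesIn _).mono St.hE
  have hNLF : NL F := (NL_edgesIn _).mono St.hF
  set A : Finset (Sym2 (ℤ × ℤ)) → Prop :=
    fun ω => ¬ ∃ y, a - S ≤ y ∧ y ≤ b ∧ ∃ t ∈ vts F, Cn ω (0, y) t with hA
  have step1 : P q E F (fun ω => (∃ p ∈ rect 0 ℓ a b, ∃ t ∈ vts F, Cn ω p t) ∧ A ω) ≤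
      P q E F (fun ω => A ω ∧ BE n y0 y1 ℓ a b E F ω) := by
    apply P_mono hq0
    rintro ζ hζ ⟨⟨p, hp, t, ht, hct⟩, h2⟩
    exact ⟨h2, near_BE St hℓ ha hb (union_subset_union hζ (Subset.refl _)) hp ht hct⟩
  refine step1.trans ?_
  have step2 := explore_le (q := q) (B := BE n y0 y1 ℓ a b E F)
    (X := XE n y0 y1 ℓ a b E F) (A := A) (c := (1 - c) ^ m) hq0 hNLE hNLF
    (fun ω _ e he => (mem_XE.1 he).1)
    (fun ω ω' hB h' => strip_stop St (by omega) ha hb hB h') ?_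
  · refine step2.trans ?_
    have h1 := P_le_one hq0 E F (BE n y0 y1 ℓ a b E F)
    have h2 : (0 : ℝ) ≤ (1 - c) ^ m := pow_nonneg (by linarith) m
    nlinarith
  · intro ω hFω hωE hB
    obtain ⟨h, K, hh1, hh2, hK, hV, hlow⟩ := exists_cut St hℓ0 hℓ ha hab hb hB
    set X := XE n y0 y1 ℓ a b E F ω with hX
    set F1 := F ∪ (ω ∩ X) with hF1
    have hXE : X ⊆ E := fun e he => (mem_XE.1 he).1
    have hNLF1 : NL F1 := hNLF.union (hNLE.mono (inter_subset_right.trans hXE))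
    have step3 : P q (E \ X) F1 A ≤
        P q (E \ X) F1 (fun ω => ∀ k < m, ¬ TK n y0 y1 K h (r k) (s k) ω) := by
      apply P_mono hq0
      intro ζ hζ hAζ k hk hT
      obtain ⟨y, g1, g2, v, hv, hvK, hcv⟩ := hT
      obtain ⟨hr1, hr2, hr3, hr4, hr5⟩ := hr k hk
      rw [mem_AnV] at hv
      have hvt : ∃ t ∈ vts F, Cn F1 v t := by
        rcases hV v hvK hv.1.1 (by omega) with h3 | h3
        · exfalso
          apply hv.2
          omega
        · exact h3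
      obtain ⟨t, ht, hct⟩ := hvt
      apply hAζ
      refine ⟨y, ?_, ?_, t, ht, (hcv.mono inter_subset_left).trans
        (hct.mono subset_union_right)⟩
      · have := hS k hk
        omega
      · omega
    refine step3.trans ?_
    apply many_annuli hq hK hV ?_ (hNLE.mono sdiff_subset) hNLF1 hc1 r s m ?_ hmono
      (fun k hk => hc k hk h hh1 hh2) ?_
    · intro t ht t' ht'
      exact (St.conF t ht t' ht').mono subset_union_left
    · intro k hk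
      obtain ⟨hr1, hr2, hr3, hr4, hr5⟩ := hr k hk
      exact ⟨hr1, hr2, hr3, by omega, by omega⟩
    · intro k hk e he
      obtain ⟨h3, h4⟩ := mem_DK.1 he
      rw [mem_sdiff]
      refine ⟨hAE k hk h hh1 hh2 h3, fun h5 => ?_⟩
      obtain ⟨f, hf, hfV⟩ := hlow e h5
      exact hfV (h4 f hf)

end Pool.Agent.IDK
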