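import Pool.Agent.IDK.EDual

/-! # IDK/EBot (MP_b3e76a_pr, part E, helper98): near implies touch, bottom side (dual model) -/

namespace Pool.Agent.IDK

open Finset
open Pool.Agent.FKR
open Pool.Agent.H95.Perc (Inc conn link rect hor ver eh ev sumE sepE Inci mem_rect)
open Pool.Agent.H95.SumRule (edgesIn Z2)

variable {q : ℝ}

/-- near implies touch for the swapped dual strip with the frozen edges `FD` -/
theorem dual_near (hq : 1 ≤ q) (hq4 : q < 4) (hu : UU q) : ∃ c : ℝ, 0 < c ∧ c ≤ 1 ∧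
    ∀ (n M ℓ m : ℕ) (a b : ℤ), (ℓ + 1) * 8 ^ m < M → (((ℓ + 1) * 8 ^ m : ℕ) : ℤ) ≤ a → a < b →
      b + (((ℓ + 1) * 8 ^ m : ℕ) : ℤ) < n →
      P q (ES n M) (FD n M) (fun ω => (∃ p ∈ rect 0 ℓ a b, ∃ t ∈ vts (FD n M), Cn ω p t) ∧
        ¬ ∃ y, a - (((ℓ + 1) * 8 ^ m : ℕ) : ℤ) ≤ y ∧ y ≤ b ∧
          ∃ t ∈ vts (FD n M), Cn ω (0, y) t) ≤ (1 - c) ^ m := by
  have hq0 : 0 < q := by linarith
  obtain ⟨c, hc, hc1, hle⟩ := hcc_ge hq hq4 hu
  refine ⟨c, hc, hc1, fun n M ℓ m a b h1 h2 h3 h4 => ?_⟩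
  have hpow : ∀ k, 1 ≤ 8 ^ k := fun k => Nat.one_le_pow _ _ (by norm_num)
  have hℓn : ℓ + 1 < M := by
    have := Nat.le_mul_of_pos_right (ℓ + 1) (hpow m)
    omega
  have hn : 1 ≤ n := by
    have : (0 : ℤ) ≤ (((ℓ + 1) * 8 ^ m : ℕ) : ℤ) := Int.natCast_nonneg _
    omega
  have St := strip_dual (n := n) (M := M) hn (by omega)
  set R : ℕ → ℕ := fun k => (ℓ + 1) * 8 ^ k with hR
  have hRmono : ∀ k k', k ≤ k' → R k ≤ R k' := by
    intro k k' hk
    exact Nat.mul_le_mul_left _ (Nat.pow_le_pow_right (by norm_num) hk)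
  have hR1 : ∀ k, ℓ + 1 ≤ R k := fun k => Nat.le_mul_of_pos_right (ℓ + 1) (hpow k)
  have hRs : ∀ k, R (k + 1) = 8 * R k := by
    intro k
    rw [hR]; simp only; rw [pow_succ]; ring
  have hh : ∀ k, (2 * R k) / 2 = R k := fun k => by omega
  have hc' : ∀ k : ℕ, ∀ h : ℤ, c ≤ P q (HA h ((R k : ℕ) : ℤ) ((R (k + 1) : ℕ) : ℤ)) ∅
      (HCc h ((R k : ℕ) : ℤ) ((R (k + 1) : ℕ) : ℤ)) := by
    intro k h
    have h5 := hle (2 * R k) (by have := hR1 k; omega) h
    rw [hh k] at h5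
    have e1 : (4 : ℤ) * ((2 * R k : ℕ) : ℤ) = ((R (k + 1) : ℕ) : ℤ) := by
      rw [hRs k]; push_cast; ring
    rw [e1] at h5
    exact h5
  have h7 : R m < M := h1
  have h8 : (((ℓ + 1) * 8 ^ m : ℕ) : ℤ) = ((R m : ℕ) : ℤ) := rfl
  rw [h8] at h2 h4 ⊢
  apply near_touch (q := q) (ℓ := ℓ) (a := a) (b := b) hq St (by omega) (by omega)
    (by omega) h3 (by omega) hc.le hc1 (fun k => ((R k : ℕ) : ℤ)) (fun k => ((R (k + 1) : ℕ) : ℤ)) m
    ?_ ?_ (fun k _ h _ _ => hc' k h) ?_ ((R m : ℕ) : ℤ) ?_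
  · intro k hk
    have h5 := hRmono (k + 1) m (by omega)
    have h6 := hR1 k
    exact ⟨by omega, by omega, by omega, by omega, by omega⟩
  · intro k k' hk hk'
    have h5 := hRmono (k + 1) k' (by omega)
    omega
  · intro k hk h hah hhb e he
    have h5 := hRmono (k + 1) m (by omega)
    have hD := HA_sub (n := (M : ℤ)) (y0 := -1) (y1 := (n : ℤ)) (h := h)
      (r := ((R k : ℕ) : ℤ)) (s := ((R (k + 1) : ℕ) : ℤ)) (by omega) (by omega) (by omega) he
    induction e with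
    | _ u v =>
      have h10 := HA_vert he (v := u) (by simp)
      have h11 := HA_vert he (v := v) (by simp)
      rw [mem_AnV] at h10 h11
      rw [Pool.Agent.H95.Perc.mem_edgesIn'] at hD
      obtain ⟨a1, b1⟩ := u
      obtain ⟨c1, d1⟩ := v
      rw [mem_ES]
      rw [mem_rect, mem_rect, Z2_adj_iff] at hD
      simp only at hD h10 h11
      omega
  · intro k hk
    have h5 := hRmono (k + 1) m (by omega)
    omega

theorem bot_near (hq : 1 ≤ q) (hq4 : q < 4) (hu : UU q) : ∃ c : ℝ, 0 < c ∧ c ≤ 1 ∧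
    ∀ (n M ℓ m : ℕ) (a b : ℤ), (ℓ + 1) * 8 ^ m < M → (((ℓ + 1) * 8 ^ m : ℕ) : ℤ) ≤ a → a < b →
      b + (((ℓ + 1) * 8 ^ m : ℕ) : ℤ) < n →
      P q (ED n M) (ring 0 n 0 M) (fun ω => (∃ p ∈ rect a b 0 ℓ, Cn ω p (-1, -1)) ∧
        ¬ ∃ i, a - (((ℓ + 1) * 8 ^ m : ℕ) : ℤ) ≤ i ∧ i ≤ b ∧ Cn ω (i, 0) (-1, -1)) ≤
          (1 - c) ^ m := by
  have hq0 : 0 < q := by linarith
  obtain ⟨c, hc, hc1, hle⟩ := dual_near hq hq4 hu
  refine ⟨c, hc, hc1, fun n M ℓ m a b h1 h2 h3 h4 => ?_⟩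
  refine le_trans (le_of_eq ?_) (hle n M ℓ m a b h1 h2 h3 h4)
  have hpos : (0 : ℤ) ≤ (((ℓ + 1) * 8 ^ m : ℕ) : ℤ) := Int.natCast_nonneg _
  have hn : 1 ≤ n := by omega
  have hM : 1 ≤ M := by omega
  have hℓM : ℓ + 1 ≤ (ℓ + 1) * 8 ^ m :=
    Nat.le_mul_of_pos_right (ℓ + 1) (Nat.one_le_pow _ _ (by norm_num))
  set S := (((ℓ + 1) * 8 ^ m : ℕ) : ℤ) with hS
  have hNLED : NL (ED n M) := NL_ED
  have hNLr : NL (ring 0 n 0 M) := (NL_edgesIn _).mono sdiff_subset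
  -- transport to swapped coordinates
  have e1 := P_equiv hq0 hNLED hNLr dg (fun ω => (∃ p ∈ rect 0 ℓ a b, Cn ω p (-1, -1)) ∧
        ¬ ∃ y, a - S ≤ y ∧ y ≤ b ∧ Cn ω (0, y) (-1, -1))
  have hinv : ∀ (ω : Finset (Sym2 (ℤ × ℤ))) (x y : ℤ), Cn (img dg ω) (x, y) (-1, -1) ↔
      Cn ω (y, x) (-1, -1) := by
    intro ω x y
    constructor
    · intro h
      have h5 := Cn_img (f := dg) h
      have h6 : img dg (img dg ω) = ω := by
        ext e
        induction e with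
        | _ u v =>
          obtain ⟨a1, b1⟩ := u
          obtain ⟨c1, d1⟩ := v
          rw [mem_img_dg, mem_img_dg]
      rw [h6] at h5
      exact h5
    · intro h
      exact Cn_img (f := dg) h
  have e2 : P q (ED n M) (ring 0 n 0 M) (fun ω => (∃ p ∈ rect a b 0 ℓ, Cn ω p (-1, -1)) ∧
        ¬ ∃ i, a - S ≤ i ∧ i ≤ b ∧ Cn ω (i, 0) (-1, -1)) =
      P q (ED n M) (ring 0 n 0 M) (fun ω =>
        (∃ p ∈ rect 0 ℓ a b, Cn (img dg ω) p (-1, -1)) ∧
        ¬ ∃ y, a - S ≤ y ∧ y ≤ b ∧ Cn (img dg ω) (0, y) (-1, -1)) := by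
    apply P_congr
    intro ζ _
    apply and_congr
    · constructor
      · rintro ⟨⟨x, y⟩, hp, hc'⟩
        refine ⟨(y, x), ?_, (hinv _ _ _).2 hc'⟩
        rw [mem_rect] at hp ⊢
        simp only at hp ⊢
        omega
      · rintro ⟨⟨x, y⟩, hp, hc'⟩
        refine ⟨(y, x), ?_, (hinv _ _ _).1 hc'⟩
        rw [mem_rect] at hp ⊢
        simp only at hp ⊢
        omega
    · apply not_congr
      constructor
      · rintro ⟨i, h5, h6, h7⟩
        exact ⟨i, h5, h6, (hinv _ _ _).2 h7⟩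
      · rintro ⟨i, h5, h6, h7⟩
        exact ⟨i, h5, h6, (hinv _ _ _).1 h7⟩
  rw [e2, ← e1]
  -- change of the frozen edges
  have hNLES : NL (ES n M) := (NL_edgesIn _).mono ES_sub
  have hNLFD : NL (FD n M) := (NL_edgesIn _).mono FD_sub
  have hNLri : NL (img dg (ring 0 n 0 M)) := by
    intro e he
    induction e with
    | _ u v =>
      obtain ⟨a1, b1⟩ := u
      obtain ⟨c1, d1⟩ := v
      rw [mem_ringD hn hM] at he
      rw [Sym2.mk_isDiag_iff, Prod.mk.injEq]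
      omega
  have hdis := ES_disj hn hM
  apply P_bc hq0 hNLES hNLri hNLFD hdis (hdis.mono_right FD_ring)
  · intro u hu v hv
    constructor
    · intro h
      by_cases huv : u = v
      · rw [huv]; exact Cn_refl _ _
      · have key : ∀ w : ℤ × ℤ, w ∈ vts (ES n M) → w ∈ vts (img dg (ring 0 n 0 M)) →
            w ∈ vts (FD n M) := by
          intro w hw hw'
          have h5 := vts_edgesIn _ (vts_mono ES_sub hw)
          rw [mem_vts_FD hn hM]
          refine ⟨h5, ?_⟩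
          rw [mem_rect] at h5
          obtain ⟨e, he, hwe⟩ := mem_vts.1 hw'
          induction e with
          | _ p r =>
            obtain ⟨a1, b1⟩ := p
            obtain ⟨c1, d1⟩ := r
            rw [mem_ringD hn hM] at he
            rw [Sym2.mem_iff] at hwe
            unfold Rd
            rcases hwe with rfl | rfl <;> simp only at h5 ⊢ <;> omega
        obtain ⟨h5, h6⟩ := h.mem_vts huv
        exact FD_conn hn hM (key u hu h5) (key v hv h6)
    · intro h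
      exact h.mono FD_ring
  · intro ζ hζ
    apply and_congr
    · constructor
      · rintro ⟨p, hp, hc'⟩
        refine ⟨p, hp, (conn_iff hn hM hζ ?_).1 hc'⟩
        rw [mem_rect] at hp ⊢
        omega
      · rintro ⟨p, hp, hc'⟩
        refine ⟨p, hp, (conn_iff hn hM hζ ?_).2 hc'⟩
        rw [mem_rect] at hp ⊢
        omega
    · apply not_congr
      constructor
      · rintro ⟨i, h5, h6, h7⟩
        refine ⟨i, h5, h6, (conn_iff hn hM hζ ?_).1 h7⟩
        rw [mem_rect]; simp only; omega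
      · rintro ⟨i, h5, h6, h7⟩
        refine ⟨i, h5, h6, (conn_iff hn hM hζ ?_).2 h7⟩
        rw [mem_rect]; simp only; omega

end Pool.Agent.IDK
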