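import Pool.Agent.IDK.EDefs

/-! # IDK/EFollow (MP_b3e76a_pr, part E, helper98): faces below a crossing, following a half circuit -/

namespace Pool.Agent.IDK

open Finset
open Pool.Agent.FKR
open Pool.Agent.H95.Perc (Inc conn link rect hor ver eh ev sumE sepE Inci mem_rect)
open Pool.Agent.H95.SumRule (edgesIn Z2)

variable {n y0 y1 h : ℤ} {K : Finset (Sym2 (ℤ × ℤ))}

theorem VB_step {f g : ℤ × ℤ} (hf : f ∈ VB n y0 y1 K) (hg : g ∈ PhE n y0 y1) (h' : Z2.Adj f g)
    (he : sepE f g ∉ K) : g ∈ VB n y0 y1 K := Ucl_step hf hg h' he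

theorem VB_iff {f g : ℤ × ℤ} (hf : f ∈ PhE n y0 y1) (hg : g ∈ PhE n y0 y1) (h' : Z2.Adj f g)
    (he : sepE f g ∉ K) : f ∈ VB n y0 y1 K ↔ g ∈ VB n y0 y1 K :=
  ⟨fun h1 => VB_step h1 hg h' he, fun h1 => VB_step h1 hf h'.symm
    (by rwa [Pool.Agent.H95.Perc.sepE_comm h'.symm])⟩

/-- the faces left and right of a vertical edge -/
theorem sep_ev (x y : ℤ) : sepE (x - 1, y) (x, y) = ev x y := by
  unfold sepE ev
  simp

/-- the faces below and above a horizontal edge -/
theorem sep_eh (x y : ℤ) : sepE (x, y - 1) (x, y) = eh x y := by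
  unfold sepE eh
  simp

theorem adj_ev (x y : ℤ) : Z2.Adj (x - 1, y) (x, y) := by
  rw [Z2_adj_iff]; omega

theorem adj_eh (x y : ℤ) : Z2.Adj (x, y - 1) (x, y) := by
  rw [Z2_adj_iff]; omega

/-- crossing a vertical edge outside of `K` -/
theorem VB_ev {x y : ℤ} (hx0 : 0 ≤ x) (hx1 : x ≤ n) (hy0' : y0 - 1 ≤ y) (hy1' : y ≤ y1)
    (he : ev x y ∉ K) : (x - 1, y) ∈ VB n y0 y1 K ↔ (x, y) ∈ VB n y0 y1 K := by
  apply VB_iff _ _ (adj_ev x y) (by rwa [sep_ev])
  · unfold PhE; rw [mem_rect]; simp only; omega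
  · unfold PhE; rw [mem_rect]; simp only; omega

theorem VB_eh {x y : ℤ} (hx0 : -1 ≤ x) (hx1 : x ≤ n) (hy0' : y0 ≤ y) (hy1' : y ≤ y1)
    (he : eh x y ∉ K) : (x, y - 1) ∈ VB n y0 y1 K ↔ (x, y) ∈ VB n y0 y1 K := by
  apply VB_iff _ _ (adj_eh x y) (by rwa [sep_eh])
  · unfold PhE; rw [mem_rect]; simp only; omega
  · unfold PhE; rw [mem_rect]; simp only; omega

/-- rotation around a vertex which is not on `K` -/
theorem VB_rot {u : ℤ × ℤ} (hu : u ∈ rect 0 n y0 y1) (hK : u ∉ vts K) {f g : ℤ × ℤ}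
    (hf : Inci f u) (hg : Inci g u) : f ∈ VB n y0 y1 K ↔ g ∈ VB n y0 y1 K := by
  obtain ⟨x, y⟩ := u
  rw [mem_rect] at hu
  simp only at hu
  have k1 : eh x y ∉ K := fun h => hK (mem_vts.2 ⟨_, h, by rw [mem_eh]; left; rfl⟩)
  have k2 : eh (x - 1) y ∉ K := fun h => hK (mem_vts.2 ⟨_, h, by rw [mem_eh]; right; simp⟩)
  have k3 : ev x y ∉ K := fun h => hK (mem_vts.2 ⟨_, h, by rw [mem_ev]; left; rfl⟩)
  have k4 : ev x (y - 1) ∉ K := fun h => hK (mem_vts.2 ⟨_, h, by rw [mem_ev]; right; simp⟩)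
  have e1 : (x - 1, y) ∈ VB n y0 y1 K ↔ (x, y) ∈ VB n y0 y1 K :=
    VB_ev (by omega) (by omega) (by omega) (by omega) k3
  have e2 : (x - 1, y - 1) ∈ VB n y0 y1 K ↔ (x, y - 1) ∈ VB n y0 y1 K :=
    VB_ev (by omega) (by omega) (by omega) (by omega) k4
  have e3 : (x, y - 1) ∈ VB n y0 y1 K ↔ (x, y) ∈ VB n y0 y1 K :=
    VB_eh (by omega) (by omega) (by omega) (by omega) k1
  have e4 : (x - 1, y - 1) ∈ VB n y0 y1 K ↔ (x - 1, y) ∈ VB n y0 y1 K :=
    VB_eh (by omega) (by omega) (by omega) (by omega) k2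
  have key : ∀ f : ℤ × ℤ, Inci f (x, y) → (f ∈ VB n y0 y1 K ↔ (x, y) ∈ VB n y0 y1 K) := by
    rintro ⟨a, b⟩ hf
    unfold Inci at hf
    simp only at hf
    have ha : a = x - 1 ∨ a = x := by omega
    have hb : b = y - 1 ∨ b = y := by omega
    rcases ha with rfl | rfl <;> rcases hb with rfl | rfl
    · rw [e2, e3]
    · exact e1
    · exact e3
    · exact Iff.rfl
  rw [key f hf, key g hg]

/-- the column `-1` below the height `h` is below `K` -/
theorem col_low (hK : KCut n y0 y1 h K) {j : ℤ} (h0 : y0 - 1 ≤ j) (h1 : j < h) (h2 : j ≤ y1) :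
    (-1, j) ∈ VB n y0 y1 K := by
  have key : ∀ m : ℕ, ∀ j : ℤ, j = y0 - 1 + m → j < h → j ≤ y1 → (-1, j) ∈ VB n y0 y1 K := by
    intro m
    induction m with
    | zero =>
      intro j hj _ _
      have e1 : j = y0 - 1 := by rw [hj]; simp
      have hn := hK.hn
      have hy := hK.hy
      have hm : ((-1 : ℤ), y0 - 1) ∈ PhE n y0 y1 := by
        unfold PhE; rw [mem_rect]; simp only; omega
      rw [e1]
      have := Ucl_seed (Φ := PhE n y0 y1) (κ := K) (S := fun f => f = (-1, y0 - 1)) hm rfl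
      exact this
    | succ m ih =>
      intro j hj h1 h2
      have h3 := ih (j - 1) (by rw [hj]; push_cast; ring) (by omega) (by omega)
      have hn := hK.hn
      refine (VB_eh (x := -1) (y := j) (by omega) (by omega) ?_ h2 ?_).1 h3
      · rw [hj]; push_cast; omega
      · intro he
        have := hK.col j he
        omega
  exact key (j - (y0 - 1)).toNat j (by omega) h1 h2

/-- the column `-1` above the height `h` is not below `K` -/
theorem col_high (hK : KCut n y0 y1 h K) {j : ℤ} (h0 : y0 - 1 ≤ j) (h1 : h ≤ j) (h2 : j ≤ y1) :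
    (-1, j) ∉ VB n y0 y1 K := by
  intro hV
  have hn := hK.hn
  have hy := hK.hy
  -- go up to the top row
  have key : ∀ m : ℕ, ∀ j' : ℤ, j' = j + m → j' ≤ y1 → (-1, j') ∈ VB n y0 y1 K := by
    intro m
    induction m with
    | zero => intro j' hj' _; rw [hj']; simpa using hV
    | succ m ih =>
      intro j' hj' h2'
      have h3 := ih (j' - 1) (by rw [hj']; push_cast; ring) (by omega)
      refine (VB_eh (x := -1) (y := j') (by omega) (by omega) ?_ h2' ?_).1 h3
      · rw [hj']; push_cast; omega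
      · intro he
        have := hK.col j' he
        rw [hj'] at this
        push_cast at this
        omega
  have htop := key (y1 - j).toNat y1 (by omega) le_rfl
  obtain ⟨h3, g, hg, hg', hr⟩ := mem_Ucl.1 htop
  have hc := hK.cross
  rw [hor_iff (by omega) hy.le] at hc
  have e1 : rect (-1) (n + 1 - 1) (y0 - 1) y1 = PhE n y0 y1 := by unfold PhE; congr 1; ring
  rw [e1] at hc
  have e2 : K ∩ edgesIn (rect (-1) (n + 1) y0 y1) = K := inter_eq_left.2 hK.sub
  rw [e2] at hc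
  subst hg'
  exact hc _ hg _ h3 rfl rfl hr

/-- sides of an edge of the rectangle are faces of `PhE` -/
theorem side_mem {e : Sym2 (ℤ × ℤ)} (he : e ∈ edgesIn (rect 0 n y0 y1)) {f : ℤ × ℤ}
    (hf : f ∈ star e) : f ∈ PhE n y0 y1 := by
  obtain ⟨x, y, rfl | rfl⟩ := edgesIn_cases he
  · rw [eh_mem_edgesIn_rect] at he
    rw [star_eh, mem_ev] at hf
    unfold PhE
    rw [mem_rect]
    rcases hf with rfl | rfl <;> simp only <;> omega
  · rw [ev_mem_edgesIn_rect] at he
    rw [star_ev, mem_eh] at hf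
    unfold PhE
    rw [mem_rect]
    rcases hf with rfl | rfl <;> simp only <;> omega

/-- both ends of an edge are incident to its sides -/
theorem side_inci {e : Sym2 (ℤ × ℤ)} (he : e ∈ edgesIn (rect 0 n y0 y1)) {f v : ℤ × ℤ}
    (hf : f ∈ star e) (hv : v ∈ e) : Inci f v := inci_of_side he hf hv

theorem follow (hK : KCut n y0 y1 h K) {ζ T : Finset (Sym2 (ℤ × ℤ))}
    (hζ : ζ ⊆ edgesIn (rect 0 n y0 y1)) (hT : T ⊆ edgesIn (rect 0 n y0 y1))
    (hTV : ∀ e ∈ T, ∃ f ∈ star e, f ∉ VB n y0 y1 K) {y y' : ℤ} (h1 : y0 ≤ y) (h2 : y < h)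
    (h3 : h < y') (h4 : y' ≤ y1) (hc : Cn (ζ ∪ T) (0, y) (0, y')) :
    ∃ v ∈ vts K, Cn ζ (0, y) v := by
  by_contra hcon
  push Not at hcon
  have hn := hK.hn
  -- everything reached by `ζ` is surrounded by faces below `K`
  have key : ∀ u, Cn ζ (0, y) u → u ∈ rect 0 n y0 y1 ∧ ∀ f, Inci f u → f ∈ VB n y0 y1 K := by
    intro u hu
    have h5 : Cn ζ (0, y) u ∧ u ∈ rect 0 n y0 y1 ∧ ∀ f, Inci f u → f ∈ VB n y0 y1 K := by
      refine hu.closed (S := fun u => Cn ζ (0, y) u ∧ u ∈ rect 0 n y0 y1 ∧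
        ∀ f, Inci f u → f ∈ VB n y0 y1 K) ?_ ?_
      · have hm : ((0 : ℤ), y) ∈ rect 0 n y0 y1 := by rw [mem_rect]; simp only; omega
        refine ⟨Cn_refl _ _, hm, fun f hf => ?_⟩
        have hnot : ((0 : ℤ), y) ∉ vts K := fun hk => hcon _ hk (Cn_refl _ _)
        refine (VB_rot hm hnot (f := (-1, y)) ?_ hf).1 (col_low hK (by omega) h2 (by omega))
        unfold Inci; simp only; omega
      · rintro a b ⟨ha1, ha2, ha3⟩ hab
        have he := hζ hab
        have hb : b ∈ rect 0 n y0 y1 := (Pool.Agent.H95.Perc.mem_edgesIn'.1 he).2.1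
        have hcb : Cn ζ (0, y) b := ha1.trans (Cn_edge hab)
        refine ⟨hcb, hb, fun f hf => ?_⟩
        have hnot : b ∉ vts K := fun hk => hcon _ hk hcb
        -- a common side
        obtain ⟨g, hg⟩ : ∃ g, g ∈ star s(a, b) := by
          induction star s(a, b) with
          | _ p q => exact ⟨p, by simp⟩
        exact (VB_rot hb hnot (side_inci he hg (by simp)) hf).1
          (ha3 g (side_inci he hg (by simp)))
    exact h5.2
  -- hence no edge of `T` is used
  have key2 : Cn ζ (0, y) (0, y') := by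
    refine hc.closed (S := fun u => Cn ζ (0, y) u) (Cn_refl _ _) ?_
    intro a b ha hab
    rcases mem_union.1 hab with h5 | h5
    · exact ha.trans (Cn_edge h5)
    · exfalso
      obtain ⟨f, hf, hfV⟩ := hTV _ h5
      exact hfV ((key a ha).2 f (side_inci (hT h5) hf (by simp)))
  have h6 := (key _ key2).2 (-1, y') (by unfold Inci; simp only; omega)
  exact col_high hK (by omega) h3.le h4 h6

end Pool.Agent.IDK
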