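import Pool.Agent.IDK.EStop
import Pool.Agent.IDK.EFollow

/-! # IDK/ECut (MP_b3e76a_pr, part E, helper98): the highest crossing and the cut `K` -/

namespace Pool.Agent.IDK

open Finset
open Pool.Agent.FKR
open Pool.Agent.H95.Perc (Inc conn link rect hor ver eh ev sumE sepE Inci mem_rect)
open Pool.Agent.H95.SumRule (edgesIn Z2)

variable {n y0 y1 ℓ a b : ℤ} {E F ω : Finset (Sym2 (ℤ × ℤ))}

/-- last exit of a walk from a set -/
theorem last_exit {V : Type*} {G : SimpleGraph V} (S : V → Prop) {u v : V} (p : G.Walk u v)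
    (hv : ¬ S v) : (∀ x ∈ p.support, ¬ S x) ∨ ∃ z w, ∃ q : G.Walk w v, S z ∧ G.Adj z w ∧
      s(z, w) ∈ p.edges ∧ (∀ x ∈ q.support, ¬ S x) ∧ (∀ e ∈ q.edges, e ∈ p.edges) := by
  induction p with
  | nil =>
    left
    intro x hx
    rw [SimpleGraph.Walk.support_nil, List.mem_singleton] at hx
    rw [hx]; exact hv
  | @cons u u' v hadj p ih =>
    rcases ih hv with h | ⟨z, w, q, h1, h2, h3, h4, h5⟩
    · by_cases hu : S u
      · right
        exact ⟨u, u', p, hu, hadj, by simp, h, fun e he => by simp [he]⟩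
      · left
        intro x hx
        rw [SimpleGraph.Walk.support_cons, List.mem_cons] at hx
        rcases hx with rfl | hx
        · exact hu
        · exact h x hx
    · right
      exact ⟨z, w, q, h1, h2, by simp [h3], h4, fun e he => by simp [h5 e he]⟩

/-- the faces of the box and of the tunnel -/
noncomputable def TS (ℓ a b : ℤ) : Finset (ℤ × ℤ) := rect (-1) (ℓ - 1) a (b - 1)

/-- an edge at a face of the tunnel is in `OS` -/
theorem sep_TS {f g : ℤ × ℤ} (hg : g ∈ TS ℓ a b) (h : Z2.Adj f g) : sepE f g ∈ OS ℓ a b := by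
  obtain ⟨f1, f2⟩ := f
  obtain ⟨g1, g2⟩ := g
  unfold TS at hg
  rw [mem_rect] at hg
  simp only at hg
  rw [Z2_adj_iff] at h
  unfold sepE OS
  simp only
  by_cases h1 : f1 = g1
  · rw [if_pos h1]
    have := @eh_mem_edgesIn_rect f1 (max f2 g2) (-1) ℓ a b
    rw [show s((f1, max f2 g2), (f1 + 1, max f2 g2)) = eh f1 (max f2 g2) from rfl, this]
    omega
  · rw [if_neg h1]
    have := @ev_mem_edgesIn_rect (max f1 g1) f2 (-1) ℓ a b
    rw [show s((max f1 g1, f2), (max f1 g1, f2 + 1)) = ev (max f1 g1) f2 from rfl, this]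
    omega

theorem reach_closed {V : Type*} {G : SimpleGraph V} {u v : V} (h : G.Reachable u v)
    {S : V → Prop} (hu : S u) (hS : ∀ x y, S x → G.Adj x y → S y) : S v := by
  obtain ⟨p⟩ := h
  induction p with
  | nil => exact hu
  | cons hadj p ih => exact ih (hS _ _ hu hadj)

/-- the cluster of the top row does not enter the tunnel -/
theorem TS_not_U (hb : b ≤ y1) {f : ℤ × ℤ} (hf : f ∈ TS ℓ a b) :
    f ∉ Ucl (PhE n y0 y1) (kE n ℓ a b E F ω) (fun f => f.2 = y1) := by
  intro hU
  obtain ⟨-, g, hg, hg2, hr⟩ := mem_Ucl.1 hU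
  refine reach_closed hr (S := fun x => x ∉ TS ℓ a b) ?_ ?_ hf
  · intro h1
    unfold TS at h1
    rw [mem_rect] at h1
    omega
  · intro x y hx hxy hy
    obtain ⟨-, -, hadj, he⟩ := dG_adj.1 hxy
    exact he (mem_kE.2 (Or.inr (Or.inr (Or.inl (sep_TS hy hadj)))))

/-- an edge in the column `-1` of the extended configuration belongs to the tunnel -/
theorem col_OS (St : Strip n y0 y1 E F) {j : ℤ} (he : eh (-1) j ∈ kE n ℓ a b E F ω) :
    a ≤ j ∧ j ≤ b := by
  have hn := St.hn
  rw [mem_kE] at he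
  rcases he with h1 | h1 | h1 | h1
  · have := St.hE h1.2
    rw [eh_mem_edgesIn_rect] at this
    omega
  · have := St.hF h1
    rw [eh_mem_edgesIn_rect] at this
    omega
  · unfold OS at h1
    rw [eh_mem_edgesIn_rect] at h1
    omega
  · rw [mem_OR] at h1
    obtain ⟨y, -, h2⟩ := h1
    rw [eh_inj] at h2
    omega

/-- the column `-1` below the tunnel is not reached from the top row -/
theorem col_not_U (St : Strip n y0 y1 E F) (ha : y0 ≤ a) (hab : a < b) (hb : b ≤ y1)
    (hB : ∀ f ∈ PhE n y0 y1, f.2 = y0 - 1 →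
      f ∉ Ucl (PhE n y0 y1) (kE n ℓ a b E F ω) (fun f => f.2 = y1)) {j : ℤ} (h1 : y0 - 1 ≤ j)
    (h2 : j < a) :
    (-1, j) ∉ Ucl (PhE n y0 y1) (kE n ℓ a b E F ω) (fun f => f.2 = y1) := by
  have hn := St.hn
  have hy := St.hy
  intro hU
  have key : ∀ m : ℕ, ∀ i : ℤ, i = j - m → y0 - 1 ≤ i →
      (-1, i) ∈ Ucl (PhE n y0 y1) (kE n ℓ a b E F ω) (fun f => f.2 = y1) := by
    intro m
    induction m with
    | zero => intro i hi _; rw [hi]; simpa using hU
    | succ m ih =>
      intro i hi h3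
      have h4 := ih (i + 1) (by rw [hi]; push_cast; ring) (by omega)
      have hi' : i = j - m - 1 := by rw [hi]; push_cast; ring
      refine Ucl_step h4 ?_ ?_ ?_
      · unfold PhE; rw [mem_rect]; simp only; omega
      · rw [Z2_adj_iff]; omega
      · intro he
        have hadj : Z2.Adj ((-1 : ℤ), i + 1) (-1, i) := by rw [Z2_adj_iff]; omega
        rw [Pool.Agent.H95.Perc.sepE_comm hadj] at he
        have e1 := sep_eh (-1) (i + 1)
        rw [show i + 1 - 1 = i by ring] at e1
        rw [e1] at he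
        have := col_OS St he
        rw [hi] at this
        push_cast at this
        omega
  have h5 := key (j - (y0 - 1)).toNat (y0 - 1) (by omega) le_rfl
  refine hB (-1, y0 - 1) ?_ rfl h5
  unfold PhE; rw [mem_rect]; simp only; omega

/-- the faces of the box and the tunnel are not above the highest crossing -/
theorem TS_not_N (St : Strip n y0 y1 E F) (hℓ : ℓ ≤ n + 1) (ha : y0 ≤ a) (hab : a < b)
    (hb : b ≤ y1)
    (hB : ∀ f ∈ PhE n y0 y1, f.2 = y0 - 1 →
      f ∉ Ucl (PhE n y0 y1) (kE n ℓ a b E F ω) (fun f => f.2 = y1)) {f : ℤ × ℤ}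
    (hf : f ∈ TS ℓ a b) : f ∉ NE n y0 y1 ℓ a b E F ω := by
  have hn := St.hn
  have hy := St.hy
  set U := Ucl (PhE n y0 y1) (kE n ℓ a b E F ω) (fun f => f.2 = y1) with hU
  -- the column
  have hcol : ∀ m : ℕ, ∀ i : ℤ, i = y0 - 1 + m → i < b →
      (-1, i) ∈ Ucl (PhE n y0 y1 \ U) ∅ (fun f => f.2 = y0 - 1) := by
    have hmem : ∀ i : ℤ, y0 - 1 ≤ i → i < b → ((-1 : ℤ), i) ∈ PhE n y0 y1 \ U := by
      intro i h1 h2
      rw [mem_sdiff]
      refine ⟨?_, ?_⟩
      · unfold PhE; rw [mem_rect]; simp only; omega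
      · rcases lt_or_ge i a with h3 | h3
        · exact col_not_U St ha hab hb hB h1 h3
        · by_cases h4 : 0 ≤ ℓ
          · apply TS_not_U hb
            unfold TS; rw [mem_rect]; simp only; omega
          · -- empty tunnel: `TS` is empty
            exfalso
            unfold TS at hf
            rw [mem_rect] at hf
            omega
    intro m
    induction m with
    | zero =>
      intro i hi hib
      have e1 : i = y0 - 1 := by rw [hi]; simp
      rw [e1]
      have := Ucl_seed (Φ := PhE n y0 y1 \ U) (κ := ∅) (S := fun f => f.2 = y0 - 1)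
        (f := (-1, y0 - 1)) (hmem _ le_rfl (by omega)) rfl
      exact this
    | succ m ih =>
      intro i hi hib
      have h3 := ih (i - 1) (by rw [hi]; push_cast; ring) (by omega)
      exact Ucl_step h3 (hmem i (by rw [hi]; push_cast; omega) hib)
        (by rw [Z2_adj_iff]; omega) (notMem_empty _)
  obtain ⟨x, j⟩ := f
  have hf' := hf
  unfold TS at hf'
  rw [mem_rect] at hf'
  simp only at hf'
  -- the row
  have hrow : ∀ m : ℕ, ∀ i : ℤ, i = -1 + m → i ≤ ℓ - 1 →
      (i, j) ∈ Ucl (PhE n y0 y1 \ U) ∅ (fun f => f.2 = y0 - 1) := by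
    intro m
    induction m with
    | zero =>
      intro i hi _
      have e1 : i = -1 := by rw [hi]; simp
      rw [e1]
      exact hcol (j - (y0 - 1)).toNat j (by omega) (by omega)
    | succ m ih =>
      intro i hi hiℓ
      have h3 := ih (i - 1) (by rw [hi]; push_cast; ring) (by omega)
      refine Ucl_step h3 ?_ (by rw [Z2_adj_iff]; omega) (notMem_empty _)
      rw [mem_sdiff]
      refine ⟨?_, TS_not_U hb ?_⟩
      · unfold PhE; rw [mem_rect]; simp only; rw [hi]; push_cast; omega
      · unfold TS; rw [mem_rect]; simp only; rw [hi]; push_cast; omega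
  have hW := hrow (x - (-1)).toNat x (by omega) hf'.2.1
  intro hN
  unfold NE Nx at hN
  rw [mem_sdiff] at hN
  exact hN.2 hW

/-- the horizontal segment from `(-1, h)` to `(x, h)` -/
noncomputable def seg (x h : ℤ) : Finset (Sym2 (ℤ × ℤ)) := (Finset.Ico (-1) x).image fun i => eh i h

theorem mem_seg {x h : ℤ} {e : Sym2 (ℤ × ℤ)} : e ∈ seg x h ↔ ∃ i, -1 ≤ i ∧ i < x ∧ e = eh i h := by
  classical
  unfold seg
  rw [mem_image]
  constructor
  · rintro ⟨i, hi, rfl⟩
    rw [Finset.mem_Ico] at hi
    exact ⟨i, hi.1, hi.2, rfl⟩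
  · rintro ⟨i, h1, h2, rfl⟩
    exact ⟨i, Finset.mem_Ico.2 ⟨h1, h2⟩, rfl⟩

theorem seg_Cn {x h : ℤ} (hx : -1 ≤ x) : Cn (seg x h) (-1, h) (x, h) := by
  have key : ∀ m : ℕ, ∀ i : ℤ, i = -1 + m → i ≤ x → Cn (seg x h) (-1, h) (i, h) := by
    intro m
    induction m with
    | zero =>
      intro i hi _
      have e1 : i = -1 := by rw [hi]; simp
      rw [e1]; exact Cn_refl _ _
    | succ m ih =>
      intro i hi hix
      have h3 := ih (i - 1) (by rw [hi]; push_cast; ring) (by omega)
      refine h3.trans (Cn_edge (mem_seg.2 ⟨i - 1, by rw [hi]; push_cast; omega, by omega, ?_⟩))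
      unfold eh; simp
  exact key (x - (-1)).toNat x (by omega) le_rfl

theorem exists_cut (St : Strip n y0 y1 E F) (hℓ0 : 0 ≤ ℓ) (hℓ : ℓ < n) (ha : y0 ≤ a) (hab : a < b)
    (hb : b ≤ y1) (hB : BE n y0 y1 ℓ a b E F ω) :
    ∃ h K, a ≤ h ∧ h ≤ b ∧ KCut n y0 y1 h K ∧
      KV n ℓ h K F (F ∪ (ω ∩ XE n y0 y1 ℓ a b E F ω)) ∧
      ∀ e ∈ XE n y0 y1 ℓ a b E F ω, ∃ f ∈ star e, f ∉ VB n y0 y1 K := by
  classical
  have hn := St.hn
  have hy := St.hy
  have hsubκ := kE_sub (ω := ω) St (show ℓ ≤ n + 1 by omega) ha hb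
  have hB' := (BE_iff St (show ℓ ≤ n + 1 by omega) ha hb).1 hB
  set Φ := PhE n y0 y1 with hΦ
  set κ := kE n ℓ a b E F ω with hκ
  set N := NE n y0 y1 ℓ a b E F ω with hN
  set X := XE n y0 y1 ℓ a b E F ω with hX
  have hNdef : N = Nx Φ κ (fun f => f.2 = y1) (fun f => f.2 = y0 - 1) := rfl
  have htop : ∀ i, -1 ≤ i → i < n + 1 → (i, y1) ∈ N := by
    intro i h1 h2
    have hm : (i, y1) ∈ Φ := by rw [hΦ]; unfold PhE; rw [mem_rect]; simp only; omega
    rw [hNdef]
    exact Nx_seed (S := fun f => f.2 = y1) (S' := fun f => f.2 = y0 - 1) hm rfl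
  have hbot : ∀ i, (i, y0 - 1) ∉ N := by
    intro i hi
    have hiΦ : (i, y0 - 1) ∈ Φ := by rw [hNdef] at hi; exact Nx_subset hi
    rw [hNdef] at hi
    exact Nx_other (S' := fun f => f.2 = y0 - 1) hiΦ rfl (hB' _ hiΦ rfl) hi
  have hPe : rect (-1) (n + 1 - 1) (y0 - 1) y1 = Φ := PhE_eq
  obtain ⟨u, v, p, hp, hu, hv, hps, hpe⟩ := minCut_hor (x0 := -1) (x1 := n + 1) (y0 := y0)
    (y1 := y1) (N := N) (by omega) hy.le (by rw [hPe, hNdef]; exact Nx_subset) htop hbot
    (by
      rw [hPe]
      intro f hf hfN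
      obtain ⟨g, hg, hg2, -, hr⟩ := Nx_conn' (κ := κ) (S := fun f => f.2 = y1)
        (S' := fun f => f.2 = y0 - 1) hf hfN
      exact ⟨g, hg, hg2, hr⟩)
    (by
      rw [hPe]
      rintro f hf ⟨g, hg, hgN, hadj⟩
      obtain ⟨t, ht, ht2, hr⟩ := Nx_conn (κ := κ) (S := fun f => f.2 = y1)
        (S' := fun f => f.2 = y0 - 1) hf hg hgN hadj
      exact ⟨t, ht, ht2, hr⟩)
  rw [hPe] at hpe
  have hpκ : ∀ e ∈ p.edges, e ∈ κ := fun e he => bdN_Nx_subset ((hpe e).1 he)
  -- the set of vertices of the box and the tunnel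
  have hvS : ¬ (v ∈ rect (-1) ℓ a b) := by rw [mem_rect]; omega
  -- vertices in the column `-1` only have edges of the tunnel
  have hcolv : ∀ z w : ℤ × ℤ, s(z, w) ∈ κ → z.1 = -1 → s(z, w) ∈ OS ℓ a b := by
    intro z w h1 h2
    rw [hκ, mem_kE] at h1
    rcases h1 with h3 | h3 | h3 | h3
    · have := (Pool.Agent.H95.Perc.mem_edgesIn'.1 (St.hE h3.2)).1
      rw [mem_rect] at this
      omega
    · have := (Pool.Agent.H95.Perc.mem_edgesIn'.1 (St.hF h3)).1
      rw [mem_rect] at this
      omega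
    · exact h3
    · rw [mem_OR] at h3
      obtain ⟨y, -, h4⟩ := h3
      have h5 : z ∈ eh n y := by rw [← h4]; simp
      rw [mem_eh] at h5
      rcases h5 with rfl | rfl <;> simp only at h2 <;> omega
  have huS : u ∈ rect (-1) ℓ a b := by
    cases p with
    | nil => omega
    | @cons _ u' _ hadj p' =>
      have h1 : s(u, u') ∈ κ := hpκ _ (by simp)
      have h2 := hcolv _ _ h1 hu
      exact (Pool.Agent.H95.Perc.mem_edgesIn'.1 h2).1
  rcases last_exit (fun x => x ∈ rect (-1) ℓ a b) p hvS with hno | ⟨z, w, pq, hz, hzw, hzwp, hqS, hqp⟩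
  · exact absurd huS (hno u p.start_mem_support)
  have hwS : ¬ (w ∈ rect (-1) ℓ a b) := hqS w pq.start_mem_support
  have hzw' : s(z, w) ∈ κ := hpκ _ hzwp
  -- edges with an end outside of the box are not in `OS`
  have hnOS : ∀ x y : ℤ × ℤ, ¬ (x ∈ rect (-1) ℓ a b ∧ y ∈ rect (-1) ℓ a b) →
      s(x, y) ∉ OS ℓ a b := by
    intro x y h1 h2
    have h3 := Pool.Agent.H95.Perc.mem_edgesIn'.1 h2
    exact h1 ⟨h3.1, h3.2.1⟩
  have hz0 : 0 ≤ z.1 := by
    by_contra hcon
    have hz' := hz
    rw [mem_rect] at hz'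
    have h1 : z.1 = -1 := by omega
    exact hnOS z w (fun h => hwS h.2) (hcolv z w hzw' h1)
  -- the edges after the last exit: if active, they are explored
  have hreal : ∀ e ∈ p.edges, e ∉ OS ℓ a b → (e ∈ F ∪ (ω ∩ X)) ∨ e ∈ OR n F := by
    intro e he h1
    have h2 := hpκ e he
    rw [hκ, mem_kE] at h2
    rcases h2 with h3 | h3 | h3 | h3
    · left
      rw [mem_union, mem_inter]
      right
      refine ⟨h3.1, mem_XE.2 ⟨h3.2, h1, ?_⟩⟩
      obtain ⟨f, g, hf, hg, hgN, hadj, rfl⟩ := mem_bdN.1 ((hpe e).1 he)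
      exact ⟨f, hf, by rw [star_sepE hadj]; simp⟩
    · left; exact mem_union_left _ h3
    · exact absurd h3 h1
    · right; exact h3
  have hOSq : ∀ e ∈ pq.edges, e ∉ OS ℓ a b := by
    intro e he h1
    induction e with
    | _ x y =>
      have h2 := (Pool.Agent.H95.Perc.mem_edgesIn'.1 h1).1
      exact hqS x (pq.fst_mem_support_of_mem_edges he) h2
  have hqv : ∀ x ∈ pq.support, x.1 ≤ n → ∃ t ∈ vts F, Cn (F ∪ (ω ∩ X)) x t := by
    have hgen : ∀ {w v : ℤ × ℤ} (pq : Z2.Walk w v), v.1 = n + 1 →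
        (∀ e ∈ pq.edges, (e ∈ F ∪ (ω ∩ X)) ∨ e ∈ OR n F) →
        ∀ x ∈ pq.support, x.1 ≤ n → ∃ t ∈ vts F, Cn (F ∪ (ω ∩ X)) x t := by
      intro w v pq
      induction pq with
      | nil =>
        intro hv _ x hx hxn
        rw [SimpleGraph.Walk.support_nil, List.mem_singleton] at hx
        rw [hx] at hxn
        omega
      | @cons w w' v hadj pq ih =>
        intro hv he x hx hxn
        have ih' := ih hv (fun e h => he e (by simp [h]))
        rw [SimpleGraph.Walk.support_cons, List.mem_cons] at hx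
        rcases hx with rfl | hx
        · rcases he s(x, w') (by simp) with h1 | h1
          · by_cases hw'n : w'.1 ≤ n
            · obtain ⟨t, ht, hct⟩ := ih' w' pq.start_mem_support hw'n
              exact ⟨t, ht, (Cn_edge h1).trans hct⟩
            · exfalso
              have h2 : s(x, w') ∈ edgesIn (rect 0 n y0 y1) := by
                rcases mem_union.1 h1 with h3 | h3
                · exact St.hF h3
                · exact St.hE (mem_XE.1 (mem_inter.1 h3).2).1
              have h3 := (Pool.Agent.H95.Perc.mem_edgesIn'.1 h2).2.1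
              rw [mem_rect] at h3
              omega
          · rw [mem_OR] at h1
            obtain ⟨y, hy1, hy2⟩ := h1
            have h3 : x ∈ eh n y := by rw [← hy2]; simp
            rw [mem_eh] at h3
            rcases h3 with rfl | rfl
            · exact ⟨_, hy1, Cn_refl _ _⟩
            · simp only at hxn; omega
        · exact ih' x hx hxn
    exact hgen pq hv (fun e he => hreal e (hqp e he) (hOSq e he))
  -- the cut
  set K : Finset (Sym2 (ℤ × ℤ)) := seg z.1 z.2 ∪ insert s(z, w) pq.edges.toFinset with hK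
  have memK : ∀ e, e ∈ K ↔ e ∈ seg z.1 z.2 ∨ e = s(z, w) ∨ e ∈ pq.edges := by
    intro e
    rw [hK, mem_union, mem_insert, List.mem_toFinset]
  have hz' := hz
  rw [mem_rect] at hz'
  have hsegsub : seg z.1 z.2 ⊆ OS ℓ a b := by
    intro e he
    obtain ⟨i, h1, h2, rfl⟩ := mem_seg.1 he
    unfold OS
    rw [eh_mem_edgesIn_rect]
    omega
  have hKR : K ⊆ edgesIn (rect (-1) (n + 1) y0 y1) := by
    intro e he
    rcases (memK e).1 he with h1 | h1 | h1
    · exact hsubκ (mem_kE.2 (Or.inr (Or.inr (Or.inl (hsegsub h1)))))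
    · rw [h1]; exact hsubκ hzw'
    · exact hsubκ (hpκ e (hqp e h1))
  have hKcn : Cn K (-1, z.2) v := by
    have h1 : Cn K (-1, z.2) z := by
      have := (seg_Cn (x := z.1) (h := z.2) (by omega)).mono
        (show seg z.1 z.2 ⊆ K from fun e he => (memK e).2 (Or.inl he))
      simpa using this
    have h2 : Cn K z w := Cn_edge ((memK _).2 (Or.inr (Or.inl rfl)))
    have h3 : Cn K w v := by
      have hgen : ∀ {w v : ℤ × ℤ} (pq : Z2.Walk w v), (∀ e ∈ pq.edges, e ∈ K) → Cn K w v := by
        intro w v pq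
        induction pq with
        | nil => intro _; exact Cn_refl _ _
        | cons hadj pq ih =>
          intro he
          exact (Cn_edge (he _ (by simp))).trans (ih (fun e h => he e (by simp [h])))
      exact hgen pq (fun e he => (memK e).2 (Or.inr (Or.inr he)))
    exact (h1.trans h2).trans h3
  have hcross : hor (-1) (n + 1) y0 y1 K := by
    refine ⟨(-1, z.2), v, ?_, hps v p.end_mem_support, rfl, hv, ?_⟩
    · rw [mem_rect]; simp only; omega
    · unfold conn
      rw [inter_eq_left.2 hKR]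
      exact hKcn
  have hKC : KCut n y0 y1 z.2 K := by
    refine ⟨hn, hy, hKR, hcross, ?_⟩
    intro j hj
    rcases (memK _).1 hj with h1 | h1 | h1
    · obtain ⟨i, -, -, h2⟩ := mem_seg.1 h1
      exact (eh_inj.1 h2).2
    · exfalso
      have h2 : s(z, w) ∈ OS ℓ a b := by
        rw [← h1]
        have h3 := col_OS St (h1 ▸ hzw' : eh (-1) j ∈ kE n ℓ a b E F ω)
        unfold OS
        rw [eh_mem_edgesIn_rect]
        omega
      exact hnOS z w (fun h => hwS h.2) h2
    · exfalso
      apply hOSq _ h1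
      have h3 := col_OS St (hpκ _ (hqp _ h1))
      unfold OS
      rw [eh_mem_edgesIn_rect]
      omega
  refine ⟨z.2, K, by omega, by omega, hKC, ?_, ?_⟩
  · -- vertices of `K`
    intro x hx hx0 hxn
    obtain ⟨e, he, hxe⟩ := mem_vts.1 hx
    rcases (memK e).1 he with h1 | h1 | h1
    · left
      obtain ⟨i, h2, h3, rfl⟩ := mem_seg.1 h1
      rw [mem_eh] at hxe
      rcases hxe with rfl | rfl
      · exact ⟨by simp only; omega, rfl⟩
      · exact ⟨by simp only; omega, rfl⟩
    · rw [h1, Sym2.mem_iff] at hxe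
      rcases hxe with rfl | rfl
      · left; omega
      · right
        exact hqv _ pq.start_mem_support hxn
    · right
      induction e with
      | _ c d =>
        rw [Sym2.mem_iff] at hxe
        rcases hxe with rfl | rfl
        · exact hqv _ (pq.fst_mem_support_of_mem_edges h1) hxn
        · exact hqv _ (pq.snd_mem_support_of_mem_edges h1) hxn
  · -- explored edges touch a face above `K`
    intro e he
    obtain ⟨-, -, f, hfN, hfe⟩ := mem_XE.1 he
    refine ⟨f, hfe, fun hfV => ?_⟩
    obtain ⟨-, g0, hg0, hg0e, hr⟩ := mem_Ucl.1 hfV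
    subst hg0e
    have hcr := hcross
    rw [hor_iff (by omega) hy.le, hPe, inter_eq_left.2 hKR] at hcr
    have hfin := reach_closed hr (S := fun x => (dG Φ K).Reachable (-1, y0 - 1) x ∧ x ∉ N)
      ⟨SimpleGraph.Reachable.refl _, hbot _⟩ (by
        rintro x y ⟨hx1, hx2⟩ hxy
        have hxy1 : (dG Φ K).Reachable (-1, y0 - 1) y := hx1.trans (SimpleGraph.Adj.reachable hxy)
        refine ⟨hxy1, fun hyN => ?_⟩
        obtain ⟨hxΦ, hyΦ, hadj, hxyK⟩ := dG_adj.1 hxy
        obtain ⟨t, ht, ht2, htr⟩ := Nx_conn (κ := κ) (S := fun f => f.2 = y1)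
          (S' := fun f => f.2 = y0 - 1) hyN hxΦ hx2 hadj.symm
        change (dG Φ (bdN Φ N)).Reachable t y at htr
        have htN : t ∈ N := by
          rw [hNdef]; exact Nx_seed (S := fun f => f.2 = y1) (S' := fun f => f.2 = y0 - 1) ht ht2
        -- this connection avoids `K`
        have h6 := reach_closed htr (S := fun x => (dG Φ K).Reachable t x ∧ x ∈ N)
          ⟨SimpleGraph.Reachable.refl _, htN⟩ (by
            rintro x' y' ⟨h1, h2⟩ h3
            obtain ⟨h4, h5, h6, h7⟩ := dG_adj.1 h3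
            have hy'N : y' ∈ N := by
              by_contra hcon
              exact h7 (mem_bdN.2 ⟨x', y', h2, h5, hcon, h6, rfl⟩)
            refine ⟨h1.trans (SimpleGraph.Adj.reachable (dG_adj.2 ⟨h4, h5, h6, ?_⟩)), hy'N⟩
            intro hk
            rcases (memK _).1 hk with h8 | h8 | h8
            · obtain ⟨i, h9, h10, h11⟩ := mem_seg.1 h8
              -- the two sides
              have hst : star (sepE x' y') = s(x', y') := star_sepE h6
              rw [h11, star_eh] at hst
              have hTSN : ∀ f ∈ TS ℓ a b, f ∉ N :=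
                fun f hf => TS_not_N St (by omega) ha hab hb hB' hf
              have hsides : ((i, z.2 - 1) = x' ∧ (i, z.2) = y') ∨
                  ((i, z.2 - 1) = y' ∧ (i, z.2) = x') := by
                unfold ev at hst
                have hst' := Sym2.eq_iff.1 hst
                simpa using hst'
              have hdown : (i, z.2 - 1) ∈ N := by
                rcases hsides with ⟨h12, _⟩ | ⟨h12, _⟩
                · rw [h12]; exact h2
                · rw [h12]; exact hy'N
              have hup : (i, z.2) ∈ N := by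
                rcases hsides with ⟨_, h12⟩ | ⟨_, h12⟩
                · rw [h12]; exact hy'N
                · rw [h12]; exact h2
              rcases lt_or_ge a z.2 with h13 | h13
              · refine hTSN _ ?_ hdown
                unfold TS; rw [mem_rect]; simp only; omega
              · refine hTSN _ ?_ hup
                unfold TS; rw [mem_rect]; simp only; omega
            · apply h7
              rw [h8]
              exact (hpe _).1 hzwp
            · exact h7 ((hpe _).1 (hqp _ h8)))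
        exact hcr (-1, y0 - 1) hg0 t ht rfl ht2 (hxy1.trans h6.1.symm))
    exact hfin.2 hfN

end Pool.Agent.IDK
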