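import Pool.Agent.IDK.CDefs
import Pool.Agent.FKR.MinCut
import Pool.Agent.FKR.Expl
import Pool.Agent.FKR.Explore
import Pool.Agent.FKR.Localize
import Pool.Agent.FKR.CnPath

/-! # IDK/EDefs (MP_b3e76a_pr, part E, helper98): near implies touch, definitions

Rectangle `D = rect 0 n y0 y1`; its left side is free, `F` (frozen open, connected) contains a vertex of the right side.
`S = rect 0 ℓ a b`: thin box at the left side. We explore the highest crossing from `S` to `F`: the boundary of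
`NE = Nx ...` in the extended rectangle `rect (-1) (n+1) y0 y1`, in which the box `S` together with a tunnel to
`x = -1` (`OS`) is open and the vertices of `F` on the right side are joined to `x = n + 1` (`OR`). -/

namespace Pool.Agent.IDK

open Finset
open Pool.Agent.FKR
open Pool.Agent.H95.Perc (Inc conn link rect hor ver eh ev sumE sepE Inci mem_rect)
open Pool.Agent.H95.SumRule (edgesIn Z2)

/-- the faces of the extended rectangle `rect (-1) (n+1) y0 y1` (for left-right crossings) -/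
noncomputable def PhE (n y0 y1 : ℤ) : Finset (ℤ × ℤ) := rect (-1) n (y0 - 1) y1

/-- the thin box with its tunnel -/
noncomputable def OS (ℓ a b : ℤ) : Finset (Sym2 (ℤ × ℤ)) := edgesIn (rect (-1) ℓ a b)

/-- the vertices of `F` on the right side are joined to the column `n + 1` -/
noncomputable def OR (n : ℤ) (F : Finset (Sym2 (ℤ × ℤ))) : Finset (Sym2 (ℤ × ℤ)) :=
  ((vts F).filter fun v => v.1 = n).image fun v => eh n v.2

/-- the extended configuration -/
noncomputable def kE (n ℓ a b : ℤ) (E F ω : Finset (Sym2 (ℤ × ℤ))) : Finset (Sym2 (ℤ × ℤ)) :=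
  (ω ∩ E) ∪ F ∪ OS ℓ a b ∪ OR n F

/-- the region above the highest crossing -/
noncomputable def NE (n y0 y1 ℓ a b : ℤ) (E F ω : Finset (Sym2 (ℤ × ℤ))) : Finset (ℤ × ℤ) :=
  Nx (PhE n y0 y1) (kE n ℓ a b E F ω) (fun f => f.2 = y1) (fun f => f.2 = y0 - 1)

open Classical in
/-- the explored edges -/
noncomputable def XE (n y0 y1 ℓ a b : ℤ) (E F ω : Finset (Sym2 (ℤ × ℤ))) : Finset (Sym2 (ℤ × ℤ)) :=
  (E \ OS ℓ a b).filter (touch (NE n y0 y1 ℓ a b E F ω))

/-- there is a crossing from the thin box to `F` -/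
def BE (n y0 y1 ℓ a b : ℤ) (E F ω : Finset (Sym2 (ℤ × ℤ))) : Prop :=
  hor (-1) (n + 1) y0 y1 (kE n ℓ a b E F ω)

/-- the rectangle with its frozen edges -/
structure Strip (n y0 y1 : ℤ) (E F : Finset (Sym2 (ℤ × ℤ))) : Prop where
  hn : 1 ≤ n
  hy : y0 < y1
  hE : E ⊆ edgesIn (rect 0 n y0 y1)
  hF : F ⊆ edgesIn (rect 0 n y0 y1)
  conF : ∀ u ∈ vts F, ∀ v ∈ vts F, Cn F u v
  right : ∃ y, (n, y) ∈ vts F

/-- the faces below a left-right crossing `K` of the extended rectangle -/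
noncomputable def VB (n y0 y1 : ℤ) (K : Finset (Sym2 (ℤ × ℤ))) : Finset (ℤ × ℤ) :=
  Ucl (PhE n y0 y1) K (fun f => f = (-1, y0 - 1))

/-- crossing `K` of the extended rectangle, with exactly one edge in the column `-1`, at height `h` -/
structure KCut (n y0 y1 h : ℤ) (K : Finset (Sym2 (ℤ × ℤ))) : Prop where
  hn : 1 ≤ n
  hy : y0 < y1
  sub : K ⊆ edgesIn (rect (-1) (n + 1) y0 y1)
  cross : hor (-1) (n + 1) y0 y1 K
  col : ∀ j, eh (-1) j ∈ K → j = h

/-- vertices of the half annulus of radii `r ≤ s` around `(0, h)` -/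
noncomputable def AnV (h r s : ℤ) : Finset (ℤ × ℤ) :=
  rect 0 s (h - s) (h + s) \ rect 0 (r - 1) (h - r + 1) (h + r - 1)

/-- its edges (the half box of radius `s` without the edges of the half box of radius `r`) -/
noncomputable def HA (h r s : ℤ) : Finset (Sym2 (ℤ × ℤ)) :=
  edgesIn (rect 0 s (h - s) (h + s)) \ edgesIn (rect 0 r (h - r) (h + r))

/-- half circuit in the half annulus -/
def HCc (h r s : ℤ) (ω : Finset (Sym2 (ℤ × ℤ))) : Prop :=
  ∃ y y', h - s ≤ y ∧ y ≤ h - r ∧ h + r ≤ y' ∧ y' ≤ h + s ∧ Cn ω (0, y) (0, y')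

open Classical in
/-- the edges of the half annulus with both sides below `K` -/
noncomputable def DK (n y0 y1 : ℤ) (K : Finset (Sym2 (ℤ × ℤ))) (h r s : ℤ) : Finset (Sym2 (ℤ × ℤ)) :=
  (HA h r s).filter fun e => ∀ f ∈ star e, f ∈ VB n y0 y1 K

/-- a vertex of the left side below `h` is connected to a vertex of `K` in the half annulus -/
def TK (n y0 y1 : ℤ) (K : Finset (Sym2 (ℤ × ℤ))) (h r s : ℤ) (ω : Finset (Sym2 (ℤ × ℤ))) : Prop :=
  ∃ y, h - s ≤ y ∧ y ≤ h - r ∧ ∃ v ∈ AnV h r s, v ∈ vts K ∧ Cn (ω ∩ DK n y0 y1 K h r s) (0, y) v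

/-- every vertex of `K` in `D` is on the segment `{0..ℓ} × {h}` or is connected to `F0` by edges of `F1` -/
def KV (n ℓ h : ℤ) (K F0 F1 : Finset (Sym2 (ℤ × ℤ))) : Prop :=
  ∀ v ∈ vts K, 0 ≤ v.1 → v.1 ≤ n → (v.1 ≤ ℓ ∧ v.2 = h) ∨ ∃ t ∈ vts F0, Cn F1 v t

end Pool.Agent.IDK
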