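import Pool.Agent.FKR.Explore
import Pool.Agent.FKR.Dom

/-! # IDK/PBc (MP_b3e76a_pr): boundary conditions and the domain Markov property

`P_bc`: the law only depends on the connections made by the frozen edges. The weight of `ζ ∪ F` is `W q (vts (E ∪ F)) (ζ ∪ F)`. Show by induction on `ζ` (`Finset.induction_on`, `ζ ⊆ E`) that
`W q (vts (E ∪ F)) (ζ ∪ F) * W q (vts (E ∪ F')) F' = W q (vts (E ∪ F')) (ζ ∪ F') * W q (vts (E ∪ F)) F`: inserting `e = s(x, y) ∉ ζ` multiplies both weights by the same factor (`W_insert_of_reach`,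
`W_insert_of_not_reach` in H95/Wedge/FK; `e ∉ F`, `e ∉ F'` by disjointness), because `Cn (ζ ∪ F) x y ↔ Cn (ζ ∪ F') x y` (`Cn_union_of` in FKR/Dom, both directions). See `W_img` and `P_map` in FKR/MapP for the same pattern.
Then both fractions in the definition of `P` agree.
`fact`: let `Z' = E \ X`. Sum over `η ⊆ Z'` of the events `ω ∩ Z' = η` (as in `explore_sum` in FKR/Explore, or `P_split` by a finite sum over `η ∈ Z'.powerset`; for `η` with `Z (η)` where `Z ω ↔ Z (η ∪ F)` since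
`ω \ X = (η ∪ F) \ X`, `X` disjoint from `F`). For each `η`: `P_cond` (with the set `Z'`): `P q E F (A ∧ ω ∩ Z' = η) = P q X (F ∪ η) A * P q E F (ω ∩ Z' = η)` (`E \ Z' = X`), for `A = (c ⊆ ω ∧ Y ω)` and for `A = (c ⊆ ω)`.
And `P q X (F ∪ η) (c ⊆ ω ∧ Y ω) = P q (X \ c) (F ∪ η ∪ c) Y * P q X (F ∪ η) (c ⊆ ω)` (`P_cond` with the set `c`, `η = c`). Finally `P q (X \ c) (F ∪ η ∪ c) Y = P q (X \ c) c Y` by `P_bc`: for `u, v ∈ vts (X \ c)`:
if `Cn (F ∪ η ∪ c) u v`, `u ≠ v`, then `u, v ∈ vts (F ∪ η ∪ c)` (`Cn.mem_vts`), hence `u, v ∈ vts c` by `hsep`, and `Cn c u v` by `hconn`; the converse by monotonicity; `Y (ζ ∪ (F ∪ η ∪ c)) ↔ Y (ζ ∪ c)` by `hY`. -/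

namespace Pool.Agent.IDK

open Finset
open Pool.Agent.FKR

variable {α : Type*} [DecidableEq α] {q : ℝ}

private theorem W_bc (hq : 0 < q) {E F F' : Finset (Sym2 α)} (hE : NL E)
    (h : Disjoint E F) (h' : Disjoint E F')
    (hc : ∀ u ∈ vts E, ∀ v ∈ vts E, Cn F u v ↔ Cn F' u v) {ζ : Finset (Sym2 α)} (hζ : ζ ⊆ E) :
    Pool.Agent.H95.Wedge.W q (vts (E ∪ F)) (ζ ∪ F) * Pool.Agent.H95.Wedge.W q (vts (E ∪ F')) F' =
      Pool.Agent.H95.Wedge.W q (vts (E ∪ F')) (ζ ∪ F') * Pool.Agent.H95.Wedge.W q (vts (E ∪ F)) F := by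
  induction ζ using Finset.induction_on with
  | empty => rw [empty_union, empty_union]; ring
  | insert e ζ he ih =>
    have hζ' : ζ ⊆ E := fun x hx => hζ (mem_insert_of_mem hx)
    have ih' := ih hζ'
    have heE : e ∈ E := hζ (mem_insert_self _ _)
    have heF : e ∉ F := Finset.disjoint_left.1 h heE
    have heF' : e ∉ F' := Finset.disjoint_left.1 h' heE
    induction e with
    | _ x y =>
      have hxy : x ≠ y := by
        have := hE _ heE
        rwa [Sym2.mk_isDiag_iff] at this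
      have hx : x ∈ vts E := mem_vts.mpr ⟨_, heE, Sym2.mem_mk_left _ _⟩
      have hy : y ∈ vts E := mem_vts.mpr ⟨_, heE, Sym2.mem_mk_right _ _⟩
      have n1 : s(x, y) ∉ ζ ∪ F := by
        rw [mem_union]; exact fun h => h.elim he heF
      have n2 : s(x, y) ∉ ζ ∪ F' := by
        rw [mem_union]; exact fun h => h.elim he heF'
      have key : Cn (ζ ∪ F) x y ↔ Cn (ζ ∪ F') x y :=
        ⟨Cn_union_of hζ' (fun u hu v hv => (hc u hu v hv).1) x hx y hy,
          Cn_union_of hζ' (fun u hu v hv => (hc u hu v hv).2) x hx y hy⟩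
      rw [insert_union, insert_union]
      have hs : 0 < √q := Real.sqrt_pos.2 hq
      by_cases hr : Cn (ζ ∪ F) x y
      · rw [Pool.Agent.H95.Wedge.W_insert_of_reach hq hxy n1 hr,
          Pool.Agent.H95.Wedge.W_insert_of_reach hq hxy n2 (key.1 hr)]
        linear_combination √q * ih'
      · have hr' : ¬ Cn (ζ ∪ F') x y := fun k => hr (key.2 k)
        have m1 := Pool.Agent.H95.Wedge.W_insert_of_not_reach (q := q) (V := vts (E ∪ F)) hq hxy
          (vts_mono subset_union_left hx) (vts_mono subset_union_left hy) n1 hr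
        have m2 := Pool.Agent.H95.Wedge.W_insert_of_not_reach (q := q) (V := vts (E ∪ F')) hq hxy
          (vts_mono subset_union_left hx) (vts_mono subset_union_left hy) n2 hr'
        rw [m1, m2] at ih'
        have : √q * (Pool.Agent.H95.Wedge.W q (vts (E ∪ F)) (insert s(x, y) (ζ ∪ F)) *
            Pool.Agent.H95.Wedge.W q (vts (E ∪ F')) F') = √q *
            (Pool.Agent.H95.Wedge.W q (vts (E ∪ F')) (insert s(x, y) (ζ ∪ F')) *
            Pool.Agent.H95.Wedge.W q (vts (E ∪ F)) F) := by linear_combination ih'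
        exact mul_left_cancel₀ hs.ne' this

theorem P_bc (hq : 0 < q) {E F F' : Finset (Sym2 α)} (hE : NL E) (hF : NL F) (hF' : NL F')
    (h : Disjoint E F) (h' : Disjoint E F')
    (hc : ∀ u ∈ vts E, ∀ v ∈ vts E, Cn F u v ↔ Cn F' u v) {A A' : Finset (Sym2 α) → Prop}
    (hA : ∀ ζ ⊆ E, A (ζ ∪ F) ↔ A' (ζ ∪ F')) : P q E F A = P q E F' A' := by
  have k := Pool.Agent.H95.Wedge.W_pos hq (vts (E ∪ F)) F
  have k' := Pool.Agent.H95.Wedge.W_pos hq (vts (E ∪ F')) F'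
  have key : ∀ B B' : Finset (Sym2 α) → Prop, (∀ ζ ⊆ E, B ζ ↔ B' ζ) →
      Pool.Agent.H95.Susc.ws (wt q E F) E B * Pool.Agent.H95.Wedge.W q (vts (E ∪ F')) F' =
      Pool.Agent.H95.Susc.ws (wt q E F') E B' * Pool.Agent.H95.Wedge.W q (vts (E ∪ F)) F := by
    intro B B' hB
    unfold Pool.Agent.H95.Susc.ws
    rw [sum_mul, sum_mul]
    have hf : Pool.Agent.H95.Susc.fil E B = Pool.Agent.H95.Susc.fil E B' := by
      ext ζ
      rw [Pool.Agent.H95.Susc.mem_fil, Pool.Agent.H95.Susc.mem_fil]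
      exact ⟨fun k => ⟨k.1, (hB _ k.1).1 k.2⟩, fun k => ⟨k.1, (hB _ k.1).2 k.2⟩⟩
    rw [hf]
    refine sum_congr rfl fun ζ hζ => ?_
    exact W_bc hq hE h h' hc (Pool.Agent.H95.Susc.mem_fil.1 hζ).1
  have h1 := key (fun ζ => A (ζ ∪ F)) (fun ζ => A' (ζ ∪ F')) hA
  have h2 := key (fun _ => True) (fun _ => True) (fun _ _ => Iff.rfl)
  have p1 := ws_wt_true_pos hq E F
  have p2 := ws_wt_true_pos hq E F'
  unfold P
  rw [div_eq_div_iff p1.ne' p2.ne']
  have : (Pool.Agent.H95.Susc.ws (wt q E F) E (fun ζ => A (ζ ∪ F)) *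
      Pool.Agent.H95.Susc.ws (wt q E F') E (fun _ => True)) *
      (Pool.Agent.H95.Wedge.W q (vts (E ∪ F')) F' * Pool.Agent.H95.Wedge.W q (vts (E ∪ F)) F) =
      (Pool.Agent.H95.Susc.ws (wt q E F') E (fun ζ => A' (ζ ∪ F')) *
      Pool.Agent.H95.Susc.ws (wt q E F) E (fun _ => True)) *
      (Pool.Agent.H95.Wedge.W q (vts (E ∪ F')) F' * Pool.Agent.H95.Wedge.W q (vts (E ∪ F)) F) := by
    linear_combination (Pool.Agent.H95.Susc.ws (wt q E F') E (fun _ => True) *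
      Pool.Agent.H95.Wedge.W q (vts (E ∪ F)) F) * h1 -
      (Pool.Agent.H95.Susc.ws (wt q E F') E (fun ζ => A' (ζ ∪ F')) *
      Pool.Agent.H95.Wedge.W q (vts (E ∪ F)) F) * h2
  exact mul_right_cancel₀ (mul_pos k' k).ne' this

/-- finite additivity along the values of a function -/
private theorem P_fibre (hq : 0 < q) {β : Type*} [DecidableEq β] (E F : Finset (Sym2 α))
    (A : Finset (Sym2 α) → Prop) (g : Finset (Sym2 α) → β) (s : Finset β) :
    P q E F (fun ω => A ω ∧ g ω ∈ s) = ∑ b ∈ s, P q E F (fun ω => A ω ∧ g ω = b) := by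
  induction s using Finset.induction_on with
  | empty =>
    rw [sum_empty, ← P_false (q := q) E F]
    exact P_congr fun ζ _ => by simp
  | insert a s ha ih =>
    rw [sum_insert ha, ← ih, P_split hq E F (fun ω => A ω ∧ g ω ∈ insert a s) (fun ω => g ω = a)]
    congr 1
    · refine P_congr fun ζ _ => ⟨fun h => ⟨h.1.1, h.2⟩, fun h => ⟨⟨h.1, ?_⟩, h.2⟩⟩
      rw [h.2]
      exact mem_insert_self _ _
    · refine P_congr fun ζ _ => ⟨fun h => ⟨h.1.1, ?_⟩, fun h => ⟨⟨h.1, mem_insert_of_mem h.2⟩, ?_⟩⟩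
      · exact (mem_insert.1 h.1.2).resolve_left h.2
      · rintro h2
        rw [h2] at h
        exact ha h.2

theorem fact (hq : 0 < q) {E F X c : Finset (Sym2 α)} (hE : NL E) (hF : NL F) (hX : X ⊆ E)
    (hXF : Disjoint X F) (hcX : c ⊆ X) (hconn : ∀ u ∈ vts c, ∀ v ∈ vts c, Cn c u v)
    (hsep : ∀ v ∈ vts X, v ∈ vts (E \ X ∪ F) → v ∈ vts c) {Y Z : Finset (Sym2 α) → Prop}
    (hY : ∀ ω ω', ω ∩ X = ω' ∩ X → Y ω → Y ω') (hZ : ∀ ω ω', ω \ X = ω' \ X → Z ω → Z ω') :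
    P q E F (fun ω => (c ⊆ ω ∧ Y ω) ∧ Z ω) = P q (X \ c) c Y * P q E F (fun ω => c ⊆ ω ∧ Z ω) := by
  have hXF' : ∀ x, x ∈ X → x ∉ F := fun x hx => Finset.disjoint_left.1 hXF hx
  -- fibres
  have fib : ∀ A : Finset (Sym2 α) → Prop, P q E F A =
      ∑ η ∈ (E \ X).powerset, P q E F (fun ω => A ω ∧ ω ∩ (E \ X) = η) := by
    intro A
    rw [← P_fibre hq E F A (fun ω => ω ∩ (E \ X))]
    exact P_congr fun ζ _ => by simp
  rw [fib (fun ω => (c ⊆ ω ∧ Y ω) ∧ Z ω), fib (fun ω => c ⊆ ω ∧ Z ω), mul_sum]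
  refine sum_congr rfl fun η hη => ?_
  rw [mem_powerset] at hη
  have hηX : ∀ x, x ∈ η → x ∉ X := fun x hx => (mem_sdiff.1 (hη hx)).2
  have hiff : ∀ ζ ⊆ E, (ζ ∪ F) ∩ (E \ X) = η → (Z (ζ ∪ F) ↔ Z (η ∪ F)) := by
    intro ζ hζ h1
    have h2 : (ζ ∪ F) \ X = (η ∪ F) \ X := by
      ext x
      have hx := Finset.ext_iff.mp h1 x
      have hx2 := @hζ x
      simp only [mem_inter, mem_union, mem_sdiff] at hx ⊢
      tauto
    exact ⟨hZ _ _ h2, hZ _ _ h2.symm⟩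
  by_cases hZη : Z (η ∪ F)
  · have e1 : P q E F (fun ω => ((c ⊆ ω ∧ Y ω) ∧ Z ω) ∧ ω ∩ (E \ X) = η) =
        P q E F (fun ω => (c ⊆ ω ∧ Y ω) ∧ ω ∩ (E \ X) = η) :=
      P_congr fun ζ hζ => ⟨fun h => ⟨h.1.1, h.2⟩, fun h => ⟨⟨h.1, (hiff ζ hζ h.2).2 hZη⟩, h.2⟩⟩
    have e2 : P q E F (fun ω => (c ⊆ ω ∧ Z ω) ∧ ω ∩ (E \ X) = η) =
        P q E F (fun ω => c ⊆ ω ∧ ω ∩ (E \ X) = η) :=
      P_congr fun ζ hζ => ⟨fun h => ⟨h.1.1, h.2⟩, fun h => ⟨⟨h.1, (hiff ζ hζ h.2).2 hZη⟩, h.2⟩⟩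
    rw [e1, e2, P_cond hq hE hF sdiff_subset hη (fun ω => c ⊆ ω ∧ Y ω),
      P_cond hq hE hF sdiff_subset hη (fun ω => c ⊆ ω), ← mul_assoc, Finset.sdiff_sdiff_eq_self hX]
    congr 1
    have hNη : NL (F ∪ η) := hF.union (hE.mono (hη.trans sdiff_subset))
    have hNX : NL X := hE.mono hX
    have e3 : P q X (F ∪ η) (fun ω => c ⊆ ω ∧ Y ω) = P q X (F ∪ η) (fun ω => Y ω ∧ ω ∩ c = c) :=
      P_congr fun ζ _ => by rw [inter_eq_right, and_comm]
    have e4 : P q X (F ∪ η) (fun ω => c ⊆ ω) = P q X (F ∪ η) (fun ω => ω ∩ c = c) :=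
      P_congr fun ζ _ => by rw [inter_eq_right]
    rw [e3, e4, P_cond hq hNX hNη hcX (Subset.refl c) Y]
    congr 1
    refine P_bc hq (hNX.mono sdiff_subset) (hNη.union (hNX.mono hcX)) (hNX.mono hcX) ?_ ?_ ?_ ?_
    · rw [Finset.disjoint_left]
      intro x hx hx'
      rw [mem_sdiff] at hx
      rw [mem_union, mem_union] at hx'
      rcases hx' with (h1 | h1) | h1
      · exact hXF' x hx.1 h1
      · exact hηX x h1 hx.1
      · exact hx.2 h1
    · exact sdiff_disjoint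
    · intro u hu v hv
      refine ⟨fun k => ?_, fun k => k.mono subset_union_right⟩
      by_cases huv : u = v
      · rw [huv]; exact Cn_refl _ _
      · have hm := k.mem_vts huv
        have hin : ∀ w, w ∈ vts (X \ c) → w ∈ vts (F ∪ η ∪ c) → w ∈ vts c := by
          intro w hw hw'
          rw [vts_union, mem_union] at hw'
          rcases hw' with h1 | h1
          · refine hsep w (vts_mono sdiff_subset hw) (vts_mono ?_ h1)
            intro x hx
            rw [mem_union] at hx ⊢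
            exact hx.elim Or.inr (fun h => Or.inl (hη h))
          · exact h1
        exact hconn u (hin u hu hm.1) v (hin v hv hm.2)
    · intro ζ hζ
      have h1 : (ζ ∪ (F ∪ η ∪ c)) ∩ X = (ζ ∪ c) ∩ X := by
        ext x
        have a1 := hXF' x
        have a2 := hηX x
        simp only [mem_inter, mem_union]
        tauto
      exact ⟨hY _ _ h1, hY _ _ h1.symm⟩
  · have e1 : P q E F (fun ω => ((c ⊆ ω ∧ Y ω) ∧ Z ω) ∧ ω ∩ (E \ X) = η) = P q E F (fun _ => False) :=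
      P_congr fun ζ hζ => ⟨fun h => hZη ((hiff ζ hζ h.2).1 h.1.2), fun h => h.elim⟩
    have e2 : P q E F (fun ω => (c ⊆ ω ∧ Z ω) ∧ ω ∩ (E \ X) = η) = P q E F (fun _ => False) :=
      P_congr fun ζ hζ => ⟨fun h => hZη ((hiff ζ hζ h.2).1 h.1.2), fun h => h.elim⟩
    rw [e1, e2, P_false, mul_zero]

end Pool.Agent.IDK
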