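import Pool.Agent.IDK.ELeft
import Pool.Agent.IDK.PBc

/-! # IDK/EDual (MP_b3e76a_pr, part E, helper98): the dual strip in swapped coordinates

`ES n M`: image of `ED n M` under the diagonal reflection; `FD n M`: the left, top and right part of the ring, in swapped
coordinates bottom, right and top side of `rect 0 M (-1) n`. -/

namespace Pool.Agent.IDK

open Finset
open Pool.Agent.FKR
open Pool.Agent.H95.Perc (Inc conn link rect hor ver eh ev sumE sepE Inci mem_rect)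
open Pool.Agent.H95.SumRule (edgesIn Z2)

variable {q : ℝ}

private theorem mem_EL {n M : ℕ} {a b c d : ℤ} : s((a, b), (c, d)) ∈ EL n M ↔
    (0 ≤ a ∧ a ≤ n ∧ 0 ≤ b ∧ b ≤ M) ∧ (0 ≤ c ∧ c ≤ n ∧ 0 ≤ d ∧ d ≤ M) ∧
    ((a = c ∧ (b = d + 1 ∨ d = b + 1)) ∨ (b = d ∧ (a = c + 1 ∨ c = a + 1))) ∧
    ¬ (b = 0 ∧ d = 0) := by
  unfold EL
  rw [mem_sdiff, Pool.Agent.H95.Perc.mem_edgesIn', Pool.Agent.H95.Perc.mem_edgesIn', mem_rect,
    mem_rect, mem_rect, mem_rect, Z2_adj_iff]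
  simp only
  omega

private theorem eh_mem_EL {n M : ℕ} {x y : ℤ} : eh x y ∈ EL n M ↔
    0 ≤ x ∧ x + 1 ≤ n ∧ 1 ≤ y ∧ y ≤ M := by
  unfold eh
  rw [mem_EL]
  omega

private theorem ev_mem_EL {n M : ℕ} {x y : ℤ} : ev x y ∈ EL n M ↔
    0 ≤ x ∧ x ≤ n ∧ 0 ≤ y ∧ y + 1 ≤ M := by
  unfold ev
  rw [mem_EL]
  omega

private theorem eh_mem_ED {n M : ℕ} {x y : ℤ} : eh x y ∈ ED n M ↔
    -1 ≤ x ∧ x + 1 ≤ n ∧ 0 ≤ y ∧ y + 1 ≤ M := by
  unfold ED
  rw [mem_image]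
  constructor
  · rintro ⟨e, he, h⟩
    obtain ⟨x', y', rfl | rfl⟩ := edgesIn_cases (mem_sdiff.1 he).1
    · rw [star_eh] at h
      exact absurd h.symm eh_ne_ev
    · rw [star_ev, eh_inj] at h
      rw [ev_mem_EL] at he
      omega
  · intro h
    refine ⟨ev (x + 1) y, ?_, by rw [star_ev, add_sub_cancel_right]⟩
    rw [ev_mem_EL]
    omega

private theorem ev_mem_ED {n M : ℕ} {x y : ℤ} : ev x y ∈ ED n M ↔
    0 ≤ x ∧ x + 1 ≤ n ∧ 0 ≤ y ∧ y + 1 ≤ M := by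
  unfold ED
  rw [mem_image]
  constructor
  · rintro ⟨e, he, h⟩
    obtain ⟨x', y', rfl | rfl⟩ := edgesIn_cases (mem_sdiff.1 he).1
    · rw [star_eh, ev_inj] at h
      rw [eh_mem_EL] at he
      omega
    · rw [star_ev] at h
      exact absurd h eh_ne_ev
  · intro h
    refine ⟨eh x (y + 1), ?_, by rw [star_eh, add_sub_cancel_right]⟩
    rw [eh_mem_EL]
    omega

private theorem ED_cases {n M : ℕ} {e : Sym2 (ℤ × ℤ)} (he : e ∈ ED n M) :
    ∃ x y, e = eh x y ∨ e = ev x y := by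
  unfold ED at he
  rw [mem_image] at he
  obtain ⟨e', he', rfl⟩ := he
  obtain ⟨x', y', rfl | rfl⟩ := edgesIn_cases (mem_sdiff.1 he').1
  · exact ⟨_, _, Or.inr (star_eh _ _)⟩
  · exact ⟨_, _, Or.inl (star_ev _ _)⟩

private theorem mem_ED {n M : ℕ} {a b c d : ℤ} : s((a, b), (c, d)) ∈ ED n M ↔
    (-1 ≤ a ∧ a ≤ n ∧ 0 ≤ b ∧ b ≤ M) ∧ (-1 ≤ c ∧ c ≤ n ∧ 0 ≤ d ∧ d ≤ M) ∧
    ((a = c ∧ (b = d + 1 ∨ d = b + 1) ∧ 0 ≤ a ∧ a < n) ∨
      (b = d ∧ (a = c + 1 ∨ c = a + 1) ∧ b < M)) := by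
  have h1 : s((a, b), (c, d)) ∈ ED n M →
      (a = c ∧ (b = d + 1 ∨ d = b + 1)) ∨ (b = d ∧ (a = c + 1 ∨ c = a + 1)) := by
    intro h
    obtain ⟨x, y, hx | hx⟩ := ED_cases h
    · rw [hx, eh_mem_ED] at h
      unfold eh at hx
      rw [Sym2.eq_iff] at hx
      simp only [Prod.mk.injEq] at hx
      omega
    · rw [hx, ev_mem_ED] at h
      unfold ev at hx
      rw [Sym2.eq_iff] at hx
      simp only [Prod.mk.injEq] at hx
      omega
  by_cases h2 : (a = c ∧ (b = d + 1 ∨ d = b + 1)) ∨ (b = d ∧ (a = c + 1 ∨ c = a + 1))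
  · rcases h2 with ⟨rfl, rfl | rfl⟩ | ⟨rfl, rfl | rfl⟩
    · have : s((a, d + 1), (a, d)) = ev a d := by rw [ev, Sym2.eq_swap]
      rw [this, ev_mem_ED]
      omega
    · have : s((a, b), (a, b + 1)) = ev a b := by rw [ev]
      rw [this, ev_mem_ED]
      omega
    · have : s((c + 1, b), (c, b)) = eh c b := by rw [eh, Sym2.eq_swap]
      rw [this, eh_mem_ED]
      omega
    · have : s((a, b), (a + 1, b)) = eh a b := by rw [eh]
      rw [this, eh_mem_ED]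
      omega
  · constructor
    · intro h
      exact absurd (h1 h) h2
    · intro h
      omega


/-- diagonal reflection -/
def dg : (ℤ × ℤ) ≃ (ℤ × ℤ) := Pool.Agent.H95.Perc.diag

theorem dg_apply (x y : ℤ) : dg (x, y) = (y, x) := rfl

theorem NL_ED {n M : ℕ} : NL (ED n M) := by
  intro e he
  induction e with
  | _ u v =>
    obtain ⟨a1, b1⟩ := u
    obtain ⟨c1, d1⟩ := v
    rw [mem_ED] at he
    rw [Sym2.mk_isDiag_iff, Prod.mk.injEq]
    omega

/-- three sides of the rectangle -/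
def Rd (n M : ℕ) (v : ℤ × ℤ) : Prop := v.1 = M ∨ v.2 = -1 ∨ v.2 = n

instance (n M : ℕ) : DecidablePred (Rd n M) := fun v => by unfold Rd; infer_instance

/-- active edges of the dual strip, swapped coordinates -/
noncomputable def ES (n M : ℕ) : Finset (Sym2 (ℤ × ℤ)) := img dg (ED n M)

/-- frozen edges, swapped coordinates -/
noncomputable def FD (n M : ℕ) : Finset (Sym2 (ℤ × ℤ)) :=
  img dg (ring 0 n 0 M) ∩ edgesIn (rect 0 M (-1) n)

theorem mem_img_dg {E : Finset (Sym2 (ℤ × ℤ))} {a b c d : ℤ} :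
    s((a, b), (c, d)) ∈ img dg E ↔ s((b, a), (d, c)) ∈ E := by
  constructor
  · intro h
    unfold img at h
    rw [mem_image] at h
    obtain ⟨e, he, h⟩ := h
    induction e with
    | _ u v =>
      rw [Sym2.map_mk] at h
      obtain ⟨u1, u2⟩ := u
      obtain ⟨v1, v2⟩ := v
      rw [dg_apply, dg_apply, Sym2.eq_iff] at h
      simp only [Prod.mk.injEq] at h
      rcases h with ⟨⟨rfl, rfl⟩, rfl, rfl⟩ | ⟨⟨rfl, rfl⟩, rfl, rfl⟩
      · exact he
      · rw [Sym2.eq_swap]; exact he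
  · intro h
    have := mem_img_of_mem (f := dg) h
    exact this

theorem mem_ES {n M : ℕ} {a b c d : ℤ} : s((a, b), (c, d)) ∈ ES n M ↔
    (-1 ≤ b ∧ b ≤ n ∧ 0 ≤ a ∧ a ≤ M) ∧ (-1 ≤ d ∧ d ≤ n ∧ 0 ≤ c ∧ c ≤ M) ∧
    ((b = d ∧ (a = c + 1 ∨ c = a + 1) ∧ 0 ≤ b ∧ b < n) ∨
      (a = c ∧ (b = d + 1 ∨ d = b + 1) ∧ a < M)) := by
  unfold ES
  rw [mem_img_dg, mem_ED]

theorem mem_ringD {n M : ℕ} (hn : 1 ≤ n) (hM : 1 ≤ M) {a b c d : ℤ} :
    s((a, b), (c, d)) ∈ img dg (ring 0 n 0 M) ↔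
    (-1 ≤ b ∧ b ≤ n ∧ -1 ≤ a ∧ a ≤ M ∧ (b = -1 ∨ b = n ∨ a = -1 ∨ a = M)) ∧
    (-1 ≤ d ∧ d ≤ n ∧ -1 ≤ c ∧ c ≤ M ∧ (d = -1 ∨ d = n ∨ c = -1 ∨ c = M)) ∧
    ((b = d ∧ (a = c + 1 ∨ c = a + 1)) ∨ (a = c ∧ (b = d + 1 ∨ d = b + 1))) := by
  rw [mem_img_dg, mem_ring (by omega) (by omega), Z2_adj_iff]
  unfold Rg
  rw [mem_rect, mem_rect]
  simp only
  omega

theorem mem_FD {n M : ℕ} (hn : 1 ≤ n) (hM : 1 ≤ M) {a b c d : ℤ} : s((a, b), (c, d)) ∈ FD n M ↔
    (-1 ≤ b ∧ b ≤ n ∧ 0 ≤ a ∧ a ≤ M ∧ (b = -1 ∨ b = n ∨ a = M)) ∧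
    (-1 ≤ d ∧ d ≤ n ∧ 0 ≤ c ∧ c ≤ M ∧ (d = -1 ∨ d = n ∨ c = M)) ∧
    ((b = d ∧ (a = c + 1 ∨ c = a + 1)) ∨ (a = c ∧ (b = d + 1 ∨ d = b + 1))) := by
  unfold FD
  rw [mem_inter, mem_ringD hn hM, Pool.Agent.H95.Perc.mem_edgesIn', mem_rect, mem_rect, Z2_adj_iff]
  simp only
  omega

theorem ES_sub {n M : ℕ} : ES n M ⊆ edgesIn (rect 0 M (-1) n) := by
  intro e he
  induction e with
  | _ u v =>
    obtain ⟨a, b⟩ := u
    obtain ⟨c, d⟩ := v
    rw [mem_ES] at he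
    rw [Pool.Agent.H95.Perc.mem_edgesIn', mem_rect, mem_rect, Z2_adj_iff]
    simp only
    omega

theorem FD_sub {n M : ℕ} : FD n M ⊆ edgesIn (rect 0 M (-1) n) := inter_subset_right

theorem FD_ring {n M : ℕ} : FD n M ⊆ img dg (ring 0 n 0 M) := inter_subset_left

theorem ES_disj {n M : ℕ} (hn : 1 ≤ n) (hM : 1 ≤ M) :
    Disjoint (ES n M) (img dg (ring 0 n 0 M)) := by
  rw [disjoint_left]
  intro e he he'
  induction e with
  | _ u v =>
    obtain ⟨a, b⟩ := u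
    obtain ⟨c, d⟩ := v
    rw [mem_ES] at he
    rw [mem_ringD hn hM] at he'
    omega

theorem mem_vts_FD {n M : ℕ} (hn : 1 ≤ n) (hM : 1 ≤ M) {v : ℤ × ℤ} : v ∈ vts (FD n M) ↔
    v ∈ rect 0 M (-1) n ∧ Rd n M v := by
  obtain ⟨a, b⟩ := v
  unfold Rd
  rw [mem_rect]
  simp only
  constructor
  · intro h
    obtain ⟨e, he, hv⟩ := mem_vts.1 h
    induction e with
    | _ u w =>
      obtain ⟨a1, b1⟩ := u
      obtain ⟨a2, b2⟩ := w
      rw [mem_FD hn hM] at he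
      rw [Sym2.mem_iff] at hv
      simp only [Prod.mk.injEq] at hv
      omega
  · rintro ⟨h1, h2⟩
    rcases h2 with h2 | h2 | h2
    · by_cases h3 : b < n
      · refine mem_vts.2 ⟨s((a, b), (a, b + 1)), ?_, by simp⟩
        rw [mem_FD hn hM]; omega
      · refine mem_vts.2 ⟨s((a, b), (a, b - 1)), ?_, by simp⟩
        rw [mem_FD hn hM]; omega
    · by_cases h3 : a < M
      · refine mem_vts.2 ⟨s((a, b), (a + 1, b)), ?_, by simp⟩
        rw [mem_FD hn hM]; omega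
      · refine mem_vts.2 ⟨s((a, b), (a - 1, b)), ?_, by simp⟩
        rw [mem_FD hn hM]; omega
    · by_cases h3 : a < M
      · refine mem_vts.2 ⟨s((a, b), (a + 1, b)), ?_, by simp⟩
        rw [mem_FD hn hM]; omega
      · refine mem_vts.2 ⟨s((a, b), (a - 1, b)), ?_, by simp⟩
        rw [mem_FD hn hM]; omega

theorem FD_conn {n M : ℕ} (hn : 1 ≤ n) (hM : 1 ≤ M) {u v : ℤ × ℤ} (hu : u ∈ vts (FD n M))
    (hv : v ∈ vts (FD n M)) : Cn (FD n M) u v := by
  have s1 : edgesIn (rect 0 M (-1) (-1)) ⊆ FD n M := by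
    intro e he
    induction e with
    | _ u v =>
      obtain ⟨a, b⟩ := u
      obtain ⟨c, d⟩ := v
      rw [Pool.Agent.H95.Perc.mem_edgesIn', mem_rect, mem_rect, Z2_adj_iff] at he
      simp only at he
      rw [mem_FD hn hM]
      omega
  have s2 : edgesIn (rect M M (-1) n) ⊆ FD n M := by
    intro e he
    induction e with
    | _ u v =>
      obtain ⟨a, b⟩ := u
      obtain ⟨c, d⟩ := v
      rw [Pool.Agent.H95.Perc.mem_edgesIn', mem_rect, mem_rect, Z2_adj_iff] at he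
      simp only at he
      rw [mem_FD hn hM]
      omega
  have s3 : edgesIn (rect 0 M n n) ⊆ FD n M := by
    intro e he
    induction e with
    | _ u v =>
      obtain ⟨a, b⟩ := u
      obtain ⟨c, d⟩ := v
      rw [Pool.Agent.H95.Perc.mem_edgesIn', mem_rect, mem_rect, Z2_adj_iff] at he
      simp only at he
      rw [mem_FD hn hM]
      omega
  have key : ∀ u ∈ vts (FD n M), Cn (FD n M) u ((M : ℤ), -1) := by
    intro u hu
    rw [mem_vts_FD hn hM] at hu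
    obtain ⟨h1, h2⟩ := hu
    have h1' := h1
    rw [mem_rect] at h1'
    unfold Rd at h2
    rcases h2 with h2 | h2 | h2
    · refine (rect_Cn (x0 := (M : ℤ)) (x1 := M) (y0 := -1) (y1 := n) ?_ ?_).mono s2
      · rw [mem_rect]; omega
      · rw [mem_rect]; simp only; omega
    · refine (rect_Cn (x0 := 0) (x1 := M) (y0 := -1) (y1 := -1) ?_ ?_).mono s1
      · rw [mem_rect]; omega
      · rw [mem_rect]; simp only; omega
    · have k1 : Cn (FD n M) u ((M : ℤ), (n : ℤ)) := by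
        refine (rect_Cn (x0 := 0) (x1 := M) (y0 := n) (y1 := n) ?_ ?_).mono s3
        · rw [mem_rect]; omega
        · rw [mem_rect]; simp only; omega
      refine k1.trans ((rect_Cn (x0 := (M : ℤ)) (x1 := M) (y0 := -1) (y1 := n) ?_ ?_).mono s2)
      · rw [mem_rect]; simp only; omega
      · rw [mem_rect]; simp only; omega
  exact (key u hu).trans (key v hv).symm

theorem strip_dual {n M : ℕ} (hn : 1 ≤ n) (hM : 1 ≤ M) :
    Strip M (-1) n (ES n M) (FD n M) where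
  hn := by omega
  hy := by omega
  hE := ES_sub
  hF := FD_sub
  conF := fun u hu v hv => FD_conn hn hM hu hv
  right := by
    refine ⟨-1, (mem_vts_FD hn hM).2 ⟨?_, Or.inl rfl⟩⟩
    rw [mem_rect]; simp only; omega

/-- vertices of the ring are connected -/
theorem ringD_conn {n M : ℕ} (hn : 1 ≤ n) (hM : 1 ≤ M) {a b : ℤ}
    (h : -1 ≤ b ∧ b ≤ n ∧ -1 ≤ a ∧ a ≤ M ∧ (b = -1 ∨ b = n ∨ a = -1 ∨ a = M)) :
    Cn (img dg (ring 0 n 0 M)) (a, b) (-1, -1) := by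
  have h1 : Cn (ring 0 n 0 M) (b, a) (-1, -1) := by
    apply ring_connected (by omega) (by omega)
    · unfold Rg; rw [mem_rect]; simp only; omega
    · unfold Rg; rw [mem_rect]; simp only; omega
  have := Cn_img (f := dg) h1
  exact this

/-- connection to the ring, in both models -/
theorem conn_iff {n M : ℕ} (hn : 1 ≤ n) (hM : 1 ≤ M) {ζ : Finset (Sym2 (ℤ × ℤ))}
    (hζ : ζ ⊆ ES n M) {p : ℤ × ℤ} (hp : p ∈ rect 0 M (-1) n) :
    Cn (ζ ∪ img dg (ring 0 n 0 M)) p (-1, -1) ↔ ∃ t ∈ vts (FD n M), Cn (ζ ∪ FD n M) p t := by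
  constructor
  · intro h
    by_cases hR : Rd n M p
    · exact ⟨p, (mem_vts_FD hn hM).2 ⟨hp, hR⟩, Cn_refl _ _⟩
    · have hR' : ¬ Rd n M p ∧ p ∈ rect 0 M (-1) n := ⟨hR, hp⟩
      obtain ⟨x, y, hx, hy, hxy, hc⟩ := h.exit (S := fun v => ¬ Rd n M v ∧ v ∈ rect 0 M (-1) n) hR'
        (by rintro ⟨h1, -⟩; apply h1; unfold Rd; simp)
      -- edges at `x` are active
      have hact : ∀ e ∈ ζ ∪ img dg (ring 0 n 0 M), ∀ v ∈ e, (¬ Rd n M v ∧ v ∈ rect 0 M (-1) n) →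
          e ∈ ζ := by
        intro e he v hv hv'
        rcases mem_union.1 he with h1 | h1
        · exact h1
        · exfalso
          induction e with
          | _ u w =>
            obtain ⟨a, b⟩ := u
            obtain ⟨c, d⟩ := w
            rw [mem_ringD hn hM] at h1
            rw [Sym2.mem_iff] at hv
            unfold Rd at hv'
            rw [mem_rect] at hv'
            rcases hv with rfl | rfl <;> simp only at hv' <;> omega
      have hxyζ : s(x, y) ∈ ζ := hact _ hxy x (by simp) hx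
      have hyr : y ∈ rect 0 M (-1) n :=
        (Pool.Agent.H95.Perc.mem_edgesIn'.1 (ES_sub (hζ hxyζ))).2.1
      have hyR : Rd n M y := by
        by_contra hcon
        exact hy ⟨hcon, hyr⟩
      refine ⟨y, (mem_vts_FD hn hM).2 ⟨hyr, hyR⟩, (hc.mono ?_).trans
        (Cn_edge (mem_union_left _ hxyζ))⟩
      intro e he
      rw [mem_ins'] at he
      apply mem_union_left
      obtain ⟨h1, h2⟩ := he
      induction e with
      | _ u w => exact hact _ h1 u (by simp) (h2 u (by simp))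
  · rintro ⟨t, ht, hct⟩
    have h1 := hct.mono (union_subset_union (Subset.refl ζ) (FD_ring (n := n) (M := M)))
    refine h1.trans ?_
    rw [mem_vts_FD hn hM] at ht
    obtain ⟨a, b⟩ := t
    obtain ⟨h2, h3⟩ := ht
    rw [mem_rect] at h2
    unfold Rd at h3
    simp only at h2 h3
    exact (ringD_conn hn hM (by omega)).mono subset_union_right

end Pool.Agent.IDK
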