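import Pool.Agent.IDK.HCge
import Pool.Agent.IDK.EDefs

/-! # IDK/EHc (MP_b3e76a_pr, part E, helper98): half circuits around `(0, h)` -/

namespace Pool.Agent.IDK

open Finset
open Pool.Agent.FKR
open Pool.Agent.H95.Perc (Inc conn link rect hor ver eh ev sumE sepE Inci mem_rect)
open Pool.Agent.H95.SumRule (edgesIn Z2)

variable {q : ℝ}

theorem HC_HCc {n : ℕ} (hn : 1 ≤ n) {κ : Finset (Sym2 (ℤ × ℤ))} (h : HC n κ) :
    HCc 0 ((n / 2 : ℕ) : ℤ) (4 * n) κ := by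
  obtain ⟨⟨a1, b1, ha1, hb1, ha1', hb1', hab1⟩, ⟨a2, b2, ha2, hb2, ha2', hb2', hab2⟩,
    ⟨c, d, hc, hd, hc', hd', hcd⟩⟩ := h
  have k1 : Cn κ a1 c := hv_cross (by omega) (by omega) (by omega) (by omega) (by omega)
    (by omega) ha1 ha1' hb1' hab1 hc hc' hd' hcd
  have k2 : Cn κ a2 c := hv_cross (by omega) (by omega) (by omega) (by omega) (by omega)
    (by omega) ha2 ha2' hb2' hab2 hc hc' hd' hcd
  obtain ⟨x1, z1⟩ := a1
  obtain ⟨x2, z2⟩ := a2
  simp only at ha1' ha2'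
  subst ha1' ha2'
  rw [mem_rect] at ha1 ha2
  simp only at ha1 ha2
  refine ⟨z2, z1, by omega, by omega, by omega, by omega, k2.trans k1.symm⟩

theorem tr_HA (h r s : ℤ) : img (tr h) (HE s \ HE r) = HA h r s := by
  have hmem : ∀ u v : ℤ × ℤ, s(tr h u, tr h v) ∈ HA h r s ↔ s(u, v) ∈ HE s \ HE r := by
    rintro ⟨a, b⟩ ⟨c, d⟩
    unfold HA HE HB
    rw [mem_sdiff, mem_sdiff, Pool.Agent.H95.Perc.mem_edgesIn', Pool.Agent.H95.Perc.mem_edgesIn',
      Pool.Agent.H95.Perc.mem_edgesIn', Pool.Agent.H95.Perc.mem_edgesIn']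
    simp only [tr_apply, mem_rect, Z2_adj_iff]
    omega
  ext e
  constructor
  · intro he
    unfold img at he
    rw [mem_image] at he
    obtain ⟨e', he', rfl⟩ := he
    induction e' with
    | _ u v =>
      rw [Sym2.map_mk]
      exact (hmem u v).2 he'
  · intro he
    induction e with
    | _ u v =>
      have hu : tr h ((tr h).symm u) = u := (tr h).apply_symm_apply u
      have hv : tr h ((tr h).symm v) = v := (tr h).apply_symm_apply v
      rw [← hu, ← hv] at he ⊢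
      exact mem_img_of_mem ((hmem _ _).1 he)

theorem hcc_ge (hq : 1 ≤ q) (hq4 : q < 4) (hu : UU q) : ∃ c : ℝ, 0 < c ∧ c ≤ 1 ∧
    ∀ n : ℕ, 1 ≤ n → ∀ h : ℤ, c ≤ P q (HA h ((n / 2 : ℕ) : ℤ) (4 * n)) ∅
      (HCc h ((n / 2 : ℕ) : ℤ) (4 * n)) := by
  have hq0 : 0 < q := by linarith
  obtain ⟨c, hc, hle⟩ := hc_ann hq hq4 hu
  refine ⟨c, hc, (hle 1 le_rfl).trans (P_le_one hq0 _ _ _), fun n hn h => ?_⟩
  refine (hle n hn).trans ?_
  have hnl : NL (HE (4 * n) \ HE ((n / 2 : ℕ) : ℤ)) := (HE_NL _).mono sdiff_subset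
  have e1 := P_equiv hq0 hnl NL_empty (tr h) (HCc h ((n / 2 : ℕ) : ℤ) (4 * n))
  rw [tr_HA] at e1
  have e2 : img (tr h) (∅ : Finset (Sym2 (ℤ × ℤ))) = ∅ := by unfold img; simp
  rw [e2] at e1
  rw [e1]
  apply P_mono hq0
  intro ζ _ h1
  obtain ⟨y, y', g1, g2, g3, g4, g5⟩ := HC_HCc hn h1
  refine ⟨y + h, y' + h, by omega, by omega, by omega, by omega, ?_⟩
  have := Cn_img (f := tr h) g5
  simpa using this

end Pool.Agent.IDK
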