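import Pool.Agent.IDK.EHc
import Pool.Agent.IDK.EAss

/-! # IDK/ELeft (MP_b3e76a_pr, part E, helper98): near implies touch, left side of the strip -/

namespace Pool.Agent.IDK

open Finset
open Pool.Agent.FKR
open Pool.Agent.H95.Perc (Inc conn link rect hor ver eh ev sumE sepE Inci mem_rect)
open Pool.Agent.H95.SumRule (edgesIn Z2)

variable {q : ℝ}

theorem mem_vts_BL {n : ℕ} (hn : 1 ≤ n) {v : ℤ × ℤ} : v ∈ vts (BL n) ↔ v ∈ rect 0 n 0 0 := by
  constructor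
  · intro h
    exact vts_edgesIn _ h
  · intro h
    have h' := h
    rw [mem_rect] at h'
    obtain ⟨x, y⟩ := v
    simp only at h'
    have hy : y = 0 := by omega
    subst hy
    by_cases hx : x < n
    · refine mem_vts.2 ⟨eh x 0, ?_, by rw [mem_eh]; left; rfl⟩
      unfold BL
      rw [eh_mem_edgesIn_rect]; omega
    · refine mem_vts.2 ⟨eh (x - 1) 0, ?_, by rw [mem_eh]; right; simp⟩
      unfold BL
      rw [eh_mem_edgesIn_rect]; omega

theorem strip_left {n M : ℕ} (hn : 1 ≤ n) (hM : 1 ≤ M) : Strip n 0 M (EL n M) (BL n) where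
  hn := by omega
  hy := by omega
  hE := sdiff_subset
  hF := by
    unfold BL
    apply Pool.Agent.H95.Perc.edgesIn_mono
    intro v hv
    rw [mem_rect] at hv ⊢
    omega
  conF := by
    intro u hu v hv
    rw [mem_vts_BL hn] at hu hv
    exact rect_Cn hu hv
  right := ⟨0, by rw [mem_vts_BL hn, mem_rect]; simp only; omega⟩

theorem left_near (hq : 1 ≤ q) (hq4 : q < 4) (hu : UU q) : ∃ c : ℝ, 0 < c ∧ c ≤ 1 ∧
    ∀ (n M ℓ m : ℕ) (a b : ℤ), (ℓ + 1) * 8 ^ m ≤ n → (((ℓ + 1) * 8 ^ m : ℕ) : ℤ) < a → a < b →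
      b + (((ℓ + 1) * 8 ^ m : ℕ) : ℤ) ≤ M →
      P q (EL n M) (BL n) (fun ω => (∃ p ∈ rect 0 ℓ a b, Cn ω p (0, 0)) ∧
        ¬ ∃ y, a - (((ℓ + 1) * 8 ^ m : ℕ) : ℤ) ≤ y ∧ y ≤ b ∧ Cn ω (0, y) (0, 0)) ≤ (1 - c) ^ m := by
  have hq0 : 0 < q := by linarith
  obtain ⟨c, hc, hc1, hle⟩ := hcc_ge hq hq4 hu
  refine ⟨c, hc, hc1, fun n M ℓ m a b h1 h2 h3 h4 => ?_⟩
  have hpow : ∀ k, 1 ≤ 8 ^ k := fun k => Nat.one_le_pow _ _ (by norm_num)
  have hℓn : ℓ + 1 ≤ n := by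
    have := Nat.le_mul_of_pos_right (ℓ + 1) (hpow m)
    omega
  have hM : 1 ≤ M := by
    have : (0 : ℤ) ≤ (((ℓ + 1) * 8 ^ m : ℕ) : ℤ) := Int.natCast_nonneg _
    omega
  have St := strip_left (n := n) (M := M) (by omega) hM
  set R : ℕ → ℕ := fun k => (ℓ + 1) * 8 ^ k with hR
  have hRmono : ∀ k k', k ≤ k' → R k ≤ R k' := by
    intro k k' hk
    exact Nat.mul_le_mul_left _ (Nat.pow_le_pow_right (by norm_num) hk)
  have hR1 : ∀ k, ℓ + 1 ≤ R k := fun k => Nat.le_mul_of_pos_right (ℓ + 1) (hpow k)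
  have hRs : ∀ k, R (k + 1) = 8 * R k := by
    intro k
    rw [hR]; simp only; rw [pow_succ]; ring
  have hh : ∀ k, (2 * R k) / 2 = R k := fun k => by omega
  have hc' : ∀ k : ℕ, ∀ h : ℤ, c ≤ P q (HA h ((R k : ℕ) : ℤ) ((R (k + 1) : ℕ) : ℤ)) ∅
      (HCc h ((R k : ℕ) : ℤ) ((R (k + 1) : ℕ) : ℤ)) := by
    intro k h
    have h5 := hle (2 * R k) (by have := hR1 k; omega) h
    rw [hh k] at h5
    have e1 : (4 : ℤ) * ((2 * R k : ℕ) : ℤ) = ((R (k + 1) : ℕ) : ℤ) := by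
      rw [hRs k]; push_cast; ring
    rw [e1] at h5
    exact h5
  have main := near_touch (q := q) (ℓ := ℓ) (a := a) (b := b) hq St (by omega) (by omega)
    (by omega) h3 (by omega) hc.le hc1 (fun k => ((R k : ℕ) : ℤ)) (fun k => ((R (k + 1) : ℕ) : ℤ)) m
    ?_ ?_ (fun k _ h _ _ => hc' k h) ?_ ((R m : ℕ) : ℤ) ?_
  · refine le_trans (P_mono hq0 ?_) main
    intro ζ _ hA
    have key : ∀ p : ℤ × ℤ, (∃ t ∈ vts (BL n), Cn (ζ ∪ BL n) p t) ↔ Cn (ζ ∪ BL n) p (0, 0) := by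
      intro p
      have h00 : ((0 : ℤ), (0 : ℤ)) ∈ vts (BL n) := by
        rw [mem_vts_BL (by omega), mem_rect]; simp only; omega
      constructor
      · rintro ⟨t, ht, hct⟩
        exact hct.trans ((St.conF t ht _ h00).mono subset_union_right)
      · intro h
        exact ⟨_, h00, h⟩
    simp only [key]
    exact hA
  · intro k hk
    have h5 := hRmono (k + 1) m (by omega)
    have h6 := hR1 k
    have h7 : R m ≤ n := h1
    have h8 : (((ℓ + 1) * 8 ^ m : ℕ) : ℤ) = ((R m : ℕ) : ℤ) := rfl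
    rw [h8] at h2 h4
    exact ⟨by omega, by omega, by omega, by omega, by omega⟩
  · intro k k' hk hk'
    have h5 := hRmono (k + 1) k' (by omega)
    omega
  · intro k hk h hah hhb e he
    have h5 := hRmono (k + 1) m (by omega)
    have h7 : R m ≤ n := h1
    have h8 : (((ℓ + 1) * 8 ^ m : ℕ) : ℤ) = ((R m : ℕ) : ℤ) := rfl
    rw [h8] at h2 h4
    have hD := HA_sub (n := (n : ℤ)) (y0 := 0) (y1 := (M : ℤ)) (h := h)
      (r := ((R k : ℕ) : ℤ)) (s := ((R (k + 1) : ℕ) : ℤ)) (by omega) (by omega) (by omega) he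
    unfold EL
    rw [mem_sdiff]
    refine ⟨hD, fun h9 => ?_⟩
    induction e with
    | _ u v =>
      have h10 := (Pool.Agent.H95.Perc.mem_edgesIn'.1 h9).1
      have h11 := HA_vert he (v := u) (by simp)
      rw [mem_AnV] at h11
      rw [mem_rect] at h10
      omega
  · intro k hk
    have h5 := hRmono (k + 1) m (by omega)
    omega

end Pool.Agent.IDK
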