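import Pool.Agent.IDK.ERa

/-! # IDK/ENear (MP_b3e76a_pr, part E, helper98): `NearTouch` for the two families of arcs -/

namespace Pool.Agent.IDK

open Finset _root_.IDK
open Pool.Agent.FKR
open Pool.Agent.H95.Perc (Inc conn link rect hor ver eh ev sumE sepE Inci mem_rect)
open Pool.Agent.H95.SumRule (edgesIn Z2 domain bottomArc fkProb selfDual)

variable {q : ℝ}

/-- the arithmetic common to both sides -/
theorem near_arith {α β η : ℝ} {m : ℕ} (hη : 0 < η) (h1 : 0 < α - η) (h2 : α < β) :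
    ∃ δ1 > 0, δ1 < 1 ∧ ∃ n0 : ℕ, 1 ≤ n0 ∧ ∀ n : ℕ, n0 ≤ n → ∀ δ : ℝ, 0 ≤ δ → δ ≤ δ1 →
      (((⌊δ * n⌋₊ + 1) * 8 ^ m : ℕ) : ℝ) ≤ min η 1 * n ∧ (⌈α * n⌉ : ℤ) < ⌊β * n⌋ := by
  have h8 : (0 : ℝ) < 8 ^ m := by positivity
  have hmin : 0 < min η 1 := lt_min hη one_pos
  have hmin1 : min η 1 ≤ 1 := min_le_right _ _
  have h81 : (1 : ℝ) ≤ 8 ^ m := one_le_pow₀ (by norm_num)
  refine ⟨min η 1 / (2 * 8 ^ m), by positivity, ?_,
    max 1 (max ⌈2 * 8 ^ m / min η 1⌉₊ (⌈2 / (β - α)⌉₊ + 1)), le_max_left _ _,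
    fun n hn δ hδ0 hδ => ⟨?_, ?_⟩⟩
  · rw [div_lt_one (by positivity)]
    linarith
  · have hn1 : (2 * 8 ^ m / min η 1 : ℝ) ≤ n := by
      refine (Nat.le_ceil _).trans ?_
      exact_mod_cast ((le_max_left _ _).trans (le_max_right _ _)).trans hn
    rw [div_le_iff₀ hmin] at hn1
    have h3 : (⌊δ * n⌋₊ : ℝ) ≤ δ * n := Nat.floor_le (mul_nonneg hδ0 (Nat.cast_nonneg n))
    have h4 : δ * n ≤ min η 1 / (2 * 8 ^ m) * n := mul_le_mul_of_nonneg_right hδ (Nat.cast_nonneg n)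
    have h5 : min η 1 / (2 * 8 ^ m) * n * 8 ^ m = min η 1 * n / 2 := by
      field_simp
    push_cast
    calc ((⌊δ * n⌋₊ : ℝ) + 1) * 8 ^ m ≤ (min η 1 / (2 * 8 ^ m) * n + 1) * 8 ^ m := by
          apply mul_le_mul_of_nonneg_right _ h8.le
          linarith
      _ = min η 1 * n / 2 + 8 ^ m := by rw [add_mul, h5, one_mul]
      _ ≤ min η 1 * n := by linarith [mul_comm (n : ℝ) (min η 1)]
  · have hn2 : (2 / (β - α) : ℝ) + 1 ≤ n := by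
      have h3 : (⌈2 / (β - α)⌉₊ : ℝ) + 1 ≤ n := by
        exact_mod_cast ((le_max_right _ _).trans (le_max_right _ _)).trans hn
      have h4 := Nat.le_ceil (2 / (β - α))
      linarith
    have hba : 0 < β - α := by linarith
    have h5 : 2 < (β - α) * n := by
      have h6 : 2 / (β - α) < n := by linarith
      rw [div_lt_iff₀ hba] at h6
      linarith [mul_comm (n : ℝ) (β - α)]
    have h7 := Int.ceil_lt_add_one (α * n)
    have h8' := Int.lt_floor_add_one (β * n)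
    have h9 : ((⌈α * n⌉ : ℤ) : ℝ) < ((⌊β * n⌋ : ℤ) : ℝ) := by
      have : (β - α) * n = β * n - α * n := by ring
      linarith
    exact_mod_cast h9

theorem near_left (hq : 1 ≤ q) (hq4 : q < 4) (hu : UU q) (hi : ℝ) :
    NearTouch 0 hi (FL q) (FLn q) := by
  intro α β η ρ hη h1 h2 h3 hρ
  have hq0 : 0 < q := by linarith
  obtain ⟨c, hc, hc1, hle⟩ := left_near hq hq4 hu
  obtain ⟨m, hm⟩ := exists_pow_lt_of_lt_one hρ (by linarith : 1 - c < 1)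
  obtain ⟨δ1, hδ1, hδ1', n0, hn0, har⟩ := near_arith (m := m) hη h1 h2
  refine ⟨δ1, hδ1, ⌈β + η⌉₊ + 1, fun δ hδ0 hδ => ⟨n0, fun n hn M hM => ?_⟩⟩
  obtain ⟨a1, a2⟩ := har n hn δ hδ0 hδ
  set ℓ := ⌊δ * n⌋₊ with hℓ
  have hnpos : (0 : ℝ) < n := by
    have : 1 ≤ n := hn0.trans hn
    exact_mod_cast this
  have b1 : (((ℓ + 1) * 8 ^ m : ℕ) : ℝ) ≤ n := by
    have := min_le_right η 1
    nlinarith
  have b2 : (((ℓ + 1) * 8 ^ m : ℕ) : ℝ) ≤ η * n := by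
    have := min_le_left η 1
    nlinarith
  have b3 : (β + η) * n ≤ M := by
    have h4 : (((⌈β + η⌉₊ + 1) * n : ℕ) : ℝ) ≤ M := by exact_mod_cast hM
    push_cast at h4
    have h5 := Nat.le_ceil (β + η)
    nlinarith
  have c1 : α * n ≤ ((⌈α * n⌉ : ℤ) : ℝ) := Int.le_ceil _
  have c2 : ((⌊β * n⌋ : ℤ) : ℝ) ≤ β * n := Int.floor_le _
  have key := hle n M ℓ m ⌈α * n⌉ ⌊β * n⌋ (by exact_mod_cast b1) (by
      have : (((ℓ + 1) * 8 ^ m : ℕ) : ℝ) < ((⌈α * n⌉ : ℤ) : ℝ) := by nlinarith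
      exact_mod_cast this) a2 (by
      have : ((⌊β * n⌋ : ℤ) : ℝ) + (((ℓ + 1) * 8 ^ m : ℕ) : ℝ) ≤ M := by nlinarith
      exact_mod_cast this)
  rw [FLn_eq hq0, FL_eq hq0, P_split hq0 _ _ _ (fun ω => ∃ y ∈ realArc n (α - η) (β + η),
    Cn ω (0, (y : ℤ)) (0, 0))]
  refine add_le_add (P_mono hq0 fun _ _ h => h.2) (le_trans (P_mono hq0 ?_) (key.trans hm.le))
  rintro ζ _ ⟨⟨x, y, hx, hy, hc'⟩, hno⟩
  refine ⟨⟨((x : ℤ), (y : ℤ)), ?_, hc'⟩, ?_⟩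
  · rw [mem_rect]
    have d1 : x ≤ ℓ := Nat.le_floor hx
    obtain ⟨d2, d3⟩ := hy
    have d4 : (⌈α * n⌉ : ℤ) ≤ (y : ℤ) := Int.ceil_le.2 (by exact_mod_cast d2)
    have d5 : (y : ℤ) ≤ ⌊β * n⌋ := Int.le_floor.2 (by exact_mod_cast d3)
    simp only
    omega
  · rintro ⟨y', e1, e2, e3⟩
    apply hno
    have e1' : ((⌈α * n⌉ : ℤ) : ℝ) - (((ℓ + 1) * 8 ^ m : ℕ) : ℝ) ≤ (y' : ℝ) := by exact_mod_cast e1
    have e2' : (y' : ℝ) ≤ ((⌊β * n⌋ : ℤ) : ℝ) := by exact_mod_cast e2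
    have e4 : 0 ≤ y' := by
      have : (0 : ℝ) ≤ y' := by nlinarith
      exact_mod_cast this
    obtain ⟨y, rfl⟩ := Int.eq_ofNat_of_zero_le e4
    refine ⟨y, ⟨?_, ?_⟩, e3⟩
    · push_cast at e1'
      push_cast at b2
      nlinarith
    · push_cast at e2'
      nlinarith

theorem near_bot (hq : 1 ≤ q) (hq4 : q < 4) (hu : UU q) : NearTouch 0 1 (FB q) (FBn q) := by
  intro α β η ρ hη h1 h2 h3 hρ
  have hq0 : 0 < q := by linarith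
  obtain ⟨c, hc, hc1, hle⟩ := bot_near hq hq4 hu
  obtain ⟨m, hm⟩ := exists_pow_lt_of_lt_one hρ (by linarith : 1 - c < 1)
  obtain ⟨δ1, hδ1, hδ1', n0, hn0, har⟩ := near_arith (m := m) hη h1 h2
  refine ⟨δ1, hδ1, 1, fun δ hδ0 hδ => ⟨n0, fun n hn M hM => ?_⟩⟩
  obtain ⟨a1, a2⟩ := har n hn δ hδ0 hδ
  set ℓ := ⌊δ * n⌋₊ with hℓ
  have hn1 : 1 ≤ n := hn0.trans hn
  have hM1 : 1 ≤ M := by omega
  have hnpos : (0 : ℝ) < n := by exact_mod_cast hn1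
  have hnM : (n : ℝ) ≤ M := by
    have : n ≤ M := by omega
    exact_mod_cast this
  have hη1 : η < 1 := by linarith
  have b2 : (((ℓ + 1) * 8 ^ m : ℕ) : ℝ) ≤ η * n := by
    have := min_le_left η 1
    nlinarith
  have b1 : (((ℓ + 1) * 8 ^ m : ℕ) : ℝ) < M := by nlinarith
  have c1 : α * n ≤ ((⌈α * n⌉ : ℤ) : ℝ) := Int.le_ceil _
  have c2 : ((⌊β * n⌋ : ℤ) : ℝ) ≤ β * n := Int.floor_le _
  have key := hle n M ℓ m ⌈α * n⌉ ⌊β * n⌋ (by exact_mod_cast b1) (by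
      have : (((ℓ + 1) * 8 ^ m : ℕ) : ℝ) ≤ ((⌈α * n⌉ : ℤ) : ℝ) := by nlinarith
      exact_mod_cast this) a2 (by
      have : ((⌊β * n⌋ : ℤ) : ℝ) + (((ℓ + 1) * 8 ^ m : ℕ) : ℝ) < n := by nlinarith
      exact_mod_cast this)
  refine (FBn_le hq0 hn1 hM1 δ (by nlinarith) _).trans ?_
  rw [FB_eq hq0 hn1 hM1, P_split hq0 _ _ _ (fun κ => ∃ i ∈ realArc n (α - η) (β + η),
    i < n ∧ Cn κ ((i : ℤ), 0) (-1, -1))]
  refine add_le_add (P_mono hq0 fun _ _ h => h.2) (le_trans (P_mono hq0 ?_) (key.trans hm.le))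
  rintro ζ _ ⟨⟨i, j, hi, hin, hj, hc'⟩, hno⟩
  refine ⟨⟨((i : ℤ), (j : ℤ)), ?_, hc'⟩, ?_⟩
  · rw [mem_rect]
    have d1 : j ≤ ℓ := Nat.le_floor hj
    obtain ⟨d2, d3⟩ := hi
    have d4 : (⌈α * n⌉ : ℤ) ≤ (i : ℤ) := Int.ceil_le.2 (by exact_mod_cast d2)
    have d5 : (i : ℤ) ≤ ⌊β * n⌋ := Int.le_floor.2 (by exact_mod_cast d3)
    simp only
    omega
  · rintro ⟨i', e1, e2, e3⟩
    apply hno
    have e1' : ((⌈α * n⌉ : ℤ) : ℝ) - (((ℓ + 1) * 8 ^ m : ℕ) : ℝ) ≤ (i' : ℝ) := by exact_mod_cast e1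
    have e2' : (i' : ℝ) ≤ ((⌊β * n⌋ : ℤ) : ℝ) := by exact_mod_cast e2
    have e4 : 0 ≤ i' := by
      have : (0 : ℝ) ≤ i' := by nlinarith
      exact_mod_cast this
    obtain ⟨i2, rfl⟩ := Int.eq_ofNat_of_zero_le e4
    push_cast at e1' e2' b2
    refine ⟨i2, ⟨?_, ?_⟩, ?_, e3⟩
    · nlinarith
    · nlinarith
    · have : (i2 : ℝ) < n := by nlinarith
      exact_mod_cast this

/-- Final statement of parts D and E, given the macroscopic identity. -/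
theorem no_sle_n {k : ℝ} (hq : 1 ≤ q) (hq4 : q < 4) (hu : UU q) (hk0 : 0 < k)
    (hk : k ≠ kappaOf q) (hM : Macro q (FL q) (FB q)) : NotSleN k (FLn q) (FBn q) := by
  have hq0 : 0 < q := by linarith
  refine no_sle_near (no_sle hq hq4 hk0 hk (FL_mono hq0) (FB_mono hq0) hM) ?_ ?_
    (near_left hq hq4 hu) (near_bot hq hq4 hu)
  · intro n M δ S _ _ hδ
    exact FL_le_FLn hq0 n M δ S hδ
  · intro n M δ S hn hM' hδ
    exact FB_le_FBn hq0 n M δ S hn hM' hδ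

end Pool.Agent.IDK
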