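import Pool.Agent.IDK.EFollow
import Pool.Agent.FKR.Dom

/-! # IDK/EOne (MP_b3e76a_pr, part E, helper98): one half annulus -/

namespace Pool.Agent.IDK

open Finset
open Pool.Agent.FKR
open Pool.Agent.H95.Perc (Inc conn link rect hor ver eh ev sumE sepE Inci mem_rect)
open Pool.Agent.H95.SumRule (edgesIn Z2)

variable {q : ℝ} {n y0 y1 ℓ h r s : ℤ} {K F0 F1 : Finset (Sym2 (ℤ × ℤ))}

theorem mem_AnV {v : ℤ × ℤ} : v ∈ AnV h r s ↔
    (0 ≤ v.1 ∧ v.1 ≤ s ∧ h - s ≤ v.2 ∧ v.2 ≤ h + s) ∧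
      ¬ (0 ≤ v.1 ∧ v.1 ≤ r - 1 ∧ h - r + 1 ≤ v.2 ∧ v.2 ≤ h + r - 1) := by
  unfold AnV
  rw [mem_sdiff, mem_rect, mem_rect]

/-- an edge of the half annulus -/
theorem HA_vert {e : Sym2 (ℤ × ℤ)} (he : e ∈ HA h r s) {v : ℤ × ℤ} (hv : v ∈ e) :
    v ∈ AnV h r s := by
  unfold HA at he
  rw [mem_sdiff] at he
  obtain ⟨h1, h2⟩ := he
  induction e with
  | _ a b =>
    rw [Pool.Agent.H95.Perc.mem_edgesIn'] at h1 h2
    obtain ⟨ha, hb, hab⟩ := h1
    have hadj : Z2.Adj (a.1, a.2) (b.1, b.2) := hab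
    rw [Z2_adj_iff] at hadj
    have h3 : ¬ (a ∈ rect 0 r (h - r) (h + r) ∧ b ∈ rect 0 r (h - r) (h + r)) :=
      fun h4 => h2 ⟨h4.1, h4.2, hab⟩
    rw [mem_rect] at ha hb h3
    rw [mem_rect] at h3
    rw [Sym2.mem_iff] at hv
    rw [mem_AnV]
    rcases hv with rfl | rfl
    · refine ⟨ha, fun h5 => h3 ?_⟩
      omega
    · refine ⟨hb, fun h5 => h3 ?_⟩
      omega

theorem HA_sub (hsn : s ≤ n) (h1 : y0 ≤ h - s) (h2 : h + s ≤ y1) :
    HA h r s ⊆ edgesIn (rect 0 n y0 y1) := by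
  intro e he
  unfold HA at he
  rw [mem_sdiff] at he
  refine Pool.Agent.H95.Perc.edgesIn_mono ?_ he.1
  intro v hv
  rw [mem_rect] at hv ⊢
  omega

theorem NL_HA : NL (HA h r s) := by
  unfold HA
  exact (NL_edgesIn _).mono sdiff_subset

theorem mem_DK {e : Sym2 (ℤ × ℤ)} :
    e ∈ DK n y0 y1 K h r s ↔ e ∈ HA h r s ∧ ∀ f ∈ star e, f ∈ VB n y0 y1 K := by
  classical
  unfold DK
  rw [mem_filter]

theorem DK_sub : DK n y0 y1 K h r s ⊆ HA h r s := fun _ he => (mem_DK.1 he).1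

theorem inc_HCc : Inc (HCc h r s) := by
  rintro ω ω' hs ⟨y, y', h1, h2, h3, h4, hc⟩
  exact ⟨y, y', h1, h2, h3, h4, hc.mono hs⟩

theorem inc_TK : Inc (TK n y0 y1 K h r s) := by
  rintro ω ω' hs ⟨y, h1, h2, v, hv, hvK, hc⟩
  exact ⟨y, h1, h2, v, hv, hvK, hc.mono (inter_subset_inter hs (Subset.refl _))⟩

/-- `TK` is determined by the edges of `DK` -/
theorem TK_iff {ω ω' : Finset (Sym2 (ℤ × ℤ))}
    (hω : ω ∩ DK n y0 y1 K h r s = ω' ∩ DK n y0 y1 K h r s) :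
    TK n y0 y1 K h r s ω ↔ TK n y0 y1 K h r s ω' := by
  unfold TK
  rw [hω]

/-- a vertex of the rectangle incident to a face below `K` and to a face not below `K` is on `K` -/
theorem mem_vts_K {u f g : ℤ × ℤ} (hu : u ∈ rect 0 n y0 y1) (hf : Inci f u) (hg : Inci g u)
    (hfV : f ∈ VB n y0 y1 K) (hgV : g ∉ VB n y0 y1 K) : u ∈ vts K := by
  by_contra hK
  exact hgV ((VB_rot hu hK hf hg).1 hfV)

theorem one_annulus (hq : 1 ≤ q) (hK : KCut n y0 y1 h K) (hV : KV n ℓ h K F0 F1)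
    (h0 : ∀ t ∈ vts F0, ∀ t' ∈ vts F0, Cn F1 t t') (hF1 : NL F1) (hℓ : ℓ < r) (hr : 1 ≤ r)
    (hsn : s ≤ n) (h1 : y0 ≤ h - s) (h2 : h + s ≤ y1) :
    P q (HA h r s) ∅ (HCc h r s) ≤ P q (DK n y0 y1 K h r s) F1 (TK n y0 y1 K h r s) := by
  classical
  have hHA := HA_sub (r := r) hsn h1 h2
  have hNLe : NL (∅ : Finset (Sym2 (ℤ × ℤ))) := fun e he => absurd he (notMem_empty e)
  set A := HA h r s with hA
  set D := DK n y0 y1 K h r s with hD
  have hDA : D ⊆ A := DK_sub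
  have step1 := P_le_freeze (E := A) (F := ∅) hq NL_HA hNLe (A \ D) (inc_HCc (h := h) (r := r) (s := s))
  have e1 : A \ (A \ D) = D := by rw [sdiff_sdiff_right_self]; exact inter_eq_right.2 hDA
  have e2 : (∅ : Finset (Sym2 (ℤ × ℤ))) ∪ A ∩ (A \ D) = A \ D := by
    rw [empty_union]; exact inter_eq_right.2 sdiff_subset
  rw [e1, e2] at step1
  refine step1.trans ?_
  -- vertices of `D` which are ends of edges of `A \ D` are wired in `F1`
  have key : ∀ u ∈ vts D, u ∈ vts (A \ D) → ∃ t ∈ vts F0, Cn F1 u t := by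
    intro u hu hu'
    obtain ⟨e, he, hue⟩ := mem_vts.1 hu
    obtain ⟨e', he', hue'⟩ := mem_vts.1 hu'
    obtain ⟨heA, heV⟩ := mem_DK.1 he
    rw [mem_sdiff] at he'
    obtain ⟨heA', heD'⟩ := he'
    have hex : ∃ g ∈ star e', g ∉ VB n y0 y1 K := by
      by_contra hcon
      push Not at hcon
      exact heD' (mem_DK.2 ⟨heA', hcon⟩)
    obtain ⟨g, hg, hgV⟩ := hex
    obtain ⟨f, hf⟩ : ∃ f, f ∈ star e := by
      induction star e with
      | _ a b => exact ⟨a, by simp⟩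
    have huV : u ∈ rect 0 n y0 y1 := by
      have h3 := hHA heA
      have h4 := vts_edgesIn (rect 0 n y0 y1) (mem_vts.2 ⟨e, h3, hue⟩)
      exact h4
    have hKu : u ∈ vts K := mem_vts_K huV (side_inci (hHA heA) hf hue)
      (side_inci (hHA heA') hg hue') (heV f hf) hgV
    have hAn := HA_vert heA hue
    rw [mem_AnV] at hAn
    rcases hV u hKu hAn.1.1 (by omega) with h5 | h5
    · exfalso
      apply hAn.2
      omega
    · exact h5
  refine P_le hq (NL_HA.mono hDA) (NL_HA.mono sdiff_subset) (NL_HA.mono hDA) hF1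
    subset_union_left ?_ inc_HCc inc_TK ?_
  · intro u hu v hv huv
    by_cases huv' : u = v
    · rw [huv']; exact Cn_refl _ _
    · obtain ⟨h3, h4⟩ := huv.mem_vts huv'
      obtain ⟨t, ht, htu⟩ := key u hu h3
      obtain ⟨t', ht', htv⟩ := key v hv h4
      exact (htu.trans (h0 t ht t' ht')).trans htv.symm
  · rintro ζ hζ ⟨y, y', g1, g2, g3, g4, hc⟩
    have hTV : ∀ e ∈ A \ D, ∃ f ∈ star e, f ∉ VB n y0 y1 K := by
      intro e he
      rw [mem_sdiff] at he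
      by_contra hcon
      push Not at hcon
      exact he.2 (mem_DK.2 ⟨he.1, hcon⟩)
    obtain ⟨v, hv, hcv⟩ := follow hK ((hζ.trans hDA).trans hHA) (sdiff_subset.trans hHA) hTV
      (by omega) (by omega) (by omega) (by omega) hc
    refine ⟨y, g1, g2, v, ?_, hv, hcv.mono ?_⟩
    · by_cases hyv : ((0 : ℤ), y) = v
      · rw [← hyv, mem_AnV]
        simp only
        omega
      · obtain ⟨e, he, hve⟩ := mem_vts.1 (hcv.mem_vts hyv).2
        exact HA_vert (hDA (hζ he)) hve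
    · intro e he
      rw [mem_inter, mem_union]
      exact ⟨Or.inl he, hζ he⟩

end Pool.Agent.IDK
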