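import Pool.Agent.IDK.RA9
import Pool.Agent.IDK.EBot
import Pool.Agent.IDK.CDual

/-! # IDK/ERa (MP_b3e76a_pr, part E, helper98): near implies touch, for real arcs

`FLn`, `FBn`: probabilities that the interface comes within distance `δ n` of an arc of the left side, of the bottom
side. -/

namespace Pool.Agent.IDK

open Finset
open Pool.Agent.FKR
open Pool.Agent.H95.Perc (Inc conn link rect hor ver eh ev sumE sepE Inci mem_rect)
open Pool.Agent.H95.SumRule (edgesIn Z2 domain bottomArc fkProb selfDual)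

variable {q : ℝ}

/-- The faces (named by their lower left corners) of the square lattice; adjacent faces are joined across the edges
which do not belong to `ω`. -/
def faceGraph (ω : Finset (Sym2 (ℤ × ℤ))) : SimpleGraph (ℤ × ℤ) :=
  SimpleGraph.fromRel fun f g =>
    (g = (f.1 + 1, f.2) ∧ s((f.1 + 1, f.2), (f.1 + 1, f.2 + 1)) ∉ ω) ∨
    (g = (f.1, f.2 + 1) ∧ s((f.1, f.2 + 1), (f.1 + 1, f.2 + 1)) ∉ ω)

/-- probability that the cluster of the wired bottom side contains a vertex `(x, y)` with `x ≤ δ n`, `y ∈ S` -/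
noncomputable def FLn (q : ℝ) (n M : ℕ) (δ : ℝ) (S : Set ℕ) : ℝ :=
  fkProb (selfDual q) q (domain n fun _ => M) (bottomArc 0 n)
    fun ω => ∃ x y : ℕ, (x : ℝ) ≤ δ * n ∧ y ∈ S ∧
      (Pool.Agent.H95.SumRule.openGraph ω).Reachable (0, 0) ((x : ℤ), (y : ℤ))

/-- probability that the dual cluster of the outer face contains a face `(i, j)` with `i ∈ S`, `j ≤ δ n` -/
noncomputable def FBn (q : ℝ) (n M : ℕ) (δ : ℝ) (S : Set ℕ) : ℝ :=
  fkProb (selfDual q) q (domain n fun _ => M) (bottomArc 0 n)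
    fun ω => ∃ i j : ℕ, i ∈ S ∧ i < n ∧ (j : ℝ) ≤ δ * n ∧
      (faceGraph ω).Reachable ((i : ℤ), (j : ℤ)) (-1, -1)

theorem faceGraph_eh {ω : Finset (Sym2 (ℤ × ℤ))} {x y : ℤ} (h : ev (x + 1) y ∉ ω) :
    (faceGraph ω).Adj (x, y) (x + 1, y) := by
  rw [faceGraph, SimpleGraph.fromRel_adj]
  refine ⟨by simp, Or.inl (Or.inl ⟨rfl, h⟩)⟩

theorem faceGraph_ev {ω : Finset (Sym2 (ℤ × ℤ))} {x y : ℤ} (h : eh x (y + 1) ∉ ω) :
    (faceGraph ω).Adj (x, y) (x, y + 1) := by
  rw [faceGraph, SimpleGraph.fromRel_adj]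
  refine ⟨by simp, Or.inl (Or.inr ⟨rfl, h⟩)⟩

/-- connections in the dual configuration give connections in the face graph -/
theorem face_of_Cn {n M : ℕ} {ω : Finset (Sym2 (ℤ × ℤ))} (hω : ω ⊆ edgesIn (rect 0 n 0 M))
    {u v : ℤ × ℤ} (h : Cn ((edgesIn (rect 0 n 0 M) \ ω).image star ∪ ring 0 n 0 M) u v) :
    (faceGraph ω).Reachable u v := by
  have key : ∀ e' ∈ (edgesIn (rect 0 n 0 M) \ ω).image star ∪ ring 0 n 0 M,
      (∀ x y : ℤ, e' = eh x y → ev (x + 1) y ∉ ω) ∧ (∀ x y : ℤ, e' = ev x y → eh x (y + 1) ∉ ω) := by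
    intro e' he'
    rw [mem_union, mem_image] at he'
    rcases he' with ⟨e, he, rfl⟩ | he'
    · rw [mem_sdiff] at he
      constructor
      · intro x y h1 h2
        obtain ⟨a, b, rfl | rfl⟩ := edgesIn_cases he.1
        · rw [star_eh] at h1
          exact eh_ne_ev h1.symm
        · rw [star_ev, eh_inj] at h1
          obtain ⟨h3, h4⟩ := h1
          subst h4
          have h5 : a = x + 1 := by omega
          subst h5
          exact he.2 h2
      · intro x y h1 h2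
        obtain ⟨a, b, rfl | rfl⟩ := edgesIn_cases he.1
        · rw [star_eh, ev_inj] at h1
          obtain ⟨h3, h4⟩ := h1
          subst h3
          have h5 : b = y + 1 := by omega
          subst h5
          exact he.2 h2
        · rw [star_ev] at h1
          exact eh_ne_ev h1
    · unfold ring at he'
      rw [mem_sdiff] at he'
      constructor
      · intro x y h1 h2
        apply he'.2
        rw [mem_image]
        refine ⟨_, hω h2, ?_⟩
        rw [star_ev, h1, add_sub_cancel_right]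
      · intro x y h1 h2
        apply he'.2
        rw [mem_image]
        refine ⟨_, hω h2, ?_⟩
        rw [star_eh, h1, add_sub_cancel_right]
  have hV : (edgesIn (rect 0 n 0 M) \ ω).image star ∪ ring 0 n 0 M ⊆
      edgesIn (rect (0 - 1) n (0 - 1) M) := by
    apply union_subset
    · exact (image_subset_image sdiff_subset).trans star_edgesIn_subset
    · unfold ring
      exact sdiff_subset
  refine SimpleGraph.Reachable.mono ?_ h
  intro a b hab
  have hab' : s(a, b) ∈ (edgesIn (rect 0 n 0 M) \ ω).image star ∪ ring 0 n 0 M := by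
    have := hab
    unfold Pool.Agent.H95.Wedge.openGraph at this
    first
      | exact (SimpleGraph.fromEdgeSet_adj _).1 this |>.1
      | exact this.1
      | exact this
  obtain ⟨x, y, hc | hc⟩ := edgesIn_cases (hV hab')
  · have h1 := faceGraph_eh ((key _ hab').1 x y hc)
    unfold eh at hc
    rw [Sym2.eq_iff] at hc
    rcases hc with ⟨rfl, rfl⟩ | ⟨rfl, rfl⟩
    · exact h1
    · exact h1.symm
  · have h1 := faceGraph_ev ((key _ hab').2 x y hc)
    unfold ev at hc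
    rw [Sym2.eq_iff] at hc
    rcases hc with ⟨rfl, rfl⟩ | ⟨rfl, rfl⟩
    · exact h1
    · exact h1.symm

/-- all faces outside of the rectangle are sent to `(-1, -1)` -/
private def phi (n M : ℕ) (f : ℤ × ℤ) : ℤ × ℤ :=
  if 0 ≤ f.1 ∧ f.1 < n ∧ 0 ≤ f.2 ∧ f.2 < M then f else (-1, -1)

theorem Cn_of_face {n M : ℕ} (hn : 1 ≤ n) (hM : 1 ≤ M) {ω : Finset (Sym2 (ℤ × ℤ))} {i j : ℤ}
    (hi : 0 ≤ i) (hin : i < n) (hj : 0 ≤ j) (hjM : j < M)
    (h : (faceGraph ω).Reachable (i, j) (-1, -1)) :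
    Cn ((edgesIn (rect 0 n 0 M) \ ω).image star ∪ ring 0 n 0 M) (i, j) (-1, -1) := by
  have hx : (0 : ℤ) < n := by omega
  have hy : (0 : ℤ) < M := by omega
  set κ := (edgesIn (rect 0 n 0 M) \ ω).image star ∪ ring 0 n 0 M with hκ
  have hout : ∀ f : ℤ × ℤ, -1 ≤ f.1 → f.1 ≤ n → -1 ≤ f.2 → f.2 ≤ M →
      (f.1 = -1 ∨ f.1 = n ∨ f.2 = -1 ∨ f.2 = M) → Cn κ f (-1, -1) := by
    intro f h1 h2 h3 h4 h5
    refine (ring_connected hx hy ?_ ?_).mono subset_union_right
    · refine ⟨?_, by omega⟩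
      rw [mem_rect]
      omega
    · refine ⟨?_, by simp⟩
      rw [mem_rect]
      simp only
      omega
  -- one step
  have hphi : ∀ f : ℤ × ℤ, -1 ≤ f.1 → f.1 ≤ n → -1 ≤ f.2 → f.2 ≤ M → Cn κ (phi n M f) f := by
    intro f h1 h2 h3 h4
    unfold phi
    split_ifs with h5
    · exact Cn_refl _ _
    · exact (hout f h1 h2 h3 h4 (by omega)).symm
  have step : ∀ f g : ℤ × ℤ, ((g = (f.1 + 1, f.2) ∧ s((f.1 + 1, f.2), (f.1 + 1, f.2 + 1)) ∉ ω) ∨
      (g = (f.1, f.2 + 1) ∧ s((f.1, f.2 + 1), (f.1 + 1, f.2 + 1)) ∉ ω)) →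
      Cn κ (phi n M f) (phi n M g) := by
    rintro ⟨x, y⟩ g (⟨rfl, h1⟩ | ⟨rfl, h1⟩)
    · simp only at h1
      by_cases hc : 0 ≤ x + 1 ∧ x + 1 ≤ n ∧ 0 ≤ y ∧ y + 1 ≤ M
      · refine ((hphi _ ?_ ?_ ?_ ?_).trans (Cn_edge ?_)).trans (hphi _ ?_ ?_ ?_ ?_).symm
        any_goals (simp only; omega)
        rw [hκ, mem_union, mem_image]
        left
        refine ⟨ev (x + 1) y, ?_, ?_⟩
        · rw [mem_sdiff]
          exact ⟨ev_mem_edgesIn_rect.2 (by omega), h1⟩
        · rw [star_ev, add_sub_cancel_right]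
          rfl
      · have e1 : phi n M (x, y) = (-1, -1) := by
          unfold phi
          rw [if_neg]
          simp only
          omega
        have e2 : phi n M (x + 1, y) = (-1, -1) := by
          unfold phi
          rw [if_neg]
          simp only
          omega
        rw [e1, e2]
        exact Cn_refl _ _
    · simp only at h1
      by_cases hc : 0 ≤ x ∧ x + 1 ≤ n ∧ 0 ≤ y + 1 ∧ y + 1 ≤ M
      · refine ((hphi _ ?_ ?_ ?_ ?_).trans (Cn_edge ?_)).trans (hphi _ ?_ ?_ ?_ ?_).symm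
        any_goals (simp only; omega)
        rw [hκ, mem_union, mem_image]
        left
        refine ⟨eh x (y + 1), ?_, ?_⟩
        · rw [mem_sdiff]
          exact ⟨eh_mem_edgesIn_rect.2 (by omega), h1⟩
        · rw [star_eh, add_sub_cancel_right]
          rfl
      · have e1 : phi n M (x, y) = (-1, -1) := by
          unfold phi
          rw [if_neg]
          simp only
          omega
        have e2 : phi n M (x, y + 1) = (-1, -1) := by
          unfold phi
          rw [if_neg]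
          simp only
          omega
        rw [e1, e2]
        exact Cn_refl _ _
  have main : ∀ u v : ℤ × ℤ, (faceGraph ω).Reachable u v → Cn κ (phi n M u) (phi n M v) := by
    rintro u v ⟨w⟩
    induction w with
    | nil => exact Cn_refl _ _
    | cons hadj _ ih =>
      rw [faceGraph, SimpleGraph.fromRel_adj] at hadj
      refine Cn.trans ?_ ih
      rcases hadj.2 with h1 | h1
      · exact step _ _ h1
      · exact (step _ _ h1).symm
  have h1 := main _ _ h
  have e1 : phi n M (i, j) = (i, j) := by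
    unfold phi
    rw [if_pos]
    simp only
    omega
  have e2 : phi n M (-1, -1) = (-1, -1) := by
    unfold phi
    rw [if_neg]
    simp only
    omega
  rwa [e1, e2] at h1

theorem FLn_eq (hq : 0 < q) (n M : ℕ) (δ : ℝ) (S : Set ℕ) :
    FLn q n M δ S = P q (EL n M) (BL n) (fun ω => ∃ x y : ℕ, (x : ℝ) ≤ δ * n ∧ y ∈ S ∧
      Cn ω ((x : ℤ), (y : ℤ)) (0, 0)) := by
  unfold FLn
  rw [fkProb_P hq]
  apply P_congr
  intro ζ _
  constructor
  · rintro ⟨x, y, hx, hy, h⟩
    have h' : Cn (ζ ∪ BL n) (0, 0) ((x : ℤ), (y : ℤ)) := h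
    exact ⟨x, y, hx, hy, h'.symm⟩
  · rintro ⟨x, y, hx, hy, h⟩
    have h' : Cn (ζ ∪ BL n) (0, 0) ((x : ℤ), (y : ℤ)) := h.symm
    exact ⟨x, y, hx, hy, h'⟩

theorem FL_le_FLn (hq : 0 < q) (n M : ℕ) (δ : ℝ) (S : Set ℕ) (hδ : 0 ≤ δ) :
    FL q n M S ≤ FLn q n M δ S := by
  rw [FL_eq hq, FLn_eq hq]
  apply P_mono hq
  rintro ζ _ ⟨y, hy, h⟩
  refine ⟨0, y, ?_, hy, ?_⟩
  · rw [Nat.cast_zero]
    exact mul_nonneg hδ (Nat.cast_nonneg n)
  · rw [Nat.cast_zero]
    exact h

theorem FBn_le (hq : 0 < q) {n M : ℕ} (hn : 1 ≤ n) (hM : 1 ≤ M) (δ : ℝ) (hδ : δ * n < M)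
    (S : Set ℕ) :
    FBn q n M δ S ≤ P q (ED n M) (ring 0 n 0 M) (fun κ => ∃ i j : ℕ, i ∈ S ∧ i < n ∧
      (j : ℝ) ≤ δ * n ∧ Cn κ ((i : ℤ), (j : ℤ)) (-1, -1)) := by
  unfold FBn
  rw [fkProb_P hq, ← cdual_dual hq hn hM]
  apply P_mono hq
  rintro ζ hζ ⟨i, j, hi, hin, hj, h⟩
  have hjM : (j : ℝ) < M := lt_of_le_of_lt hj hδ
  have hjM' : j < M := by exact_mod_cast hjM
  exact ⟨i, j, hi, hin, hj, Cn_of_face hn hM (by omega) (by omega) (by omega) (by omega) h⟩

theorem FB_le_FBn (hq : 0 < q) (n M : ℕ) (δ : ℝ) (S : Set ℕ) (hn : 1 ≤ n) (hM : 1 ≤ M)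
    (hδ : 0 ≤ δ) : FB q n M S ≤ FBn q n M δ S := by
  rw [FB_eq hq hn hM, ← cdual_dual hq hn hM]
  unfold FBn
  rw [fkProb_P hq]
  apply P_mono hq
  rintro ζ hζ ⟨i, hi, hin, h⟩
  have hsub : ζ ∪ BL n ⊆ edgesIn (rect 0 n 0 M) :=
    (union_subset_union_left hζ).trans (cfk_union_sub n M)
  refine ⟨i, 0, hi, hin, ?_, face_of_Cn hsub h⟩
  rw [Nat.cast_zero]
  exact mul_nonneg hδ (Nat.cast_nonneg n)

end Pool.Agent.IDK
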