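import Pool.Agent.IDK.EDefs

/-! # IDK/EStop (MP_b3e76a_pr, part E, helper98): the exploration is a stopping set -/

namespace Pool.Agent.IDK

open Finset
open Pool.Agent.FKR
open Pool.Agent.H95.Perc (Inc conn link rect hor ver eh ev sumE sepE Inci mem_rect)
open Pool.Agent.H95.SumRule (edgesIn Z2)

variable {n y0 y1 ℓ a b : ℤ} {E F ω ω' : Finset (Sym2 (ℤ × ℤ))}

theorem mem_kE {e : Sym2 (ℤ × ℤ)} : e ∈ kE n ℓ a b E F ω ↔
    (e ∈ ω ∧ e ∈ E) ∨ e ∈ F ∨ e ∈ OS ℓ a b ∨ e ∈ OR n F := by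
  unfold kE
  rw [mem_union, mem_union, mem_union, mem_inter, or_assoc, or_assoc]

theorem mem_OR {e : Sym2 (ℤ × ℤ)} : e ∈ OR n F ↔ ∃ y, (n, y) ∈ vts F ∧ e = eh n y := by
  classical
  unfold OR
  simp only [mem_image, mem_filter]
  constructor
  · rintro ⟨⟨x, y⟩, ⟨h1, h2⟩, rfl⟩
    simp only at h2
    subst h2
    exact ⟨y, h1, rfl⟩
  · rintro ⟨y, h1, rfl⟩
    exact ⟨(n, y), ⟨h1, rfl⟩, rfl⟩

theorem kE_sub (St : Strip n y0 y1 E F) (hℓ : ℓ ≤ n + 1) (ha : y0 ≤ a) (hb : b ≤ y1) :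
    kE n ℓ a b E F ω ⊆ edgesIn (rect (-1) (n + 1) y0 y1) := by
  have hn := St.hn
  have hD : edgesIn (rect 0 n y0 y1) ⊆ edgesIn (rect (-1) (n + 1) y0 y1) := by
    apply Pool.Agent.H95.Perc.edgesIn_mono
    intro v hv
    rw [mem_rect] at hv ⊢
    omega
  intro e he
  rw [mem_kE] at he
  rcases he with h1 | h1 | h1 | h1
  · exact hD (St.hE h1.2)
  · exact hD (St.hF h1)
  · refine Pool.Agent.H95.Perc.edgesIn_mono ?_ h1
    intro v hv
    rw [mem_rect] at hv ⊢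
    omega
  · rw [mem_OR] at h1
    obtain ⟨y, hy, rfl⟩ := h1
    have h2 := vts_edgesIn _ (vts_mono St.hF hy)
    rw [mem_rect] at h2
    simp only at h2
    rw [eh_mem_edgesIn_rect]
    omega

theorem PhE_eq : rect (-1) (n + 1 - 1) (y0 - 1) y1 = PhE n y0 y1 := by
  unfold PhE; congr 1; ring

/-- the crossing exists iff the top row is not connected to the bottom row in the face graph -/
theorem BE_iff (St : Strip n y0 y1 E F) (hℓ : ℓ ≤ n + 1) (ha : y0 ≤ a) (hb : b ≤ y1) :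
    BE n y0 y1 ℓ a b E F ω ↔ ∀ f ∈ PhE n y0 y1, f.2 = y0 - 1 →
      f ∉ Ucl (PhE n y0 y1) (kE n ℓ a b E F ω) (fun f => f.2 = y1) := by
  have hn := St.hn
  unfold BE
  rw [hor_iff (by omega) St.hy.le, PhE_eq, inter_eq_left.2 (kE_sub St hℓ ha hb)]
  constructor
  · intro h f hf hf2 hU
    obtain ⟨h1, g, hg, hg2, hr⟩ := mem_Ucl.1 hU
    exact h f hf g hg hf2 hg2 hr.symm
  · intro h f hf g hg hf2 hg2 hr
    exact h f hf hf2 (mem_Ucl.2 ⟨hf, g, hg, hg2, hr.symm⟩)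

theorem mem_XE {e : Sym2 (ℤ × ℤ)} : e ∈ XE n y0 y1 ℓ a b E F ω ↔
    e ∈ E ∧ e ∉ OS ℓ a b ∧ touch (NE n y0 y1 ℓ a b E F ω) e := by
  classical
  unfold XE
  rw [mem_filter, mem_sdiff, and_assoc]

theorem strip_stop (St : Strip n y0 y1 E F) (hℓ : ℓ ≤ n + 1) (ha : y0 ≤ a) (hb : b ≤ y1)
    (hB : BE n y0 y1 ℓ a b E F ω)
    (h' : ω' ∩ XE n y0 y1 ℓ a b E F ω = ω ∩ XE n y0 y1 ℓ a b E F ω) :
    BE n y0 y1 ℓ a b E F ω' ∧ XE n y0 y1 ℓ a b E F ω' = XE n y0 y1 ℓ a b E F ω := by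
  have hst := Nx_stop (Φ := PhE n y0 y1) (κ := kE n ℓ a b E F ω) (κ' := kE n ℓ a b E F ω')
    (S := fun f => f.2 = y1) (S' := fun f => f.2 = y0 - 1) ?_
  · obtain ⟨h1, h2⟩ := hst
    refine ⟨?_, ?_⟩
    · rw [BE_iff St hℓ ha hb] at hB ⊢
      rw [h1]
      exact hB
    · ext e
      rw [mem_XE, mem_XE]
      unfold NE
      rw [h2]
  · intro f hf g hg hfg
    have hside : f ∈ star (sepE f g) := by rw [star_sepE hfg]; simp
    have key : sepE f g ∈ E → sepE f g ∉ OS ℓ a b → (sepE f g ∈ ω ↔ sepE f g ∈ ω') := by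
      intro h1 h2
      have h3 : sepE f g ∈ XE n y0 y1 ℓ a b E F ω := mem_XE.2 ⟨h1, h2, f, hf, hside⟩
      constructor
      · intro h4
        have h5 : sepE f g ∈ ω ∩ XE n y0 y1 ℓ a b E F ω := mem_inter.2 ⟨h4, h3⟩
        rw [← h'] at h5
        exact (mem_inter.1 h5).1
      · intro h4
        have h5 : sepE f g ∈ ω' ∩ XE n y0 y1 ℓ a b E F ω := mem_inter.2 ⟨h4, h3⟩
        rw [h'] at h5
        exact (mem_inter.1 h5).1
    rw [mem_kE, mem_kE]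
    by_cases h1 : sepE f g ∈ E
    · by_cases h2 : sepE f g ∈ OS ℓ a b
      · exact ⟨fun _ => Or.inr (Or.inr (Or.inl h2)), fun _ => Or.inr (Or.inr (Or.inl h2))⟩
      · rw [key h1 h2]
    · simp only [h1, and_false, false_or]

end Pool.Agent.IDK
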