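import Pool.Agent.IDK.CutConn
import Pool.Agent.FKR.Explore

/-! # IDK/EnvSum (MP_b3e76a_pr): conditioning on the configuration outside of a half box

`env_sum`: `s = (E \\ HE ρ).powerset.filter (fun η => C (η ∪ F))`, `w η = P q E F (ω ∩ (E \\ HE ρ) = η)`. `P q E F (HitA A t ∧ C) = ∑_{η ⊆ E \\ HE ρ} P q E F ((HitA A t ∧ C) ∧ ω ∩ (E \\ HE ρ) = η)` (finite additivity), `C ω ↔ C (η ∪ F)` on this event (`ω \\ HE ρ = (η ∪ F) \\ HE ρ`, `ω = ζ ∪ F`), and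
`P_cond` with the set `E \\ HE ρ` (`E \\ (E \\ HE ρ) = HE ρ`): `P q (HE ρ) (F ∪ η) (HitA A t) * w η`. `Env ρ (F ∪ η) t` from `h2`, `h3`, `ht`. The probability of `A ∧ (ω ∩ X = η)` is zero or the term drops for `η` with `¬ C (η ∪ F)`.
`ratio_cond`: apply `env_sum` and `RB` with `R = ρ` termwise.
`RB_of`: from radius exactly `ρ` to all radii: `ratio_cond`-like with `E = HE R`, `C = True` (`HE R \\ HE ρ` does not touch `HB (ρ - 1)`).
`gam_ratio`: `v0 ∈ vts (cN l N)` (`cN_ne`), `v0 ∉ HB (l-1)` (`cN_vts`). Under the law `P q (XN \\ cN) (cN)` all `ω` satisfy `cN ⊆ ω ⊆ XN`, so `InN l N A ω ↔ HitA A v0 ω` (`cN_conn`), and `NN l ω = N` only depends on `ω \\ HE (l-1)` (`NN_inner`). `env_sum` with `ρ = l - 1`, `E = XN \\ cN`, `F = cN`, `t = v0`: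
`HE (l-1) ⊆ XN \\ cN` (`HE_XN`, `HE_mono`, `cN_vts`), an edge of `XN ⊆ HE (2l)` touching `HB (l-2)` is in `HE (l-1)`. -/

namespace Pool.Agent.IDK

open Finset
open Pool.Agent.FKR
open Pool.Agent.H95.Perc (Inc conn link rect hor ver eh ev sumE sepE Inci mem_rect)
open Pool.Agent.H95.SumRule (edgesIn Z2)

variable {q : ℝ}

/-- finite additivity over the values of `ω ∩ X` -/
private theorem P_part (E F X : Finset (Sym2 (ℤ × ℤ))) (A : Finset (Sym2 (ℤ × ℤ)) → Prop) :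
    P q E F A = ∑ η ∈ X.powerset, P q E F (fun ω => A ω ∧ ω ∩ X = η) := by
  classical
  unfold P
  rw [← Finset.sum_div]
  congr 1
  unfold Pool.Agent.H95.Susc.ws
  rw [← Finset.sum_fiberwise_of_maps_to (t := X.powerset) (g := fun ζ => (ζ ∪ F) ∩ X)
    (fun ζ _ => Finset.mem_powerset.2 Finset.inter_subset_right)]
  apply Finset.sum_congr rfl
  intro η _
  apply Finset.sum_congr
  · ext ζ
    rw [Finset.mem_filter, Pool.Agent.H95.Susc.mem_fil, Pool.Agent.H95.Susc.mem_fil]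
    exact ⟨fun h => ⟨h.1.1, h.1.2, h.2⟩, fun h => ⟨⟨h.1, h.2.1⟩, h.2.2⟩⟩
  · intro _ _
    rfl

theorem env_sum (hq : 0 < q) {ρ : ℤ} {E F : Finset (Sym2 (ℤ × ℤ))} {t : ℤ × ℤ} (hE : NL E) (hF : NL F)
    (h1 : HE ρ ⊆ E) (h2 : ∀ e ∈ E, e ∉ HE ρ → ∀ v ∈ e, v ∉ HB (ρ - 1))
    (h3 : ∀ e ∈ F, ∀ v ∈ e, v ∉ HB (ρ - 1)) (ht : t ∉ HB (ρ - 1)) {C : Finset (Sym2 (ℤ × ℤ)) → Prop}
    (hC : ∀ ω ω', ω \ HE ρ = ω' \ HE ρ → C ω → C ω') :
    ∃ (s : Finset (Finset (Sym2 (ℤ × ℤ)))) (w : Finset (Sym2 (ℤ × ℤ)) → ℝ),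
      (∀ η ∈ s, 0 ≤ w η ∧ Env ρ (F ∪ η) t) ∧
      ∀ A, P q E F (fun ω => HitA A t ω ∧ C ω) = ∑ η ∈ s, w η * hit q ρ (F ∪ η) A t := by
  classical
  refine ⟨(E \ HE ρ).powerset.filter (fun η => C (η ∪ F)), fun η => P q E F (fun ω => ω ∩ (E \ HE ρ) = η),
    ?_, ?_⟩
  · intro η hη
    have hη1 := Finset.mem_powerset.1 (Finset.mem_filter.1 hη).1
    refine ⟨P_nonneg hq _ _ _, ⟨?_, ?_, ht⟩⟩
    · exact hF.union (hE.mono (hη1.trans sdiff_subset))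
    · intro e he v hv
      rcases Finset.mem_union.1 he with h | h
      · exact h3 e h v hv
      · have := Finset.mem_sdiff.1 (hη1 h)
        exact h2 e this.1 this.2 v hv
  · intro A
    rw [P_part E F (E \ HE ρ), Finset.sum_filter]
    apply Finset.sum_congr rfl
    intro η hη
    have hη1 := Finset.mem_powerset.1 hη
    have key : ∀ ζ ⊆ E, (ζ ∪ F) ∩ (E \ HE ρ) = η → (ζ ∪ F) \ HE ρ = (η ∪ F) \ HE ρ := by
      intro ζ hζ h
      ext x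
      have hx := Finset.ext_iff.1 h x
      rw [Finset.mem_inter, Finset.mem_union, Finset.mem_sdiff] at hx
      rw [Finset.mem_sdiff, Finset.mem_sdiff, Finset.mem_union, Finset.mem_union]
      constructor
      · rintro ⟨h4 | h4, h5⟩
        · exact ⟨Or.inl (hx.1 ⟨Or.inl h4, hζ h4, h5⟩), h5⟩
        · exact ⟨Or.inr h4, h5⟩
      · rintro ⟨h4 | h4, h5⟩
        · exact ⟨(hx.2 h4).1, h5⟩
        · exact ⟨Or.inr h4, h5⟩
    have hEX : E \ (E \ HE ρ) = HE ρ := by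
      rw [Finset.sdiff_sdiff_eq_self h1]
    split_ifs with hCη
    · have e1 : P q E F (fun ω => (HitA A t ω ∧ C ω) ∧ ω ∩ (E \ HE ρ) = η) =
          P q E F (fun ω => HitA A t ω ∧ ω ∩ (E \ HE ρ) = η) := by
        apply P_congr
        intro ζ hζ
        constructor
        · rintro ⟨⟨h, _⟩, h'⟩
          exact ⟨h, h'⟩
        · rintro ⟨h, h'⟩
          exact ⟨⟨h, hC _ _ (key ζ hζ h').symm hCη⟩, h'⟩
      rw [e1, P_cond hq hE hF sdiff_subset hη1, hEX, mul_comm]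
      rfl
    · have e1 : P q E F (fun ω => (HitA A t ω ∧ C ω) ∧ ω ∩ (E \ HE ρ) = η) =
          P q E F (fun _ => False) := by
        apply P_congr
        intro ζ hζ
        constructor
        · rintro ⟨⟨_, h⟩, h'⟩
          exact hCη (hC _ _ (key ζ hζ h') h)
        · exact False.elim
      rw [e1, P_false]

theorem ratio_cond (hq : 0 < q) {ρ : ℤ} {m M : ℝ} {A B : Finset (ℤ × ℤ)} (hr : RB q ρ m M A B)
    {E F : Finset (Sym2 (ℤ × ℤ))} {t : ℤ × ℤ} (hE : NL E) (hF : NL F)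
    (h1 : HE ρ ⊆ E) (h2 : ∀ e ∈ E, e ∉ HE ρ → ∀ v ∈ e, v ∉ HB (ρ - 1))
    (h3 : ∀ e ∈ F, ∀ v ∈ e, v ∉ HB (ρ - 1)) (ht : t ∉ HB (ρ - 1)) {C : Finset (Sym2 (ℤ × ℤ)) → Prop}
    (hC : ∀ ω ω', ω \ HE ρ = ω' \ HE ρ → C ω → C ω') :
    m * P q E F (fun ω => HitA B t ω ∧ C ω) ≤ P q E F (fun ω => HitA A t ω ∧ C ω) ∧
      P q E F (fun ω => HitA A t ω ∧ C ω) ≤ M * P q E F (fun ω => HitA B t ω ∧ C ω) := by
  obtain ⟨s, w, hs, hw⟩ := env_sum hq hE hF h1 h2 h3 ht hC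
  rw [hw A, hw B, Finset.mul_sum, Finset.mul_sum]
  constructor
  · apply Finset.sum_le_sum
    intro η hη
    have h := (hr ρ (F ∪ η) t le_rfl (hs η hη).2).1
    have := mul_le_mul_of_nonneg_left h (hs η hη).1
    linarith
  · apply Finset.sum_le_sum
    intro η hη
    have h := (hr ρ (F ∪ η) t le_rfl (hs η hη).2).2
    have := mul_le_mul_of_nonneg_left h (hs η hη).1
    linarith

private theorem HE_near {ρ R : ℤ} (hρ : ρ ≤ R) {e : Sym2 (ℤ × ℤ)} (he : e ∈ HE R) (hn : e ∉ HE ρ) :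
    ∀ v ∈ e, v ∉ HB (ρ - 1) := by
  intro v hv hvB
  obtain ⟨w, rfl⟩ := Sym2.mem_iff_exists.1 hv
  apply hn
  rw [mem_HE] at he ⊢
  obtain ⟨ha, hb, hadj⟩ := he
  obtain ⟨a1, a2⟩ := v
  obtain ⟨b1, b2⟩ := w
  rw [mem_HB] at ha hb hvB ⊢
  rw [mem_HB]
  refine ⟨?_, ?_, hadj⟩
  · simp only at *; omega
  · rw [Z2_adj_iff] at hadj
    simp only at *; omega

theorem gam_ratio (hq : 0 < q) {l : ℤ} (hl : 2 ≤ l) {m M : ℝ} {A B : Finset (ℤ × ℤ)}
    (hr : RB q (l - 1) m M A B) {N : Finset (ℤ × ℤ)} (h : Val l N) :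
    m * gam q l N B ≤ gam q l N A ∧ gam q l N A ≤ M * gam q l N B := by
  classical
  have hl1 : 1 ≤ l := by omega
  obtain ⟨v0, hv0⟩ := cN_ne hl1 h
  have hcX := cN_XN h
  have hXH : XN l N ⊆ HE (2 * l) := XN_HE
  have hnX : NL (XN l N) := (HE_NL _).mono hXH
  have key : ∀ A : Finset (ℤ × ℤ), gam q l N A =
      P q (XN l N \ cN l N) (cN l N) (fun ω => HitA A v0 ω ∧ NN l ω = N) := by
    intro A
    unfold gam
    apply P_congr
    intro ζ hζ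
    have hs : (ζ ∪ cN l N) ∩ XN l N = ζ ∪ cN l N := by
      apply Finset.inter_eq_left.2
      exact Finset.union_subset (hζ.trans sdiff_subset) hcX
    constructor
    · rintro ⟨h1, a, ha, v, hv, hav⟩
      rw [hs] at hav
      exact ⟨⟨a, ha, hav.trans ((cN_conn hl1 h v hv v0 hv0).mono subset_union_right)⟩, h1⟩
    · rintro ⟨⟨a, ha, hav⟩, h1⟩
      refine ⟨h1, a, ha, v0, hv0, ?_⟩
      rw [hs]
      exact hav
  rw [key A, key B]
  have hmon : ∀ v : ℤ × ℤ, v ∉ HB (l - 1) → v ∉ HB (l - 1 - 1) := by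
    intro v hv hv'
    apply hv
    rw [mem_HB] at hv' ⊢
    omega
  apply ratio_cond hq hr (hnX.mono sdiff_subset) (hnX.mono hcX)
  · intro e he
    rw [Finset.mem_sdiff]
    refine ⟨HE_XN hl1 h (HE_mono (by omega) he), ?_⟩
    intro hc
    induction e using Sym2.ind with
    | _ a b =>
      have h1 := (mem_HE.1 he).1
      exact (cN_vts hl1 h (mem_vts.2 ⟨_, hc, Sym2.mem_mk_left a b⟩)).2 h1
  · intro e he hn
    exact HE_near (R := 2 * l) (by omega) (hXH (Finset.mem_sdiff.1 he).1) hn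
  · intro e he v hv
    exact hmon v (cN_vts hl1 h (mem_vts.2 ⟨e, he, hv⟩)).2
  · exact hmon v0 (cN_vts hl1 h hv0).2
  · intro ω ω' hω hN
    rw [← (NN_inner hω).1]
    exact hN

theorem rest_ratio (hq : 0 < q) {l R : ℤ} (hl : 2 ≤ l) (hR : l ≤ R) {m M : ℝ} {A B : Finset (ℤ × ℤ)}
    (hr : RB q (l - 1) m M A B) {F : Finset (Sym2 (ℤ × ℤ))} {t : ℤ × ℤ} (he : Env R F t) :
    m * P q (HE R) F (fun ω => HitA B t ω ∧ ¬ Circ l ω) ≤ P q (HE R) F (fun ω => HitA A t ω ∧ ¬ Circ l ω) ∧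
      P q (HE R) F (fun ω => HitA A t ω ∧ ¬ Circ l ω) ≤
        M * P q (HE R) F (fun ω => HitA B t ω ∧ ¬ Circ l ω) := by
  have hmon : ∀ v : ℤ × ℤ, v ∉ HB (R - 1) → v ∉ HB (l - 1 - 1) := by
    intro v hv hv'
    apply hv
    rw [mem_HB] at hv' ⊢
    omega
  apply ratio_cond hq hr (HE_NL R) he.nl (HE_mono (by omega))
  · intro e h hn
    exact HE_near (R := R) (by omega) h hn
  · intro e h v hv
    exact hmon v (he.fr e h v hv)
  · exact hmon t he.tout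
  · intro ω ω' hω hN hc
    exact hN ((NN_inner hω).2.2 hc)

end Pool.Agent.IDK
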