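import Pool.Agent.IDK.Half
import Pool.Agent.FKR.Esc

/-! # IDK/EscU (MP_b3e76a_pr): a path from norm `≤ n` to norm `≥ 2 n` crosses a thin strip or visits the bulk (deterministic)

Copy of `esc` (FKR/Esc) with the tip replaced by `u`. `ω1 = ins (nm ≤ 2n) ω`: by `Cn.exit` with `S z = (nm z < 2n)` (if `nm u < 2n`) there is a vertex
`v1` with `nm v1 = 2n` and `Cn ω1 u v1` (the last edge has an end of norm `< 2n`, the other of norm `≥ 2n`, hence `= 2n` by `WE_nm`).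
Then `Cn.middle` in `ω1` with `f = nm`, `a = n`, `b = 2n`, as in `esc`; all connections used are in `ω1 ⊆ ω`. The private lemmas `esc_pull`, `esc_sep` of FKR/Esc have
to be copied (other names). -/

namespace Pool.Agent.IDK

open Finset
open Pool.Agent.FKR
open Pool.Agent.H95.Perc (Inc conn link rect hor ver eh ev mem_rect)
open Pool.Agent.H95.SumRule (edgesIn Z2)
open Pool.Agent.H95.Wedge (Vtx pt)

variable {q : ℝ}

/-- a connection all of whose vertices are in a strip pulls back to the strip -/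
private theorem escU_pull {m N : ℕ} {j : ℤ} {V : Finset (ℤ × ℤ)} (hV : ∀ p ∈ V, 1 ≤ p.1)
    {ω ω' : Finset (Sym2 Vtx)} (hω : ω ⊆ WE m N) (hs : ω' ⊆ ω) {a : ℤ × ℤ} (ha : a ∈ V) {v : Vtx}
    (h : Cn ω' (ch j a) v) (hall : ∀ z, Cn ω' (ch j a) z → ∃ p ∈ V, z = ch j p) :
    ∃ b ∈ V, v = ch j b ∧ conn V (pull (ch j) V ω) a b := by
  have key := h.closed (S := fun z => Cn ω' (ch j a) z ∧
    ∃ b ∈ V, z = ch j b ∧ conn V (pull (ch j) V ω) a b)
    ⟨Cn_refl _ _, a, ha, rfl, Pool.Agent.H95.Perc.conn_refl _ _ _⟩ ?_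
  · exact key.2
  rintro x y ⟨hcx, b, hb, rfl, hconn⟩ hxy
  have hcy : Cn ω' (ch j a) y := hcx.trans (Cn_edge hxy)
  refine ⟨hcy, ?_⟩
  obtain ⟨b', hb', rfl⟩ := hall y hcy
  obtain ⟨p', hadj, hp', he, -, -, -, -⟩ := WE_elim (hω (hs hxy)) (hV b hb) (Sym2.mem_mk_left _ _)
  have h1 : ch j b' = ch j p' := Sym2.congr_right.1 he
  have h2 : b' = p' := ch_inj j (by have := hV b' hb'; show 0 ≤ b'.1; omega) hp' h1
  subst h2
  refine ⟨b', hb', rfl, hconn.trans (Pool.Agent.H95.Perc.conn_step hb hb' hadj ?_)⟩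
  classical
  unfold pull
  rw [mem_filter]
  exact ⟨Pool.Agent.H95.Perc.mem_edgesIn'.mpr ⟨hb, hb', hadj⟩, by simpa using hs hxy⟩

/-- there is no edge between the two strips -/
private theorem escU_sep {m n N : ℕ} (hm : 1 ≤ m) (hn : 1 ≤ n) {r : ℤ} (hr : 0 ≤ r)
    (hr' : 2 * r + 2 ≤ n) {p p' : ℤ × ℤ} (hp : p ∈ rect n (2 * n) 0 r)
    (hp' : p' ∈ rect n (2 * n) (-r) 0) (h : s(ch 0 p, ch m p') ∈ WE m N) : False := by
  rw [mem_rect] at hp hp'
  obtain ⟨t, hadj, ht, he, -, -, h0, -⟩ := WE_elim h (p := p) (j := 0) (by omega)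
    (Sym2.mem_mk_left _ _)
  have h1 : ch m p' = ch 0 t := Sym2.congr_right.1 he
  obtain ⟨-, ht2⟩ := h0 rfl
  obtain ⟨a, b⟩ := p
  obtain ⟨c, d⟩ := p'
  obtain ⟨x, y⟩ := t
  rw [Z2_adj_iff] at hadj
  dsimp only at hp hp' ht ht2 hadj
  unfold ch pt at h1
  dsimp only at h1
  rw [if_pos ht2, if_neg (by omega : ¬ x.toNat = 0)] at h1
  split_ifs at h1 <;> simp only [Prod.mk.injEq] at h1 <;> omega

theorem escU {m n N : ℕ} (hm : 1 ≤ m) (hn : 1 ≤ n) {r : ℤ} (hr : 0 ≤ r) (hr' : 2 * r + 2 ≤ n)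
    {ω : Finset (Sym2 Vtx)} (hω : ω ⊆ WE m N) {u v : Vtx} (hu : nm u ≤ n) (hv : 2 * n ≤ nm v)
    (h : Cn ω u v) : Th m n r ω ∨ ∃ j x y : ℤ, 0 ≤ j ∧ j ≤ m ∧ n ≤ x ∧ x ≤ 2 * n ∧ |y| ≤ x ∧
      (j = 0 → r < y) ∧ (j = m → y < -r) ∧ Cn (ins (fun z => nm z ≤ 2 * n) ω) u (ch j (x, y)) := by
  by_cases hB : ∃ j x y : ℤ, 0 ≤ j ∧ j ≤ m ∧ n ≤ x ∧ x ≤ 2 * n ∧ |y| ≤ x ∧
      (j = 0 → r < y) ∧ (j = m → y < -r) ∧ Cn (ins (fun z => nm z ≤ 2 * n) ω) u (ch j (x, y))
  · exact Or.inr hB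
  left
  have hstep : ∀ x y, s(x, y) ∈ ω → (nm y : ℤ) ≤ nm x + 1 := by
    intro x y hxy
    have := (WE_nm (hω hxy)).1
    exact_mod_cast this
  set ω1 := ins (fun z => nm z ≤ 2 * n) ω with hω1
  have hs1 : ω1 ⊆ ω := ins_subset _ _
  have h1 : ∃ v1, nm v1 = 2 * n ∧ Cn ω1 u v1 := by
    obtain ⟨x, y, hx, hy, hxy, hc⟩ := h.exit (S := fun z => nm z < 2 * n)
      (by show nm u < 2 * n; omega) (by show ¬ nm v < 2 * n; omega)
    have h2 := hstep x y hxy
    refine ⟨y, by omega, (hc.mono ?_).trans (Cn_edge ?_)⟩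
    · intro e he
      rw [mem_ins'] at he
      rw [hω1, mem_ins']
      exact ⟨he.1, fun z hz => (he.2 z hz).le⟩
    · rw [hω1, mem_ins']
      refine ⟨hxy, fun z hz => ?_⟩
      rw [Sym2.mem_iff] at hz
      rcases hz with rfl | rfl
      · exact hx.le
      · omega
  obtain ⟨v0, hv0, hc0⟩ := h1
  obtain ⟨u1, v1, hu1, hv1, hcu, huv⟩ := hc0.middle (f := fun z => (nm z : ℤ))
    (fun x y hxy => hstep x y (hs1 hxy)) (a := n) (b := 2 * n) (by omega)
    (by exact_mod_cast hu) (by exact_mod_cast hv0.ge)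
  set ω' := ins (fun z => (n : ℤ) ≤ (nm z : ℤ) ∧ (nm z : ℤ) ≤ 2 * n) ω1 with hω'
  have hs0 : ω' ⊆ ω1 := ins_subset _ _
  have hs : ω' ⊆ ω := hs0.trans hs1
  have hne : u1 ≠ v1 := by
    rintro rfl
    omega
  have hnt : ∀ z : Vtx, (n : ℤ) ≤ nm z → z ≠ tip := by
    rintro z hz rfl
    rw [nm_tip] at hz
    omega
  -- every vertex is in one of the strips
  have hcl : ∀ z, Cn ω' u1 z → (n : ℤ) ≤ nm z ∧ (nm z : ℤ) ≤ 2 * n := by
    intro z hz
    refine hz.closed (S := fun z => (n : ℤ) ≤ nm z ∧ (nm z : ℤ) ≤ 2 * n) (by omega) ?_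
    intro x y _ hxy
    rw [hω', mem_ins'] at hxy
    exact hxy.2 y (Sym2.mem_mk_right _ _)
  have hst : ∀ z, Cn ω' u1 z → (∃ p ∈ rect n (2 * n) 0 r, z = ch 0 p) ∨
      (∃ p ∈ rect n (2 * n) (-r) 0, z = ch m p) := by
    intro z hz
    obtain ⟨h1, h2⟩ := hcl z hz
    have hzv : z ∈ vts (WE m N) := by
      by_cases hzu : u1 = z
      · subst hzu
        exact vts_mono (hs.trans hω) (huv.mem_vts hne).1
      · exact vts_mono (hs.trans hω) (hz.mem_vts hzu).2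
    obtain ⟨j, hj0, hjm, y, hy, hzj, hy0, hym⟩ := WE_chart hzv (hnt z h1)
    by_contra hcon
    push Not at hcon
    refine hB ⟨j, nm z, y, hj0, hjm, h1, h2, hy, ?_, ?_, ?_⟩
    · intro hj
      by_contra hyr
      subst hj
      have := hy0 rfl
      exact hcon.1 ((nm z : ℤ), y) (by rw [mem_rect]; dsimp only; omega) hzj
    · intro hj
      by_contra hyr
      subst hj
      have := hym rfl
      exact hcon.2 ((nm z : ℤ), y) (by rw [mem_rect]; dsimp only; omega) hzj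
    · rw [← hzj]
      exact hcu.trans (hz.mono hs0)
  rcases hst u1 (Cn_refl _ _) with ⟨a, ha, hua⟩ | ⟨a, ha, hua⟩
  · left
    subst hua
    have hall : ∀ z, Cn ω' (ch 0 a) z → ∃ p ∈ rect n (2 * n) 0 r, z = ch 0 p := by
      intro z hz
      have := hz.closed (S := fun z => Cn ω' (ch 0 a) z ∧ ∃ p ∈ rect n (2 * n) 0 r, z = ch 0 p)
        ⟨Cn_refl _ _, a, ha, rfl⟩ ?_
      · exact this.2
      rintro x y ⟨hcx, p, hp, rfl⟩ hxy
      have hcy : Cn ω' (ch 0 a) y := hcx.trans (Cn_edge hxy)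
      refine ⟨hcy, ?_⟩
      rcases hst y hcy with h1 | ⟨p', hp', rfl⟩
      · exact h1
      · exact (escU_sep hm hn hr hr' hp hp' (hω (hs hxy))).elim
    obtain ⟨b, hb, hvb, hconn⟩ := escU_pull (V := rect n (2 * n) 0 r)
      (fun p hp => by rw [mem_rect] at hp; omega) hω hs ha huv hall
    refine ⟨a, b, ha, hb, ?_, ?_, hconn⟩
    · rw [mem_rect] at ha
      have h1 := nm_ch 0 (p := a) (by omega)
      rw [hu1, abs_of_nonneg (by omega), max_eq_left (by omega)] at h1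
      exact h1.symm
    · rw [mem_rect] at hb
      have h1 := nm_ch 0 (p := b) (by omega)
      rw [← hvb, hv1, abs_of_nonneg (by omega), max_eq_left (by omega)] at h1
      exact h1.symm
  · right
    subst hua
    have hall : ∀ z, Cn ω' (ch m a) z → ∃ p ∈ rect n (2 * n) (-r) 0, z = ch m p := by
      intro z hz
      have := hz.closed (S := fun z => Cn ω' (ch m a) z ∧ ∃ p ∈ rect n (2 * n) (-r) 0, z = ch m p)
        ⟨Cn_refl _ _, a, ha, rfl⟩ ?_
      · exact this.2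
      rintro x y ⟨hcx, p, hp, rfl⟩ hxy
      have hcy : Cn ω' (ch m a) y := hcx.trans (Cn_edge hxy)
      refine ⟨hcy, ?_⟩
      rcases hst y hcy with ⟨p', hp', rfl⟩ | h1
      · have h2 := hω (hs hxy)
        rw [Sym2.eq_swap] at h2
        exact (escU_sep hm hn hr hr' hp' hp h2).elim
      · exact h1
    obtain ⟨b, hb, hvb, hconn⟩ := escU_pull (V := rect n (2 * n) (-r) 0)
      (fun p hp => by rw [mem_rect] at hp; omega) hω hs ha huv hall
    refine ⟨a, b, ha, hb, ?_, ?_, hconn⟩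
    · rw [mem_rect] at ha
      have h1 := nm_ch m (p := a) (by omega)
      rw [hu1, abs_of_nonpos (by omega), max_eq_left (by omega)] at h1
      exact h1.symm
    · rw [mem_rect] at hb
      have h1 := nm_ch m (p := b) (by omega)
      rw [← hvb, hv1, abs_of_nonpos (by omega), max_eq_left (by omega)] at h1
      exact h1.symm

end Pool.Agent.IDK
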