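import Pool.Agent.IDK.FlatSeg
import Pool.Agent.IDK.EscU
import Pool.Agent.IDK.ThinU

/-! # IDK/FlatEsc (MP_b3e76a_pr): a boundary segment is connected to a vertex in the bulk (steps (1) and (2) of FlatBulk) -/

namespace Pool.Agent.IDK

open Finset
open Pool.Agent.FKR
open Pool.Agent.H95.Perc (Inc conn link rect hor ver eh ev mem_rect)
open Pool.Agent.H95.SumRule (edgesIn Z2)
open Pool.Agent.H95.Wedge (Vtx pt)

variable {q : ℝ}

private theorem esc_part {n : ℕ} (hn : 1 ≤ n) {r : ℤ} (hr : 0 ≤ r) (hr' : 2 * r + 2 ≤ n)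
    {ω : Finset (Sym2 (ℤ × ℤ))} (hω : ω ⊆ HE ((512 * n : ℕ) : ℤ)) {y : ℤ} (hy : |y| ≤ n)
    {v : ℤ × ℤ} (hv : v ∉ HB (8 * n - 1)) (h : Cn ω (0, y) v) :
    Th 2 n r (img hc ω) ∨ ∃ p : ℤ × ℤ, r < p.1 ∧ p.1 ≤ 2 * n ∧ |p.2| ≤ 2 * n ∧
      Cn (ω ∩ HE (2 * n)) (0, y) p := by
  have hn' : (1 : ℤ) ≤ n := by exact_mod_cast hn
  have hy1 := (abs_le.1 hy).1
  have hy2 := (abs_le.1 hy).2
  have hne : ((0 : ℤ), y) ≠ v := by
    rintro rfl
    apply hv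
    rw [mem_HB]
    simp only
    omega
  have hvm : v ∈ HB ((512 * n : ℕ) : ℤ) := vts_edgesIn _ (vts_mono hω (h.mem_vts hne).2)
  have hv0 : 0 ≤ v.1 := (mem_HB.1 hvm).1
  have hW : img hc ω ⊆ WE 2 (512 * n) := by
    rw [← img_hc]
    exact image_subset_image hω
  have n1 : nm (hc (0, y)) ≤ n := by
    have := nm_hc (p := ((0 : ℤ), y)) le_rfl
    have h2 : max (0 : ℤ) |y| ≤ n := max_le (by omega) hy
    simp only at this
    omega
  have n2 : 2 * n ≤ nm (hc v) := by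
    have := nm_hc hv0
    have h2 : 2 * (n : ℤ) ≤ max v.1 |v.2| := by
      by_contra hcon
      push Not at hcon
      obtain ⟨h3, h4⟩ := max_lt_iff.1 hcon
      obtain ⟨h5, h6⟩ := abs_lt.1 h4
      apply hv
      rw [mem_HB]
      omega
    omega
  have hcn : Cn (img hc ω) (hc (0, y)) (hc v) := Cn_img h
  rcases escU (m := 2) (n := n) (N := 512 * n) (by norm_num) hn hr hr' hW n1 n2 hcn with h1 | h1
  · exact Or.inl h1
  right
  obtain ⟨j, x, y', hj0, hj2, hx1, hx2, hyx, h0, hm, hc'⟩ := h1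
  obtain ⟨hyx1, hyx2⟩ := abs_le.1 hyx
  -- the point of the half plane
  obtain ⟨p, hp, hp1, hp2, hp3⟩ : ∃ p : ℤ × ℤ, hc p = ch j (x, y') ∧ r < p.1 ∧ p.1 ≤ 2 * n ∧
      |p.2| ≤ 2 * n := by
    rcases (show j = 0 ∨ j = 1 ∨ j = 2 by omega) with rfl | rfl | rfl
    · have h2 := h0 rfl
      refine ⟨(y', x), hc_swap (by omega) (by omega), h2, by simp only; omega, ?_⟩
      simp only
      rw [abs_of_nonneg (by omega)]
      omega
    · refine ⟨(x, -y'), ?_, by simp only; omega, by simp only; omega, ?_⟩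
      · show ch 1 (x, - -y') = ch 1 (x, y')
        rw [neg_neg]
      · simp only
        rw [abs_neg]
        omega
    · have h2 := hm rfl
      refine ⟨(-y', -x), ?_, by simp only; omega, by simp only; omega, ?_⟩
      · show ch 1 (-y', - -x) = ch 2 (x, y')
        rw [neg_neg, ch_succ 1 (by omega) (by omega), neg_neg]
        rfl
      · simp only
        rw [abs_neg, abs_of_nonneg (by omega)]
        omega
  refine ⟨p, hp1, hp2, hp3, ?_⟩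
  rw [← hp] at hc'
  have hs : ω ∩ HE (2 * n) ⊆ HE ((512 * n : ℕ) : ℤ) := inter_subset_left.trans hω
  rw [← Cn_hc hs le_rfl (by omega)]
  refine hc'.mono ?_
  intro e he
  obtain ⟨he1, he2⟩ := mem_ins'.1 he
  unfold img at he1 ⊢
  rw [mem_image] at he1 ⊢
  obtain ⟨e', he', rfl⟩ := he1
  refine ⟨e', mem_inter.2 ⟨he', ?_⟩, rfl⟩
  induction e' with
  | _ a b =>
    have h3 := mem_HE.1 (hω he')
    have key : ∀ z : ℤ × ℤ, z ∈ HB ((512 * n : ℕ) : ℤ) → nm (hc z) ≤ 2 * n → z ∈ HB (2 * (n : ℤ)) := by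
      intro z hz hnz
      have h4 := nm_hc (mem_HB.1 hz).1
      have h5 : max z.1 |z.2| ≤ 2 * n := by omega
      obtain ⟨h6, h7⟩ := max_le_iff.1 h5
      obtain ⟨h8, h9⟩ := abs_le.1 h7
      rw [mem_HB]
      exact ⟨(mem_HB.1 hz).1, h6, h8, h9⟩
    rw [mem_HE]
    rw [Sym2.map_mk] at he2
    exact ⟨key a h3.1 (he2 _ (Sym2.mem_mk_left _ _)), key b h3.2.1 (he2 _ (Sym2.mem_mk_right _ _)),
      h3.2.2⟩

theorem flat_esc (hq : 1 ≤ q) (hq4 : q < 4) (hu : UU q) : ∃ c : ℝ, 0 < c ∧ ∃ K : ℕ, 1 ≤ K ∧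
    ∀ n : ℕ, 3960 * K ≤ n → c ≤ P q (HE (512 * n)) ∅ (fun ω => ∃ y : ℤ, |y| ≤ n ∧
      ∃ p : ℤ × ℤ, 15 * ((n / (990 * K) : ℕ) : ℤ) < p.1 ∧ p.1 ≤ 2 * n ∧ |p.2| ≤ 2 * n ∧
        Cn (ω ∩ HE (2 * n)) (0, y) p) := by
  have hq0 : 0 < q := by linarith
  obtain ⟨c, hc, hseg⟩ := flatSeg hq hq4 hu
  obtain ⟨b, hb0, hb1, hthin⟩ := thinU hq hu
  obtain ⟨K0, hK0⟩ := exists_pow_lt_of_lt_one (show (0 : ℝ) < c / 4 by positivity) hb1
  obtain ⟨K, hK⟩ : ∃ K, K = max K0 1 := ⟨_, rfl⟩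
  have hK1 : 1 ≤ K := by rw [hK]; exact le_max_right _ _
  have hbK : b ^ K ≤ c / 4 :=
    (pow_le_pow_of_le_one hb0 hb1.le (by rw [hK]; exact le_max_left _ _)).trans hK0.le
  refine ⟨c / 2, by positivity, K, hK1, fun n hn => ?_⟩
  obtain ⟨ρ, hρ⟩ : ∃ ρ, ρ = n / (990 * K) := ⟨_, rfl⟩
  rw [← hρ]
  have hρK : ρ * (990 * K) ≤ n := by rw [hρ]; exact Nat.div_mul_le_self _ _
  have hρ1 : 4 ≤ ρ := by
    rw [hρ, Nat.le_div_iff_mul_le (by omega)]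
    omega
  have hρn : 990 * ρ ≤ n := by nlinarith
  have hn1 : 1 ≤ n := by omega
  have hseg' := hseg n hn1
  have hcast : (512 * (n : ℤ)) = ((512 * n : ℕ) : ℤ) := by push_cast; ring
  rw [hcast] at hseg' ⊢
  have h2 : P q (HE ((512 * n : ℕ) : ℤ)) ∅ (fun ω => Th 2 n (15 * ρ) (img IDK.hc ω)) ≤ c / 2 := by
    rw [← P_hc hq0 (512 * n) (empty_subset _)]
    have h3 := hthin 2 K n (512 * n) (15 * ρ) (fun _ => True) (by norm_num) hn1 (by omega) (by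
      have : ((ρ * (990 * K) : ℕ) : ℤ) ≤ n := by exact_mod_cast hρK
      push_cast at this
      nlinarith) (fun _ _ _ _ _ _ => trivial)
    have e : img IDK.hc (∅ : Finset (Sym2 (ℤ × ℤ))) = ∅ := by
      unfold img
      exact image_empty _
    rw [e]
    rw [P_true hq0, mul_one] at h3
    refine (P_mono hq0 ?_).trans (h3.trans ?_)
    · intro ζ _ hζ
      exact ⟨trivial, hζ⟩
    · linarith
  have h4 : P q (HE ((512 * n : ℕ) : ℤ)) ∅ (fun ω => ∃ y : ℤ, |y| ≤ n ∧ ∃ v, v ∉ HB (8 * n - 1) ∧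
      Cn ω (0, y) v) ≤ P q (HE ((512 * n : ℕ) : ℤ)) ∅ (fun ω => Th 2 n (15 * ρ) (img IDK.hc ω)) +
      P q (HE ((512 * n : ℕ) : ℤ)) ∅ (fun ω => ∃ y : ℤ, |y| ≤ n ∧
      ∃ p : ℤ × ℤ, 15 * (ρ : ℤ) < p.1 ∧ p.1 ≤ 2 * n ∧ |p.2| ≤ 2 * n ∧
        Cn (ω ∩ HE (2 * n)) (0, y) p) := by
    refine le_trans (P_mono hq0 ?_) (P_or_le hq0 _ _ _ _)
    rintro ζ hζ ⟨y, hy, v, hv, hcv⟩
    rw [union_empty] at hcv ⊢
    rcases esc_part hn1 (r := 15 * ρ) (by omega) (by omega) hζ hy hv hcv with h5 | ⟨p, h5⟩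
    · exact Or.inl h5
    · exact Or.inr ⟨y, hy, p, h5⟩
  linarith

end Pool.Agent.IDK
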