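import Pool.Agent.IDK.FlatBulk
import Pool.Agent.FKR.C2a

/-! # IDK/FlatHor (MP_b3e76a_pr): crossings from the free boundary

Domain `E = edgesIn (rect 0 (3n) n (2n))`. For large `n`: `ν = n / 2000`, `y0 = 3 n / 2`, `r = ν / 100`. `flatBulk` with `ν`, translated by `y0` (`P_equiv` with `tr y0`, then `P_mono_EF`:
`img (tr y0) (HE (512 ν)) ⊆ E` since `512 ν ≤ 0.26 n`): `(0, y0 + y)`, `|y| ≤ ν`, is connected to a vertex `p ∈ bxx (2ν) y0 r` inside `img (tr y0) (HE (4ν))`. Line of circuits `An (2ν + i r) y0 r`, `i ≤ k`,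
where `k` is chosen with `2 n + 2 r ≤ 2 ν + k r ≤ 2 n + 4 r` (`k` is bounded by a constant because `r ≥ n / 300000`), all boxes `bxx _ y0 (12 r)` are in `rect 0 (3n) n (2n)`: probability `≥ c'` by `An_E`, `P_lineH`; FKG (`P_fkg`).
Deterministic for `ω ⊆ E`: `p` is connected to the hub `u` of the first circuit (`An_hub`, `Hub_cross`, `(0, y0 + y)` is outside `bxx (2ν) y0 (2r - 1)`), `u` to the hub `u'` of the last one (`lineH`), and `u'` to some
`a ∈ bxx (2ν + k r) y0 (2r)` (`Hub_mem`), `a.1 ≥ 2 n`. `conn_of_Cn`, `hor_of_conn_lt` (FKR/C2a) give `hor 0 (2n) n (2n) ω`.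
For the remaining finitely many `n`: `P_pos_full` (`hor 0 (2n) n (2n) E`), a minimum over finitely many `n`. -/

namespace Pool.Agent.IDK

open Finset
open Pool.Agent.FKR
open Pool.Agent.H95.Perc (Inc conn link rect hor ver eh ev mem_rect)
open Pool.Agent.H95.SumRule (edgesIn Z2)
open Pool.Agent.H95.Wedge (Vtx pt)

variable {q : ℝ}

/-- a positive function on `1, ..., N - 1` is bounded below -/
private theorem fh_min (f : ℕ → ℝ) (hf : ∀ n, 1 ≤ n → 0 < f n) (N : ℕ) :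
    ∃ c : ℝ, 0 < c ∧ ∀ n, 1 ≤ n → n < N → c ≤ f n := by
  induction N with
  | zero => exact ⟨1, one_pos, fun n _ h => absurd h (Nat.not_lt_zero n)⟩
  | succ N ih =>
    obtain ⟨c, hc, h⟩ := ih
    by_cases hN : 1 ≤ N
    · refine ⟨min c (f N), lt_min hc (hf N hN), fun n h1 h2 => ?_⟩
      rcases lt_or_eq_of_le (Nat.lt_succ_iff.1 h2) with h3 | h3
      · exact (min_le_left _ _).trans (h n h1 h3)
      · rw [h3]; exact min_le_right _ _
    · exact ⟨c, hc, fun n h1 h2 => absurd h1 (by omega)⟩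

private theorem fh_full {n : ℤ} (hn : 1 ≤ n) :
    hor 0 (2 * n) n (2 * n) (edgesIn (rect 0 (3 * n) n (2 * n))) := by
  refine ⟨(0, n), (2 * n, n), by rw [mem_rect]; simp only; omega, by rw [mem_rect]; simp only; omega,
    rfl, rfl, ?_⟩
  show Cn (edgesIn (rect 0 (3 * n) n (2 * n)) ∩ edgesIn (rect 0 (2 * n) n (2 * n))) (0, n) (2 * n, n)
  refine row_Cn' (by omega) fun i h1 h2 => ?_
  rw [mem_inter, Pool.Agent.H95.Perc.mem_edgesIn', Pool.Agent.H95.Perc.mem_edgesIn', mem_rect, mem_rect,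
    mem_rect, mem_rect, Z2_adj]
  simp only [or_true, and_true]
  omega

private theorem fh_tr {n : ℕ} {ν : ℕ} (hn : 1000 ≤ n) (hν : 2000 * ν ≤ n) :
    img (tr (3 * (n : ℤ) / 2)) (HE (512 * (ν : ℤ))) ⊆ edgesIn (rect 0 (3 * n) n (2 * n)) := by
  intro e he
  unfold img at he
  rw [mem_image] at he
  obtain ⟨e', he', rfl⟩ := he
  induction e' with
  | _ u v =>
    rw [mem_HE, mem_HB, mem_HB] at he'
    obtain ⟨a1, a2, a3⟩ := he'
    rw [Sym2.map_mk, tr_apply, tr_apply, Pool.Agent.H95.Perc.mem_edgesIn', mem_rect, mem_rect]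
    refine ⟨by simp only; omega, by simp only; omega, ?_⟩
    obtain ⟨u1, u2⟩ := u
    obtain ⟨v1, v2⟩ := v
    rw [Z2_adj_iff] at a3 ⊢
    simp only
    omega

/-- the event of a connection from the free boundary to the bulk -/
private def fhU (y0 : ℤ) (ν r : ℕ) (ω : Finset (Sym2 (ℤ × ℤ))) : Prop :=
  ∃ y : ℤ, |y| ≤ ν ∧ ∃ p ∈ bxx (2 * ν) y0 r, Cn ω (0, y0 + y) p

private theorem fhU_inc (y0 : ℤ) (ν r : ℕ) : Inc (fhU y0 ν r) := by
  rintro ω ω' h ⟨y, hy, p, hp, hc⟩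
  exact ⟨y, hy, p, hp, hc.mono h⟩

private theorem fh_det {n ν r k : ℕ} (hr : 1 ≤ r) (hν : 2000 * ν ≤ n) (hrν : 100 * r ≤ ν)
    (hk : 2 * n + 2 * r ≤ 2 * ν + k * r)
    {ω : Finset (Sym2 (ℤ × ℤ))} (hω : ω ⊆ edgesIn (rect 0 (3 * n) n (2 * n)))
    (h1 : fhU (3 * (n : ℤ) / 2) ν r ω)
    (h2 : ∀ i : ℕ, i ≤ k → An (2 * (ν : ℤ) + i * (r : ℤ)) (3 * (n : ℤ) / 2) r ω) :
    hor 0 (2 * n) n (2 * n) ω := by
  obtain ⟨y, hy, p, hp, hc⟩ := h1
  have hr' : (1 : ℤ) ≤ r := by exact_mod_cast hr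
  have hy' := abs_le.1 hy
  have h0 := h2 0 (Nat.zero_le _)
  rw [Nat.cast_zero, zero_mul, add_zero] at h0
  obtain ⟨u, hu⟩ := An_hub hr' h0
  obtain ⟨u', hu'⟩ := An_hub hr' (h2 k le_rfl)
  have huu := lineH hr' h2 hu hu'
  have hpu : Cn ω p u := by
    refine Hub_cross hr' hω hu hp ?_ hc.symm
    rw [mem_bxx]
    simp only
    omega
  obtain ⟨a, ha, hau⟩ := Hub_mem hu' (by omega)
  rw [mem_bxx] at ha
  have hk' : (2 * n + 2 * r : ℤ) ≤ 2 * ν + k * r := by exact_mod_cast hk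
  have hc' : Cn ω (0, 3 * (n : ℤ) / 2 + y) a := ((hc.trans hpu).trans huu).trans hau.symm
  refine hor_of_conn_lt (conn_of_Cn hω hc') ?_ ?_ ?_ ?_
  · rw [mem_rect]
    simp only
    omega
  · omega
  · exact le_rfl
  · linarith [ha.1]

theorem flatHor (hq : 1 ≤ q) (hq4 : q < 4) (hu : UU q) : ∃ c : ℝ, 0 < c ∧
    ∀ n : ℕ, 1 ≤ n → c ≤ P q (edgesIn (rect 0 (3 * n) n (2 * n))) ∅ (hor 0 (2 * n) n (2 * n)) := by
  have hq0 : 0 < q := by linarith
  obtain ⟨c1, hc1, K, hK, h1⟩ := flatBulk hq hq4 hu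
  obtain ⟨c2, hc2, hc2', h2⟩ := An_E hq hu
  have hInc : ∀ x0 x1 y0 y1 : ℤ, Inc (hor x0 x1 y0 y1) := fun _ _ _ _ ω ω' h k =>
    Pool.Agent.H95.Perc.inc_hor _ _ _ _ _ _ h k
  obtain ⟨c3, hc3, h3⟩ := fh_min (fun n : ℕ => P q (edgesIn (rect 0 (3 * n) n (2 * n))) ∅
    (hor 0 (2 * n) n (2 * n))) (fun n hn => P_pos_full hq (NL_edgesIn _) NL_empty (hInc _ _ _ _)
      (fh_full (by exact_mod_cast hn))) (600000 + 2000 * K)
  refine ⟨min c3 (c1 * c2 ^ 600004), lt_min hc3 (by positivity), fun n hn => ?_⟩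
  rcases lt_or_ge n (600000 + 2000 * K) with hlt | hge
  · exact (min_le_left _ _).trans (h3 n hn hlt)
  refine (min_le_right _ _).trans ?_
  set E := edgesIn (rect 0 (3 * (n : ℤ)) n (2 * n)) with hE
  set ν : ℕ := n / 2000 with hνd
  set r : ℕ := ν / 100 with hrd
  set y0 : ℤ := 3 * (n : ℤ) / 2 with hy0
  have hνn : 2000 * ν ≤ n := by omega
  have hrν : 100 * r ≤ ν := by omega
  have hKν : K ≤ ν := by omega
  have hrn : n ≤ 300000 * r := by omega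
  have hr1 : 1 ≤ r := by omega
  set k : ℕ := (2 * n + 2 * r - 2 * ν) / r + 1 with hkd
  have hdm := Nat.div_add_mod (2 * n + 2 * r - 2 * ν) r
  have hml := Nat.mod_lt (2 * n + 2 * r - 2 * ν) (show 0 < r by omega)
  have hkr : k * r = r * ((2 * n + 2 * r - 2 * ν) / r) + r := by
    rw [hkd]; ring
  have hk1 : 2 * n + 2 * r ≤ 2 * ν + k * r := by
    rw [hkr]; omega
  have hk2 : 2 * ν + k * r ≤ 2 * n + 3 * r := by
    rw [hkr]; omega
  have hk3 : k ≤ 600003 := by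
    by_contra hcon
    have h4 : 600004 * r ≤ k * r := Nat.mul_le_mul_right r (by omega)
    omega
  -- the annuli
  have hAn : ∀ i : ℕ, i ≤ k → c2 ≤ P q E ∅ (An (2 * (ν : ℤ) + i * (r : ℤ)) y0 r) := by
    intro i hi
    refine h2 E _ _ _ (NL_edgesIn _) (by exact_mod_cast hr1) ?_
    have h4 : i * r ≤ k * r := Nat.mul_le_mul_right r hi
    have h5 : ((i : ℤ) * r) ≤ 2 * n + 3 * r - 2 * ν := by
      have : ((i * r : ℕ) : ℤ) ≤ ((k * r : ℕ) : ℤ) := by exact_mod_cast h4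
      push_cast at this hk2 ⊢
      have h6 : (2 * ν + k * r : ℤ) ≤ 2 * n + 3 * r := by exact_mod_cast hk2
      linarith
    have h6 : (0 : ℤ) ≤ (i : ℤ) * r := by positivity
    refine Pool.Agent.H95.Perc.edgesIn_mono ?_
    unfold bxx
    apply Pool.Agent.H95.Perc.rect_mono <;> omega
  have hL := P_lineH hq hc2.le (NL_edgesIn _) hAn
  have hLi : Inc (fun ω => ∀ i : ℕ, i ≤ k → An (2 * (ν : ℤ) + i * (r : ℤ)) y0 r ω) := by
    intro ω ω' h k' i hi
    exact inc_An _ _ _ _ _ h (k' i hi)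
  have hU : c1 ≤ P q E ∅ (fhU y0 ν r) := by
    refine (h1 ν hKν).trans ?_
    have h4 : P q (HE (512 * (ν : ℤ))) ∅ (fun ω => ∃ y : ℤ, |y| ≤ ν ∧
        ∃ p ∈ bxx (2 * ν) 0 ((ν / 100 : ℕ) : ℤ), Cn (ω ∩ HE (4 * ν)) (0, y) p) ≤
        P q (HE (512 * (ν : ℤ))) ∅ (fun ω => fhU y0 ν r (img (tr y0) ω)) := by
      refine P_mono hq0 fun ζ _ h => ?_
      obtain ⟨y, hy, p, hp, hc⟩ := h
      rw [mem_bxx] at hp
      refine ⟨y, hy, tr y0 p, ?_, ?_⟩
      · rw [mem_bxx, tr_apply]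
        simp only
        omega
      · have h5 := Cn_img (f := tr y0) (hc.mono inter_subset_left)
        have e : tr y0 (0, y) = (0, y0 + y) := by
          rw [tr_apply, add_comm]
        rwa [e] at h5
    refine h4.trans ?_
    rw [← P_equiv hq0 (HE_NL _) NL_empty (tr y0) (fhU y0 ν r), img_empty]
    refine P_mono_EF hq (NL_edgesIn _) NL_empty ?_ (Subset.refl _) (fhU_inc _ _ _)
    rw [union_empty]
    exact fh_tr (by omega) hνn
  have hfkg := P_fkg hq (NL_edgesIn _) NL_empty (fhU_inc y0 ν r) hLi (E := E)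
  have hpow : c2 ^ 600004 ≤ c2 ^ (k + 1) := pow_le_pow_of_le_one hc2.le hc2' (by omega)
  calc c1 * c2 ^ 600004 ≤ P q E ∅ (fhU y0 ν r) * P q E ∅ (fun ω => ∀ i : ℕ, i ≤ k →
        An (2 * (ν : ℤ) + i * (r : ℤ)) y0 r ω) :=
        mul_le_mul hU (hpow.trans hL) (by positivity) (P_nonneg hq0 _ _ _)
    _ ≤ _ := hfkg
    _ ≤ _ := by
        refine P_mono hq0 fun ζ hζ h => ?_
        exact fh_det hr1 hνn hrν hk1 (union_subset hζ (empty_subset _)) h.1 h.2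

end Pool.Agent.IDK
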