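/-
helper98, 3 Dec 2026.  MP_b3e76a_pr, project IDK, part G: power bounds from ratios.
-/
import Mathlib

namespace IDK

open Real Filter Topology

/-- the power of `R` below `n / n1` -/
theorem exists_pow_between {R n1 n : ℕ} (hR : 2 ≤ R) (hn1 : 1 ≤ n1) (hn : n1 ≤ n) :
    ∃ j : ℕ, R ^ j * n1 ≤ n ∧ n < R ^ (j + 1) * n1 := by
  have hex : ∃ j : ℕ, n < R ^ j * n1 := by
    refine ⟨n, ?_⟩
    calc n < R ^ n := Nat.lt_pow_self (by omega)
      _ ≤ R ^ n * n1 := Nat.le_mul_of_pos_right _ (by omega)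
  obtain ⟨j, hj, hmin⟩ : ∃ j, n < R ^ j * n1 ∧ ∀ i < j, ¬ n < R ^ i * n1 := by
    classical
    exact ⟨Nat.find hex, Nat.find_spec hex, fun i hi => Nat.find_min hex hi⟩
  have hj0 : j ≠ 0 := by
    rintro rfl
    rw [pow_zero, one_mul] at hj
    omega
  obtain ⟨i, rfl⟩ := Nat.exists_eq_succ_of_ne_zero hj0
  exact ⟨i, not_lt.1 (hmin i (Nat.lt_succ_self i)), hj⟩

theorem pow_up {W : ℕ → ℝ} {n1 R : ℕ} {a : ℝ} (ha : 0 ≤ a) (hR : 2 ≤ R) (hn1 : 1 ≤ n1)
    (hpos : ∀ n, n1 ≤ n → 0 < W n) (hanti : ∀ m n, n1 ≤ m → m ≤ n → W n ≤ W m)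
    (h : ∀ n, n1 ≤ n → W (R * n) ≤ (R : ℝ) ^ (-a) * W n) :
    ∃ C > 0, ∀ n : ℕ, n1 ≤ n → W n ≤ C * (n : ℝ) ^ (-a) := by
  have hR0 : (0 : ℝ) < R := by
    have : 0 < R := by omega
    exact_mod_cast this
  have hn10 : (0 : ℝ) < n1 := by exact_mod_cast hn1
  have hit : ∀ j : ℕ, W (R ^ j * n1) ≤ ((R : ℝ) ^ j) ^ (-a) * W n1 := by
    intro j
    induction j with
    | zero => simp
    | succ j ih =>
      have h1 : n1 ≤ R ^ j * n1 := Nat.le_mul_of_pos_left _ (pow_pos (by omega) j)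
      have h2 := h (R ^ j * n1) h1
      have e : R * (R ^ j * n1) = R ^ (j + 1) * n1 := by ring
      rw [e] at h2
      refine h2.trans ?_
      have hp : 0 ≤ (R : ℝ) ^ (-a) := by positivity
      refine (mul_le_mul_of_nonneg_left ih hp).trans (le_of_eq ?_)
      rw [pow_succ, mul_rpow (by positivity) hR0.le]
      ring
  refine ⟨((R : ℝ) * n1) ^ a * W n1, mul_pos (by positivity) (hpos n1 le_rfl), fun n hn => ?_⟩
  obtain ⟨j, h1, h2⟩ := exists_pow_between hR hn1 hn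
  have hn0 : (0 : ℝ) < n := by
    have : 0 < n := by omega
    exact_mod_cast this
  have h3 : n1 ≤ R ^ j * n1 := Nat.le_mul_of_pos_left _ (pow_pos (by omega) j)
  have h4 := (hanti _ _ h3 h1).trans (hit j)
  refine h4.trans ?_
  have h5 : (n : ℝ) ≤ (R : ℝ) ^ j * (R * n1) := by
    have : (n : ℝ) ≤ (R : ℝ) ^ (j + 1) * n1 := by exact_mod_cast h2.le
    rw [pow_succ] at this
    linarith
  have h6 : ((R : ℝ) ^ j) ^ (-a) ≤ ((R : ℝ) * n1) ^ a * (n : ℝ) ^ (-a) := by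
    rw [rpow_neg (by positivity), rpow_neg hn0.le, inv_eq_one_div, ← div_eq_mul_inv,
      div_le_div_iff₀ (by positivity) (by positivity), one_mul, ← mul_rpow (by positivity)
        (by positivity)]
    apply rpow_le_rpow hn0.le _ ha
    linarith
  have := mul_le_mul_of_nonneg_right h6 (hpos n1 le_rfl).le
  linarith

theorem pow_low {W : ℕ → ℝ} {n1 R : ℕ} {b : ℝ} (hb : 0 ≤ b) (hR : 2 ≤ R) (hn1 : 1 ≤ n1)
    (hpos : ∀ n, n1 ≤ n → 0 < W n) (hanti : ∀ m n, n1 ≤ m → m ≤ n → W n ≤ W m)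
    (h : ∀ n, n1 ≤ n → (R : ℝ) ^ (-b) * W n ≤ W (R * n)) :
    ∃ c > 0, ∀ n : ℕ, n1 ≤ n → c * (n : ℝ) ^ (-b) ≤ W n := by
  have hR0 : (0 : ℝ) < R := by
    have : 0 < R := by omega
    exact_mod_cast this
  have hn10 : (0 : ℝ) < n1 := by exact_mod_cast hn1
  have hit : ∀ j : ℕ, ((R : ℝ) ^ j) ^ (-b) * W n1 ≤ W (R ^ j * n1) := by
    intro j
    induction j with
    | zero => simp
    | succ j ih =>
      have h1 : n1 ≤ R ^ j * n1 := Nat.le_mul_of_pos_left _ (pow_pos (by omega) j)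
      have h2 := h (R ^ j * n1) h1
      have e : R * (R ^ j * n1) = R ^ (j + 1) * n1 := by ring
      rw [e] at h2
      refine le_trans ?_ h2
      have hp : 0 ≤ (R : ℝ) ^ (-b) := by positivity
      refine le_trans (le_of_eq ?_) (mul_le_mul_of_nonneg_left ih hp)
      rw [pow_succ, mul_rpow (by positivity) hR0.le]
      ring
  refine ⟨((R : ℝ) / n1) ^ (-b) * W n1, mul_pos (by positivity) (hpos n1 le_rfl), fun n hn => ?_⟩
  obtain ⟨j, h1, h2⟩ := exists_pow_between hR hn1 hn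
  have hn0 : (0 : ℝ) < n := by
    have : 0 < n := by omega
    exact_mod_cast this
  have h4 := (hit (j + 1)).trans (hanti _ _ hn h2.le)
  refine le_trans ?_ h4
  have h5 : (R : ℝ) ^ (j + 1) ≤ (R : ℝ) / n1 * n := by
    have : (R : ℝ) ^ j * n1 ≤ n := by exact_mod_cast h1
    rw [div_mul_eq_mul_div, le_div_iff₀ hn10, pow_succ]
    nlinarith
  have h6 : ((R : ℝ) / n1) ^ (-b) * (n : ℝ) ^ (-b) ≤ ((R : ℝ) ^ (j + 1)) ^ (-b) := by
    rw [← mul_rpow (by positivity) hn0.le]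
    exact rpow_le_rpow_of_nonpos (by positivity) h5 (by linarith)
  have := mul_le_mul_of_nonneg_right h6 (hpos n1 le_rfl).le
  linarith

/-- Ratios between `R ^ (-h - δ)` and `R ^ (-h + δ)` give `W n = n ^ (-h + o(1))`. -/
theorem pow_asymp {W : ℕ → ℝ} {n0 : ℕ} {h : ℝ} (hh : 0 < h) (hpos : ∀ n, n0 ≤ n → 0 < W n)
    (hanti : ∀ m n, n0 ≤ m → m ≤ n → W n ≤ W m)
    (hR : ∀ δ > 0, ∃ R : ℕ, 2 ≤ R ∧ ∃ n1 : ℕ, ∀ n, n1 ≤ n →
      (R : ℝ) ^ (-h - δ) * W n ≤ W (R * n) ∧ W (R * n) ≤ (R : ℝ) ^ (-h + δ) * W n) :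
    ∀ δ > 0, ∃ n1 : ℕ, ∀ n : ℕ, n1 ≤ n →
      (n : ℝ) ^ (-h - δ) ≤ W n ∧ W n ≤ (n : ℝ) ^ (-h + δ) := by
  intro δ hδ
  set e := min (δ / 2) h with he
  have he0 : 0 < e := lt_min (by linarith) hh
  have he1 : e ≤ δ / 2 := min_le_left _ _
  have he2 : e ≤ h := min_le_right _ _
  obtain ⟨R, hR2, n1, h1⟩ := hR e he0
  set n2 := max (max n0 n1) 1 with hn2
  have k0 : n0 ≤ n2 := (le_max_left _ _).trans (le_max_left _ _)
  have k1 : n1 ≤ n2 := (le_max_right _ _).trans (le_max_left _ _)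
  have k2 : 1 ≤ n2 := le_max_right _ _
  obtain ⟨C, hC, hup⟩ := pow_up (W := W) (n1 := n2) (a := h - e) (by linarith) hR2 k2
    (fun n hn => hpos n (k0.trans hn)) (fun m n hm hmn => hanti m n (k0.trans hm) hmn)
    (fun n hn => by
      have := (h1 n (k1.trans hn)).2
      have e1 : -(h - e) = -h + e := by ring
      rwa [e1])
  obtain ⟨c, hc, hlow⟩ := pow_low (W := W) (n1 := n2) (b := h + e) (by linarith) hR2 k2
    (fun n hn => hpos n (k0.trans hn)) (fun m n hm hmn => hanti m n (k0.trans hm) hmn)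
    (fun n hn => by
      have := (h1 n (k1.trans hn)).1
      have e1 : -(h + e) = -h - e := by ring
      rwa [e1])
  -- absorb the constants
  have hlim : Tendsto (fun n : ℕ => (n : ℝ) ^ (δ / 2)) atTop atTop :=
    (tendsto_rpow_atTop (by linarith)).comp tendsto_natCast_atTop_atTop
  obtain ⟨n3, hn3⟩ := eventually_atTop.1 ((hlim.eventually_ge_atTop C).and
    (hlim.eventually_ge_atTop (1 / c)))
  refine ⟨max n2 n3, fun n hn => ?_⟩
  have hn2' : n2 ≤ n := (le_max_left _ _).trans hn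
  obtain ⟨g1, g2⟩ := hn3 n ((le_max_right _ _).trans hn)
  have hn1' : (1 : ℝ) ≤ n := by exact_mod_cast k2.trans hn2'
  have hn0 : (0 : ℝ) < n := by linarith
  constructor
  · refine le_trans ?_ (hlow n hn2')
    have e1 : (n : ℝ) ^ (-h - δ) = (n : ℝ) ^ (-(δ / 2)) * (n : ℝ) ^ (-h - δ / 2) := by
      rw [← rpow_add hn0]; congr 1; ring
    have e2 : (n : ℝ) ^ (-(δ / 2)) ≤ c := by
      rw [rpow_neg hn0.le, inv_le_comm₀ (by positivity) hc, ← one_div]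
      exact g2
    have e3 : (n : ℝ) ^ (-h - δ / 2) ≤ (n : ℝ) ^ (-(h + e)) :=
      rpow_le_rpow_of_exponent_le hn1' (by linarith)
    rw [e1]
    exact mul_le_mul e2 e3 (by positivity) hc.le
  · refine (hup n hn2').trans ?_
    have e1 : (n : ℝ) ^ (-h + δ) = (n : ℝ) ^ (δ / 2) * (n : ℝ) ^ (-h + δ / 2) := by
      rw [← rpow_add hn0]; congr 1; ring
    have e3 : (n : ℝ) ^ (-(h - e)) ≤ (n : ℝ) ^ (-h + δ / 2) :=
      rpow_le_rpow_of_exponent_le hn1' (by linarith)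
    rw [e1]
    exact mul_le_mul g1 e3 (by positivity) (by positivity)

end IDK
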