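/-
helper98, 3 Dec 2026.  MP_b3e76a_pr, project IDK, part G: two elementary lemmas.
`lin_of_incr`: a function on the line whose increments are monotone in the length of the interval is affine.
`pow_bounds`: an antitone function with `W (R n) / W n` between `R ^ (-b)` and `R ^ (-a)` is between
`n ^ (-b - ε)` and `n ^ (-a + ε)`.
-/
import Mathlib

namespace IDK

open Real Filter Topology Finset

/-- sum of `n` increments -/
theorem tele (u : ℝ → ℝ) (p d : ℝ) (n : ℕ) :
    ∑ i ∈ range n, (u (p + i * d + d) - u (p + i * d)) = u (p + n * d) - u p := by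
  induction n with
  | zero => simp
  | succ n ih =>
    rw [sum_range_succ, ih]
    push_cast
    have e : p + ((n : ℝ) + 1) * d = p + n * d + d := by ring
    rw [e]; ring

theorem lin_of_incr {u : ℝ → ℝ}
    (h : ∀ p p' d d' : ℝ, 0 ≤ d → d < d' → u (p + d) - u p ≤ u (p' + d') - u p') :
    ∃ c : ℝ, 0 ≤ c ∧ ∀ t, u t = u 0 + c * t := by
  -- comparison of multiples
  have hmul : ∀ (n m : ℕ) (p p' d d' : ℝ), 1 ≤ n → 1 ≤ m → 0 < d → 0 < d' → n * d < m * d' →
      n * (u (p + d) - u p) ≤ m * (u (p' + d') - u p') := by
    intro n m p p' d d' hn hm hd hd' hlt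
    have hn' : (0 : ℝ) < n := by exact_mod_cast hn
    have hm' : (0 : ℝ) < m := by exact_mod_cast hm
    -- intermediate lengths
    set g := m * d' - n * d with hg
    have hgpos : 0 < g := by rw [hg]; linarith
    have k1 : d < d + g / (4 * n) := by
      have : 0 < g / (4 * n) := by positivity
      linarith
    have k2 : 0 ≤ max 0 (d' - g / (4 * m)) := le_max_left _ _
    have hd2 : d' - g / (4 * m) < d' := by
      have : 0 < g / (4 * m) := by positivity
      linarith
    have hd2' : 0 < d' - g / (4 * m) := by
      have e1 : m * (d' - g / (4 * m)) = m * d' - g / 4 := by field_simp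
      have e2 : 0 < m * (d' - g / (4 * m)) := by
        rw [e1, hg]
        have : (0 : ℝ) ≤ n * d := by positivity
        nlinarith
      exact (mul_pos_iff_of_pos_left hm').1 e2
    set d1 := d + g / (4 * n) with hd1
    set d2 := d' - g / (4 * m) with hd2def
    have e1 : n * d1 = n * d + g / 4 := by rw [hd1]; field_simp
    have e2 : m * d2 = m * d' - g / 4 := by rw [hd2def]; field_simp
    have s1 : n * (u (p + d) - u p) ≤ u (0 + n * d1) - u 0 := by
      rw [← tele u 0 d1 n]
      have : (n : ℝ) * (u (p + d) - u p) = ∑ _i ∈ range n, (u (p + d) - u p) := by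
        rw [sum_const, card_range, nsmul_eq_mul]
      rw [this]
      exact sum_le_sum fun i _ => h _ _ _ _ hd.le k1
    have s2 : u (0 + m * d2) - u 0 ≤ m * (u (p' + d') - u p') := by
      rw [← tele u 0 d2 m]
      have : (m : ℝ) * (u (p' + d') - u p') = ∑ _i ∈ range m, (u (p' + d') - u p') := by
        rw [sum_const, card_range, nsmul_eq_mul]
      rw [this]
      exact sum_le_sum fun i _ => h _ _ _ _ hd2'.le hd2
    have s3 : u (0 + n * d1) - u 0 ≤ u (0 + m * d2) - u 0 := by
      apply h _ _ _ _ (by positivity)
      rw [e1, e2]
      linarith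
    linarith
  set c := u (0 + 1) - u 0 with hc
  have hc0 : 0 ≤ c := by
    have := h 0 0 0 1 le_rfl one_pos
    rw [add_zero, sub_self] at this
    exact this
  -- increments of positive length
  have key : ∀ p d : ℝ, 0 < d → u (p + d) - u p = c * d := by
    intro p d hd
    have hb : ∀ n : ℕ, 1 ≤ n → |u (p + d) - u p - c * d| ≤ c / n := by
      intro n hn
      have hn' : (0 : ℝ) < n := by exact_mod_cast hn
      have hnd : 0 < n * d := by positivity
      rw [abs_le]
      constructor
      · -- lower bound
        have h1 : 1 ≤ ⌈n * d⌉₊ := Nat.one_le_ceil_iff.2 hnd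
        rcases Nat.eq_or_lt_of_le h1 with h2 | h2
        · have h3 : n * d ≤ 1 := by
            have := Nat.le_ceil ((n : ℝ) * d)
            rw [← h2] at this
            simpa using this
          have h4 : 0 ≤ u (p + d) - u p := by
            have := h p p 0 d le_rfl hd
            rwa [add_zero, sub_self] at this
          have h5 : c * d ≤ c / n := by
            rw [le_div_iff₀ hn']
            nlinarith
          linarith
        · obtain ⟨m, hm⟩ : ∃ m, ⌈n * d⌉₊ = m + 1 := ⟨⌈n * d⌉₊ - 1, by omega⟩
          have hm1 : 1 ≤ m := by omega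
          have h3 : (m : ℝ) < n * d := by
            have := Nat.lt_ceil.1 (show m < ⌈n * d⌉₊ by omega)
            exact this
          have h4 : n * d ≤ m + 1 := by
            have := Nat.le_ceil ((n : ℝ) * d)
            rw [hm] at this
            push_cast at this
            exact this
          have h5 := hmul m n 0 p 1 d hm1 hn one_pos hd (by rw [mul_one]; exact h3)
          rw [← hc] at h5
          have h6 : c * d - c / n ≤ u (p + d) - u p := by
            have : n * (c * d - c / n) ≤ n * (u (p + d) - u p) := by
              have e : n * (c * d - c / n) = c * (n * d - 1) := by field_simp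
              rw [e]
              nlinarith
            exact le_of_mul_le_mul_left this hn'
          linarith
      · -- upper bound
        have h3 : n * d < (⌊n * d⌋₊ : ℝ) + 1 := Nat.lt_floor_add_one _
        have h4 : (⌊n * d⌋₊ : ℝ) ≤ n * d := Nat.floor_le hnd.le
        have h5 := hmul n (⌊n * d⌋₊ + 1) p 0 d 1 hn (by omega) hd one_pos (by
          rw [mul_one]; push_cast; exact h3)
        rw [← hc] at h5
        push_cast at h5
        have : n * (u (p + d) - u p - c * d) ≤ n * (c / n) := by
          have e : n * (c / n) = c := by field_simp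
          rw [e]
          nlinarith
        exact le_of_mul_le_mul_left this hn'
    have hlim : Tendsto (fun n : ℕ => c / (n : ℝ)) atTop (𝓝 0) :=
      tendsto_const_div_atTop_nhds_zero_nat c
    have h0 : |u (p + d) - u p - c * d| ≤ 0 :=
      ge_of_tendsto hlim (eventually_atTop.2 ⟨1, fun n hn => hb n hn⟩)
    have := abs_nonpos_iff.1 h0
    linarith
  refine ⟨c, hc0, fun t => ?_⟩
  rcases lt_trichotomy t 0 with ht | ht | ht
  · have := key t (-t) (by linarith)
    rw [add_neg_cancel] at this
    linarith
  · rw [ht]; ring
  · have := key 0 t ht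
    rw [zero_add] at this
    linarith

end IDK
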