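/-
helper98, 3 Dec 2026.  MP_b3e76a_pr, project IDK, part G: along every ultrafilter
`f (lam / N) / f (1 / N)` tends to a power of `lam`.
-/
import Pool.Agent.IDK.GLin

namespace IDK

open Real Filter Topology

/-- What is used of the limit `f x` of the touching probability of an arc of cross-ratio `1 - x`. -/
structure FData (f : ℝ → ℝ) : Prop where
  mono : ∀ x y, 0 < x → x < y → y < 1 → f x ≤ f y
  pos : ∀ x, 0 < x → x < 1 → 0 < f x
  dbl : ∀ S : ℕ, 1 ≤ S → ∃ c > 0, ∃ z > 0, ∀ x, 0 < x → x < z → c * f (S * x) ≤ f x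
  rat : ∀ e > 0, ∀ θ > 1, ∀ g1 > 0, ∀ g2 > 0, ∃ z > 0, ∀ x x2, 0 < x → x < z → 0 < x2 → x2 < z →
    f (g1 * x / θ) * f (g2 * x2 / θ) ≤ (1 + e) * (f (θ * g1 * x2) * f (θ * g2 * x))

variable {f : ℝ → ℝ}

theorem FData.mono' (hf : FData f) {x y : ℝ} (hx : 0 < x) (hxy : x ≤ y) (hy : y < 1) :
    f x ≤ f y := by
  rcases eq_or_lt_of_le hxy with h | h
  · rw [h]
  · exact hf.mono x y hx h hy

/-- eventually `c / N` is small -/
theorem ev_small (c : ℝ) {z : ℝ} (hz : 0 < z) : ∀ᶠ N : ℕ in atTop, c / (N : ℝ) < z :=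
  (tendsto_const_div_atTop_nhds_zero_nat c).eventually (gt_mem_nhds hz)

theorem FData.ratio_bdd (hf : FData f) {l : ℝ} (hl : 0 < l) : ∃ c C : ℝ, 0 < c ∧
    ∀ᶠ N : ℕ in atTop, f (l / N) / f (1 / N) ∈ Set.Icc c C := by
  obtain ⟨S, hS⟩ := exists_nat_gt (max 1 (max l (1 / l)))
  have hS1 : (1 : ℝ) < S := (le_max_left _ _).trans_lt hS
  have hS2 : l < S := ((le_max_left _ _).trans (le_max_right _ _)).trans_lt hS
  have hS3 : 1 / l < S := ((le_max_right _ _).trans (le_max_right _ _)).trans_lt hS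
  have hS4 : 1 < S * l := by rwa [div_lt_iff₀ hl] at hS3
  have hSn : 1 ≤ S := by
    have : (1 : ℝ) < S := hS1
    exact_mod_cast this.le
  obtain ⟨c, hc, z, hz, h⟩ := hf.dbl S hSn
  refine ⟨c, 1 / c, hc, ?_⟩
  have hS0 : (0 : ℝ) < S := by linarith
  filter_upwards [ev_small 1 hz, ev_small l hz, ev_small S one_pos, ev_small (S * l) one_pos,
    eventually_gt_atTop 0] with N h1 h2 h3 h4 h5
  have hN : (0 : ℝ) < N := by exact_mod_cast h5
  have p1 : 0 < 1 / (N : ℝ) := by positivity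
  have p2 : 0 < l / (N : ℝ) := by positivity
  have q1 : 1 / (N : ℝ) < S / N := by
    apply div_lt_div_of_pos_right hS1 hN
  have f1 : 0 < f (1 / N) := hf.pos _ p1 (by linarith)
  have f2 : c * f (S * (1 / N)) ≤ f (1 / N) := h _ p1 h1
  have f3 : c * f (S * (l / N)) ≤ f (l / N) := h _ p2 h2
  have e1 : (S : ℝ) * (1 / N) = S / N := by ring
  have e2 : (S : ℝ) * (l / N) = S * l / N := by ring
  rw [e1] at f2
  rw [e2] at f3
  constructor
  · rw [le_div_iff₀ f1]
    have : f (1 / N) ≤ f (S * l / N) :=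
      hf.mono _ _ p1 (div_lt_div_of_pos_right hS4 hN) h4
    nlinarith
  · rw [div_le_div_iff₀ f1 hc]
    have : f (l / N) ≤ f (S / N) := hf.mono _ _ p2 (div_lt_div_of_pos_right hS2 hN) h3
    nlinarith

theorem FData.power (hf : FData f) (U : Ultrafilter ℕ) (hU : (U : Filter ℕ) ≤ atTop) :
    ∃ h : ℝ, 0 ≤ h ∧ ∀ l : ℝ, 0 < l →
      Tendsto (fun N : ℕ => f (l / N) / f (1 / N)) U (𝓝 (l ^ h)) := by
  -- the limits exist
  have hex : ∀ l : ℝ, ∃ y : ℝ, 0 < l →
      0 < y ∧ Tendsto (fun N : ℕ => f (l / N) / f (1 / N)) U (𝓝 y) := by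
    intro l
    by_cases hl : 0 < l
    · obtain ⟨c, C, hc, h⟩ := hf.ratio_bdd hl
      have h1 : (Ultrafilter.map (fun N : ℕ => f (l / N) / f (1 / N)) U : Filter ℝ) ≤
          𝓟 (Set.Icc c C) := Filter.le_principal_iff.2 (hU h)
      obtain ⟨y, hy, hy'⟩ := isCompact_Icc.ultrafilter_le_nhds _ h1
      exact ⟨y, fun _ => ⟨lt_of_lt_of_le hc hy.1, hy'⟩⟩
    · exact ⟨0, fun h => absurd h hl⟩
  choose φ hφ using hex
  have hpos : ∀ l, 0 < l → 0 < φ l := fun l hl => (hφ l hl).1
  have hlim : ∀ l, 0 < l → Tendsto (fun N : ℕ => f (l / N) / f (1 / N)) U (𝓝 (φ l)) :=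
    fun l hl => (hφ l hl).2
  -- the functional inequality
  have hfun : ∀ θ > 1, ∀ g1 > 0, ∀ g2 > 0, ∀ a > 0, ∀ b > 0,
      φ (g1 * a / θ) * φ (g2 * b / θ) ≤ φ (θ * g1 * b) * φ (θ * g2 * a) := by
    intro θ hθ g1 hg1 g2 hg2 a ha b hb
    have hθ0 : 0 < θ := by linarith
    have he : ∀ e > 0, φ (g1 * a / θ) * φ (g2 * b / θ) ≤
        (1 + e) * (φ (θ * g1 * b) * φ (θ * g2 * a)) := by
      intro e he
      obtain ⟨z, hz, h⟩ := hf.rat e he θ hθ g1 hg1 g2 hg2
      have l1 := (hlim (g1 * a / θ) (by positivity)).mul (hlim (g2 * b / θ) (by positivity))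
      have l2 := ((hlim (θ * g1 * b) (by positivity)).mul
        (hlim (θ * g2 * a) (by positivity))).const_mul (1 + e)
      refine le_of_tendsto_of_tendsto l1 l2 (hU ?_)
      filter_upwards [ev_small a hz, ev_small b hz, eventually_gt_atTop 1] with N h1 h2 h3
      have hN : (1 : ℝ) < N := by exact_mod_cast h3
      have hN0 : (0 : ℝ) < N := by linarith
      have f1 : 0 < f (1 / N) := hf.pos _ (by positivity) (by rw [div_lt_one hN0]; exact hN)
      have key := h (a / N) (b / N) (by positivity) h1 (by positivity) h2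
      have e1 : g1 * (a / N) / θ = g1 * a / θ / N := by ring
      have e2 : g2 * (b / N) / θ = g2 * b / θ / N := by ring
      have e3 : θ * g1 * (b / N) = θ * g1 * b / N := by ring
      have e4 : θ * g2 * (a / N) = θ * g2 * a / N := by ring
      rw [e1, e2, e3, e4] at key
      have e5 : f (g1 * a / θ / N) / f (1 / N) * (f (g2 * b / θ / N) / f (1 / N)) =
          (f (g1 * a / θ / N) * f (g2 * b / θ / N)) / (f (1 / N)) ^ 2 := by
        field_simp
      have e6 : (1 + e) * (f (θ * g1 * b / N) / f (1 / N) * (f (θ * g2 * a / N) / f (1 / N))) =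
          ((1 + e) * (f (θ * g1 * b / N) * f (θ * g2 * a / N))) / (f (1 / N)) ^ 2 := by
        field_simp
      rw [e5, e6]
      exact div_le_div_of_nonneg_right key (by positivity)
    have hp : 0 ≤ φ (θ * g1 * b) * φ (θ * g2 * a) :=
      mul_nonneg (hpos _ (by positivity)).le (hpos _ (by positivity)).le
    apply le_of_forall_pos_le_add
    intro ε hε
    have hp1 : 0 < φ (θ * g1 * b) * φ (θ * g2 * a) + 1 := by linarith
    have := he (ε / (φ (θ * g1 * b) * φ (θ * g2 * a) + 1)) (by positivity)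
    refine this.trans ?_
    rw [add_mul, one_mul]
    apply add_le_add_right
    rw [div_mul_eq_mul_div, div_le_iff₀ hp1]
    nlinarith
  set u : ℝ → ℝ := fun t => log (φ (exp t)) with hu
  have hineq : ∀ G1 G2 A B τ : ℝ, 0 < τ →
      u (G1 + A - τ) + u (G2 + B - τ) ≤ u (G1 + B + τ) + u (G2 + A + τ) := by
    intro G1 G2 A B τ hτ
    have h1 := hfun (exp τ) (by rw [gt_iff_lt, one_lt_exp_iff]; exact hτ) (exp G1) (exp_pos _)
      (exp G2) (exp_pos _) (exp A) (exp_pos _) (exp B) (exp_pos _)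
    have e1 : exp G1 * exp A / exp τ = exp (G1 + A - τ) := by rw [exp_sub, exp_add]
    have e2 : exp G2 * exp B / exp τ = exp (G2 + B - τ) := by rw [exp_sub, exp_add]
    have e3 : exp τ * exp G1 * exp B = exp (G1 + B + τ) := by rw [exp_add, exp_add]; ring
    have e4 : exp τ * exp G2 * exp A = exp (G2 + A + τ) := by rw [exp_add, exp_add]; ring
    rw [e1, e2, e3, e4] at h1
    simp only [hu]
    have p := fun t : ℝ => hpos (exp t) (exp_pos t)
    rw [← log_mul (p _).ne' (p _).ne', ← log_mul (p _).ne' (p _).ne']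
    exact log_le_log (mul_pos (p _) (p _)) h1
  obtain ⟨c, hc, hlin⟩ := lin_of_incr (u := u) (by
    intro p p' d d' hd hdd
    have h1 := hineq (p - (d' - d) / 4) (p' + (d' - d) / 4) ((d + d') / 2) 0 ((d' - d) / 4)
      (by linarith)
    have e1 : p - (d' - d) / 4 + (d + d') / 2 - (d' - d) / 4 = p + d := by ring
    have e2 : p' + (d' - d) / 4 + 0 - (d' - d) / 4 = p' := by ring
    have e3 : p - (d' - d) / 4 + 0 + (d' - d) / 4 = p := by ring
    have e4 : p' + (d' - d) / 4 + (d + d') / 2 + (d' - d) / 4 = p' + d' := by ring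
    rw [e1, e2, e3, e4] at h1
    linarith)
  have h1 : φ 1 = 1 := by
    have l1 := hlim 1 one_pos
    have l2 : Tendsto (fun N : ℕ => f (1 / N) / f (1 / N)) U (𝓝 1) := by
      apply tendsto_const_nhds.congr'
      apply hU
      filter_upwards [eventually_gt_atTop 1] with N h3
      have hN : (1 : ℝ) < N := by exact_mod_cast h3
      have hN0 : (0 : ℝ) < N := by linarith
      have f1 : 0 < f (1 / N) := hf.pos _ (by positivity) (by rw [div_lt_one hN0]; exact hN)
      rw [div_self f1.ne']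
    exact tendsto_nhds_unique l1 l2
  refine ⟨c, hc, fun l hl => ?_⟩
  have h2 : φ l = l ^ c := by
    have h3 := hlin (log l)
    have h4 := hlin 0
    simp only [hu, exp_log hl, exp_zero, h1, log_one] at h3
    rw [zero_add] at h3
    rw [← exp_log (hpos l hl), h3, rpow_def_of_pos hl, mul_comm]
  rw [← h2]
  exact hlim l hl

end IDK
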