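/-
helper98, 3 Dec 2026.  MP_b3e76a_pr, project IDK, part G: locally uniform convergence of
`f (l / N) / f (1 / N)`, and uniform estimates of cross-ratios of short arcs.
-/
import Pool.Agent.IDK.GPhi
import Pool.Agent.IDK.RA7

namespace IDK

open Real Filter Topology Set MeasureTheory

/-- `f (l / N) / f (1 / N)` is close to `l ^ h`, uniformly for `l` in `[a, b]`. -/
theorem unif_ratio {f : ℝ → ℝ} (hf : FData f) {U : Filter ℕ} (hU : U ≤ atTop) {h : ℝ} (hh : 0 ≤ h)
    (hlim : ∀ l : ℝ, 0 < l → Tendsto (fun N : ℕ => f (l / N) / f (1 / N)) U (𝓝 (l ^ h)))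
    {a b θ : ℝ} (ha : 0 < a) (hθ : 1 < θ) :
    ∀ᶠ N : ℕ in U, ∀ l, a ≤ l → l ≤ b →
      l ^ h / θ * f (1 / N) ≤ f (l / N) ∧ f (l / N) ≤ θ * l ^ h * f (1 / N) := by
  have hθ0 : 0 < θ := by linarith
  set σ := θ ^ (1 / (1 + 2 * h)) with hσ
  have hexp : 0 < 1 / (1 + 2 * h) := by positivity
  have hσ1 : 1 < σ := one_lt_rpow hθ hexp
  have hσ0 : 0 < σ := by linarith
  have hσθ : σ * (σ ^ h * σ ^ h) = θ := by
    have e : σ * (σ ^ h * σ ^ h) = σ ^ (1 + 2 * h) := by
      rw [← rpow_add hσ0, ← rpow_one_add' hσ0.le (by positivity)]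
      congr 1; ring
    rw [e, hσ, ← rpow_mul hθ0.le]
    have : 1 / (1 + 2 * h) * (1 + 2 * h) = 1 := by field_simp
    rw [this, rpow_one]
  -- local statement
  have hloc : ∀ l0 ∈ Icc a b, ∃ t ∈ 𝓝 l0, ∀ᶠ N : ℕ in U, ∀ l ∈ t,
      l ^ h / θ * f (1 / N) ≤ f (l / N) ∧ f (l / N) ≤ θ * l ^ h * f (1 / N) := by
    intro l0 hl0
    have hl : 0 < l0 := ha.trans_le hl0.1
    have hlow : l0 / σ < l0 := div_lt_self hl hσ1
    have hup : l0 < l0 * σ := lt_mul_of_one_lt_right hl hσ1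
    refine ⟨Ioo (l0 / σ) (l0 * σ), Ioo_mem_nhds hlow hup, ?_⟩
    have l1 := hlim (l0 / σ) (by positivity)
    have l2 := hlim (l0 * σ) (by positivity)
    have p1 : 0 < (l0 / σ) ^ h := by positivity
    have p2 : 0 < (l0 * σ) ^ h := by positivity
    have ev1 := l1.eventually (lt_mem_nhds (show (l0 / σ) ^ h / σ < (l0 / σ) ^ h from
      div_lt_self p1 hσ1))
    have ev2 := l2.eventually (gt_mem_nhds (show (l0 * σ) ^ h < σ * (l0 * σ) ^ h from
      lt_mul_of_one_lt_left p2 hσ1))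
    filter_upwards [ev1, ev2, hU (ev_small (l0 * σ) one_pos), hU (eventually_gt_atTop 1)] with
      N h1 h2 h3 h4 l hlm
    have hN : (1 : ℝ) < N := by exact_mod_cast h4
    have hN0 : (0 : ℝ) < N := by linarith
    have f1 : 0 < f (1 / N) := hf.pos _ (by positivity) (by rw [div_lt_one hN0]; exact hN)
    have hl' : 0 < l := lt_trans (by positivity) hlm.1
    rw [lt_div_iff₀ f1] at h1
    rw [div_lt_iff₀ f1] at h2
    have m1 : f (l0 / σ / N) ≤ f (l / N) :=
      hf.mono _ _ (by positivity) (div_lt_div_of_pos_right hlm.1 hN0)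
        (lt_trans (div_lt_div_of_pos_right hlm.2 hN0) h3)
    have m2 : f (l / N) ≤ f (l0 * σ / N) :=
      hf.mono _ _ (by positivity) (div_lt_div_of_pos_right hlm.2 hN0) h3
    have r1 : l ^ h ≤ (l0 * σ) ^ h := rpow_le_rpow hl'.le hlm.2.le hh
    have r2 : (l0 / σ) ^ h ≤ l ^ h := rpow_le_rpow (by positivity) hlm.1.le hh
    rw [mul_rpow hl.le hσ0.le] at r1 h2
    rw [div_rpow hl.le hσ0.le] at r2 h1
    have s0 : 0 < σ ^ h := by positivity
    have s1 : 0 < l0 ^ h := by positivity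
    constructor
    · calc l ^ h / θ * f (1 / N) ≤ (l0 ^ h * σ ^ h) / θ * f (1 / N) := by gcongr
        _ = l0 ^ h / σ ^ h / σ * f (1 / N) := by
            rw [← hσθ]; field_simp
        _ ≤ f (l / N) := h1.le.trans m1
    · calc f (l / N) ≤ σ * (l0 ^ h * σ ^ h) * f (1 / N) := m2.trans h2.le
        _ = (σ * (σ ^ h * σ ^ h)) * (l0 ^ h / σ ^ h) * f (1 / N) := by field_simp
        _ = θ * (l0 ^ h / σ ^ h) * f (1 / N) := by rw [hσθ]
        _ ≤ θ * l ^ h * f (1 / N) := by gcongr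
  choose! t ht hev using hloc
  obtain ⟨s, hs, hcov⟩ := isCompact_Icc.elim_nhds_subcover t ht
  have hall : ∀ᶠ N : ℕ in U, ∀ l0 ∈ s, ∀ l ∈ t l0,
      l ^ h / θ * f (1 / N) ≤ f (l / N) ∧ f (l / N) ≤ θ * l ^ h * f (1 / N) :=
    (eventually_all_finset s).2 fun l0 hl0 => hev l0 (hs l0 hl0)
  filter_upwards [hall] with N hN l hla hlb
  obtain ⟨l0, hl0, hl⟩ := Set.mem_iUnion₂.1 (hcov ⟨hla, hlb⟩)
  exact hN l0 hl0 l hl

/-- Cross-ratios of short arcs. -/
theorem arc_est {g : ℝ → ℝ} {p q : ℝ} (hg : ContinuousOn g (Icc p q))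
    (hpos : ∀ x ∈ Icc p q, 0 < g x) (R : ℝ → ℝ → ℝ)
    (hR : ∀ a b, p ≤ a → a ≤ b → b ≤ q → R a b = exp (-∫ x in a..b, g x)) {θ : ℝ} (hθ : 1 < θ) :
    ∃ z > 0, ∀ a b ξ, p ≤ a → a < b → b ≤ q → p ≤ ξ → ξ ≤ q → b - a < z → |ξ - a| < z →
      g ξ * (b - a) / θ ≤ 1 - R a b ∧ 1 - R a b ≤ θ * g ξ * (b - a) ∧ 1 - R a b < 1 ∧
        0 < 1 - R a b := by
  have hθ0 : 0 < θ := by linarith
  have hlog : 0 < log θ / 2 := by have := log_pos hθ; linarith
  -- uniform continuity of log g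
  have hlg : ContinuousOn (fun x => log (g x)) (Icc p q) :=
    hg.log fun x hx => (hpos x hx).ne'
  have huc := Metric.uniformContinuousOn_iff.1
    (isCompact_Icc.uniformContinuousOn_of_continuous hlg) (log θ / 2) hlog
  obtain ⟨z1, hz1, h1⟩ := huc
  obtain ⟨M, hM⟩ := isCompact_Icc.exists_bound_of_continuousOn hg
  have hM1 : 0 < max M 1 := lt_max_of_lt_right one_pos
  refine ⟨min (z1 / 2) (log θ / 2 / max M 1), by positivity,
    fun a b ξ ha hab hb hξ1 hξ2 hba hξa => ?_⟩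
  have hz : min (z1 / 2) (log θ / 2 / max M 1) ≤ z1 / 2 := min_le_left _ _
  have hz' : min (z1 / 2) (log θ / 2 / max M 1) ≤ log θ / 2 / max M 1 := min_le_right _ _
  have hξ : ξ ∈ Icc p q := ⟨hξ1, hξ2⟩
  have hgξ := hpos ξ hξ
  have hba0 : 0 < b - a := by linarith
  -- pointwise bounds
  have hpt : ∀ x ∈ Icc a b, g ξ * exp (-(log θ / 2)) ≤ g x ∧ g x ≤ g ξ * exp (log θ / 2) := by
    intro x hx
    have hx' : x ∈ Icc p q := ⟨ha.trans hx.1, hx.2.trans hb⟩
    have hd : dist x ξ < z1 := by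
      rw [Real.dist_eq]
      have h2 : |x - ξ| ≤ |x - a| + |a - ξ| := by
        have := abs_add_le (x - a) (a - ξ)
        rwa [sub_add_sub_cancel] at this
      rw [abs_sub_comm a ξ, abs_of_nonneg (by linarith [hx.1] : 0 ≤ x - a)] at h2
      linarith [hx.2]
    have h3 := h1 x hx' ξ hξ hd
    rw [Real.dist_eq, abs_lt] at h3
    have hgx := hpos x hx'
    constructor
    · rw [← log_le_log_iff (by positivity) hgx, log_mul hgξ.ne' (exp_pos _).ne', log_exp]
      linarith [h3.1]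
    · rw [← log_le_log_iff hgx (by positivity), log_mul hgξ.ne' (exp_pos _).ne', log_exp]
      linarith [h3.2]
  have hint : IntervalIntegrable g volume a b := by
    apply ContinuousOn.intervalIntegrable
    rw [uIcc_of_le hab.le]
    exact hg.mono (Icc_subset_Icc ha hb)
  have i1 : g ξ * exp (-(log θ / 2)) * (b - a) ≤ ∫ x in a..b, g x := by
    have := intervalIntegral.integral_mono_on (μ := volume) hab.le
      (intervalIntegrable_const (c := g ξ * exp (-(log θ / 2)))) hint (fun x hx => (hpt x hx).1)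
    rwa [intervalIntegral.integral_const, smul_eq_mul, mul_comm (b - a)] at this
  have i2 : ∫ x in a..b, g x ≤ g ξ * exp (log θ / 2) * (b - a) := by
    have := intervalIntegral.integral_mono_on (μ := volume) hab.le hint
      (intervalIntegrable_const (c := g ξ * exp (log θ / 2))) (fun x hx => (hpt x hx).2)
    rwa [intervalIntegral.integral_const, smul_eq_mul, mul_comm (b - a)] at this
  have i3 : ∫ x in a..b, g x ≤ log θ / 2 := by
    have h2 : ∀ x ∈ Icc a b, g x ≤ max M 1 := by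
      intro x hx
      have h3 := hM x ⟨ha.trans hx.1, hx.2.trans hb⟩
      exact ((le_abs_self _).trans h3).trans (le_max_left _ _)
    have := intervalIntegral.integral_mono_on (μ := volume) hab.le hint
      (intervalIntegrable_const (c := max M 1)) h2
    rw [intervalIntegral.integral_const, smul_eq_mul] at this
    refine this.trans ?_
    have h4 : b - a ≤ log θ / 2 / max M 1 := (hba.trans_le hz').le
    rw [le_div_iff₀ hM1] at h4
    exact h4
  set I := ∫ x in a..b, g x with hI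
  have hE : 0 < exp (-(log θ / 2)) := exp_pos _
  have hI0 : 0 < I := lt_of_lt_of_le (by positivity) i1
  rw [hR a b ha hab.le hb]
  have c1 : 1 - exp (-I) ≤ I := by
    have := Real.add_one_le_exp (-I)
    linarith
  have c2 : I * exp (-I) ≤ 1 - exp (-I) := by
    have := Real.add_one_le_exp I
    have h3 : exp (-I) * exp I = 1 := by rw [← exp_add]; simp
    have h4 := exp_pos (-I)
    nlinarith
  have e2 : exp (-(log θ / 2)) * exp (-(log θ / 2)) = 1 / θ := by
    rw [← exp_add]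
    have : -(log θ / 2) + -(log θ / 2) = -log θ := by ring
    rw [this, exp_neg, exp_log hθ0, one_div]
  have e3 : exp (log θ / 2) ≤ θ := by
    have : exp (log θ / 2) ≤ exp (log θ) := exp_le_exp.2 (by linarith)
    rwa [exp_log hθ0] at this
  refine ⟨?_, ?_, by linarith [exp_pos (-I)], lt_of_lt_of_le (mul_pos hI0 (exp_pos _)) c2⟩
  · refine le_trans ?_ c2
    have h5 : exp (-(log θ / 2)) ≤ exp (-I) := exp_le_exp.2 (by linarith)
    calc g ξ * (b - a) / θ = (g ξ * exp (-(log θ / 2)) * (b - a)) * exp (-(log θ / 2)) := by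
          rw [div_eq_mul_one_div, ← e2]; ring
      _ ≤ I * exp (-I) := mul_le_mul i1 h5 hE.le hI0.le
  · refine c1.trans (i2.trans ?_)
    have : g ξ * exp (log θ / 2) * (b - a) ≤ g ξ * θ * (b - a) := by gcongr
    linarith [mul_comm θ (g ξ)]

end IDK
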