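/-
helper98, 3 Dec 2026.  MP_b3e76a_pr, project IDK, part G: limits of touching probabilities along an
ultrafilter.
-/
import Pool.Agent.IDK.GUnif
import Pool.Agent.IDK.RA8

namespace IDK

open Real Filter Topology Set MeasureTheory

/-- The probabilities `F n M (arc)` converge along `l`, for the arcs in `(0, hi)`, to the function `Φ` of the cross-ratio
of the arc, in the weak sense: up to arbitrarily small changes of the arc. -/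
def ConvTo (l : Filter (ℕ × ℕ)) (Φ : ℝ → ℝ) (hi : ℝ) (R : ℝ → ℝ → ℝ)
    (F : ℕ → ℕ → Set ℕ → ℝ) : Prop :=
  ∀ a b a' b' : ℝ, 0 < a' → a' < a → a < b → b < b' → b' < hi → ∀ ε > 0,
    (∀ᶠ p in l, F p.1 p.2 (realArc p.1 a b) ≤ Φ (R a' b') + ε) ∧
    (∀ᶠ p in l, Φ (R a b) - ε ≤ F p.1 p.2 (realArc p.1 a' b'))

/-- limit along an ultrafilter -/
noncomputable def vlim (V : Ultrafilter (ℕ × ℕ)) (X : ℕ × ℕ → ℝ) : ℝ := limUnder (V : Filter _) X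

theorem vlim_spec (V : Ultrafilter (ℕ × ℕ)) {X : ℕ × ℕ → ℝ} (h : ∀ p, 0 ≤ X p ∧ X p ≤ 1) :
    Tendsto X V (𝓝 (vlim V X)) := by
  apply tendsto_nhds_limUnder
  have h1 : (Ultrafilter.map X V : Filter ℝ) ≤ 𝓟 (Icc 0 1) := by
    rw [Filter.le_principal_iff]
    exact Filter.Eventually.of_forall (f := (V : Filter _)) (p := fun p => X p ∈ Icc (0 : ℝ) 1) h
  obtain ⟨y, _, hy'⟩ := isCompact_Icc.ultrafilter_le_nhds _ h1
  exact ⟨y, hy'⟩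

/-- limit of the touching probability of `⌊t n⌋` points starting at `⌈α n⌉` -/
noncomputable def aL (V : Ultrafilter (ℕ × ℕ)) (F : ℕ → ℕ → Set ℕ → ℝ) (α t : ℝ) : ℝ :=
  vlim V fun p => F p.1 p.2 (Ico ⌈α * p.1⌉₊ (⌈α * p.1⌉₊ + ⌊t * p.1⌋₊))

/-- limit of the touching probability of a block -/
noncomputable def bL (V : Ultrafilter (ℕ × ℕ)) (F : ℕ → ℕ → Set ℕ → ℝ) (N j : ℕ) : ℝ :=
  vlim V fun p => F p.1 p.2 (intArc p.1 N j)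

/-- the rectangles along `l` become large and long -/
def Tall (l : Filter (ℕ × ℕ)) : Prop := ∀ K : ℕ, ∀ᶠ p in l, K ≤ p.1 ∧ K * p.1 ≤ p.2

variable {l : Filter (ℕ × ℕ)} {Φ : ℝ → ℝ} {hi : ℝ} {R : ℝ → ℝ → ℝ} {F : ℕ → ℕ → Set ℕ → ℝ}
  {V : Ultrafilter (ℕ × ℕ)}

theorem Tall.large (hl : Tall l) (x : ℝ) : ∀ᶠ p in l, x ≤ (p.1 : ℝ) := by
  filter_upwards [hl ⌈x⌉₊] with p hp
  exact (Nat.le_ceil x).trans (by exact_mod_cast hp.1)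

theorem Tall.long (hl : Tall l) (x : ℝ) : ∀ᶠ p in l, x * (p.1 : ℝ) ≤ (p.2 : ℝ) := by
  filter_upwards [hl ⌈x⌉₊] with p hp
  have h1 : (⌈x⌉₊ : ℝ) * p.1 ≤ p.2 := by exact_mod_cast hp.2
  have h2 := mul_le_mul_of_nonneg_right (Nat.le_ceil x) (Nat.cast_nonneg p.1 : (0 : ℝ) ≤ p.1)
  linarith

theorem ico_sub_real {n : ℕ} {α t : ℝ} (ht : 0 ≤ t) (hα : 0 ≤ α) :
    Ico ⌈α * n⌉₊ (⌈α * n⌉₊ + ⌊t * n⌋₊) ⊆ realArc n α (α + t) := by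
  intro z hz
  have h1 : ((⌈α * n⌉₊ : ℕ) : ℝ) ≤ z := by exact_mod_cast hz.1
  have h2 : (z : ℝ) + 1 ≤ (⌈α * n⌉₊ : ℕ) + (⌊t * n⌋₊ : ℕ) := by exact_mod_cast hz.2
  have h3 := Nat.le_ceil (α * (n : ℝ))
  have h4 := Nat.ceil_lt_add_one (mul_nonneg hα (Nat.cast_nonneg n) : 0 ≤ α * (n : ℝ))
  have h5 := Nat.floor_le (mul_nonneg ht (Nat.cast_nonneg n) : 0 ≤ t * (n : ℝ))
  exact ⟨by linarith, by nlinarith⟩

theorem real_sub_ico {n : ℕ} {α t a b : ℝ} (ht : 0 ≤ t) (hα : 0 ≤ α) (ha : 1 ≤ (a - α) * n)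
    (hb : 1 ≤ (α + t - b) * n) :
    realArc n a b ⊆ Ico ⌈α * n⌉₊ (⌈α * n⌉₊ + ⌊t * n⌋₊) := by
  intro z hz
  obtain ⟨h1, h2⟩ := hz
  have h3 := Nat.le_ceil (α * (n : ℝ))
  have h4 := Nat.ceil_lt_add_one (mul_nonneg hα (Nat.cast_nonneg n) : 0 ≤ α * (n : ℝ))
  have h5 := Nat.lt_floor_add_one (t * (n : ℝ))
  constructor
  · have : ((⌈α * n⌉₊ : ℕ) : ℝ) ≤ z := by nlinarith
    exact_mod_cast this
  · have : (z : ℝ) < (⌈α * n⌉₊ : ℕ) + (⌊t * n⌋₊ : ℕ) := by nlinarith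
    exact_mod_cast this

section fam

variable (hV : (V : Filter _) ≤ l) (hl : Tall l) (hF : ∀ n M, Monotone (F n M))
  (hF1 : ∀ n M S, 0 ≤ F n M S ∧ F n M S ≤ 1) (hC : ConvTo l Φ hi R F)

include hV hl hF hF1 hC

theorem aL_ge {α t a b : ℝ} (hα : 0 ≤ α) (ht : 0 ≤ t) (ha : α < a) (hab : a < b) (hb : b < α + t)
    (hbi : b < hi) : Φ (R a b) ≤ aL V F α t := by
  obtain ⟨b', hb1, hb2⟩ := exists_between (lt_min hb hbi)
  obtain ⟨a', ha1, ha2⟩ := exists_between ha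
  apply le_of_forall_pos_le_add
  intro ε hε
  have h1 := (hC a b a' b' (by linarith) ha2 hab hb1 (hb2.trans_le (min_le_right _ _)) ε hε).2
  have hb3 : b' < α + t := hb2.trans_le (min_le_left _ _)
  have hlim := vlim_spec V (X := fun p => F p.1 p.2 (Ico ⌈α * p.1⌉₊ (⌈α * p.1⌉₊ + ⌊t * p.1⌋₊)))
    (fun p => hF1 _ _ _)
  have key : Φ (R a b) - ε ≤ aL V F α t := by
    refine ge_of_tendsto hlim (hV ?_)
    filter_upwards [h1, hl.large (1 / (a' - α)), hl.large (1 / (α + t - b'))] with p hp h2 h3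
    refine hp.trans (hF _ _ (real_sub_ico ht hα ?_ ?_))
    · rw [div_le_iff₀ (by linarith)] at h2
      linarith
    · rw [div_le_iff₀ (by linarith)] at h3
      linarith
  linarith

theorem aL_le {α t a b : ℝ} (ha0 : 0 < a) (ht : 0 < t) (ha : a < α) (hb : α + t < b)
    (hbi : b < hi) : aL V F α t ≤ Φ (R a b) := by
  apply le_of_forall_pos_le_add
  intro ε hε
  have h1 := (hC α (α + t) a b ha0 ha (by linarith) hb hbi ε hε).1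
  have hlim := vlim_spec V (X := fun p => F p.1 p.2 (Ico ⌈α * p.1⌉₊ (⌈α * p.1⌉₊ + ⌊t * p.1⌋₊)))
    (fun p => hF1 _ _ _)
  refine le_of_tendsto hlim (hV ?_)
  filter_upwards [h1] with p hp
  exact (hF _ _ (ico_sub_real ht.le (by linarith))).trans hp

theorem bL_ge {N j : ℕ} (hN : 0 < N) {a b : ℝ} (ha : (j : ℝ) / N < a) (hab : a < b)
    (hb : b < ((j : ℝ) + 1) / N) (hbi : b < hi) : Φ (R a b) ≤ bL V F N j := by
  obtain ⟨b', hb1, hb2⟩ := exists_between (lt_min hb hbi)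
  obtain ⟨a', ha1, ha2⟩ := exists_between ha
  have hb3 : b' < ((j : ℝ) + 1) / N := hb2.trans_le (min_le_left _ _)
  have hN' : (0 : ℝ) < N := by exact_mod_cast hN
  have hj : (0 : ℝ) ≤ (j : ℝ) / N := by positivity
  apply le_of_forall_pos_le_add
  intro ε hε
  have h1 := (hC a b a' b' (by linarith) ha2 hab hb1 (hb2.trans_le (min_le_right _ _)) ε hε).2
  have hlim := vlim_spec V (X := fun p => F p.1 p.2 (intArc p.1 N j)) (fun p => hF1 _ _ _)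
  set δ := min (a' - (j : ℝ) / N) (((j : ℝ) + 1) / N - b') with hδ
  have hδ0 : 0 < δ := lt_min (by linarith) (by linarith)
  have hδ1 : δ ≤ a' - (j : ℝ) / N := min_le_left _ _
  have hδ2 : δ ≤ ((j : ℝ) + 1) / N - b' := min_le_right _ _
  have key : Φ (R a b) - ε ≤ bL V F N j := by
    refine ge_of_tendsto hlim (hV ?_)
    filter_upwards [h1, hl.large (((j : ℝ) + 1) / δ)] with p hp h2
    rw [div_le_iff₀ hδ0] at h2
    refine hp.trans (hF _ _ (Subset.trans ?_ (inner_subset hN hδ0.le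
      (by linarith : (j : ℝ) + 1 ≤ δ * p.1))))
    rintro z ⟨h3, h4⟩
    have h5 : (0 : ℝ) ≤ p.1 := Nat.cast_nonneg _
    exact ⟨by nlinarith, by nlinarith⟩
  linarith

theorem bL_le {N j : ℕ} (hN : 0 < N) {a b : ℝ} (ha0 : 0 < a) (ha : a < (j : ℝ) / N)
    (hb : ((j : ℝ) + 1) / N < b) (hbi : b < hi) : bL V F N j ≤ Φ (R a b) := by
  have hN' : (0 : ℝ) < N := by exact_mod_cast hN
  set δ := min ((j : ℝ) / N - a) (b - ((j : ℝ) + 1) / N) / 2 with hδ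
  have hm : 0 < min ((j : ℝ) / N - a) (b - ((j : ℝ) + 1) / N) := lt_min (by linarith) (by linarith)
  have hδ0 : 0 < δ := by rw [hδ]; linarith
  have hδ1 : 2 * δ ≤ (j : ℝ) / N - a := by
    have := min_le_left ((j : ℝ) / N - a) (b - ((j : ℝ) + 1) / N); rw [hδ]; linarith
  have hδ2 : 2 * δ ≤ b - ((j : ℝ) + 1) / N := by
    have := min_le_right ((j : ℝ) / N - a) (b - ((j : ℝ) + 1) / N); rw [hδ]; linarith
  have hjj : (j : ℝ) / N < ((j : ℝ) + 1) / N := div_lt_div_of_pos_right (by linarith) hN'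
  apply le_of_forall_pos_le_add
  intro ε hε
  have h1 := (hC ((j : ℝ) / N - δ) (((j : ℝ) + 1) / N + δ) a b ha0 (by linarith) (by linarith)
    (by linarith) hbi ε hε).1
  have hlim := vlim_spec V (X := fun p => F p.1 p.2 (intArc p.1 N j)) (fun p => hF1 _ _ _)
  refine le_of_tendsto hlim (hV ?_)
  filter_upwards [h1, hl.large (((j : ℝ) + 1) / δ)] with p hp h2
  rw [div_le_iff₀ hδ0] at h2
  exact (hF _ _ (outer_subset hN hδ0.le (by linarith : (j : ℝ) + 1 ≤ δ * p.1))).trans hp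

end fam

/-- Ratio inequality for arcs of the left side (helper95's `grat`). -/
def RatL (F : ℕ → ℕ → Set ℕ → ℝ) : Prop := ∀ e > 0, ∃ Λ : ℕ, 1 ≤ Λ ∧
  ∀ n M y y' k k' m : ℕ, 1 ≤ m → k ≤ m → k' ≤ m → Λ * m ≤ y → y + Λ * m ≤ M → Λ * m ≤ n →
    Λ * m ≤ y' → y' + Λ * m ≤ M →
    F n M (Ico y (y + k)) * F n M (Ico y' (y' + k')) ≤
      (1 + e) * (F n M (Ico y (y + k')) * F n M (Ico y' (y' + k)))

/-- Comparison of an arc with a subarc. -/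
def DblL (F : ℕ → ℕ → Set ℕ → ℝ) : Prop := ∀ S : ℕ, ∃ c : ℝ, 0 < c ∧ ∃ Λ : ℕ,
  ∀ n M y k m : ℕ, 1 ≤ k → k ≤ m → m ≤ S * k → Λ * m ≤ y → y + Λ * m ≤ M → Λ * m ≤ n →
    c * F n M (Ico y (y + m)) ≤ F n M (Ico y (y + k))

section two

variable (hV : (V : Filter _) ≤ l) (hl : Tall l) (hF1 : ∀ n M S, 0 ≤ F n M S ∧ F n M S ≤ 1)

include hV hl hF1

theorem aL_rat (hR : RatL F) : ∀ e > 0, ∃ Λ : ℕ, 1 ≤ Λ ∧ ∀ α α' t t' z : ℝ, 0 < z → 0 ≤ t →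
    t ≤ z → 0 ≤ t' → t' ≤ z → 0 ≤ α → 0 ≤ α' → Λ * z ≤ α → Λ * z ≤ α' → Λ * z ≤ 1 →
      aL V F α t * aL V F α' t' ≤ (1 + e) * (aL V F α t' * aL V F α' t) := by
  intro e he
  obtain ⟨Λ, hΛ, h⟩ := hR e he
  refine ⟨Λ, hΛ, fun α α' t t' z hz ht htz ht' htz' hα hα' h1 h2 h3 => ?_⟩
  have lim : ∀ α t : ℝ, Tendsto (fun p : ℕ × ℕ =>
      F p.1 p.2 (Ico ⌈α * p.1⌉₊ (⌈α * p.1⌉₊ + ⌊t * p.1⌋₊))) V (𝓝 (aL V F α t)) := fun α t =>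
    vlim_spec V fun p => hF1 _ _ _
  refine le_of_tendsto_of_tendsto ((lim α t).mul (lim α' t'))
    (((lim α t').mul (lim α' t)).const_mul (1 + e)) (hV ?_)
  filter_upwards [hl.large (1 / z), hl.large 1, hl.long (α + 3), hl.long (α' + 3)] with
    p p1 p2 p3 p4
  have hn0 : (0 : ℝ) ≤ p.1 := Nat.cast_nonneg _
  have hzn : 1 ≤ z * p.1 := by
    rw [div_le_iff₀ hz] at p1
    linarith
  have hm1 : 1 ≤ ⌊z * p.1⌋₊ := Nat.le_floor (by exact_mod_cast hzn)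
  have hfl : ((⌊z * p.1⌋₊ : ℕ) : ℝ) ≤ z * p.1 := Nat.floor_le (by linarith)
  have hΛ0 : (0 : ℝ) ≤ Λ := Nat.cast_nonneg _
  have g1 : (Λ : ℝ) * ((⌊z * p.1⌋₊ : ℕ) : ℝ) ≤ Λ * z * p.1 := by
    rw [mul_assoc]; exact mul_le_mul_of_nonneg_left hfl hΛ0
  have g2 : ∀ β : ℝ, 0 ≤ β → Λ * z ≤ β → Λ * ⌊z * p.1⌋₊ ≤ ⌈β * p.1⌉₊ := by
    intro β hβ0 hβ
    have h5 : (Λ : ℝ) * ((⌊z * p.1⌋₊ : ℕ) : ℝ) ≤ ((⌈β * p.1⌉₊ : ℕ) : ℝ) := by
      have h6 := Nat.le_ceil (β * (p.1 : ℝ))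
      have h7 := mul_le_mul_of_nonneg_right hβ hn0
      linarith
    exact_mod_cast h5
  have g3 : ∀ β : ℝ, 0 ≤ β → (β + 3) * p.1 ≤ p.2 → ⌈β * p.1⌉₊ + Λ * ⌊z * p.1⌋₊ ≤ p.2 := by
    intro β hβ0 hβ
    have h5 : ((⌈β * p.1⌉₊ : ℕ) : ℝ) + (Λ : ℝ) * ((⌊z * p.1⌋₊ : ℕ) : ℝ) ≤ p.2 := by
      have h6 := Nat.ceil_lt_add_one (mul_nonneg hβ0 hn0)
      have h7 := mul_le_mul_of_nonneg_right h3 hn0
      linarith
    exact_mod_cast h5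
  have g4 : Λ * ⌊z * p.1⌋₊ ≤ p.1 := by
    have h5 : (Λ : ℝ) * ((⌊z * p.1⌋₊ : ℕ) : ℝ) ≤ p.1 := by
      have h7 := mul_le_mul_of_nonneg_right h3 hn0
      linarith
    exact_mod_cast h5
  exact h p.1 p.2 ⌈α * p.1⌉₊ ⌈α' * p.1⌉₊ ⌊t * p.1⌋₊ ⌊t' * p.1⌋₊ ⌊z * p.1⌋₊ hm1
    (Nat.floor_le_floor (mul_le_mul_of_nonneg_right htz hn0))
    (Nat.floor_le_floor (mul_le_mul_of_nonneg_right htz' hn0)) (g2 α hα h1) (g3 α hα p3) g4
    (g2 α' hα' h2) (g3 α' hα' p4)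

theorem aL_dbl (hD : DblL F) : ∀ S : ℕ, ∃ c : ℝ, 0 < c ∧ ∃ z > 0, ∀ t t' : ℝ, 0 < t →
    t ≤ t' → t' * 2 ≤ S * t → t' ≤ z → c * aL V F 1 t' ≤ aL V F 1 t := by
  intro S
  obtain ⟨c, hc, Λ, h⟩ := hD S
  have hΛ0 : (0 : ℝ) ≤ Λ := Nat.cast_nonneg _
  refine ⟨c, hc, 1 / (Λ + 1), by positivity, fun t t' ht htt hS hz => ?_⟩
  have lim : ∀ α t : ℝ, Tendsto (fun p : ℕ × ℕ =>
      F p.1 p.2 (Ico ⌈α * p.1⌉₊ (⌈α * p.1⌉₊ + ⌊t * p.1⌋₊))) V (𝓝 (aL V F α t)) := fun α t =>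
    vlim_spec V fun p => hF1 _ _ _
  refine le_of_tendsto_of_tendsto ((lim 1 t').const_mul c) (lim 1 t) (hV ?_)
  have hS0 : (0 : ℝ) ≤ S := Nat.cast_nonneg _
  filter_upwards [hl.large (2 / t), hl.large 1, hl.long 4] with p p1 p2 p3
  have hn0 : (0 : ℝ) ≤ p.1 := Nat.cast_nonneg _
  have htn : 2 ≤ t * p.1 := by
    rw [div_le_iff₀ ht] at p1
    linarith
  have hk1 : 1 ≤ ⌊t * p.1⌋₊ := Nat.le_floor (by push_cast; linarith)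
  have hz' : Λ * t' ≤ 1 := by
    rw [le_div_iff₀ (by positivity)] at hz
    nlinarith
  have hfl : ((⌊t' * p.1⌋₊ : ℕ) : ℝ) ≤ t' * p.1 := Nat.floor_le (by nlinarith)
  have hfl2 := Nat.lt_floor_add_one (t * (p.1 : ℝ))
  have g1 : (Λ : ℝ) * ((⌊t' * p.1⌋₊ : ℕ) : ℝ) ≤ p.1 := by
    have h5 := mul_le_mul_of_nonneg_left hfl hΛ0
    have h6 := mul_le_mul_of_nonneg_right hz' hn0
    nlinarith
  have g1' : Λ * ⌊t' * p.1⌋₊ ≤ p.1 := by exact_mod_cast g1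
  have hc1 : ((⌈(1 : ℝ) * p.1⌉₊ : ℕ)) = p.1 := by rw [one_mul, Nat.ceil_natCast]
  refine h p.1 p.2 ⌈(1 : ℝ) * p.1⌉₊ ⌊t * p.1⌋₊ ⌊t' * p.1⌋₊ hk1
    (Nat.floor_le_floor (mul_le_mul_of_nonneg_right htt hn0)) ?_ ?_ ?_ g1'
  · have h5 : ((⌊t' * p.1⌋₊ : ℕ) : ℝ) ≤ S * ((⌊t * p.1⌋₊ : ℕ) : ℝ) := by
      have h6 : t' * p.1 * 2 ≤ S * t * p.1 := by
        have := mul_le_mul_of_nonneg_right hS hn0
        linarith
      have h7 : t * p.1 ≤ 2 * ((⌊t * p.1⌋₊ : ℕ) : ℝ) := by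
        have h8 : (1 : ℝ) ≤ ((⌊t * p.1⌋₊ : ℕ) : ℝ) := by exact_mod_cast hk1
        linarith
      have h9 := mul_le_mul_of_nonneg_left h7 hS0
      nlinarith
    exact_mod_cast h5
  · rw [hc1]; exact g1'
  · rw [hc1]
    have h5 : (4 : ℝ) * p.1 ≤ p.2 := p3
    have h6 : 4 * p.1 ≤ p.2 := by exact_mod_cast h5
    omega

end two

end IDK
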