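/-
helper98, 3 Dec 2026.  MP_b3e76a_pr, project IDK, part G: the limit function of the touching
probabilities satisfies `FData`.
-/
import Pool.Agent.IDK.GLim
import Mathlib.Analysis.SpecialFunctions.Artanh

namespace IDK

open Real Filter Topology Set MeasureTheory

/-- a position on the left side with given `tanh ^ 2` -/
theorem exists_tanh {s : ℝ} (h0 : 0 < s) (h1 : s < 1) : ∃ a : ℝ, 0 < a ∧ tanh (π * a / 2) ^ 2 = s := by
  have hs0 : 0 < √s := sqrt_pos.2 h0
  have hs1 : √s < 1 := by rw [sqrt_lt' one_pos]; linarith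
  have hmem : √s ∈ Ioo (-1 : ℝ) 1 := ⟨by linarith, hs1⟩
  have hpos : 0 < artanh √s := by
    have := strictMonoOn_artanh (⟨by norm_num, by norm_num⟩ : (0 : ℝ) ∈ Ioo (-1 : ℝ) 1) hmem hs0
    rwa [artanh_zero] at this
  refine ⟨2 / π * artanh √s, by positivity, ?_⟩
  have : π * (2 / π * artanh √s) / 2 = artanh √s := by field_simp
  rw [this, tanh_artanh hmem, sq_sqrt h0.le]

theorem tanh_sq_lt {a b : ℝ} (ha : 0 < a) (hb : 0 < b)
    (h : tanh (π * a / 2) ^ 2 < tanh (π * b / 2) ^ 2) : a < b := by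
  by_contra hcon
  rw [not_lt] at hcon
  have h1 : tanh (π * b / 2) ≤ tanh (π * a / 2) := by
    refine (artanh_le_artanh_iff ⟨neg_one_lt_tanh _, tanh_lt_one _⟩
      ⟨neg_one_lt_tanh _, tanh_lt_one _⟩).1 ?_
    rw [artanh_tanh, artanh_tanh]
    have := pi_pos
    nlinarith
  have h2 : 0 ≤ tanh (π * b / 2) := by
    rw [tanh_eq_sinh_div_cosh]
    exact div_nonneg (sinh_nonneg_iff.2 (by positivity)) (cosh_pos _).le
  have := pow_le_pow_left₀ h2 h1 2
  linarith

/-- nested arcs with given cross-ratios -/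
theorem nested_arcs {x y : ℝ} (hx : 0 < x) (hxy : x < y) (hy : y < 1) :
    ∃ a b a' b' : ℝ, 0 < a' ∧ a' < a ∧ a < b ∧ b < b' ∧ sideRatio a b = 1 - x ∧
      sideRatio a' b' = 1 - y := by
  obtain ⟨s', hs1, hs2⟩ := exists_between (show (1 : ℝ) / 2 < min 1 ((1 - x) / (2 * (1 - y))) by
    apply lt_min (by norm_num)
    rw [div_lt_div_iff₀ (by norm_num) (by linarith)]
    linarith)
  have hs3 : s' < 1 := hs2.trans_le (min_le_left _ _)
  have hs4 : s' < (1 - x) / (2 * (1 - y)) := hs2.trans_le (min_le_right _ _)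
  rw [lt_div_iff₀ (by linarith)] at hs4
  obtain ⟨b', hb', eb'⟩ := exists_tanh (by linarith : 0 < s') hs3
  obtain ⟨b, hb, eb⟩ := exists_tanh (by norm_num : (0 : ℝ) < 1 / 2) (by norm_num)
  obtain ⟨a, ha, ea⟩ := exists_tanh (by linarith : 0 < (1 - x) / 2) (by linarith)
  obtain ⟨a', ha', ea'⟩ := exists_tanh (by nlinarith : 0 < (1 - y) * s') (by nlinarith)
  refine ⟨a, b, a', b', ha', tanh_sq_lt ha' ha (by rw [ea, ea']; nlinarith),
    tanh_sq_lt ha hb (by rw [ea, eb]; linarith), tanh_sq_lt hb hb' (by rw [eb, eb']; linarith),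
    ?_, ?_⟩
  · rw [sideRatio, div_pow, ea, eb]; ring
  · rw [sideRatio, div_pow, ea', eb']; field_simp

/-- a position on the left side with given density -/
theorem exists_dens {g : ℝ} (hg : 0 < g) : ∃ a : ℝ, 0 < a ∧ 2 * π / sinh (π * a) = g := by
  have h1 : 0 < 2 * π / g := by positivity
  refine ⟨arsinh (2 * π / g) / π, div_pos (arsinh_pos_iff.2 h1) pi_pos, ?_⟩
  have : π * (arsinh (2 * π / g) / π) = arsinh (2 * π / g) := by field_simp
  rw [this, sinh_arsinh]
  field_simp

theorem side_est {p q : ℝ} (hp : 0 < p) {θ : ℝ} (hθ : 1 < θ) :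
    ∃ z > 0, ∀ a b ξ, p ≤ a → a < b → b ≤ q → p ≤ ξ → ξ ≤ q → b - a < z → |ξ - a| < z →
      2 * π / sinh (π * ξ) * (b - a) / θ ≤ 1 - sideRatio a b ∧
      1 - sideRatio a b ≤ θ * (2 * π / sinh (π * ξ)) * (b - a) ∧ 1 - sideRatio a b < 1 ∧
        0 < 1 - sideRatio a b :=
  arc_est (continuousOn_side hp) (fun x hx => div_pos (by positivity)
    (sinh_pos_iff.2 (mul_pos pi_pos (hp.trans_le hx.1)))) sideRatio
    (fun _ _ ha hab _ => sideRatio_eq (hp.trans_le ha) hab) hθ

theorem bottom_est {p q : ℝ} (hp : 0 < p) (hq : q < 1) {θ : ℝ} (hθ : 1 < θ) :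
    ∃ z > 0, ∀ a b ξ, p ≤ a → a < b → b ≤ q → p ≤ ξ → ξ ≤ q → b - a < z → |ξ - a| < z →
      2 * π / sin (π * ξ) * (b - a) / θ ≤ 1 - bottomRatio a b ∧
      1 - bottomRatio a b ≤ θ * (2 * π / sin (π * ξ)) * (b - a) ∧ 1 - bottomRatio a b < 1 ∧
        0 < 1 - bottomRatio a b :=
  arc_est (continuousOn_bottom hp hq) (fun x hx => div_pos (by positivity)
    (sin_pi_mul_pos (hp.trans_le hx.1) (hx.2.trans_lt hq))) bottomRatio
    (fun _ _ ha hab hb => bottomRatio_eq (hp.trans_le ha) hab (hb.trans_lt hq)) hθ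

/-- the data of part G -/
structure GHyp (l : Filter (ℕ × ℕ)) (Φ : ℝ → ℝ) (q : ℝ) (FL FB : ℕ → ℕ → Set ℕ → ℝ) : Prop where
  tall : Tall l
  monoL : ∀ n M, Monotone (FL n M)
  monoB : ∀ n M, Monotone (FB n M)
  boundL : ∀ n M S, 0 ≤ FL n M S ∧ FL n M S ≤ 1
  boundB : ∀ n M S, 0 ≤ FB n M S ∧ FB n M S ≤ 1
  convL : ∀ hi, ConvTo l Φ hi sideRatio FL
  convB : ConvTo l Φ 1 bottomRatio FB
  mac : Macro q FL FB
  ratL : RatL FL
  dblL : DblL FL

variable {l : Filter (ℕ × ℕ)} {Φ : ℝ → ℝ} {q : ℝ} {FL FB : ℕ → ℕ → Set ℕ → ℝ}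
  {V : Ultrafilter (ℕ × ℕ)}

theorem GHyp.nested (h : GHyp l Φ q FL FB) (hV : (V : Filter _) ≤ l) {a b a' b' : ℝ} (h0 : 0 < a')
    (h1 : a' < a) (h2 : a < b) (h3 : b < b') : Φ (sideRatio a b) ≤ Φ (sideRatio a' b') := by
  obtain ⟨a1, k1, k2⟩ := exists_between h1
  obtain ⟨b1, k3, k4⟩ := exists_between h3
  apply le_of_forall_pos_le_add
  intro ε hε
  have e1 := (h.convL (b' + 1) a b a1 b1 (by linarith) k2 h2 k3 (by linarith) (ε / 2)
    (by linarith)).2
  have e2 := (h.convL (b' + 1) a1 b1 a' b' h0 k1 (by linarith) k4 (by linarith) (ε / 2)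
    (by linarith)).1
  obtain ⟨p, p1, p2⟩ := ((e1.filter_mono hV).and (e2.filter_mono hV)).exists
  linarith

theorem GHyp.fmono (h : GHyp l Φ q FL FB) (hV : (V : Filter _) ≤ l) {x y : ℝ} (hx : 0 < x)
    (hxy : x < y) (hy : y < 1) : Φ (1 - x) ≤ Φ (1 - y) := by
  obtain ⟨a, b, a', b', k1, k2, k3, k4, k5, k6⟩ := nested_arcs hx hxy hy
  rw [← k5, ← k6]
  exact h.nested hV k1 k2 k3 k4

theorem GHyp.fmono' (h : GHyp l Φ q FL FB) (hV : (V : Filter _) ≤ l) {x y : ℝ} (hx : 0 < x)
    (hxy : x ≤ y) (hy : y < 1) : Φ (1 - x) ≤ Φ (1 - y) := by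
  rcases eq_or_lt_of_le hxy with h1 | h1
  · rw [h1]
  · exact h.fmono hV hx h1 hy

/-- the macroscopic identity in the limit -/
theorem GHyp.macro_lim (h : GHyp l Φ q FL FB) (hV : (V : Filter _) ≤ l) : ∀ e > 0, ∃ d0 > 0,
    ∃ L0 : ℝ, ∀ d, 0 < d → d < d0 → ∀ L, L0 < L → ∃ N0 : ℕ, ∀ N ≥ N0,
      |∑ j ∈ cells d (1 - d) N, bL V FB N j - √q * ∑ j ∈ cells d L N, bL V FL N j|
          ≤ e * ∑ j ∈ cells d L N, bL V FL N j ∧
      ∀ j ∈ cells d L N, 0 < bL V FL N j := by
  intro e he
  obtain ⟨d0, hd0, L0, h1⟩ := h.mac e he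
  refine ⟨d0, hd0, L0, fun d hd hd' L hL => ?_⟩
  obtain ⟨N0, h2⟩ := h1 d hd hd' L hL
  refine ⟨N0, fun N hN => ?_⟩
  obtain ⟨n0, K, c, hc, h3⟩ := h2 N hN
  have hev : ∀ᶠ p in l, n0 ≤ p.1 ∧ K * p.1 ≤ p.2 := by
    filter_upwards [h.tall (max n0 K)] with p hp
    refine ⟨(le_max_left _ _).trans hp.1, le_trans (Nat.mul_le_mul_right _ (le_max_right _ _)) hp.2⟩
  have limL : ∀ j, Tendsto (fun p : ℕ × ℕ => FL p.1 p.2 (intArc p.1 N j)) V (𝓝 (bL V FL N j)) :=
    fun j => vlim_spec V fun p => h.boundL _ _ _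
  have limB : ∀ j, Tendsto (fun p : ℕ × ℕ => FB p.1 p.2 (intArc p.1 N j)) V (𝓝 (bL V FB N j)) :=
    fun j => vlim_spec V fun p => h.boundB _ _ _
  have sL := tendsto_finsetSum (cells d L N) fun j _ => limL j
  have sB := tendsto_finsetSum (cells d (1 - d) N) fun j _ => limB j
  constructor
  · refine le_of_tendsto_of_tendsto ((sB.sub (sL.const_mul (√q))).abs) (sL.const_mul e) (hV ?_)
    filter_upwards [hev] with p hp
    exact (h3 p.1 hp.1 p.2 hp.2).1
  · intro j hj
    refine lt_of_lt_of_le hc (ge_of_tendsto (limL j) (hV ?_))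
    filter_upwards [hev] with p hp
    exact (h3 p.1 hp.1 p.2 hp.2).2 j hj

theorem GHyp.fpos (h : GHyp l Φ q FL FB) (hV : (V : Filter _) ≤ l) {x : ℝ} (hx : 0 < x)
    (hx1 : x < 1) : 0 < Φ (1 - x) := by
  obtain ⟨d0, hd0, L0, h1⟩ := h.macro_lim hV 1 one_pos
  have hm : 0 < min d0 1 := lt_min hd0 one_pos
  obtain ⟨N0, h2⟩ := h1 (min d0 1 / 2) (by linarith) (by have := min_le_left d0 1; linarith)
    (max L0 2 + 1) (by have := le_max_left L0 2; linarith)
  obtain ⟨z, hz, hest⟩ := side_est (p := 1 / 2) (q := 3) (by norm_num) (θ := 2) (by norm_num)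
  set g := 2 * π / sinh (π * 1) with hg
  have hg0 : 0 < g := div_pos (by positivity) (sinh_pos_iff.2 (by positivity))
  obtain ⟨N1, hN1⟩ := exists_nat_gt (max (3 / z) (max (6 * g / x) 2))
  set N := max N0 N1 with hNdef
  have hNN : (N1 : ℝ) ≤ N := by exact_mod_cast le_max_right _ _
  have n1 : 3 / z < N := ((le_max_left _ _).trans_lt hN1).trans_le hNN
  have n2 : 6 * g / x < N :=
    (((le_max_left _ _).trans (le_max_right _ _)).trans_lt hN1).trans_le hNN
  have n3 : (2 : ℝ) < N :=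
    (((le_max_right _ _).trans (le_max_right _ _)).trans_lt hN1).trans_le hNN
  have hN0 : (0 : ℝ) < N := by linarith
  have hNpos : 0 < N := by exact_mod_cast hN0
  rw [div_lt_iff₀ hz] at n1
  rw [div_lt_iff₀ hx] at n2
  have hmem : N ∈ cells (min d0 1 / 2) (max L0 2 + 1) N := by
    have hL2 : (2 : ℝ) ≤ max L0 2 := le_max_right _ _
    have hd1 : min d0 1 ≤ 1 := min_le_right _ _
    rw [mem_cells (by linarith)]
    constructor
    · nlinarith
    · nlinarith
  have k1 := (h2 N (le_max_left _ _)).2 N hmem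
  have hNN1 : (N : ℝ) / N = 1 := div_self hN0.ne'
  have i1 : (1 : ℝ) / N < 1 / 2 := one_div_lt_one_div_of_lt (by norm_num) n3
  have i0 : (0 : ℝ) < 1 / N := by positivity
  have i2 : ((N : ℝ) + 1) / N = 1 + 1 / N := by field_simp
  have k2 := bL_le hV h.tall h.monoL h.boundL (h.convL 4) hNpos (a := 1 - 1 / N) (b := 1 + 2 / N)
    (j := N) (by linarith) (by rw [hNN1]; linarith) (by
      rw [i2]
      have : (2 : ℝ) / N = 1 / N + 1 / N := by ring
      linarith) (by
      have : (2 : ℝ) / N = 2 * (1 / N) := by ring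
      linarith)
  have i3 : (1 : ℝ) + 2 / N - (1 - 1 / N) = 3 / N := by ring
  have i4 : (3 : ℝ) / N < z := by rw [div_lt_iff₀ hN0]; linarith
  obtain ⟨_, k3, k4, k5⟩ := hest (1 - 1 / N) (1 + 2 / N) 1 (by linarith) (by
    have : (2 : ℝ) / N = 2 * (1 / N) := by ring
    linarith) (by
    have : (2 : ℝ) / N = 2 * (1 / N) := by ring
    linarith) (by norm_num) (by norm_num) (by rw [i3]; exact i4) (by
      rw [sub_sub_cancel, abs_of_pos i0]
      have : (3 : ℝ) / N = 3 * (1 / N) := by ring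
      linarith)
  rw [i3, ← hg] at k3
  have k6 : 2 * g * (3 / N) < x := by
    have : 2 * g * (3 / N) = 6 * g / N := by ring
    rw [this, div_lt_iff₀ hN0]
    linarith
  have k7 := h.fmono' hV k5 (k3.trans k6.le) hx1
  rw [sub_sub_cancel] at k7
  linarith

theorem GHyp.fdata (h : GHyp l Φ q FL FB) (hV : (V : Filter _) ≤ l) :
    FData (fun x => Φ (1 - x)) where
  mono x y hx hxy hy := h.fmono hV hx hxy hy
  pos x hx hx1 := h.fpos hV hx hx1
  dbl := by
    intro S hS
    obtain ⟨c, hc, z, hz, hD⟩ := aL_dbl hV h.tall h.boundL h.dblL (24 * S)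
    obtain ⟨z1, hz1, hest⟩ := side_est (p := 1 / 2) (q := 3) (by norm_num) (θ := 2) (by norm_num)
    set g := 2 * π / sinh (π * 1) with hg
    have hg0 : 0 < g := div_pos (by positivity) (sinh_pos_iff.2 (by positivity))
    have hS0 : (1 : ℝ) ≤ S := by exact_mod_cast hS
    -- the bound of t'
    set w := min z (min z1 1) with hw
    have hw0 : 0 < w := lt_min hz (lt_min hz1 one_pos)
    refine ⟨c, hc, w * g / (4 * S), by positivity, fun x hx hxz => ?_⟩
    set t := x / (3 * g) with ht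
    set t' := 4 * S * x / g with ht'
    have ht0 : 0 < t := by positivity
    have ht'0 : 0 < t' := by positivity
    have ht'w : t' < w := by
      rw [ht', div_lt_iff₀ hg0]
      rw [lt_div_iff₀ (by positivity)] at hxz
      linarith
    have ht'z : t' < z := ht'w.trans_le (min_le_left _ _)
    have ht'z1 : t' < z1 := ht'w.trans_le ((min_le_right _ _).trans (min_le_left _ _))
    have ht'1 : t' < 1 := ht'w.trans_le ((min_le_right _ _).trans (min_le_right _ _))
    have htt' : t' = 12 * S * t := by rw [ht, ht']; field_simp; ring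
    have htle : t ≤ t' := by rw [htt']; nlinarith
    have h12 : 12 * t ≤ t' := by rw [htt']; nlinarith
    have k0 := hD t t' ht0 htle (by rw [htt']; push_cast; linarith) ht'z.le
    -- upper bound of aL 1 t
    have k1 := aL_le hV h.tall h.monoL h.boundL (h.convL 4) (α := 1) (t := t) (a := 1 - t / 4)
      (b := 1 + t + t / 4) (by linarith) ht0 (by linarith) (by linarith) (by linarith)
    obtain ⟨_, k2, k3, k4⟩ := hest (1 - t / 4) (1 + t + t / 4) 1 (by linarith) (by linarith)
      (by linarith) (by norm_num) (by norm_num) (by linarith) (by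
        rw [sub_sub_cancel, abs_of_pos (by linarith)]; linarith)
    have k5 : 2 * (2 * π / sinh (π * 1)) * (1 + t + t / 4 - (1 - t / 4)) = x := by
      rw [← hg, ht]; field_simp; ring
    rw [k5] at k2
    have hxt : x = 3 * g * t := by rw [ht]; field_simp
    -- lower bound of aL 1 t'
    have k6 := aL_ge hV h.tall h.monoL h.boundL (h.convL 4) (α := 1) (t := t') (a := 1 + t' / 4)
      (b := 1 + 3 * t' / 4) (by norm_num) ht'0.le (by linarith) (by linarith) (by linarith)
      (by linarith)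
    obtain ⟨k7, _, k8, k9⟩ := hest (1 + t' / 4) (1 + 3 * t' / 4) 1 (by linarith) (by linarith)
      (by linarith) (by norm_num) (by norm_num) (by linarith) (by
        rw [sub_add_cancel_left, abs_neg, abs_of_pos (by linarith)]; linarith)
    have k10 : 2 * π / sinh (π * 1) * (1 + 3 * t' / 4 - (1 + t' / 4)) / 2 = S * x := by
      rw [← hg, ht']; field_simp; ring
    rw [k10] at k7
    have hx1 : x < 1 := by
      have : x ≤ S * x := by nlinarith
      linarith
    have m1 := h.fmono' hV k4 k2 hx1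
    have m2 := h.fmono' hV (by positivity : 0 < S * x) k7 k8
    rw [sub_sub_cancel] at m1 m2
    nlinarith
  rat := by
    intro e he θ hθ g1 hg1 g2 hg2
    obtain ⟨Λ, hΛ, hR⟩ := aL_rat hV h.tall h.boundL h.ratL e he
    obtain ⟨α1, hα1, eg1⟩ := exists_dens hg1
    obtain ⟨α2, hα2, eg2⟩ := exists_dens hg2
    have hθ0 : 0 < θ := by linarith
    set r := √θ with hr
    have hr1 : 1 < r := by rw [hr, lt_sqrt (by norm_num)]; linarith
    have hr0 : 0 < r := by linarith
    have hrr : r * r = θ := mul_self_sqrt hθ0.le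
    set τ := (1 - 1 / r) / 2 with hτ
    have hir : 1 / r < 1 := by rw [div_lt_one hr0]; exact hr1
    have hir0 : 0 < 1 / r := by positivity
    have hτ0 : 0 < τ := by rw [hτ]; linarith
    have hτ1 : τ < 1 / 2 := by rw [hτ]; linarith
    have e1 : 1 - 2 * τ = 1 / r := by rw [hτ]; ring
    have e2 : 1 + 2 * τ ≤ r := by
      have : 1 + 2 * τ = 2 - 1 / r := by rw [hτ]; ring
      rw [this]
      have : 0 ≤ (r - 1) ^ 2 / r := by positivity
      have h3 : (r - 1) ^ 2 / r = r - 2 + 1 / r := by field_simp; ring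
      linarith
    set p := min α1 α2 / 2 with hp
    set Q := max α1 α2 + 1 with hQ
    have hp0 : 0 < p := by have := lt_min hα1 hα2; rw [hp]; linarith
    obtain ⟨z1, hz1, hest⟩ := side_est (p := p) (q := Q) hp0 hr1
    have hΛ0 : (0 : ℝ) < Λ := by exact_mod_cast hΛ
    set z := min (min (z1 / 2) (1 / 2)) (min (min p (p / Λ)) (min (1 / Λ)
      (min (1 / (θ * g1)) (1 / (θ * g2))))) with hz
    have hz0 : 0 < z := by positivity
    have za : z ≤ z1 / 2 := (min_le_left _ _).trans (min_le_left _ _)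
    have zb : z ≤ 1 / 2 := (min_le_left _ _).trans (min_le_right _ _)
    have zc : z ≤ p := (min_le_right _ _).trans ((min_le_left _ _).trans (min_le_left _ _))
    have zd : z ≤ p / Λ := (min_le_right _ _).trans ((min_le_left _ _).trans (min_le_right _ _))
    have ze : z ≤ 1 / Λ := (min_le_right _ _).trans ((min_le_right _ _).trans (min_le_left _ _))
    have zf : z ≤ 1 / (θ * g1) := (min_le_right _ _).trans ((min_le_right _ _).trans
      ((min_le_right _ _).trans (min_le_left _ _)))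
    have zg : z ≤ 1 / (θ * g2) := (min_le_right _ _).trans ((min_le_right _ _).trans
      ((min_le_right _ _).trans (min_le_right _ _)))
    rw [le_div_iff₀ hΛ0] at zd ze
    -- the two estimates
    have both : ∀ α g : ℝ, 0 < g → 2 * π / sinh (π * α) = g → 2 * p ≤ α → α + 1 ≤ Q →
        z ≤ 1 / (θ * g) → ∀ x, 0 < x → x < z →
        Φ (1 - g * x / θ) ≤ aL V FL α x ∧ aL V FL α x ≤ Φ (1 - θ * g * x) := by
      intro α g hg eg hpα hαQ hzg x hx hxz
      rw [le_div_iff₀ (by positivity)] at hzg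
      have hxα : τ * x < p := by nlinarith
      have hτx : τ * x < x / 2 := by nlinarith
      have hτx0 : 0 < τ * x := by positivity
      constructor
      · have k1 := aL_ge hV h.tall h.monoL h.boundL (h.convL (Q + 1)) (α := α) (t := x)
          (a := α + τ * x) (b := α + x - τ * x) (by linarith) hx.le (by linarith) (by linarith)
          (by linarith) (by linarith)
        obtain ⟨k2, _, k3, k4⟩ := hest (α + τ * x) (α + x - τ * x) α (by linarith) (by linarith)
          (by linarith) (by linarith) (by linarith) (by linarith) (by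
            rw [sub_add_cancel_left, abs_neg, abs_of_pos hτx0]; linarith)
        have k5 : 2 * π / sinh (π * α) * (α + x - τ * x - (α + τ * x)) / r = g * x / θ := by
          have : α + x - τ * x - (α + τ * x) = (1 - 2 * τ) * x := by ring
          rw [eg, this, e1, ← hrr]
          field_simp
        rw [k5] at k2
        have m := h.fmono' hV (by positivity : 0 < g * x / θ) k2 k3
        rw [sub_sub_cancel] at m
        exact m.trans k1
      · have k1 := aL_le hV h.tall h.monoL h.boundL (h.convL (Q + 1)) (α := α) (t := x)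
          (a := α - τ * x) (b := α + x + τ * x) (by linarith) hx (by linarith) (by linarith)
          (by linarith)
        obtain ⟨_, k2, k3, k4⟩ := hest (α - τ * x) (α + x + τ * x) α (by linarith) (by linarith)
          (by linarith) (by linarith) (by linarith) (by linarith) (by
            rw [sub_sub_cancel, abs_of_pos hτx0]; linarith)
        have k5 : r * (2 * π / sinh (π * α)) * (α + x + τ * x - (α - τ * x)) ≤ θ * g * x := by
          have : α + x + τ * x - (α - τ * x) = (1 + 2 * τ) * x := by ring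
          rw [eg, this, ← hrr]
          have h5 : r * g * ((1 + 2 * τ) * x) ≤ r * g * (r * x) := by gcongr
          calc r * g * ((1 + 2 * τ) * x) ≤ r * g * (r * x) := h5
            _ = r * r * g * x := by ring
        have hlt : θ * g * x < 1 := by
          have : θ * g * x < θ * g * z := mul_lt_mul_of_pos_left hxz (by positivity)
          linarith
        have m := h.fmono' hV k4 (k2.trans k5) hlt
        rw [sub_sub_cancel] at m
        exact k1.trans m
    refine ⟨z, hz0, fun x x2 hx hxz hx2 hx2z => ?_⟩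
    have hp1 : 2 * p ≤ α1 := by have := min_le_left α1 α2; rw [hp]; linarith
    have hp2 : 2 * p ≤ α2 := by have := min_le_right α1 α2; rw [hp]; linarith
    have hQ1 : α1 + 1 ≤ Q := by have := le_max_left α1 α2; rw [hQ]; linarith
    have hQ2 : α2 + 1 ≤ Q := by have := le_max_right α1 α2; rw [hQ]; linarith
    have b1 := both α1 g1 hg1 eg1 hp1 hQ1 zf
    have b2 := both α2 g2 hg2 eg2 hp2 hQ2 zg
    have key := hR α1 α2 x x2 z hz0 hx.le hxz.le hx2.le hx2z.le hα1.le hα2.le (by linarith)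
      (by linarith) (by linarith)
    have pos1 : ∀ g y : ℝ, 0 < g → z ≤ 1 / (θ * g) → 0 < y → y < z → 0 < Φ (1 - g * y / θ) := by
      intro g y hg hzg hy hyz
      rw [le_div_iff₀ (by positivity)] at hzg
      apply h.fpos hV (by positivity)
      rw [div_lt_one hθ0]
      have h5 : g * y < g * z := mul_lt_mul_of_pos_left hyz hg
      have h6 : g * z ≤ θ * g * z := by
        have : 0 < g * z := by positivity
        nlinarith
      linarith
    have q1 := pos1 g1 x hg1 zf hx hxz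
    have q2 := pos1 g2 x2 hg2 zg hx2 hx2z
    have q3 := pos1 g1 x2 hg1 zf hx2 hx2z
    have q4 := pos1 g2 x hg2 zg hx hxz
    calc Φ (1 - g1 * x / θ) * Φ (1 - g2 * x2 / θ) ≤ aL V FL α1 x * aL V FL α2 x2 :=
          mul_le_mul (b1 x hx hxz).1 (b2 x2 hx2 hx2z).1 q2.le (q1.le.trans (b1 x hx hxz).1)
      _ ≤ (1 + e) * (aL V FL α1 x2 * aL V FL α2 x) := key
      _ ≤ (1 + e) * (Φ (1 - θ * g1 * x2) * Φ (1 - θ * g2 * x)) := by
          apply mul_le_mul_of_nonneg_left _ (by linarith)
          exact mul_le_mul (b1 x2 hx2 hx2z).2 (b2 x hx hxz).2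
            (q4.le.trans (b2 x hx hxz).1)
            ((q3.le.trans (b1 x2 hx2 hx2z).1).trans (b1 x2 hx2 hx2z).2)

end IDK
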