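/-
helper98, 3 Dec 2026.  MP_b3e76a_pr, project IDK, part G: sums of limits of touching probabilities of
short arcs, normalised by `N f (1 / N)`, converge to integrals.
-/
import Pool.Agent.IDK.GData

namespace IDK

open Real Filter Topology Set MeasureTheory

variable {l : Filter (ℕ × ℕ)} {Φ : ℝ → ℝ} {hi : ℝ} {R : ℝ → ℝ → ℝ} {F : ℕ → ℕ → Set ℕ → ℝ}
  {V : Ultrafilter (ℕ × ℕ)}

/-- Bounds of the block probabilities. -/
theorem block_bounds (hV : (V : Filter _) ≤ l) (hl : Tall l) (hF : ∀ n M, Monotone (F n M))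
    (hF1 : ∀ n M S, 0 ≤ F n M S ∧ F n M S ≤ 1) (hC : ConvTo l Φ hi R F)
    (hf : FData (fun x => Φ (1 - x))) {g : ℝ → ℝ} {p d L q : ℝ} (hp : 0 < p) (hpd : p < d)
    (hdL : d ≤ L) (hLq : L < q) (hq : q < hi) (hg : ContinuousOn g (Icc p q))
    (hpos : ∀ x ∈ Icc p q, 0 < g x)
    (hR : ∀ a b, p ≤ a → a ≤ b → b ≤ q → R a b = exp (-∫ x in a..b, g x)) {θ : ℝ} (hθ : 1 < θ) :
    ∀ᶠ N : ℕ in atTop, ∀ j ∈ cells d L N,
      Φ (1 - g ((j : ℝ) / N) / θ / N) ≤ bL V F N j ∧
      bL V F N j ≤ Φ (1 - θ * g ((j : ℝ) / N) / N) := by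
  have hθ0 : 0 < θ := by linarith
  set r := √θ with hr
  have hr1 : 1 < r := by rw [hr, lt_sqrt (by norm_num)]; linarith
  have hr0 : 0 < r := by linarith
  have hrr : r * r = θ := mul_self_sqrt hθ0.le
  set τ := (1 - 1 / r) / 2 with hτ
  have hir : 1 / r < 1 := by rw [div_lt_one hr0]; exact hr1
  have hir0 : 0 < 1 / r := by positivity
  have hτ0 : 0 < τ := by rw [hτ]; linarith
  have hτ1 : τ < 1 / 2 := by rw [hτ]; linarith
  have e1 : 1 - 2 * τ = 1 / r := by rw [hτ]; ring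
  have e2 : 1 + 2 * τ ≤ r := by
    have : 1 + 2 * τ = 2 - 1 / r := by rw [hτ]; ring
    rw [this]
    have : 0 ≤ (r - 1) ^ 2 / r := by positivity
    have h3 : (r - 1) ^ 2 / r = r - 2 + 1 / r := by field_simp; ring
    linarith
  obtain ⟨z1, hz1, hest⟩ := arc_est hg hpos R hR hr1
  obtain ⟨M, hM⟩ := isCompact_Icc.exists_bound_of_continuousOn hg
  have hM1 : 0 < max M 1 := lt_max_of_lt_right one_pos
  filter_upwards [ev_small 2 hz1, ev_small 2 (sub_pos.2 hpd), ev_small 2 (sub_pos.2 hLq),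
    ev_small (θ * max M 1) one_pos, eventually_gt_atTop 0] with N h1 h2 h3 h4 h5 j hj
  have hN : (0 : ℝ) < N := by exact_mod_cast h5
  obtain ⟨c1, c2, c3⟩ := cells_div (by linarith) h5 hj
  have i0 : (0 : ℝ) < 1 / N := by positivity
  have i1 : ((j : ℝ) + 1) / N = j / N + 1 / N := by ring
  have i2 : (2 : ℝ) / N = 2 * (1 / N) := by ring
  rw [i2] at h1 h2 h3
  set x := (j : ℝ) / N with hx
  set w := (1 : ℝ) / N with hw
  rw [i1] at c2 c3
  have hτw : τ * w < w / 2 := by nlinarith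
  have hτw0 : 0 < τ * w := by positivity
  have hxpq : x ∈ Icc p q := ⟨by linarith, by linarith⟩
  have hgx := hpos x hxpq
  have hgM : g x ≤ max M 1 := ((le_abs_self _).trans (hM x hxpq)).trans (le_max_left _ _)
  constructor
  · have k1 := bL_ge hV hl hF hF1 hC h5 (j := j) (a := x + τ * w) (b := x + w - τ * w)
      (by rw [← hx]; linarith) (by linarith) (by rw [i1]; linarith) (by linarith)
    obtain ⟨k2, _, k3, k4⟩ := hest (x + τ * w) (x + w - τ * w) x (by linarith) (by linarith)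
      (by linarith) (by linarith) (by linarith) (by linarith) (by
        rw [sub_add_cancel_left, abs_neg, abs_of_pos hτw0]; linarith)
    have k5 : g x * (x + w - τ * w - (x + τ * w)) / r = g x / θ / N := by
      have : x + w - τ * w - (x + τ * w) = (1 - 2 * τ) * w := by ring
      rw [this, e1, ← hrr, hw]
      field_simp
    rw [k5] at k2
    have m := hf.mono' (by positivity : 0 < g x / θ / N) k2 k3
    simp only [sub_sub_cancel] at m
    exact m.trans k1
  · have k1 := bL_le hV hl hF hF1 hC h5 (j := j) (a := x - τ * w) (b := x + w + τ * w)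
      (by linarith) (by rw [← hx]; linarith) (by rw [i1]; linarith) (by linarith)
    obtain ⟨_, k2, k3, k4⟩ := hest (x - τ * w) (x + w + τ * w) x (by linarith) (by linarith)
      (by linarith) (by linarith) (by linarith) (by linarith) (by
        rw [sub_sub_cancel, abs_of_pos hτw0]; linarith)
    have k5 : r * g x * (x + w + τ * w - (x - τ * w)) ≤ θ * g x / N := by
      have : x + w + τ * w - (x - τ * w) = (1 + 2 * τ) * w := by ring
      rw [this, ← hrr]
      calc r * g x * ((1 + 2 * τ) * w) ≤ r * g x * (r * w) := by gcongr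
        _ = r * r * g x / N := by rw [hw]; ring
    have hlt : θ * g x / N < 1 := by
      refine lt_of_le_of_lt ?_ h4
      gcongr
    have m := hf.mono' k4 (k2.trans k5) hlt
    simp only [sub_sub_cancel] at m
    exact k1.trans m

theorem sum_tendsto (hV : (V : Filter _) ≤ l) (hl : Tall l) (hF : ∀ n M, Monotone (F n M))
    (hF1 : ∀ n M S, 0 ≤ F n M S ∧ F n M S ≤ 1) (hC : ConvTo l Φ hi R F)
    (hf : FData (fun x => Φ (1 - x))) {g : ℝ → ℝ} {p d L q : ℝ} (hp : 0 < p) (hpd : p < d)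
    (hdL : d < L) (hLq : L < q) (hq : q < hi) (hg : ContinuousOn g (Icc p q))
    (hpos : ∀ x ∈ Icc p q, 0 < g x)
    (hR : ∀ a b, p ≤ a → a ≤ b → b ≤ q → R a b = exp (-∫ x in a..b, g x))
    {U : Filter ℕ} (hU : U ≤ atTop) {h : ℝ} (hh : 0 ≤ h)
    (hlim : ∀ l : ℝ, 0 < l →
      Tendsto (fun N : ℕ => Φ (1 - l / N) / Φ (1 - 1 / N)) U (𝓝 (l ^ h))) :
    Tendsto (fun N : ℕ => (∑ j ∈ cells d L N, bL V F N j) / (N * Φ (1 - 1 / N))) U
      (𝓝 (∫ x in d..L, g x ^ h)) := by
  have hsub : Icc d L ⊆ Icc p q := Icc_subset_Icc hpd.le hLq.le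
  have hgc : ContinuousOn (fun x => g x ^ h) (Icc d L) :=
    (hg.mono hsub).rpow_const (fun x hx => Or.inl (hpos x (hsub hx)).ne')
  have hR1 := (riemann (by linarith) hdL hgc (fun N j => (j : ℝ) / N) (fun N j hN hj => by
    have hN' : (0 : ℝ) < N := by exact_mod_cast hN
    exact ⟨le_rfl, (div_lt_div_of_pos_right (by linarith) hN').le⟩)).mono_left hU
  set I := ∫ x in d..L, g x ^ h with hI
  have hI0 : 0 ≤ I := intervalIntegral.integral_nonneg hdL.le
    (fun x hx => rpow_nonneg (hpos x (hsub hx)).le _)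
  -- extrema of g
  obtain ⟨M, hM⟩ := isCompact_Icc.exists_bound_of_continuousOn hg
  obtain ⟨x0, hx0, hmin⟩ := isCompact_Icc.exists_isMinOn (nonempty_Icc.2 (by linarith : p ≤ q)) hg
  set m := g x0 with hm
  have hm0 : 0 < m := hpos x0 hx0
  have hM1 : 0 < max M 1 := lt_max_of_lt_right one_pos
  -- two-sided bounds for every θ
  have hb : ∀ θ > 1, ∀ᶠ N : ℕ in U,
      θ⁻¹ * (θ⁻¹) ^ h * ((∑ j ∈ cells d L N, g ((j : ℝ) / N) ^ h) / N) ≤
        (∑ j ∈ cells d L N, bL V F N j) / (N * Φ (1 - 1 / N)) ∧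
      (∑ j ∈ cells d L N, bL V F N j) / (N * Φ (1 - 1 / N)) ≤
        θ * θ ^ h * ((∑ j ∈ cells d L N, g ((j : ℝ) / N) ^ h) / N) := by
    intro θ hθ
    have hθ0 : 0 < θ := by linarith
    have u1 := unif_ratio hf hU hh hlim (a := m / θ) (b := θ * max M 1) (by positivity) hθ
    have u2 := hU (block_bounds hV hl hF hF1 hC hf hp hpd hdL.le hLq hq hg hpos hR hθ)
    filter_upwards [u1, u2, hU (eventually_gt_atTop 1)] with N h1 h2 h3
    have hN1 : (1 : ℝ) < N := by exact_mod_cast h3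
    have hN : (0 : ℝ) < N := by linarith
    have hNpos : 0 < N := by exact_mod_cast hN
    have f1 : 0 < Φ (1 - 1 / N) := hf.pos (1 / N) (by positivity) (by
      rw [div_lt_one hN]; exact hN1)
    have hterm : ∀ j ∈ cells d L N,
        θ⁻¹ * (θ⁻¹) ^ h * (g ((j : ℝ) / N) ^ h) * Φ (1 - 1 / N) ≤ bL V F N j ∧
        bL V F N j ≤ θ * θ ^ h * (g ((j : ℝ) / N) ^ h) * Φ (1 - 1 / N) := by
      intro j hj
      obtain ⟨c1, c2, c3⟩ := cells_div (by linarith) hNpos hj
      have hx : (j : ℝ) / N ∈ Icc p q := ⟨by linarith, by linarith⟩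
      have hgx := hpos _ hx
      have hgM : g ((j : ℝ) / N) ≤ max M 1 :=
        ((le_abs_self _).trans (hM _ hx)).trans (le_max_left _ _)
      have hgm : m ≤ g ((j : ℝ) / N) := hmin hx
      obtain ⟨b1, b2⟩ := h2 j hj
      have hg1 : g ((j : ℝ) / N) / θ ≤ g ((j : ℝ) / N) := div_le_self hgx.le hθ.le
      have hg2 : g ((j : ℝ) / N) ≤ θ * g ((j : ℝ) / N) := le_mul_of_one_le_left hgx.le hθ.le
      have hM2 : max M 1 ≤ θ * max M 1 := le_mul_of_one_le_left hM1.le hθ.le
      have hm2 : m / θ ≤ m := div_le_self hm0.le hθ.le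
      have r1 := (h1 (g ((j : ℝ) / N) / θ) (by gcongr) (by linarith)).1
      have r2 := (h1 (θ * g ((j : ℝ) / N)) (by linarith) (by gcongr)).2
      constructor
      · refine le_trans (le_of_eq ?_) (r1.trans b1)
        rw [div_rpow hgx.le hθ0.le, inv_rpow hθ0.le]
        field_simp
      · refine (b2.trans r2).trans (le_of_eq ?_)
        rw [mul_rpow hθ0.le hgx.le]
        ring
    constructor
    · rw [le_div_iff₀ (by positivity)]
      calc θ⁻¹ * (θ⁻¹) ^ h * ((∑ j ∈ cells d L N, g ((j : ℝ) / N) ^ h) / N) *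
            (N * Φ (1 - 1 / N))
          = ∑ j ∈ cells d L N, θ⁻¹ * (θ⁻¹) ^ h * (g ((j : ℝ) / N) ^ h) * Φ (1 - 1 / N) := by
            rw [← Finset.sum_mul, ← Finset.mul_sum]
            field_simp
        _ ≤ _ := Finset.sum_le_sum fun j hj => (hterm j hj).1
    · rw [div_le_iff₀ (by positivity)]
      calc ∑ j ∈ cells d L N, bL V F N j
          ≤ ∑ j ∈ cells d L N, θ * θ ^ h * (g ((j : ℝ) / N) ^ h) * Φ (1 - 1 / N) :=
            Finset.sum_le_sum fun j hj => (hterm j hj).2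
        _ = _ := by
            rw [← Finset.sum_mul, ← Finset.mul_sum]
            field_simp
  -- conclusion
  rw [Metric.tendsto_nhds]
  intro ε hε
  -- choose θ
  have t1 : Tendsto (fun θ : ℝ => θ * θ ^ h * I) (𝓝 1) (𝓝 I) := by
    have : ContinuousAt (fun θ : ℝ => θ * θ ^ h * I) 1 := by
      apply ContinuousAt.mul _ continuousAt_const
      exact continuousAt_id.mul (continuousAt_id.rpow_const (Or.inl one_ne_zero))
    have h1 := this.tendsto
    simpa using h1
  have t2 : Tendsto (fun θ : ℝ => θ⁻¹ * (θ⁻¹) ^ h * I) (𝓝 1) (𝓝 I) := by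
    have hinv : ContinuousAt (fun θ : ℝ => θ⁻¹) 1 := continuousAt_inv₀ one_ne_zero
    have : ContinuousAt (fun θ : ℝ => θ⁻¹ * (θ⁻¹) ^ h * I) 1 := by
      apply ContinuousAt.mul _ continuousAt_const
      exact hinv.mul (hinv.rpow_const (Or.inl (by norm_num)))
    have h1 := this.tendsto
    simpa using h1
  have ev1 := (t1.eventually (gt_mem_nhds (by linarith : I < I + ε / 2))).filter_mono
    (nhdsWithin_le_nhds (s := Ioi 1))
  have ev2 := (t2.eventually (lt_mem_nhds (by linarith : I - ε / 2 < I))).filter_mono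
    (nhdsWithin_le_nhds (s := Ioi 1))
  obtain ⟨θ, ⟨k1, k2⟩, hθ⟩ := ((ev1.and ev2).and self_mem_nhdsWithin).exists
  have hθ1 : 1 < θ := hθ
  have l1 := hR1.const_mul (θ * θ ^ h)
  have l2 := hR1.const_mul (θ⁻¹ * (θ⁻¹) ^ h)
  filter_upwards [hb θ hθ1, l1.eventually (gt_mem_nhds (by linarith : θ * θ ^ h * I < I + ε)),
    l2.eventually (lt_mem_nhds (by linarith : I - ε < θ⁻¹ * (θ⁻¹) ^ h * I))] with N h1 h2 h3
  rw [Real.dist_eq, abs_lt]
  constructor <;> linarith [h1.1, h1.2]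

end IDK
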