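/-
helper98, 3 Dec 2026.  MP_b3e76a_pr, project IDK, part G: the exponent is determined by the
balance of the two integrals.
-/
import Pool.Agent.IDK.GSum

namespace IDK

open Real Filter Topology Set MeasureTheory

/-- the exponent of part G -/
noncomputable def gExp (q : ℝ) : ℝ := 2 / π * arcsin (√q / 2)

theorem sinh_le_two_pi {y : ℝ} (h0 : 0 < y) (h1 : y ≤ 1 / 4) : sinh (π * y) ≤ 2 * π := by
  have h2 : π * y ≤ 1 := by nlinarith [pi_le_four]
  have h3 : sinh (π * y) ≤ sinh 1 := sinh_le_sinh.2 h2
  have h4 : sinh 1 ≤ exp 1 / 2 := by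
    rw [sinh_eq]
    have := exp_pos (-(1 : ℝ))
    linarith
  have h5 := exp_one_lt_d9
  linarith [pi_gt_three]

/-- The case of an exponent at least 1 is impossible: the left integral is not small. -/
theorem big_side {h : ℝ} (h1 : 1 ≤ h) (B : ℝ) : ∃ d1 > 0, ∀ d, 0 < d → d < d1 →
    B ≤ ∫ y in d..(1 / 2), (2 * π / sinh (π * y)) ^ h := by
  -- the cross-ratio of [d, 1/4] tends to 0
  have hT : 0 < tanh (π * (1 / 4) / 2) := by
    rw [tanh_eq_sinh_div_cosh]
    exact div_pos (sinh_pos_iff.2 (by positivity)) (cosh_pos _)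
  have hcont : Tendsto (fun d : ℝ => sideRatio d (1 / 4)) (𝓝 0) (𝓝 0) := by
    have : ContinuousAt (fun d : ℝ => sideRatio d (1 / 4)) 0 := by
      unfold sideRatio
      apply ContinuousAt.pow
      apply ContinuousAt.div_const
      have e : (fun d : ℝ => tanh (π * d / 2)) = fun d => sinh (π * d / 2) / cosh (π * d / 2) := by
        funext d; rw [tanh_eq_sinh_div_cosh]
      rw [e]
      exact ContinuousAt.div (by fun_prop) (by fun_prop) (cosh_pos _).ne'
    have h2 := this.tendsto
    have e : sideRatio 0 (1 / 4) = 0 := by unfold sideRatio; simp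
    rwa [e] at h2
  obtain ⟨d1, hd1, h2⟩ := Metric.eventually_nhds_iff.1
    (hcont.eventually (gt_mem_nhds (exp_pos (-B))))
  refine ⟨min d1 (1 / 4), by positivity, fun d hd hdd => ?_⟩
  have hdd1 : d < d1 := hdd.trans_le (min_le_left _ _)
  have hdd2 : d < 1 / 4 := hdd.trans_le (min_le_right _ _)
  have h3 := h2 (show dist d 0 < d1 by rw [Real.dist_eq, sub_zero, abs_of_pos hd]; exact hdd1)
  rw [sideRatio_eq hd hdd2.le] at h3
  have h4 : B ≤ ∫ y in d..(1 / 4), 2 * π / sinh (π * y) := by
    have := exp_lt_exp.1 h3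
    linarith
  have hpos : ∀ y, 0 < y → 0 < 2 * π / sinh (π * y) := fun y hy =>
    div_pos (by positivity) (sinh_pos_iff.2 (by positivity))
  have hcon : ∀ b, ContinuousOn (fun y => (2 * π / sinh (π * y)) ^ h) (Icc d b) := fun b =>
    (continuousOn_side hd).rpow_const fun y hy => Or.inl (hpos y (by linarith [hy.1])).ne'
  have i1 : IntervalIntegrable (fun y => (2 * π / sinh (π * y)) ^ h) volume d (1 / 4) := by
    apply ContinuousOn.intervalIntegrable
    rw [uIcc_of_le hdd2.le]; exact hcon _
  have i2 : IntervalIntegrable (fun y => (2 * π / sinh (π * y)) ^ h) volume (1 / 4) (1 / 2) := by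
    apply ContinuousOn.intervalIntegrable
    rw [uIcc_of_le (by norm_num)]
    exact (hcon (1 / 2)).mono (Icc_subset_Icc_left hdd2.le)
  have i3 : IntervalIntegrable (fun y => 2 * π / sinh (π * y)) volume d (1 / 4) := by
    apply ContinuousOn.intervalIntegrable
    rw [uIcc_of_le hdd2.le]; exact continuousOn_side hd
  have h5 : ∫ y in d..(1 / 4), 2 * π / sinh (π * y) ≤
      ∫ y in d..(1 / 4), (2 * π / sinh (π * y)) ^ h := by
    apply intervalIntegral.integral_mono_on hdd2.le i3 i1
    intro y hy
    have hy0 : 0 < y := by linarith [hy.1]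
    have h6 : 1 ≤ 2 * π / sinh (π * y) := by
      rw [le_div_iff₀ (sinh_pos_iff.2 (by positivity)), one_mul]
      exact sinh_le_two_pi hy0 hy.2
    calc 2 * π / sinh (π * y) = (2 * π / sinh (π * y)) ^ (1 : ℝ) := (rpow_one _).symm
      _ ≤ _ := rpow_le_rpow_of_exponent_le h6 h1
  have h7 : 0 ≤ ∫ y in (1 / 4 : ℝ)..(1 / 2), (2 * π / sinh (π * y)) ^ h :=
    intervalIntegral.integral_nonneg (by norm_num)
      (fun y hy => rpow_nonneg (hpos y (by linarith [hy.1])).le _)
  rw [← intervalIntegral.integral_add_adjacent_intervals i1 i2]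
  linarith

/-- the bottom integral is at least twice the part of the left integral near the corner -/
theorem bottom_ge {h : ℝ} (h0 : 0 ≤ h) {d : ℝ} (hd : 0 < d) (hd1 : d < 1 / 2) :
    2 * ∫ y in d..(1 / 2), (2 * π / sinh (π * y)) ^ h ≤
      ∫ x in d..(1 - d), (2 * π / sin (π * x)) ^ h := by
  have hposS : ∀ y, 0 < y → 0 < 2 * π / sinh (π * y) := fun y hy =>
    div_pos (by positivity) (sinh_pos_iff.2 (by positivity))
  have hposB : ∀ y, 0 < y → y < 1 → 0 < 2 * π / sin (π * y) := fun y hy hy1 =>
    div_pos (by positivity) (sin_pi_mul_pos hy hy1)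
  have hconB : ContinuousOn (fun y => (2 * π / sin (π * y)) ^ h) (Icc d (1 - d)) :=
    (continuousOn_bottom hd (by linarith)).rpow_const fun y hy =>
      Or.inl (hposB y (by linarith [hy.1]) (by linarith [hy.2])).ne'
  have i1 : IntervalIntegrable (fun y => (2 * π / sin (π * y)) ^ h) volume d (1 / 2) := by
    apply ContinuousOn.intervalIntegrable
    rw [uIcc_of_le hd1.le]; exact hconB.mono (Icc_subset_Icc_right (by linarith))
  have i2 : IntervalIntegrable (fun y => (2 * π / sin (π * y)) ^ h) volume (1 / 2) (1 - d) := by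
    apply ContinuousOn.intervalIntegrable
    rw [uIcc_of_le (by linarith)]; exact hconB.mono (Icc_subset_Icc_left (by linarith))
  have i3 : IntervalIntegrable (fun y => (2 * π / sinh (π * y)) ^ h) volume d (1 / 2) := by
    apply ContinuousOn.intervalIntegrable
    rw [uIcc_of_le hd1.le]
    exact (continuousOn_side hd).rpow_const fun y hy => Or.inl (hposS y (by linarith [hy.1])).ne'
  have hsym : ∫ y in (1 / 2 : ℝ)..(1 - d), (2 * π / sin (π * y)) ^ h =
      ∫ y in d..(1 / 2), (2 * π / sin (π * y)) ^ h := by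
    have h1 := intervalIntegral.integral_comp_sub_left (a := d) (b := 1 / 2)
      (fun y => (2 * π / sin (π * y)) ^ h) 1
    have e : (fun y : ℝ => (2 * π / sin (π * (1 - y))) ^ h) =
        fun y => (2 * π / sin (π * y)) ^ h := by
      funext y
      have : π * (1 - y) = π - π * y := by ring
      rw [this, sin_pi_sub]
    simp only [e] at h1
    rw [h1]
    norm_num
  rw [← intervalIntegral.integral_add_adjacent_intervals i1 i2, hsym, two_mul]
  have hle : ∫ y in d..(1 / 2), (2 * π / sinh (π * y)) ^ h ≤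
      ∫ y in d..(1 / 2), (2 * π / sin (π * y)) ^ h := by
    apply intervalIntegral.integral_mono_on hd1.le i3 i1
    intro y hy
    have hy0 : 0 < y := by linarith [hy.1]
    have hy1 : y < 1 := by linarith [hy.2]
    apply rpow_le_rpow (hposS y hy0).le _ h0
    apply div_le_div_of_nonneg_left (by positivity) (sin_pi_mul_pos hy0 hy1)
    have h1 : sin (π * y) ≤ π * y := sin_le (by positivity)
    have h2 : π * y ≤ sinh (π * y) := (self_le_sinh_iff).2 (by positivity)
    linarith
  linarith

/-- If the two integrals balance with ratio `√q`, the exponent is `gExp q`. -/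
theorem index_eq {q h : ℝ} (hq : 1 ≤ q) (hq4 : q < 4) (hh : 0 ≤ h)
    (hbal : ∀ e > 0, ∃ d0 > 0, ∃ L0 : ℝ, ∀ d, 0 < d → d < d0 → ∀ L, L0 < L →
      |(∫ x in d..(1 - d), (2 * π / sin (π * x)) ^ h)
        - √q * ∫ y in d..L, (2 * π / sinh (π * y)) ^ h|
        ≤ e * ∫ y in d..L, (2 * π / sinh (π * y)) ^ h) :
    h = gExp q := by
  obtain ⟨hs1, hs2⟩ := sqrt_bounds hq hq4
  have hpi := pi_pos
  have hposS : ∀ y, 0 < y → 0 < 2 * π / sinh (π * y) := fun y hy =>
    div_pos (by positivity) (sinh_pos_iff.2 (by positivity))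
  have hsL : 0 < √q := by linarith
  rcases eq_or_lt_of_le hh with h0 | h0
  · -- exponent 0
    exfalso
    obtain ⟨d0, hd0, L0, h1⟩ := hbal (1 / 2) (by norm_num)
    have hm : 0 < min d0 1 := lt_min hd0 one_pos
    have hm1 : min d0 1 ≤ 1 := min_le_right _ _
    have hm2 : min d0 1 ≤ d0 := min_le_left _ _
    have hL1 : L0 ≤ max L0 4 := le_max_left _ _
    have hL2 : 4 ≤ max L0 4 := le_max_right _ _
    have h2 := h1 (min d0 1 / 2) (by linarith) (by linarith) (max L0 4 + 1) (by linarith)
    simp only [← h0, rpow_zero, intervalIntegral.integral_const, smul_eq_mul, mul_one] at h2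
    have h3 := (abs_le.1 h2).1
    nlinarith
  rcases lt_or_ge h 1 with h1 | h1
  · -- the interesting case
    obtain ⟨hA, hB, hBpos, hAB⟩ := macro_integrals h0 h1
    set fb : ℝ → ℝ := fun x => (2 * π / sin (π * x)) ^ h with hfb
    set fs : ℝ → ℝ := fun x => (2 * π / sinh (π * x)) ^ h with hfs
    set B := ∫ y in Ioi (0 : ℝ), fs y with hBdef
    set A := ∫ x in Ioo (0 : ℝ) 1, fb x with hAdef
    set ρ := 2 * sin (π * h / 2) with hρ
    have hfb0 : ∀ x ∈ Ioo (0 : ℝ) 1, 0 ≤ fb x := fun x hx =>
      rpow_nonneg (div_nonneg (by positivity) (sin_pi_mul_pos hx.1 hx.2).le) _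
    have hfs0 : ∀ x ∈ Ioi (0 : ℝ), 0 ≤ fs x := fun x hx => rpow_nonneg (hposS x hx).le _
    -- the equality of the constants
    have hkey : ρ = √q := by
      by_contra hne
      have hδ : 0 < |ρ - √q| := abs_pos.2 (sub_ne_zero.2 hne)
      set δ := |ρ - √q| with hδdef
      have hη0 : 0 < δ * B / 16 := by positivity
      obtain ⟨n1, hn1⟩ := exhaust hA hfb0 measurableSet_Ioo (fun n : ℕ => 1 / ((n : ℝ) + 3))
        (fun n : ℕ => 1 - 1 / ((n : ℝ) + 3)) antitone_inv
        (fun m n hmn => by have := antitone_inv hmn; simp only at this ⊢; linarith)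
        iUnion_bottom hη0
      obtain ⟨n2, hn2⟩ := exhaust hB hfs0 measurableSet_Ioi (fun n : ℕ => 1 / ((n : ℝ) + 3))
        (fun n : ℕ => (n : ℝ) + 1) antitone_inv
        (fun m n hmn => by have : (m : ℝ) ≤ n := by exact_mod_cast hmn
                           simp only; linarith)
        iUnion_side hη0
      obtain ⟨d0, hd0, L0, h2⟩ := hbal (δ / 8) (by linarith)
      set m := min (min (1 / ((n1 : ℝ) + 3)) (1 / ((n2 : ℝ) + 3))) d0 with hm
      have hm0 : 0 < m := lt_min (lt_min (by positivity) (by positivity)) hd0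
      have m1 : m ≤ 1 / ((n1 : ℝ) + 3) := (min_le_left _ _).trans (min_le_left _ _)
      have m2 : m ≤ 1 / ((n2 : ℝ) + 3) := (min_le_left _ _).trans (min_le_right _ _)
      have m3 : m ≤ d0 := min_le_right _ _
      set d := m / 2 with hd
      have hd0' : 0 < d := by rw [hd]; linarith
      have hdm : d < m := by rw [hd]; linarith
      have hd3 : d < 1 / 3 := (hdm.trans_le m1).trans_le (by
        apply one_div_le_one_div_of_le (by norm_num)
        have : (0 : ℝ) ≤ n1 := Nat.cast_nonneg _
        linarith)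
      set L := max L0 ((n2 : ℝ) + 1) + 1 with hL
      have hL1 : L0 < L := by have := le_max_left L0 ((n2 : ℝ) + 1); linarith
      have hL2 : (n2 : ℝ) + 1 < L := by have := le_max_right L0 ((n2 : ℝ) + 1); linarith
      have hdL : d < L := by
        have : (0 : ℝ) ≤ n2 := Nat.cast_nonneg _
        linarith
      obtain ⟨b1, b2⟩ := hn1 d (1 - d) (by linarith) (by linarith)
        (fun x hx => ⟨hd0'.trans hx.1, by linarith [hx.2]⟩)
      obtain ⟨s1, s2⟩ := hn2 d L (by linarith) hL2.le (fun x hx => hd0'.trans hx.1)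
      have h3 := h2 d hd0' (by linarith) L hL1
      rw [intervalIntegral.integral_of_le (by linarith),
        intervalIntegral.integral_of_le hdL.le] at h3
      set Ib := ∫ x in Ioc d (1 - d), fb x with hIb
      set Is := ∫ x in Ioc d L, fs x with hIs
      have h4 : |Ib - √q * Is| ≤ δ / 8 * Is := h3
      have h5 : δ * B = |A - √q * B| := by
        have : A - √q * B = (ρ - √q) * B := by rw [hAB]; ring
        rw [this, abs_mul, abs_of_pos hBpos]
      have h6 : |A - √q * B| ≤ |Ib - √q * Is| + |A - Ib| + √q * |Is - B| := by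
        have e1 : A - √q * B = (Ib - √q * Is) + (A - Ib) + √q * (Is - B) := by ring
        have e2 : |√q * (Is - B)| = √q * |Is - B| := by
          rw [abs_mul, abs_of_pos hsL]
        rw [← e2, e1]
        refine (abs_add_le _ _).trans ?_
        exact add_le_add_left (abs_add_le _ _) _
      have h7 : |A - Ib| ≤ δ * B / 16 := by
        rw [abs_le]; constructor <;> linarith
      have h8 : |Is - B| ≤ δ * B / 16 := by
        rw [abs_le]; constructor <;> linarith
      have h9 : √q * |Is - B| ≤ 2 * (δ * B / 16) :=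
        mul_le_mul hs2.le h8 (abs_nonneg _) (by norm_num)
      have h10 : δ / 8 * Is ≤ δ / 8 * B := mul_le_mul_of_nonneg_left s1 (by linarith)
      nlinarith
    have h2 : sin (π * h / 2) = √q / 2 := by rw [hρ] at hkey; linarith
    unfold gExp
    rw [← h2, arcsin_sin (by nlinarith) (by nlinarith)]
    field_simp
  · -- large exponents
    exfalso
    set e := (2 - √q) / 2 with he
    have he0 : 0 < e := by rw [he]; linarith
    obtain ⟨d0, hd0, L0, h2⟩ := hbal e he0
    set L := max L0 1 + 1 with hL
    have hL1 : L0 < L := by have := le_max_left L0 1; linarith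
    have hL2 : 1 < L := by have := le_max_right L0 1; linarith
    set C := ∫ y in (1 / 2 : ℝ)..L, (2 * π / sinh (π * y)) ^ h with hC
    have hC0 : 0 ≤ C := intervalIntegral.integral_nonneg (by linarith)
      (fun y hy => rpow_nonneg (hposS y (by linarith [hy.1])).le _)
    obtain ⟨d1, hd1, h3⟩ := big_side h1 (2 * C / e + 1)
    set m := min (min d0 d1) (1 / 2) with hm
    have hm0 : 0 < m := lt_min (lt_min hd0 hd1) (by norm_num)
    have m1 : m ≤ d0 := (min_le_left _ _).trans (min_le_left _ _)
    have m2 : m ≤ d1 := (min_le_left _ _).trans (min_le_right _ _)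
    have m3 : m ≤ 1 / 2 := min_le_right _ _
    have k1 := h2 (m / 2) (by linarith) (by linarith) L hL1
    have k2 := h3 (m / 2) (by linarith) (by linarith)
    have k3 := bottom_ge hh (d := m / 2) (by linarith) (by linarith)
    have hcon : ContinuousOn (fun y => (2 * π / sinh (π * y)) ^ h) (Icc (m / 2) L) :=
      (continuousOn_side (by linarith)).rpow_const fun y hy =>
        Or.inl (hposS y (by linarith [hy.1])).ne'
    have i1 : IntervalIntegrable (fun y => (2 * π / sinh (π * y)) ^ h) volume (m / 2) (1 / 2) := by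
      apply ContinuousOn.intervalIntegrable
      rw [uIcc_of_le (by linarith)]; exact hcon.mono (Icc_subset_Icc_right (by linarith))
    have i2 : IntervalIntegrable (fun y => (2 * π / sinh (π * y)) ^ h) volume (1 / 2) L := by
      apply ContinuousOn.intervalIntegrable
      rw [uIcc_of_le (by linarith)]; exact hcon.mono (Icc_subset_Icc_left (by linarith))
    rw [← intervalIntegral.integral_add_adjacent_intervals i1 i2, ← hC] at k1
    set J := ∫ y in (m / 2)..(1 / 2), (2 * π / sinh (π * y)) ^ h with hJ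
    have k4 := (abs_le.1 k1).2
    have k5 : 2 * J ≤ (√q + e) * (J + C) := by linarith
    have k6 : e * J ≤ 2 * C := by
      have : √q + e = 2 - e := by rw [he]; ring
      rw [this] at k5
      nlinarith
    have k7 : e * (2 * C / e + 1) ≤ e * J := mul_le_mul_of_nonneg_left k2 he0.le
    have k8 : e * (2 * C / e + 1) = 2 * C + e := by field_simp
    linarith

end IDK
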