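/-
helper98, 3 Dec 2026.  MP_b3e76a_pr, project IDK, part G: the limit function is regularly varying
with the exponent `gExp q`.
-/
import Pool.Agent.IDK.GIdx

namespace IDK

open Real Filter Topology Set MeasureTheory

variable {l : Filter (ℕ × ℕ)} {Φ : ℝ → ℝ} {q : ℝ} {FL FB : ℕ → ℕ → Set ℕ → ℝ}
  {V : Ultrafilter (ℕ × ℕ)}

/-- the balance of the two integrals -/
theorem GHyp.balance (h : GHyp l Φ q FL FB) (hV : (V : Filter _) ≤ l) {U : Filter ℕ} [NeBot U]
    (hU : U ≤ atTop) {x : ℝ} (hx : 0 ≤ x)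
    (hlim : ∀ l : ℝ, 0 < l →
      Tendsto (fun N : ℕ => Φ (1 - l / N) / Φ (1 - 1 / N)) U (𝓝 (l ^ x))) :
    ∀ e > 0, ∃ d0 > 0, ∃ L0 : ℝ, ∀ d, 0 < d → d < d0 → ∀ L, L0 < L →
      |(∫ t in d..(1 - d), (2 * π / sin (π * t)) ^ x)
        - √q * ∫ y in d..L, (2 * π / sinh (π * y)) ^ x|
        ≤ e * ∫ y in d..L, (2 * π / sinh (π * y)) ^ x := by
  intro e he
  obtain ⟨d0, hd0, L0, h1⟩ := h.macro_lim hV e he
  have hf := h.fdata hV
  refine ⟨min d0 (1 / 2), by positivity, max L0 1, fun d hd hdd L hL => ?_⟩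
  have k1 : d < d0 := hdd.trans_le (min_le_left _ _)
  have k2 : d < 1 / 2 := hdd.trans_le (min_le_right _ _)
  have k3 : L0 < L := (le_max_left _ _).trans_lt hL
  have k4 : 1 < L := (le_max_right _ _).trans_lt hL
  obtain ⟨N0, h2⟩ := h1 d hd k1 L k3
  have sL := sum_tendsto hV h.tall h.monoL h.boundL (h.convL (L + 2)) hf
    (g := fun y => 2 * π / sinh (π * y)) (p := d / 2) (d := d) (L := L) (q := L + 1) (by linarith)
    (by linarith) (by linarith) (by linarith) (by linarith) (continuousOn_side (by linarith))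
    (fun y hy => div_pos (by positivity) (sinh_pos_iff.2 (mul_pos pi_pos (by linarith [hy.1]))))
    (fun a b ha hab _ => sideRatio_eq (by linarith) hab) hU hx hlim
  have sB := sum_tendsto hV h.tall h.monoB h.boundB h.convB hf
    (g := fun y => 2 * π / sin (π * y)) (p := d / 2) (d := d) (L := 1 - d) (q := 1 - d / 2)
    (by linarith) (by linarith) (by linarith) (by linarith) (by linarith)
    (continuousOn_bottom (by linarith) (by linarith))
    (fun y hy => div_pos (by positivity) (sin_pi_mul_pos (by linarith [hy.1])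
      (by linarith [hy.2])))
    (fun a b ha hab hb => bottomRatio_eq (by linarith) hab (by linarith)) hU hx hlim
  refine le_of_tendsto_of_tendsto ((sB.sub (sL.const_mul (√q))).abs) (sL.const_mul e) ?_
  filter_upwards [hU (eventually_ge_atTop N0), hU (eventually_gt_atTop 1)] with N hN hN1
  have hN' : (1 : ℝ) < N := by exact_mod_cast hN1
  have hN0 : (0 : ℝ) < N := by linarith
  have f1 : 0 < Φ (1 - 1 / N) := hf.pos (1 / N) (by positivity) (by rw [div_lt_one hN0]; exact hN')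
  have hD : 0 < (N : ℝ) * Φ (1 - 1 / N) := by positivity
  have h3 := (h2 N hN).1
  have e1 : (∑ j ∈ cells d (1 - d) N, bL V FB N j) / (N * Φ (1 - 1 / N)) -
      √q * ((∑ j ∈ cells d L N, bL V FL N j) / (N * Φ (1 - 1 / N))) =
      (∑ j ∈ cells d (1 - d) N, bL V FB N j - √q * ∑ j ∈ cells d L N, bL V FL N j) /
        (N * Φ (1 - 1 / N)) := by ring
  rw [e1, abs_div, abs_of_pos hD, ← mul_div_assoc]
  exact div_le_div_of_nonneg_right h3 hD.le

theorem GHyp.seq_limit [NeBot l] (h : GHyp l Φ q FL FB) (hq : 1 ≤ q) (hq4 : q < 4) :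
    ∀ x : ℝ, 0 < x →
      Tendsto (fun N : ℕ => Φ (1 - x / N) / Φ (1 - 1 / N)) atTop (𝓝 (x ^ gExp q)) := by
  intro x hx
  have hV : (Ultrafilter.of l : Filter _) ≤ l := Ultrafilter.of_le l
  rw [tendsto_iff_ultrafilter]
  intro U hU
  obtain ⟨c, hc, hlim⟩ := (h.fdata hV).power U hU
  have hidx : c = gExp q := index_eq hq hq4 hc (h.balance hV hU hc hlim)
  rw [← hidx]
  exact hlim x hx

theorem gExp_pos {q : ℝ} (hq : 1 ≤ q) : 0 < gExp q := by
  have hs : 1 ≤ √q := by rw [one_le_sqrt]; exact hq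
  unfold gExp
  have : 0 < arcsin (√q / 2) := arcsin_pos.2 (by linarith)
  positivity

/-- **Regular variation.** -/
theorem GHyp.regular [NeBot l] (h : GHyp l Φ q FL FB) (hq : 1 ≤ q) (hq4 : q < 4) {x : ℝ}
    (hx : 0 < x) :
    Tendsto (fun t : ℝ => Φ (1 - x * t) / Φ (1 - t)) (𝓝[>] 0) (𝓝 (x ^ gExp q)) := by
  have hV : (Ultrafilter.of l : Filter _) ≤ l := Ultrafilter.of_le l
  have hf := h.fdata hV
  have hl := h.seq_limit hq hq4
  set c := gExp q with hc
  have hc0 : 0 < c := gExp_pos hq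
  -- the integer part of 1 / t
  have hfl : Tendsto (fun t : ℝ => ⌊1 / t⌋₊) (𝓝[>] 0) atTop := by
    apply tendsto_nat_floor_atTop.comp
    exact (tendsto_inv_nhdsGT_zero (𝕜 := ℝ)).congr (fun t => (one_div t).symm)
  rw [Metric.tendsto_nhds]
  intro ε hε
  have t1 : Tendsto (fun θ : ℝ => x ^ c * θ ^ c) (𝓝 1) (𝓝 (x ^ c)) := by
    have : ContinuousAt (fun θ : ℝ => x ^ c * θ ^ c) 1 :=
      continuousAt_const.mul (continuousAt_id.rpow_const (Or.inl one_ne_zero))
    have h1 := this.tendsto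
    simpa using h1
  have t2 : Tendsto (fun θ : ℝ => (x / θ) ^ c) (𝓝 1) (𝓝 (x ^ c)) := by
    have : ContinuousAt (fun θ : ℝ => (x / θ) ^ c) 1 :=
      (continuousAt_const.div continuousAt_id one_ne_zero).rpow_const (Or.inl (by simp [hx.ne']))
    have h1 := this.tendsto
    simpa using h1
  have ev1 := (t1.eventually (gt_mem_nhds (by linarith : x ^ c < x ^ c + ε / 2))).filter_mono
    (nhdsWithin_le_nhds (s := Ioi 1))
  have ev2 := (t2.eventually (lt_mem_nhds (by linarith : x ^ c - ε / 2 < x ^ c))).filter_mono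
    (nhdsWithin_le_nhds (s := Ioi 1))
  obtain ⟨θ, ⟨k1, k2⟩, hθ⟩ := ((ev1.and ev2).and self_mem_nhdsWithin).exists
  have hθ1 : 1 < θ := hθ
  have hθ0 : 0 < θ := by linarith
  -- upper and lower limits
  have u1 := (hl x hx).div (hl (1 / θ) (by positivity)) (by positivity)
  have u2 := hl (x / θ) (by positivity)
  have e1 : x ^ c / (1 / θ) ^ c = x ^ c * θ ^ c := by
    rw [div_rpow one_pos.le hθ0.le, one_rpow]
    field_simp
  rw [e1] at u1
  have v1 := hfl.eventually ((u1.eventually (gt_mem_nhds (by linarith :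
    x ^ c * θ ^ c < x ^ c + ε))).and ((u2.eventually (lt_mem_nhds (by linarith :
    x ^ c - ε < (x / θ) ^ c))).and ((ev_small x one_pos).and ((ev_small (θ / (θ - 1))
    one_pos).and (eventually_gt_atTop 1)))))
  filter_upwards [v1, self_mem_nhdsWithin] with t h1 ht
  have ht0 : (0 : ℝ) < t := ht
  obtain ⟨h2, h3, h4, h5, h6⟩ := h1
  set N := ⌊1 / t⌋₊ with hN
  have hN1 : (1 : ℝ) < N := by exact_mod_cast h6
  have hN0 : (0 : ℝ) < N := by linarith
  have hfl1 : (N : ℝ) ≤ 1 / t := Nat.floor_le (by positivity)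
  have hfl2 : 1 / t < (N : ℝ) + 1 := Nat.lt_floor_add_one _
  have b1 : t ≤ 1 / N := by
    rw [le_div_iff₀ ht0] at hfl1
    rw [le_div_iff₀ hN0]
    linarith
  have b2 : 1 / ((N : ℝ) + 1) < t := by
    rw [div_lt_iff₀ ht0] at hfl2
    rw [div_lt_iff₀ (by positivity)]
    linarith
  have b3 : (N : ℝ) + 1 ≤ θ * N := by
    rw [div_lt_one hN0] at h5
    rw [div_lt_iff₀ (by linarith)] at h5
    have : θ * N - N = N * (θ - 1) := by ring
    linarith
  have b4 : 1 / θ / N ≤ t := by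
    refine le_trans ?_ b2.le
    rw [div_div]
    exact one_div_le_one_div_of_le (by positivity) b3
  have f0 : 0 < Φ (1 - 1 / N) := hf.pos (1 / N) (by positivity) (by rw [div_lt_one hN0]; exact hN1)
  have i1 : (1 : ℝ) / N < 1 := by rw [div_lt_one hN0]; exact hN1
  have ft : 0 < Φ (1 - t) := hf.pos t ht0 (by linarith)
  have fθ : 0 < Φ (1 - 1 / θ / N) := hf.pos _ (by positivity) (by linarith)
  -- monotonicity
  have m1 : Φ (1 - x * t) ≤ Φ (1 - x / N) := by
    apply hf.mono' (by positivity) _ h4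
    calc x * t ≤ x * (1 / N) := mul_le_mul_of_nonneg_left b1 hx.le
      _ = x / N := by ring
  have m2 : Φ (1 - 1 / θ / N) ≤ Φ (1 - t) := hf.mono' (by positivity) b4 (by linarith)
  have m3 : Φ (1 - x / θ / N) ≤ Φ (1 - x * t) := by
    apply hf.mono' (by positivity) _ _
    · calc x / θ / N = x * (1 / θ / N) := by ring
        _ ≤ x * t := mul_le_mul_of_nonneg_left b4 hx.le
    · refine lt_of_le_of_lt ?_ h4
      calc x * t ≤ x * (1 / N) := mul_le_mul_of_nonneg_left b1 hx.le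
        _ = x / N := by ring
  have m4 : Φ (1 - t) ≤ Φ (1 - 1 / N) := hf.mono' ht0 b1 i1
  have fx : 0 < Φ (1 - x / θ / N) := by
    apply hf.pos _ (by positivity)
    have : x / θ / N ≤ x / N := by
      apply div_le_div_of_nonneg_right (div_le_self hx.le hθ1.le) hN0.le
    linarith
  have r1 : Φ (1 - x * t) / Φ (1 - t) ≤ Φ (1 - x / N) / Φ (1 - 1 / θ / N) :=
    div_le_div₀ ((fx.le.trans m3).trans m1) m1 fθ m2
  have r2 : Φ (1 - x / θ / N) / Φ (1 - 1 / N) ≤ Φ (1 - x * t) / Φ (1 - t) :=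
    div_le_div₀ (fx.le.trans m3) m3 ft m4
  have r3 : Φ (1 - x / N) / Φ (1 - 1 / N) / (Φ (1 - 1 / θ / N) / Φ (1 - 1 / N)) =
      Φ (1 - x / N) / Φ (1 - 1 / θ / N) := div_div_div_cancel_right₀ f0.ne' _ _
  simp only [Pi.div_apply] at h2
  rw [r3] at h2
  rw [Real.dist_eq, abs_lt]
  constructor <;> linarith

end IDK
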