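/-
helper98, 3 Dec 2026.  MP_b3e76a_pr, project IDK, part G: the one-arm exponent.
-/
import Pool.Agent.IDK.GReg
import Pool.Agent.IDK.GPow

namespace IDK

open Real Filter Topology Set MeasureTheory

/-- `X n = n ^ (-h + o(1))` -/
def HasExp (X : ℕ → ℝ) (h : ℝ) : Prop := ∀ δ > 0, ∃ n1 : ℕ, ∀ n : ℕ, n1 ≤ n →
  (n : ℝ) ^ (-h - δ) ≤ X n ∧ X n ≤ (n : ℝ) ^ (-h + δ)

theorem HasExp.of_le {X Y : ℕ → ℝ} {h a b : ℝ} (hX : HasExp X h) (ha : 0 < a) (hb : 0 < b)
    (hXY : ∀ᶠ n : ℕ in atTop, a * X n ≤ Y n ∧ Y n ≤ b * X n) : HasExp Y h := by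
  intro δ hδ
  obtain ⟨n1, h1⟩ := hX (δ / 2) (by linarith)
  have hlim : Tendsto (fun n : ℕ => (n : ℝ) ^ (δ / 2)) atTop atTop :=
    (tendsto_rpow_atTop (by linarith)).comp tendsto_natCast_atTop_atTop
  obtain ⟨n3, hn3⟩ := eventually_atTop.1 ((hlim.eventually_ge_atTop b).and
    ((hlim.eventually_ge_atTop (1 / a)).and hXY))
  refine ⟨max (max n1 n3) 1, fun n hn => ?_⟩
  have k1 : n1 ≤ n := ((le_max_left _ _).trans (le_max_left _ _)).trans hn
  have k2 : n3 ≤ n := ((le_max_right _ _).trans (le_max_left _ _)).trans hn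
  have k3 : 1 ≤ n := (le_max_right _ _).trans hn
  obtain ⟨g1, g2, g3, g4⟩ := hn3 n k2
  obtain ⟨g5, g6⟩ := h1 n k1
  have hn1' : (1 : ℝ) ≤ n := by exact_mod_cast k3
  have hn0 : (0 : ℝ) < n := by linarith
  constructor
  · have e1 : (n : ℝ) ^ (-h - δ) = (n : ℝ) ^ (-(δ / 2)) * (n : ℝ) ^ (-h - δ / 2) := by
      rw [← rpow_add hn0]; congr 1; ring
    have e2 : (n : ℝ) ^ (-(δ / 2)) ≤ a := by
      rw [rpow_neg hn0.le, inv_le_comm₀ (by positivity) ha, ← one_div]
      exact g2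
    rw [e1]
    exact (mul_le_mul e2 g5 (by positivity) ha.le).trans g3
  · have e1 : (n : ℝ) ^ (-h + δ) = (n : ℝ) ^ (δ / 2) * (n : ℝ) ^ (-h + δ / 2) := by
      rw [← rpow_add hn0]; congr 1; ring
    rw [e1]
    refine g4.trans ?_
    exact mul_le_mul g1 g6 (le_trans (by positivity) g5) (by positivity)

variable {l : Filter (ℕ × ℕ)} {Φ : ℝ → ℝ} {q : ℝ} {FL FB : ℕ → ℕ → Set ℕ → ℝ}
  {V : Ultrafilter (ℕ × ℕ)}

/-- the function at `1 / n` -/
theorem GHyp.exp_one [NeBot l] (h : GHyp l Φ q FL FB) (hq : 1 ≤ q) (hq4 : q < 4) :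
    HasExp (fun n => Φ (1 - 1 / n)) (gExp q) := by
  have hV : (Ultrafilter.of l : Filter _) ≤ l := Ultrafilter.of_le l
  have hf := h.fdata hV
  have hc0 : 0 < gExp q := gExp_pos hq
  apply pow_asymp (n0 := 2) hc0
  · intro n hn
    have hn' : (2 : ℝ) ≤ n := by exact_mod_cast hn
    have hn0 : (0 : ℝ) < n := by linarith
    exact hf.pos (1 / n) (by positivity) (by rw [div_lt_one (by linarith)]; linarith)
  · intro m n hm hmn
    have hm' : (2 : ℝ) ≤ m := by exact_mod_cast hm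
    have hmn' : (m : ℝ) ≤ n := by exact_mod_cast hmn
    have hn0 : (0 : ℝ) < n := by linarith
    exact hf.mono' (by positivity) (one_div_le_one_div_of_le (by linarith) hmn')
      (by rw [div_lt_one (by linarith)]; linarith)
  · intro δ hδ
    have hl := h.seq_limit hq hq4 (1 / 2) (by norm_num)
    have e1 : ((1 : ℝ) / 2) ^ gExp q = (2 : ℝ) ^ (-gExp q) := by
      rw [one_div, inv_rpow (by norm_num), rpow_neg (by norm_num)]
    rw [e1] at hl
    have l1 : (2 : ℝ) ^ (-gExp q - δ) < (2 : ℝ) ^ (-gExp q) :=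
      rpow_lt_rpow_of_exponent_lt (by norm_num) (by linarith)
    have l2 : (2 : ℝ) ^ (-gExp q) < (2 : ℝ) ^ (-gExp q + δ) :=
      rpow_lt_rpow_of_exponent_lt (by norm_num) (by linarith)
    obtain ⟨n1, hn1⟩ := eventually_atTop.1 ((hl.eventually (lt_mem_nhds l1)).and
      (hl.eventually (gt_mem_nhds l2)))
    refine ⟨2, le_rfl, max n1 2, fun n hn => ?_⟩
    have k1 : n1 ≤ n := (le_max_left _ _).trans hn
    have k2 : 2 ≤ n := (le_max_right _ _).trans hn
    have hn' : (2 : ℝ) ≤ n := by exact_mod_cast k2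
    have hn0 : (0 : ℝ) < n := by linarith
    have fp : 0 < Φ (1 - 1 / n) := hf.pos (1 / n) (by positivity)
      (by rw [div_lt_one (by linarith)]; linarith)
    obtain ⟨g1, g2⟩ := hn1 n k1
    have e2 : (1 : ℝ) / ((2 * n : ℕ) : ℝ) = 1 / 2 / n := by push_cast; rw [div_div]
    rw [lt_div_iff₀ fp] at g1
    rw [div_lt_iff₀ fp] at g2
    rw [e2]
    exact ⟨g1.le, g2.le⟩

/-- the function at `x / n` -/
theorem GHyp.exp_mul [NeBot l] (h : GHyp l Φ q FL FB) (hq : 1 ≤ q) (hq4 : q < 4) {x : ℝ}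
    (hx : 0 < x) : HasExp (fun n => Φ (1 - x / n)) (gExp q) := by
  have hV : (Ultrafilter.of l : Filter _) ≤ l := Ultrafilter.of_le l
  have hf := h.fdata hV
  have hl := h.seq_limit hq hq4 x hx
  have hp : 0 < x ^ gExp q := by positivity
  refine (h.exp_one hq hq4).of_le (a := x ^ gExp q / 2) (b := 2 * x ^ gExp q) (by positivity)
    (by positivity) ?_
  filter_upwards [hl.eventually (lt_mem_nhds (show x ^ gExp q / 2 < x ^ gExp q by linarith)),
    hl.eventually (gt_mem_nhds (show x ^ gExp q < 2 * x ^ gExp q by linarith)),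
    eventually_ge_atTop 2] with n g1 g2 k2
  have hn' : (2 : ℝ) ≤ n := by exact_mod_cast k2
  have hn0 : (0 : ℝ) < n := by linarith
  have fp : 0 < Φ (1 - 1 / n) := hf.pos (1 / n) (by positivity)
    (by rw [div_lt_one (by linarith)]; linarith)
  rw [lt_div_iff₀ fp] at g1
  rw [div_lt_iff₀ fp] at g2
  exact ⟨g1.le, g2.le⟩

/-- two-sided estimate relating arcs of the left side and the arm probabilities `W` -/
def TwoL (W : ℕ → ℝ) (F : ℕ → ℕ → Set ℕ → ℝ) : Prop := ∃ c C : ℝ, 0 < c ∧ 0 < C ∧ ∃ L n0 : ℕ,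
  ∀ n M y k : ℕ, n0 ≤ n → 2 * n ≤ M → n ≤ 4 * y → 2 * y ≤ n → 1 ≤ k → L * k ≤ n →
    c * W n ≤ W k * F n M (Ico y (y + k)) ∧ W k * F n M (Ico y (y + k)) ≤ C * W n

/-- **The one-arm exponent.** -/
theorem GHyp.arm [NeBot l] (h : GHyp l Φ q FL FB) (hq : 1 ≤ q) (hq4 : q < 4)
    (hfull : ∀ Q : ℕ × ℕ → Prop, (∀ᶠ p in l, Q p) → ∃ n0, ∀ n ≥ n0, ∃ M, Q (n, M))
    {W : ℕ → ℝ} (hW : ∀ n, 0 < W n) (hanti : ∀ m n, 1 ≤ m → m ≤ n → W n ≤ W m)
    (htwo : TwoL W FL) : HasExp W (gExp q) := by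
  have hV : (Ultrafilter.of l : Filter _) ≤ l := Ultrafilter.of_le l
  have hf := h.fdata hV
  have hc0 : 0 < gExp q := gExp_pos hq
  obtain ⟨c, C, hc, hC, L, n0, h2⟩ := htwo
  obtain ⟨z, hz, hest⟩ := side_est (p := 1 / 6) (q := 3) (by norm_num) (θ := 2) (by norm_num)
  set g := 2 * π / sinh (π * (1 / 3)) with hg
  have hg0 : 0 < g := div_pos (by positivity) (sinh_pos_iff.2 (by positivity))
  apply pow_asymp (n0 := 1) hc0 (fun n _ => hW n) hanti
  intro δ hδ
  -- the upper and the lower bound of the arc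
  have x1 : HasExp (fun n => 2 / c * Φ (1 - 3 * g / n)) (gExp q) :=
    (h.exp_mul hq hq4 (x := 3 * g) (by positivity)).of_le (a := 2 / c) (b := 2 / c)
      (by positivity) (by positivity) (Eventually.of_forall fun n => ⟨le_rfl, le_rfl⟩)
  have x2 : HasExp (fun n => 1 / (2 * C) * Φ (1 - g / 4 / n)) (gExp q) :=
    (h.exp_mul hq hq4 (x := g / 4) (by positivity)).of_le (a := 1 / (2 * C)) (b := 1 / (2 * C))
      (by positivity) (by positivity) (Eventually.of_forall fun n => ⟨le_rfl, le_rfl⟩)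
  obtain ⟨m1, hm1⟩ := x1 δ hδ
  obtain ⟨m2, hm2⟩ := x2 δ hδ
  obtain ⟨R, hR⟩ := exists_nat_gt (max (max (m1 : ℝ) m2) (max (max (2 / z) 12)
    (max (L : ℝ) (3 * g))))
  have R1 : (m1 : ℝ) < R := ((le_max_left _ _).trans (le_max_left _ _)).trans_lt hR
  have R2 : (m2 : ℝ) < R := ((le_max_right _ _).trans (le_max_left _ _)).trans_lt hR
  have R3 : 2 / z < R :=
    (((le_max_left _ _).trans (le_max_left _ _)).trans (le_max_right _ _)).trans_lt hR
  have R4 : (12 : ℝ) < R :=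
    (((le_max_right _ _).trans (le_max_left _ _)).trans (le_max_right _ _)).trans_lt hR
  have R5 : (L : ℝ) < R :=
    (((le_max_left _ _).trans (le_max_right _ _)).trans (le_max_right _ _)).trans_lt hR
  have R6 : 3 * g < R :=
    (((le_max_right _ _).trans (le_max_right _ _)).trans (le_max_right _ _)).trans_lt hR
  have R1' : m1 ≤ R := by exact_mod_cast R1.le
  have R2' : m2 ≤ R := by exact_mod_cast R2.le
  have R4' : 12 < R := by exact_mod_cast R4
  have R5' : L ≤ R := by exact_mod_cast R5.le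
  have hR0 : (0 : ℝ) < R := by linarith
  obtain ⟨_, u1⟩ := hm1 R R1'
  obtain ⟨u2, _⟩ := hm2 R R2'
  simp only at u1 u2
  set t := (1 : ℝ) / R with ht
  have ht0 : 0 < t := by positivity
  have ht1 : t < 1 / 12 := one_div_lt_one_div_of_lt (by norm_num) R4
  have htz : 2 * t < z := by
    rw [div_lt_iff₀ hz] at R3
    rw [ht]
    have : (2 : ℝ) * (1 / R) = 2 / R := by ring
    rw [this, div_lt_iff₀ hR0]
    linarith
  -- inner and outer arcs
  obtain ⟨_, o1, o2, o3⟩ := hest (1 / 3 - t / 4) (1 / 3 + t + t / 4) (1 / 3) (by linarith)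
    (by linarith) (by linarith) (by norm_num) (by norm_num) (by linarith) (by
      rw [sub_sub_cancel, abs_of_pos (by linarith)]; linarith)
  obtain ⟨i1, _, i2, i3⟩ := hest (1 / 3 + t / 4) (1 / 3 + 3 * t / 4) (1 / 3) (by linarith)
    (by linarith) (by linarith) (by norm_num) (by norm_num) (by linarith) (by
      rw [sub_add_cancel_left, abs_neg, abs_of_pos (by linarith)]; linarith)
  have eo : 2 * (2 * π / sinh (π * (1 / 3))) * (1 / 3 + t + t / 4 - (1 / 3 - t / 4)) =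
      3 * g / R := by
    rw [← hg, ht]; ring
  have ei : 2 * π / sinh (π * (1 / 3)) * (1 / 3 + 3 * t / 4 - (1 / 3 + t / 4)) / 2 =
      g / 4 / R := by
    rw [← hg, ht]; ring
  rw [eo] at o1
  rw [ei] at i1
  have hlt : 3 * g / R < 1 := by rw [div_lt_one hR0]; exact R6
  have mo := hf.mono' o3 o1 hlt
  have mi := hf.mono' (by positivity : 0 < g / 4 / R) i1 i2
  simp only [sub_sub_cancel] at mo mi
  have hlt2 : g / 4 / R < 1 := by
    refine lt_of_le_of_lt ?_ hlt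
    apply div_le_div_of_nonneg_right _ hR0.le
    linarith
  have fi : 0 < Φ (1 - g / 4 / R) := hf.pos (g / 4 / R) (by positivity) hlt2
  have fo : Φ (1 - g / 4 / R) ≤ Φ (1 - 3 * g / R) := hf.mono' (by positivity) (by
    apply div_le_div_of_nonneg_right _ hR0.le
    linarith) hlt
  -- the convergence, along l
  have c1 := (h.convL 2 (1 / 3) (1 / 3 + t) (1 / 3 - t / 4) (1 / 3 + t + t / 4) (by linarith)
    (by linarith) (by linarith) (by linarith) (by linarith) _ fi).1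
  have c2 := (h.convL 2 (1 / 3 + t / 4) (1 / 3 + 3 * t / 4) (1 / 3 + t / 8) (1 / 3 + 7 * t / 8)
    (by linarith) (by linarith) (by linarith) (by linarith) (by linarith) _
    (by linarith : 0 < Φ (1 - g / 4 / R) / 2)).2
  obtain ⟨n3, hn3⟩ := hfull _ (c1.and (c2.and ((h.tall 2).and (h.tall.large (8 / t)))))
  refine ⟨R, by omega, max (max n3 n0) 6, fun n hn => ?_⟩
  have k1 : n3 ≤ n := ((le_max_left _ _).trans (le_max_left _ _)).trans hn
  have k2 : n0 ≤ n := ((le_max_right _ _).trans (le_max_left _ _)).trans hn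
  have k3 : 6 ≤ n := (le_max_right _ _).trans hn
  have hnR : n ≤ R * n := Nat.le_mul_of_pos_left _ (by omega)
  obtain ⟨M, v1, v2, v3, v4⟩ := hn3 (R * n) (k1.trans hnR)
  simp only at v1 v2 v3 v4
  -- the arc of n points
  have hn0 : (0 : ℝ) < n := by
    have : 0 < n := by omega
    exact_mod_cast this
  have hfl : ⌊t * ((R * n : ℕ) : ℝ)⌋₊ = n := by
    have : t * ((R * n : ℕ) : ℝ) = n := by rw [ht]; push_cast; field_simp
    rw [this, Nat.floor_natCast]
  have hsub1 := ico_sub_real (n := R * n) (α := 1 / 3) (t := t) ht0.le (by norm_num)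
  have hsub2 := real_sub_ico (n := R * n) (α := 1 / 3) (t := t) (a := 1 / 3 + t / 8)
    (b := 1 / 3 + 7 * t / 8) ht0.le (by norm_num) (by
      rw [div_le_iff₀ ht0] at v4
      linarith) (by
      rw [div_le_iff₀ ht0] at v4
      linarith)
  rw [hfl] at hsub1 hsub2
  set y := ⌈(1 : ℝ) / 3 * ((R * n : ℕ) : ℝ)⌉₊ with hy
  have hy1 : (1 : ℝ) / 3 * ((R * n : ℕ) : ℝ) ≤ y := Nat.le_ceil _
  have hy2 : (y : ℝ) < 1 / 3 * ((R * n : ℕ) : ℝ) + 1 := Nat.ceil_lt_add_one (by positivity)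
  have hRn : (6 : ℝ) ≤ ((R * n : ℕ) : ℝ) := by
    have : 6 ≤ R * n := k3.trans hnR
    exact_mod_cast this
  have hy3 : R * n ≤ 4 * y := by
    have : ((R * n : ℕ) : ℝ) ≤ ((4 * y : ℕ) : ℝ) := by push_cast at hy1 hRn ⊢; linarith
    exact_mod_cast this
  have hy4 : 2 * y ≤ R * n := by
    have : ((2 * y : ℕ) : ℝ) ≤ ((R * n : ℕ) : ℝ) := by push_cast at hy2 hRn ⊢; linarith
    exact_mod_cast this
  obtain ⟨w1, w2⟩ := h2 (R * n) M y n (k2.trans hnR) v3.2 hy3 hy4 (by omega)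
    (Nat.mul_le_mul_right _ R5')
  set X := FL (R * n) M (Ico y (y + n)) with hX
  have X1 : X ≤ 2 * Φ (1 - 3 * g / R) := by
    have : X ≤ _ := (h.monoL _ _ hsub1).trans v1
    linarith
  have X2 : Φ (1 - g / 4 / R) / 2 ≤ X := by
    have : _ ≤ X := v2.trans (h.monoL _ _ hsub2)
    linarith
  have hWn := hW n
  constructor
  · have e1 : (R : ℝ) ^ (-gExp q - δ) * W n ≤ 1 / (2 * C) * Φ (1 - g / 4 / R) * W n :=
      mul_le_mul_of_nonneg_right u2 hWn.le
    refine e1.trans ?_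
    have e2 : W n * (Φ (1 - g / 4 / R) / 2) ≤ C * W (R * n) :=
      (mul_le_mul_of_nonneg_left X2 hWn.le).trans w2
    have e3 : 1 / (2 * C) * Φ (1 - g / 4 / R) * W n = (W n * (Φ (1 - g / 4 / R) / 2)) / C := by
      field_simp
    rw [e3, div_le_iff₀ hC]
    linarith
  · have e1 : 2 / c * Φ (1 - 3 * g / R) * W n ≤ (R : ℝ) ^ (-gExp q + δ) * W n :=
      mul_le_mul_of_nonneg_right u1 hWn.le
    refine le_trans ?_ e1
    have e2 : c * W (R * n) ≤ W n * (2 * Φ (1 - 3 * g / R)) :=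
      w1.trans (mul_le_mul_of_nonneg_left X1 hWn.le)
    have e3 : 2 / c * Φ (1 - 3 * g / R) * W n = (W n * (2 * Φ (1 - 3 * g / R))) / c := by
      field_simp
    rw [e3, le_div_iff₀ hc]
    linarith

end IDK
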