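import Pool.Agent.IDK.GTop
import Pool.Agent.IDK.ArcF
import Pool.Agent.IDK.CSum
import Pool.Agent.IDK.CUp
import Pool.Agent.IDK.CLow
import Pool.Agent.IDK.HSum
import Pool.Agent.FKR.ArmUp

/-! # IDK/GBal (MP_b3e76a_pr): the macroscopic touch balance

Rectangle `{0, …, N r} × {0, …, M}`, bottom side wired, sides divided into arcs of length `r`. -/

namespace Pool.Agent.IDK

open Finset
open Pool.Agent.FKR
open Pool.Agent.H95.Perc (Inc)

variable {q : ℝ}

namespace Bal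

/-- the three sides -/
inductive Sd : Type
  | l : Sd
  | t : Sd
  | b : Sd

/-- charts -/
noncomputable def sdG (M : ℕ) : Sd → ℕ → ((ℤ × ℤ) ≃ (ℤ × ℤ))
  | Sd.l, y => gl (y : ℤ)
  | Sd.t, y => gt (M : ℤ) (y : ℤ)
  | Sd.b, y => gd (y : ℤ)

/-- active edges -/
noncomputable def sdE (n M : ℕ) : Sd → Finset (Sym2 (ℤ × ℤ))
  | Sd.l => EL n M
  | Sd.t => EL n M
  | Sd.b => ED n M

/-- frozen edges -/
noncomputable def sdF (n M : ℕ) : Sd → Finset (Sym2 (ℤ × ℤ))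
  | Sd.l => BL n
  | Sd.t => BL n
  | Sd.b => ring 0 n 0 M

/-- target -/
def sdT : Sd → ℤ × ℤ
  | Sd.l => (0, 0)
  | Sd.t => (0, 0)
  | Sd.b => (-1, -1)

/-- arc probabilities -/
noncomputable def sdP (q : ℝ) (n M : ℕ) : Sd → Set ℕ → ℝ
  | Sd.l, S => FL q n M S
  | Sd.t, S => FT q n M S
  | Sd.b, S => FB q n M S

/-- point probabilities -/
noncomputable def sdp (q : ℝ) (n M : ℕ) : Sd → ℕ → ℝ
  | Sd.l, y => pl q n M y
  | Sd.t, y => pT q n M y
  | Sd.b, y => pb q n M y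

/-- the arc `[j r, (j + 1) r)` is far from the corners -/
def Far (Λ n M r : ℕ) : Sd → ℕ → Prop
  | Sd.l, j => Λ + 1 ≤ j ∧ (j + Λ + 1) * r ≤ M ∧ Λ * r ≤ n
  | Sd.t, j => Λ + 1 ≤ j ∧ (j + Λ + 1) * r ≤ n ∧ (Λ + 1) * r ≤ M
  | Sd.b, j => Λ + 1 ≤ j ∧ (j + Λ + 1) * r ≤ n ∧ (Λ + 1) * r ≤ M

theorem Far_mono {Λ Λ' n M r j : ℕ} {s : Sd} (h : Λ ≤ Λ') (hf : Far Λ' n M r s j) :
    Far Λ n M r s j := by
  have h1 : Λ * r ≤ Λ' * r := Nat.mul_le_mul_right _ h
  have h2 : (Λ + 1) * r ≤ (Λ' + 1) * r := Nat.mul_le_mul_right _ (by omega)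
  have h3 : (j + Λ + 1) * r ≤ (j + Λ' + 1) * r := Nat.mul_le_mul_right _ (by omega)
  cases s <;> simp only [Far] at hf ⊢ <;> omega

theorem far_flat {Λ n M r j : ℕ} {s : Sd} (hr : 1 ≤ r) (hΛ : 1 ≤ Λ) (hf : Far Λ n M r s j) :
    Flat (sdG M s (j * r)) ((Λ : ℤ) * r) (sdE n M s) (sdF n M s) (sdT s) := by
  have hr' : (1 : ℤ) ≤ r := by exact_mod_cast hr
  have k1 : 1 * 1 ≤ Λ * r := Nat.mul_le_mul hΛ hr
  have k1' : (1 : ℤ) ≤ (Λ : ℤ) * r := by exact_mod_cast k1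
  cases s
  · simp only [Far] at hf
    obtain ⟨h1, h2, h3⟩ := hf
    have e1 : (Λ + 1) * r ≤ j * r := Nat.mul_le_mul_right _ h1
    have e1' : ((Λ : ℤ) + 1) * r ≤ ((j * r : ℕ) : ℤ) := by exact_mod_cast e1
    have e2' : ((j * r : ℕ) : ℤ) + ((Λ : ℤ) + 1) * r ≤ M := by
      have : j * r + (Λ + 1) * r ≤ M := by rw [← Nat.add_mul, ← Nat.add_assoc]; exact h2
      exact_mod_cast this
    have e3' : (Λ : ℤ) * r ≤ n := by exact_mod_cast h3
    have e4 : ((Λ : ℤ) + 1) * r = (Λ : ℤ) * r + r := by ring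
    exact flat_left k1' (by omega) (by omega) (by omega)
  · simp only [Far] at hf
    obtain ⟨h1, h2, h3⟩ := hf
    have e1 : (Λ + 1) * r ≤ j * r := Nat.mul_le_mul_right _ h1
    have e1' : ((Λ : ℤ) + 1) * r ≤ ((j * r : ℕ) : ℤ) := by exact_mod_cast e1
    have e2' : ((j * r : ℕ) : ℤ) + ((Λ : ℤ) + 1) * r ≤ n := by
      have : j * r + (Λ + 1) * r ≤ n := by rw [← Nat.add_mul, ← Nat.add_assoc]; exact h2
      exact_mod_cast this
    have e3' : ((Λ : ℤ) + 1) * r ≤ M := by exact_mod_cast h3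
    have e4 : ((Λ : ℤ) + 1) * r = (Λ : ℤ) * r + r := by ring
    exact flat_top (by omega) (by omega) (by omega)
  · simp only [Far] at hf
    obtain ⟨h1, h2, h3⟩ := hf
    have e1 : (Λ + 1) * r ≤ j * r := Nat.mul_le_mul_right _ h1
    have e1' : ((Λ : ℤ) + 1) * r ≤ ((j * r : ℕ) : ℤ) := by exact_mod_cast e1
    have e2' : ((j * r : ℕ) : ℤ) + ((Λ : ℤ) + 1) * r ≤ n := by
      have : j * r + (Λ + 1) * r ≤ n := by rw [← Nat.add_mul, ← Nat.add_assoc]; exact h2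
      exact_mod_cast this
    have e3' : ((Λ : ℤ) + 1) * r ≤ M := by exact_mod_cast h3
    have e4 : ((Λ : ℤ) + 1) * r = (Λ : ℤ) * r + r := by ring
    exact flat_dual k1' (by omega) (by omega) (by omega)

theorem point_eq (n M y k : ℕ) (s : Sd) : P q (sdE n M s) (sdF n M s)
    (fun ω => Cn ω (sdG M s y ((0 : ℤ), (k : ℤ))) (sdT s)) = sdp q n M s (y + k) := by
  have e : (k : ℤ) + (y : ℤ) = ((y + k : ℕ) : ℤ) := by push_cast; ring
  cases s
  · show P q (EL n M) (BL n) (fun ω => Cn ω (gl (y : ℤ) ((0 : ℤ), (k : ℤ))) (0, 0)) = pl q n M (y + k)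
    unfold pl
    rw [gl_apply, e]
  · exact top_pt n M y k
  · show P q (ED n M) (ring 0 n 0 M) (fun ω => Cn ω (gd (y : ℤ) ((0 : ℤ), (k : ℤ))) (-1, -1)) =
      pb q n M (y + k)
    unfold pb
    rw [gd_apply, e]

theorem macro_eq (hq : 0 < q) {n M y r : ℕ} (s : Sd) (hn : 1 ≤ n) (hM : 1 ≤ M)
    (h : s = Sd.b → y + r ≤ n) : P q (sdE n M s) (sdF n M s)
    (fun ω => ∃ a ∈ blk r, Cn ω (sdG M s y a) (sdT s)) = sdP q n M s (Set.Ico y (y + r)) := by
  cases s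
  · exact arc_left_eq hq n M y r
  · exact top_arc_eq hq n M y r
  · exact arc_dual_eq hq hn hM (h rfl)

/-- sum of the point probabilities of an arc -/
noncomputable def mic (q : ℝ) (n M r : ℕ) (s : Sd) (j : ℕ) : ℝ :=
  ∑ k ∈ range r, sdp q n M s (j * r + k)

/-- arc probability -/
noncomputable def mac (q : ℝ) (n M r : ℕ) (s : Sd) (j : ℕ) : ℝ :=
  sdP q n M s (Set.Ico (j * r) ((j + 1) * r))

theorem far_pos {Λ n M r j : ℕ} {s : Sd} (hr : 1 ≤ r) (hf : Far Λ n M r s j) :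
    (1 ≤ Λ → 1 ≤ n) ∧ 1 ≤ M ∧ (s = Sd.b → j * r + r ≤ n) := by
  cases s
  · simp only [Far] at hf
    obtain ⟨h1, h2, h3⟩ := hf
    refine ⟨fun h => ?_, ?_, by simp⟩
    · have : 1 * 1 ≤ Λ * r := Nat.mul_le_mul h hr
      omega
    · have : 1 * 1 ≤ (j + Λ + 1) * r := Nat.mul_le_mul (by omega) hr
      omega
  · simp only [Far] at hf
    obtain ⟨h1, h2, h3⟩ := hf
    have a1 : 1 * 1 ≤ (j + Λ + 1) * r := Nat.mul_le_mul (by omega) hr
    have a2 : 1 * 1 ≤ (Λ + 1) * r := Nat.mul_le_mul (by omega) hr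
    exact ⟨fun _ => by omega, by omega, by simp⟩
  · simp only [Far] at hf
    obtain ⟨h1, h2, h3⟩ := hf
    have a1 : 1 * 1 ≤ (j + Λ + 1) * r := Nat.mul_le_mul (by omega) hr
    have a2 : 1 * 1 ≤ (Λ + 1) * r := Nat.mul_le_mul (by omega) hr
    refine ⟨fun _ => by omega, by omega, fun _ => ?_⟩
    have a3 : (j + 1) * r ≤ (j + Λ + 1) * r := Nat.mul_le_mul_right _ (by omega)
    rw [Nat.add_mul, one_mul] at a3
    omega

/-- the ratio of the point sum and the arc probability is the same for all far arcs -/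
theorem ratio (hq : 1 ≤ q) (hq4 : q < 4) (hu : UU q) (e : ℝ) (he : 0 < e) : ∃ Λ : ℕ, 1 ≤ Λ ∧
    ∀ (n M r : ℕ) (s s' : Sd) (j j' : ℕ), 1 ≤ r → Far Λ n M r s j → Far Λ n M r s' j' →
      mic q n M r s j * mac q n M r s' j' ≤ (1 + e) * (mac q n M r s j * mic q n M r s' j') := by
  have hq0 : 0 < q := by linarith
  obtain ⟨L, hL, h⟩ := RLg hq hq4 hu e he
  refine ⟨L.toNat, by omega, ?_⟩
  have hΛ : ((L.toNat : ℕ) : ℤ) = L := Int.toNat_of_nonneg (by omega)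
  intro n M r s s' j j' hr hf hf'
  have hr' : (1 : ℤ) ≤ r := by exact_mod_cast hr
  have hfl := far_flat hr (by omega) hf
  have hfl' := far_flat hr (by omega) hf'
  rw [hΛ] at hfl hfl'
  obtain ⟨hn, hM, hb⟩ := far_pos hr hf
  obtain ⟨-, -, hb'⟩ := far_pos hr hf'
  have hn := hn (by omega)
  have m1 : P q (sdE n M s) (sdF n M s) (fun ω => ∃ a ∈ blk r, Cn ω (sdG M s (j * r) a) (sdT s)) =
      mac q n M r s j := by
    rw [macro_eq hq0 s hn hM hb]
    unfold mac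
    rw [Nat.add_mul, one_mul]
  have m2 : P q (sdE n M s') (sdF n M s')
      (fun ω => ∃ a ∈ blk r, Cn ω (sdG M s' (j' * r) a) (sdT s')) = mac q n M r s' j' := by
    rw [macro_eq hq0 s' hn hM hb']
    unfold mac
    rw [Nat.add_mul, one_mul]
  unfold mic
  rw [sum_mul, mul_sum, mul_sum]
  apply sum_le_sum
  intro k hk
  have hk' := mem_range.1 hk
  have h1 := h (r : ℤ) (L * r) (L * r) (sdG M s (j * r)) (sdG M s' (j' * r)) _ _ _ _ _ _
    {((0 : ℤ), (k : ℤ))} (blk r) hr' le_rfl le_rfl hfl hfl' (pt_sub hk') (blk_sub r)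
  simp only [mem_singleton, exists_eq_left] at h1
  rw [point_eq, point_eq, m1, m2] at h1
  exact h1

/-- the ratio of a reference arc of the left side -/
theorem ref_bound (hq : 1 ≤ q) (hq4 : q < 4) (hu : UU q) : ∃ C : ℝ, 0 < C ∧ ∃ L0 : ℕ,
    ∀ n M r j : ℕ, 1 ≤ r → Far L0 n M r Sd.l j →
      mic q n M r Sd.l j ≤ C * (r * wA q 2 r) * mac q n M r Sd.l j := by
  have hq0 : 0 < q := by linarith
  obtain ⟨c, hc, L, hL, h⟩ := arc_sub hq hq4 hu 2
  refine ⟨1 / c, by positivity, 2 * L + 2, ?_⟩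
  intro n M r j hr hf
  simp only [Far] at hf
  obtain ⟨h1, h2, h3⟩ := hf
  have hr' : (1 : ℤ) ≤ r := by exact_mod_cast hr
  have e1 : (2 * L + 2 + 1) * r ≤ j * r := Nat.mul_le_mul_right _ h1
  have e2 : j * r + (2 * L + 2 + 1) * r ≤ M := by
    have : (j + (2 * L + 2) + 1) * r = j * r + (2 * L + 2 + 1) * r := by ring
    omega
  have e1' : (2 * (L : ℤ) + 2 + 1) * r ≤ ((j * r : ℕ) : ℤ) := by exact_mod_cast e1
  have e2' : ((j * r : ℕ) : ℤ) + (2 * (L : ℤ) + 2 + 1) * r ≤ M := by exact_mod_cast e2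
  have e3' : (2 * (L : ℤ) + 2) * r ≤ n := by exact_mod_cast h3
  have x1 : (2 * (L : ℤ) + 2 + 1) * r = 2 * (L * r) + 3 * r := by ring
  have x2 : (2 * (L : ℤ) + 2) * r = 2 * (L * r) + 2 * r := by ring
  have hLr : (0 : ℤ) ≤ (L : ℤ) * r := by positivity
  have hfl : Flat (gl ((j * r : ℕ) : ℤ)) (2 * (L * r)) (EL n M) (BL n) (0, 0) := by
    refine flat_left ?_ (by omega) (by omega) (by omega)
    have : (4 : ℤ) * 1 ≤ L * r := mul_le_mul (by exact_mod_cast hL) hr' (by norm_num) (by omega)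
    omega
  have key := h r (2 * r) (2 * (L * r)) (gl ((j * r : ℕ) : ℤ)) (EL n M) (BL n) (0, 0) hr (by omega)
    le_rfl (by push_cast; apply le_of_eq; ring) hfl
  have hm : P q (EL n M) (BL n) (fun ω => ∃ a ∈ sgm r, Cn ω (gl ((j * r : ℕ) : ℤ) a) (0, 0)) =
      mac q n M r Sd.l j := by
    have : mac q n M r Sd.l j = FL q n M (Set.Ico (j * r) (j * r + r)) := by
      unfold mac
      rw [Nat.add_mul, one_mul]
      rfl
    rw [this, ← arc_left_eq hq0 n M (j * r) r]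
    rfl
  rw [hm] at key
  set Q : ℝ := P q (EL n M) (BL n) (fun ω => ∃ u ∈ HB ((2 * r : ℕ) : ℤ),
    Cn ω (gl ((j * r : ℕ) : ℤ) u) (0, 0)) with hQ
  have hpt : ∀ k < r, sdp q n M Sd.l (j * r + k) ≤ wA q 2 r * Q := by
    intro k hk
    have hfl' : Flat (gl (((j * r + k : ℕ)) : ℤ)) (r + 1) (EL n M) (BL n) (0, 0) := by
      refine flat_left (by omega) ?_ ?_ (by omega)
      · push_cast at e1' ⊢; omega
      · push_cast at e2' ⊢; omega
    have h5 := pt_up hq hr (by omega : (r : ℤ) < (r : ℤ) + 1) hfl'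
    have h6 : sdp q n M Sd.l (j * r + k) = P q (EL n M) (BL n)
        (fun ω => Cn ω (gl (((j * r + k : ℕ)) : ℤ) (0, 0)) (0, 0)) := by
      show pl q n M (j * r + k) = _
      unfold pl
      rw [gl_apply, zero_add]
    rw [h6]
    refine h5.trans (mul_le_mul_of_nonneg_left ?_ (wA_pos hq (by norm_num) r).le)
    apply P_mono hq0
    rintro ζ _ ⟨⟨a, b⟩, hu1, hu2⟩
    refine ⟨(a, b + k), ?_, ?_⟩
    · rw [mem_HB] at hu1 ⊢
      simp only at hu1 ⊢
      push_cast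
      omega
    · rw [gl_apply] at hu2 ⊢
      have : b + (k : ℤ) + ((j * r : ℕ) : ℤ) = b + (((j * r + k : ℕ)) : ℤ) := by push_cast; ring
      rw [this]
      exact hu2
  have hsum : mic q n M r Sd.l j ≤ r * (wA q 2 r * Q) := by
    unfold mic
    calc ∑ k ∈ range r, sdp q n M Sd.l (j * r + k) ≤ ∑ k ∈ range r, wA q 2 r * Q :=
          sum_le_sum fun k hk => hpt k (mem_range.1 hk)
      _ = r * (wA q 2 r * Q) := by rw [sum_const, card_range, nsmul_eq_mul]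
  refine hsum.trans ?_
  have hQ2 : Q ≤ 1 / c * mac q n M r Sd.l j := by
    rw [one_div, ← div_eq_inv_mul, le_div_iff₀ hc, mul_comm]
    exact key
  calc (r : ℝ) * (wA q 2 r * Q) = (r * wA q 2 r) * Q := by ring
    _ ≤ (r * wA q 2 r) * (1 / c * mac q n M r Sd.l j) :=
        mul_le_mul_of_nonneg_left hQ2 (mul_nonneg (Nat.cast_nonneg _) (wA_pos hq (by norm_num) r).le)
    _ = _ := by ring

/-- sums over blocks -/
theorem blocks (f : ℕ → ℝ) (r a b : ℕ) (hab : a ≤ b) :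
    ∑ j ∈ Ico a b, ∑ k ∈ range r, f (j * r + k) = ∑ y ∈ Ico (a * r) (b * r), f y := by
  induction b, hab using Nat.le_induction with
  | base => simp
  | succ b hab ih =>
    rw [Finset.sum_Ico_succ_top hab, ih]
    have h1 : a * r ≤ b * r := Nat.mul_le_mul_right r hab
    have h2 : b * r ≤ (b + 1) * r := Nat.mul_le_mul_right r (Nat.le_succ b)
    rw [← Finset.sum_Ico_consecutive f h1 h2, Finset.sum_Ico_eq_sum_range f (b * r) ((b + 1) * r)]
    have h3 : (b + 1) * r - b * r = r := by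
      rw [Nat.add_mul, one_mul, Nat.add_sub_cancel_left]
    rw [h3]

theorem sdp_nonneg (hq : 0 < q) (n M : ℕ) (s : Sd) (y : ℕ) : 0 ≤ sdp q n M s y := by
  rw [← Nat.add_zero y, ← point_eq]; exact P_nonneg hq _ _ _

theorem sdp_le_one (hq : 0 < q) (n M : ℕ) (s : Sd) (y : ℕ) : sdp q n M s y ≤ 1 := by
  rw [← Nat.add_zero y, ← point_eq]; exact P_le_one hq _ _ _

theorem sdP_nonneg (hq : 0 < q) (n M : ℕ) (s : Sd) (S : Set ℕ) : 0 ≤ sdP q n M s S := by
  cases s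
  · show 0 ≤ FL q n M S
    rw [FL_eq hq]; exact P_nonneg hq _ _ _
  · show 0 ≤ FT q n M S
    rw [FT_eq hq]; exact P_nonneg hq _ _ _
  · show 0 ≤ FB q n M S
    unfold FB
    rw [fkProb_P hq]; exact P_nonneg hq _ _ _

theorem sdP_le_one (hq : 0 < q) (n M : ℕ) (s : Sd) (S : Set ℕ) : sdP q n M s S ≤ 1 := by
  cases s
  · show FL q n M S ≤ 1
    rw [FL_eq hq]; exact P_le_one hq _ _ _
  · show FT q n M S ≤ 1
    rw [FT_eq hq]; exact P_le_one hq _ _ _
  · show FB q n M S ≤ 1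
    unfold FB
    rw [fkProb_P hq]; exact P_le_one hq _ _ _

theorem mic_nonneg (hq : 0 < q) (n M r : ℕ) (s : Sd) (j : ℕ) : 0 ≤ mic q n M r s j :=
  sum_nonneg fun _ _ => sdp_nonneg hq _ _ _ _

theorem mac_nonneg (hq : 0 < q) (n M r : ℕ) (s : Sd) (j : ℕ) : 0 ≤ mac q n M r s j :=
  sdP_nonneg hq _ _ _ _

theorem mac_le_one (hq : 0 < q) (n M r : ℕ) (s : Sd) (j : ℕ) : mac q n M r s j ≤ 1 :=
  sdP_le_one hq _ _ _ _

/-- a point of an arc of the left side -/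
theorem pl_le_mac (hq : 0 < q) (n M : ℕ) {r : ℕ} (hr : 1 ≤ r) (j : ℕ) :
    pl q n M (j * r) ≤ mac q n M r Sd.l j := by
  show pl q n M (j * r) ≤ FL q n M (Set.Ico (j * r) ((j + 1) * r))
  rw [FL_eq hq]
  unfold pl
  apply P_mono hq
  intro ζ _ h
  refine ⟨j * r, Set.mem_Ico.2 ⟨le_rfl, ?_⟩, h⟩
  rw [Nat.add_mul, one_mul]
  omega

/-- a wider rectangle -/
theorem pl_wide (hq : 1 ≤ q) {m n M : ℕ} (h : m ≤ n) (y : ℕ) : pl q m M y ≤ pl q n M y := by
  unfold pl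
  refine P_mono_EF hq ((NL_edgesIn _).mono sdiff_subset) (NL_edgesIn _) ?_ ?_ (inc_Cn _ _)
  · intro e he
    unfold EL at he
    rw [mem_sdiff] at he
    rw [mem_union, mem_sdiff]
    have h1 : e ∈ Pool.Agent.H95.SumRule.edgesIn (Pool.Agent.H95.Perc.rect 0 n 0 M) :=
      Pool.Agent.H95.Perc.edgesIn_mono
        (Pool.Agent.H95.Perc.rect_mono le_rfl (by omega) le_rfl le_rfl) he.1
    by_cases h2 : e ∈ Pool.Agent.H95.SumRule.edgesIn (Pool.Agent.H95.Perc.rect 0 n 0 0)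
    · exact Or.inr h2
    · exact Or.inl ⟨h1, h2⟩
  · unfold BL
    exact Pool.Agent.H95.Perc.edgesIn_mono
      (Pool.Agent.H95.Perc.rect_mono le_rfl (by omega) le_rfl le_rfl)

theorem num_core {e δ A ρ s Tm Lm Bm Tp Lp Bp : ℝ} (he0 : 0 < e) (he1 : e ≤ 1) (hδ0 : 0 < δ)
    (hδ1 : δ ≤ 1) (hA : 0 ≤ A) (hρ : 0 < ρ) (hs0 : 0 ≤ s) (hs2 : s ≤ 2) (hTm : 0 ≤ Tm) (hLm : 0 ≤ Lm)
    (hBm : 0 ≤ Bm) (hLp : 0 ≤ Lp)
    (hT1 : Tm ≤ (1 + e) * (ρ * Tp)) (hT2 : ρ * Tp ≤ (1 + e) * Tm)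
    (hL1 : Lm ≤ (1 + e) * (ρ * Lp)) (hL2 : ρ * Lp ≤ (1 + e) * Lm)
    (hB1 : Bm ≤ (1 + e) * (ρ * Bp)) (hB2 : ρ * Bp ≤ (1 + e) * Bm)
    (hm : |Tm + s * Lm - Bm| ≤ δ * Lm) (hTA : Tm ≤ A * Lm) :
    |Tp + s * Lp - Bp| ≤ 2 * (δ + 2 * e * (2 * A + 5)) * Lp := by
  obtain ⟨hm1, hm2⟩ := abs_le.1 hm
  -- |ρ Xp - Xm| ≤ 2 e Xm
  have key : ∀ x y : ℝ, 0 ≤ x → x ≤ (1 + e) * y → y ≤ (1 + e) * x → -(2 * e * x) ≤ y - x ∧ y - x ≤ 2 * e * x := by
    intro x y hx h1 h2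
    constructor
    · have h3 : y * e ≤ 2 * x * e := by
        apply mul_le_mul_of_nonneg_right _ he0.le
        nlinarith
      nlinarith
    · nlinarith
  obtain ⟨t1, t2⟩ := key Tm (ρ * Tp) hTm hT1 hT2
  obtain ⟨l1, l2⟩ := key Lm (ρ * Lp) hLm hL1 hL2
  obtain ⟨b1, b2⟩ := key Bm (ρ * Bp) hBm hB1 hB2
  have hsL : s * Lm ≤ 2 * Lm := mul_le_mul_of_nonneg_right hs2 hLm
  have hsL0 : 0 ≤ s * Lm := mul_nonneg hs0 hLm
  have hB3 : Bm ≤ (A + 3) * Lm := by nlinarith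
  have sl1 : -(2 * e * (s * Lm)) ≤ s * (ρ * Lp - Lm) := by
    have := mul_le_mul_of_nonneg_left l1 hs0
    nlinarith
  have sl2 : s * (ρ * Lp - Lm) ≤ 2 * e * (s * Lm) := by
    have := mul_le_mul_of_nonneg_left l2 hs0
    nlinarith
  have htot : 2 * e * Tm + 2 * e * (s * Lm) + 2 * e * Bm ≤ 2 * e * (2 * A + 5) * Lm := by
    have : Tm + s * Lm + Bm ≤ (2 * A + 5) * Lm := by nlinarith
    have h2 := mul_le_mul_of_nonneg_left this (by positivity : 0 ≤ 2 * e)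
    nlinarith
  have hX : |ρ * (Tp + s * Lp - Bp)| ≤ (δ + 2 * e * (2 * A + 5)) * Lm := by
    rw [abs_le]
    constructor
    · nlinarith
    · nlinarith
  have hc0 : 0 ≤ δ + 2 * e * (2 * A + 5) := by positivity
  have hLm2 : Lm ≤ 2 * (ρ * Lp) := by
    have : 0 ≤ ρ * Lp := mul_nonneg hρ.le hLp
    nlinarith
  have hY : ρ * |Tp + s * Lp - Bp| ≤ ρ * (2 * (δ + 2 * e * (2 * A + 5)) * Lp) := by
    rw [abs_mul, abs_of_pos hρ] at hX
    refine hX.trans ?_
    have := mul_le_mul_of_nonneg_left hLm2 hc0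
    nlinarith
  exact le_of_mul_le_mul_left hY hρ

theorem wA_nonneg' (hq : 1 ≤ q) (n : ℕ) : 0 ≤ wA q 2 n := (wA_pos hq (by norm_num) n).le

/-- the sum of the arm probabilities -/
noncomputable def SA (q : ℝ) (m : ℕ) : ℝ := ∑ y ∈ Icc 1 m, wA q 2 y

theorem SA_ge (hq : 1 ≤ q) (m : ℕ) : m * wA q 2 m ≤ SA q m := by
  unfold SA
  calc (m : ℝ) * wA q 2 m = ∑ y ∈ Icc 1 m, wA q 2 m := by
        rw [sum_const, Nat.card_Icc, nsmul_eq_mul]; simp
    _ ≤ _ := by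
        apply sum_le_sum
        intro y hy
        rw [mem_Icc] at hy
        exact wA_anti hq hy.1 hy.2

theorem SA_mono (hq : 1 ≤ q) {m m' : ℕ} (h : m ≤ m') : SA q m ≤ SA q m' := by
  unfold SA
  exact sum_le_sum_of_subset_of_nonneg (Icc_subset_Icc_right h) fun y _ _ => wA_nonneg' hq y

theorem SA_nonneg (hq : 1 ≤ q) (m : ℕ) : 0 ≤ SA q m := sum_nonneg fun y _ => wA_nonneg' hq y

theorem sum_le_card {f : ℕ → ℝ} {a b : ℕ} {w : ℝ} (h : ∀ y ∈ Ico a b, f y ≤ w) :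
    ∑ y ∈ Ico a b, f y ≤ ((b - a : ℕ) : ℝ) * w := by
  calc ∑ y ∈ Ico a b, f y ≤ ∑ y ∈ Ico a b, w := sum_le_sum h
    _ = _ := by rw [sum_const, Nat.card_Ico, nsmul_eq_mul]

/-- `∑ pT` near the corners -/
theorem nearT (hq : 1 ≤ q) {n M X : ℕ} (hX : 1 ≤ X) (h1 : 2 * X ≤ n) (h2 : 2 * X ≤ M) :
    ∑ i ∈ Ico 0 X, pT q n M i ≤ SA q X ∧ ∑ i ∈ Ico (n - X) (n + 1), pT q n M i ≤ 2 * SA q X := by
  have hb : ∀ i, i ≤ n → pT q n M i ≤ wA q 2 X := by
    intro i hi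
    have := pT_far hq (K := 0) (k := X) (n := n) (M := M) (i := i) (by omega) hX hi (by omega)
    simpa using this
  have hS := SA_ge hq X
  have hw := wA_nonneg' hq X
  have hX' : (1 : ℝ) ≤ X := by exact_mod_cast hX
  constructor
  · refine (sum_le_card (w := wA q 2 X) ?_).trans ?_
    · intro i hi
      rw [mem_Ico] at hi
      exact hb i (by omega)
    · simpa using hS
  · refine (sum_le_card (w := wA q 2 X) ?_).trans ?_
    · intro i hi
      rw [mem_Ico] at hi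
      exact hb i (by omega)
    · have e : n + 1 - (n - X) = X + 1 := by omega
      rw [e]
      push_cast
      nlinarith

/-- `∑ pb` near the corners -/
theorem nearB (hq : 1 ≤ q) {n M X : ℕ} (h1 : 2 * X ≤ n) (h2 : 2 * X ≤ M) :
    ∑ i ∈ Ico 0 X, pb q n M i ≤ SA q X ∧ ∑ i ∈ Ico (n - X) n, pb q n M i ≤ SA q X := by
  constructor
  · calc ∑ i ∈ Ico 0 X, pb q n M i ≤ ∑ i ∈ Ico 0 X, wA q 2 (i + 1) := by
          apply sum_le_sum
          intro i hi
          rw [mem_Ico] at hi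
          exact pb_le hq (by omega) le_rfl (by omega) (by omega)
      _ = SA q X := by
          unfold SA
          rw [sum_Ico_add' (fun y => wA q 2 y) 0 X 1]
          rfl
  · calc ∑ i ∈ Ico (n - X) n, pb q n M i ≤ ∑ i ∈ Ico (n - X) n, wA q 2 (n - i) := by
          apply sum_le_sum
          intro i hi
          rw [mem_Ico] at hi
          exact pb_le hq (by omega) (by omega) (by omega) (by omega)
      _ = SA q X := by
          unfold SA
          refine sum_bij' (fun i _ => n - i) (fun y _ => n - y) ?_ ?_ ?_ ?_ ?_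
          · intro i hi
            rw [mem_Ico] at hi
            rw [mem_Icc]
            omega
          · intro i hi
            rw [mem_Icc] at hi
            rw [mem_Ico]
            omega
          · intro i hi
            rw [mem_Ico] at hi
            omega
          · intro i hi
            rw [mem_Icc] at hi
            omega
          · intro i hi
            rfl

/-- `∑ pl` near the corners -/
theorem nearL (hq : 1 ≤ q) {n M X Y : ℕ} (hX : 1 ≤ X) (h2 : 2 * X ≤ M)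
    (hY : X ≤ Y) (hY2 : M + 1 ≤ Y + 2 * X) :
    ∑ y ∈ Ico 0 X, pl q n M y ≤ 1 + SA q X ∧ ∑ y ∈ Ico Y (M + 1), pl q n M y ≤ 2 * SA q X := by
  have hq0 : 0 < q := by linarith
  have hS := SA_ge hq X
  have hw := wA_nonneg' hq X
  constructor
  · rw [Finset.sum_eq_sum_Ico_succ_bot (by omega)]
    have h0 : pl q n M 0 ≤ 1 := P_le_one hq0 _ _ _
    have h3 : ∑ y ∈ Ico (0 + 1) X, pl q n M y ≤ SA q X := by
      unfold SA
      calc ∑ y ∈ Ico (0 + 1) X, pl q n M y ≤ ∑ y ∈ Ico (0 + 1) X, wA q 2 y := by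
            apply sum_le_sum
            intro y hy
            rw [mem_Ico] at hy
            exact pl_le hq (by omega) (by omega)
        _ ≤ _ := by
            apply sum_le_sum_of_subset_of_nonneg
            · intro y hy
              rw [mem_Ico] at hy
              rw [mem_Icc]
              omega
            · intro y _ _
              exact wA_nonneg' hq y
    linarith
  · refine (sum_le_card (w := wA q 2 X) ?_).trans ?_
    · intro y hy
      rw [mem_Ico] at hy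
      exact (pl_le hq (by omega) (by omega)).trans (wA_anti hq hX (by omega))
    · have h3 : ((M + 1 - Y : ℕ) : ℝ) ≤ 2 * X := by
        have : M + 1 - Y ≤ 2 * X := by omega
        exact_mod_cast this
      calc ((M + 1 - Y : ℕ) : ℝ) * wA q 2 X ≤ (2 * X) * wA q 2 X :=
            mul_le_mul_of_nonneg_right h3 hw
        _ = 2 * (X * wA q 2 X) := by ring
        _ ≤ _ := by linarith

/-- the balance of the point sums of the far arcs -/
theorem micro_bal (hq : 1 ≤ q) (hq4 : q < 4) {N M r K : ℕ} (hr : 1 ≤ r) (hK : 1 ≤ K) (hN : 2 * K ≤ N)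
    (hM : 2 * K ≤ M / r) :
    |∑ j ∈ Ico K (N - K), mic q (N * r) M r Sd.t j + √q * ∑ j ∈ Ico K (M / r - K), mic q (N * r) M r Sd.l j
      - ∑ j ∈ Ico K (N - K), mic q (N * r) M r Sd.b j| ≤ 3 + 9 * SA q (K * r) := by
  have hq0 : 0 < q := by linarith
  have hs1 : 1 ≤ √q := by rw [Real.one_le_sqrt]; exact hq
  have hs2 : √q ≤ 2 := by
    rw [Real.sqrt_le_left (by norm_num)]; linarith
  have hKr : 1 * 1 ≤ K * r := Nat.mul_le_mul hK hr
  have hNr : 2 * (K * r) ≤ N * r := by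
    rw [← Nat.mul_assoc]; exact Nat.mul_le_mul_right _ hN
  have hMr : M / r * r ≤ M := Nat.div_mul_le_self M r
  have hMr2 : M < M / r * r + r := by
    have := Nat.lt_div_mul_add (a := M) hr
    exact this
  have hMr3 : 2 * (K * r) ≤ M / r * r := by
    rw [← Nat.mul_assoc]; exact Nat.mul_le_mul_right _ hM
  have eN : (N - K) * r = N * r - K * r := Nat.sub_mul N K r
  have eM : (M / r - K) * r = M / r * r - K * r := Nat.sub_mul _ K r
  have hrK : r ≤ K * r := Nat.le_mul_of_pos_left r hK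
  have hT : ∑ j ∈ Ico K (N - K), mic q (N * r) M r Sd.t j =
      ∑ i ∈ Ico (K * r) (N * r - K * r), pT q (N * r) M i := by
    rw [← eN]
    exact blocks (fun i => pT q (N * r) M i) r K (N - K) (by omega)
  have hB : ∑ j ∈ Ico K (N - K), mic q (N * r) M r Sd.b j =
      ∑ i ∈ Ico (K * r) (N * r - K * r), pb q (N * r) M i := by
    rw [← eN]
    exact blocks (fun i => pb q (N * r) M i) r K (N - K) (by omega)
  have hL : ∑ j ∈ Ico K (M / r - K), mic q (N * r) M r Sd.l j =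
      ∑ y ∈ Ico (K * r) (M / r * r - K * r), pl q (N * r) M y := by
    rw [← eM]
    exact blocks (fun y => pl q (N * r) M y) r K (M / r - K) (by omega)
  have hsum := sum_id hq0 (n := N * r) (M := M) (by omega) (by omega)
  rw [range_eq_Ico, range_eq_Ico, range_eq_Ico,
    ← sum_Ico_consecutive _ (Nat.zero_le (K * r)) (by omega : K * r ≤ N * r + 1),
    ← sum_Ico_consecutive _ (by omega : K * r ≤ N * r - K * r) (by omega : N * r - K * r ≤ N * r + 1),
    ← sum_Ico_consecutive (fun y => pl q (N * r) M y) (Nat.zero_le (K * r)) (by omega : K * r ≤ M + 1),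
    ← sum_Ico_consecutive (fun y => pl q (N * r) M y) (by omega : K * r ≤ M / r * r - K * r)
      (by omega : M / r * r - K * r ≤ M + 1),
    ← sum_Ico_consecutive (fun y => pb q (N * r) M y) (Nat.zero_le (K * r)) (by omega : K * r ≤ N * r),
    ← sum_Ico_consecutive (fun y => pb q (N * r) M y) (by omega : K * r ≤ N * r - K * r)
      (by omega : N * r - K * r ≤ N * r)] at hsum
  obtain ⟨t1, t2⟩ := nearT hq (n := N * r) (M := M) (X := K * r) (by omega) (by omega) (by omega)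
  obtain ⟨b1, b2⟩ := nearB hq (n := N * r) (M := M) (X := K * r) (by omega) (by omega)
  obtain ⟨l1, l2⟩ := nearL hq (n := N * r) (M := M) (X := K * r) (Y := M / r * r - K * r) (by omega)
    (by omega) (by omega) (by omega)
  rw [hT, hB, hL]
  have nn : ∀ (f : ℕ → ℝ) (a b : ℕ), (∀ i, 0 ≤ f i) → 0 ≤ ∑ i ∈ Ico a b, f i :=
    fun f a b h => sum_nonneg fun i _ => h i
  have pT0 : ∀ i, 0 ≤ pT q (N * r) M i := fun i => sdp_nonneg hq0 (N * r) M Sd.t i
  have pl0 : ∀ i, 0 ≤ pl q (N * r) M i := fun i => sdp_nonneg hq0 (N * r) M Sd.l i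
  have pb0 : ∀ i, 0 ≤ pb q (N * r) M i := fun i => sdp_nonneg hq0 (N * r) M Sd.b i
  have n1 := nn _ 0 (K * r) pT0
  have n2 := nn _ (N * r - K * r) (N * r + 1) pT0
  have n3 := nn _ 0 (K * r) pl0
  have n4 := nn _ (M / r * r - K * r) (M + 1) pl0
  have n5 := nn _ 0 (K * r) pb0
  have n6 := nn _ (N * r - K * r) (N * r) pb0
  have hSA := SA_nonneg hq (K * r)
  generalize ∑ i ∈ Ico 0 (K * r), pT q (N * r) M i = T0 at *
  generalize ∑ i ∈ Ico (N * r - K * r) (N * r + 1), pT q (N * r) M i = T2 at *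
  generalize ∑ i ∈ Ico (K * r) (N * r - K * r), pT q (N * r) M i = T1 at *
  generalize ∑ i ∈ Ico 0 (K * r), pl q (N * r) M i = L0 at *
  generalize ∑ i ∈ Ico (M / r * r - K * r) (M + 1), pl q (N * r) M i = L2 at *
  generalize ∑ i ∈ Ico (K * r) (M / r * r - K * r), pl q (N * r) M i = L1 at *
  generalize ∑ i ∈ Ico 0 (K * r), pb q (N * r) M i = B0 at *
  generalize ∑ i ∈ Ico (N * r - K * r) (N * r), pb q (N * r) M i = B2 at *
  generalize ∑ i ∈ Ico (K * r) (N * r - K * r), pb q (N * r) M i = B1 at *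
  have e : T1 + √q * L1 - B1 = 1 + √q + (B0 + B2) - (T0 + T2) - √q * (L0 + L2) := by
    linarith
  rw [e, abs_le]
  have h1 : √q * (L0 + L2) ≤ 2 * (1 + 3 * SA q (K * r)) :=
    mul_le_mul hs2 (by linarith) (by linarith) (by norm_num)
  have h2 : 0 ≤ √q * (L0 + L2) := mul_nonneg (by linarith) (by linarith)
  constructor
  · linarith
  · linarith

/-- lower bound for the point sum of the far arcs of the left side -/
theorem left_low (hq : 1 ≤ q) {c : ℝ} {n1 : ℕ} (hc : 0 < c)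
    (hlow : ∀ n ≥ n1, ∀ M ≥ n, ∀ y : ℕ, n ≤ 4 * y → 2 * y ≤ n → c * wA q 2 n ≤ pl q n M y)
    {n M r K m : ℕ} (hr : 1 ≤ r) (hK : 1 ≤ K) (hm1 : n1 ≤ m) (hm2 : 2 ≤ m) (hmn : m ≤ n) (hmM : m ≤ M)
    (hKm : 4 * (K * r) ≤ m) :
    c / 8 * (m * wA q 2 m) ≤ ∑ j ∈ Ico K (M / r - K), mic q n M r Sd.l j := by
  have hq0 : 0 < q := by linarith
  have hKr : 1 * 1 ≤ K * r := Nat.mul_le_mul hK hr
  have hMr : M / r * r ≤ M := Nat.div_mul_le_self M r
  have hMr2 : M < M / r * r + r := Nat.lt_div_mul_add (a := M) hr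
  have hrK : r ≤ K * r := Nat.le_mul_of_pos_left r hK
  have eM : (M / r - K) * r = M / r * r - K * r := Nat.sub_mul _ K r
  have hKM : K ≤ M / r - K := by
    have h1 : K * r ≤ (M / r - K) * r := by rw [eM]; omega
    exact Nat.le_of_mul_le_mul_right h1 hr
  have hL : ∑ j ∈ Ico K (M / r - K), mic q n M r Sd.l j =
      ∑ y ∈ Ico (K * r) (M / r * r - K * r), pl q n M y := by
    rw [← eM]
    exact blocks (fun y => pl q n M y) r K (M / r - K) hKM
  rw [hL]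
  have hsub : Ico ((m + 3) / 4) (m / 2 + 1) ⊆ Ico (K * r) (M / r * r - K * r) := by
    intro y hy
    rw [mem_Ico] at hy ⊢
    omega
  have h1 : ∑ y ∈ Ico ((m + 3) / 4) (m / 2 + 1), c * wA q 2 m ≤
      ∑ y ∈ Ico ((m + 3) / 4) (m / 2 + 1), pl q n M y := by
    apply sum_le_sum
    intro y hy
    rw [mem_Ico] at hy
    exact (hlow m hm1 M hmM y (by omega) (by omega)).trans (pl_wide hq hmn y)
  have h2 : ∑ y ∈ Ico ((m + 3) / 4) (m / 2 + 1), pl q n M y ≤
      ∑ y ∈ Ico (K * r) (M / r * r - K * r), pl q n M y :=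
    sum_le_sum_of_subset_of_nonneg hsub fun y _ _ => sdp_nonneg hq0 n M Sd.l y
  refine le_trans ?_ (h1.trans h2)
  rw [sum_const, Nat.card_Ico, nsmul_eq_mul]
  have h3 : (m : ℝ) / 8 ≤ ((m / 2 + 1 - (m + 3) / 4 : ℕ) : ℝ) := by
    have : m ≤ 8 * (m / 2 + 1 - (m + 3) / 4) := by omega
    have h4 : (m : ℝ) ≤ 8 * ((m / 2 + 1 - (m + 3) / 4 : ℕ) : ℝ) := by exact_mod_cast this
    linarith
  have hw := wA_nonneg' hq m
  calc c / 8 * (m * wA q 2 m) = (m : ℝ) / 8 * (c * wA q 2 m) := by ring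
    _ ≤ _ := mul_le_mul_of_nonneg_right h3 (mul_nonneg hc.le hw)

/-- upper bound for the point sum of the far arcs of the top side -/
theorem top_up (hq : 1 ≤ q) {N M r K m : ℕ} (hr : 1 ≤ r) (hK : 1 ≤ K) (hN : 2 * K ≤ N) (hm1 : 1 ≤ m)
    (hmM : m ≤ M) :
    ∑ j ∈ Ico K (N - K), mic q (N * r) M r Sd.t j ≤ ((N * r : ℕ) : ℝ) * wA q 2 m := by
  have hKr : 1 * 1 ≤ K * r := Nat.mul_le_mul hK hr
  have eN : (N - K) * r = N * r - K * r := Nat.sub_mul N K r
  have hT : ∑ j ∈ Ico K (N - K), mic q (N * r) M r Sd.t j =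
      ∑ i ∈ Ico (K * r) (N * r - K * r), pT q (N * r) M i := by
    rw [← eN]
    exact blocks (fun i => pT q (N * r) M i) r K (N - K) (by omega)
  rw [hT]
  have hNr : 1 * 1 ≤ N * r := Nat.mul_le_mul (by omega) hr
  refine (sum_le_card (w := wA q 2 m) ?_).trans ?_
  · intro i hi
    rw [mem_Ico] at hi
    have := pT_far hq (K := 0) (k := m) (n := N * r) (M := M) (i := i) (by omega) hm1 (by omega)
      (by omega)
    simpa using this
  · apply mul_le_mul_of_nonneg_right _ (wA_nonneg' hq m)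
    exact_mod_cast (by omega : N * r - K * r - K * r ≤ N * r)

/-- far and near arcs -/
theorem split_far {f : ℕ → ℝ} {K X : ℕ} (h0 : ∀ j, 0 ≤ f j) (h1 : ∀ j, f j ≤ 1) (hX : 2 * K ≤ X) :
    ∑ j ∈ Ico K (X - K), f j ≤ ∑ j ∈ range X, f j ∧
      ∑ j ∈ range X, f j ≤ ∑ j ∈ Ico K (X - K), f j + 2 * K := by
  rw [range_eq_Ico, ← sum_Ico_consecutive _ (Nat.zero_le K) (by omega : K ≤ X),
    ← sum_Ico_consecutive _ (by omega : K ≤ X - K) (by omega : X - K ≤ X)]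
  have a1 : 0 ≤ ∑ j ∈ Ico 0 K, f j := sum_nonneg fun j _ => h0 j
  have a2 : 0 ≤ ∑ j ∈ Ico (X - K) X, f j := sum_nonneg fun j _ => h0 j
  have b1 : ∑ j ∈ Ico 0 K, f j ≤ K := by
    refine (sum_le_card (w := 1) fun j _ => h1 j).trans ?_
    simp
  have b2 : ∑ j ∈ Ico (X - K) X, f j ≤ K := by
    refine (sum_le_card (w := 1) fun j _ => h1 j).trans ?_
    have : X - (X - K) = K := by omega
    rw [this]; simp
  constructor
  · linarith
  · linarith

end Bal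

open Bal

/-- expected number of arcs of length `r` of the top side which are connected to the bottom side -/
noncomputable def numT (q : ℝ) (N r M : ℕ) : ℝ :=
  ∑ j ∈ range N, FT q (N * r) M (Set.Ico (j * r) ((j + 1) * r))

/-- the same for the left side -/
noncomputable def numL (q : ℝ) (N r M : ℕ) : ℝ :=
  ∑ j ∈ range (M / r), FL q (N * r) M (Set.Ico (j * r) ((j + 1) * r))

/-- the same for the bottom side -/
noncomputable def numB (q : ℝ) (N r M : ℕ) : ℝ :=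
  ∑ j ∈ range N, FB q (N * r) M (Set.Ico (j * r) ((j + 1) * r))

theorem touch_balance (hq : 1 ≤ q) (hq4 : q < 4) (hu : UU q) {α ε : ℝ} (hα : 0 < α) (hε : 0 < ε) :
    ∃ N0 : ℕ, ∀ N ≥ N0, ∃ r0 : ℕ, ∀ r ≥ r0, ∀ M : ℕ, α * (N * r) ≤ M →
      |numT q N r M + √q * numL q N r M - numB q N r M| ≤ ε * numL q N r M := by
  have hq0 : 0 < q := by linarith
  have hs1 : 1 ≤ √q := by rw [Real.one_le_sqrt]; exact hq
  have hs2 : √q ≤ 2 := by
    rw [Real.sqrt_le_left (by norm_num)]; linarith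
  obtain ⟨c, hc, n1, hlow⟩ := pl_low hq hu
  obtain ⟨α', hα', hα1, hα2⟩ : ∃ α' : ℝ, 0 < α' ∧ α' ≤ α ∧ α' ≤ 1 :=
    ⟨min α 1, lt_min hα one_pos, min_le_left _ _, min_le_right _ _⟩
  obtain ⟨A, hA⟩ : ∃ A : ℝ, A = 8 / (α' * c) := ⟨_, rfl⟩
  have hA0 : 0 < A := by rw [hA]; positivity
  obtain ⟨δ, hδ0, hδ1, hδ2⟩ : ∃ δ : ℝ, 0 < δ ∧ δ ≤ 1 ∧ δ ≤ ε / 16 :=
    ⟨min 1 (ε / 16), lt_min one_pos (by linarith), min_le_left _ _, min_le_right _ _⟩
  obtain ⟨e, he0, he1, he2⟩ : ∃ e : ℝ, 0 < e ∧ e ≤ 1 ∧ e ≤ ε / (32 * (2 * A + 5)) :=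
    ⟨min 1 (ε / (32 * (2 * A + 5))), lt_min one_pos (by positivity), min_le_left _ _,
      min_le_right _ _⟩
  have he3 : 2 * (δ + 2 * e * (2 * A + 5)) ≤ ε / 4 := by
    rw [le_div_iff₀ (by positivity)] at he2
    linarith
  obtain ⟨Λ1, hΛ1, hrat⟩ := ratio hq hq4 hu e he0
  obtain ⟨C, hC, L0, href⟩ := ref_bound hq hq4 hu
  obtain ⟨Λ, hΛa, hΛb⟩ : ∃ Λ : ℕ, Λ1 ≤ Λ ∧ L0 ≤ Λ := ⟨max Λ1 L0, le_max_left _ _, le_max_right _ _⟩
  obtain ⟨K, hK⟩ : ∃ K : ℕ, K = Λ + 1 := ⟨_, rfl⟩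
  have hK1 : 1 ≤ K := by omega
  have hK0 : (0 : ℝ) < K := by exact_mod_cast hK1
  have hw1 : 0 < wA q 2 1 := wA_pos hq (by norm_num) 1
  obtain ⟨ℓ0, hℓ0, h0⟩ := hsum_eps hq hq4 hu (δ * c / 144) (by positivity)
  obtain ⟨ℓ1, hℓ1, h1⟩ := hsum_eps hq hq4 hu (δ * c * wA q 2 1 / 48) (by positivity)
  obtain ⟨ℓ2, hℓ2, h2⟩ := hsum_eps hq hq4 hu (c * ε / (256 * C * K)) (by positivity)
  obtain ⟨W, hW⟩ : ∃ W : ℕ, W = K * (4 + ℓ0) + ℓ2 := ⟨_, rfl⟩
  obtain ⟨N0, hN0⟩ := exists_nat_ge ((W : ℝ) / α')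
  refine ⟨N0, fun N hN => ⟨max (n1 + 2) (ℓ1 + 1), fun r hr M hM => ?_⟩⟩
  have hr1 : n1 + 2 ≤ r := (le_max_left _ _).trans hr
  have hr2 : ℓ1 + 1 ≤ r := (le_max_right _ _).trans hr
  have hr0 : 1 ≤ r := by omega
  have hrp : (0 : ℝ) < r := by exact_mod_cast hr0
  have hNW : (W : ℝ) ≤ α' * N := by
    have : (N0 : ℝ) ≤ N := by exact_mod_cast hN
    have h3 : (W : ℝ) / α' ≤ N := hN0.trans this
    rw [div_le_iff₀ hα'] at h3
    linarith
  have hWN : W ≤ N := by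
    have : (W : ℝ) ≤ N := by
      have h3 : α' * N ≤ 1 * N := mul_le_mul_of_nonneg_right hα2 (Nat.cast_nonneg _)
      linarith
    exact_mod_cast this
  have hW4 : 4 * K ≤ W := by
    rw [hW]
    have : K * (4 + ℓ0) = 4 * K + K * ℓ0 := by ring
    omega
  obtain ⟨n, hn⟩ : ∃ n : ℕ, n = N * r := ⟨_, rfl⟩
  obtain ⟨m, hm⟩ : ∃ m : ℕ, m = min n M := ⟨_, rfl⟩
  have hmn : m ≤ n := by rw [hm]; exact min_le_left _ _
  have hmM : m ≤ M := by rw [hm]; exact min_le_right _ _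
  have hmα : α' * (N * r) ≤ m := by
    rw [hm]
    push_cast
    refine le_min ?_ ?_
    · rw [hn]
      push_cast
      have : (0 : ℝ) ≤ N * r := by positivity
      exact mul_le_of_le_one_left this hα2
    · have : (0 : ℝ) ≤ N * r := by positivity
      have h3 : α' * (N * r) ≤ α * (N * r) := mul_le_mul_of_nonneg_right hα1 this
      linarith
  have hmW : W * r ≤ m := by
    have h3 : (W : ℝ) * r ≤ α' * N * r := mul_le_mul_of_nonneg_right hNW hrp.le
    have h4 : (W : ℝ) * r ≤ m := by linarith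
    exact_mod_cast h4
  have q1 : 4 * (K * r) ≤ m := by
    have : 4 * K * r ≤ W * r := Nat.mul_le_mul_right _ hW4
    rw [Nat.mul_assoc] at this
    omega
  have q2 : K * r ≤ m / ℓ0 := by
    rw [Nat.le_div_iff_mul_le (by omega)]
    have h3 : K * ℓ0 ≤ W := by
      rw [hW]
      have : K * (4 + ℓ0) = 4 * K + K * ℓ0 := by ring
      omega
    have h4 : K * ℓ0 * r ≤ W * r := Nat.mul_le_mul_right _ h3
    calc K * r * ℓ0 = K * ℓ0 * r := by ring
      _ ≤ W * r := h4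
      _ ≤ m := hmW
  have q3 : r ≤ m / ℓ2 := by
    rw [Nat.le_div_iff_mul_le (by omega)]
    have h3 : ℓ2 ≤ W := by omega
    have h4 : ℓ2 * r ≤ W * r := Nat.mul_le_mul_right _ h3
    calc r * ℓ2 = ℓ2 * r := by ring
      _ ≤ W * r := h4
      _ ≤ m := hmW
  have hrK : r ≤ K * r := Nat.le_mul_of_pos_left r hK1
  have hrm : r ≤ m := by omega
  have q4 : 1 ≤ m / ℓ1 := by
    rw [Nat.le_div_iff_mul_le (by omega)]
    omega
  have hm1 : 1 ≤ m := by omega
  have hN2 : 2 * K ≤ N := by omega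
  have hMr : M / r * r ≤ M := Nat.div_mul_le_self M r
  have hM2 : 2 * K ≤ M / r := by
    rw [Nat.le_div_iff_mul_le (by omega), Nat.mul_assoc]
    omega
  -- the basic quantity
  obtain ⟨X, hX⟩ : ∃ X : ℝ, X = m * wA q 2 m := ⟨_, rfl⟩
  have hwm : 0 < wA q 2 m := wA_pos hq (by norm_num) m
  have hmp : (0 : ℝ) < m := by exact_mod_cast hm1
  have hX0 : 0 < X := by rw [hX]; positivity
  have hSK : SA q (K * r) ≤ δ * c / 144 * X := by
    rw [hX]
    exact (SA_mono hq q2).trans (h0 m hm1)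
  have h3X : 3 ≤ δ * c / 16 * X := by
    have h3 : wA q 2 1 ≤ δ * c * wA q 2 1 / 48 * X := by
      rw [hX]
      refine le_trans ?_ (h1 m hm1)
      have := SA_mono hq q4
      refine le_trans ?_ this
      unfold SA
      simp
    have h4 : wA q 2 1 * 1 ≤ wA q 2 1 * (δ * c / 48 * X) := by
      calc wA q 2 1 * 1 = wA q 2 1 := mul_one _
        _ ≤ _ := h3
        _ = _ := by ring
    have h5 := le_of_mul_le_mul_left h4 hw1
    linarith
  have hrX : (r : ℝ) * wA q 2 r ≤ c * ε / (256 * C * K) * X := by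
    rw [hX]
    refine (SA_ge hq r).trans ((SA_mono hq q3).trans (h2 m hm1))
  -- sums of the far arcs
  have hΛr : Λ * r ≤ K * r := Nat.mul_le_mul_right _ (by omega)
  have hJl : ∀ j ∈ Ico K (M / r - K), Far Λ n M r Sd.l j := by
    intro j hj
    rw [mem_Ico] at hj
    refine ⟨by omega, ?_, by omega⟩
    have : (j + Λ + 1) * r ≤ M / r * r := Nat.mul_le_mul_right _ (by omega)
    omega
  have hJt : ∀ j ∈ Ico K (N - K), Far Λ n M r Sd.t j := by
    intro j hj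
    rw [mem_Ico] at hj
    refine ⟨by omega, ?_, ?_⟩
    · rw [hn]
      exact Nat.mul_le_mul_right _ (by omega)
    · rw [← hK]; omega
  have hJb : ∀ j ∈ Ico K (N - K), Far Λ n M r Sd.b j := by
    intro j hj
    rw [mem_Ico] at hj
    refine ⟨by omega, ?_, ?_⟩
    · rw [hn]
      exact Nat.mul_le_mul_right _ (by omega)
    · rw [← hK]; omega
  -- the reference arc
  obtain ⟨j0, hj0⟩ : ∃ j0 : ℕ, j0 = m / (4 * r) + 1 := ⟨_, rfl⟩
  have hj0a : m ≤ 4 * (j0 * r) := by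
    have := Nat.lt_div_mul_add (a := m) (b := 4 * r) (by omega)
    have e1 : 4 * (j0 * r) = m / (4 * r) * (4 * r) + 4 * r := by rw [hj0]; ring
    omega
  have hj0b : 2 * (j0 * r) ≤ m := by
    have h3 := Nat.div_mul_le_self m (4 * r)
    have e1 : 4 * (j0 * r) = m / (4 * r) * (4 * r) + 4 * r := by rw [hj0]; ring
    omega
  have hj0K : K ≤ j0 := by
    have : K * r ≤ j0 * r := by omega
    exact Nat.le_of_mul_le_mul_right this hr0
  have hfar0 : Far Λ n M r Sd.l j0 := by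
    refine ⟨by omega, ?_, ?_⟩
    · have : (j0 + Λ + 1) * r = j0 * r + K * r := by rw [hK]; ring
      omega
    · have : Λ * r ≤ K * r := Nat.mul_le_mul_right _ (by omega)
      omega
  obtain ⟨P0, hP0⟩ : ∃ P0 : ℝ, P0 = mac q n M r Sd.l j0 := ⟨_, rfl⟩
  obtain ⟨m0, hm0⟩ : ∃ m0 : ℝ, m0 = mic q n M r Sd.l j0 := ⟨_, rfl⟩
  have hpl0 : 0 < pl q n M (j0 * r) := by
    have h3 := (hlow m (by omega) M hmM (j0 * r) hj0a hj0b).trans (pl_wide hq hmn (j0 * r))
    exact lt_of_lt_of_le (by positivity) h3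
  have hP0p : 0 < P0 := by
    rw [hP0]
    exact lt_of_lt_of_le hpl0 (pl_le_mac hq0 n M hr0 j0)
  have hm0p : 0 < m0 := by
    rw [hm0]
    unfold mic
    refine lt_of_lt_of_le hpl0 ?_
    have := single_le_sum (f := fun k => sdp q n M Sd.l (j0 * r + k))
      (fun k _ => sdp_nonneg hq0 n M Sd.l (j0 * r + k)) (mem_range.2 (by omega : 0 < r))
    exact this
  obtain ⟨ρ, hρ⟩ : ∃ ρ : ℝ, ρ = m0 / P0 := ⟨_, rfl⟩
  have hρ0 : 0 < ρ := by rw [hρ]; positivity
  have hρP : ρ * P0 = m0 := by rw [hρ]; field_simp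
  have hrat1 : ∀ s j, Far Λ n M r s j → mic q n M r s j ≤ (1 + e) * (ρ * mac q n M r s j) := by
    intro s j hf
    have h3 := hrat n M r s Sd.l j j0 hr0 (Far_mono hΛa hf) (Far_mono hΛa hfar0)
    rw [← hP0, ← hm0, ← hρP] at h3
    have h4 : mic q n M r s j * P0 ≤ ((1 + e) * (ρ * mac q n M r s j)) * P0 := by
      calc mic q n M r s j * P0 ≤ _ := h3
        _ = _ := by ring
    exact le_of_mul_le_mul_right h4 hP0p
  have hrat2 : ∀ s j, Far Λ n M r s j → ρ * mac q n M r s j ≤ (1 + e) * mic q n M r s j := by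
    intro s j hf
    have h3 := hrat n M r Sd.l s j0 j hr0 (Far_mono hΛa hfar0) (Far_mono hΛa hf)
    rw [← hP0, ← hm0, ← hρP] at h3
    have h4 : (ρ * mac q n M r s j) * P0 ≤ ((1 + e) * mic q n M r s j) * P0 := by
      calc (ρ * mac q n M r s j) * P0 = ρ * P0 * mac q n M r s j := by ring
        _ ≤ _ := h3
        _ = _ := by ring
    exact le_of_mul_le_mul_right h4 hP0p
  have sum1 : ∀ (s : Sd) (J : Finset ℕ), (∀ j ∈ J, Far Λ n M r s j) →
      ∑ j ∈ J, mic q n M r s j ≤ (1 + e) * (ρ * ∑ j ∈ J, mac q n M r s j) := by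
    intro s J h
    rw [mul_sum, mul_sum]
    exact sum_le_sum fun j hj => hrat1 s j (h j hj)
  have sum2 : ∀ (s : Sd) (J : Finset ℕ), (∀ j ∈ J, Far Λ n M r s j) →
      ρ * ∑ j ∈ J, mac q n M r s j ≤ (1 + e) * ∑ j ∈ J, mic q n M r s j := by
    intro s J h
    rw [mul_sum, mul_sum]
    exact sum_le_sum fun j hj => hrat2 s j (h j hj)
  -- the micro balance
  have hmb := micro_bal hq hq4 (N := N) (M := M) hr0 hK1 hN2 hM2
  have hLm := left_low hq hc hlow (n := n) (M := M) hr0 hK1 (by omega) (by omega) hmn hmM q1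
  have hTm := top_up hq (N := N) (M := M) hr0 hK1 hN2 hm1 hmM
  rw [← hn] at hmb hTm
  rw [← hX] at hLm
  obtain ⟨fl1, fl2⟩ := split_far (fun j => mac_nonneg hq0 n M r Sd.l j)
    (fun j => mac_le_one hq0 n M r Sd.l j) hM2
  obtain ⟨ft1, ft2⟩ := split_far (fun j => mac_nonneg hq0 n M r Sd.t j)
    (fun j => mac_le_one hq0 n M r Sd.t j) hN2
  obtain ⟨fb1, fb2⟩ := split_far (fun j => mac_nonneg hq0 n M r Sd.b j)
    (fun j => mac_le_one hq0 n M r Sd.b j) hN2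
  have eT : numT q N r M = ∑ j ∈ range N, mac q n M r Sd.t j := by rw [hn]; rfl
  have eL : numL q N r M = ∑ j ∈ range (M / r), mac q n M r Sd.l j := by rw [hn]; rfl
  have eB : numB q N r M = ∑ j ∈ range N, mac q n M r Sd.b j := by rw [hn]; rfl
  have sT1 := sum1 Sd.t _ hJt
  have sT2 := sum2 Sd.t _ hJt
  have sL1 := sum1 Sd.l _ hJl
  have sL2 := sum2 Sd.l _ hJl
  have sB1 := sum1 Sd.b _ hJb
  have sB2 := sum2 Sd.b _ hJb
  have pTm : 0 ≤ ∑ j ∈ Ico K (N - K), mic q n M r Sd.t j := sum_nonneg fun j _ => mic_nonneg hq0 _ _ _ _ _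
  have pLm : 0 ≤ ∑ j ∈ Ico K (M / r - K), mic q n M r Sd.l j :=
    sum_nonneg fun j _ => mic_nonneg hq0 _ _ _ _ _
  have pBm : 0 ≤ ∑ j ∈ Ico K (N - K), mic q n M r Sd.b j := sum_nonneg fun j _ => mic_nonneg hq0 _ _ _ _ _
  have pLp : 0 ≤ ∑ j ∈ Ico K (M / r - K), mac q n M r Sd.l j :=
    sum_nonneg fun j _ => mac_nonneg hq0 _ _ _ _ _
  have hrefb := href n M r j0 hr0 (Far_mono hΛb hfar0)
  rw [← hP0, ← hm0] at hrefb
  rw [eT, eL, eB]
  generalize ∑ j ∈ Ico K (N - K), mic q n M r Sd.t j = Tm at *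
  generalize ∑ j ∈ Ico K (M / r - K), mic q n M r Sd.l j = Lm at *
  generalize ∑ j ∈ Ico K (N - K), mic q n M r Sd.b j = Bm at *
  generalize ∑ j ∈ Ico K (N - K), mac q n M r Sd.t j = Tp at *
  generalize ∑ j ∈ Ico K (M / r - K), mac q n M r Sd.l j = Lp at *
  generalize ∑ j ∈ Ico K (N - K), mac q n M r Sd.b j = Bp at *
  generalize ∑ j ∈ range N, mac q n M r Sd.t j = T at *
  generalize ∑ j ∈ range (M / r), mac q n M r Sd.l j = L at *
  generalize ∑ j ∈ range N, mac q n M r Sd.b j = B at *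
  -- numerical conclusion
  have c1 : |Tm + √q * Lm - Bm| ≤ δ * Lm := by
    refine hmb.trans ?_
    have h3 : 9 * SA q (K * r) ≤ δ * c / 16 * X := by linarith
    have h4 : δ * (c / 8 * X) ≤ δ * Lm := mul_le_mul_of_nonneg_left hLm hδ0.le
    linarith
  have c2 : Tm ≤ A * Lm := by
    have h3 : (n : ℝ) ≤ m / α' := by
      rw [le_div_iff₀ hα', hn]
      push_cast
      linarith
    calc Tm ≤ n * wA q 2 m := hTm
      _ ≤ m / α' * wA q 2 m := mul_le_mul_of_nonneg_right h3 hwm.le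
      _ = A * (c / 8 * X) := by rw [hA, hX]; field_simp
      _ ≤ A * Lm := mul_le_mul_of_nonneg_left hLm hA0.le
  have c3 := num_core he0 he1 hδ0 hδ1 hA0.le hρ0 (by linarith : (0 : ℝ) ≤ √q) hs2 pTm pLm pBm pLp sT1
    sT2 sL1 sL2 sB1 sB2 c1 c2
  have c4 : |Tp + √q * Lp - Bp| ≤ ε / 4 * Lp := c3.trans (mul_le_mul_of_nonneg_right he3 pLp)
  -- lower bound for Lp
  have c5 : ρ ≤ C * (r * wA q 2 r) := by
    rw [hρ, div_le_iff₀ hP0p]
    exact hrefb
  have c6 : ρ ≤ c * ε / (256 * K) * X := by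
    refine c5.trans ?_
    calc C * (r * wA q 2 r) ≤ C * (c * ε / (256 * C * K) * X) := mul_le_mul_of_nonneg_left hrX hC.le
      _ = c * ε / (256 * K) * X := by field_simp
  have c7 : 16 * K ≤ ε * Lp := by
    have h3 : c / 8 * X ≤ 2 * (ρ * Lp) := by
      have : 0 ≤ ρ * Lp := mul_nonneg hρ0.le pLp
      have h9 := mul_le_mul_of_nonneg_right he1 this
      linarith
    have h4 : ρ * Lp ≤ c * ε / (256 * K) * X * Lp := mul_le_mul_of_nonneg_right c6 pLp
    have h5 : c / 8 * X ≤ c / 8 * X * (ε * Lp / (16 * K)) := by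
      calc c / 8 * X ≤ 2 * (c * ε / (256 * K) * X * Lp) := by linarith
        _ = _ := by field_simp; ring
    have h6 : 1 ≤ ε * Lp / (16 * K) := by
      have h7 : c / 8 * X * 1 ≤ c / 8 * X * (ε * Lp / (16 * K)) := by rw [mul_one]; exact h5
      exact le_of_mul_le_mul_left h7 (by positivity)
    rw [le_div_iff₀ (by positivity)] at h6
    linarith
  obtain ⟨c8, c9⟩ := abs_le.1 c4
  have c10 : √q * Lp ≤ √q * L := mul_le_mul_of_nonneg_left fl1 (by linarith)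
  have c11 : √q * (L - Lp) ≤ 2 * (2 * K) := mul_le_mul hs2 (by linarith) (by linarith) (by norm_num)
  have c12 : ε * Lp ≤ ε * L := mul_le_mul_of_nonneg_left fl1 hε.le
  rw [abs_le]
  constructor
  · linarith
  · linarith

end Pool.Agent.IDK
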