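import Pool.Agent.IDK.HalfW
import Pool.Agent.FKR.Tol

/-! # IDK/Sym (MP_b3e76a_pr): translations along the flat boundary, reflection, positivity -/

namespace Pool.Agent.IDK

open Finset
open Pool.Agent.FKR
open Pool.Agent.H95.Perc (Inc conn link rect hor ver eh ev mem_rect)
open Pool.Agent.H95.SumRule (edgesIn Z2)
open Pool.Agent.H95.Wedge (Vtx pt)

variable {q : ℝ}

/-- translation along the flat boundary -/
def tr (a : ℤ) : (ℤ × ℤ) ≃ (ℤ × ℤ) where
  toFun p := (p.1, p.2 + a)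
  invFun p := (p.1, p.2 - a)
  left_inv p := by simp
  right_inv p := by simp

/-- reflection of the half plane -/
def rf : (ℤ × ℤ) ≃ (ℤ × ℤ) where
  toFun p := (p.1, -p.2)
  invFun p := (p.1, -p.2)
  left_inv p := by simp
  right_inv p := by simp

@[simp] theorem tr_apply (a : ℤ) (p : ℤ × ℤ) : tr a p = (p.1, p.2 + a) := rfl
@[simp] theorem rf_apply (p : ℤ × ℤ) : rf p = (p.1, -p.2) := rfl

theorem tr_HE {N N' a : ℤ} (h : N + |a| ≤ N') : img (tr a) (HE N) ⊆ HE N' := by
  intro e he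
  unfold img at he
  rw [mem_image] at he
  obtain ⟨e', he', rfl⟩ := he
  induction e' with
  | _ u v =>
    rw [mem_HE, mem_HB, mem_HB] at he'
    obtain ⟨a1, a2, a3⟩ := he'
    rw [Sym2.map_mk, tr_apply, tr_apply, mem_HE, mem_HB, mem_HB]
    have h1 := neg_abs_le a
    have h2 := le_abs_self a
    refine ⟨by simp only; omega, by simp only; omega, ?_⟩
    obtain ⟨u1, u2⟩ := u
    obtain ⟨v1, v2⟩ := v
    rw [Z2_adj_iff] at a3 ⊢
    simp only
    omega

theorem rf_HE (N : ℤ) : img rf (HE N) = HE N := by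
  have key : img rf (HE N) ⊆ HE N := by
    intro e he
    unfold img at he
    rw [mem_image] at he
    obtain ⟨e', he', rfl⟩ := he
    induction e' with
    | _ u v =>
      rw [mem_HE, mem_HB, mem_HB] at he'
      obtain ⟨a1, a2, a3⟩ := he'
      rw [Sym2.map_mk, rf_apply, rf_apply, mem_HE, mem_HB, mem_HB]
      refine ⟨by simp only; omega, by simp only; omega, ?_⟩
      obtain ⟨u1, u2⟩ := u
      obtain ⟨v1, v2⟩ := v
      rw [Z2_adj_iff] at a3 ⊢
      simp only
      omega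
  refine Subset.antisymm key ?_
  have h2 := image_subset_image (f := Sym2.map rf) key
  have h3 : (img rf (HE N)).image (Sym2.map rf) = HE N := by
    unfold img
    rw [image_image]
    have : (Sym2.map (rf : ℤ × ℤ → ℤ × ℤ)) ∘ (Sym2.map rf) = id := by
      funext e
      induction e with
      | _ u v => simp
    rw [this, image_id]
  rw [h3] at h2
  exact h2

theorem P_equiv (hq : 0 < q) {E F : Finset (Sym2 (ℤ × ℤ))} (hE : NL E) (hF : NL F)
    (g : (ℤ × ℤ) ≃ (ℤ × ℤ)) (A : Finset (Sym2 (ℤ × ℤ)) → Prop) :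
    P q (img g E) (img g F) A = P q E F (fun ω => A (img g ω)) :=
  P_map hq hE hF g.injective.injOn A

theorem NL_empty : NL (∅ : Finset (Sym2 (ℤ × ℤ))) := fun e he => absurd he (notMem_empty e)

theorem img_empty (g : ℤ × ℤ → ℤ × ℤ) : img g (∅ : Finset (Sym2 (ℤ × ℤ))) = ∅ := by
  unfold img
  exact image_empty _

/-- translation of an increasing event -/
theorem P_tr_le (hq : 1 ≤ q) {N N' a : ℤ} (h : N + |a| ≤ N') {A : Finset (Sym2 (ℤ × ℤ)) → Prop}
    (hA : Inc A) : P q (HE N) ∅ (fun ω => A (img (tr a) ω)) ≤ P q (HE N') ∅ A := by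
  have hq0 : 0 < q := by linarith
  rw [← P_equiv hq0 (HE_NL N) NL_empty (tr a) A, img_empty]
  exact P_mono_EF hq (HE_NL N') NL_empty (by rw [union_empty]; exact tr_HE h) (Subset.refl _) hA

theorem P_rf (hq : 0 < q) (N : ℤ) (A : Finset (Sym2 (ℤ × ℤ)) → Prop) :
    P q (HE N) ∅ (fun ω => A (img rf ω)) = P q (HE N) ∅ A := by
  rw [← P_equiv hq (HE_NL N) NL_empty rf A, img_empty, rf_HE]

theorem P_HE_mono (hq : 1 ≤ q) {N N' : ℤ} (h : N ≤ N') {A : Finset (Sym2 (ℤ × ℤ)) → Prop}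
    (hA : Inc A) : P q (HE N) ∅ A ≤ P q (HE N') ∅ A :=
  P_mono_EF hq (HE_NL N') NL_empty (by rw [union_empty]; exact HE_mono h) (Subset.refl _) hA

/-- an increasing event which occurs if all edges are open has positive probability -/
theorem P_pos_full (hq : 1 ≤ q) {E F : Finset (Sym2 (ℤ × ℤ))} (hE : NL E) (hF : NL F)
    {A : Finset (Sym2 (ℤ × ℤ)) → Prop} (hA : Inc A) (h : A E) : 0 < P q E F A := by
  have hq0 : 0 < q := by linarith
  have h1 := P_insert_set hq hE hF (S := E) subset_union_left (A := fun _ => True) (B := A)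
    (fun ω _ => hA _ _ subset_union_right h)
  rw [P_true hq0] at h1
  rcases (P_nonneg hq0 E F A).lt_or_eq with h3 | h3
  · exact h3
  · rw [← h3, mul_zero] at h1
    linarith

theorem inc_Out (A : Finset (ℤ × ℤ)) (s : ℤ) : Inc (Out A s) := by
  rintro ω ω' h ⟨a, ha, v, hv, hc⟩
  exact ⟨a, ha, v, hv, hc.mono h⟩

theorem inc_HitA (A : Finset (ℤ × ℤ)) (t : ℤ × ℤ) : Inc (HitA A t) := by
  rintro ω ω' h ⟨a, ha, hc⟩
  exact ⟨a, ha, hc.mono h⟩

theorem inc_HC (n : ℤ) : Inc (HC n) := by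
  rintro ω ω' h ⟨h1, h2, h3⟩
  exact ⟨Pool.Agent.H95.Perc.inc_link _ _ _ _ _ h h1, Pool.Agent.H95.Perc.inc_link _ _ _ _ _ h h2,
    Pool.Agent.H95.Perc.inc_link _ _ _ _ _ h h3⟩

end Pool.Agent.IDK
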