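import Pool.Agent.IDK.CFlat
import Pool.Agent.IDK.HalfW
import Pool.Agent.IDK.Sym
import Pool.Agent.FKR.ArmProd

/-! # IDK/GPi (MP_b3e76a_pr, part G): the one-arm probability of a boundary point of a half-plane

`bdArm q N k`: free FK on `{0, …, 2N} × {0, …, N}`, probability that `(N, 0)` is connected to a vertex at distance
(largest coordinate difference) at least `k`. It equals `tipArm q 2 N k`, and is comparable to `wA q 2 k` for `N ≥ 4 k`. -/

namespace Pool.Agent.IDK

open Finset
open Pool.Agent.FKR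
open Pool.Agent.H95.Perc (Inc conn link rect hor ver eh ev sumE sepE Inci mem_rect)
open Pool.Agent.H95.SumRule (edgesIn Z2 domain fkProb selfDual openGraph)
open Pool.Agent.H95.Wedge (Vtx pt tipArm)

variable {q : ℝ}

/-- Free FK model at its self-dual point on `{0, …, 2N} × {0, …, N}`: probability that the vertex `(N, 0)` is
connected to a vertex at distance at least `k` from it. -/
noncomputable def bdArm (q : ℝ) (N k : ℕ) : ℝ :=
  fkProb (selfDual q) q (domain (2 * N) fun _ => N) ∅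
    fun ω => ∃ v : ℤ × ℤ, (k : ℤ) ≤ max |v.1 - N| |v.2| ∧ (openGraph ω).Reachable ((N : ℤ), 0) v

theorem fkProb_free (hq : 0 < q) (n M : ℕ) (A : Finset (Sym2 (ℤ × ℤ)) → Prop) :
    fkProb (selfDual q) q (domain n fun _ => M) ∅ A = P q (edgesIn (rect 0 n 0 M)) ∅ A := by
  classical
  rw [P_free hq (NL_edgesIn _) (vts_edgesIn _), Pool.Agent.H95.Perc.domain_rect]
  unfold fkProb Pool.Agent.H95.Wedge.PP Pool.Agent.H95.Wedge.fkProb
  have h : Pool.Agent.H95.SumRule.configs (rect 0 n 0 M) ∅ = (edgesIn (rect 0 n 0 M)).powerset := by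
    unfold Pool.Agent.H95.SumRule.configs
    rw [filter_eq_self]
    intro ω _
    exact empty_subset ω
  rw [h]
  rfl

theorem img_gd_HE (N : ℕ) : img (gd (N : ℤ)) (HE N) = edgesIn (rect 0 ((2 * N : ℕ) : ℤ) 0 N) := by
  ext e
  constructor
  · intro he
    unfold img at he
    rw [mem_image] at he
    obtain ⟨e', he', rfl⟩ := he
    induction e' with
    | _ p p' =>
      obtain ⟨a, b⟩ := p
      obtain ⟨c, d⟩ := p'
      rw [mem_HE, mem_HB, mem_HB] at he'
      obtain ⟨h1, h2, h3⟩ := he'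
      simp only at h1 h2
      rw [Sym2.map_mk, gd_apply, gd_apply, Pool.Agent.H95.Perc.mem_edgesIn', mem_rect, mem_rect]
      rw [Z2_adj_iff] at h3 ⊢
      simp only at h3 ⊢
      push_cast
      refine ⟨⟨by omega, by omega, by omega, by omega⟩, ⟨by omega, by omega, by omega, by omega⟩, ?_⟩
      omega
  · intro he
    induction e with
    | _ p p' =>
      obtain ⟨a, b⟩ := p
      obtain ⟨c, d⟩ := p'
      rw [Pool.Agent.H95.Perc.mem_edgesIn', mem_rect, mem_rect, Z2_adj_iff] at he
      obtain ⟨h1, h2, h3⟩ := he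
      push_cast at h1 h2
      unfold img
      rw [mem_image]
      refine ⟨s((b, a - N), (d, c - N)), ?_, ?_⟩
      · rw [mem_HE, mem_HB, mem_HB, Z2_adj_iff]
        simp only
        refine ⟨⟨by omega, by omega, by omega, by omega⟩, ⟨by omega, by omega, by omega, by omega⟩, ?_⟩
        omega
      · rw [Sym2.map_mk, gd_apply, gd_apply]
        congr 2 <;> ring

theorem bdArm_eq (hq : 1 ≤ q) (N k : ℕ) : bdArm q N k = tipArm q 2 N k := by
  have hq0 : 0 < q := by linarith
  rw [tipArm_eq hq]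
  unfold bdArm
  rw [fkProb_free hq0, ← img_gd_HE]
  have e1 : (∅ : Finset (Sym2 (ℤ × ℤ))) = img (gd (N : ℤ)) ∅ := by
    unfold img; exact image_empty _ |>.symm
  rw [show P q (img (gd (N : ℤ)) (HE N)) ∅ = P q (img (gd (N : ℤ)) (HE N)) (img (gd (N : ℤ)) ∅) from by rw [← e1],
    P_equiv hq0 (HE_NL _) (fun e he => absurd he (notMem_empty e))]
  have h2 := P_hc hq0 N (F := ∅) (empty_subset _) (Arm k)
  have e2 : img hc (∅ : Finset (Sym2 (ℤ × ℤ))) = ∅ := by
    unfold img
    exact image_empty _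
  rw [e2] at h2
  rw [h2]
  apply P_congr
  intro ζ hζ
  rw [union_empty]
  have hg0 : gd (N : ℤ) (0, 0) = ((N : ℤ), 0) := by rw [gd_apply]; simp
  constructor
  · rintro ⟨v, hv, hcv⟩
    -- pull back the vertex
    have hc' : Cn (img (gd (N : ℤ)) ζ) (gd (N : ℤ) (0, 0)) v := by rw [hg0]; exact hcv
    obtain ⟨w, rfl⟩ := (gd (N : ℤ)).surjective v
    have hw : Cn ζ (0, 0) w :=
      (Cn_img_iff (gd (N : ℤ)).injective.injOn (S := Set.univ) (fun _ _ => Set.mem_univ _)
        (Set.mem_univ _) (Set.mem_univ _)).mp hc'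
    obtain ⟨a, b⟩ := w
    rw [gd_apply] at hv
    simp only [add_sub_cancel_right] at hv
    -- w lies in the half box or is the point itself
    have ha : 0 ≤ a := by
      by_contra hneg
      have hne : ((0 : ℤ), (0 : ℤ)) ≠ (a, b) := by
        intro h
        rw [Prod.mk.injEq] at h
        omega
      have hmem : (a, b) ∈ vts ζ := (hw.mem_vts hne).2
      rw [mem_vts] at hmem
      obtain ⟨e, he, hae⟩ := hmem
      have := hζ he
      obtain ⟨w, rfl⟩ := Sym2.mem_iff_exists.mp hae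
      rw [mem_HE, mem_HB] at this
      simp only at this
      omega
    refine ⟨hc (a, b), ?_, ?_⟩
    · have := nm_hc (p := (a, b)) ha
      simp only at this
      have h3 : (k : ℤ) ≤ (nm (hc (a, b)) : ℤ) := by
        rw [this]
        rw [abs_of_nonneg ha, max_comm] at hv
        exact hv
      exact_mod_cast h3
    · rw [← hc_zero]
      exact (Cn_hc hζ (by simp) ha).mpr hw
  · rintro ⟨v, hv, hcn⟩
    by_cases htv : tip = v
    · subst htv
      have hk : k = 0 := by
        have : nm tip = 0 := rfl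
        omega
      subst hk
      exact ⟨((N : ℤ), 0), by simp, SimpleGraph.Reachable.refl _⟩
    · have hmem : v ∈ vts (img hc ζ) := (hcn.mem_vts htv).2
      rw [mem_vts] at hmem
      obtain ⟨e, he, hve⟩ := hmem
      unfold img at he
      rw [mem_image] at he
      obtain ⟨e', he', rfl⟩ := he
      rw [Sym2.mem_map] at hve
      obtain ⟨w, hw, rfl⟩ := hve
      obtain ⟨w', rfl⟩ := Sym2.mem_iff_exists.mp hw
      have hwB := hζ he'
      rw [mem_HE, mem_HB] at hwB
      have hw0 : 0 ≤ w.1 := hwB.1.1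
      rw [← hc_zero] at hcn
      have h3 : Cn ζ (0, 0) w := (Cn_hc hζ (by simp) hw0).mp hcn
      refine ⟨gd (N : ℤ) w, ?_, ?_⟩
      · have h4 := nm_hc hw0
        obtain ⟨a, b⟩ := w
        rw [gd_apply]
        simp only [add_sub_cancel_right] at h4 ⊢
        rw [abs_of_nonneg hw0, max_comm]
        rw [← h4]
        exact_mod_cast hv
      · have h4 := Cn_img (f := gd (N : ℤ)) h3
        rw [hg0] at h4
        exact h4

theorem bdArm_le (hq : 1 ≤ q) (N : ℕ) {k : ℕ} (hk : 1 ≤ k) : bdArm q N k ≤ wA q 2 k := by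
  rw [bdArm_eq hq]
  exact tipArm_le hq 2 N hk

theorem bdArm_ge (hq : 1 ≤ q) (hu : UU q) : ∃ C : ℝ, 0 < C ∧ ∃ n0 : ℕ, 1 ≤ n0 ∧
    ∀ k N : ℕ, n0 ≤ k → 4 * k ≤ N → wA q 2 k ≤ C * bdArm q N k := by
  obtain ⟨C, hC, n0, hn0, h⟩ := tipArm_ge hq hu (m := 2) (by norm_num)
  refine ⟨C, hC, n0, hn0, fun k N hk hN => ?_⟩
  rw [bdArm_eq hq]
  exact h k N hk hN

end Pool.Agent.IDK
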