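import Pool.Agent.IDK.GArm
import Pool.Agent.IDK.GPi
import Pool.Agent.IDK.ARect
import Pool.Agent.IDK.ENear
import Pool.Agent.IDK.CMac
import Pool.Agent.FKR.C4

/-! # IDK/GFin (MP_b3e76a_pr, part G, helper98): conformally invariant limits -/

namespace Pool.Agent.IDK

open Finset _root_.IDK Filter Topology
open Pool.Agent.FKR
open Pool.Agent.H95.SumRule (edgesIn Z2 domain bottomArc fkProb selfDual)

variable {q : ℝ}

/-- convergence of the probabilities to come close to an arc -/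
def NearLim (l : Filter (ℕ × ℕ)) (Φ : ℝ → ℝ) (hi : ℝ) (R : ℝ → ℝ → ℝ)
    (G : ℕ → ℕ → ℝ → Set ℕ → ℝ) : Prop :=
  ∀ a b : ℝ, 0 < a → a < b → b < hi → ∀ ε > 0, ∃ δ0 > 0, ∀ δ, 0 < δ → δ < δ0 →
    ∀ᶠ p in l, |G p.1 p.2 δ (realArc p.1 a b) - Φ (R a b)| < ε

theorem realArc_mono {n : ℕ} {a b a' b' : ℝ} (ha : a' ≤ a) (hb : b ≤ b') :
    realArc n a b ⊆ realArc n a' b' := by
  rintro z ⟨h1, h2⟩
  have h3 : (0 : ℝ) ≤ n := Nat.cast_nonneg _
  exact ⟨by nlinarith, by nlinarith⟩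

theorem conv_of_near {l : Filter (ℕ × ℕ)} (hl : Tall l) {Φ : ℝ → ℝ} {hi : ℝ} {R : ℝ → ℝ → ℝ}
    {F : ℕ → ℕ → Set ℕ → ℝ} {G : ℕ → ℕ → ℝ → Set ℕ → ℝ} (hF : ∀ n M, Monotone (F n M))
    (hFG : ∀ n M δ S, 1 ≤ n → 1 ≤ M → 0 ≤ δ → F n M S ≤ G n M δ S) (hN : NearTouch 0 hi F G)
    (hG : NearLim l Φ hi R G) : ConvTo l Φ hi R F := by
  intro a b a' b' ha' haa hab hbb hbi ε hε
  constructor
  · obtain ⟨δ0, hδ0, h1⟩ := hG a' b' ha' (by linarith) hbi ε hε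
    filter_upwards [h1 (δ0 / 2) (by linarith) (by linarith), hl 1] with p h2 h3
    have h4 : F p.1 p.2 (realArc p.1 a b) ≤ F p.1 p.2 (realArc p.1 a' b') :=
      hF _ _ (realArc_mono haa.le hbb.le)
    have h5 := hFG p.1 p.2 (δ0 / 2) (realArc p.1 a' b') h3.1 (by omega) (by linarith)
    linarith [(abs_lt.1 h2).2]
  · obtain ⟨δ0, hδ0, h1⟩ := hG a b (by linarith) hab (by linarith) (ε / 2) (by linarith)
    set η := min (a - a') (b' - b) with hη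
    have hη0 : 0 < η := lt_min (by linarith) (by linarith)
    have hη1 : η ≤ a - a' := min_le_left _ _
    have hη2 : η ≤ b' - b := min_le_right _ _
    obtain ⟨δ1, hδ1, K, h2⟩ := hN a b η (ε / 2) hη0 (by linarith) hab (by linarith) (by linarith)
    set δ := min (δ0 / 2) δ1 with hδ
    have hδp : 0 < δ := lt_min (by linarith) hδ1
    have hδ2 : δ < δ0 := (min_le_left _ _).trans_lt (by linarith)
    obtain ⟨n0, h3⟩ := h2 δ hδp.le (min_le_right _ _)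
    filter_upwards [h1 δ hδp hδ2, hl (max n0 K)] with p h4 h5
    have h6 := h3 p.1 ((le_max_left _ _).trans h5.1) p.2
      (le_trans (Nat.mul_le_mul_right _ (le_max_right _ _)) h5.2)
    have h7 : F p.1 p.2 (realArc p.1 (a - η) (b + η)) ≤ F p.1 p.2 (realArc p.1 a' b') :=
      hF _ _ (realArc_mono (by linarith) (by linarith))
    linarith [(abs_lt.1 h4).1]

theorem fin_bound (hq : 0 < q) (n M : ℕ) (A : Finset (Sym2 (ℤ × ℤ)) → Prop) :
    0 ≤ fkProb (selfDual q) q (domain n fun _ => M) (bottomArc 0 n) A ∧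
      fkProb (selfDual q) q (domain n fun _ => M) (bottomArc 0 n) A ≤ 1 := by
  rw [fkProb_P hq]
  exact ⟨P_nonneg hq _ _ _, P_le_one hq _ _ _⟩

theorem ratL_main (hq : 1 ≤ q) (hq4 : q < 4) (hu : UU q) : RatL (FL q) := by
  intro e he
  obtain ⟨Λ, hΛ, h⟩ := grat hq hq4 hu e he
  refine ⟨Λ, hΛ, fun n M y y' k k' m hm hk hk' h1 h2 h3 h4 h5 => ?_⟩
  have key := h n M n M true true y y' k k' m hm hk hk' ⟨h1, h2, h3⟩ ⟨h4, h5, h3⟩
  simpa only [arcP, if_true] using key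

theorem dblL_main (hq : 1 ≤ q) (hq4 : q < 4) (hu : UU q) : DblL (FL q) := by
  intro S
  obtain ⟨c, hc, Λ, _, h⟩ := arc_D hq hq4 hu S
  refine ⟨c, hc, Λ, fun n M y k m hk hkm hm h1 h2 h3 => ?_⟩
  have key := h n M true y k m hk hkm hm ⟨h1, h2, h3⟩
  simpa only [arcP, if_true] using key

theorem twoL_main (hq : 1 ≤ q) (hq4 : q < 4) (hu : UU q) : TwoL (wA q 2) (FL q) := by
  obtain ⟨c, C, hc, hC, L, n0, _, _, h⟩ := arc_two hq hq4 hu
  refine ⟨c, C, hc, hC, L, n0, fun n M y k h1 h2 h3 h4 h5 h6 => ?_⟩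
  have key := h n M y k h1 h2 h3 h4 h5 h6
  simpa only [arcP, if_true] using key

theorem ghyp_main (hq : 1 ≤ q) (hq4 : q < 4) (hu : UU q) {l : Filter (ℕ × ℕ)} (hl : Tall l)
    {Φ : ℝ → ℝ} (hL : ∀ hi, NearLim l Φ hi sideRatio (FLn q))
    (hB : NearLim l Φ 1 bottomRatio (FBn q)) : GHyp l Φ q (FL q) (FB q) := by
  have hq0 : 0 < q := by linarith
  exact
  { tall := hl
    monoL := FL_mono hq0
    monoB := FB_mono hq0
    boundL := fun n M S => fin_bound hq0 n M _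
    boundB := fun n M S => fin_bound hq0 n M _
    convL := fun hi => conv_of_near hl (FL_mono hq0)
      (fun n M δ S _ _ hδ => FL_le_FLn hq0 n M δ S hδ) (near_left hq hq4 hu hi) (hL hi)
    convB := conv_of_near hl (FB_mono hq0)
      (fun n M δ S hn hM hδ => FB_le_FBn hq0 n M δ S hn hM hδ) (near_bot hq hq4 hu) hB
    mac := macro_main hq hq4 hu
    ratL := ratL_main hq hq4 hu
    dblL := dblL_main hq hq4 hu }

/-- **Part G (i).** -/
theorem conf_regular (hq : 1 ≤ q) (hq4 : q < 4) {l : Filter (ℕ × ℕ)} [NeBot l] (hl : Tall l)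
    {Φ : ℝ → ℝ} (hL : ∀ hi, NearLim l Φ hi sideRatio (FLn q))
    (hB : NearLim l Φ 1 bottomRatio (FBn q)) {x : ℝ} (hx : 0 < x) :
    Tendsto (fun t : ℝ => Φ (1 - x * t) / Φ (1 - t)) (𝓝[>] 0) (𝓝 (x ^ gExp q)) :=
  (ghyp_main hq hq4 (uu_ge hq hq4) hl hL hB).regular hq hq4 hx

/-- **Part G (ii).** -/
theorem conf_arm (hq : 1 ≤ q) (hq4 : q < 4) {l : Filter (ℕ × ℕ)} [NeBot l] (hl : Tall l)
    {Φ : ℝ → ℝ} (hL : ∀ hi, NearLim l Φ hi sideRatio (FLn q))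
    (hB : NearLim l Φ 1 bottomRatio (FBn q))
    (hfull : ∀ Q : ℕ × ℕ → Prop, (∀ᶠ p in l, Q p) → ∃ n0, ∀ n ≥ n0, ∃ M, Q (n, M)) :
    ∀ δ > 0, ∃ n1 : ℕ, ∀ n N : ℕ, n1 ≤ n → 4 * n ≤ N →
      (n : ℝ) ^ (-gExp q - δ) ≤ bdArm q N n ∧ bdArm q N n ≤ (n : ℝ) ^ (-gExp q + δ) := by
  have hu : UU q := uu_ge hq hq4
  have hW : HasExp (wA q 2) (gExp q) := (ghyp_main hq hq4 hu hl hL hB).arm hq hq4 hfull
    (fun n => wA_pos hq (by norm_num) n) (fun m n hm hmn => wA_anti hq hm hmn)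
    (twoL_main hq hq4 hu)
  obtain ⟨C, hC, n0, hn0, h⟩ := bdArm_ge hq hu
  have hW' : HasExp (fun n => 1 / C * wA q 2 n) (gExp q) :=
    hW.of_le (a := 1 / C) (b := 1 / C) (by positivity) (by positivity)
      (Eventually.of_forall fun n => ⟨le_rfl, le_rfl⟩)
  intro δ hδ
  obtain ⟨n1, h1⟩ := hW δ hδ
  obtain ⟨n2, h2⟩ := hW' δ hδ
  refine ⟨max (max n1 n2) n0, fun n N hn hN => ?_⟩
  have k1 : n1 ≤ n := ((le_max_left _ _).trans (le_max_left _ _)).trans hn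
  have k2 : n2 ≤ n := ((le_max_right _ _).trans (le_max_left _ _)).trans hn
  have k3 : n0 ≤ n := (le_max_right _ _).trans hn
  constructor
  · refine (h2 n k2).1.trans ?_
    have h3 := h n N k3 hN
    rw [one_div, inv_mul_le_iff₀ hC]
    exact h3
  · exact (bdArm_le hq N (hn0.trans k3)).trans (h1 n k1).2

end Pool.Agent.IDK
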