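import Pool.Agent.IDK.CRat

/-! # IDK/GRat (MP_b3e76a_pr, part G): the ratio inequality for arcs of different lengths

Arcs `[y, y + k)` and `[y, y + m)`, `k ≤ m`, of the left side (`s = true`) or of the bottom side (`s = false`) of
rectangles `{0, …, n} × {0, …, M}`, `{0, …, n'} × {0, …, M'}`, at distance at least `Λ m` from the corners. -/

namespace Pool.Agent.IDK

open Finset _root_.IDK
open Pool.Agent.FKR

variable {q : ℝ}

/-- touching probability of the arc `[y, y + k)` of the left side (`s = true`) or of the bottom side -/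
noncomputable def arcP (q : ℝ) (n M : ℕ) (s : Bool) (y k : ℕ) : ℝ :=
  if s then FL q n M (Set.Ico y (y + k)) else FB q n M (Set.Ico y (y + k))

/-- the arc `[y, y + m)` has distance at least `Λ m` from the corners and from the other sides -/
def arcFar (Λ : ℕ) (n M : ℕ) (s : Bool) (y m : ℕ) : Prop :=
  if s then Λ * m ≤ y ∧ y + Λ * m ≤ M ∧ Λ * m ≤ n else Λ * m ≤ y ∧ y + Λ * m ≤ n ∧ Λ * m ≤ M

/-- chart -/
noncomputable def arcG (s : Bool) (y : ℕ) : (ℤ × ℤ) ≃ (ℤ × ℤ) := if s then gl y else gd y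

/-- active edges -/
noncomputable def arcE (s : Bool) (n M : ℕ) : Finset (Sym2 (ℤ × ℤ)) := if s then EL n M else ED n M

/-- frozen edges -/
noncomputable def arcF (s : Bool) (n M : ℕ) : Finset (Sym2 (ℤ × ℤ)) := if s then BL n else ring 0 n 0 M

/-- target -/
def arcT (s : Bool) : ℤ × ℤ := if s then (0, 0) else (-1, -1)

theorem arc_left_eq (hq : 0 < q) (n M y k : ℕ) : P q (EL n M) (BL n)
    (fun ω => ∃ a ∈ blk k, Cn ω (gl (y : ℤ) a) (0, 0)) = FL q n M (Set.Ico y (y + k)) := by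
  rw [FL_eq hq]
  apply P_congr
  intro ζ _
  constructor
  · rintro ⟨a, ha, hc⟩
    obtain ⟨i, hi, rfl⟩ := mem_blk.1 ha
    refine ⟨y + i, Set.mem_Ico.2 ⟨by omega, by omega⟩, ?_⟩
    rw [gl_apply] at hc
    have e : (i : ℤ) + (y : ℤ) = ((y + i : ℕ) : ℤ) := by push_cast; ring
    rwa [e] at hc
  · rintro ⟨z, hz, hc⟩
    rw [Set.mem_Ico] at hz
    refine ⟨(0, ((z - y : ℕ) : ℤ)), mem_blk.2 ⟨z - y, by omega, rfl⟩, ?_⟩
    rw [gl_apply]
    have e : ((z - y : ℕ) : ℤ) + (y : ℤ) = (z : ℤ) := by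
      rw [Nat.cast_sub hz.1]; ring
    rwa [e]

theorem arc_dual_eq (hq : 0 < q) {n M y k : ℕ} (hn : 1 ≤ n) (hM : 1 ≤ M) (h : y + k ≤ n) :
    P q (ED n M) (ring 0 n 0 M) (fun ω => ∃ a ∈ blk k, Cn ω (gd (y : ℤ) a) (-1, -1)) =
      FB q n M (Set.Ico y (y + k)) := by
  rw [FB_eq hq hn hM]
  apply P_congr
  intro ζ _
  constructor
  · rintro ⟨a, ha, hc⟩
    obtain ⟨i, hi, rfl⟩ := mem_blk.1 ha
    refine ⟨y + i, Set.mem_Ico.2 ⟨by omega, by omega⟩, by omega, ?_⟩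
    rw [gd_apply] at hc
    have e : (i : ℤ) + (y : ℤ) = ((y + i : ℕ) : ℤ) := by push_cast; ring
    rwa [e] at hc
  · rintro ⟨z, hz, _, hc⟩
    rw [Set.mem_Ico] at hz
    refine ⟨(0, ((z - y : ℕ) : ℤ)), mem_blk.2 ⟨z - y, by omega, rfl⟩, ?_⟩
    rw [gd_apply]
    have e : ((z - y : ℕ) : ℤ) + (y : ℤ) = (z : ℤ) := by
      rw [Nat.cast_sub hz.1]; ring
    rwa [e]

theorem arcP_eq (hq : 0 < q) {n M y k : ℕ} {s : Bool} (hn : 1 ≤ n) (hM : 1 ≤ M)
    (h : s = false → y + k ≤ n) :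
    P q (arcE s n M) (arcF s n M) (fun ω => ∃ a ∈ blk k, Cn ω (arcG s y a) (arcT s)) =
      arcP q n M s y k := by
  cases s
  · simp only [arcE, arcF, arcG, arcT, arcP, Bool.false_eq_true, if_false]
    exact arc_dual_eq hq hn hM (h rfl)
  · simp only [arcE, arcF, arcG, arcT, arcP, if_true]
    exact arc_left_eq hq n M y k

theorem arc_flat {L : ℤ} {n M y m : ℕ} {s : Bool} (hL : 1 ≤ L) (hm : 1 ≤ m)
    (h : arcFar (L + 1).toNat n M s y m) : Flat (arcG s y) (L * m) (arcE s n M) (arcF s n M) (arcT s) := by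
  have hΛ : (((L + 1).toNat : ℕ) : ℤ) = L + 1 := Int.toNat_of_nonneg (by omega)
  have hm' : (1 : ℤ) ≤ m := by exact_mod_cast hm
  have k4 : (1 : ℤ) ≤ L * m := by nlinarith
  have e1 : (L + 1) * (m : ℤ) = L * m + m := by ring
  cases s
  · simp only [arcFar, Bool.false_eq_true, if_false] at h
    obtain ⟨h1, h2, h3⟩ := h
    have h1' : (L + 1) * (m : ℤ) ≤ y := by rw [← hΛ]; exact_mod_cast h1
    have h2' : (y : ℤ) + (L + 1) * m ≤ n := by rw [← hΛ]; exact_mod_cast h2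
    have h3' : (L + 1) * (m : ℤ) ≤ M := by rw [← hΛ]; exact_mod_cast h3
    simp only [arcE, arcF, arcG, arcT, Bool.false_eq_true, if_false]
    exact flat_dual k4 (by omega) (by omega) (by omega)
  · simp only [arcFar, if_true] at h
    obtain ⟨h1, h2, h3⟩ := h
    have h1' : (L + 1) * (m : ℤ) ≤ y := by rw [← hΛ]; exact_mod_cast h1
    have h2' : (y : ℤ) + (L + 1) * m ≤ M := by rw [← hΛ]; exact_mod_cast h2
    have h3' : (L + 1) * (m : ℤ) ≤ n := by rw [← hΛ]; exact_mod_cast h3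
    simp only [arcE, arcF, arcG, arcT, if_true]
    exact flat_left k4 (by omega) (by omega) (by omega)

theorem arcFar_mono {Λ Λ' n M y m : ℕ} {s : Bool} (h : Λ ≤ Λ') (hf : arcFar Λ' n M s y m) :
    arcFar Λ n M s y m := by
  have h1 : Λ * m ≤ Λ' * m := Nat.mul_le_mul_right _ h
  cases s
  · simp only [arcFar, Bool.false_eq_true, if_false] at hf ⊢
    omega
  · simp only [arcFar, if_true] at hf ⊢
    omega

theorem arcFar_pos {Λ n M y m : ℕ} {s : Bool} (hΛ : 1 ≤ Λ) (hm : 1 ≤ m) (hf : arcFar Λ n M s y m) :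
    1 ≤ n ∧ 1 ≤ M ∧ (s = false → y + m ≤ n) := by
  have h1 : 1 * m ≤ Λ * m := Nat.mul_le_mul_right _ hΛ
  cases s
  · simp only [arcFar, Bool.false_eq_true, if_false] at hf
    exact ⟨by omega, by omega, fun _ => by omega⟩
  · simp only [arcFar, if_true] at hf
    exact ⟨by omega, by omega, by simp⟩

theorem blk_mono {k m : ℕ} (h : k ≤ m) : blk k ⊆ HB (m : ℤ) := by
  refine (blk_sub k).trans ?_
  intro p hp
  unfold HB at hp ⊢
  rw [Pool.Agent.H95.Perc.mem_rect] at hp ⊢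
  omega

/-- **Ratio inequality for arcs.** -/
theorem grat (hq : 1 ≤ q) (hq4 : q < 4) (hu : UU q) : ∀ e > 0, ∃ Λ : ℕ, 1 ≤ Λ ∧
    ∀ (n M n' M' : ℕ) (s s' : Bool) (y y' k k' m : ℕ), 1 ≤ m → k ≤ m → k' ≤ m →
      arcFar Λ n M s y m → arcFar Λ n' M' s' y' m →
      arcP q n M s y k * arcP q n' M' s' y' k' ≤
        (1 + e) * (arcP q n M s y k' * arcP q n' M' s' y' k) := by
  intro e he
  obtain ⟨L, hL, h⟩ := RLg hq hq4 hu e he
  have hq0 : 0 < q := by linarith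
  refine ⟨(L + 1).toNat, by omega, ?_⟩
  intro n M n' M' s s' y y' k k' m hm hkm hkm' hf hf'
  have hm' : (1 : ℤ) ≤ m := by exact_mod_cast hm
  obtain ⟨hn1, hM1, hy1⟩ := arcFar_pos (by omega) hm hf
  obtain ⟨hn2, hM2, hy2⟩ := arcFar_pos (by omega) hm hf'
  have hfl := arc_flat hL hm hf
  have hfl' := arc_flat hL hm hf'
  have key := h (m : ℤ) (L * m) (L * m) (arcG s y) (arcG s' y') _ _ _ _ _ _ (blk k) (blk k') hm' le_rfl
    le_rfl hfl hfl' (blk_mono hkm) (blk_mono hkm')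
  rw [arcP_eq hq0 hn1 hM1 (fun hs => by have := hy1 hs; omega),
    arcP_eq hq0 hn1 hM1 (fun hs => by have := hy1 hs; omega),
    arcP_eq hq0 hn2 hM2 (fun hs => by have := hy2 hs; omega),
    arcP_eq hq0 hn2 hM2 (fun hs => by have := hy2 hs; omega)] at key
  exact key

end Pool.Agent.IDK
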