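import Pool.Agent.IDK.GRat

/-! # IDK/GTop (MP_b3e76a_pr): the top side of the rectangle -/

namespace Pool.Agent.IDK

open Finset
open Pool.Agent.FKR
open Pool.Agent.H95.Perc (Inc conn link rect hor ver eh ev sumE sepE Inci mem_rect)
open Pool.Agent.H95.SumRule (edgesIn Z2 domain bottomArc fkProb selfDual)

variable {q : ℝ}

/-- probability that some vertex `(i, M)`, `i ∈ S`, of the top side is connected to the wired bottom side -/
noncomputable def FT (q : ℝ) (n M : ℕ) (S : Set ℕ) : ℝ :=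
  fkProb (selfDual q) q (domain n fun _ => M) (bottomArc 0 n)
    fun ω => ∃ i ∈ S, (Pool.Agent.H95.SumRule.openGraph ω).Reachable (0, 0) ((i : ℤ), (M : ℤ))

theorem FT_eq (hq : 0 < q) (n M : ℕ) (S : Set ℕ) :
    FT q n M S = P q (EL n M) (BL n) (fun ω => ∃ i ∈ S, Cn ω ((i : ℤ), (M : ℤ)) (0, 0)) := by
  unfold FT
  rw [fkProb_P hq]
  apply P_congr
  intro ζ _
  constructor
  · rintro ⟨i, hi, h⟩
    have h' : Cn (ζ ∪ BL n) (0, 0) ((i : ℤ), (M : ℤ)) := h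
    exact ⟨i, hi, h'.symm⟩
  · rintro ⟨i, hi, h⟩
    exact ⟨i, hi, h.symm⟩

/-- chart of the top side -/
def gt (M i0 : ℤ) : (ℤ × ℤ) ≃ (ℤ × ℤ) where
  toFun p := (p.2 + i0, M - p.1)
  invFun p := (M - p.2, p.1 - i0)
  left_inv := by rintro ⟨x, y⟩; simp
  right_inv := by rintro ⟨x, y⟩; simp

theorem gt_apply (M i0 x y : ℤ) : gt M i0 (x, y) = (y + i0, M - x) := rfl

private theorem mem_img_iff' {g : (ℤ × ℤ) ≃ (ℤ × ℤ)} {E : Finset (Sym2 (ℤ × ℤ))} {p p' : ℤ × ℤ} :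
    s(g p, g p') ∈ img g E ↔ s(p, p') ∈ E := by
  constructor
  · intro h
    unfold img at h
    rw [mem_image] at h
    obtain ⟨e, he, h2⟩ := h
    rw [← Sym2.map_mk] at h2
    rw [← Sym2.map.injective g.injective h2]
    exact he
  · exact mem_img_of_mem

private theorem mem_HE' {R a b c d : ℤ} : s((a, b), (c, d)) ∈ HE R ↔
    (0 ≤ a ∧ a ≤ R ∧ -R ≤ b ∧ b ≤ R) ∧ (0 ≤ c ∧ c ≤ R ∧ -R ≤ d ∧ d ≤ R) ∧
    ((a = c ∧ (b = d + 1 ∨ d = b + 1)) ∨ (b = d ∧ (a = c + 1 ∨ c = a + 1))) := by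
  unfold HE HB
  rw [Pool.Agent.H95.Perc.mem_edgesIn', mem_rect, mem_rect, Z2_adj_iff]

private theorem mem_EL' {n M : ℕ} {a b c d : ℤ} : s((a, b), (c, d)) ∈ EL n M ↔
    (0 ≤ a ∧ a ≤ n ∧ 0 ≤ b ∧ b ≤ M) ∧ (0 ≤ c ∧ c ≤ n ∧ 0 ≤ d ∧ d ≤ M) ∧
    ((a = c ∧ (b = d + 1 ∨ d = b + 1)) ∨ (b = d ∧ (a = c + 1 ∨ c = a + 1))) ∧
    ¬ (b = 0 ∧ d = 0) := by
  unfold EL
  rw [mem_sdiff, Pool.Agent.H95.Perc.mem_edgesIn', Pool.Agent.H95.Perc.mem_edgesIn', mem_rect,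
    mem_rect, mem_rect, mem_rect, Z2_adj_iff]
  simp only
  omega

theorem flat_top {n M : ℕ} {i0 R : ℤ} (h1 : R ≤ i0) (h2 : i0 + R ≤ n) (h3 : R < M) :
    Flat (gt M i0) R (EL n M) (BL n) (0, 0) where
  nlE := (NL_edgesIn _).mono sdiff_subset
  nlF := NL_edgesIn _
  sub := by
    intro e he
    unfold img at he
    rw [mem_image] at he
    obtain ⟨e', he', rfl⟩ := he
    induction e' with
    | _ p p' =>
      obtain ⟨a, b⟩ := p
      obtain ⟨c, d⟩ := p'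
      rw [mem_HE'] at he'
      rw [Sym2.map_mk, gt_apply, gt_apply, mem_EL']
      omega
  loc := by
    rintro e he ⟨a, b⟩ hp hpe
    obtain ⟨v, rfl⟩ := Sym2.mem_iff_exists.1 hpe
    unfold HB at hp
    rw [mem_rect] at hp
    obtain ⟨⟨c, d⟩, rfl⟩ := (gt M i0).surjective v
    rw [mem_img_iff', mem_HE']
    rw [gt_apply, gt_apply, mem_EL'] at he
    simp only at hp
    omega
  fr := by
    rintro e he ⟨a, b⟩ hp hpe
    obtain ⟨⟨c, d⟩, rfl⟩ := Sym2.mem_iff_exists.1 hpe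
    unfold HB at hp
    rw [mem_rect] at hp
    unfold BL at he
    rw [gt_apply, Pool.Agent.H95.Perc.mem_edgesIn', mem_rect] at he
    simp only at hp he
    omega
  tout := by
    rintro ⟨a, b⟩ hp h
    unfold HB at hp
    rw [mem_rect] at hp
    rw [gt_apply, Prod.mk.injEq] at h
    simp only at hp
    omega

theorem top_pt (n M i k : ℕ) : P q (EL n M) (BL n)
    (fun ω => Cn ω (gt M i ((0 : ℤ), (k : ℤ))) (0, 0)) = pT q n M (i + k) := by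
  unfold pT
  apply P_congr
  intro ζ _
  rw [gt_apply]
  have e : (k : ℤ) + (i : ℤ) = ((i + k : ℕ) : ℤ) := by push_cast; ring
  rw [e, sub_zero]

theorem top_arc_eq (hq : 0 < q) (n M i k : ℕ) : P q (EL n M) (BL n)
    (fun ω => ∃ a ∈ blk k, Cn ω (gt M i a) (0, 0)) = FT q n M (Set.Ico i (i + k)) := by
  rw [FT_eq hq]
  apply P_congr
  intro ζ _
  constructor
  · rintro ⟨a, ha, hc⟩
    obtain ⟨j, hj, rfl⟩ := mem_blk.1 ha
    refine ⟨i + j, Set.mem_Ico.2 ⟨by omega, by omega⟩, ?_⟩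
    rw [gt_apply] at hc
    have e : (j : ℤ) + (i : ℤ) = ((i + j : ℕ) : ℤ) := by push_cast; ring
    rwa [e, sub_zero] at hc
  · rintro ⟨z, hz, hc⟩
    rw [Set.mem_Ico] at hz
    refine ⟨(0, ((z - i : ℕ) : ℤ)), mem_blk.2 ⟨z - i, by omega, rfl⟩, ?_⟩
    rw [gt_apply]
    have e : ((z - i : ℕ) : ℤ) + (i : ℤ) = (z : ℤ) := by
      rw [Nat.cast_sub hz.1]; ring
    rwa [e, sub_zero]

end Pool.Agent.IDK
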