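import Pool.Agent.IDK.HCge
import Pool.Agent.IDK.HCHub
import Pool.Agent.FKR.PE

/-! # IDK/GlueF (MP_b3e76a_pr): gluing with a half circuit in a flat situation

`κ ω = img g.symm ω ∩ HE N`, increasing in `ω`.
`P_flat_ge`: `Y ω = X (img g.symm ω ∩ HE N)` is increasing, `P q (img g (HE N)) ∅ Y ≤ P q E F Y` (`P_mono_EF`, `img g (HE N) ⊆ img g (HE R) ⊆ E`) and `P q (img g (HE N)) ∅ Y = P q (HE N) ∅ (fun ω => Y (img g ω))` (`P_equiv`), `img g.symm (img g ω) ∩ HE N = ω` for `ω ⊆ HE N`.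
`glueF`: `P_fkg` for the three increasing events `HC m (κ ω)` (`hc_ge`, `P_HE_mono`, `P_flat_ge`), `Out A (2m) (κ ω)` (`P_flat_ge`), `∃ u ∈ HB m, Cn ω (g u) t`. On their intersection let `v` be from `HC_hub` (for `κ ω ⊆ HE N`): `a ∈ A` connected to `w ∉ HB (2m-1)` in `κ`, so `Cn κ a v`.
`Cn (img g.symm ω) u (g.symm t)`, `g.symm t ∉ HB (R-1)`, so by `Cn.exit_tc` with `S z = (z ∈ HB (2m-1))` (or `u` itself is outside of `HB (2m-1)`) `u` is connected to some `y ∉ HB (2m-1)` by edges of `img g.symm ω` touching `HB (2m-1)`; these are in `HE (2m) ⊆ HE N` by `Flat.loc`, `Flat.fr` (under the law, `ω ⊆ E ∪ F`: use the form of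
`P_mono` with `ζ ⊆ E`). So `Cn κ u v`, `Cn κ a u`, hence `Cn ω (g a) (g u)` (`Cn_img`) and `Cn ω (g a) t`. -/

namespace Pool.Agent.IDK

open Finset
open Pool.Agent.FKR
open Pool.Agent.H95.Perc (Inc conn link rect hor ver eh ev mem_rect)
open Pool.Agent.H95.SumRule (edgesIn Z2)

variable {q : ℝ}

private theorem gf_map_symm (g : (ℤ × ℤ) ≃ (ℤ × ℤ)) (e : Sym2 (ℤ × ℤ)) :
    Sym2.map g.symm (Sym2.map g e) = e := by
  induction e with
  | _ u v => simp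

private theorem gf_map_symm' (g : (ℤ × ℤ) ≃ (ℤ × ℤ)) (e : Sym2 (ℤ × ℤ)) :
    Sym2.map g (Sym2.map g.symm e) = e := by
  induction e with
  | _ u v => simp

private theorem gf_img_symm (g : (ℤ × ℤ) ≃ (ℤ × ℤ)) (ω : Finset (Sym2 (ℤ × ℤ))) :
    img g.symm (img g ω) = ω := by
  ext e
  unfold img
  simp only [mem_image]
  constructor
  · rintro ⟨e', ⟨e'', h, rfl⟩, rfl⟩
    rw [gf_map_symm]
    exact h
  · intro h
    exact ⟨_, ⟨e, h, rfl⟩, gf_map_symm g e⟩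

private theorem gf_img_symm' (g : (ℤ × ℤ) ≃ (ℤ × ℤ)) (ω : Finset (Sym2 (ℤ × ℤ))) :
    img g (img g.symm ω) = ω := by
  have := gf_img_symm g.symm ω
  rwa [Equiv.symm_symm] at this

private theorem gf_img_mono (g : (ℤ × ℤ) → (ℤ × ℤ)) {ω ω' : Finset (Sym2 (ℤ × ℤ))} (h : ω ⊆ ω') :
    img g ω ⊆ img g ω' := image_subset_image h

private theorem gf_inc {g : (ℤ × ℤ) ≃ (ℤ × ℤ)} {N : ℤ} {X : Finset (Sym2 (ℤ × ℤ)) → Prop} (hX : Inc X) :
    Inc (fun ω => X (img g.symm ω ∩ HE N)) := by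
  intro ω ω' h hx
  exact hX _ _ (inter_subset_inter (gf_img_mono _ h) (Subset.refl _)) hx

theorem P_flat_ge (hq : 1 ≤ q) {g : (ℤ × ℤ) ≃ (ℤ × ℤ)} {R N : ℤ} {E F : Finset (Sym2 (ℤ × ℤ))}
    {t : ℤ × ℤ} (h : Flat g R E F t) (hN : N ≤ R) {X : Finset (Sym2 (ℤ × ℤ)) → Prop} (hX : Inc X) :
    P q (HE N) ∅ X ≤ P q E F (fun ω => X (img g.symm ω ∩ HE N)) := by
  have hq0 : 0 < q := by linarith
  have e1 : P q (HE N) ∅ X = P q (HE N) ∅ (fun ω => X (img g.symm (img g ω) ∩ HE N)) := by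
    apply P_congr
    intro ζ hζ
    rw [gf_img_symm, union_empty, inter_eq_left.2 hζ]
  rw [e1, ← P_equiv hq0 (HE_NL N) NL_empty g (fun ω => X (img g.symm ω ∩ HE N)), img_empty]
  exact P_mono_EF hq h.nlE h.nlF (((gf_img_mono g (HE_mono hN)).trans h.sub).trans subset_union_left)
    (empty_subset _) (gf_inc hX)

private theorem gf_near {ρ R : ℤ} {e : Sym2 (ℤ × ℤ)} (he : e ∈ HE R) {v : ℤ × ℤ} (hv : v ∈ e)
    (hvB : v ∈ HB (ρ - 1)) : e ∈ HE ρ := by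
  obtain ⟨w, rfl⟩ := Sym2.mem_iff_exists.1 hv
  rw [mem_HE] at he ⊢
  obtain ⟨ha, hb, hadj⟩ := he
  obtain ⟨a1, a2⟩ := v
  obtain ⟨b1, b2⟩ := w
  rw [mem_HB] at ha hb hvB ⊢
  rw [mem_HB]
  refine ⟨?_, ?_, hadj⟩
  · simp only at *; omega
  · rw [Z2_adj_iff] at hadj
    simp only at *; omega

theorem glueF (hq : 1 ≤ q) (hq4 : q < 4) (hu : UU q) : ∃ c : ℝ, 0 < c ∧ ∀ (m : ℕ) (N R : ℤ)
    (g : (ℤ × ℤ) ≃ (ℤ × ℤ)) (E F : Finset (Sym2 (ℤ × ℤ))) (t : ℤ × ℤ) (A : Finset (ℤ × ℤ)), 1 ≤ m →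
    4 * m ≤ N → N ≤ R → Flat g R E F t → A ⊆ HB m →
    c * (P q (HE N) ∅ (Out A (2 * m)) * P q E F (fun ω => ∃ u ∈ HB m, Cn ω (g u) t)) ≤
      P q E F (fun ω => ∃ a ∈ A, Cn ω (g a) t) := by
  have hq0 : 0 < q := by linarith
  obtain ⟨c, hc, hcge⟩ := hc_ge hq hq4 hu
  refine ⟨c, hc, ?_⟩
  intro m N R g E F t A hm hmN hNR hflat hA
  have i1 : Inc (fun ω => HC m (img g.symm ω ∩ HE N)) := gf_inc (inc_HC _)
  have i2 : Inc (fun ω => Out A (2 * m) (img g.symm ω ∩ HE N)) := gf_inc (inc_Out _ _)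
  have i3 : Inc (fun ω : Finset (Sym2 (ℤ × ℤ)) => ∃ u ∈ HB m, Cn ω (g u) t) := by
    rintro ω ω' h ⟨u, hu, hcn⟩
    exact ⟨u, hu, hcn.mono h⟩
  have i23 : Inc (fun ω => Out A (2 * m) (img g.symm ω ∩ HE N) ∧ ∃ u ∈ HB m, Cn ω (g u) t) :=
    fun ω ω' h hx => ⟨i2 _ _ h hx.1, i3 _ _ h hx.2⟩
  have b1 : c ≤ P q E F (fun ω => HC m (img g.symm ω ∩ HE N)) :=
    (hcge m hm).trans ((P_HE_mono hq hmN (inc_HC _)).trans (P_flat_ge hq hflat hNR (inc_HC _)))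
  have b2 : P q (HE N) ∅ (Out A (2 * m)) ≤ P q E F (fun ω => Out A (2 * m) (img g.symm ω ∩ HE N)) :=
    P_flat_ge hq hflat hNR (inc_Out _ _)
  have f1 := P_fkg hq hflat.nlE hflat.nlF i2 i3
  have f2 := P_fkg hq hflat.nlE hflat.nlF i1 i23
  have n1 : 0 ≤ P q (HE N) ∅ (Out A (2 * m)) := P_nonneg hq0 _ _ _
  have n3 : 0 ≤ P q E F (fun ω => ∃ u ∈ HB m, Cn ω (g u) t) := P_nonneg hq0 _ _ _
  have s1 : P q (HE N) ∅ (Out A (2 * m)) * P q E F (fun ω => ∃ u ∈ HB m, Cn ω (g u) t) ≤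
      P q E F (fun ω => Out A (2 * m) (img g.symm ω ∩ HE N) ∧ ∃ u ∈ HB m, Cn ω (g u) t) :=
    (mul_le_mul_of_nonneg_right b2 n3).trans f1
  have s2 : c * (P q (HE N) ∅ (Out A (2 * m)) * P q E F (fun ω => ∃ u ∈ HB m, Cn ω (g u) t)) ≤
      P q E F (fun ω => HC m (img g.symm ω ∩ HE N)) *
        P q E F (fun ω => Out A (2 * m) (img g.symm ω ∩ HE N) ∧ ∃ u ∈ HB m, Cn ω (g u) t) :=
    mul_le_mul b1 s1 (mul_nonneg n1 n3) (P_nonneg hq0 _ _ _)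
  refine (s2.trans f2).trans (P_mono hq0 ?_)
  rintro ζ hζ ⟨hHC, ⟨a, ha, w, hw, haw⟩, u, hu, hut⟩
  obtain ⟨v, _, _, hv⟩ := HC_hub (n := m) (N := N) (by exact_mod_cast hm) inter_subset_right hHC
  have hav := hv a (hA ha) w hw haw
  have hmR : (2 * (m : ℤ) - 1) ≤ R - 1 := by omega
  have hBR : ∀ p : ℤ × ℤ, p ∈ HB (2 * m - 1) → p ∈ HB (R - 1) := by
    intro p hp
    rw [mem_HB] at hp ⊢
    omega
  have hut' : Cn (img g.symm (ζ ∪ F)) u (g.symm t) := by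
    have := Cn_img (f := g.symm) hut
    rwa [Equiv.symm_apply_apply] at this
  have htn : g.symm t ∉ HB (2 * (m : ℤ) - 1) := by
    intro h
    exact hflat.tout _ (hBR _ h) (Equiv.apply_symm_apply g t)
  have hum : u ∈ HB (2 * (m : ℤ) - 1) := by
    rw [mem_HB] at hu ⊢
    omega
  obtain ⟨y, hy, huy⟩ := hut'.exit_tc (S := fun z => z ∈ HB (2 * (m : ℤ) - 1)) hum htn
  have hsub : tc (fun z => z ∈ HB (2 * (m : ℤ) - 1)) (img g.symm (ζ ∪ F)) ⊆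
      img g.symm (ζ ∪ F) ∩ HE N := by
    intro e he
    rw [mem_tc'] at he
    obtain ⟨he1, p, hpe, hp⟩ := he
    refine mem_inter.2 ⟨he1, ?_⟩
    unfold img at he1
    rw [mem_image] at he1
    obtain ⟨e', he', rfl⟩ := he1
    have hgp : g p ∈ e' := by
      rw [Sym2.mem_map] at hpe
      obtain ⟨z, hz, rfl⟩ := hpe
      rwa [Equiv.apply_symm_apply]
    rcases mem_union.1 he' with h1 | h1
    · have h2 := hflat.loc e' (hζ h1) p (hBR p hp) hgp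
      unfold img at h2
      rw [mem_image] at h2
      obtain ⟨e'', he'', rfl⟩ := h2
      rw [gf_map_symm] at hpe ⊢
      exact HE_mono (by omega) (gf_near (ρ := 2 * m) he'' hpe hp)
    · exact absurd hgp (hflat.fr e' h1 p (hBR p hp))
  have huv := hv u hu y hy (huy.mono hsub)
  have hau : Cn (img g.symm (ζ ∪ F) ∩ HE N) a u := hav.trans huv.symm
  have hau' := Cn_img (f := g) (hau.mono inter_subset_left)
  rw [gf_img_symm'] at hau'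
  exact ⟨a, ha, hau'.trans hut⟩

end Pool.Agent.IDK
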