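import Pool.Agent.IDK.FlatHor
import Pool.Agent.IDK.BulkRect

/-! # IDK/HCge (MP_b3e76a_pr): half circuits with free boundary have probability bounded below

`E = HE (4n) \\ HE (n/2)` contains `edgesIn (rect 0 (3n) n (2n))`, its reflection and `edgesIn (rect n (2n) (-3n) (3n))` (an edge with an end outside of `HB (n/2)` is not in `HE (n/2)`). `P_mono_EF` and `P_fkg` for the three increasing
crossing events (`inc_link`): `flatHor` for `hor 0 (2n) n (2n)`; by reflection (`P_equiv` with `rf`: `hor 0 (2n) n (2n) (img rf ω)` implies `hor 0 (2n) (-(2n)) (-n) ω`; map the connection back with `rf`) the same bound for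
`hor 0 (2n) (-(2n)) (-n)` in the reflected domain; `bulkVer` for the third. `hc_ge` follows by `P_mono_EF`. -/

namespace Pool.Agent.IDK

open Finset
open Pool.Agent.FKR
open Pool.Agent.H95.Perc (Inc conn link rect hor ver eh ev mem_rect)
open Pool.Agent.H95.SumRule (edgesIn Z2)
open Pool.Agent.H95.Wedge (Vtx pt)

variable {q : ℝ}

private theorem ann_sub {n : ℕ} {V : Finset (ℤ × ℤ)} (h1 : ∀ v ∈ V, v ∈ HB (4 * n))
    (h2 : ∀ v ∈ V, v ∉ HB ((n / 2 : ℕ) : ℤ)) : edgesIn V ⊆ HE (4 * n) \ HE ((n / 2 : ℕ) : ℤ) := by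
  intro e he
  induction e with
  | _ a b =>
    rw [Pool.Agent.H95.Perc.mem_edgesIn'] at he
    rw [mem_sdiff, mem_HE, mem_HE]
    exact ⟨⟨h1 a he.1, h1 b he.2.1, he.2.2⟩, fun h => h2 a he.1 h.1⟩

private theorem rf_edges {V W : Finset (ℤ × ℤ)} (h : ∀ v ∈ V, rf v ∈ W) :
    img rf (edgesIn V) ⊆ edgesIn W := by
  intro e he
  unfold img at he
  rw [mem_image] at he
  obtain ⟨e', he', rfl⟩ := he
  induction e' with
  | _ u v =>
    rw [Pool.Agent.H95.Perc.mem_edgesIn'] at he'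
    obtain ⟨a1, a2, a3⟩ := he'
    rw [Sym2.map_mk, Pool.Agent.H95.Perc.mem_edgesIn']
    refine ⟨h u a1, h v a2, ?_⟩
    obtain ⟨u1, u2⟩ := u
    obtain ⟨v1, v2⟩ := v
    rw [Z2_adj_iff] at a3 ⊢
    simp only [rf_apply]
    omega

private theorem hor_rf {n : ℕ} {ω : Finset (Sym2 (ℤ × ℤ))} (h : hor 0 (2 * n) n (2 * n) ω) :
    hor 0 (2 * n) (-(2 * n)) (-n) (img rf ω) := by
  obtain ⟨a, b, ha, hb, ha1, hb1, hab⟩ := h
  have key : ∀ v ∈ rect 0 (2 * n) n (2 * n), rf v ∈ rect 0 (2 * n) (-(2 * n)) (-n) := by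
    intro v hv
    rw [mem_rect] at hv ⊢
    simp only [rf_apply]
    omega
  refine ⟨rf a, rf b, key a ha, key b hb, ha1, hb1, ?_⟩
  have h1 : Cn (img rf (ω ∩ edgesIn (rect 0 (2 * n) n (2 * n)))) (rf a) (rf b) := Cn_img hab
  refine h1.mono ?_
  intro e he
  rw [mem_inter]
  constructor
  · unfold img at he ⊢
    exact image_subset_image inter_subset_left he
  · have h2 : e ∈ img rf (edgesIn (rect 0 (2 * n) n (2 * n))) := by
      unfold img at he ⊢
      exact image_subset_image inter_subset_right he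
    exact rf_edges key h2

theorem hc_ann (hq : 1 ≤ q) (hq4 : q < 4) (hu : UU q) : ∃ c : ℝ, 0 < c ∧ ∀ n : ℕ, 1 ≤ n →
    c ≤ P q (HE (4 * n) \ HE ((n / 2 : ℕ) : ℤ)) ∅ (HC n) := by
  have hq0 : 0 < q := by linarith
  obtain ⟨c1, hc1, h1⟩ := flatHor hq hq4 hu
  obtain ⟨c3, hc3, h3⟩ := bulkVer hq hu
  refine ⟨c1 * (c1 * c3), by positivity, fun n hn => ?_⟩
  have hnl : NL (HE (4 * n) \ HE ((n / 2 : ℕ) : ℤ)) := (HE_NL _).mono sdiff_subset
  have b1 : c1 ≤ P q (HE (4 * n) \ HE ((n / 2 : ℕ) : ℤ)) ∅ (hor 0 (2 * n) n (2 * n)) := by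
    refine (h1 n hn).trans (P_mono_EF hq hnl NL_empty ?_ (Subset.refl _)
      (Pool.Agent.H95.Perc.inc_link _ _ _))
    rw [union_empty]
    apply ann_sub
    · intro v hv
      rw [mem_rect] at hv
      rw [mem_HB]
      omega
    · intro v hv
      rw [mem_rect] at hv
      rw [mem_HB]
      omega
  have b2 : c1 ≤ P q (HE (4 * n) \ HE ((n / 2 : ℕ) : ℤ)) ∅ (hor 0 (2 * n) (-(2 * n)) (-n)) := by
    refine (h1 n hn).trans ?_
    have e1 := P_equiv hq0 (NL_edgesIn (rect 0 (3 * n) n (2 * n))) NL_empty rf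
      (hor 0 (2 * n) (-(2 * n)) (-n))
    rw [img_empty] at e1
    refine (P_mono hq0 (fun ζ _ h => ?_)).trans (e1.symm.le.trans ?_)
    · exact hor_rf h
    · refine P_mono_EF hq hnl NL_empty ?_ (Subset.refl _)
        (Pool.Agent.H95.Perc.inc_link _ _ _)
      rw [union_empty]
      refine (rf_edges (W := rect 0 (3 * n) (-(2 * n)) (-n)) ?_).trans (ann_sub ?_ ?_)
      · intro v hv
        rw [mem_rect] at hv ⊢
        simp only [rf_apply]
        omega
      · intro v hv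
        rw [mem_rect] at hv
        rw [mem_HB]
        omega
      · intro v hv
        rw [mem_rect] at hv
        rw [mem_HB]
        omega
  have b3 : c3 ≤ P q (HE (4 * n) \ HE ((n / 2 : ℕ) : ℤ)) ∅ (ver n (2 * n) (-(2 * n)) (2 * n)) := by
    refine (h3 n hn).trans (P_mono_EF hq hnl NL_empty ?_ (Subset.refl _)
      (Pool.Agent.H95.Perc.inc_link _ _ _))
    rw [union_empty]
    apply ann_sub
    · intro v hv
      rw [mem_rect] at hv
      rw [mem_HB]
      omega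
    · intro v hv
      rw [mem_rect] at hv
      rw [mem_HB]
      omega
  have f1 := P_fkg hq hnl NL_empty (A := hor 0 (2 * n) (-(2 * n)) (-n))
    (B := ver n (2 * n) (-(2 * n)) (2 * n)) (Pool.Agent.H95.Perc.inc_link _ _ _)
    (Pool.Agent.H95.Perc.inc_link _ _ _)
  have f2 := P_fkg hq hnl NL_empty (A := hor 0 (2 * n) n (2 * n))
    (B := fun ω => hor 0 (2 * n) (-(2 * n)) (-n) ω ∧ ver n (2 * n) (-(2 * n)) (2 * n) ω)
    (Pool.Agent.H95.Perc.inc_link _ _ _)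
    (fun _ _ h h' => ⟨Pool.Agent.H95.Perc.inc_link _ _ _ _ _ h h'.1,
      Pool.Agent.H95.Perc.inc_link _ _ _ _ _ h h'.2⟩)
  have g1 : c1 * c3 ≤ P q (HE (4 * n) \ HE ((n / 2 : ℕ) : ℤ)) ∅ (hor 0 (2 * n) (-(2 * n)) (-n)) *
      P q (HE (4 * n) \ HE ((n / 2 : ℕ) : ℤ)) ∅ (ver n (2 * n) (-(2 * n)) (2 * n)) :=
    mul_le_mul b2 b3 hc3.le (hc1.le.trans b2)
  have g2 := mul_le_mul b1 (g1.trans f1) (by positivity) (hc1.le.trans b1)
  exact g2.trans f2

theorem hc_ge (hq : 1 ≤ q) (hq4 : q < 4) (hu : UU q) : ∃ c : ℝ, 0 < c ∧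
    ∀ n : ℕ, 1 ≤ n → c ≤ P q (HE (4 * n)) ∅ (HC n) := by
  obtain ⟨c, hc, h⟩ := hc_ann hq hq4 hu
  exact ⟨c, hc, fun n hn => (h n hn).trans (P_mono_EF hq (HE_NL _) NL_empty
    (sdiff_subset.trans (by rw [union_empty])) (Subset.refl _) (inc_HC _))⟩

end Pool.Agent.IDK
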