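import Pool.Agent.FKR.SFactsDef

/-! # IDK/Half (MP_b3e76a_pr): the half plane `x ≥ 0` with free boundary `x = 0` (definitions)

Project IDK: if all touching probabilities of the self-dual FK model (`1 ≤ q < 4`) converge to those of SLE, then
`κ = 4 π / arccos (-√q / 2)`. Parts: A = half-plane estimates, B = ratio limit theorem `RL` / `RLg`, C = the strip
(`IDK/C*`), D = real analysis (`IDK/RA*`). All random-cluster laws are `P q E F` of `FKR/Defs` (`E` active, `F` always open). -/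

namespace Pool.Agent.IDK

open Finset
open Pool.Agent.FKR
open Pool.Agent.H95.Perc (Inc conn link rect hor ver eh ev mem_rect)
open Pool.Agent.H95.SumRule (edgesIn Z2)
open Pool.Agent.H95.Wedge (Vtx pt)

/-- half box of radius `R`; the first coordinate is the distance to the flat boundary -/
noncomputable def HB (R : ℤ) : Finset (ℤ × ℤ) := rect 0 R (-R) R

/-- its edges -/
noncomputable def HE (R : ℤ) : Finset (Sym2 (ℤ × ℤ)) := edgesIn (HB R)

/-- chart of the half plane on the wedge with two quadrants: `(0, k)` is on the ray `0`, `(0, -k)` on the ray `2` -/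
def hc (p : ℤ × ℤ) : Vtx := ch 1 (p.1, -p.2)

/-- a vertex of `A` is connected to a vertex outside `HB (s - 1)` -/
def Out (A : Finset (ℤ × ℤ)) (s : ℤ) (ω : Finset (Sym2 (ℤ × ℤ))) : Prop :=
  ∃ a ∈ A, ∃ v, v ∉ HB (s - 1) ∧ Cn ω a v

/-- a vertex of `A` is connected to `t` -/
def HitA (A : Finset (ℤ × ℤ)) (t : ℤ × ℤ) (ω : Finset (Sym2 (ℤ × ℤ))) : Prop := ∃ a ∈ A, Cn ω a t

/-- environment at radius `R`: frozen open edges and a target outside of `HB (R - 1)` -/
structure Env (R : ℤ) (F : Finset (Sym2 (ℤ × ℤ))) (t : ℤ × ℤ) : Prop where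
  nl : NL F
  fr : ∀ e ∈ F, ∀ v ∈ e, v ∉ HB (R - 1)
  tout : t ∉ HB (R - 1)

/-- hitting probability in an environment -/
noncomputable def hit (q : ℝ) (R : ℤ) (F : Finset (Sym2 (ℤ × ℤ))) (A : Finset (ℤ × ℤ)) (t : ℤ × ℤ) : ℝ :=
  P q (HE R) F (HitA A t)

/-- open half circuit in the half annulus between the radii `n` and `2 n` -/
def HC (n : ℤ) (ω : Finset (Sym2 (ℤ × ℤ))) : Prop :=
  hor 0 (2 * n) n (2 * n) ω ∧ hor 0 (2 * n) (-(2 * n)) (-n) ω ∧ ver n (2 * n) (-(2 * n)) (2 * n) ω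

/-- the chart `g` maps the half box of radius `R` into the graph `E`, its flat boundary to a free boundary; the frozen
edges `F` and the target `t` are outside of the open half box -/
structure Flat (g : (ℤ × ℤ) ≃ (ℤ × ℤ)) (R : ℤ) (E F : Finset (Sym2 (ℤ × ℤ))) (t : ℤ × ℤ) : Prop where
  nlE : NL E
  nlF : NL F
  sub : img g (HE R) ⊆ E
  loc : ∀ e ∈ E, ∀ p ∈ HB (R - 1), g p ∈ e → e ∈ img g (HE R)
  fr : ∀ e ∈ F, ∀ p ∈ HB (R - 1), g p ∉ e
  tout : ∀ p ∈ HB (R - 1), g p ≠ t

end Pool.Agent.IDK
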