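import Pool.Agent.IDK.Sym
import Pool.Agent.FKR.Hub
import Pool.Agent.FKR.Pull

/-! # IDK/HubL (MP_b3e76a_pr): circuits in the half box, lines of circuits

`An_E`: `uu_trans` (FKR/Pull): `P q (edgesIn (bxx x y (12 r))) ∅ (An x y r) = uu q r`, `UU q`, and `P_mono_EF` (`An` is increasing: `inc_An`). `An_HE` follows.
`lineH`, `lineV`: induction on `k`; hubs exist by `An_hub`, consecutive hubs are connected by `Hub_right`, `Hub_up`.
`An_inter`: `An` only uses edges in `bxx x y (2 r)`: `conn V (ω ∩ edgesIn W) = conn V ω` for `V ⊆ W` (or `An_congr` in FKR/Pull).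
`P_lineH`, `P_lineV`: `P_fkg_fin` over `range (k + 1)`. -/

namespace Pool.Agent.IDK

open Finset
open Pool.Agent.FKR
open Pool.Agent.H95.Perc (Inc conn link rect hor ver eh ev mem_rect)
open Pool.Agent.H95.SumRule (edgesIn Z2)
open Pool.Agent.H95.Wedge (Vtx pt)

variable {q : ℝ}

theorem An_E (hq : 1 ≤ q) (hu : UU q) : ∃ c : ℝ, 0 < c ∧ c ≤ 1 ∧ ∀ (E : Finset (Sym2 (ℤ × ℤ))) (x y r : ℤ),
    NL E → 1 ≤ r → edgesIn (bxx x y (12 * r)) ⊆ E → c ≤ P q E ∅ (An x y r) := by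
  obtain ⟨c, hc, h⟩ := hu
  refine ⟨min c 1, lt_min hc one_pos, min_le_right _ _, fun E x y r hE hr hs => ?_⟩
  have hF : NL (∅ : Finset (Sym2 (ℤ × ℤ))) := fun e he => absurd he (notMem_empty e)
  refine (min_le_left _ _).trans ((h r hr).trans ?_)
  rw [← uu_trans (by linarith) x y r]
  exact P_mono_EF hq hE hF (by rw [union_empty]; exact hs) (Subset.refl _) (inc_An x y r)

theorem An_HE (hq : 1 ≤ q) (hu : UU q) : ∃ c : ℝ, 0 < c ∧ c ≤ 1 ∧ ∀ N x y r : ℤ, 1 ≤ r →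
    12 * r ≤ x → x + 12 * r ≤ N → |y| + 12 * r ≤ N → c ≤ P q (HE N) ∅ (An x y r) := by
  obtain ⟨c, hc, hc1, h⟩ := An_E hq hu
  refine ⟨c, hc, hc1, fun N x y r hr h1 h2 h3 => h (HE N) x y r (NL_edgesIn _) hr ?_⟩
  unfold HE HB bxx
  have h4 := le_abs_self y
  have h5 := neg_abs_le y
  apply Pool.Agent.H95.Perc.edgesIn_mono
  apply Pool.Agent.H95.Perc.rect_mono <;> omega

theorem An_inter {ω : Finset (Sym2 (ℤ × ℤ))} {x y r : ℤ} (hr : 1 ≤ r) {V : Finset (ℤ × ℤ)}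
    (hV : bxx x y (2 * r) ⊆ V) (h : An x y r ω) : An x y r (ω ∩ edgesIn V) :=
  An_congr (by omega) (fun e he hω => mem_inter.2 ⟨hω, Pool.Agent.H95.Perc.edgesIn_mono hV he⟩) h

private theorem hub_same {κ : Finset (Sym2 (ℤ × ℤ))} {x y n : ℤ} (hn : 1 ≤ n) {u u' : ℤ × ℤ}
    (h : Hub x y n κ u) (h' : Hub x y n κ u') : Cn κ u u' := by
  obtain ⟨⟨a1, b1, ha1, hb1, ⟨ha1', hu1⟩, hb1', hab1⟩, -, -, -⟩ := h
  obtain ⟨-, -, -, ⟨c2, d2, hc2, hd2, ⟨hc2', hu4⟩, hd2', hcd2⟩⟩ := h'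
  have k : Cn κ a1 c2 := hv_cross (by omega) (by omega) (by omega) (by omega) (by omega)
    (by omega) ha1 ha1' hb1' hab1 hc2 hc2' hd2' hcd2
  exact (hu1.symm.trans k).trans hu4

theorem lineH {κ : Finset (Sym2 (ℤ × ℤ))} {x y r : ℤ} (hr : 1 ≤ r) {k : ℕ}
    (h : ∀ i : ℕ, i ≤ k → An (x + i * r) y r κ) {u u' : ℤ × ℤ} (hu : Hub x y r κ u)
    (hu' : Hub (x + k * r) y r κ u') : Cn κ u u' := by
  induction k generalizing u' with
  | zero =>
    rw [Nat.cast_zero, zero_mul, add_zero] at hu'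
    exact hub_same hr hu hu'
  | succ k ih =>
    obtain ⟨v, hv⟩ := An_hub hr (h k (Nat.le_succ k))
    have h1 := ih (fun i hi => h i (hi.trans (Nat.le_succ k))) hv
    have e : x + ((k + 1 : ℕ) : ℤ) * r = x + k * r + r := by push_cast; ring
    rw [e] at hu'
    exact h1.trans (Hub_right hr hv hu')

theorem lineV {κ : Finset (Sym2 (ℤ × ℤ))} {x y r : ℤ} (hr : 1 ≤ r) {k : ℕ}
    (h : ∀ i : ℕ, i ≤ k → An x (y + i * r) r κ) {u u' : ℤ × ℤ} (hu : Hub x y r κ u)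
    (hu' : Hub x (y + k * r) r κ u') : Cn κ u u' := by
  induction k generalizing u' with
  | zero =>
    rw [Nat.cast_zero, zero_mul, add_zero] at hu'
    exact hub_same hr hu hu'
  | succ k ih =>
    obtain ⟨v, hv⟩ := An_hub hr (h k (Nat.le_succ k))
    have h1 := ih (fun i hi => h i (hi.trans (Nat.le_succ k))) hv
    have e : y + ((k + 1 : ℕ) : ℤ) * r = y + k * r + r := by push_cast; ring
    rw [e] at hu'
    exact h1.trans (Hub_up hr hv hu')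

/-- a horizontal line of circuits -/
theorem P_lineH (hq : 1 ≤ q) {c : ℝ} (hc : 0 ≤ c) {E : Finset (Sym2 (ℤ × ℤ))} (hE : NL E) {x y r : ℤ} {k : ℕ}
    (h : ∀ i : ℕ, i ≤ k → c ≤ P q E ∅ (An (x + i * r) y r)) :
    c ^ (k + 1) ≤ P q E ∅ (fun ω => ∀ i : ℕ, i ≤ k → An (x + i * r) y r ω) := by
  have hF : NL (∅ : Finset (Sym2 (ℤ × ℤ))) := fun e he => absurd he (notMem_empty e)
  have h1 := P_fkg_fin hq hE hF (range (k + 1)) (A := fun i : ℕ => An (x + i * r) y r)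
    (fun i _ => inc_An _ _ _) hc (fun i hi => h i (by rw [mem_range] at hi; omega))
  rw [card_range] at h1
  refine h1.trans (le_of_eq (P_congr fun ζ _ => ?_))
  simp only [mem_range, Nat.lt_succ_iff]

theorem P_lineV (hq : 1 ≤ q) {c : ℝ} (hc : 0 ≤ c) {E : Finset (Sym2 (ℤ × ℤ))} (hE : NL E) {x y r : ℤ} {k : ℕ}
    (h : ∀ i : ℕ, i ≤ k → c ≤ P q E ∅ (An x (y + i * r) r)) :
    c ^ (k + 1) ≤ P q E ∅ (fun ω => ∀ i : ℕ, i ≤ k → An x (y + i * r) r ω) := by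
  have hF : NL (∅ : Finset (Sym2 (ℤ × ℤ))) := fun e he => absurd he (notMem_empty e)
  have h1 := P_fkg_fin hq hE hF (range (k + 1)) (A := fun i : ℕ => An x (y + i * r) r)
    (fun i _ => inc_An _ _ _) hc (fun i hi => h i (by rw [mem_range] at hi; omega))
  rw [card_range] at h1
  refine h1.trans (le_of_eq (P_congr fun ζ _ => ?_))
  simp only [mem_range, Nat.lt_succ_iff]

end Pool.Agent.IDK
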