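import Mathlib
import Pool.Agent.H95.SumRule.Defs

/-!
Definitions for the statements on the interface of the critical FK model in a half-strip.

The domain is the rectangle `{0, …, n} × {0, …, M}` of the square lattice with the bottom side wired and the other
three sides free, `M` much larger than `n`; after division by `n` it approximates the half-strip of width `1`. The
interface runs from the corner `(0, 0)` to the corner `(n, 0)` between the open cluster of the bottom side and the dual
cluster of the other three sides.
-/

namespace Pool.Agent.IDK.Strip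

open Pool.Agent.H95.SumRule

/-- The faces (unit squares, named by their lower left corners) of the square lattice. Adjacent faces are joined across
the edges which are not open in `ω`. -/
def faceGraph (ω : Finset (Sym2 (ℤ × ℤ))) : SimpleGraph (ℤ × ℤ) :=
  SimpleGraph.fromRel fun f g =>
    (g = (f.1 + 1, f.2) ∧ s((f.1 + 1, f.2), (f.1 + 1, f.2 + 1)) ∉ ω) ∨
    (g = (f.1, f.2 + 1) ∧ s((f.1, f.2 + 1), (f.1 + 1, f.2 + 1)) ∉ ω)

/-- Probability that the open cluster of the wired bottom side contains a vertex `(x, y)` with `x ≤ δ n` and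
`a n ≤ y ≤ b n`: the interface comes within distance `δ n` of the arc `[a n, b n]` of the left side. -/
noncomputable def nearSide (q : ℝ) (n M : ℕ) (δ a b : ℝ) : ℝ :=
  fkProb (selfDual q) q (domain n fun _ => M) (bottomArc 0 n)
    fun ω => ∃ x y : ℕ, (x : ℝ) ≤ δ * n ∧ (a * n ≤ y ∧ (y : ℝ) ≤ b * n) ∧
      (openGraph ω).Reachable (0, 0) ((x : ℤ), (y : ℤ))

/-- Probability that a face `(x, y)` with `a n ≤ x ≤ b n` and `y ≤ δ n` is joined to the outside of the rectangle
without crossing an open edge: the interface comes within distance `δ n` of the arc `[a n, b n]` of the bottom side. -/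
noncomputable def nearBottom (q : ℝ) (n M : ℕ) (δ a b : ℝ) : ℝ :=
  fkProb (selfDual q) q (domain n fun _ => M) (bottomArc 0 n)
    fun ω => ∃ x y : ℕ, (a * n ≤ x ∧ (x : ℝ) ≤ b * n) ∧ x < n ∧ (y : ℝ) ≤ δ * n ∧
      (faceGraph ω).Reachable ((x : ℤ), (y : ℤ)) (-1, -1)

/-- The half-strip `{0 < Re z < 1, Im z > 0}` is mapped onto the upper half-plane by `z ↦ tan (π z / 2) ^ 2`; the
corners `0` and `1` are mapped to `0` and `∞`. `sideRatio a b` is the quotient of the images of the end points of the
arc `[i a, i b]` of the left side. -/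
noncomputable def sideRatio (a b : ℝ) : ℝ :=
  (Real.tanh (Real.pi * a / 2) / Real.tanh (Real.pi * b / 2)) ^ 2

/-- The same for the arc `[a, b]` of the bottom side. -/
noncomputable def bottomRatio (a b : ℝ) : ℝ :=
  (Real.tan (Real.pi * a / 2) / Real.tan (Real.pi * b / 2)) ^ 2

/-- Probability that chordal SLE with parameter `κ` from `0` to `∞` in the upper half-plane hits the interval
`[u, v]`, `0 < u < v`, as a function of `t = u / v`. -/
noncomputable def sleHit (κ t : ℝ) : ℝ :=
  if κ ≤ 4 then 0 else if 8 ≤ κ then 1 else
    (∫ s in t..1, s ^ (-4 / κ) * (1 - s) ^ (8 / κ - 2)) /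
      (∫ s in (0 : ℝ)..1, s ^ (-4 / κ) * (1 - s) ^ (8 / κ - 2))

/-- FK model at its self-dual point with free boundary conditions on the half-box `{-N, …, N} × {0, …, N}` (translated
by `N`): probability that the boundary vertex `(N, 0)` in the middle of the bottom side is connected to a vertex at
distance (largest coordinate difference) at least `k`. -/
noncomputable def halfArm (q : ℝ) (N k : ℕ) : ℝ :=
  fkProb (selfDual q) q (domain (2 * N) fun _ => N) ∅
    fun ω => ∃ v : ℤ × ℤ, (k : ℤ) ≤ max |v.1 - N| |v.2| ∧ (openGraph ω).Reachable ((N : ℤ), 0) v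

/-- Along the rectangles of width `n j` and height `M j` the probabilities that the interface comes close to an arc of
the left side or of the bottom side converge (first `j → ∞`, then `δ → 0`) to a function `Φ` of the cross-ratio of the
arc. This holds if the interface converges in law in the Hausdorff metric to a random closed set which hits arcs with
conformally invariant probabilities. -/
def ConformalLimit (q : ℝ) (n M : ℕ → ℕ) (Φ : ℝ → ℝ) : Prop :=
  (∀ a b : ℝ, 0 < a → a < b → ∀ ε > 0, ∃ δ₀ > 0, ∀ δ, 0 < δ → δ < δ₀ →
    ∀ᶠ j in Filter.atTop, |nearSide q (n j) (M j) δ a b - Φ (sideRatio a b)| < ε) ∧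
  (∀ a b : ℝ, 0 < a → a < b → b < 1 → ∀ ε > 0, ∃ δ₀ > 0, ∀ δ, 0 < δ → δ < δ₀ →
    ∀ᶠ j in Filter.atTop, |nearBottom q (n j) (M j) δ a b - Φ (bottomRatio a b)| < ε)

end Pool.Agent.IDK.Strip
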