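import Pool.Agent.IDK.KDefs
import Pool.Agent.IDK.GFin

/-! # IDK/KMain (MP_b3e76a_pr, helper98): final theorems in terms of the definitions of KDefs -/

namespace Pool.Agent.IDK

open Filter Topology _root_.IDK
open Pool.Agent.FKR (UU uu_ge)
open Pool.Agent.H95.SumRule

variable {q : ℝ}

theorem nearSide_eq (q : ℝ) (n M : ℕ) (δ a b : ℝ) :
    Strip.nearSide q n M δ a b = FLn q n M δ (realArc n a b) := rfl

theorem nearBottom_eq (q : ℝ) (n M : ℕ) (δ a b : ℝ) :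
    Strip.nearBottom q n M δ a b = FBn q n M δ (realArc n a b) := rfl

theorem sleHit_eq (κ t : ℝ) : Strip.sleHit κ t = sleTouch κ t := rfl

theorem halfArm_eq (q : ℝ) (N k : ℕ) : Strip.halfArm q N k = bdArm q N k := rfl

/-- **Identification of the parameter.** -/
theorem kappa_main (hq : 1 ≤ q) (hq4 : q < 4) {κ : ℝ} (hκ0 : 0 < κ)
    (hκ : κ ≠ 4 * Real.pi / Real.arccos (-√q / 2)) :
    ∃ ε > 0, ∃ δ₀ > 0, ∃ A B : Finset (ℝ × ℝ),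
      (∀ I ∈ A, 0 < I.1 ∧ I.1 < I.2) ∧ (∀ I ∈ B, 0 < I.1 ∧ I.1 < I.2 ∧ I.2 < 1) ∧
      ∃ K : ℕ, ∀ δ : ℝ, 0 ≤ δ → δ ≤ δ₀ → ∃ n₀ : ℕ, ∀ n ≥ n₀, ∀ M ≥ K * n,
        (∃ I ∈ A, ε ≤ |Strip.nearSide q n M δ I.1 I.2 -
          Strip.sleHit κ (Strip.sideRatio I.1 I.2)|) ∨
        (∃ I ∈ B, ε ≤ |Strip.nearBottom q n M δ I.1 I.2 -
          Strip.sleHit κ (Strip.bottomRatio I.1 I.2)|) := by
  have h := no_sle_n (k := κ) hq hq4 (uu_ge hq hq4) hκ0 hκ (macro_main hq hq4 (uu_ge hq hq4))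
  obtain ⟨ε, hε, δ0, hδ0, A, B, hA, hB, K, h1⟩ := h
  refine ⟨ε, hε, δ0, hδ0, A, B, hA, hB, K, fun δ hδ hδ' => ?_⟩
  obtain ⟨n0, h2⟩ := h1 δ hδ hδ'
  exact ⟨n0, fun n hn M hM => h2 n hn M hM⟩

/-- the filter of a sequence of rectangles -/
noncomputable def seqF (n M : ℕ → ℕ) : Filter (ℕ × ℕ) := atTop.map fun j => (n j, M j)

theorem seqF_tall {n M : ℕ → ℕ} (hn : Tendsto n atTop atTop)
    (hM : Tendsto (fun j => (M j : ℝ) / n j) atTop atTop) : Tall (seqF n M) := by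
  intro K
  unfold seqF
  rw [eventually_map]
  filter_upwards [hn.eventually_ge_atTop K, hM.eventually_ge_atTop (K : ℝ),
    hn.eventually_ge_atTop 1] with j h1 h2 h3
  refine ⟨h1, ?_⟩
  have h4 : (0 : ℝ) < n j := by exact_mod_cast h3
  rw [le_div_iff₀ h4] at h2
  exact_mod_cast h2

/-- **The exponent of conformally invariant limits.** -/
theorem conformal_main (hq : 1 ≤ q) (hq4 : q < 4) {n M : ℕ → ℕ} (hn : Tendsto n atTop atTop)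
    (hM : Tendsto (fun j => (M j : ℝ) / n j) atTop atTop) {Φ : ℝ → ℝ}
    (hΦ : Strip.ConformalLimit q n M Φ) :
    (∀ x : ℝ, 0 < x → Tendsto (fun t : ℝ => Φ (1 - x * t) / Φ (1 - t)) (𝓝[>] 0)
      (𝓝 (x ^ (2 / Real.pi * Real.arcsin (√q / 2))))) ∧
    ((∀ j, n j = j) → ∀ δ > 0, ∃ k₀ : ℕ, ∀ k N : ℕ, k₀ ≤ k → 4 * k ≤ N →
      (k : ℝ) ^ (-(2 / Real.pi * Real.arcsin (√q / 2)) - δ) ≤ Strip.halfArm q N k ∧
      Strip.halfArm q N k ≤ (k : ℝ) ^ (-(2 / Real.pi * Real.arcsin (√q / 2)) + δ)) := by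
  have hl := seqF_tall hn hM
  haveI : NeBot (seqF n M) := by unfold seqF; infer_instance
  have hL : ∀ hi, NearLim (seqF n M) Φ hi sideRatio (FLn q) := by
    intro hi a b ha hab _ ε hε
    obtain ⟨δ0, hδ0, h⟩ := hΦ.1 a b ha hab ε hε
    exact ⟨δ0, hδ0, fun δ hδ hδ' => eventually_map.2 (h δ hδ hδ')⟩
  have hB : NearLim (seqF n M) Φ 1 bottomRatio (FBn q) := by
    intro a b ha hab hb ε hε
    obtain ⟨δ0, hδ0, h⟩ := hΦ.2 a b ha hab hb ε hε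
    exact ⟨δ0, hδ0, fun δ hδ hδ' => eventually_map.2 (h δ hδ hδ')⟩
  refine ⟨fun x hx => conf_regular hq hq4 hl hL hB hx, fun hj δ hδ => ?_⟩
  obtain ⟨n1, h1⟩ := conf_arm hq hq4 hl hL hB (by
    intro Q hQ
    obtain ⟨n0, h0⟩ := eventually_atTop.1 (eventually_map.1 hQ)
    refine ⟨n0, fun k hk => ⟨M k, ?_⟩⟩
    have := h0 k hk
    rwa [hj k] at this) δ hδ
  exact ⟨n1, fun k N hk hN => h1 k N hk hN⟩

end Pool.Agent.IDK
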