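import Pool.Agent.IDK.QuasiU
import Pool.Agent.IDK.FarmZ

/-! # IDK/Pair (MP_b3e76a_pr): three-point upper bound on the flat boundary

Let `e : (x, z) ↦ (x, y - z)` (`tr (-y)` followed by `rf`), `d = y' - y` (a natural number), `N' = N + 2 n`. By `P_tr_le` and `P_rf`
`P q (HE N) ∅ (Cn 0 (0,y) ∧ Cn 0 (0,y')) ≤ P q (HE N') ∅ A`, `A ω = Cn ω (0,y) (0,0) ∧ Cn ω (0,y) (0,-d)`. Write `t = (0, y)`.
Case 1: `d ≤ 2`: `P A ≤ P (Cn (0,0) t) ≤ wA q 2 (n/3) ^ 2` (by `armF` twice as below, or `P_hc` and `ray_up`), `≤ C wA q 2 n ^ 2 ≤ C' wA q 2 d * wA q 2 n ^ 2`.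
Case 2: `3 ≤ d`, `128 d ≤ y`: `ρ = d / 3`. `A` implies `X1 ∧ (X2 ∧ B)`: `X1`: `(0,0)` is connected to a vertex outside `HB (ρ - 1)`; `X2`: `(0,-d)` is connected to a vertex
outside `(HB (ρ - 1)).image (tr (-d))`; `B`: some `u ∈ HB (4 d)` has `Cn ω u t`. `armF` with `g = Equiv.refl` and then with `g = tr (-d)` (`E = HE N'`, `F = ∅`, both for radius `ρ`; if
`HE N'` does not contain the half ball of radius `d/3` around `(0,-d)` enlarge `N'` to `N + 2 n + 4 d`): `B` only depends on the edges with an end outside `HB (4d)` (`Cn_tc_iff` with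
`S v = (v ∉ HB (4d))`, from `t`), `X2` only on edges touching its half ball (`Cn_tc_iff`), which is disjoint from the other one with a gap.
So `P A ≤ wA q 2 ρ ^ 2 * P B`, `P B ≤ P q (WE 2 N') ∅ (DT (4 d) (ch 0 (y, 0)))` (`P_hc`, `hc (0, y) = ch 0 (y, 0)`), and `quasiU` with `k = d`, `T = y`:
`wA q 2 d * P B ≤ C wA q 2 y ^ 2 ≤ C wA q 2 n ^ 2`. Finally `wA q 2 (d / 3) ≤ C' wA q 2 d` (`wA_dbl`, and for small `d` by `wA ≤ 1` and `wA_pos`), so
`P A ≤ C'² wA q 2 d ^ 2 * C wA q 2 n ^ 2 / wA q 2 d`.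
Case 3: `y < 128 d`: three half balls of radius `ρ = d / 3` around `(0,0)`, `(0,-d)`, `t` (`d ≤ n ≤ y`): `P A ≤ wA q 2 ρ ^ 3` (`armF` three times) `≤ C wA q 2 n ^ 3 ≤ C wA q 2 d * wA q 2 n ^ 2`
(`n ≤ 128 d`, `wA_dbl` five times, `d ≤ n`, small `n` trivial). -/

namespace Pool.Agent.IDK

open Finset
open Pool.Agent.FKR
open Pool.Agent.H95.Perc (Inc conn link rect hor ver eh ev mem_rect)
open Pool.Agent.H95.SumRule (edgesIn Z2)
open Pool.Agent.H95.Wedge (Vtx pt)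

variable {q : ℝ}

attribute [local irreducible] wA P

/-- exit event of the half ball of radius `ρ` around `(0, a)` -/
private def XA (a : ℤ) (ρ : ℕ) (ω : Finset (Sym2 (ℤ × ℤ))) : Prop :=
  ∃ v, v ∉ (HB ((ρ : ℤ) - 1)).image (tr a) ∧ Cn ω (tr a (0, 0)) v

private theorem mem_im {a ρ : ℤ} {v : ℤ × ℤ} : v ∈ (HB ρ).image (tr a) ↔
    0 ≤ v.1 ∧ v.1 ≤ ρ ∧ a - ρ ≤ v.2 ∧ v.2 ≤ a + ρ := by
  rw [mem_image]
  constructor
  · rintro ⟨p, hp, rfl⟩
    rw [mem_HB] at hp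
    rw [tr_apply]
    simp only
    omega
  · intro h
    refine ⟨(v.1, v.2 - a), ?_, ?_⟩
    · rw [mem_HB]
      simp only
      omega
    · rw [tr_apply]
      simp

private theorem img_tr_ends {a ρ : ℤ} {e : Sym2 (ℤ × ℤ)} (he : e ∈ img (tr a) (HE ρ)) :
    ∀ v ∈ e, 0 ≤ v.1 ∧ v.1 ≤ ρ ∧ a - ρ ≤ v.2 ∧ v.2 ≤ a + ρ := by
  unfold img at he
  rw [mem_image] at he
  obtain ⟨e', he', rfl⟩ := he
  induction e' with
  | _ x y =>
    rw [mem_HE, mem_HB, mem_HB] at he'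
    obtain ⟨hx, hy, -⟩ := he'
    intro v hv
    rw [Sym2.map_mk, Sym2.mem_iff] at hv
    rcases hv with rfl | rfl
    · rw [tr_apply]
      simp only
      omega
    · rw [tr_apply]
      simp only
      omega

private theorem loc_tr (a N : ℤ) (ρ : ℕ) : ∀ e ∈ HE N, ∀ p ∈ HB ((ρ : ℤ) - 1), tr a p ∈ e →
    e ∈ img (tr a) (HE ρ) := by
  intro e he p hp hpe
  induction e with
  | _ x y =>
    rw [mem_HE, mem_HB, mem_HB] at he
    obtain ⟨hx, hy, hxy⟩ := he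
    rw [mem_HB] at hp
    rw [Sym2.mem_iff, tr_apply] at hpe
    obtain ⟨x1, x2⟩ := x
    obtain ⟨y1, y2⟩ := y
    rw [Z2_adj_iff] at hxy
    simp only [Prod.mk.injEq] at hpe hx hy
    unfold img
    rw [mem_image]
    refine ⟨s((x1, x2 - a), (y1, y2 - a)), ?_, ?_⟩
    · rw [mem_HE, mem_HB, mem_HB, Z2_adj_iff]
      simp only
      omega
    · rw [Sym2.map_mk, tr_apply, tr_apply]
      simp

private theorem arm1 (hq : 1 ≤ q) {ρ : ℕ} (hρ : 1 ≤ ρ) (a N : ℤ) {B : Finset (Sym2 (ℤ × ℤ)) → Prop}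
    (hB : ∀ ω ω', (∀ e, e ∉ img (tr a) (HE ρ) → e ∈ ω → e ∈ ω') → B ω → B ω') :
    P q (HE N) ∅ (fun ω => XA a ρ ω ∧ B ω) ≤ wA q 2 ρ * P q (HE N) ∅ B := by
  refine armF hq hρ (g := tr a) (HE_NL N) NL_empty (loc_tr a N ρ)
    (fun e he => absurd he (notMem_empty e)) ?_
  intro ω ω' _ _ h h3
  refine hB ω ω' ?_ h3
  intro e he heω
  have h4 : e ∈ ω \ (HE N ∩ img (tr a) (HE ρ)) := by
    rw [mem_sdiff, mem_inter]
    exact ⟨heω, fun h => he h.2⟩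
  rw [h, mem_sdiff] at h4
  exact h4.1

private theorem XA_keep {a b : ℤ} {ρ : ℕ} (hρ : 1 ≤ ρ) (hab : a + 2 * ρ ≤ b ∨ b + 2 * ρ ≤ a)
    {ω ω' : Finset (Sym2 (ℤ × ℤ))} (h : ∀ e, e ∉ img (tr a) (HE ρ) → e ∈ ω → e ∈ ω')
    (hX : XA b ρ ω) : XA b ρ ω' := by
  unfold XA at hX
  rw [Cn_tc_iff (S := fun v => v ∈ (HB ((ρ : ℤ) - 1)).image (tr b)) (by
    rw [mem_im, tr_apply]
    simp only
    omega)] at hX
  obtain ⟨v, hv, hc⟩ := hX
  refine ⟨v, hv, hc.mono ?_⟩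
  intro e he
  rw [mem_tc'] at he
  obtain ⟨he, x, hx, hxS⟩ := he
  refine h e ?_ he
  intro hcon
  have h1 := img_tr_ends hcon x hx
  rw [mem_im] at hxS
  omega

private theorem DB_keep {a R : ℤ} {ρ : ℕ} {t : ℤ × ℤ} (h1 : ρ - a ≤ R) (h2 : a + ρ ≤ R) (h3 : (ρ : ℤ) ≤ R)
    (ht : t ∉ HB R) {ω ω' : Finset (Sym2 (ℤ × ℤ))}
    (h : ∀ e, e ∉ img (tr a) (HE ρ) → e ∈ ω → e ∈ ω')
    (hX : ∃ u ∈ HB R, Cn ω u t) : ∃ u ∈ HB R, Cn ω' u t := by
  have hX' : ∃ v, ¬ (v ∉ HB R) ∧ Cn ω t v := by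
    obtain ⟨u, hu, hc⟩ := hX
    exact ⟨u, not_not.mpr hu, hc.symm⟩
  rw [Cn_tc_iff (S := fun v => v ∉ HB R) ht] at hX'
  obtain ⟨v, hv, hc⟩ := hX'
  refine ⟨v, not_not.mp hv, (hc.mono ?_).symm⟩
  intro e he
  rw [mem_tc'] at he
  obtain ⟨he, x, hx, hxS⟩ := he
  refine h e ?_ he
  intro hcon
  have h4 := img_tr_ends hcon x hx
  rw [mem_HB] at hxS
  omega

private theorem dbl' (hq : 1 ≤ q) (hu : UU q) : ∃ C : ℝ, 1 ≤ C ∧ ∀ m : ℕ, 1 ≤ m →
    wA q 2 m ≤ C * wA q 2 (4 * m) := by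
  obtain ⟨C0, hC0, n0, hn0, h⟩ := wA_dbl hq hu (show 1 ≤ 2 by norm_num)
  have p : ∀ k, 0 < wA q 2 k := fun k => wA_pos hq (by norm_num) k
  refine ⟨C0 + 1 / wA q 2 (4 * n0), ?_, ?_⟩
  · have h1 : 1 ≤ 1 / wA q 2 (4 * n0) := by
      rw [le_div_iff₀ (p _), one_mul]
      exact wA_le_one hq 2 _
    linarith
  · intro m hm
    have hp := p (4 * m)
    have h1 : 0 < 1 / wA q 2 (4 * n0) := by
      have := p (4 * n0)
      positivity
    rcases le_total n0 m with h2 | h2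
    · have := h m h2
      nlinarith
    · have h3 : wA q 2 (4 * n0) ≤ wA q 2 (4 * m) := wA_anti hq (by omega) (by omega)
      have h4 : 1 ≤ 1 / wA q 2 (4 * n0) * wA q 2 (4 * m) := by
        rw [one_div, ← div_eq_inv_mul, le_div_iff₀ (p _)]
        linarith
      have h5 := wA_le_one hq 2 m
      nlinarith

private theorem cmpj (hq : 1 ≤ q) {C : ℝ} (hC : 1 ≤ C)
    (h : ∀ m : ℕ, 1 ≤ m → wA q 2 m ≤ C * wA q 2 (4 * m)) (j : ℕ) :
    ∀ m n : ℕ, 1 ≤ m → 1 ≤ n → n ≤ 4 ^ j * m → wA q 2 m ≤ C ^ j * wA q 2 n := by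
  induction j with
  | zero =>
    intro m n hm hn hmn
    rw [pow_zero, one_mul] at hmn ⊢
    exact wA_anti hq hn hmn
  | succ j ih =>
    intro m n hm hn hmn
    have h1 := ih (4 * m) n (by omega) hn (by
      calc n ≤ 4 ^ (j + 1) * m := hmn
        _ = 4 ^ j * (4 * m) := by ring)
    calc wA q 2 m ≤ C * wA q 2 (4 * m) := h m hm
      _ ≤ C * (C ^ j * wA q 2 n) := mul_le_mul_of_nonneg_left h1 (by linarith)
      _ = _ := by
          rw [pow_succ]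
          ring

private theorem pair_move (hq : 1 ≤ q) {N N' : ℕ} {y y' : ℤ} (hy : 0 ≤ y) (h : (N : ℤ) + y ≤ N') :
    P q (HE N) ∅ (fun ω => Cn ω (0, 0) (0, y) ∧ Cn ω (0, 0) (0, y')) ≤
      P q (HE N') ∅ (fun ω => Cn ω (0, 0) (0, y) ∧ Cn ω (0, -(y' - y)) (0, y)) := by
  have hq0 : 0 < q := by linarith
  set A : Finset (Sym2 (ℤ × ℤ)) → Prop := fun ω => Cn ω (0, 0) (0, y) ∧ Cn ω (0, -(y' - y)) (0, y)
    with hA
  have hinc : Inc (fun ω => A (img rf ω)) := by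
    rintro ω ω' hs ⟨h1, h2⟩
    have : img rf ω ⊆ img rf ω' := image_subset_image hs
    exact ⟨h1.mono this, h2.mono this⟩
  calc P q (HE N) ∅ (fun ω => Cn ω (0, 0) (0, y) ∧ Cn ω (0, 0) (0, y')) ≤
        P q (HE N) ∅ (fun ω => (fun ω => A (img rf ω)) (img (tr (-y)) ω)) := by
        refine P_mono hq0 ?_
        rintro ω - ⟨c1, c2⟩
        have d1 := Cn_img (f := rf) (Cn_img (f := tr (-y)) c1)
        have d2 := Cn_img (f := rf) (Cn_img (f := tr (-y)) c2)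
        simp only [tr_apply, rf_apply, zero_add, neg_neg, add_neg_cancel, neg_zero] at d1 d2
        refine ⟨d1.symm, ?_⟩
        have e1 : -(y' + -y) = -(y' - y) := by ring
        rw [e1] at d2
        exact d2.symm
    _ ≤ P q (HE N') ∅ (fun ω => A (img rf ω)) :=
        P_tr_le (A := fun ω => A (img rf ω)) hq (N := (N : ℤ)) (N' := (N' : ℤ)) (a := -y)
          (by rw [abs_neg, abs_of_nonneg hy]; exact h) hinc
    _ = P q (HE N') ∅ A := P_rf hq0 (N' : ℤ) A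

/-- the long connection, by quasi-multiplicativity -/
private theorem DB_le (hq : 1 ≤ q) (N d T : ℕ) :
    P q (HE N) ∅ (fun ω => ∃ u ∈ HB (4 * d), Cn ω u (0, (T : ℤ))) ≤
      P q (WE 2 N) ∅ (DT (4 * d) (ch 0 (T, 0))) := by
  have hq0 : 0 < q := by linarith
  have h1 := P_hc hq0 N (F := ∅) (empty_subset _) (DT (4 * d) (ch 0 (T, 0)))
  have e : img hc (∅ : Finset (Sym2 (ℤ × ℤ))) = ∅ := by
    unfold img
    exact image_empty _
  rw [e] at h1
  rw [h1]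
  refine P_mono hq0 ?_
  rintro ω hω ⟨u, hu, hc'⟩
  rw [mem_HB] at hu
  refine ⟨hc u, ?_, ?_⟩
  · have h2 := nm_hc (p := u) hu.1
    have h3 : |u.2| ≤ 4 * d := abs_le.mpr ⟨by omega, by omega⟩
    have h4 : max u.1 |u.2| ≤ 4 * d := max_le (by omega) h3
    omega
  · have h2 : hc (0, (T : ℤ)) = ch 0 ((T : ℤ), 0) := hc_swap (by omega) le_rfl
    rw [← h2]
    exact Cn_img hc'

private theorem two_le (hq : 1 ≤ q) {N T : ℕ} (hT : 2 ≤ T) :
    P q (HE N) ∅ (fun ω => Cn ω (0, 0) (0, (T : ℤ))) ≤ wA q 2 (T / 2) * wA q 2 (T / 2) := by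
  have hq0 : 0 < q := by linarith
  have h0 := ray_up (q := q) (m := 2) (N := N) (k := T) hq (n := T / 2) (by omega) (by omega)
  refine le_trans ?_ h0
  have h1 := P_hc hq0 N (F := ∅) (empty_subset _) (fun ω => Cn ω tip (ch 0 (T, 0)))
  have e : img hc (∅ : Finset (Sym2 (ℤ × ℤ))) = ∅ := by
    unfold img
    exact image_empty _
  rw [e] at h1
  rw [h1]
  refine P_mono hq0 ?_
  intro ω _ hc'
  have h2 : hc (0, (T : ℤ)) = ch 0 ((T : ℤ), 0) := hc_swap (by omega) le_rfl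
  show Cn (img hc (ω ∪ ∅)) tip (ch 0 (T, 0))
  rw [← h2, ← hc_zero]
  exact Cn_img hc'

theorem pair (hq : 1 ≤ q) (hu : UU q) : ∃ C : ℝ, 0 < C ∧ ∀ (n N : ℕ) (y y' : ℤ), 1 ≤ n → (n : ℤ) ≤ y →
    y < y' → y' ≤ 2 * n → P q (HE N) ∅ (fun ω => Cn ω (0, 0) (0, y) ∧ Cn ω (0, 0) (0, y')) ≤
      C * (wA q 2 (y' - y).toNat * wA q 2 n ^ 2) := by
  have hq0 : 0 < q := by linarith
  obtain ⟨Cq, hCq, hquasi⟩ := quasiU hq hu
  obtain ⟨Cd, hCd, hdbl⟩ := dbl' hq hu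
  have hcmp := cmpj hq hCd hdbl 5
  have p : ∀ k, 0 < wA q 2 k := fun k => wA_pos hq (by norm_num) k
  obtain ⟨K, hK⟩ : ∃ K : ℝ, K = Cd ^ 5 := ⟨_, rfl⟩
  rw [← hK] at hcmp
  have hK1 : 1 ≤ K := by
    rw [hK]
    exact one_le_pow₀ hCd
  obtain ⟨L, hL⟩ : ∃ L : ℝ, L = 1 / wA q 2 2 := ⟨_, rfl⟩
  have hL0 : 0 < L := by
    rw [hL]
    have := p 2
    positivity
  have hLs : ∀ m : ℕ, 1 ≤ m → m ≤ 2 → 1 ≤ L * wA q 2 m := by
    intro m hm1 hm2
    have h1 : wA q 2 2 ≤ wA q 2 m := wA_anti hq hm1 hm2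
    rw [hL, one_div, ← div_eq_inv_mul, le_div_iff₀ (p _)]
    linarith
  have hL1 : 1 ≤ L := by
    have h1 := hLs 2 (by norm_num) le_rfl
    have h2 := wA_le_one hq 2 2
    nlinarith
  refine ⟨K ^ 2 * L ^ 3 + K ^ 2 * Cq + K ^ 3, by positivity, ?_⟩
  intro n N y y' hn hny hyy' hy'
  -- natural numbers
  obtain ⟨T, rfl⟩ : ∃ T : ℕ, (T : ℤ) = y := ⟨y.toNat, Int.toNat_of_nonneg (by omega)⟩
  obtain ⟨d, hd⟩ : ∃ d : ℕ, (d : ℤ) = y' - T := ⟨(y' - T).toNat, Int.toNat_of_nonneg (by omega)⟩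
  have hd1 : 1 ≤ d := by omega
  have hdn : d ≤ n := by omega
  have hnT : n ≤ T := by omega
  have hT2 : T ≤ 2 * n := by omega
  have htd : (y' - T).toNat = d := by omega
  rw [htd]
  have pn := p n
  have pd := p d
  have hX : 0 < wA q 2 d * wA q 2 n ^ 2 := by positivity
  obtain ⟨N', hN'⟩ : ∃ N' : ℕ, N' = N + 2 * n := ⟨_, rfl⟩
  have hmove := pair_move hq (N := N) (N' := N') (y := T) (y' := y') (by omega) (by
    rw [hN']
    push_cast
    omega)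
  rw [← hd] at hmove
  refine hmove.trans ?_
  rcases Nat.lt_or_ge d 3 with h3 | h3
  · -- case 1
    have h4 : P q (HE N') ∅ (fun ω => Cn ω (0, 0) (0, (T : ℤ)) ∧ Cn ω (0, -(d : ℤ)) (0, (T : ℤ))) ≤
        K ^ 2 * L ^ 2 * wA q 2 n ^ 2 := by
      rcases Nat.lt_or_ge T 2 with h5 | h5
      · have h6 := hLs n hn (by omega)
        have h7 : (1 : ℝ) ≤ (L * wA q 2 n) ^ 2 := one_le_pow₀ h6
        have h8 : (1 : ℝ) ≤ K ^ 2 := one_le_pow₀ hK1
        calc _ ≤ (1 : ℝ) := P_le_one hq0 _ _ _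
          _ ≤ K ^ 2 * (L * wA q 2 n) ^ 2 := by nlinarith
          _ = _ := by ring
      · have h6 : P q (HE N') ∅ (fun ω => Cn ω (0, 0) (0, (T : ℤ)) ∧ Cn ω (0, -(d : ℤ)) (0, (T : ℤ))) ≤
            P q (HE N') ∅ (fun ω => Cn ω (0, 0) (0, (T : ℤ))) := P_mono hq0 fun _ _ h => h.1
        have h7 := hcmp (T / 2) n (by omega) hn (by
          norm_num
          omega)
        have h8 : (1 : ℝ) ≤ L ^ 2 := one_le_pow₀ hL1
        have h9 := p (T / 2)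
        calc _ ≤ wA q 2 (T / 2) * wA q 2 (T / 2) := h6.trans (two_le hq h5)
          _ ≤ (K * wA q 2 n) * (K * wA q 2 n) := mul_le_mul h7 h7 h9.le (by positivity)
          _ = K ^ 2 * wA q 2 n ^ 2 * 1 := by ring
          _ ≤ K ^ 2 * wA q 2 n ^ 2 * L ^ 2 := mul_le_mul_of_nonneg_left h8 (by positivity)
          _ = _ := by ring
    have h5 := hLs d hd1 (by omega)
    calc _ ≤ K ^ 2 * L ^ 2 * wA q 2 n ^ 2 := h4
      _ = K ^ 2 * L ^ 2 * wA q 2 n ^ 2 * 1 := by ring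
      _ ≤ K ^ 2 * L ^ 2 * wA q 2 n ^ 2 * (L * wA q 2 d) :=
          mul_le_mul_of_nonneg_left h5 (by positivity)
      _ = K ^ 2 * L ^ 3 * (wA q 2 d * wA q 2 n ^ 2) := by ring
      _ ≤ _ := by
          apply mul_le_mul_of_nonneg_right _ hX.le
          have : 0 < K ^ 2 * Cq := by positivity
          have : 0 < K ^ 3 := by positivity
          linarith
  · obtain ⟨ρ, hρ⟩ : ∃ ρ : ℕ, ρ = d / 3 := ⟨_, rfl⟩
    have hρ1 : 1 ≤ ρ := by omega
    have pρ := p ρ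
    rcases Nat.lt_or_ge T (128 * d) with h4 | h4
    · -- case 3
      have h5 : P q (HE N') ∅ (fun ω => Cn ω (0, 0) (0, (T : ℤ)) ∧ Cn ω (0, -(d : ℤ)) (0, (T : ℤ))) ≤
          P q (HE N') ∅ (fun ω => XA 0 ρ ω ∧ (XA (-d) ρ ω ∧ (XA T ρ ω ∧ True))) := by
        refine P_mono hq0 ?_
        rintro ω - ⟨c1, c2⟩
        refine ⟨⟨(0, (T : ℤ)), ?_, ?_⟩, ⟨(0, (T : ℤ)), ?_, ?_⟩, ⟨(0, 0), ?_, ?_⟩, trivial⟩
        · rw [mem_im]
          simp only
          omega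
        · simpa using c1
        · rw [mem_im]
          simp only
          omega
        · simpa using c2
        · rw [mem_im]
          simp only
          omega
        · simpa using c1.symm
      have h6 := arm1 (q := q) hq hρ1 0 N' (B := fun ω => XA (-d) ρ ω ∧ (XA T ρ ω ∧ True)) (by
        rintro ω ω' h ⟨h1, h2, h3⟩
        exact ⟨XA_keep hρ1 (by omega) h h1, XA_keep hρ1 (by omega) h h2, trivial⟩)
      have h7 := arm1 (q := q) hq hρ1 (-d) N' (B := fun ω => XA T ρ ω ∧ True) (by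
        rintro ω ω' h ⟨h2, h3⟩
        exact ⟨XA_keep hρ1 (by omega) h h2, trivial⟩)
      have h8 := arm1 (q := q) hq hρ1 T N' (B := fun ω => True) (by
        intro ω ω' _ _
        trivial)
      rw [P_true hq0, mul_one] at h8
      have h9 := hcmp ρ n hρ1 hn (by
        norm_num
        omega)
      have h10 : wA q 2 n ≤ wA q 2 d := wA_anti hq hd1 hdn
      calc _ ≤ _ := h5
        _ ≤ wA q 2 ρ * (wA q 2 ρ * wA q 2 ρ) :=
            h6.trans (mul_le_mul_of_nonneg_left (h7.trans (mul_le_mul_of_nonneg_left h8 pρ.le)) pρ.le)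
        _ = wA q 2 ρ ^ 3 := by ring
        _ ≤ (K * wA q 2 n) ^ 3 := pow_le_pow_left₀ pρ.le h9 3
        _ = K ^ 3 * (wA q 2 n * wA q 2 n ^ 2) := by ring
        _ ≤ K ^ 3 * (wA q 2 d * wA q 2 n ^ 2) := by gcongr
        _ ≤ _ := by
            apply mul_le_mul_of_nonneg_right _ hX.le
            have : 0 < K ^ 2 * Cq := by positivity
            have : 0 < K ^ 2 * L ^ 3 := by positivity
            linarith
    · -- case 2
      have h5 : P q (HE N') ∅ (fun ω => Cn ω (0, 0) (0, (T : ℤ)) ∧ Cn ω (0, -(d : ℤ)) (0, (T : ℤ))) ≤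
          P q (HE N') ∅ (fun ω => XA 0 ρ ω ∧ (XA (-d) ρ ω ∧ (∃ u ∈ HB (4 * d), Cn ω u (0, (T : ℤ))))) := by
        refine P_mono hq0 ?_
        rintro ω - ⟨c1, c2⟩
        refine ⟨⟨(0, (T : ℤ)), ?_, ?_⟩, ⟨(0, (T : ℤ)), ?_, ?_⟩, ⟨(0, 0), ?_, c1⟩⟩
        · rw [mem_im]
          simp only
          omega
        · simpa using c1
        · rw [mem_im]
          simp only
          omega
        · simpa using c2
        · rw [mem_HB]
          simp only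
          omega
      have ht : ((0 : ℤ), (T : ℤ)) ∉ HB (4 * d) := by
        rw [mem_HB]
        simp only
        omega
      have h6 := arm1 (q := q) hq hρ1 0 N'
        (B := fun ω => XA (-d) ρ ω ∧ (∃ u ∈ HB (4 * d), Cn ω u (0, (T : ℤ)))) (by
        rintro ω ω' h ⟨h1, h2⟩
        exact ⟨XA_keep hρ1 (by omega) h h1, DB_keep (by omega) (by omega) (by omega) ht h h2⟩)
      have h7 := arm1 (q := q) hq hρ1 (-d) N'
        (B := fun ω => ∃ u ∈ HB (4 * d), Cn ω u (0, (T : ℤ))) (by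
        intro ω ω' h h2
        exact DB_keep (by omega) (by omega) (by omega) ht h h2)
      have h8 := DB_le hq N' d T
      have h9 := hquasi d T N' hd1 h4
      have h10 := hcmp ρ d hρ1 hd1 (by
        norm_num
        omega)
      have h11 : wA q 2 T ≤ wA q 2 n := wA_anti hq hn hnT
      have pT := p T
      set Q : ℝ := P q (WE 2 N') ∅ (DT (4 * d) (ch 0 (T, 0))) with hQ
      have hQ0 : 0 ≤ Q := P_nonneg hq0 _ _ _
      have h12 : wA q 2 d * Q ≤ Cq * wA q 2 n ^ 2 := by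
        refine h9.trans ?_
        have : wA q 2 T * wA q 2 T ≤ wA q 2 n ^ 2 := by
          rw [sq]
          exact mul_le_mul h11 h11 pT.le pn.le
        exact mul_le_mul_of_nonneg_left this hCq.le
      calc _ ≤ _ := h5
        _ ≤ wA q 2 ρ * (wA q 2 ρ * Q) :=
            h6.trans (mul_le_mul_of_nonneg_left (h7.trans (mul_le_mul_of_nonneg_left h8 pρ.le)) pρ.le)
        _ ≤ (K * wA q 2 d) * ((K * wA q 2 d) * Q) := by gcongr
        _ = K ^ 2 * wA q 2 d * (wA q 2 d * Q) := by ring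
        _ ≤ K ^ 2 * wA q 2 d * (Cq * wA q 2 n ^ 2) := by gcongr
        _ = K ^ 2 * Cq * (wA q 2 d * wA q 2 n ^ 2) := by ring
        _ ≤ _ := by
            apply mul_le_mul_of_nonneg_right _ hX.le
            have : 0 < K ^ 3 := by positivity
            have : 0 < K ^ 2 * L ^ 3 := by positivity
            linarith

end Pool.Agent.IDK
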