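import Pool.Agent.IDK.BaseU
import Pool.Agent.FKR.TwoLow

/-! # IDK/QuasiU (MP_b3e76a_pr): quasi-multiplicativity of the half-plane arm (free boundary, no RSW at the boundary yet)

`t = ch 0 (T, 0)`. By monotonicity in `N` (`P_mono_EF`, `WE_mono`) we may assume `2 T ≤ N`. Let `K1, M0` be from `recU` (`m = 2`), `M, T0` from `baseU`.
Case `K1 ≤ 4 k`, `T` large: `recU` with `n2 = T / 64` (`16 n2 < T = nm t`; for `n2 ≤ n < 4 n2` we have `T ≤ 64 n + 64 ≤ 128 n` and `16 n ≤ T`: `baseU`), and `4 k < 4 n2` because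
`2 k ≤ T / 64`. So `P (DT (4k) t) ≤ M' * GT (4k)`. `glue2` (FKR/LocU) with `f = ch 0`, `rect 1 (5k) 1 (5k)`, `x = y = 4k`, `r = 4k/100`, `s = tip`, `s' = t`:
`c * P (Hit tip) * P (Hit t) ≤ P (Cn tip t) ≤ wA q 2 (T/2) ^ 2` (`ray_up` with `m = 2`) `≤ C * wA q 2 T ^ 2`; `arm_core` with `N = 16 k` gives `c' * wA q 2 (16 k) ≤ P (Hit tip ..)` in
`WE 2 (16k) ⊆ WE 2 N` (`16k/4 = 4k`, `16k/400 = 4k/100`), and `wA q 2 k ≤ C wA q 2 (4k) ≤ C² wA q 2 (16 k)`.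
Small `k` (`4 k < K1` or below the constants of `arm_core`, `wA_dbl`): `DT (4k) ⊆ DT (4 k')` for the smallest admissible `k'`, `wA q 2 k ≤ 1 ≤ wA q 2 k' / wA q 2 k'`, if `128 k' ≤ T`. Small `T`
(below a constant `T1`): the left side is `≤ 1` and `wA q 2 T ≥ wA q 2 T1 > 0`. -/

namespace Pool.Agent.IDK

open Finset
open Pool.Agent.FKR
open Pool.Agent.H95.Perc (Inc conn link rect hor ver eh ev mem_rect)
open Pool.Agent.H95.SumRule (edgesIn Z2)
open Pool.Agent.H95.Wedge (Vtx pt)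

variable {q : ℝ}

attribute [local irreducible] wA P

private theorem qu_inc_DT (n : ℕ) (t : Vtx) : Inc (DT n t) := by
  rintro ω ω' h ⟨u, hu, hc⟩
  exact ⟨u, hu, hc.mono h⟩

private theorem qu_nm (T : ℕ) : nm (ch 0 ((T : ℤ), 0)) = T := by
  have h := nm_ch 0 (p := ((T : ℤ), 0)) (by simp)
  simp only [abs_zero] at h
  have h2 : max ((T : ℕ) : ℤ) 0 = (T : ℤ) := max_eq_left (by positivity)
  rw [h2] at h
  exact_mod_cast h

/-- the main case -/
private theorem qu_main (hq : 1 ≤ q) (hu : UU q) : ∃ C : ℝ, 0 < C ∧ ∃ k0 T1 : ℕ, 1 ≤ k0 ∧ 1 ≤ T1 ∧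
    ∀ k T N : ℕ, k0 ≤ k → T1 ≤ T → 128 * k ≤ T → 2 * T ≤ N →
    wA q 2 k * P q (WE 2 N) ∅ (DT (4 * k) (ch 0 (T, 0))) ≤ C * (wA q 2 T * wA q 2 T) := by
  have hq0 : 0 < q := by linarith
  obtain ⟨K1, hK1, M0, hM0, hrec⟩ := recU hq hu (m := 2) (by norm_num)
  obtain ⟨M, hM, T0, hT0, hbase⟩ := baseU hq hu (m := 2) (by norm_num)
  obtain ⟨cA, hcA, nA, hnA, hA⟩ := arm_core hq hu (m := 2) (by norm_num)
  obtain ⟨Cd, hCd, nd, hnd, hdbl⟩ := wA_dbl hq hu (m := 2) (by norm_num)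
  obtain ⟨cG, hcG, hG⟩ := glue2 hq hu
  refine ⟨Cd ^ 4 * (max M M0) / (cA * cG), by positivity, K1 + nA + nd, T0 + 4 * nd + 128,
    by omega, by omega, ?_⟩
  intro k T N hk hT hkT hTN
  set t : Vtx := ch 0 ((T : ℤ), 0) with ht
  set M' : ℝ := max M M0 with hM'
  have hM'0 : 0 < M' := lt_of_lt_of_le hM (le_max_left _ _)
  have hNL := WE_NL 2 N
  -- the recursion
  have h1 : P q (WE 2 N) ∅ (DT (4 * k) t) ≤ M' * GT q 2 N (4 * k) t := by
    refine hrec M' N (T / 64) t (le_max_right _ _) (by omega) (by rw [ht, qu_nm]; omega) ?_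
      (4 * k) (by omega) (by omega)
    intro n hn1 hn2 hn3
    refine (hbase T N n (by omega) hTN (by omega) (by omega)).trans ?_
    exact mul_le_mul_of_nonneg_right (le_max_left _ _) (P_nonneg hq0 _ _ _)
  -- the tip
  have h2 : cA * wA q 2 (16 * k) ≤ P q (WE 2 N) ∅
      (Hit (ch 0) tip ((4 * k : ℕ) : ℤ) ((4 * k : ℕ) : ℤ) ((4 * k / 100 : ℕ) : ℤ)) := by
    have h := hA (16 * k) (by omega)
    have e1 : 16 * k / 4 = 4 * k := by omega
    have e2 : 16 * k / 400 = 4 * k / 100 := by omega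
    rw [e1, e2] at h
    refine h.trans (P_mono_EF hq hNL (fun e he => absurd he (notMem_empty e)) ?_
      (Subset.refl _) (inc_Hit _ _ _ _ _))
    exact (WE_mono le_rfl (by omega)).trans subset_union_left
  -- gluing
  have hP : Patch (ch 0) 1 (5 * k) 1 (5 * k) (WE 2 N) :=
    patch_ch (by norm_num) le_rfl (by norm_num) le_rfl (by omega) (by omega) (by omega)
      (fun _ => by omega) (fun h => by omega)
  have h3 := hG (WE 2 N) (ch 0) 1 (5 * k) 1 (5 * k) ((4 * k : ℕ) : ℤ) ((4 * k : ℕ) : ℤ)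
    ((4 * k / 100 : ℕ) : ℤ) tip t hNL hP tl_tip (tl_out (by positivity) (Or.inl (by norm_num)))
    (by omega) (by omega) (by omega) (by omega) (by omega)
  -- the two-point function
  have h4 : P q (WE 2 N) ∅ (fun ω => Cn ω tip t) ≤ wA q 2 (T / 2) * wA q 2 (T / 2) :=
    ray_up hq (by omega) (by omega)
  have h5 : wA q 2 (T / 2) ≤ Cd * wA q 2 T := by
    refine (hdbl (T / 2) (by omega)).trans ?_
    exact mul_le_mul_of_nonneg_left (wA_anti hq (by omega) (by omega)) hCd.le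
  have h6 : wA q 2 k ≤ Cd ^ 2 * wA q 2 (16 * k) := by
    have e1 := hdbl k (by omega)
    have e2 := hdbl (4 * k) (by omega)
    have e3 : 4 * (4 * k) = 16 * k := by ring
    rw [e3] at e2
    calc wA q 2 k ≤ Cd * wA q 2 (4 * k) := e1
      _ ≤ Cd * (Cd * wA q 2 (16 * k)) := mul_le_mul_of_nonneg_left e2 hCd.le
      _ = _ := by ring
  have w0 : 0 < wA q 2 (16 * k) := wA_pos hq (by norm_num) _
  have wT : 0 < wA q 2 T := wA_pos hq (by norm_num) _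
  have wT2 : 0 < wA q 2 (T / 2) := wA_pos hq (by norm_num) _
  have pG : 0 ≤ GT q 2 N (4 * k) t := P_nonneg hq0 _ _ _
  have pD : 0 ≤ P q (WE 2 N) ∅ (DT (4 * k) t) := P_nonneg hq0 _ _ _
  have h7 : cG * (cA * wA q 2 (16 * k)) * GT q 2 N (4 * k) t ≤ Cd * wA q 2 T * (Cd * wA q 2 T) := by
    calc cG * (cA * wA q 2 (16 * k)) * GT q 2 N (4 * k) t
        ≤ cG * P q (WE 2 N) ∅
          (Hit (ch 0) tip ((4 * k : ℕ) : ℤ) ((4 * k : ℕ) : ℤ) ((4 * k / 100 : ℕ) : ℤ)) *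
            GT q 2 N (4 * k) t := by
          refine mul_le_mul_of_nonneg_right ?_ pG
          exact mul_le_mul_of_nonneg_left h2 hcG.le
      _ ≤ P q (WE 2 N) ∅ (fun ω => Cn ω tip t) := h3
      _ ≤ wA q 2 (T / 2) * wA q 2 (T / 2) := h4
      _ ≤ Cd * wA q 2 T * (Cd * wA q 2 T) := mul_le_mul h5 h5 wT2.le (by positivity)
  have h8 : wA q 2 k * P q (WE 2 N) ∅ (DT (4 * k) t) ≤
      Cd ^ 2 * wA q 2 (16 * k) * (M' * GT q 2 N (4 * k) t) :=
    mul_le_mul h6 h1 pD (by positivity)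
  refine h8.trans ?_
  have h9 : wA q 2 (16 * k) * GT q 2 N (4 * k) t ≤
      Cd ^ 2 * (wA q 2 T * wA q 2 T) / (cA * cG) := by
    rw [le_div_iff₀ (by positivity)]
    calc wA q 2 (16 * k) * GT q 2 N (4 * k) t * (cA * cG)
        = cG * (cA * wA q 2 (16 * k)) * GT q 2 N (4 * k) t := by ring
      _ ≤ _ := h7
      _ = _ := by ring
  calc Cd ^ 2 * wA q 2 (16 * k) * (M' * GT q 2 N (4 * k) t)
      = Cd ^ 2 * M' * (wA q 2 (16 * k) * GT q 2 N (4 * k) t) := by ring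
    _ ≤ Cd ^ 2 * M' * (Cd ^ 2 * (wA q 2 T * wA q 2 T) / (cA * cG)) :=
        mul_le_mul_of_nonneg_left h9 (by positivity)
    _ = _ := by ring

theorem quasiU (hq : 1 ≤ q) (hu : UU q) : ∃ C : ℝ, 0 < C ∧ ∀ k T N : ℕ, 1 ≤ k → 128 * k ≤ T →
    wA q 2 k * P q (WE 2 N) ∅ (DT (4 * k) (ch 0 (T, 0))) ≤ C * (wA q 2 T * wA q 2 T) := by
  have hq0 : 0 < q := by linarith
  obtain ⟨C, hC, k0, T1, hk0, hT1, h⟩ := qu_main hq hu
  have w0 : 0 < wA q 2 k0 := wA_pos hq (by norm_num) _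
  have w1 : 0 < wA q 2 (T1 + 128 * k0) := wA_pos hq (by norm_num) _
  refine ⟨C + C / wA q 2 k0 + 1 / (wA q 2 (T1 + 128 * k0) * wA q 2 (T1 + 128 * k0)),
    add_pos (add_pos hC (div_pos hC w0)) (div_pos one_pos (mul_pos w1 w1)), ?_⟩
  intro k T N hk hkT
  have wT : 0 < wA q 2 T := wA_pos hq (by norm_num) _
  have wk : 0 < wA q 2 k := wA_pos hq (by norm_num) _
  have wk1 : wA q 2 k ≤ 1 := wA_le_one hq 2 k
  have wTT : 0 ≤ wA q 2 T * wA q 2 T := (mul_pos wT wT).le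
  have t1 : 0 ≤ C * (wA q 2 T * wA q 2 T) := mul_nonneg hC.le wTT
  have t2 : 0 ≤ C / wA q 2 k0 * (wA q 2 T * wA q 2 T) := mul_nonneg (div_pos hC w0).le wTT
  have t3 : 0 ≤ 1 / (wA q 2 (T1 + 128 * k0) * wA q 2 (T1 + 128 * k0)) * (wA q 2 T * wA q 2 T) :=
    mul_nonneg (div_pos one_pos (mul_pos w1 w1)).le wTT
  have hexp : (C + C / wA q 2 k0 + 1 / (wA q 2 (T1 + 128 * k0) * wA q 2 (T1 + 128 * k0))) *
      (wA q 2 T * wA q 2 T) = C * (wA q 2 T * wA q 2 T) + C / wA q 2 k0 * (wA q 2 T * wA q 2 T) +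
      1 / (wA q 2 (T1 + 128 * k0) * wA q 2 (T1 + 128 * k0)) * (wA q 2 T * wA q 2 T) := by ring
  rw [hexp]
  by_cases hT : T < T1 + 128 * k0
  · -- bounded `T`
    have h1 : wA q 2 (T1 + 128 * k0) ≤ wA q 2 T := wA_anti hq (by omega) hT.le
    have h2 : wA q 2 k * P q (WE 2 N) ∅ (DT (4 * k) (ch 0 (T, 0))) ≤ 1 :=
      mul_le_one₀ wk1 (P_nonneg hq0 _ _ _) (P_le_one hq0 _ _ _)
    have h3 : 1 ≤ 1 / (wA q 2 (T1 + 128 * k0) * wA q 2 (T1 + 128 * k0)) *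
        (wA q 2 T * wA q 2 T) := by
      rw [div_mul_eq_mul_div, one_mul, le_div_iff₀ (mul_pos w1 w1), one_mul]
      exact mul_le_mul h1 h1 w1.le wT.le
    linarith
  · have hN : P q (WE 2 N) ∅ (DT (4 * k) (ch 0 (T, 0))) ≤
        P q (WE 2 (max N (2 * T))) ∅ (DT (4 * k) (ch 0 (T, 0))) :=
      P_mono_EF hq (WE_NL 2 _) (fun e he => absurd he (notMem_empty e))
        ((WE_mono le_rfl (le_max_left _ _)).trans subset_union_left)
        (Subset.refl _) (qu_inc_DT _ _)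
    by_cases hk' : k0 ≤ k
    · have h1 := h k T (max N (2 * T)) hk' (by omega) hkT (le_max_right _ _)
      have h2 := mul_le_mul_of_nonneg_left hN wk.le
      linarith
    · have h1 := h k0 T (max N (2 * T)) le_rfl (by omega) (by omega) (le_max_right _ _)
      have h2 : P q (WE 2 (max N (2 * T))) ∅ (DT (4 * k) (ch 0 (T, 0))) ≤
          P q (WE 2 (max N (2 * T))) ∅ (DT (4 * k0) (ch 0 (T, 0))) := by
        refine P_mono hq0 ?_
        rintro ζ - ⟨u, hu1, hu2⟩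
        exact ⟨u, by omega, hu2⟩
      have h3 : wA q 2 k * P q (WE 2 N) ∅ (DT (4 * k) (ch 0 (T, 0))) ≤
          P q (WE 2 (max N (2 * T))) ∅ (DT (4 * k0) (ch 0 (T, 0))) := by
        refine le_trans ?_ (hN.trans h2)
        exact mul_le_of_le_one_left (P_nonneg hq0 _ _ _) wk1
      have h4 : P q (WE 2 (max N (2 * T))) ∅ (DT (4 * k0) (ch 0 (T, 0))) ≤
          C / wA q 2 k0 * (wA q 2 T * wA q 2 T) := by
        rw [div_mul_eq_mul_div, le_div_iff₀ w0, mul_comm]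
        exact h1
      linarith

end Pool.Agent.IDK
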