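/-
helper98, 3 Dec 2026.  MP_b3e76a_pr, project IDK, part D (real analysis): the final statement for
the event 'the interface comes within distance delta n of the arc'.
-/
import Pool.Agent.IDK.RA8

namespace IDK

open MeasureTheory Real Set Filter Topology intervalIntegral

/-- `k` is not the parameter of an SLE limit; `gL n M δ S`, `gB n M δ S`: probabilities that the
interface comes within distance `δ n` of the arc `S` of the left side, of the bottom side. -/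
def NotSleN (k : ℝ) (gL gB : ℕ → ℕ → ℝ → Set ℕ → ℝ) : Prop :=
  ∃ ε > 0, ∃ δ0 > 0, ∃ A B : Finset (ℝ × ℝ), (∀ p ∈ A, 0 < p.1 ∧ p.1 < p.2) ∧
    (∀ p ∈ B, 0 < p.1 ∧ p.1 < p.2 ∧ p.2 < 1) ∧ ∃ K : ℕ, ∀ δ, 0 ≤ δ → δ ≤ δ0 → ∃ n0 : ℕ,
      ∀ n ≥ n0, ∀ M ≥ K * n,
      (∃ p ∈ A, ε ≤ |gL n M δ (realArc n p.1 p.2) - sleTouch k (sideRatio p.1 p.2)|) ∨
      (∃ p ∈ B, ε ≤ |gB n M δ (realArc n p.1 p.2) - sleTouch k (bottomRatio p.1 p.2)|)

/-- near implies touch, for real arcs in `(lo, hi)` -/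
def NearTouch (lo hi : ℝ) (F : ℕ → ℕ → Set ℕ → ℝ) (G : ℕ → ℕ → ℝ → Set ℕ → ℝ) : Prop :=
  ∀ α β η ρ : ℝ, 0 < η → lo < α - η → α < β → β + η < hi → 0 < ρ → ∃ δ1 > 0, ∃ K : ℕ,
    ∀ δ, 0 ≤ δ → δ ≤ δ1 → ∃ n0 : ℕ, ∀ n ≥ n0, ∀ M ≥ K * n,
      G n M δ (realArc n α β) ≤ F n M (realArc n (α - η) (β + η)) + ρ

/-- one family of arcs -/
theorem near_family {lo hi : ℝ} {F : ℕ → ℕ → Set ℕ → ℝ} {G : ℕ → ℕ → ℝ → Set ℕ → ℝ}
    {H : ℝ → ℝ → ℝ} (hFG : ∀ n M δ S, 1 ≤ n → 1 ≤ M → 0 ≤ δ → F n M S ≤ G n M δ S)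
    (hN : NearTouch lo hi F G)
    (A : Finset (ℝ × ℝ)) (hA : ∀ p ∈ A, lo < p.1 ∧ p.1 < p.2 ∧ p.2 < hi)
    (hH : ∀ p ∈ A, ContinuousAt (fun p : ℝ × ℝ => H p.1 p.2) p) {ε : ℝ} (hε : 0 < ε) :
    ∃ A' : Finset (ℝ × ℝ), (∀ p ∈ A', lo < p.1 ∧ p.1 < p.2 ∧ p.2 < hi) ∧ ∃ δ1 > 0, ∃ K : ℕ,
      ∀ δ, 0 ≤ δ → δ ≤ δ1 → ∃ n0 : ℕ, ∀ n ≥ n0, ∀ M ≥ K * n,
        (∀ p ∈ A', |G n M δ (realArc n p.1 p.2) - H p.1 p.2| < ε) →
        ∀ p ∈ A, |F n M (realArc n p.1 p.2) - H p.1 p.2| < 3 * ε := by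
  classical
  induction A using Finset.induction_on with
  | empty =>
    exact ⟨∅, by simp, 1, one_pos, 0, fun δ _ _ => ⟨0, fun n _ M _ _ p hp => by simp at hp⟩⟩
  | insert p s hp ih =>
    obtain ⟨A1, hA1, δ1, hδ1, K1, h1⟩ := ih (fun r hr => hA r (Finset.mem_insert_of_mem hr))
      (fun r hr => hH r (Finset.mem_insert_of_mem hr))
    obtain ⟨ha, hb, hc⟩ := hA p (Finset.mem_insert_self _ _)
    obtain ⟨θ, hθ, hθ'⟩ := Metric.continuousAt_iff.1 (hH p (Finset.mem_insert_self _ _)) ε hε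
    -- the shrunk arc
    set η := min (min (θ / 2) ((p.2 - p.1) / 4)) (min ((p.1 - lo) / 2) ((hi - p.2) / 2)) with hη
    have hη0 : 0 < η := lt_min (lt_min (by linarith) (by linarith))
      (lt_min (by linarith) (by linarith))
    have e1 : η ≤ θ / 2 := (min_le_left _ _).trans (min_le_left _ _)
    have e2 : η ≤ (p.2 - p.1) / 4 := (min_le_left _ _).trans (min_le_right _ _)
    obtain ⟨δ2, hδ2, K2, h2⟩ := hN (p.1 + η) (p.2 - η) η ε hη0 (by linarith) (by linarith)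
      (by linarith) hε
    refine ⟨A1 ∪ {p, (p.1 + η, p.2 - η)}, ?_, min δ1 δ2, lt_min hδ1 hδ2,
      max 1 (max K1 K2), fun δ hδ0 hδ => ?_⟩
    · intro r hr
      rw [Finset.mem_union, Finset.mem_insert, Finset.mem_singleton] at hr
      rcases hr with hr | rfl | rfl
      · exact hA1 r hr
      · exact ⟨ha, hb, hc⟩
      · exact ⟨by simp only; linarith, by simp only; linarith, by simp only; linarith⟩
    · obtain ⟨n1, hn1⟩ := h1 δ hδ0 (hδ.trans (min_le_left _ _))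
      obtain ⟨n2, hn2⟩ := h2 δ hδ0 (hδ.trans (min_le_right _ _))
      refine ⟨max 1 (max n1 n2), fun n hn M hM hAll r hr => ?_⟩
      have hn1' : 1 ≤ n := (le_max_left _ _).trans hn
      have hM1' : 1 ≤ M := by
        have h3 := Nat.mul_le_mul_right n (le_max_left 1 (max K1 K2))
        omega
      rcases Finset.mem_insert.1 hr with rfl | hr
      · have g1 := hAll r (by simp)
        have g2 := hAll (r.1 + η, r.2 - η) (by simp)
        have g3 := hn2 n (((le_max_right _ _).trans (le_max_right _ _)).trans hn) M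
          (le_trans (Nat.mul_le_mul_right _ ((le_max_right _ _).trans (le_max_right _ _))) hM)
        rw [add_sub_cancel_right, sub_add_cancel] at g3
        have g4 := hFG n M δ (realArc n r.1 r.2) hn1' hM1' hδ0
        have g5 := hθ' (x := (r.1 + η, r.2 - η)) (by
          rw [Prod.dist_eq]
          apply max_lt
          · rw [Real.dist_eq]; simp only; rw [add_sub_cancel_left, abs_of_pos hη0]; linarith
          · rw [Real.dist_eq]; simp only
            rw [sub_sub_cancel_left, abs_neg, abs_of_pos hη0]; linarith)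
        rw [Real.dist_eq] at g5
        simp only at g2 g5
        rw [abs_lt] at g1 g2 g5 ⊢
        constructor <;> linarith [g1.1, g1.2, g2.1, g2.2, g5.1, g5.2]
      · exact hn1 n (((le_max_left _ _).trans (le_max_right _ _)).trans hn) M
          (le_trans (Nat.mul_le_mul_right _ ((le_max_left _ _).trans (le_max_right _ _))) hM)
          (fun t ht => hAll t (Finset.mem_union_left _ ht)) r hr

theorem no_sle_near {k : ℝ} {FL FB : ℕ → ℕ → Set ℕ → ℝ} {gL gB : ℕ → ℕ → ℝ → Set ℕ → ℝ}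
    (h : NotSle k FL FB) (hL : ∀ n M δ S, 1 ≤ n → 1 ≤ M → 0 ≤ δ → FL n M S ≤ gL n M δ S)
    (hB : ∀ n M δ S, 1 ≤ n → 1 ≤ M → 0 ≤ δ → FB n M S ≤ gB n M δ S)
    (hNL : ∀ hi, NearTouch 0 hi FL gL) (hNB : NearTouch 0 1 FB gB) : NotSleN k gL gB := by
  obtain ⟨ε, hε, A, B, hA, hB', n0, K, hn0⟩ := h
  -- a common bound of the arcs of the left side
  obtain ⟨hi, hhi⟩ : ∃ hi : ℝ, ∀ p ∈ A, p.2 < hi := by
    refine ⟨∑ p ∈ A, |p.2| + 1, fun p hp => ?_⟩
    have h1 : |p.2| ≤ ∑ p ∈ A, |p.2| :=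
      Finset.single_le_sum (f := fun p : ℝ × ℝ => |p.2|) (fun _ _ => abs_nonneg _) hp
    have h2 := le_abs_self p.2
    linarith
  obtain ⟨A', hA', δ1, hδ1, K1, h1⟩ := near_family (H := fun a b => sleTouch k (sideRatio a b)) hL
    (hNL hi) A (fun p hp => ⟨(hA p hp).1, (hA p hp).2, hhi p hp⟩)
    (fun p hp => continuousAt_side k (hA p hp).1 (hA p hp).2) (ε := ε / 3) (by linarith)
  obtain ⟨B', hB'', δ2, hδ2, K2, h2⟩ := near_family
    (H := fun a b => sleTouch k (bottomRatio a b)) hB hNB B (fun p hp => hB' p hp)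
    (fun p hp => continuousAt_bottom k (hB' p hp).1 (hB' p hp).2.1 (hB' p hp).2.2)
    (ε := ε / 3) (by linarith)
  refine ⟨ε / 3, by linarith, min δ1 δ2, lt_min hδ1 hδ2, A', B',
    fun p hp => ⟨(hA' p hp).1, (hA' p hp).2.1⟩, hB'', max K (max K1 K2), fun δ hδ0 hδ => ?_⟩
  obtain ⟨n1, hn1⟩ := h1 δ hδ0 (hδ.trans (min_le_left _ _))
  obtain ⟨n2, hn2⟩ := h2 δ hδ0 (hδ.trans (min_le_right _ _))
  refine ⟨max n0 (max n1 n2), fun n hn M hM => ?_⟩
  by_contra hcon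
  push Not at hcon
  have hM0 : M ≥ K * n := le_trans (Nat.mul_le_mul_right _ (le_max_left _ _)) hM
  have hM1 : M ≥ K1 * n :=
    le_trans (Nat.mul_le_mul_right _ ((le_max_left _ _).trans (le_max_right _ _))) hM
  have hM2 : M ≥ K2 * n :=
    le_trans (Nat.mul_le_mul_right _ ((le_max_right _ _).trans (le_max_right _ _))) hM
  have c1 := hn1 n (((le_max_left _ _).trans (le_max_right _ _)).trans hn) M hM1
    (fun p hp => hcon.1 p hp)
  have c2 := hn2 n (((le_max_right _ _).trans (le_max_right _ _)).trans hn) M hM2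
    (fun p hp => hcon.2 p hp)
  have e3 : 3 * (ε / 3) = ε := by ring
  rw [e3] at c1 c2
  rcases hn0 n ((le_max_left _ _).trans hn) M hM0 with ⟨p, hp, hp'⟩ | ⟨p, hp, hp'⟩
  · exact absurd (c1 p hp) (not_lt.2 hp')
  · exact absurd (c2 p hp) (not_lt.2 hp')

end IDK
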