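import Pool.Agent.IDK.StepB

/-! # IDK/RL (MP_b3e76a_pr): ratio limit theorem

`C` from `stepB`. Choose `k` with `(1 - 1/C)^k * C² ≤ ε` and `Λ = 16 * 34 * 8^k`. Let `A, B ⊆ HB r`, `n_i = 34 r 8^i` (as natural number, `r = r.toNat`), `A, B ⊆ HB n_i`. If `hit B = 0` in all environments with `16 n_0 ≤ R` the left side is `0` (`hit q R' F' B t' = 0`). Otherwise `RB q (16 n_0) (ρ/C) (Cρ)`. Induction on `i ≤ k`: there are
`m_i, M_i` with `ρ/C ≤ m_i ≤ M_i`, `M_i - m_i ≤ (1 - 1/C)^i * (C ρ)` and `RB q (16 n_i) m_i M_i A B`: step `n = n_(i+1) = 8 n_i`, `4 n_(i+1) - 1 ≥ 16 n_i` (`RB` is monotone in the radius). At `i = k`: if `ρ = 0` then `M_k ≤ 0`.. (`M_0 = 0`, `M_k ≤ M_0`: keep also `M_i ≤ C ρ`) and `hit A = 0`, the left side is `0`.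
If `ρ > 0`: `M_k ≤ m_k + ε ρ / C ≤ (1 + ε) m_k`; `m_k * (hit A * hit' B) ≤ hit A * hit' A.. `: precisely `m_k * hit q R' F' B t' ≤ hit q R' F' A t'` and `hit q R F A t ≤ M_k * hit q R F B t`, multiply: `m_k * (hit A * hit' B) ≤ M_k * (hit B * hit' A) ≤ (1 + ε) m_k * (hit B * hit' A)`, divide by `m_k > 0`. -/

namespace Pool.Agent.IDK

open Finset
open Pool.Agent.FKR
open Pool.Agent.H95.Perc (Inc conn link rect hor ver eh ev sumE sepE Inci mem_rect)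
open Pool.Agent.H95.SumRule (edgesIn Z2)

variable {q : ℝ}

private theorem RB_mono {ρ ρ' : ℤ} (h : ρ ≤ ρ') {m M : ℝ} {A B : Finset (ℤ × ℤ)}
    (hr : RB q ρ m M A B) : RB q ρ' m M A B :=
  fun R F t hR he => hr R F t (h.trans hR) he

private theorem HB_mono' {l R : ℤ} (h : l ≤ R) : HB l ⊆ HB R := by
  intro v hv
  rw [mem_HB] at hv ⊢
  omega

theorem RL (hq : 1 ≤ q) (hq4 : q < 4) (hu : UU q) (ε : ℝ) (hε : 0 < ε) : ∃ Λ : ℤ, 1 ≤ Λ ∧
    ∀ (r R R' : ℤ) (F F' : Finset (Sym2 (ℤ × ℤ))) (t t' : ℤ × ℤ) (A B : Finset (ℤ × ℤ)), 1 ≤ r →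
    Λ * r ≤ R → Λ * r ≤ R' → Env R F t → Env R' F' t' → A ⊆ HB r → B ⊆ HB r →
    hit q R F A t * hit q R' F' B t' ≤ (1 + ε) * (hit q R F B t * hit q R' F' A t') := by
  have hq0 : 0 < q := by linarith
  obtain ⟨C, hC, hstep, hstart⟩ := stepB hq hq4 hu
  have hC0 : 0 < C := by linarith
  set θ : ℝ := 1 - 1 / C with hθ
  have h1C : 1 / C ≤ 1 := by rw [div_le_one hC0]; exact hC
  have hθ0 : 0 ≤ θ := by rw [hθ]; linarith
  have hθ1 : θ < 1 := by rw [hθ]; have : 0 < 1 / C := by positivity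
                         linarith
  obtain ⟨k, hk⟩ : ∃ k : ℕ, θ ^ k * C ^ 2 ≤ ε := by
    obtain ⟨k, hk⟩ := exists_pow_lt_of_lt_one (show 0 < ε / C ^ 2 by positivity) hθ1
    exact ⟨k, by rw [lt_div_iff₀ (by positivity)] at hk; exact hk.le⟩
  refine ⟨16 * 34 * 8 ^ k, by have : (1 : ℤ) ≤ 8 ^ k := one_le_pow₀ (by norm_num)
                              linarith, ?_⟩
  intro r R R' F F' t t' A B hr hR hR' he he' hA hB
  have hn : ∀ (G : Finset (Sym2 (ℤ × ℤ))) (Q : ℤ) (D : Finset (ℤ × ℤ)) (s : ℤ × ℤ), 0 ≤ hit q Q G D s :=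
    fun G Q D s => P_nonneg hq0 _ _ _
  obtain ⟨a, ha⟩ : ∃ a : ℕ, (a : ℤ) = r := ⟨r.toNat, Int.toNat_of_nonneg (by omega)⟩
  have ha1 : 1 ≤ a := by omega
  have h8 : ∀ i : ℕ, 1 ≤ 8 ^ i := fun i => Nat.one_le_pow _ _ (by norm_num)
  have hni : ∀ i : ℕ, 34 ≤ 34 * a * 8 ^ i := by
    intro i
    calc 34 = 34 * 1 * 1 := by norm_num
      _ ≤ 34 * a * 8 ^ i := Nat.mul_le_mul (Nat.mul_le_mul le_rfl ha1) (h8 i)
  have hsub : ∀ (D : Finset (ℤ × ℤ)) (i : ℕ), D ⊆ HB r → D ⊆ HB ((34 * a * 8 ^ i : ℕ) : ℤ) := by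
    intro D i hD
    refine hD.trans (HB_mono' ?_)
    have : a ≤ 34 * a * 8 ^ i := by
      calc a = 1 * a * 1 := by ring
        _ ≤ 34 * a * 8 ^ i := Nat.mul_le_mul (Nat.mul_le_mul (by norm_num) le_rfl) (h8 i)
    rw [← ha]
    exact_mod_cast this
  have hΛ : ∀ i : ℕ, i ≤ k → (16 : ℤ) * ((34 * a * 8 ^ i : ℕ) : ℤ) ≤ 16 * 34 * 8 ^ k * r := by
    intro i hi
    rw [← ha]
    have h1 : 8 ^ i ≤ 8 ^ k := Nat.pow_le_pow_right (by norm_num) hi
    have h2 : 16 * (34 * a * 8 ^ i) ≤ 16 * 34 * 8 ^ k * a := by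
      calc 16 * (34 * a * 8 ^ i) = 16 * 34 * a * 8 ^ i := by ring
        _ ≤ 16 * 34 * a * 8 ^ k := Nat.mul_le_mul_left _ h1
        _ = 16 * 34 * 8 ^ k * a := by ring
    exact_mod_cast h2
  rcases hstart (34 * a * 8 ^ 0) A B (hni 0) (hsub A 0 hA) (hsub B 0 hB) with h0 | ⟨ρ, hρ, hRB⟩
  · have h1 := h0 R' F' t' ((hΛ 0 (Nat.zero_le _)).trans hR') he'
    rw [h1, mul_zero]
    exact mul_nonneg (by linarith) (mul_nonneg (hn F R B t) (hn F' R' A t'))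
  have hρC : ρ / C ≤ C * ρ := by
    rw [div_le_iff₀ hC0]
    nlinarith [mul_nonneg hρ (sub_nonneg.2 hC), mul_nonneg (mul_nonneg hρ (sub_nonneg.2 hC)) hC0.le]
  have key : ∀ i : ℕ, ∃ m M : ℝ, ρ / C ≤ m ∧ m ≤ M ∧ M ≤ C * ρ ∧ M - m ≤ θ ^ i * (C * ρ - ρ / C) ∧
      RB q (16 * ((34 * a * 8 ^ i : ℕ) : ℤ)) m M A B := by
    intro i
    induction i with
    | zero => exact ⟨ρ / C, C * ρ, le_rfl, hρC, le_rfl, by rw [pow_zero, one_mul], hRB⟩
    | succ i ih =>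
      obtain ⟨m, M, b1, b2, b3, b4, b5⟩ := ih
      obtain ⟨m', M', c1, c2, c3, c4, c5⟩ := hstep (34 * a * 8 ^ (i + 1)) m M A B (hni _) b2
        (hsub A _ hA) (hsub B _ hB) (RB_mono (by
          have h2 : 34 * a * 8 ^ (i + 1) = 8 * (34 * a * 8 ^ i) := by rw [pow_succ]; ring
          rw [h2]
          push_cast
          have h3 := hni i
          have h4 : (34 : ℤ) ≤ 34 * a * 8 ^ i := by exact_mod_cast h3
          linarith) b5)
      refine ⟨m', M', b1.trans c1, c2, c3.trans b3, c4.trans ?_, c5⟩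
      rw [pow_succ, mul_comm (θ ^ i) θ, mul_assoc]
      exact mul_le_mul_of_nonneg_left b4 hθ0
  obtain ⟨m, M, b1, b2, b3, b4, b5⟩ := key k
  obtain ⟨d1, d2⟩ := b5 R F t ((hΛ k le_rfl).trans hR) he
  obtain ⟨e1, e2⟩ := b5 R' F' t' ((hΛ k le_rfl).trans hR') he'
  have nA := hn F R A t
  have nB := hn F R B t
  have nA' := hn F' R' A t'
  have nB' := hn F' R' B t'
  rcases hρ.eq_or_lt with h0 | h0
  · have hM : M ≤ 0 := by rw [← h0, mul_zero] at b3; exact b3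
    have h1 : hit q R F A t = 0 := by
      refine le_antisymm (d2.trans ?_) nA
      exact mul_nonpos_of_nonpos_of_nonneg hM nB
    rw [h1, zero_mul]
    exact mul_nonneg (by linarith) (mul_nonneg nB nA')
  · have hm : 0 < m := lt_of_lt_of_le (by positivity) b1
    have hM : M ≤ (1 + ε) * m := by
      have h1 : θ ^ k * (C * ρ - ρ / C) ≤ ε * (ρ / C) := by
        have h2 : C * ρ - ρ / C ≤ C ^ 2 * (ρ / C) := by
          have : C ^ 2 * (ρ / C) = C * ρ := by field_simp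
          rw [this]
          have : 0 ≤ ρ / C := by positivity
          linarith
        calc θ ^ k * (C * ρ - ρ / C) ≤ θ ^ k * (C ^ 2 * (ρ / C)) :=
              mul_le_mul_of_nonneg_left h2 (pow_nonneg hθ0 k)
          _ = (θ ^ k * C ^ 2) * (ρ / C) := by ring
          _ ≤ ε * (ρ / C) := mul_le_mul_of_nonneg_right hk (by positivity)
      have h3 : ε * (ρ / C) ≤ ε * m := mul_le_mul_of_nonneg_left b1 hε.le
      linarith
    refine le_of_mul_le_mul_left ?_ hm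
    calc m * (hit q R F A t * hit q R' F' B t') = hit q R F A t * (m * hit q R' F' B t') := by ring
      _ ≤ hit q R F A t * hit q R' F' A t' := mul_le_mul_of_nonneg_left e1 nA
      _ ≤ (M * hit q R F B t) * hit q R' F' A t' := mul_le_mul_of_nonneg_right d2 nA'
      _ ≤ (((1 + ε) * m) * hit q R F B t) * hit q R' F' A t' :=
          mul_le_mul_of_nonneg_right (mul_le_mul_of_nonneg_right hM nB) nA'
      _ = m * ((1 + ε) * (hit q R F B t * hit q R' F' A t')) := by ring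

end Pool.Agent.IDK
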