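import Pool.Agent.FKR.Localize

/-! # IDK/SecondM (MP_b3e76a_pr): second moment inequality for the laws `P q E F`

`P q E F A = ws w E (..) / Z` with `w ≥ 0`, `Z > 0`. With `X ζ = ∑ i ∈ s, 1_{A i (ζ ∪ F)}`: `∑ i, P (A i) = (∑ ζ ⊆ E, w ζ * X ζ) / Z = (∑ ζ, w ζ * X ζ * 1_{X ζ ≠ 0}) / Z`, Cauchy-Schwarz
(`Finset.sum_mul_sq_le_sq_mul_sq` or `inner_mul_le_norm_mul_norm`, weights `√(w ζ)`). -/

namespace Pool.Agent.IDK

open Finset
open Pool.Agent.FKR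

variable {α : Type*} [DecidableEq α] {q : ℝ}

open Classical in
private theorem sm_P (hq : 0 < q) (E F : Finset (Sym2 α)) (B : Finset (Sym2 α) → Prop) :
    P q E F B = (∑ ζ ∈ E.powerset, wt q E F ζ * (if B (ζ ∪ F) then 1 else 0)) /
      Pool.Agent.H95.Susc.ws (wt q E F) E (fun _ => True) := by
  unfold P
  congr 1
  unfold Pool.Agent.H95.Susc.ws
  have h1 : ∀ ζ ∈ E.powerset, wt q E F ζ * (if B (ζ ∪ F) then 1 else 0) =
      if B (ζ ∪ F) then wt q E F ζ else 0 := by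
    intro ζ _
    split_ifs <;> simp
  rw [sum_congr rfl h1, ← sum_filter]
  apply sum_congr _ fun _ _ => rfl
  ext ζ
  rw [Pool.Agent.H95.Susc.mem_fil, mem_filter, mem_powerset]

theorem second_moment (hq : 0 < q) (E F : Finset (Sym2 α)) {ι : Type*} (s : Finset ι)
    (A : ι → Finset (Sym2 α) → Prop) :
    (∑ i ∈ s, P q E F (A i)) ^ 2 ≤
      (∑ i ∈ s, ∑ j ∈ s, P q E F (fun ω => A i ω ∧ A j ω)) * P q E F (fun ω => ∃ i ∈ s, A i ω) := by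
  classical
  obtain ⟨Z, hZ⟩ : ∃ Z, Z = Pool.Agent.H95.Susc.ws (wt q E F) E (fun _ => True) := ⟨_, rfl⟩
  have hZ0 : 0 < Z := by rw [hZ]; exact ws_wt_true_pos hq E F
  obtain ⟨X, hX⟩ : ∃ X : Finset (Sym2 α) → ℝ, X = fun ζ => ∑ i ∈ s, if A i (ζ ∪ F) then (1 : ℝ) else 0 :=
    ⟨_, rfl⟩
  obtain ⟨Y, hY⟩ : ∃ Y : Finset (Sym2 α) → ℝ, Y = fun ζ => if ∃ i ∈ s, A i (ζ ∪ F) then (1 : ℝ) else 0 :=
    ⟨_, rfl⟩
  have hXY : ∀ ζ, X ζ * Y ζ = X ζ := by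
    intro ζ
    by_cases h : ∃ i ∈ s, A i (ζ ∪ F)
    · rw [hY]; simp only; rw [if_pos h, mul_one]
    · have : X ζ = 0 := by
        rw [hX]
        apply sum_eq_zero
        intro i hi
        rw [if_neg]
        intro hA
        exact h ⟨i, hi, hA⟩
      rw [this, zero_mul]
  have hYY : ∀ ζ, Y ζ ^ 2 = Y ζ := by
    intro ζ
    rw [hY]
    simp only
    split_ifs <;> simp
  have e1 : ∑ i ∈ s, P q E F (A i) = (∑ ζ ∈ E.powerset, wt q E F ζ * X ζ) / Z := by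
    rw [sum_congr rfl (fun i _ => sm_P hq E F (A i)), ← sum_div, ← hZ, sum_comm]
    congr 1
    apply sum_congr rfl
    intro ζ _
    rw [hX, mul_sum]
  have e2 : ∑ i ∈ s, ∑ j ∈ s, P q E F (fun ω => A i ω ∧ A j ω) =
      (∑ ζ ∈ E.powerset, wt q E F ζ * X ζ ^ 2) / Z := by
    have h1 : ∀ i ∈ s, ∑ j ∈ s, P q E F (fun ω => A i ω ∧ A j ω) =
        (∑ ζ ∈ E.powerset, wt q E F ζ * ((if A i (ζ ∪ F) then 1 else 0) * X ζ)) / Z := by
      intro i _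
      rw [sum_congr rfl (fun j _ => sm_P hq E F (fun ω => A i ω ∧ A j ω)), ← sum_div, ← hZ, sum_comm]
      congr 1
      apply sum_congr rfl
      intro ζ _
      rw [hX]
      simp only
      rw [mul_sum, mul_sum]
      apply sum_congr rfl
      intro j _
      by_cases h1 : A i (ζ ∪ F) <;> by_cases h2 : A j (ζ ∪ F) <;> simp [h1, h2]
    rw [sum_congr rfl h1, ← sum_div, sum_comm]
    congr 1
    apply sum_congr rfl
    intro ζ _
    rw [← mul_sum, ← sum_mul, pow_two, hX]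
  have e3 : P q E F (fun ω => ∃ i ∈ s, A i ω) = (∑ ζ ∈ E.powerset, wt q E F ζ * Y ζ) / Z := by
    rw [sm_P hq, ← hZ, hY]
    congr 1
    refine sum_congr rfl fun ζ _ => ?_
    simp only
    by_cases h : ∃ i ∈ s, A i (ζ ∪ F)
    · rw [if_pos h, if_pos h]
    · rw [if_neg h, if_neg h]
  rw [e1, e2, e3, div_pow, div_mul_div_comm, ← pow_two]
  apply div_le_div_of_nonneg_right _ (by positivity)
  have hcs := sum_mul_sq_le_sq_mul_sq E.powerset (fun ζ => √(wt q E F ζ) * X ζ)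
    (fun ζ => √(wt q E F ζ) * Y ζ)
  have hw : ∀ ζ, √(wt q E F ζ) ^ 2 = wt q E F ζ := fun ζ => Real.sq_sqrt (wt_pos hq E F ζ).le
  have f1 : ∑ ζ ∈ E.powerset, (√(wt q E F ζ) * X ζ) * (√(wt q E F ζ) * Y ζ) =
      ∑ ζ ∈ E.powerset, wt q E F ζ * X ζ := by
    apply sum_congr rfl
    intro ζ _
    rw [← hXY ζ, ← hw ζ]
    rw [Real.sqrt_sq (Real.sqrt_nonneg _), hXY ζ]
    have := hXY ζ
    linear_combination (√(wt q E F ζ)) ^ 2 * this
  have f2 : ∑ ζ ∈ E.powerset, (√(wt q E F ζ) * X ζ) ^ 2 = ∑ ζ ∈ E.powerset, wt q E F ζ * X ζ ^ 2 := by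
    apply sum_congr rfl
    intro ζ _
    rw [mul_pow, hw]
  have f3 : ∑ ζ ∈ E.powerset, (√(wt q E F ζ) * Y ζ) ^ 2 = ∑ ζ ∈ E.powerset, wt q E F ζ * Y ζ := by
    apply sum_congr rfl
    intro ζ _
    rw [mul_pow, hw, hYY]
  rw [f1, f2, f3] at hcs
  exact hcs

end Pool.Agent.IDK
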