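import Pool.Agent.IDK.Pair
import Pool.Agent.IDK.SecondM
import Pool.Agent.IDK.HSum
import Pool.Agent.IDK.ArmZ

/-! # IDK/Second (MP_b3e76a_pr): the point `(0,0)` reaches the boundary segment `[n, 2n]`

`second_moment` with `s = Icc n (2n)`, `A y ω = Cn ω (0,0) (0,y)`. Let `a = wA q 2 n`, `S = ∑ y, P (A y)`.
Lower: `S ≥ (n + 1) * c * wA q 2 (2n) ^ 2 ≥ c1 * n * a ^ 2` (`twoZ` with `k = y`, `2 k ≤ 4 n ≤ N`; `wA_anti`; `wA q 2 n ≤ C wA q 2 (4n) ≤ C wA q 2 (2n)` by `wA_dbl`, small `n` by `wA_pos`).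
Upper: the off-diagonal terms are `≤ 2 ∑_{y < y'} C wA q 2 (y' - y) a² ≤ 2 (n + 1) C a² ∑_{1 ≤ d ≤ n} wA q 2 d ≤ C2 n² a³` (`pair`, `hsum`). The diagonal terms:
`P (A y) ≤ C a²` (e.g. `P (A y) ` by `P_hc` and `ray_up` is `≤ wA q 2 (n / 3) ^ 2`, `wA_dbl`), sum `≤ C n a² ≤ C3 n² a³`, because `wA q 2 1 ≤ ∑_{1 ≤ d ≤ n} wA q 2 d ≤ C n a`.
So `c1² n² a⁴ ≤ S² ≤ (C2 + C3) n² a³ * P (∃ y, ..)`. -/

namespace Pool.Agent.IDK

open Finset
open Pool.Agent.FKR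
open Pool.Agent.H95.Perc (Inc conn link rect hor ver eh ev mem_rect)
open Pool.Agent.H95.SumRule (edgesIn Z2)
open Pool.Agent.H95.Wedge (Vtx pt)

variable {q : ℝ}

attribute [local irreducible] wA P

private theorem sc_dbl (hq : 1 ≤ q) (hu : UU q) : ∃ D : ℝ, 0 < D ∧ ∀ k n : ℕ, 1 ≤ k → 1 ≤ n →
    n ≤ 4 * k → wA q 2 k ≤ D * wA q 2 n := by
  obtain ⟨C, hC, n0, hn0, h⟩ := wA_dbl hq hu (show 1 ≤ 2 by norm_num)
  have hp : ∀ k, 0 < wA q 2 k := fun k => wA_pos hq (by norm_num) k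
  refine ⟨C + 1 / wA q 2 (4 * n0), by have := hp (4 * n0); positivity, ?_⟩
  intro k n hk hn hkn
  rcases le_or_gt n0 k with h1 | h1
  · have h2 := h k h1
    have h3 : wA q 2 (4 * k) ≤ wA q 2 n := wA_anti hq hn hkn
    have h4 : 0 ≤ 1 / wA q 2 (4 * n0) * wA q 2 n := by
      have := hp (4 * n0); have := hp n; positivity
    nlinarith [mul_le_mul_of_nonneg_left h3 hC.le]
  · have h3 : wA q 2 (4 * n0) ≤ wA q 2 n := wA_anti hq hn (by omega)
    have h4 : wA q 2 k ≤ 1 := wA_le_one hq 2 k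
    have h5 : 1 ≤ 1 / wA q 2 (4 * n0) * wA q 2 n := by
      rw [one_div, inv_mul_eq_div, le_div_iff₀ (hp _)]
      linarith
    have h6 : 0 ≤ C * wA q 2 n := mul_nonneg hC.le (hp n).le
    rw [add_mul]
    linarith

private theorem sc_diag (hq : 1 ≤ q) (hu : UU q) : ∃ C : ℝ, 0 < C ∧ ∀ n N k : ℕ, 1 ≤ n → n ≤ k →
    P q (HE N) ∅ (fun ω => Cn ω (0, 0) (0, (k : ℤ))) ≤ C * wA q 2 n ^ 2 := by
  have hq0 : 0 < q := by linarith
  obtain ⟨D, hD, hdbl⟩ := sc_dbl hq hu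
  have hp : ∀ k, 0 < wA q 2 k := fun k => wA_pos hq (by norm_num) k
  refine ⟨D ^ 2 + 1 / wA q 2 1 ^ 2, by have := hp 1; positivity, ?_⟩
  intro n N k hn hk
  rcases eq_or_lt_of_le hn with h1 | h1
  · subst h1
    have h2 := P_le_one hq0 (HE (N : ℤ)) ∅ (fun ω => Cn ω (0, 0) (0, (k : ℤ)))
    have h3 := hp 1
    have h4 : (D ^ 2 + 1 / wA q 2 1 ^ 2) * wA q 2 1 ^ 2 = D ^ 2 * wA q 2 1 ^ 2 + 1 := by
      field_simp
    rw [h4]
    have : 0 ≤ D ^ 2 * wA q 2 1 ^ 2 := by positivity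
    linarith
  · have h2 := ray_up (q := q) (m := 2) (N := N) (n := n / 2) (k := k) hq (by omega) (by omega)
    have h3 : P q (WE 2 N) ∅ (fun ω => Cn ω tip (ch 0 ((k : ℤ), 0))) =
        P q (HE N) ∅ (fun ω => Cn ω (0, 0) (0, (k : ℤ))) := by
      have h4 := P_hc hq0 N (F := ∅) (empty_subset _) (fun ω => Cn ω tip (ch 0 ((k : ℤ), 0)))
      have e0 : img hc (∅ : Finset (Sym2 (ℤ × ℤ))) = ∅ := by unfold img; exact image_empty _
      rw [e0] at h4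
      rw [h4]
      apply P_congr
      intro ζ hζ
      rw [union_empty, ← hc_zero, ← hc_swap (by omega) le_rfl]
      exact Cn_hc hζ le_rfl le_rfl
    rw [← h3]
    refine h2.trans ?_
    have h5 : wA q 2 (n / 2) ≤ D * wA q 2 n := hdbl (n / 2) n (by omega) hn (by omega)
    have h6 := hp (n / 2)
    have h7 : 0 ≤ 1 / wA q 2 1 ^ 2 * wA q 2 n ^ 2 := by positivity
    have h8 : wA q 2 (n / 2) * wA q 2 (n / 2) ≤ (D * wA q 2 n) * (D * wA q 2 n) :=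
      mul_le_mul h5 h5 h6.le (by have := hp n; positivity)
    nlinarith

private theorem sc_sum (f : ℕ → ℝ) (hf : ∀ d, 0 ≤ f d) {n : ℕ} {i : ℤ} (hi : i ∈ Icc (n : ℤ) (2 * n)) :
    ∑ j ∈ (Icc (n : ℤ) (2 * n)).filter (fun j => i < j), f (j - i).toNat ≤ ∑ d ∈ Icc 1 n, f d ∧
    ∑ j ∈ (Icc (n : ℤ) (2 * n)).filter (fun j => j < i), f (i - j).toNat ≤ ∑ d ∈ Icc 1 n, f d := by
  rw [mem_Icc] at hi
  constructor
  · have h1 : ∑ j ∈ (Icc (n : ℤ) (2 * n)).filter (fun j => i < j), f (j - i).toNat =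
        ∑ d ∈ ((Icc (n : ℤ) (2 * n)).filter (fun j => i < j)).image (fun j => (j - i).toNat), f d := by
      rw [sum_image]
      intro a ha b hb hab
      rw [mem_coe, mem_filter, mem_Icc] at ha hb
      simp only at hab
      omega
    rw [h1]
    apply sum_le_sum_of_subset_of_nonneg
    · intro d hd
      rw [mem_image] at hd
      obtain ⟨j, hj, rfl⟩ := hd
      rw [mem_filter, mem_Icc] at hj
      rw [mem_Icc]
      omega
    · intro d _ _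
      exact hf d
  · have h1 : ∑ j ∈ (Icc (n : ℤ) (2 * n)).filter (fun j => j < i), f (i - j).toNat =
        ∑ d ∈ ((Icc (n : ℤ) (2 * n)).filter (fun j => j < i)).image (fun j => (i - j).toNat), f d := by
      rw [sum_image]
      intro a ha b hb hab
      rw [mem_coe, mem_filter, mem_Icc] at ha hb
      simp only at hab
      omega
    rw [h1]
    apply sum_le_sum_of_subset_of_nonneg
    · intro d hd
      rw [mem_image] at hd
      obtain ⟨j, hj, rfl⟩ := hd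
      rw [mem_filter, mem_Icc] at hj
      rw [mem_Icc]
      omega
    · intro d _ _
      exact hf d

theorem second (hq : 1 ≤ q) (hq4 : q < 4) (hu : UU q) : ∃ c : ℝ, 0 < c ∧ ∀ n N : ℕ, 1 ≤ n →
    4 * n ≤ N → c * wA q 2 n ≤
      P q (HE N) ∅ (fun ω => ∃ y ∈ Icc (n : ℤ) (2 * n), Cn ω (0, 0) (0, y)) := by
  have hq0 : 0 < q := by linarith
  obtain ⟨D, hD, hdbl⟩ := sc_dbl hq hu
  obtain ⟨C1, hC1, hdiag⟩ := sc_diag hq hu
  obtain ⟨C2, hC2, hpair⟩ := pair hq hu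
  obtain ⟨C3, hC3, hs⟩ := hsum hq hq4 hu
  obtain ⟨c0, hc0, htwo⟩ := twoZ hq hu
  have hp : ∀ k, 0 < wA q 2 k := fun k => wA_pos hq (by norm_num) k
  set a1 := wA q 2 1 with ha1
  have ha1p : 0 < a1 := hp 1
  set K : ℝ := C1 * C3 / a1 + 2 * (C2 * C3) with hK
  have hKp : 0 < K := by positivity
  refine ⟨(c0 / D ^ 2) ^ 2 / (2 * K), by positivity, ?_⟩
  intro n N hn hN
  have hn' : (1 : ℝ) ≤ n := by exact_mod_cast hn
  set a := wA q 2 n with ha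
  have hap : 0 < a := hp n
  set s : Finset ℤ := Icc (n : ℤ) (2 * n) with hsdef
  have hcard : (s.card : ℝ) = n + 1 := by
    rw [hsdef, Int.card_Icc]
    have : (2 * (n : ℤ) + 1 - n).toNat = n + 1 := by omega
    rw [this]; push_cast; ring
  have hsm := second_moment hq0 (HE (N : ℤ)) ∅ s (fun (y : ℤ) ω => Cn ω (0, 0) (0, y))
  -- lower bound
  have hlow : ∀ y ∈ s, c0 / D ^ 2 * a ^ 2 ≤ P q (HE (N : ℤ)) ∅ (fun ω => Cn ω (0, 0) (0, y)) := by
    intro y hy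
    rw [hsdef, mem_Icc] at hy
    obtain ⟨k, rfl⟩ : ∃ k : ℕ, y = k := ⟨y.toNat, by omega⟩
    refine le_trans ?_ (htwo k N (by omega) (by omega))
    have h1 : a ≤ D * wA q 2 k := hdbl n k hn (by omega) (by omega)
    have h2 : a ^ 2 ≤ (D * wA q 2 k) ^ 2 := by
      apply pow_le_pow_left₀ hap.le h1
    rw [mul_pow] at h2
    rw [div_mul_eq_mul_div, div_le_iff₀ (by positivity)]
    nlinarith
  have hS : (n : ℝ) * (c0 / D ^ 2 * a ^ 2) ≤
      ∑ y ∈ s, P q (HE (N : ℤ)) ∅ (fun ω => Cn ω (0, 0) (0, y)) := by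
    have h1 := card_nsmul_le_sum s _ _ hlow
    rw [nsmul_eq_mul, hcard] at h1
    refine le_trans ?_ h1
    apply mul_le_mul_of_nonneg_right (by linarith)
    positivity
  -- upper bound of the double sum
  have hsd := hs n hn
  rw [← ha] at hsd
  set T : ℝ := ∑ d ∈ Icc 1 n, wA q 2 d with hT
  have hTa : a1 ≤ T := by
    rw [hT, ha1]
    exact single_le_sum (f := fun d => wA q 2 d) (fun d _ => (hp d).le)
      (mem_Icc.2 ⟨le_rfl, hn⟩)
  have hrow : ∀ i ∈ s, ∑ j ∈ s, P q (HE (N : ℤ)) ∅ (fun ω => Cn ω (0, 0) (0, i) ∧ Cn ω (0, 0) (0, j)) ≤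
      C1 * a ^ 2 + 2 * (C2 * (T * a ^ 2)) := by
    intro i hi
    have hi' := hi
    rw [hsdef, mem_Icc] at hi'
    have hsplit : ∑ j ∈ s, P q (HE (N : ℤ)) ∅ (fun ω => Cn ω (0, 0) (0, i) ∧ Cn ω (0, 0) (0, j)) =
        ∑ j ∈ s.filter (fun j => j < i), P q (HE (N : ℤ)) ∅ (fun ω => Cn ω (0, 0) (0, i) ∧ Cn ω (0, 0) (0, j)) +
        (∑ j ∈ s.filter (fun j => i < j), P q (HE (N : ℤ)) ∅ (fun ω => Cn ω (0, 0) (0, i) ∧ Cn ω (0, 0) (0, j)) +
         P q (HE (N : ℤ)) ∅ (fun ω => Cn ω (0, 0) (0, i) ∧ Cn ω (0, 0) (0, i))) := by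
      rw [← sum_filter_add_sum_filter_not s (fun j => j < i)]
      congr 1
      rw [← sum_filter_add_sum_filter_not (s.filter fun j => ¬ j < i) (fun j => i < j)]
      congr 1
      · apply sum_congr _ (fun _ _ => rfl)
        ext j
        simp only [mem_filter]
        constructor
        · rintro ⟨⟨h1, _⟩, h3⟩; exact ⟨h1, h3⟩
        · rintro ⟨h1, h3⟩; exact ⟨⟨h1, by omega⟩, h3⟩
      · have : (s.filter fun j => ¬ j < i).filter (fun j => ¬ i < j) = {i} := by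
          ext j
          simp only [mem_filter, mem_singleton]
          constructor
          · rintro ⟨⟨_, h2⟩, h3⟩; omega
          · rintro rfl; exact ⟨⟨hi, by omega⟩, by omega⟩
        rw [this, sum_singleton]
    rw [hsplit]
    obtain ⟨hs1, hs2⟩ := sc_sum (fun d => C2 * (wA q 2 d * a ^ 2))
      (fun d => by have := hp d; positivity) hi
    have hTT : ∑ d ∈ Icc 1 n, C2 * (wA q 2 d * a ^ 2) = C2 * (T * a ^ 2) := by
      rw [hT, sum_mul, mul_sum]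
    rw [hTT] at hs1 hs2
    have hA : ∑ j ∈ s.filter (fun j => j < i),
        P q (HE (N : ℤ)) ∅ (fun ω => Cn ω (0, 0) (0, i) ∧ Cn ω (0, 0) (0, j)) ≤ C2 * (T * a ^ 2) := by
      refine (sum_le_sum ?_).trans hs2
      intro j hj
      rw [mem_filter, hsdef, mem_Icc] at hj
      refine (P_mono hq0 ?_).trans (hpair n N j i hn (by omega) hj.2 (by omega))
      intro ζ _ h
      exact ⟨h.2, h.1⟩
    have hB : ∑ j ∈ s.filter (fun j => i < j),
        P q (HE (N : ℤ)) ∅ (fun ω => Cn ω (0, 0) (0, i) ∧ Cn ω (0, 0) (0, j)) ≤ C2 * (T * a ^ 2) := by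
      refine (sum_le_sum ?_).trans hs1
      intro j hj
      rw [mem_filter, hsdef, mem_Icc] at hj
      exact hpair n N i j hn (by omega) hj.2 (by omega)
    have hCd : P q (HE (N : ℤ)) ∅ (fun ω => Cn ω (0, 0) (0, i) ∧ Cn ω (0, 0) (0, i)) ≤ C1 * a ^ 2 := by
      obtain ⟨k, rfl⟩ : ∃ k : ℕ, i = k := ⟨i.toNat, by omega⟩
      refine (P_mono hq0 ?_).trans (hdiag n N k hn (by omega))
      intro ζ _ h
      exact h.1
    linarith
  have hdouble : ∑ i ∈ s, ∑ j ∈ s, P q (HE (N : ℤ)) ∅ (fun ω => Cn ω (0, 0) (0, i) ∧ Cn ω (0, 0) (0, j)) ≤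
      2 * K * n ^ 2 * a ^ 3 := by
    have h1 := sum_le_card_nsmul s _ _ hrow
    rw [nsmul_eq_mul, hcard] at h1
    refine h1.trans ?_
    have h2 : C1 * a ^ 2 ≤ C1 * C3 / a1 * (n * a ^ 3) := by
      have h3 : a1 ≤ C3 * (n * a) := hTa.trans hsd
      rw [div_mul_eq_mul_div, le_div_iff₀ ha1p]
      have : C1 * a ^ 2 * a1 ≤ C1 * a ^ 2 * (C3 * (n * a)) :=
        mul_le_mul_of_nonneg_left h3 (by positivity)
      linarith [this, (by ring : C1 * a ^ 2 * (C3 * (n * a)) = C1 * C3 * (n * a ^ 3))]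
    have h4 : C2 * (T * a ^ 2) ≤ C2 * C3 * (n * a ^ 3) := by
      have : C2 * (T * a ^ 2) ≤ C2 * ((C3 * (n * a)) * a ^ 2) :=
        mul_le_mul_of_nonneg_left (mul_le_mul_of_nonneg_right hsd (by positivity)) hC2.le
      linarith [this, (by ring : C2 * ((C3 * (n * a)) * a ^ 2) = C2 * C3 * (n * a ^ 3))]
    have h5 : C1 * a ^ 2 + 2 * (C2 * (T * a ^ 2)) ≤ K * (n * a ^ 3) := by
      rw [hK, add_mul]
      linarith
    have h6 : 0 ≤ K * (n * a ^ 3) := by positivity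
    calc ((n : ℝ) + 1) * (C1 * a ^ 2 + 2 * (C2 * (T * a ^ 2)))
        ≤ ((n : ℝ) + 1) * (K * (n * a ^ 3)) := mul_le_mul_of_nonneg_left h5 (by positivity)
      _ ≤ (2 * n) * (K * (n * a ^ 3)) := mul_le_mul_of_nonneg_right (by linarith) h6
      _ = _ := by ring
  set PP := P q (HE (N : ℤ)) ∅ (fun ω => ∃ y ∈ s, Cn ω (0, 0) (0, y)) with hPP
  have hPP0 : 0 ≤ PP := P_nonneg hq0 _ _ _
  have hfin : ((n : ℝ) * (c0 / D ^ 2 * a ^ 2)) ^ 2 ≤ 2 * K * n ^ 2 * a ^ 3 * PP := by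
    calc ((n : ℝ) * (c0 / D ^ 2 * a ^ 2)) ^ 2
        ≤ (∑ y ∈ s, P q (HE (N : ℤ)) ∅ (fun ω => Cn ω (0, 0) (0, y))) ^ 2 :=
          pow_le_pow_left₀ (by positivity) hS 2
      _ ≤ _ := hsm
      _ ≤ _ := mul_le_mul_of_nonneg_right hdouble hPP0
  have hpos : (0 : ℝ) < n ^ 2 * a ^ 3 := by positivity
  have h9 : (n ^ 2 * a ^ 3) * ((c0 / D ^ 2) ^ 2 * a) ≤ (n ^ 2 * a ^ 3) * (2 * K * PP) := by
    calc (n ^ 2 * a ^ 3) * ((c0 / D ^ 2) ^ 2 * a) = ((n : ℝ) * (c0 / D ^ 2 * a ^ 2)) ^ 2 := by ring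
      _ ≤ _ := hfin
      _ = _ := by ring
  have h10 := le_of_mul_le_mul_left h9 hpos
  rw [div_mul_eq_mul_div, div_le_iff₀ (by positivity)]
  linarith

end Pool.Agent.IDK
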