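import Pool.Agent.IDK.UpB
import Pool.Agent.IDK.EnvSum

/-! # IDK/StepB (MP_b3e76a_pr): contraction

`C` from `upB`, `l = 4 n`, `G A = Gam q l A`, `h = hit q R F (HB l) t`, for an environment with `16 n ≤ R`.
If `G B = 0`: `hit .. B t = 0` by `upB` in all these environments, and `hit .. A t = 0` by `RB` (`hit ≤ M * 0`, `hit ≥ 0`): take `m' = M' = m`.
If `G B > 0`: `ρ = G A / G B ∈ [m, M]` by `gam_ratio` (sum over `VN l`, weights `aN ≥ 0`). `hit_dec`: `hit A = h * G A + rest A`, `rest A = ∑_N (WN - h * aN) * gam N A + P (HitA A t ∧ ¬ Circ l)`; the coefficients are `≥ 0` (`WN_ge`), so `m rest B ≤ rest A ≤ M rest B` (`gam_ratio`, `rest_ratio`; `mem_VN`), `rest B ≥ 0`.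
`hit A ≤ h ρ G B + M (hit B - h G B) = M hit B - (M - ρ) h G B ≤ (M - (M - ρ) / C) hit B` since `hit B ≤ C h G B` (`upB`). In the same way `hit A ≥ (m + (ρ - m) / C) hit B`. `M' = M - (M - ρ)/C`, `m' = m + (ρ - m)/C`, `M' - m' = (1 - 1/C) (M - m)`.
`startB`: `hit A ≤ C h G A`, `h G A ≤ hit A` (`lowB`), the same for `B`: `ρ = G A / G B`, `RB q (16 n) (ρ / C) (C ρ)`. -/

namespace Pool.Agent.IDK

open Finset
open Pool.Agent.FKR
open Pool.Agent.H95.Perc (Inc conn link rect hor ver eh ev sumE sepE Inci mem_rect)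
open Pool.Agent.H95.SumRule (edgesIn Z2)

variable {q : ℝ}

private theorem sb_aN (hq : 0 < q) (l : ℤ) (N : Finset (ℤ × ℤ)) : 0 ≤ aN q l N :=
  P_nonneg hq _ _ _

private theorem sb_Gam (hq : 0 < q) (l : ℤ) (A : Finset (ℤ × ℤ)) : 0 ≤ Gam q l A :=
  sum_nonneg fun N _ => mul_nonneg (sb_aN hq l N) (gam_nonneg hq l N A)

private theorem sb_hit (hq : 0 < q) (R : ℤ) (F : Finset (Sym2 (ℤ × ℤ))) (A : Finset (ℤ × ℤ))
    (t : ℤ × ℤ) : 0 ≤ hit q R F A t := P_nonneg hq _ _ _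

private theorem sb_Gam_ratio (hq : 0 < q) {l : ℤ} (hl : 2 ≤ l) {m M : ℝ} {A B : Finset (ℤ × ℤ)}
    (hr : RB q (l - 1) m M A B) :
    m * Gam q l B ≤ Gam q l A ∧ Gam q l A ≤ M * Gam q l B := by
  unfold Gam
  rw [mul_sum, mul_sum]
  constructor
  · refine sum_le_sum fun N hN => ?_
    have h := (gam_ratio hq hl hr (mem_VN.1 hN)).1
    have h2 := mul_le_mul_of_nonneg_left h (sb_aN hq l N)
    linarith
  · refine sum_le_sum fun N hN => ?_
    have h := (gam_ratio hq hl hr (mem_VN.1 hN)).2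
    have h2 := mul_le_mul_of_nonneg_left h (sb_aN hq l N)
    linarith

/-- the remaining part -/
private theorem sb_rest (hq : 1 ≤ q) {l R : ℤ} (hl : 2 ≤ l) (hR : 4 * l ≤ R) {m M : ℝ}
    {A B : Finset (ℤ × ℤ)} (hA : A ⊆ HB l) (hB : B ⊆ HB l)
    (hr : RB q (l - 1) m M A B) {F : Finset (Sym2 (ℤ × ℤ))} {t : ℤ × ℤ} (he : Env R F t) :
    m * (hit q R F B t - hit q R F (HB l) t * Gam q l B) ≤
        hit q R F A t - hit q R F (HB l) t * Gam q l A ∧
      hit q R F A t - hit q R F (HB l) t * Gam q l A ≤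
        M * (hit q R F B t - hit q R F (HB l) t * Gam q l B) := by
  have hq0 : 0 < q := by linarith
  have e : ∀ D : Finset (ℤ × ℤ), D ⊆ HB l → hit q R F D t - hit q R F (HB l) t * Gam q l D =
      (∑ N ∈ VN l, (WN q R l F t N - hit q R F (HB l) t * aN q l N) * gam q l N D) +
        P q (HE R) F (fun ω => HitA D t ω ∧ ¬ Circ l ω) := by
    intro D hD
    have h1 := hit_dec hq (by omega) hR he hD
    have h2 : hit q R F (HB l) t * Gam q l D =
        ∑ N ∈ VN l, hit q R F (HB l) t * aN q l N * gam q l N D := by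
      unfold Gam
      rw [mul_sum]
      exact sum_congr rfl fun N _ => by ring
    rw [h1, h2]
    simp only [sub_mul, sum_sub_distrib]
    ring
  have hw : ∀ N ∈ VN l, 0 ≤ WN q R l F t N - hit q R F (HB l) t * aN q l N := by
    intro N hN
    have := WN_ge hq (by omega) hR he (mem_VN.1 hN)
    linarith
  have h3 := rest_ratio hq0 hl (by omega) hr he
  rw [e A hA, e B hB]
  constructor
  · rw [mul_add, mul_sum]
    refine add_le_add (sum_le_sum fun N hN => ?_) h3.1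
    have h := mul_le_mul_of_nonneg_left (gam_ratio hq0 hl hr (mem_VN.1 hN)).1 (hw N hN)
    linarith
  · rw [mul_add, mul_sum]
    refine add_le_add (sum_le_sum fun N hN => ?_) h3.2
    have h := mul_le_mul_of_nonneg_left (gam_ratio hq0 hl hr (mem_VN.1 hN)).2 (hw N hN)
    linarith

private theorem sb_sub {n : ℕ} {A : Finset (ℤ × ℤ)} (hA : A ⊆ HB n) : A ⊆ HB (4 * (n : ℤ)) := by
  intro v hv
  have := hA hv
  rw [mem_HB] at this ⊢
  omega

private theorem sb_alg1 {C M ρ hA hB h G : ℝ} (hC : 1 ≤ C) (h1 : ρ ≤ M)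
    (hr : hA - h * (ρ * G) ≤ M * (hB - h * G)) (hu : hB ≤ C * (h * G)) :
    hA ≤ (M - (M - ρ) / C) * hB := by
  have hC0 : 0 < C := by linarith
  have h2 : hB / C ≤ h * G := by
    rw [div_le_iff₀ hC0]; linarith
  have h3 : (M - ρ) * (hB / C) ≤ (M - ρ) * (h * G) := mul_le_mul_of_nonneg_left h2 (by linarith)
  have e : (M - (M - ρ) / C) * hB = M * hB - (M - ρ) * (hB / C) := by ring
  rw [e]
  nlinarith

private theorem sb_alg2 {C m ρ hA hB h G : ℝ} (hC : 1 ≤ C) (h1 : m ≤ ρ)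
    (hr : m * (hB - h * G) ≤ hA - h * (ρ * G)) (hu : hB ≤ C * (h * G)) :
    (m + (ρ - m) / C) * hB ≤ hA := by
  have hC0 : 0 < C := by linarith
  have h2 : hB / C ≤ h * G := by
    rw [div_le_iff₀ hC0]; linarith
  have h3 : (ρ - m) * (hB / C) ≤ (ρ - m) * (h * G) := mul_le_mul_of_nonneg_left h2 (by linarith)
  have e : (m + (ρ - m) / C) * hB = m * hB + (ρ - m) * (hB / C) := by ring
  rw [e]
  nlinarith

theorem stepB (hq : 1 ≤ q) (hq4 : q < 4) (hu : UU q) : ∃ C : ℝ, 1 ≤ C ∧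
    (∀ (n : ℕ) (m M : ℝ) (A B : Finset (ℤ × ℤ)), 34 ≤ n → m ≤ M → A ⊆ HB n → B ⊆ HB n →
      RB q (4 * n - 1) m M A B → ∃ m' M' : ℝ, m ≤ m' ∧ m' ≤ M' ∧ M' ≤ M ∧
        M' - m' ≤ (1 - 1 / C) * (M - m) ∧ RB q (16 * n) m' M' A B) ∧
    ∀ (n : ℕ) (A B : Finset (ℤ × ℤ)), 34 ≤ n → A ⊆ HB n → B ⊆ HB n →
      (∀ (R : ℤ) (F : Finset (Sym2 (ℤ × ℤ))) (t : ℤ × ℤ), 16 * n ≤ R → Env R F t → hit q R F B t = 0) ∨
      ∃ ρ : ℝ, 0 ≤ ρ ∧ RB q (16 * n) (ρ / C) (C * ρ) A B := by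
  have hq0 : 0 < q := by linarith
  obtain ⟨C, hC, hup⟩ := upB hq hq4 hu
  have hC0 : 0 < C := by linarith
  have hC1 : 1 / C ≤ 1 := by rw [div_le_one hC0]; exact hC
  -- the common part vanishes
  have hzero : ∀ (n : ℕ) (B : Finset (ℤ × ℤ)), 34 ≤ n → B ⊆ HB n → Gam q (4 * n) B = 0 →
      ∀ (R : ℤ) (F : Finset (Sym2 (ℤ × ℤ))) (t : ℤ × ℤ), 16 * n ≤ R → Env R F t →
        hit q R F B t = 0 := by
    intro n B hn hB h0 R F t hR he
    have h1 := hup n R F t B hn hR he hB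
    rw [h0, mul_zero, mul_zero] at h1
    exact le_antisymm h1 (sb_hit hq0 _ _ _ _)
  refine ⟨C, hC, ?_, ?_⟩
  · intro n m M A B hn hmM hA hB hr
    have hr' : RB q (4 * (n : ℤ) - 1) m M A B := hr
    by_cases h0 : Gam q (4 * n) B = 0
    · refine ⟨m, m, le_rfl, le_rfl, hmM, ?_, ?_⟩
      · rw [sub_self]
        exact mul_nonneg (by linarith) (by linarith)
      · intro R F t hR he
        have h1 := hzero n B hn hB h0 R F t hR he
        have h2 := hr R F t (by omega) he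
        rw [h1, mul_zero, mul_zero] at h2
        rw [h1, mul_zero]
        exact h2
    · have hG : 0 < Gam q (4 * (n : ℤ)) B := lt_of_le_of_ne (sb_Gam hq0 _ _) (Ne.symm h0)
      obtain ⟨ρ, hρ⟩ : ∃ ρ : ℝ, ρ = Gam q (4 * (n : ℤ)) A / Gam q (4 * (n : ℤ)) B := ⟨_, rfl⟩
      have hGA : Gam q (4 * (n : ℤ)) A = ρ * Gam q (4 * (n : ℤ)) B := by
        rw [hρ]; field_simp
      have hrat := sb_Gam_ratio hq0 (l := 4 * (n : ℤ)) (by omega) hr'
      rw [hGA] at hrat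
      have h1 : m ≤ ρ := le_of_mul_le_mul_right hrat.1 hG
      have h2 : ρ ≤ M := le_of_mul_le_mul_right hrat.2 hG
      have h3 : 0 ≤ (ρ - m) / C := div_nonneg (by linarith) hC0.le
      have h4 : 0 ≤ (M - ρ) / C := div_nonneg (by linarith) hC0.le
      have h5 : M - (M - ρ) / C - (m + (ρ - m) / C) = (1 - 1 / C) * (M - m) := by ring
      have h6 : 0 ≤ (1 - 1 / C) * (M - m) := mul_nonneg (by linarith) (by linarith)
      refine ⟨m + (ρ - m) / C, M - (M - ρ) / C, by linarith, by linarith, by linarith, h5.le, ?_⟩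
      intro R F t hR he
      have h7 := sb_rest hq (l := 4 * (n : ℤ)) (by omega) (by omega) (sb_sub hA) (sb_sub hB) hr' he
      rw [hGA] at h7
      have h8 := hup n R F t B hn hR he hB
      exact ⟨sb_alg2 hC h1 h7.1 h8, sb_alg1 hC h2 h7.2 h8⟩
  · intro n A B hn hA hB
    by_cases h0 : Gam q (4 * n) B = 0
    · exact Or.inl (hzero n B hn hB h0)
    · right
      have hG : 0 < Gam q (4 * (n : ℤ)) B := lt_of_le_of_ne (sb_Gam hq0 _ _) (Ne.symm h0)
      obtain ⟨ρ, hρ⟩ : ∃ ρ : ℝ, ρ = Gam q (4 * (n : ℤ)) A / Gam q (4 * (n : ℤ)) B := ⟨_, rfl⟩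
      have hGA : Gam q (4 * (n : ℤ)) A = ρ * Gam q (4 * (n : ℤ)) B := by
        rw [hρ]; field_simp
      have hρ0 : 0 ≤ ρ := by
        rw [hρ]; exact div_nonneg (sb_Gam hq0 _ _) hG.le
      refine ⟨ρ, hρ0, ?_⟩
      intro R F t hR he
      have h1 := hup n R F t B hn hR he hB
      have h2 := hup n R F t A hn hR he hA
      have h3 := lowB hq (l := 4 * (n : ℤ)) (by omega) (by omega) he (sb_sub hA)
      have h4 := lowB hq (l := 4 * (n : ℤ)) (by omega) (by omega) he (sb_sub hB)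
      rw [hGA] at h2 h3
      obtain ⟨x, hx⟩ : ∃ x : ℝ, x = hit q R F (HB (4 * (n : ℤ))) t * Gam q (4 * (n : ℤ)) B :=
        ⟨_, rfl⟩
      rw [← hx] at h1 h4
      have e : hit q R F (HB (4 * (n : ℤ))) t * (ρ * Gam q (4 * (n : ℤ)) B) = ρ * x := by
        rw [hx]; ring
      rw [e] at h2 h3
      constructor
      · rw [div_mul_eq_mul_div, div_le_iff₀ hC0]
        have h5 : ρ * hit q R F B t ≤ ρ * (C * x) := mul_le_mul_of_nonneg_left h1 hρ0
        have h6 : C * (ρ * x) ≤ C * hit q R F A t := mul_le_mul_of_nonneg_left h3 hC0.le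
        linarith
      · have h5 : C * ρ * x ≤ C * ρ * hit q R F B t :=
          mul_le_mul_of_nonneg_left h4 (by positivity)
        linarith

end Pool.Agent.IDK
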