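import Pool.Agent.H95.SumRule.Defs

/-!
Touching probabilities of the interface of the critical random-cluster model with Dobrushin boundary
conditions in a rectangle: the bottom side is wired, the three other sides are free. The interface
separates the cluster of the bottom side from the dual cluster of the free sides; it touches an arc of a
free side if some vertex of the arc belongs to the cluster of the bottom side, and it touches an arc of
the bottom side if some edge of the arc is a bridge.
-/

namespace Pool.Agent.IDK

open Pool.Agent.H95.SumRule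

/-- Rectangle `{0, …, n} × {0, …, M}`: probability that a vertex `(i, M)`, `i ∈ S`, of the top side is
connected to the wired bottom side. -/
noncomputable def topTouch (q : ℝ) (n M : ℕ) (S : Set ℕ) : ℝ :=
  fkProb (selfDual q) q (domain n fun _ => M) (bottomArc 0 n)
    fun ω => ∃ i ∈ S, (openGraph ω).Reachable (0, 0) ((i : ℤ), (M : ℤ))

/-- Rectangle `{0, …, n} × {0, …, M}`: probability that a vertex `(0, y)`, `y ∈ S`, of the left side is
connected to the wired bottom side. -/
noncomputable def leftTouch (q : ℝ) (n M : ℕ) (S : Set ℕ) : ℝ :=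
  fkProb (selfDual q) q (domain n fun _ => M) (bottomArc 0 n)
    fun ω => ∃ y ∈ S, (openGraph ω).Reachable (0, 0) (0, (y : ℤ))

/-- Rectangle `{0, …, n} × {0, …, M}`: probability that a wired edge from `(i, 0)` to `(i + 1, 0)`,
`i ∈ S`, is a bridge, that is, its ends are not connected once this edge is removed. -/
noncomputable def bottomTouch (q : ℝ) (n M : ℕ) (S : Set ℕ) : ℝ :=
  fkProb (selfDual q) q (domain n fun _ => M) (bottomArc 0 n)
    fun ω => ∃ i ∈ S, i < n ∧
      ¬ (openGraph (ω.erase s(((i : ℤ), 0), ((i : ℤ) + 1, 0)))).Reachable ((i : ℤ), 0) ((i : ℤ) + 1, 0)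

/-- Rectangle `{0, …, N r} × {0, …, M}`: expected number of touched arcs `[j r, (j + 1) r)` of the top
side. -/
noncomputable def touchedTop (q : ℝ) (N r M : ℕ) : ℝ :=
  ∑ j ∈ Finset.range N, topTouch q (N * r) M (Set.Ico (j * r) ((j + 1) * r))

/-- The same for the left side, which has `M / r` arcs. -/
noncomputable def touchedLeft (q : ℝ) (N r M : ℕ) : ℝ :=
  ∑ j ∈ Finset.range (M / r), leftTouch q (N * r) M (Set.Ico (j * r) ((j + 1) * r))

/-- The same for the bottom side. -/
noncomputable def touchedBottom (q : ℝ) (N r M : ℕ) : ℝ :=
  ∑ j ∈ Finset.range N, bottomTouch q (N * r) M (Set.Ico (j * r) ((j + 1) * r))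

end Pool.Agent.IDK
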