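import Pool.Agent.IDK.GBal
import Pool.Agent.IDK.TBDefs
import Pool.Agent.FKR.C4

/-! # IDK/TBMain (MP_b3e76a_pr): the touch balance in elementary terms -/

namespace Pool.Agent.IDK

open Pool.Agent.FKR

theorem tb_main (q : ℝ) (hq : 1 ≤ q) (hq4 : q < 4) (α ε : ℝ) (hα : 0 < α) (hε : 0 < ε) :
    ∃ N₀ : ℕ, ∀ N ≥ N₀, ∃ r₀ : ℕ, ∀ r ≥ r₀, ∀ M : ℕ, α * (N * r) ≤ M →
      |touchedTop q N r M + √q * touchedLeft q N r M - touchedBottom q N r M| ≤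
        ε * touchedLeft q N r M :=
  touch_balance hq hq4 (uu_ge hq hq4) hα hε

end Pool.Agent.IDK
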