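import Pool.Agent.IDK.DecB
import Pool.Agent.IDK.CutHC
import Pool.Agent.IDK.DecA
import Pool.Agent.IDK.ExtB

/-! # IDK/UpB (MP_b3e76a_pr): the common part is a positive fraction

`l = 4 n`. (1) `hit q R F A t ≤ sup * P q (HE R) F (∃ u ∈ HB (4n), Cn ω u t)`: if `HitA A t ω`, `a ∈ A ⊆ HB n`, then `Out A (4n)` and hence `Out A (2n)` holds, and (last exit, i.e. `Cn.exit_tc` or `Cn_tc_iff` with `S v = (v ∉ HB (4n))` from `t`) some `u ∈ HB (4n)` is connected to `t` by edges with an end outside `HB (4n)`, i.e. not in `HE (4n)`: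
`B ω = ∃ u ∈ HB (4n), Cn (ω \\ HE (4n)) u t`. `P_indep_le` with `D = HE (4n)`, `A = Out A (2n)`, this `B`; for `η ⊆ HE R \\ HE (4n)`: `P q (HE (4n)) (F ∪ η) (Out A (2n)) ≤ C1 * P q (HE (4n)) ∅ (Out A (2n))` (`decA`; edges of `HE R \\ HE (4n)` do not touch `HB (4n-1)`). `B` implies `HitA (HB (4n)) t`.
(2) `P q (HE (4n)) ∅ (Out A (2n)) ≤ P q (HE (16n)) ∅ (Out A (2n)) ≤ (1/c) P q (HE (16n)) ∅ (Out A (9n))` (`P_HE_mono`, `extB` with `S = 9`, `13 n ≤ 16 n`).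
(3) `c' * P q (HE (16 n)) ∅ (Out A (9n)) ≤ P q (HE (16 n)) ∅ (HC (4n) ∧ Out A (9n))` (`hc_ge` with `4 n`, `P_fkg`), and `HC (4n) ω` implies `Circ (4n) ω` (`HC_circ`), `Out A (9n) ω` then implies `InN (4n) (NN (4n) ω) A ω` (`cut_in` with `R = 16 n`, `F = ∅`; `HB (8n) ⊆ HB (9n - 1)`): this is `Gam q (4n) A` by `Gam_eq`.
`lowB`: `hit_dec`, `WN_ge`, the last term is `≥ 0`, `gam ≥ 0`. -/

namespace Pool.Agent.IDK

open Finset
open Pool.Agent.FKR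
open Pool.Agent.H95.Perc (Inc conn link rect hor ver eh ev sumE sepE Inci mem_rect)
open Pool.Agent.H95.SumRule (edgesIn Z2)

variable {q : ℝ}

theorem gam_nonneg (hq : 0 < q) (l : ℤ) (N A : Finset (ℤ × ℤ)) : 0 ≤ gam q l N A :=
  P_nonneg hq _ _ _

private theorem upb_sub {l R : ℤ} (h : l ≤ R) {v : ℤ × ℤ} (hv : v ∈ HB l) : v ∈ HB R := by
  rw [mem_HB] at hv ⊢
  omega

/-- last exit from `HB N` -/
private theorem upb_exit {N : ℤ} {ω : Finset (Sym2 (ℤ × ℤ))} {a t : ℤ × ℤ} (ha : a ∈ HB N)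
    (ht : t ∉ HB N) (h : Cn ω a t) : ∃ u ∈ HB N, Cn (ω \ HE N) u t := by
  obtain ⟨y, hy, hc⟩ := h.symm.exit_tc (S := fun v => v ∉ HB N) ht (by simpa using ha)
  have hy' : y ∈ HB N := by simpa using hy
  refine ⟨y, hy', (hc.mono ?_).symm⟩
  intro e he
  obtain ⟨h1, v, hv, hv'⟩ := mem_tc'.1 he
  refine mem_sdiff.2 ⟨h1, fun h2 => ?_⟩
  obtain ⟨w, rfl⟩ := hv
  exact hv' (mem_HE.1 h2).1

private theorem upb_env {N R : ℤ} {e : Sym2 (ℤ × ℤ)} (he : e ∈ HE R) (he' : e ∉ HE N) {v : ℤ × ℤ}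
    (hv : v ∈ e) : v ∉ HB (N - 1) := by
  intro h
  obtain ⟨w, rfl⟩ := hv
  obtain ⟨h1, h2, h3⟩ := mem_HE.1 he
  refine he' (mem_HE.2 ⟨upb_sub (by omega) h, ?_, h3⟩)
  rw [mem_HB] at h h2 ⊢
  rw [Z2_adj_iff] at h3
  omega

private theorem upb_arith {h C1 c c' X X' Y B H G : ℝ} (hC1 : 0 ≤ C1) (hc : 0 < c) (hc' : 0 < c')
    (hX0 : 0 ≤ X) (hY0 : 0 ≤ Y) (hH0 : 0 ≤ H) (s2 : h ≤ (C1 * X) * B) (s3 : B ≤ H) (s4 : X ≤ X')
    (s5 : c * X' ≤ Y) (s6 : c' * Y ≤ G) : h ≤ (C1 / (c * c') + 1) * (H * G) := by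
  have hG0 : 0 ≤ G := (mul_nonneg hc'.le hY0).trans s6
  have hXG : X ≤ G / (c * c') := by
    rw [le_div_iff₀ (by positivity)]
    calc X * (c * c') = c' * (c * X) := by ring
      _ ≤ c' * (c * X') := by gcongr
      _ ≤ c' * Y := by gcongr
      _ ≤ G := s6
  calc h ≤ (C1 * X) * B := s2
    _ ≤ (C1 * X) * H := by gcongr
    _ ≤ (C1 * (G / (c * c'))) * H := by gcongr
    _ = C1 / (c * c') * (H * G) := by ring
    _ ≤ (C1 / (c * c') + 1) * (H * G) := by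
        have : 0 ≤ H * G := mul_nonneg hH0 hG0
        linarith

theorem upB (hq : 1 ≤ q) (hq4 : q < 4) (hu : UU q) : ∃ C : ℝ, 1 ≤ C ∧ ∀ (n : ℕ) (R : ℤ)
    (F : Finset (Sym2 (ℤ × ℤ))) (t : ℤ × ℤ) (A : Finset (ℤ × ℤ)), 34 ≤ n → 16 * n ≤ R → Env R F t →
    A ⊆ HB n → hit q R F A t ≤ C * (hit q R F (HB (4 * n)) t * Gam q (4 * n) A) := by
  classical
  have hq0 : 0 < q := by linarith
  obtain ⟨C1, hC1, hA1⟩ := decA hq hu
  obtain ⟨c, hc, hext⟩ := extB hq hq4 hu 9 (by norm_num)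
  obtain ⟨c', hc', hhc⟩ := hc_ge hq hq4 hu
  refine ⟨C1 / (c * c') + 1, ?_, fun n R F t A hn hR he hA => ?_⟩
  · have : 0 ≤ C1 / (c * c') := by positivity
    linarith
  have hn' : (34 : ℤ) ≤ n := by exact_mod_cast hn
  -- step 1
  have s1 : hit q R F A t ≤ P q (HE R) F (fun ω => Out A (2 * n) ω ∧
      ∃ u ∈ HB (4 * n), Cn (ω \ HE (4 * n)) u t) := by
    refine P_mono hq0 fun ζ hζ h => ?_
    obtain ⟨a, ha, hat⟩ := h
    refine ⟨⟨a, ha, t, fun h2 => he.tout (upb_sub (by omega) h2), hat⟩, ?_⟩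
    exact upb_exit (upb_sub (by omega) (hA ha)) (fun h2 => he.tout (upb_sub (by omega) h2)) hat
  have s2 : P q (HE R) F (fun ω => Out A (2 * n) ω ∧
      ∃ u ∈ HB (4 * n), Cn (ω \ HE (4 * n)) u t) ≤
      (C1 * P q (HE (4 * n)) ∅ (Out A (2 * n))) *
        P q (HE R) F (fun ω => ∃ u ∈ HB (4 * n), Cn (ω \ HE (4 * n)) u t) := by
    refine P_indep_le (D := HE (4 * (n : ℤ))) (A := Out A (2 * (n : ℤ)))
      (B := fun ω => ∃ u ∈ HB (4 * (n : ℤ)), Cn (ω \ HE (4 * (n : ℤ))) u t) hq0 (HE_NL R) he.nl (HE_mono (by omega)) ?_ ?_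
    · intro ω ω' _ _ h h2
      rw [← h]
      exact h2
    · intro η hη
      refine hA1 n (F ∪ η) A hn ?_ ?_ (fun a ha => upb_sub (by omega) (hA ha))
      · intro e he2
        rcases mem_union.1 he2 with h | h
        · exact he.nl e h
        · exact HE_NL R e (mem_sdiff.1 (hη h)).1
      · intro e he2 v hv
        rcases mem_union.1 he2 with h | h
        · exact fun h3 => he.fr e h v hv (upb_sub (by omega) h3)
        · obtain ⟨h4, h5⟩ := mem_sdiff.1 (hη h)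
          exact upb_env h4 h5 hv
  have s3 : P q (HE R) F (fun ω => ∃ u ∈ HB (4 * n), Cn (ω \ HE (4 * n)) u t) ≤
      hit q R F (HB (4 * n)) t := by
    refine P_mono hq0 fun ζ hζ h => ?_
    obtain ⟨u, hu2, h2⟩ := h
    exact ⟨u, hu2, h2.mono sdiff_subset⟩
  -- step 2
  have s4 : P q (HE (4 * n)) ∅ (Out A (2 * n)) ≤ P q (HE (16 * n)) ∅ (Out A (2 * n)) :=
    P_HE_mono hq (by omega) (inc_Out _ _)
  have s5 : c * P q (HE (16 * n)) ∅ (Out A (2 * n)) ≤ P q (HE (16 * n)) ∅ (Out A (9 * n)) := by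
    have := hext n (16 * n) A (by omega) (by push_cast; omega) hA
    push_cast at this
    exact this
  -- step 3
  have s6 : c' ≤ P q (HE (16 * n)) ∅ (HC (4 * n)) := by
    have := hhc (4 * n) (by omega)
    push_cast at this
    have e : (4 : ℤ) * (4 * n) = 16 * n := by ring
    rw [e] at this
    exact this
  have s7 : P q (HE (16 * n)) ∅ (HC (4 * n)) * P q (HE (16 * n)) ∅ (Out A (9 * n)) ≤
      P q (HE (16 * n)) ∅ (fun ω => HC (4 * n) ω ∧ Out A (9 * n) ω) :=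
    P_fkg hq (HE_NL _) NL_empty (inc_HC _) (inc_Out _ _)
  have s8 : P q (HE (16 * n)) ∅ (fun ω => HC (4 * n) ω ∧ Out A (9 * n) ω) ≤ Gam q (4 * n) A := by
    rw [Gam_eq hq (by omega) (fun a ha => upb_sub (by omega) (hA ha))]
    have e : (4 : ℤ) * (4 * n) = 16 * n := by ring
    rw [e]
    refine P_mono hq0 fun ζ hζ h => ?_
    obtain ⟨h1, a, ha, v, hv, hav⟩ := h
    have hci := HC_circ (by omega) h1
    refine ⟨hci, ?_⟩
    have hval : Val (4 * n) (NN (4 * n) (ζ ∪ ∅)) := ⟨_, hci, rfl⟩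
    obtain ⟨v', hv', hav'⟩ := cut_in (R := 16 * n) (F := ∅) (by omega) hval
      (fun e he => absurd he (notMem_empty e)) (union_subset_union hζ (Subset.refl _))
      (upb_sub (by omega) (hA ha)) (fun h2 => hv (upb_sub (by omega) h2)) hav
    exact ⟨a, ha, v', hv', hav'⟩
  have hH0 : 0 ≤ hit q R F (HB (4 * n)) t := P_nonneg hq0 _ _ _
  have hY0 : 0 ≤ P q (HE (16 * n)) ∅ (Out A (9 * n)) := P_nonneg hq0 _ _ _
  have hX0 : 0 ≤ P q (HE (4 * n)) ∅ (Out A (2 * n)) := P_nonneg hq0 _ _ _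
  exact upb_arith (by linarith) hc hc' hX0 hY0 hH0 (s1.trans s2) s3 s4 s5
    (((mul_le_mul_of_nonneg_right s6 hY0).trans s7).trans s8)

theorem lowB (hq : 1 ≤ q) {l R : ℤ} (hl : 1 ≤ l) (hR : 4 * l ≤ R) {F : Finset (Sym2 (ℤ × ℤ))}
    {t : ℤ × ℤ} (he : Env R F t) {A : Finset (ℤ × ℤ)} (hA : A ⊆ HB l) :
    hit q R F (HB l) t * Gam q l A ≤ hit q R F A t := by
  have hq0 : 0 < q := by linarith
  rw [hit_dec hq hl hR he hA, Gam, mul_sum]
  have h1 : ∑ N ∈ VN l, hit q R F (HB l) t * (aN q l N * gam q l N A) ≤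
      ∑ N ∈ VN l, WN q R l F t N * gam q l N A := by
    refine sum_le_sum fun N hN => ?_
    rw [← mul_assoc]
    exact mul_le_mul_of_nonneg_right (WN_ge hq hl hR he (mem_VN.1 hN)) (gam_nonneg hq0 _ _ _)
  have h2 := P_nonneg hq0 (HE R) F (fun ω => HitA A t ω ∧ ¬ Circ l ω)
  linarith

end Pool.Agent.IDK
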